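import Pool.Agent.Helper96.OF.FT1

/-!
# OF-FT2: measurability and integrability of nice functions

`nice_bdd`: on the closed unit square minus the four open corner boxes (compact, contained in Cross) `f s` is continuous, hence bounded; on the boxes it is constant. (Open unit square; the box points with
a coordinate exactly ρ etc. are in the compact part.)
`nice_meas`: X is countable and discrete, `f s` is continuous on Cross ⊇ unitSq, so `fl f` is a.e. strongly measurable for `mu X` (mu is concentrated on `X × unitSq`; use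
`aestronglyMeasurable` on each slice, `Measure.count` = sum of diracs, or measurability of `(s,p) ↦ indicator unitSq (f s) p` via `measurable_from_prod_countable`).
`nice_memLp`: FinS + bounded on each square, `mu ({s} × unitSq) = 1`. Works for every exponent.
`integral_mu`: Fubini for the counting measure.
-/

set_option autoImplicit false

open MeasureTheory

namespace Pool.Agent.Helper96.OF

variable {X : Type} [Countable X] [MeasurableSpace X] [DiscreteMeasurableSpace X] {α β : Equiv.Perm X}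

private theorem measurableSet_unitSq : MeasurableSet unitSq := measurableSet_Ioo.prod measurableSet_Ioo

private theorem volume_unitSq_lt : (volume : Measure (ℝ × ℝ)) unitSq < ⊤ := by
  rw [unitSq, Measure.volume_eq_prod, Measure.prod_prod]
  simp

/-- a.e. statements can be checked on `X × unitSq` -/
theorem ae_mu_of (P : Sq X → Prop) (h : ∀ s, ∀ p ∈ unitSq, P (s, p)) : ∀ᵐ q ∂(mu X), P q := by
  have hnull : (mu X) ((Set.univ : Set X) ×ˢ unitSqᶜ) = 0 := by
    rw [mu, Measure.prod_prod, Measure.restrict_apply' measurableSet_unitSq]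
    simp
  refine measure_mono_null ?_ hnull
  rintro ⟨s, p⟩ hq
  refine ⟨trivial, fun hp => hq (h s p hp)⟩

theorem nice_bdd {f : X → ℝ × ℝ → ℂ} {c : X → ℂ} (hf : Nice α β f c) (s : X) :
    ∃ C : ℝ, ∀ p ∈ unitSq, ‖f s p‖ ≤ C := by
  obtain ⟨ρ, hρ0, hρ1, hρ⟩ := hf.corner
  have hcont : ContinuousOn (f s) Cross := (hf.smooth s).continuousOn
  have hK : IsCompact ((Set.Icc ρ (1 - ρ) ×ˢ Set.Icc (0:ℝ) 1) ∪ (Set.Icc (0:ℝ) 1 ×ˢ Set.Icc ρ (1 - ρ))) :=
    (isCompact_Icc.prod isCompact_Icc).union (isCompact_Icc.prod isCompact_Icc)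
  have hKC : ((Set.Icc ρ (1 - ρ) ×ˢ Set.Icc (0:ℝ) 1) ∪ (Set.Icc (0:ℝ) 1 ×ˢ Set.Icc ρ (1 - ρ))) ⊆ Cross := by
    rintro ⟨x, y⟩ (⟨⟨h1, h2⟩, -⟩ | ⟨-, ⟨h1, h2⟩⟩)
    · right
      exact ⟨lt_of_lt_of_le hρ0 h1, lt_of_le_of_lt h2 (by linarith)⟩
    · left
      exact ⟨lt_of_lt_of_le hρ0 h1, lt_of_le_of_lt h2 (by linarith)⟩
  obtain ⟨C, hC⟩ := hK.exists_bound_of_continuousOn (hcont.mono hKC)
  refine ⟨max C 0 + ‖c s‖ + ‖c (α s)‖ + ‖c (β s)‖ + ‖c (β (α s))‖, ?_⟩
  rintro ⟨x, y⟩ ⟨⟨hx0, hx1⟩, ⟨hy0, hy1⟩⟩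
  simp only at hx0 hx1 hy0 hy1
  have n0 := le_max_right C 0
  have n1 := norm_nonneg (c s)
  have n2 := norm_nonneg (c (α s))
  have n3 := norm_nonneg (c (β s))
  have n4 := norm_nonneg (c (β (α s)))
  by_cases hin : (x, y) ∈ ((Set.Icc ρ (1 - ρ) ×ˢ Set.Icc (0:ℝ) 1) ∪ (Set.Icc (0:ℝ) 1 ×ˢ Set.Icc ρ (1 - ρ)))
  · have := hC _ hin
    have h0 := le_max_left C 0
    linarith
  · simp only [Set.mem_union, Set.mem_prod, Set.mem_Icc, not_or, not_and, not_le] at hin
    obtain ⟨h1, h2⟩ := hin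
    rcases lt_or_ge x ρ with hx | hx
    · rcases lt_or_ge y ρ with hy | hy
      · have := (hρ s x y hx0 hx hy0 hy).1
        rw [this]; linarith
      · have hy' : 1 - ρ < y := h2 ⟨hx0.le, hx1.le⟩ hy
        have := (hρ s x (1 - y) hx0 hx (by linarith) (by linarith)).2.2.1
        rw [sub_sub_cancel] at this
        rw [this]; linarith
    · have hx' : 1 - ρ < x := by
        by_contra hcon
        push Not at hcon
        exact absurd (h1 ⟨hx, hcon⟩ hy0.le) (by linarith)
      rcases lt_or_ge y ρ with hy | hy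
      · have := (hρ s (1 - x) y (by linarith) (by linarith) hy0 hy).2.1
        rw [sub_sub_cancel] at this
        rw [this]; linarith
      · have hy' : 1 - ρ < y := h2 ⟨hx0.le, hx1.le⟩ hy
        have := (hρ s (1 - x) (1 - y) (by linarith) (by linarith) (by linarith) (by linarith)).2.2.2
        rw [sub_sub_cancel, sub_sub_cancel] at this
        rw [this]; linarith

theorem nice_meas {f : X → ℝ × ℝ → ℂ} {c : X → ℂ} (hf : Nice α β f c) :
    AEStronglyMeasurable (fl f) (mu X) := by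
  classical
  have hmeas : MeasurableSet unitSq := measurableSet_Ioo.prod measurableSet_Ioo
  have hm : Measurable (fun q : Sq X => unitSq.indicator (f q.1) q.2) := by
    refine measurable_from_prod_countable_right fun s => ?_
    have : ContinuousOn (f s) unitSq := (hf.smooth s).continuousOn.mono unitSq_subset_Cross
    have h2 := ContinuousOn.measurable_piecewise this (continuousOn_const (c := (0:ℂ))) hmeas
    have h3 : unitSq.piecewise (f s) (fun _ => (0:ℂ)) = unitSq.indicator (f s) :=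
      Set.piecewise_eq_indicator
    rw [h3] at h2
    exact h2
  refine ⟨_, hm.stronglyMeasurable, ?_⟩
  refine ae_mu_of _ fun s p hp => ?_
  simp [fl, Set.indicator_of_mem hp]

theorem nice_memLp {f : X → ℝ × ℝ → ℂ} {c : X → ℂ} (hf : Nice α β f c) (hs : FinS f) (p : ENNReal) :
    MemLp (fl f) p (mu X) := by
  obtain ⟨S, hS⟩ := hs
  have hA : MeasurableSet ((S : Set X) ×ˢ (Set.univ : Set (ℝ × ℝ))) :=
    (S.measurableSet).prod MeasurableSet.univ
  have hae : fl f =ᵐ[mu X] ((S : Set X) ×ˢ (Set.univ : Set (ℝ × ℝ))).indicator (fl f) := by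
    refine ae_mu_of _ fun s p hp => ?_
    by_cases h : s ∈ S
    · rw [Set.indicator_of_mem]
      exact ⟨h, trivial⟩
    · rw [Set.indicator_of_notMem (by simp [h])]
      exact hS s h p hp
  rw [memLp_congr_ae hae, memLp_indicator_iff_restrict hA]
  have hfin : (mu X) ((S : Set X) ×ˢ (Set.univ : Set (ℝ × ℝ))) < ⊤ := by
    rw [mu, Measure.prod_prod, Measure.restrict_apply_univ]
    refine ENNReal.mul_lt_top ?_ ?_
    · rw [Measure.count_apply_finset]
      exact ENNReal.natCast_lt_top _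
    · exact volume_unitSq_lt
  have : IsFiniteMeasure ((mu X).restrict ((S : Set X) ×ˢ (Set.univ : Set (ℝ × ℝ)))) :=
    isFiniteMeasure_restrict.2 hfin.ne
  choose C hC using fun s => nice_bdd hf s
  refine MemLp.of_bound (nice_meas hf).restrict (∑ s ∈ S, |C s|) ?_
  rw [ae_restrict_iff' hA]
  refine ae_mu_of _ fun s p hp hsp => ?_
  have h1 : ‖f s p‖ ≤ |C s| := (hC s p hp).trans (le_abs_self _)
  refine h1.trans ?_
  exact Finset.single_le_sum (f := fun s => |C s|) (fun i _ => abs_nonneg _) hsp.1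

theorem integrable_mu_iff (q : Sq X → ℂ) (hq : AEStronglyMeasurable q (mu X)) :
    Integrable q (mu X) ↔ (∀ s, IntegrableOn (fun p => q (s, p)) unitSq) ∧
      Summable fun s => ∫ p in unitSq, ‖q (s, p)‖ := by
  rw [mu] at hq ⊢
  rw [integrable_prod_iff hq, Measure.ae_count_iff, integrable_count_iff]
  have h : ∀ s, ‖∫ p in unitSq, ‖q (s, p)‖‖ = ∫ p in unitSq, ‖q (s, p)‖ := fun s =>
    Real.norm_of_nonneg (integral_nonneg fun _ => norm_nonneg _)
  simp only [h]
  rfl

theorem integral_mu (q : Sq X → ℂ) (hq : Integrable q (mu X)) :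
    ∫ x, q x ∂(mu X) = ∑' s, ∫ p in unitSq, q (s, p) ∧
      HasSum (fun s => ∫ p in unitSq, q (s, p)) (∫ x, q x ∂(mu X)) := by
  have h1 : ∫ x, q x ∂(mu X) = ∫ s, (∫ p in unitSq, q (s, p)) ∂(Measure.count : Measure X) := by
    rw [mu] at hq ⊢
    exact integral_prod _ hq
  have h2 : Integrable (fun s => ∫ p in unitSq, q (s, p)) (Measure.count : Measure X) := by
    rw [mu] at hq
    exact hq.integral_prod_left
  have h3 : Summable (fun s => ∫ p in unitSq, q (s, p)) := (integrable_count_iff.1 h2).of_norm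
  have h4 : ∫ x, q x ∂(mu X) = ∑' s, ∫ p in unitSq, q (s, p) := by
    rw [h1, integral_countable h2]
    simp [Measure.real]
  refine ⟨h4, ?_⟩
  rw [h4]
  exact h3.hasSum

instance : SigmaFinite (mu X) := by
  unfold mu
  infer_instance

theorem cls_ae {q : Sq X → ℂ} (hq : MemLp q 2 (mu X)) : (cls q : Sq X → ℂ) =ᵐ[mu X] q := by
  rw [cls, dif_pos hq]
  exact hq.coeFn_toLp

theorem cls_congr {q q' : Sq X → ℂ} (h : q =ᵐ[mu X] q') : cls q = cls q' := by
  unfold cls
  by_cases hq : MemLp q 2 (mu X)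
  · have hq' : MemLp q' 2 (mu X) := (memLp_congr_ae h).1 hq
    rw [dif_pos hq, dif_pos hq']
    exact (MemLp.toLp_eq_toLp_iff _ _).2 h
  · have hq' : ¬ MemLp q' 2 (mu X) := fun h' => hq ((memLp_congr_ae h).2 h')
    rw [dif_neg hq, dif_neg hq']

theorem cls_add {q q' : Sq X → ℂ} (hq : MemLp q 2 (mu X)) (hq' : MemLp q' 2 (mu X)) :
    cls (fun x => q x + q' x) = cls q + cls q' := by
  have hs : MemLp (fun x => q x + q' x) 2 (mu X) := hq.add hq'
  rw [cls, cls, cls, dif_pos hq, dif_pos hq', dif_pos hs]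
  exact MemLp.toLp_add hq hq'

theorem cls_smul {q : Sq X → ℂ} (hq : MemLp q 2 (mu X)) (k : ℂ) :
    cls (fun x => k * q x) = k • cls q := by
  have hs : MemLp (fun x => k * q x) 2 (mu X) := hq.const_mul k
  rw [cls, cls, dif_pos hq, dif_pos hs]
  exact MemLp.toLp_const_smul k hq

theorem inner_KK (u v : KK X) :
    inner ℂ u v = ∫ x, (starRingEnd ℂ) ((u : Sq X → ℂ) x) * (v : Sq X → ℂ) x ∂(mu X) := by
  rw [L2.inner_def]
  refine integral_congr_ae (Filter.Eventually.of_forall fun x => ?_)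
  simp only [RCLike.inner_apply]
  ring

theorem cls_norm {q : Sq X → ℂ} (hq : MemLp q 2 (mu X)) :
    ‖cls q‖ ^ 2 = ∫ x, ‖q x‖ ^ 2 ∂(mu X) := by
  have h1 : ((‖cls q‖ ^ 2 : ℝ) : ℂ) = ∫ x, (((‖q x‖ ^ 2 : ℝ)) : ℂ) ∂(mu X) := by
    have h2 : inner ℂ (cls q) (cls q) = ((‖cls q‖ : ℂ)) ^ 2 := inner_self_eq_norm_sq_to_K _
    rw [inner_KK] at h2
    push_cast
    rw [← h2]
    refine integral_congr_ae ?_
    filter_upwards [cls_ae hq] with x hx
    rw [hx, mul_comm, Complex.mul_conj, Complex.normSq_eq_norm_sq]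
    push_cast
    rfl
  rw [integral_complex_ofReal] at h1
  exact_mod_cast h1

theorem JK_ae (v : KK X) : (JK X v : Sq X → ℂ) =ᵐ[mu X] fun x => (starRingEnd ℂ) ((v : Sq X → ℂ) x) := by
  have := ContinuousLinearMap.coeFn_compLpL (p := 2) (μ := mu X) (Complex.conjCLE : ℂ →L[ℝ] ℂ) v
  exact this

theorem JK_cls {q : Sq X → ℂ} (hq : MemLp q 2 (mu X)) :
    JK X (cls q) = cls (fun x => (starRingEnd ℂ) (q x)) := by
  have hc : MemLp (fun x => (starRingEnd ℂ) (q x)) 2 (mu X) := by
    refine (memLp_congr_norm (Complex.continuous_conj.comp_aestronglyMeasurable hq.1) hq.1 ?_).2 hq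
    exact Filter.Eventually.of_forall fun x => by simp
  refine Lp.ext ?_
  filter_upwards [JK_ae (cls q), cls_ae hq, cls_ae hc] with x h1 h2 h3
  rw [h1, h2, h3]

end Pool.Agent.Helper96.OF
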