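import Pool.Agent.Helper96.OF.Defs

/-!
# OF-W1 (Weyl): weakly z_τ-holomorphic functions on an open set of the plane are holomorphic

Proof: `w1_conv_hol` (smooth mollifications are holomorphic), `w1_mean` (mean value with a radial weight),
`w1_local` (σ * ρ_n * g = ρ_n * g by the mean value property, ρ_n * (σ * g) → σ * g, so g = σ * g a.e.),
`w1_global` (gluing), `weyl` (linear change of coordinates `zt τ`).
-/


set_option autoImplicit false

open MeasureTheory Filter Topology Metric Complex ContinuousLinearMap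
open scoped Convolution ContDiff

namespace Pool.Agent.Helper96.OF

/-- convolution of a locally weakly holomorphic function with a smooth kernel -/
theorem w1_conv_hol (h : ℂ → ℂ) (hh : LocallyIntegrable h volume) (k : ℂ → ℝ)
    (hk : ContDiff ℝ (⊤ : ℕ∞) k) (hkc : HasCompactSupport k) (z0 : ℂ) (r s : ℝ)
    (hks : tsupport k ⊆ closedBall 0 r)
    (hw : ∀ κ : ℂ → ℂ, ContDiff ℝ (⊤ : ℕ∞) κ → HasCompactSupport κ → tsupport κ ⊆ ball z0 s →
      ∫ z, h z * (I * fderiv ℝ κ z 1 - fderiv ℝ κ z I) = 0) :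
    DifferentiableOn ℂ (k ⋆[lsmul ℝ ℝ, volume] h) (ball z0 (s - r)) := by
  intro z hz
  apply DifferentiableAt.differentiableWithinAt
  rw [differentiableAt_complex_iff_differentiableAt_real]
  rw [← convolution_flip]
  have hk1 : ContDiff ℝ 1 k := hk.of_le (by exact_mod_cast le_top)
  have hD := hkc.hasFDerivAt_convolution_right (lsmul ℝ ℝ : ℝ →L[ℝ] ℂ →L[ℝ] ℂ).flip hh hk1 z
  refine ⟨hD.differentiableAt, ?_⟩
  rw [hD.fderiv]
  rw [convolution_precompR_apply _ hh (hkc.fderiv ℝ) (hk1.continuous_fderiv one_ne_zero),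
    convolution_precompR_apply _ hh (hkc.fderiv ℝ) (hk1.continuous_fderiv one_ne_zero)]
  rw [convolution_def, convolution_def]
  have hint : ∀ v : ℂ, Integrable (fun t => (lsmul ℝ ℝ : ℝ →L[ℝ] ℂ →L[ℝ] ℂ).flip (h t)
      (fderiv ℝ k (z - t) v)) := by
    intro v
    have hc : HasCompactSupport (fun a => fderiv ℝ k a v) := by
      exact (hkc.fderiv ℝ).comp_left (g := fun A : ℂ →L[ℝ] ℝ => A v) rfl
    have hcc : Continuous (fun a => fderiv ℝ k a v) :=
      (hk1.continuous_fderiv one_ne_zero).clm_apply continuous_const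
    exact hc.convolutionExists_right (lsmul ℝ ℝ : ℝ →L[ℝ] ℂ →L[ℝ] ℂ).flip hh hcc z
  rw [smul_eq_mul, ← integral_const_mul, ← sub_eq_zero, ← integral_sub (hint I) ((hint 1).const_mul I)]
  -- the test function
  set κ : ℂ → ℂ := fun t => ((k (z - t) : ℝ) : ℂ) with hκ
  have hκs : ContDiff ℝ (⊤ : ℕ∞) κ := by
    have h1 : ContDiff ℝ (⊤ : ℕ∞) (fun t : ℂ => k (z - t)) := hk.comp (contDiff_const.sub contDiff_id)
    exact Complex.ofRealCLM.contDiff.comp h1
  have hsupp : tsupport κ ⊆ closedBall z r := by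
    apply closure_minimal _ isClosed_closedBall
    intro t ht
    have h1 : k (z - t) ≠ 0 := by
      intro h0
      apply ht
      simp [hκ, h0]
    have h2 : z - t ∈ closedBall (0:ℂ) r := hks (subset_tsupport _ h1)
    rw [mem_closedBall, dist_eq_norm] at h2 ⊢
    rwa [sub_zero, norm_sub_rev] at h2
  have hsub : closedBall z r ⊆ ball z0 s := by
    intro t ht
    rw [mem_ball] at hz ⊢
    rw [mem_closedBall] at ht
    linarith [dist_triangle t z z0]
  have hκc : HasCompactSupport κ :=
    HasCompactSupport.of_support_subset_isCompact (isCompact_closedBall z r)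
      ((subset_tsupport _).trans hsupp)
  have hfd : ∀ t v, fderiv ℝ κ t v = -((fderiv ℝ k (z - t) v : ℝ) : ℂ) := by
    intro t v
    have h1 : HasFDerivAt (fun t : ℂ => z - t) (-(ContinuousLinearMap.id ℝ ℂ)) t := by
      simpa using (hasFDerivAt_id (𝕜 := ℝ) t).const_sub z
    have h2 : HasFDerivAt k (fderiv ℝ k (z - t)) (z - t) :=
      (hk1.differentiable one_ne_zero _).hasFDerivAt
    have h3 := Complex.ofRealCLM.hasFDerivAt.comp t (h2.comp t h1)
    have h4 : fderiv ℝ κ t = _ := h3.fderiv
    rw [h4]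
    simp
  have := hw κ hκs hκc (hsupp.trans hsub)
  rw [← this]
  congr 1
  ext t
  rw [hfd, hfd]
  simp only [ContinuousLinearMap.flip_apply, lsmul_apply, real_smul]
  ring

/-- mean value property with a radial weight -/
theorem w1_mean (F : ℂ → ℂ) (hF : Continuous F) (z : ℂ) (r : ℝ)
    (hd : ∀ w ∈ closedBall z r, DifferentiableAt ℂ F w) (σ : ℂ → ℝ) (hσ : Continuous σ)
    (hrad : ∀ (θ : ℝ) (w : ℂ), σ (exp (θ * I) * w) = σ w) (hs : tsupport σ ⊆ closedBall 0 r)
    (h1 : ∫ w, σ w = 1) : (σ ⋆[lsmul ℝ ℝ, volume] F) z = F z := by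
  have hpi : (0:ℝ) < 2 * Real.pi := by positivity
  rw [convolution_def]
  simp only [lsmul_apply, real_smul]
  -- rotation invariance
  have hrot : ∀ θ : ℝ, ∫ w, ((σ w : ℝ) : ℂ) * F (z - w) = ∫ w, ((σ w : ℝ) : ℂ) * F (z - exp (θ * I) * w) := by
    intro θ
    have hn : ‖exp (θ * I)‖ = 1 := Complex.norm_exp_ofReal_mul_I θ
    have hc : exp (θ * I) ∈ Submonoid.unitSphere ℂ := by
      simp [Submonoid.unitSphere, hn]
    have hmp : MeasurePreserving (rotation ⟨exp (θ * I), hc⟩) volume volume :=
      (rotation ⟨exp (θ * I), hc⟩).measurePreserving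
    have hh := hmp.integral_comp (rotation ⟨exp (θ * I), hc⟩).toHomeomorph.measurableEmbedding
      (fun w => ((σ w : ℝ) : ℂ) * F (z - w))
    rw [← hh]
    congr 1
    ext w
    simp only [rotation_apply]
    rw [hrad]
  set f : ℝ → ℂ → ℂ := fun θ w => ((σ w : ℝ) : ℂ) * F (z - exp (θ * I) * w) with hf
  have hfc : Continuous (Function.uncurry f) := by
    simp only [hf, Function.uncurry_def]
    fun_prop
  have hint : Integrable (Function.uncurry f)
      ((volume.restrict (Set.Ioc 0 (2 * Real.pi))).prod (volume : Measure ℂ)) := by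
    have h2 : (volume.restrict (Set.Ioc 0 (2 * Real.pi))).prod (volume : Measure ℂ)
        = ((volume : Measure ℝ).prod (volume : Measure ℂ)).restrict
          (Set.Ioc 0 (2 * Real.pi) ×ˢ Set.univ) := by
      rw [← Measure.prod_restrict, Measure.restrict_univ]
    rw [h2]
    have h3 : IntegrableOn (Function.uncurry f) (Set.Icc 0 (2 * Real.pi) ×ˢ closedBall (0:ℂ) r)
        ((volume : Measure ℝ).prod (volume : Measure ℂ)) := by
      apply hfc.continuousOn.integrableOn_compact
      exact isCompact_Icc.prod (isCompact_closedBall _ _)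
    apply IntegrableOn.of_forall_sdiff_eq_zero h3 (measurableSet_Ioc.prod MeasurableSet.univ)
    rintro ⟨θ, w⟩ ⟨hx1, hx2⟩
    have hw : w ∉ closedBall (0:ℂ) r := by
      intro hw
      exact hx2 ⟨⟨hx1.1.1.le, hx1.1.2⟩, hw⟩
    have h0 : σ w = 0 := by
      by_contra h0
      exact hw (hs (subset_tsupport _ h0))
    simp [hf, h0]
  have hswap := integral_integral_swap hint
  have hL : ∫ θ in Set.Ioc 0 (2 * Real.pi), ∫ w, f θ w = (2 * Real.pi : ℝ) * ∫ w, ((σ w : ℝ) : ℂ) * F (z - w) := by
    have : ∀ θ : ℝ, ∫ w, f θ w = ∫ w, ((σ w : ℝ) : ℂ) * F (z - w) := fun θ => (hrot θ).symm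
    simp_rw [this]
    rw [setIntegral_const]
    simp [Real.volume_real_Ioc_of_le hpi.le]
  have hR : ∀ w, ∫ θ in Set.Ioc 0 (2 * Real.pi), f θ w = ((σ w : ℝ) : ℂ) * ((2 * Real.pi : ℝ) * F z) := by
    intro w
    simp only [hf]
    rw [integral_const_mul]
    by_cases h0 : σ w = 0
    · simp [h0]
    congr 1
    have hw : w ∈ closedBall (0:ℂ) r := hs (subset_tsupport _ h0)
    rw [mem_closedBall, dist_zero_right] at hw
    rw [← intervalIntegral.integral_of_le hpi.le]
    have h4 : ∀ θ : ℝ, z - exp (θ * I) * w = circleMap z ‖w‖ (θ + arg (-w)) := by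
      intro θ
      have h5 : -w = (‖w‖ : ℂ) * exp (arg (-w) * I) := by
        rw [← norm_neg w]
        exact (Complex.norm_mul_exp_arg_mul_I (-w)).symm
      rw [circleMap]
      push_cast
      rw [add_mul, Complex.exp_add]
      linear_combination (exp (θ * I)) * h5
    simp_rw [h4]
    have hca : Real.circleAverage F z ‖w‖ = F z := by
      apply DiffContOnCl.circleAverage
      rw [abs_norm]
      apply DifferentiableOn.diffContOnCl
      intro u hu
      apply (hd u _).differentiableWithinAt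
      have := closure_ball_subset_closedBall hu
      exact closedBall_subset_closedBall hw this
    rw [Real.circleAverage_eq_integral_add (arg (-w))] at hca
    rw [← hca]
    rw [real_smul]
    push_cast
    have : (2 * (Real.pi : ℂ)) ≠ 0 := by
      exact_mod_cast hpi.ne'
    field_simp
  rw [hL] at hswap
  simp_rw [hR] at hswap
  rw [integral_mul_const] at hswap
  have h6 : ∫ w, ((σ w : ℝ) : ℂ) = 1 := by
    have := integral_ofReal (𝕜 := ℂ) (f := σ) (μ := volume)
    simp only [Complex.coe_algebraMap, RCLike.ofReal] at this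
    rw [show (∫ w, ((σ w : ℝ) : ℂ)) = ((∫ w, σ w : ℝ) : ℂ) from integral_ofReal]
    rw [h1]
    simp
  rw [h6, one_mul] at hswap
  have h7 : ((2 * Real.pi : ℝ) : ℂ) ≠ 0 := by exact_mod_cast hpi.ne'
  exact mul_left_cancel₀ h7 hswap

/-- local holomorphic representative -/
theorem w1_local (U : Set ℂ) (hU : IsOpen U) (g0 : ℂ → ℂ) (hg : LocallyIntegrableOn g0 U volume)
    (hw : ∀ κ : ℂ → ℂ, ContDiff ℝ (⊤ : ℕ∞) κ → HasCompactSupport κ → tsupport κ ⊆ U →
      ∫ z, g0 z * (I * fderiv ℝ κ z 1 - fderiv ℝ κ z I) = 0) (z0 : ℂ) (hz0 : z0 ∈ U) :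
    ∃ r : ℝ, 0 < r ∧ ball z0 r ⊆ U ∧ ∃ g : ℂ → ℂ, DifferentiableOn ℂ g (ball z0 r) ∧
      ∀ᵐ z, z ∈ ball z0 r → g0 z = g z := by
  obtain ⟨ε, hε, hεU⟩ := Metric.isOpen_iff.1 hU z0 hz0
  set r : ℝ := ε / 6 with hr
  have hr0 : 0 < r := by positivity
  have hcl : closedBall z0 (4 * r) ⊆ U :=
    (closedBall_subset_ball (by rw [hr]; linarith)).trans hεU
  set h : ℂ → ℂ := (closedBall z0 (4 * r)).indicator g0 with hh
  have hhi : Integrable h := by
    rw [hh, integrable_indicator_iff isClosed_closedBall.measurableSet]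
    exact hg.integrableOn_compact_subset hcl (isCompact_closedBall _ _)
  have hhl : LocallyIntegrable h volume := hhi.locallyIntegrable
  -- weak equation for h
  have hwh : ∀ κ : ℂ → ℂ, ContDiff ℝ (⊤ : ℕ∞) κ → HasCompactSupport κ → tsupport κ ⊆ ball z0 (4 * r) →
      ∫ z, h z * (I * fderiv ℝ κ z 1 - fderiv ℝ κ z I) = 0 := by
    intro κ h1 h2 h3
    rw [← hw κ h1 h2 (h3.trans (ball_subset_closedBall.trans hcl))]
    congr 1
    ext z
    by_cases hz : z ∈ closedBall z0 (4 * r)
    · rw [hh, Set.indicator_of_mem hz]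
    · have h4 : z ∉ tsupport κ := fun h5 => hz (ball_subset_closedBall (h3 h5))
      have h5 : fderiv ℝ κ z = 0 := by
        have := support_fderiv_subset ℝ (f := κ)
        by_contra h6
        exact h4 (this h6)
      simp [h5]
  -- the radial mollifier
  set σ0 : ℂ → ℝ := fun w => expNegInvGlue (r ^ 2 - ‖w‖ ^ 2) with hσ0
  have hσ0s : ContDiff ℝ (⊤ : ℕ∞) σ0 :=
    expNegInvGlue.contDiff.comp (contDiff_const.sub (contDiff_norm_sq ℝ))
  have hsupp0 : ∀ w, σ0 w ≠ 0 → w ∈ closedBall (0:ℂ) r := by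
    intro w h1
    rw [mem_closedBall, dist_zero_right]
    by_contra h2
    push Not at h2
    apply h1
    apply expNegInvGlue.zero_of_nonpos
    nlinarith [norm_nonneg w]
  have hσ0ts : tsupport σ0 ⊆ closedBall 0 r :=
    closure_minimal (fun w hw => hsupp0 w hw) isClosed_closedBall
  have hσ0c : HasCompactSupport σ0 :=
    HasCompactSupport.of_support_subset_isCompact (isCompact_closedBall 0 r)
      ((subset_tsupport _).trans hσ0ts)
  have hcpos : 0 < ∫ w, σ0 w := by
    apply hσ0s.continuous.integral_pos_of_hasCompactSupport_nonneg_nonzero hσ0c (x := 0)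
    · intro w
      exact expNegInvGlue.nonneg _
    · apply ne_of_gt
      apply expNegInvGlue.pos_of_pos
      simp
      positivity
  set c : ℝ := ∫ w, σ0 w with hc
  set σ : ℂ → ℝ := fun w => σ0 w * c⁻¹ with hσ
  have hσs : ContDiff ℝ (⊤ : ℕ∞) σ := hσ0s.mul contDiff_const
  have hσne : ∀ w, σ w ≠ 0 → σ0 w ≠ 0 := by
    intro w h1 h2
    exact h1 (by simp [hσ, h2])
  have hσts : tsupport σ ⊆ closedBall 0 r :=
    closure_minimal (fun w hw => hsupp0 w (hσne w hw)) isClosed_closedBall
  have hσc : HasCompactSupport σ :=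
    HasCompactSupport.of_support_subset_isCompact (isCompact_closedBall 0 r)
      ((subset_tsupport _).trans hσts)
  have hσ1 : ∫ w, σ w = 1 := by
    simp only [hσ]
    rw [integral_mul_const]
    exact mul_inv_cancel₀ hcpos.ne'
  have hσrad : ∀ (θ : ℝ) (w : ℂ), σ (exp (θ * I) * w) = σ w := by
    intro θ w
    simp only [hσ, hσ0, norm_mul, Complex.norm_exp_ofReal_mul_I, one_mul]
  set H : ℂ → ℂ := σ ⋆[lsmul ℝ ℝ, volume] h with hH
  have hHhol : DifferentiableOn ℂ H (ball z0 r) := by
    apply (w1_conv_hol h hhl σ hσs hσc z0 r (4 * r) hσts hwh).mono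
    exact ball_subset_ball (by linarith)
  have hHc : Continuous H := hσc.continuous_convolution_left _ hσs.continuous hhl
  refine ⟨r, hr0, ?_, H, hHhol, ?_⟩
  · exact (ball_subset_closedBall.trans (closedBall_subset_closedBall (by linarith))).trans hcl
  -- bumps
  let φ : ℕ → ContDiffBump (0 : ℂ) := fun n =>
    { rIn := r / (n + 2) / 2
      rOut := r / (n + 2)
      rIn_pos := by positivity
      rIn_lt_rOut := by
        have : (0:ℝ) < r / (n + 2) := by positivity
        linarith }
  have hφ : Tendsto (fun n => (φ n).rOut) atTop (𝓝 0) := by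
    have h1 : Tendsto (fun n : ℕ => ((n + 2 : ℕ) : ℝ)) atTop atTop :=
      tendsto_natCast_atTop_atTop.comp (tendsto_add_atTop_nat 2)
    have h2 := h1.const_div_atTop r
    refine h2.congr ?_
    intro n
    simp [φ]
  have hφ2 : ∀ᶠ n in atTop, (φ n).rOut ≤ 2 * (φ n).rIn := by
    apply Eventually.of_forall
    intro n
    simp only [φ]
    linarith
  have hae := ContDiffBump.ae_convolution_tendsto_right_of_locallyIntegrable (μ := volume) hφ hφ2 hhl
  filter_upwards [hae] with z hz hzr
  have hHz := ContDiffBump.convolution_tendsto_right_of_continuous (μ := volume) hφ hHc z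
  have hhz : h z = g0 z := by
    rw [hh, Set.indicator_of_mem]
    exact closedBall_subset_closedBall (by linarith) (ball_subset_closedBall hzr)
  rw [← hhz]
  -- identity of the convolutions
  have key : ∀ n, ((φ n).normed volume ⋆[lsmul ℝ ℝ, volume] h) z
      = ((φ n).normed volume ⋆[lsmul ℝ ℝ, volume] H) z := by
    intro n
    set ρ : ℂ → ℝ := (φ n).normed volume with hρ
    have hρs : ContDiff ℝ (⊤ : ℕ∞) ρ := (φ n).contDiff_normed
    have hρc : HasCompactSupport ρ := (φ n).hasCompactSupport_normed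
    have hρr : (φ n).rOut ≤ r := by
      simp only [φ]
      apply div_le_self hr0.le
      have : (0:ℝ) ≤ n := n.cast_nonneg
      linarith
    have hρts : tsupport ρ ⊆ closedBall 0 r := by
      rw [hρ, (φ n).tsupport_normed_eq]
      exact closedBall_subset_closedBall hρr
    set F : ℂ → ℂ := ρ ⋆[lsmul ℝ ℝ, volume] h with hF
    have hFc : Continuous F := hρc.continuous_convolution_left _ hρs.continuous hhl
    have hFhol : DifferentiableOn ℂ F (ball z0 (4 * r - r)) :=
      w1_conv_hol h hhl ρ hρs hρc z0 r (4 * r) hρts hwh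
    have hmean : (σ ⋆[lsmul ℝ ℝ, volume] F) z = F z := by
      apply w1_mean F hFc z r _ σ hσs.continuous hσrad hσts hσ1
      intro w hw
      apply hFhol.differentiableAt
      apply isOpen_ball.mem_nhds
      rw [mem_ball] at hzr ⊢
      rw [mem_closedBall] at hw
      linarith [dist_triangle w z z0]
    rw [← hmean]
    -- associativity
    have hassoc : ∀ (a b : ℂ → ℝ), Continuous a → HasCompactSupport a → Continuous b →
        HasCompactSupport b →
        ((a ⋆[lsmul ℝ ℝ, volume] b) ⋆[lsmul ℝ ℝ, volume] h) z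
          = (a ⋆[lsmul ℝ ℝ, volume] (b ⋆[lsmul ℝ ℝ, volume] h)) z := by
      intro a b ha hac hb hbc
      apply convolution_assoc (lsmul ℝ ℝ) (lsmul ℝ ℝ) (lsmul ℝ ℝ) (lsmul ℝ ℝ)
      · intro x y w
        simp [mul_smul, mul_assoc]
      · exact ha.aestronglyMeasurable
      · exact hb.aestronglyMeasurable
      · exact hhi.aestronglyMeasurable
      · exact Eventually.of_forall fun y =>
          hac.convolutionExists_left _ ha hb.locallyIntegrable y
      · exact Eventually.of_forall fun x =>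
          hbc.norm.convolutionExists_left _ hb.norm hhi.norm.locallyIntegrable x
      · apply hac.norm.convolutionExists_left _ ha.norm
        apply Continuous.locallyIntegrable
        exact hbc.norm.continuous_convolution_left _ hb.norm hhi.norm.locallyIntegrable
    rw [hF, hH, ← hassoc σ ρ hσs.continuous hσc hρs.continuous hρc,
      ← hassoc ρ σ hρs.continuous hρc hσs.continuous hσc]
    have hcomm : (σ ⋆[lsmul ℝ ℝ, volume] ρ) = (ρ ⋆[lsmul ℝ ℝ, volume] σ) := by
      rw [← convolution_flip]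
      congr 1
      ext
      simp
    rw [hcomm]
  exact tendsto_nhds_unique hz (hHz.congr fun n => (key n).symm)

/-- two holomorphic (continuous) functions equal almost everywhere on an open set are equal there -/
theorem w1_eq_of_ae (V : Set ℂ) (hV : IsOpen V) (a b : ℂ → ℂ) (ha : ContinuousOn a V)
    (hb : ContinuousOn b V) (hab : ∀ᵐ z, z ∈ V → a z = b z) : ∀ z ∈ V, a z = b z := by
  have h1 : a =ᵐ[volume.restrict V] b := (ae_restrict_iff' hV.measurableSet).2 hab
  intro z hz
  exact Measure.eqOn_open_of_ae_eq h1 hV ha hb hz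

theorem w1_global (U : Set ℂ) (hU : IsOpen U) (g0 : ℂ → ℂ) (hg : LocallyIntegrableOn g0 U volume)
    (hw : ∀ κ : ℂ → ℂ, ContDiff ℝ (⊤ : ℕ∞) κ → HasCompactSupport κ → tsupport κ ⊆ U →
      ∫ z, g0 z * (I * fderiv ℝ κ z 1 - fderiv ℝ κ z I) = 0) :
    ∃ g : ℂ → ℂ, DifferentiableOn ℂ g U ∧ ∀ᵐ z, z ∈ U → g0 z = g z := by
  choose! r hr hrU G hG hGae using w1_local U hU g0 hg hw
  set g : ℂ → ℂ := fun z => G z z with hgdef
  have hloc : ∀ z0 ∈ U, ∀ z ∈ ball z0 (r z0), g z = G z0 z := by
    intro z0 hz0 z hz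
    have hzU : z ∈ U := hrU z0 hz0 hz
    apply w1_eq_of_ae (ball z (r z) ∩ ball z0 (r z0)) (isOpen_ball.inter isOpen_ball)
      (G z) (G z0) ((hG z hzU).continuousOn.mono Set.inter_subset_left)
      ((hG z0 hz0).continuousOn.mono Set.inter_subset_right)
    · filter_upwards [hGae z hzU, hGae z0 hz0] with w h1 h2 hw
      rw [← h1 hw.1, ← h2 hw.2]
    · exact ⟨mem_ball_self (hr z hzU), hz⟩
  refine ⟨g, ?_, ?_⟩
  · intro z0 hz0
    apply DifferentiableAt.differentiableWithinAt
    have h1 : DifferentiableAt ℂ (G z0) z0 :=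
      (hG z0 hz0).differentiableAt (isOpen_ball.mem_nhds (mem_ball_self (hr z0 hz0)))
    apply h1.congr_of_eventuallyEq
    filter_upwards [isOpen_ball.mem_nhds (mem_ball_self (hr z0 hz0))] with z hz
    exact hloc z0 hz0 z hz
  · have h0 : (volume : Measure ℂ) {z | ¬ (z ∈ U → g0 z = g z)} = 0 := by
      apply measure_null_of_locally_null
      intro z0 hz0
      simp only [Set.mem_ofPred_eq, Classical.not_imp] at hz0
      refine ⟨{z | ¬ (z ∈ U → g0 z = g z)} ∩ ball z0 (r z0), ?_, ?_⟩
      · exact inter_mem self_mem_nhdsWithin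
          (mem_nhdsWithin_of_mem_nhds (isOpen_ball.mem_nhds (mem_ball_self (hr z0 hz0.1))))
      · apply measure_mono_null _ (hGae z0 hz0.1)
        rintro z ⟨hz1, hz2⟩ 
        simp only [Set.mem_ofPred_eq, Classical.not_imp] at hz1
        intro h3
        apply hz1.2
        rw [hloc z0 hz0.1 z hz2]
        exact h3 hz2
    exact h0

/-- the coordinate `z_τ = x + τ y` -/
noncomputable def zt (τ : ℂ) (p : ℝ × ℝ) : ℂ := (p.1 : ℂ) + τ * (p.2 : ℂ)

/-- `zt τ` as a continuous linear equivalence -/
noncomputable def ztLE (τ : ℂ) (hτ : 0 < τ.im) : (ℝ × ℝ) ≃L[ℝ] ℂ :=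
  LinearEquiv.toContinuousLinearEquiv
    { toFun := zt τ
      invFun := fun z => (z.re - τ.re * (z.im / τ.im), z.im / τ.im)
      map_add' := by
        intro p q
        simp only [zt, Prod.fst_add, Prod.snd_add]
        push_cast
        ring
      map_smul' := by
        intro c p
        simp only [zt, Prod.smul_fst, Prod.smul_snd, smul_eq_mul, RingHom.id_apply, real_smul]
        push_cast
        ring
      left_inv := by
        intro p
        have := hτ.ne'
        ext
        · simp only [zt, add_re, ofReal_re, mul_re, ofReal_im, mul_zero, sub_zero, add_im, mul_im,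
            zero_add, add_zero]
          field_simp
          ring
        · simp only [zt, add_re, ofReal_re, mul_re, ofReal_im, mul_zero, sub_zero, add_im, mul_im,
            zero_add, add_zero]
          field_simp
      right_inv := by
        intro z
        have := hτ.ne'
        apply Complex.ext
        · simp only [zt, add_re, ofReal_re, mul_re, ofReal_im, mul_zero, sub_zero]
          ring
        · simp only [zt, add_im, ofReal_im, mul_im, ofReal_re, mul_zero, zero_add]
          field_simp }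

theorem ztLE_apply (τ : ℂ) (hτ : 0 < τ.im) (p : ℝ × ℝ) : ztLE τ hτ p = zt τ p := rfl

theorem weyl (τ : ℂ) (hτ : τ ∈ HH) (Ω : Set (ℝ × ℝ)) (hΩ : IsOpen Ω) (f : ℝ × ℝ → ℂ)
    (hf : LocallyIntegrableOn f Ω volume)
    (hw : ∀ χ : ℝ × ℝ → ℂ, ContDiff ℝ (⊤ : ℕ∞) χ → HasCompactSupport χ → tsupport χ ⊆ Ω →
      ∫ p, f p * (τ * fderiv ℝ χ p (1, 0) - fderiv ℝ χ p (0, 1)) = 0) :
    ∃ g : ℂ → ℂ, DifferentiableOn ℂ g (zt τ '' Ω) ∧
      ∀ᵐ p ∂(volume.restrict Ω), f p = g (zt τ p) := by
  have him : 0 < τ.im := hτ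
  set L := ztLE τ him with hL
  have hLz : ∀ p, L p = zt τ p := fun p => rfl
  set U : Set ℂ := zt τ '' Ω with hU
  have hUe : U = L.symm ⁻¹' Ω := by
    ext z
    constructor
    · rintro ⟨p, hp, rfl⟩
      rw [Set.mem_preimage, ← hLz, L.symm_apply_apply]
      exact hp
    · intro hz
      exact ⟨L.symm z, hz, by rw [← hLz, L.apply_symm_apply]⟩
  have hUo : IsOpen U := by
    rw [hUe]
    exact hΩ.preimage L.symm.continuous
  -- the measure
  have hmapL : Measure.map L (volume : Measure (ℝ × ℝ))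
      = Measure.addHaarScalarFactor (Measure.map L (volume : Measure (ℝ × ℝ))) (volume : Measure ℂ)
        • (volume : Measure ℂ) := by
    apply Measure.isAddLeftInvariant_eq_smul
  set c : NNReal := Measure.addHaarScalarFactor (Measure.map L (volume : Measure (ℝ × ℝ)))
    (volume : Measure ℂ) with hc
  have hcpos : 0 < c := Measure.addHaarScalarFactor_pos_of_isAddHaarMeasure _ _
  have hLm : MeasurableEmbedding L := L.toHomeomorph.measurableEmbedding
  have hint : ∀ F : ℂ → ℂ, ∫ p, F (L p) = c • ∫ z, F z := by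
    intro F
    rw [← hLm.integral_map, hmapL, integral_smul_nnreal_measure]
  set g0 : ℂ → ℂ := fun z => f (L.symm z) with hg0
  have hg0l : LocallyIntegrableOn g0 U volume := by
    rw [locallyIntegrableOn_iff hUo.isLocallyClosed]
    intro k hk hkc
    have h1 : IntegrableOn g0 k (Measure.map L (volume : Measure (ℝ × ℝ))) := by
      rw [hLm.integrableOn_map_iff]
      have h2 : g0 ∘ L = f := by
        ext p
        simp only [hg0, Function.comp_apply, L.symm_apply_apply]
      rw [h2]
      apply hf.integrableOn_compact_subset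
      · intro p hp
        have := hk hp
        rw [hUe, Set.mem_preimage, L.symm_apply_apply] at this
        exact this
      · exact L.toHomeomorph.isCompact_preimage.2 hkc
    rw [hmapL] at h1
    unfold IntegrableOn at h1 ⊢
    rw [Measure.restrict_smul] at h1
    have h3 : Integrable g0 ((c : ENNReal) • volume.restrict k) := h1
    rwa [integrable_smul_measure (by exact_mod_cast hcpos.ne') ENNReal.coe_ne_top] at h3
  obtain ⟨g, hg1, hg2⟩ := w1_global U hUo g0 hg0l (by
    intro κ hκ1 hκ2 hκ3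
    have h1 : ContDiff ℝ (⊤ : ℕ∞) (fun p => κ (L p)) := hκ1.comp L.contDiff
    have hts : tsupport (fun p => κ (L p)) ⊆ L ⁻¹' (tsupport κ) := by
      apply closure_minimal _ ((isClosed_tsupport κ).preimage L.continuous)
      intro p hp
      exact subset_tsupport κ hp
    have h2 : HasCompactSupport (fun p => κ (L p)) := hκ2.comp_homeomorph L.toHomeomorph
    have h3 : tsupport (fun p => κ (L p)) ⊆ Ω := by
      intro p hp
      have := hκ3 (hts hp)
      rw [hUe, Set.mem_preimage, L.symm_apply_apply] at this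
      exact this
    have h4 := hw _ h1 h2 h3
    have h5 : ∀ p v, fderiv ℝ (fun p => κ (L p)) p v = fderiv ℝ κ (L p) (L v) := by
      intro p v
      have h6 : HasFDerivAt κ (fderiv ℝ κ (L p)) (L p) :=
        (hκ1.differentiable (by simp) _).hasFDerivAt
      have h7 := h6.comp p L.hasFDerivAt
      have h8 : fderiv ℝ (fun p => κ (L p)) p = _ := h7.fderiv
      rw [h8]
      rfl
    have h9 : ∀ p, f p * (τ * fderiv ℝ (fun p => κ (L p)) p (1, 0)
          - fderiv ℝ (fun p => κ (L p)) p (0, 1))
        = (fun z => τ.im * (g0 z * (I * fderiv ℝ κ z 1 - fderiv ℝ κ z I))) (L p) := by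
      intro p
      simp only [h5, hg0, L.symm_apply_apply]
      have e1 : L (1, 0) = 1 := by simp [hLz, zt]
      have e2 : L (0, 1) = (τ.re : ℝ) • (1:ℂ) + (τ.im : ℝ) • I := by
        simp only [hLz, zt, real_smul]
        simp [Complex.re_add_im]
      rw [e1, e2, map_add, map_smul, map_smul, real_smul, real_smul]
      have e3 := Complex.re_add_im τ
      linear_combination (-(f p * fderiv ℝ κ (L p) 1)) * e3
    rw [integral_congr_ae (Eventually.of_forall h9),
      hint (fun z => τ.im * (g0 z * (I * fderiv ℝ κ z 1 - fderiv ℝ κ z I)))] at h4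
    rw [integral_const_mul] at h4
    rw [NNReal.smul_def, real_smul] at h4
    have hc0 : ((c : ℝ) : ℂ) ≠ 0 := by exact_mod_cast hcpos.ne'
    have ht0 : (τ.im : ℂ) ≠ 0 := by exact_mod_cast him.ne'
    exact (mul_eq_zero.1 ((mul_eq_zero.1 h4).resolve_left hc0)).resolve_left ht0)
  refine ⟨g, hg1, ?_⟩
  rw [ae_restrict_iff' hΩ.measurableSet]
  have h1 : ∀ᵐ z ∂(Measure.map L (volume : Measure (ℝ × ℝ))), z ∈ U → g0 z = g z := by
    rw [hmapL]
    exact (Measure.ae_smul_measure_iff (by exact_mod_cast hcpos.ne')).2 hg2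
  have h2 := ae_of_ae_map L.continuous.measurable.aemeasurable h1
  filter_upwards [h2] with p hp hpΩ
  have h3 : f (L.symm (L p)) = g (L p) :=
    hp (by rw [hUe, Set.mem_preimage, L.symm_apply_apply]; exact hpΩ)
  rw [L.symm_apply_apply] at h3
  exact h3

end Pool.Agent.Helper96.OF
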