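import Pool.Agent.Helper96.OF.Defs

/-!
# OF-X0: finite energy functions: differences along the group generated by α, β

Proof of `diff_closure`: closure induction on `g`. `1`: 0. Generators: clear. Product: `w(ghx) - w(x) = (w(g(hx)) - w(hx)) + (w(hx)-w(x))`, the sum over x of
the first square is invariant under the bijection `h`; `(a+b)² ≤ 2a²+2b²`. Inverse: reindex by `g`.
`inW_*`: `zeta` invariance is clear; boundedness gives products: `w1 w2(gx) - w1 w2(x) = w1(gx)(w2(gx)-w2(x)) + w2(x)(w1(gx)-w1(x))`.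
-/

set_option autoImplicit false

namespace Pool.Agent.Helper96.OF

variable {X : Type}

theorem x0_sqadd {u v : X → ℝ} (hu : Summable fun x => u x ^ 2) (hv : Summable fun x => v x ^ 2) :
    Summable (fun x => (u x + v x) ^ 2) ∧
      ∑' x, (u x + v x) ^ 2 ≤ 2 * ∑' x, u x ^ 2 + 2 * ∑' x, v x ^ 2 := by
  have h1 : ∀ x, (u x + v x) ^ 2 ≤ 2 * u x ^ 2 + 2 * v x ^ 2 := by
    intro x
    nlinarith [sq_nonneg (u x - v x)]
  have hs : Summable (fun x => 2 * u x ^ 2 + 2 * v x ^ 2) := (hu.mul_left 2).add (hv.mul_left 2)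
  have hs' : Summable (fun x => (u x + v x) ^ 2) :=
    Summable.of_nonneg_of_le (fun x => sq_nonneg _) h1 hs
  refine ⟨hs', ?_⟩
  calc ∑' x, (u x + v x) ^ 2 ≤ ∑' x, (2 * u x ^ 2 + 2 * v x ^ 2) := hs'.tsum_le_tsum h1 hs
    _ = 2 * ∑' x, u x ^ 2 + 2 * ∑' x, v x ^ 2 := by
      rw [(hu.mul_left 2).tsum_add (hv.mul_left 2), tsum_mul_left, tsum_mul_left]

theorem diff_closure (α β : Equiv.Perm X) (g : Equiv.Perm X)
    (hg : g ∈ Subgroup.closure ({α, β} : Set (Equiv.Perm X))) :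
    ∃ C : ℝ, 0 ≤ C ∧ ∀ w : X → ℝ, Summable (fun x => (w (α x) - w x) ^ 2) →
      Summable (fun x => (w (β x) - w x) ^ 2) →
      Summable (fun x => (w (g x) - w x) ^ 2) ∧
      ∑' x, (w (g x) - w x) ^ 2 ≤
        C * (∑' x, (w (α x) - w x) ^ 2 + ∑' x, (w (β x) - w x) ^ 2) := by
  induction hg using Subgroup.closure_induction with
  | mem g hg =>
    refine ⟨1, zero_le_one, fun w ha hb => ?_⟩
    have pa : 0 ≤ ∑' x, (w (α x) - w x) ^ 2 := tsum_nonneg fun x => sq_nonneg _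
    have pb : 0 ≤ ∑' x, (w (β x) - w x) ^ 2 := tsum_nonneg fun x => sq_nonneg _
    simp only [Set.mem_insert_iff, Set.mem_singleton_iff] at hg
    rcases hg with rfl | rfl
    · exact ⟨ha, by linarith⟩
    · exact ⟨hb, by linarith⟩
  | one =>
    refine ⟨0, le_rfl, fun w ha hb => ?_⟩
    simp
  | mul g h _ _ ihg ihh =>
    obtain ⟨C1, hC1, h1⟩ := ihg
    obtain ⟨C2, hC2, h2⟩ := ihh
    refine ⟨2 * C1 + 2 * C2, by positivity, fun w ha hb => ?_⟩
    obtain ⟨s1, t1⟩ := h1 w ha hb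
    obtain ⟨s2, t2⟩ := h2 w ha hb
    have hr : Summable (fun x => (w (g (h x)) - w (h x)) ^ 2) := h.summable_iff.2 s1
    have ht : ∑' x, (w (g (h x)) - w (h x)) ^ 2 = ∑' x, (w (g x) - w x) ^ 2 :=
      h.tsum_eq (fun x => (w (g x) - w x) ^ 2)
    have he : ∀ x, (w ((g * h) x) - w x) ^ 2 = ((w (g (h x)) - w (h x)) + (w (h x) - w x)) ^ 2 := by
      intro x
      rw [Equiv.Perm.mul_apply]
      ring
    simp only [he]
    obtain ⟨s3, t3⟩ := x0_sqadd hr s2
    refine ⟨s3, t3.trans ?_⟩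
    rw [ht]
    nlinarith [t1, t2]
  | inv g _ ih =>
    obtain ⟨C1, hC1, h1⟩ := ih
    refine ⟨C1, hC1, fun w ha hb => ?_⟩
    obtain ⟨s1, t1⟩ := h1 w ha hb
    have he : ∀ x, (w (g x) - w x) ^ 2 = (fun x => (w (g⁻¹ x) - w x) ^ 2) (g x) := by
      intro x
      have h3 : g⁻¹ (g x) = x := g.symm_apply_apply x
      simp only [h3]
      ring
    have s2 : Summable (fun x => (w (g⁻¹ x) - w x) ^ 2) := by
      refine g.summable_iff.1 ?_
      refine s1.congr fun x => ?_
      rw [he x]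
      rfl
    refine ⟨s2, ?_⟩
    have : ∑' x, (w (g⁻¹ x) - w x) ^ 2 = ∑' x, (w (g x) - w x) ^ 2 := by
      rw [← g.tsum_eq (fun x => (w (g⁻¹ x) - w x) ^ 2)]
      exact tsum_congr fun x => (he x).symm
    rw [this]
    exact t1

theorem inW_const (α β : Equiv.Perm X) (k : ℝ) : InW α β (fun _ => k) :=
  ⟨⟨|k|, fun _ => le_rfl⟩, fun _ => rfl, by simp, by simp⟩

theorem inW_add {α β : Equiv.Perm X} {w w' : X → ℝ} (h : InW α β w) (h' : InW α β w') :
    InW α β (fun x => w x + w' x) := by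
  obtain ⟨C, hC⟩ := h.bdd
  obtain ⟨C', hC'⟩ := h'.bdd
  refine ⟨⟨C + C', fun x => (abs_add_le _ _).trans (add_le_add (hC x) (hC' x))⟩, ?_, ?_, ?_⟩
  · intro x
    rw [h.inv, h'.inv]
  · refine (x0_sqadd h.sa h'.sa).1.congr fun x => ?_
    ring
  · refine (x0_sqadd h.sb h'.sb).1.congr fun x => ?_
    ring

theorem inW_smul {α β : Equiv.Perm X} {w : X → ℝ} (k : ℝ) (h : InW α β w) :
    InW α β (fun x => k * w x) := by
  obtain ⟨C, hC⟩ := h.bdd
  refine ⟨⟨|k| * C, fun x => ?_⟩, ?_, ?_, ?_⟩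
  · rw [abs_mul]
    exact mul_le_mul_of_nonneg_left (hC x) (abs_nonneg _)
  · intro x
    rw [h.inv]
  · refine (h.sa.mul_left (k ^ 2)).congr fun x => ?_
    ring
  · refine (h.sb.mul_left (k ^ 2)).congr fun x => ?_
    ring

theorem x0_mul_diff {w w' : X → ℝ} {C C' : ℝ} (hC : ∀ x, |w x| ≤ C) (hC' : ∀ x, |w' x| ≤ C')
    (g : Equiv.Perm X) (h : Summable fun x => (w (g x) - w x) ^ 2)
    (h' : Summable fun x => (w' (g x) - w' x) ^ 2) :
    Summable fun x => (w (g x) * w' (g x) - w x * w' x) ^ 2 := by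
  have h1 : Summable fun x => (w (g x) * (w' (g x) - w' x)) ^ 2 := by
    refine Summable.of_nonneg_of_le (fun x => sq_nonneg _) (fun x => ?_) (h'.mul_left (C ^ 2))
    rw [mul_pow]
    refine mul_le_mul_of_nonneg_right ?_ (sq_nonneg _)
    rw [← sq_abs (w (g x))]
    exact pow_le_pow_left₀ (abs_nonneg _) (hC _) 2
  have h2 : Summable fun x => (w' x * (w (g x) - w x)) ^ 2 := by
    refine Summable.of_nonneg_of_le (fun x => sq_nonneg _) (fun x => ?_) (h.mul_left (C' ^ 2))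
    rw [mul_pow]
    refine mul_le_mul_of_nonneg_right ?_ (sq_nonneg _)
    rw [← sq_abs (w' x)]
    exact pow_le_pow_left₀ (abs_nonneg _) (hC' _) 2
  refine (x0_sqadd h1 h2).1.congr fun x => ?_
  ring

theorem inW_mul {α β : Equiv.Perm X} {w w' : X → ℝ} (h : InW α β w) (h' : InW α β w') :
    InW α β (fun x => w x * w' x) := by
  obtain ⟨C, hC⟩ := h.bdd
  obtain ⟨C', hC'⟩ := h'.bdd
  refine ⟨⟨C * C', fun x => ?_⟩, ?_, ?_, ?_⟩
  · rw [abs_mul]
    exact mul_le_mul (hC x) (hC' x) (abs_nonneg _) ((abs_nonneg _).trans (hC x))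
  · intro x
    rw [h.inv, h'.inv]
  · exact x0_mul_diff hC hC' α h.sa h'.sa
  · exact x0_mul_diff hC hC' β h.sb h'.sb

/-- precomposition with a bijection commuting with the marking -/
theorem inW_comp {α β : Equiv.Perm X} {w : X → ℝ} (h : InW α β w) (θ : Equiv.Perm X)
    (h1 : θ * α = α * θ) (h2 : θ * β = β * θ) : InW α β (fun x => w (θ x)) := by
  have e1 : ∀ x, θ (α x) = α (θ x) := fun x => DFunLike.congr_fun h1 x
  have e2 : ∀ x, θ (β x) = β (θ x) := fun x => DFunLike.congr_fun h2 x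
  have c1 : Commute θ α := h1
  have c2 : Commute θ β := h2
  have c3 : Commute θ (zeta α β) :=
    ((c2.mul_right c1).mul_right c2.inv_right).mul_right c1.inv_right
  have e3 : ∀ x, θ (zeta α β x) = zeta α β (θ x) := fun x => DFunLike.congr_fun c3.eq x
  refine ⟨?_, ?_, ?_, ?_⟩
  · obtain ⟨C, hC⟩ := h.bdd
    exact ⟨C, fun x => hC _⟩
  · intro x
    simp only [e3, h.inv]
  · simp only [e1]
    exact θ.summable_iff.2 h.sa
  · simp only [e2]
    exact θ.summable_iff.2 h.sb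

/-- change of marking: same corners, generators in the group of the old ones -/
theorem inW_marking {α β α' β' : Equiv.Perm X} {w : X → ℝ} (h : InW α β w)
    (h1 : α' ∈ Subgroup.closure ({α, β} : Set (Equiv.Perm X)))
    (h2 : β' ∈ Subgroup.closure ({α, β} : Set (Equiv.Perm X)))
    (h3 : zeta α' β' = zeta α β) : InW α' β' w := by
  obtain ⟨C1, _, d1⟩ := diff_closure α β α' h1
  obtain ⟨C2, _, d2⟩ := diff_closure α β β' h2
  refine ⟨h.bdd, ?_, (d1 w h.sa h.sb).1, (d2 w h.sa h.sb).1⟩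
  intro x
  rw [h3]
  exact h.inv x

/-- x0_soft threshold -/
noncomputable def x0_soft (ε t : ℝ) : ℝ := t - max (-ε) (min ε t)

theorem x0_soft_lip {ε : ℝ} (hε : 0 < ε) (s t : ℝ) : (x0_soft ε t - x0_soft ε s) ^ 2 ≤ (t - s) ^ 2 := by
  have key : ∀ s t : ℝ, s ≤ t → 0 ≤ x0_soft ε t - x0_soft ε s ∧ x0_soft ε t - x0_soft ε s ≤ t - s := by
    intro s t hst
    unfold x0_soft
    rcases le_total ε t with h1 | h1 <;> rcases le_total ε s with h2 | h2 <;>
      rcases le_total (-ε) t with h3 | h3 <;> rcases le_total (-ε) s with h4 | h4 <;>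
      simp only [min_eq_left, min_eq_right, max_eq_left, max_eq_right, h1, h2, h3, h4,
        neg_le_self_iff, hε.le] <;> constructor <;> linarith
  rcases le_total s t with h | h
  · obtain ⟨h1, h2⟩ := key s t h
    exact pow_le_pow_left₀ h1 h2 2
  · obtain ⟨h1, h2⟩ := key t s h
    have := pow_le_pow_left₀ h1 h2 2
    nlinarith [this]

theorem x0_soft_zero {ε t : ℝ} (h : |t| ≤ ε) : x0_soft ε t = 0 := by
  unfold x0_soft
  rw [abs_le] at h
  rw [min_eq_right h.2, max_eq_right h.1]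
  ring

theorem x0_soft_near {ε t : ℝ} (hε : 0 < ε) : |t - x0_soft ε t| ≤ ε := by
  unfold x0_soft
  rw [abs_le]
  constructor
  · have : -ε ≤ max (-ε) (min ε t) := le_max_left _ _
    linarith
  · have : max (-ε) (min ε t) ≤ ε := max_le (by linarith) (min_le_left _ _)
    linarith

/-- `l⁴` and finite energy imply `l²`. Proof: x0_soft threshold `S_ε(t) = t - max(-ε)(min ε t)` is 1-Lipschitz; `w_ε = S_ε ∘ w` has finite support
(`|w| > ε` finitely often), so it is in `l²`, and `SG` gives `∑ w_ε² ≤ C (energy of w)`. Let ε → 0: every finite partial sum of `w²` is `≤ C (energy)`. -/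
theorem l4_l2 {α β : Equiv.Perm X} (hSG : SG α β) (w : X → ℝ) (h4 : Summable fun x => (w x) ^ 4)
    (ha : Summable fun x => (w (α x) - w x) ^ 2) (hb : Summable fun x => (w (β x) - w x) ^ 2) :
    L2s w := by
  obtain ⟨C, hC, hS⟩ := hSG
  set B : ℝ := C * (∑' x, (w (α x) - w x) ^ 2 + ∑' x, (w (β x) - w x) ^ 2) with hB
  have hsum : ∀ ε : ℝ, 0 < ε → ∀ s : Finset X, ∑ x ∈ s, (x0_soft ε (w x)) ^ 2 ≤ B := by
    intro ε hε s
    have hfin : {x | ¬ |w x| ≤ ε}.Finite := by
      have := h4.tendsto_cofinite_zero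
      have h2 : ∀ᶠ x in Filter.cofinite, (w x) ^ 4 < ε ^ 4 := by
        refine this.eventually (gt_mem_nhds ?_)
        positivity
      have h3 : {x | ¬ (w x) ^ 4 < ε ^ 4}.Finite := h2
      refine h3.subset ?_
      intro x hx
      simp only [Set.mem_ofPred_eq, not_le, not_lt] at hx ⊢
      have := pow_le_pow_left₀ hε.le hx.le 4
      rwa [Even.pow_abs (by decide)] at this
    have hL : L2s (fun x => x0_soft ε (w x)) := by
      refine summable_of_finite_support (hfin.subset ?_)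
      intro x hx
      simp only [Function.mem_support] at hx
      intro h
      exact hx (by rw [x0_soft_zero h]; ring)
    have h1 := hS _ hL
    have ea : ∑' x, (x0_soft ε (w (α x)) - x0_soft ε (w x)) ^ 2 ≤ ∑' x, (w (α x) - w x) ^ 2 := by
      refine Summable.tsum_le_tsum (fun x => x0_soft_lip hε _ _) ?_ ha
      exact Summable.of_nonneg_of_le (fun x => sq_nonneg _) (fun x => x0_soft_lip hε _ _) ha
    have eb : ∑' x, (x0_soft ε (w (β x)) - x0_soft ε (w x)) ^ 2 ≤ ∑' x, (w (β x) - w x) ^ 2 := by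
      refine Summable.tsum_le_tsum (fun x => x0_soft_lip hε _ _) ?_ hb
      exact Summable.of_nonneg_of_le (fun x => sq_nonneg _) (fun x => x0_soft_lip hε _ _) hb
    calc ∑ x ∈ s, (x0_soft ε (w x)) ^ 2 ≤ ∑' x, (x0_soft ε (w x)) ^ 2 :=
          hL.sum_le_tsum s (fun x _ => sq_nonneg _)
      _ ≤ C * (∑' x, (x0_soft ε (w (α x)) - x0_soft ε (w x)) ^ 2 +
            ∑' x, (x0_soft ε (w (β x)) - x0_soft ε (w x)) ^ 2) := h1
      _ ≤ B := mul_le_mul_of_nonneg_left (add_le_add ea eb) hC.le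
  refine summable_of_sum_le (c := B) (fun x => sq_nonneg _) ?_
  intro s
  have hlim : Filter.Tendsto (fun ε : ℝ => ∑ x ∈ s, (x0_soft ε (w x)) ^ 2) (nhdsWithin 0 (Set.Ioi 0))
      (nhds (∑ x ∈ s, (w x) ^ 2)) := by
    refine tendsto_finsetSum _ fun x _ => ?_
    refine Filter.Tendsto.pow ?_ 2
    rw [tendsto_iff_dist_tendsto_zero]
    refine squeeze_zero' (Filter.Eventually.of_forall fun _ => dist_nonneg) (g := fun ε => ε) ?_ ?_
    · filter_upwards [self_mem_nhdsWithin] with ε hε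
      rw [dist_comm, Real.dist_eq]
      exact x0_soft_near hε
    · exact (Filter.tendsto_id.mono_left nhdsWithin_le_nhds)
  exact le_of_tendsto hlim (by
    filter_upwards [self_mem_nhdsWithin] with ε hε
    exact hsum ε hε s)

end Pool.Agent.Helper96.OF
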