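import Pool.Agent.Helper96.OF.FT2
import Pool.Agent.Helper96.OF.X0

/-!
# OF-FT7: the interpolation Φ_w

`sg` is smooth, 0 for t ≤ 1/3 and 1 for t ≥ 2/3, values in [0,1]. In the coordinates of the unit square of s: `Φ = (1-σ(x))(1-σ(y)) c(s) + σ(x)(1-σ(y)) c(α s) + (1-σ(x))σ(y) c(β s) + σ(x)σ(y) c(β α s)`.
Smoothness on Cross: near a point with non-integer x and y: clear (floor locally constant). Near (x0,y0) with x0 integer and 0<y0<1: on both sides Φ equals (1-σ(y)) c(α^{x0} s) + σ(y) c(β α^{x0} s): (left side: square α^{x0-1}s, σ(x)=1;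
right side: square α^{x0}s, σ(x)=0). Near (x0,y0), y0 integer, 0<x0<1: on both sides (1-σ(x)) c(β^{y0} s)+σ(x) c(α β^{y0} s); below: square β^{y0-1}s, value (1-σ(x))c(β^{y0}s)+σ(x) c(β α β^{y0-1}s) and
`c(β α t) = c(α β t)` by ζ-invariance (`β α t = ζ (α β t)`). row/col: `⌊x+1⌋ = ⌊x⌋+1`, and for 0<y<1 `⌊y⌋ = 0` etc. Corner boxes: ρ = 1/3.
Energy: on the unit square of s, `Φ_x = σ'(x)[(1-σ(y))(c(α s)-c(s)) + σ(y)(c(β α s) - c(β s))]`, `c(β α s) - c(β s) = c(α β s) - c(β s)`; so `∫|Φ_x|² ≤ C ∑ |c(α s) - c s|²` (twice); Φ_y: σ'(y)[(1-σ(x))(c(β s)-c s)+σ(x)(c(β α s)-c(α s))].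
L²: `∫_{unitSq}|Φ|² ≥ (1/9)|c s|²` (box), and ≤ 4(|c s|²+|c α s|²+|c β s|²+|c β α s|²).
-/

set_option autoImplicit false

open MeasureTheory

namespace Pool.Agent.Helper96.OF

variable {X : Type} {α β : Equiv.Perm X}

private theorem sg_smooth : ContDiff ℝ (⊤ : ℕ∞) sg := by
  unfold sg
  exact (Real.smoothTransition.contDiff (n := (⊤ : ℕ∞))).comp
    ((contDiff_const.mul contDiff_id).sub contDiff_const)

private theorem sg_zero {t : ℝ} (h : t ≤ 1 / 3) : sg t = 0 :=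
  Real.smoothTransition.zero_of_nonpos (by linarith)

private theorem sg_one {t : ℝ} (h : 2 / 3 ≤ t) : sg t = 1 :=
  Real.smoothTransition.one_of_one_le (by linarith)

private theorem sg_nonneg (t : ℝ) : 0 ≤ sg t := Real.smoothTransition.nonneg _

private theorem sg_le_one (t : ℝ) : sg t ≤ 1 := Real.smoothTransition.le_one _

private theorem sgC_smooth : ContDiff ℝ (⊤ : ℕ∞) (fun t : ℝ => ((sg t : ℝ) : ℂ)) :=
  Complex.ofRealCLM.contDiff.comp sg_smooth

/-- one dimensional interpolation of a sequence -/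
private noncomputable def II (a : ℤ → ℂ) (x : ℝ) : ℂ :=
  ((1 - sg (Int.fract x) : ℝ) : ℂ) * a ⌊x⌋ + ((sg (Int.fract x) : ℝ) : ℂ) * a (⌊x⌋ + 1)

private theorem II_local (a : ℤ → ℂ) (n : ℤ) (x : ℝ) (h1 : (n : ℝ) - 1 < x) (h2 : x < n + 1) :
    II a x = a (n - 1) + ((sg (x - (n - 1)) : ℝ) : ℂ) * (a n - a (n - 1)) +
      ((sg (x - n) : ℝ) : ℂ) * (a (n + 1) - a n) := by
  unfold II
  rcases lt_or_ge x n with h | h
  · have hf : ⌊x⌋ = n - 1 := by
      rw [Int.floor_eq_iff]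
      push_cast
      constructor <;> linarith
    have hfr : Int.fract x = x - (n - 1) := by
      rw [Int.fract, hf]
      push_cast
      ring
    rw [hf, hfr, sg_zero (t := x - n) (by linarith)]
    push_cast
    rw [sub_add_cancel]
    ring
  · have hf : ⌊x⌋ = n := by
      rw [Int.floor_eq_iff]
      constructor <;> linarith
    have hfr : Int.fract x = x - n := by
      rw [Int.fract, hf]
    rw [hf, hfr, sg_one (t := x - (n - 1)) (by linarith)]
    push_cast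
    ring

private theorem II_smooth (a : ℤ → ℂ) : ContDiff ℝ (⊤ : ℕ∞) (II a) := by
  rw [contDiff_iff_contDiffAt]
  intro x0
  have hg : ContDiff ℝ (⊤ : ℕ∞) (fun x : ℝ => a (⌊x0⌋ - 1) +
      ((sg (x - (⌊x0⌋ - 1)) : ℝ) : ℂ) * (a ⌊x0⌋ - a (⌊x0⌋ - 1)) +
      ((sg (x - ⌊x0⌋) : ℝ) : ℂ) * (a (⌊x0⌋ + 1) - a ⌊x0⌋)) := by
    refine (contDiff_const.add ((sgC_smooth.comp (contDiff_id.sub contDiff_const)).mul
      contDiff_const)).add ((sgC_smooth.comp (contDiff_id.sub contDiff_const)).mul contDiff_const)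
  refine hg.contDiffAt.congr_of_eventuallyEq ?_
  have h1 : ((⌊x0⌋ : ℝ) - 1) < x0 := by
    have := Int.floor_le x0
    linarith
  have h2 := Int.lt_floor_add_one x0
  filter_upwards [Ioo_mem_nhds h1 h2] with x hx
  exact II_local a ⌊x0⌋ x hx.1 hx.2

private theorem zeta_swap {c : X → ℂ} (hc : ∀ s, c (zeta α β s) = c s) (t : X) :
    c (β (α t)) = c (α (β t)) := by
  rw [← hc (α (β t))]
  congr 1
  simp [zeta, Equiv.Perm.mul_apply]

private theorem zeta_swapR {w : X → ℝ} (hw : ∀ s, w (zeta α β s) = w s) (t : X) :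
    w (β (α t)) = w (α (β t)) := by
  rw [← hw (α (β t))]
  congr 1
  simp [zeta, Equiv.Perm.mul_apply]

/-- the formula in the unit square -/
private noncomputable def F0 (α β : Equiv.Perm X) (c : X → ℂ) (s : X) (x y : ℝ) : ℂ :=
  (((1 - sg x) * (1 - sg y) : ℝ) : ℂ) * c s + ((sg x * (1 - sg y) : ℝ) : ℂ) * c (α s) +
    (((1 - sg x) * sg y : ℝ) : ℂ) * c (β s) + ((sg x * sg y : ℝ) : ℂ) * c (β (α s))

private theorem Phi_eq (c : X → ℂ) (s : X) (p : ℝ × ℝ) :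
    Phi α β c s p = F0 α β c ((α ^ ⌊p.1⌋) ((β ^ ⌊p.2⌋) s)) (Int.fract p.1) (Int.fract p.2) := rfl

private theorem floor_01 {x : ℝ} (h : 0 < x) (h' : x < 1) : ⌊x⌋ = 0 := by
  rw [Int.floor_eq_iff]
  push_cast
  constructor <;> linarith

private theorem fract_01 {x : ℝ} (h : 0 < x) (h' : x < 1) : Int.fract x = x :=
  Int.fract_eq_self.2 ⟨h.le, h'⟩

/-- in the open unit square -/
private theorem Phi_sq (c : X → ℂ) (s : X) {x y : ℝ} (hx : 0 < x) (hx' : x < 1) (hy : 0 < y)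
    (hy' : y < 1) : Phi α β c s (x, y) = F0 α β c s x y := by
  rw [Phi_eq]
  simp only
  rw [floor_01 hx hx', floor_01 hy hy', fract_01 hx hx', fract_01 hy hy']
  simp

private theorem Phi_row (c : X → ℂ) (s : X) (x y : ℝ) (hy : 0 < y) (hy' : y < 1) :
    Phi α β c s (x, y) = ((1 - sg y : ℝ) : ℂ) * II (fun n => c ((α ^ n) s)) x +
      ((sg y : ℝ) : ℂ) * II (fun n => c (β ((α ^ n) s))) x := by
  rw [Phi_eq]
  simp only
  rw [floor_01 hy hy', fract_01 hy hy']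
  unfold F0 II
  have h : (α ^ (⌊x⌋ + 1)) s = α ((α ^ ⌊x⌋) s) := by
    rw [add_comm, zpow_add, zpow_one, Equiv.Perm.mul_apply]
  beta_reduce
  rw [h, zpow_zero, Equiv.Perm.one_apply]
  push_cast
  ring

private theorem Phi_col {c : X → ℂ} (hc : ∀ s, c (zeta α β s) = c s) (s : X) (x y : ℝ)
    (hx : 0 < x) (hx' : x < 1) :
    Phi α β c s (x, y) = ((1 - sg x : ℝ) : ℂ) * II (fun n => c ((β ^ n) s)) y +
      ((sg x : ℝ) : ℂ) * II (fun n => c (α ((β ^ n) s))) y := by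
  rw [Phi_eq]
  simp only
  rw [floor_01 hx hx', fract_01 hx hx']
  unfold F0 II
  have h : (β ^ (⌊y⌋ + 1)) s = β ((β ^ ⌊y⌋) s) := by
    rw [add_comm, zpow_add, zpow_one, Equiv.Perm.mul_apply]
  beta_reduce
  rw [h, zpow_zero, Equiv.Perm.one_apply, ← zeta_swap hc]
  push_cast
  ring

/-- Φ is constant in the closed corner boxes of side 1/3 of the open square -/
theorem Phi_corner {c : X → ℂ} (hc : ∀ s, c (zeta α β s) = c s) (s : X) (x y : ℝ) (hx : 0 < x)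
    (hx' : x ≤ 1 / 3) (hy : 0 < y) (hy' : y ≤ 1 / 3) :
    Phi α β c s (x, y) = c s ∧ Phi α β c s (1 - x, y) = c (α s) ∧ Phi α β c s (x, 1 - y) = c (β s) ∧
      Phi α β c s (1 - x, 1 - y) = c (β (α s)) := by
  refine ⟨?_, ?_, ?_, ?_⟩
  · rw [Phi_sq c s hx (by linarith) hy (by linarith), F0, sg_zero hx', sg_zero hy']
    simp
  · rw [Phi_sq c s (by linarith) (by linarith) hy (by linarith), F0, sg_one (t := 1 - x)
      (by linarith), sg_zero hy']
    simp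
  · rw [Phi_sq c s hx (by linarith) (by linarith) (by linarith), F0, sg_zero hx',
      sg_one (t := 1 - y) (by linarith)]
    simp
  · rw [Phi_sq c s (by linarith) (by linarith) (by linarith) (by linarith), F0,
      sg_one (t := 1 - x) (by linarith), sg_one (t := 1 - y) (by linarith)]
    simp

theorem nice_Phi {c : X → ℂ} (hc : ∀ s, c (zeta α β s) = c s) : Nice α β (Phi α β c) c where
  smooth := by
    intro s p hp
    refine ContDiffAt.contDiffWithinAt ?_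
    rcases hp with hp | hp
    · have hg : ContDiff ℝ (⊤ : ℕ∞) (fun q : ℝ × ℝ =>
          ((1 - sg q.2 : ℝ) : ℂ) * II (fun n => c ((α ^ n) s)) q.1 +
          ((sg q.2 : ℝ) : ℂ) * II (fun n => c (β ((α ^ n) s))) q.1) := by
        have h1 : ContDiff ℝ (⊤ : ℕ∞) (fun q : ℝ × ℝ => ((1 - sg q.2 : ℝ) : ℂ)) :=
          Complex.ofRealCLM.contDiff.comp (contDiff_const.sub (sg_smooth.comp contDiff_snd))
        exact (h1.mul ((II_smooth _).comp contDiff_fst)).add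
          ((sgC_smooth.comp contDiff_snd).mul ((II_smooth _).comp contDiff_fst))
      refine hg.contDiffAt.congr_of_eventuallyEq ?_
      have ho : IsOpen {q : ℝ × ℝ | 0 < q.2 ∧ q.2 < 1} :=
        (isOpen_lt continuous_const continuous_snd).inter (isOpen_lt continuous_snd continuous_const)
      filter_upwards [ho.mem_nhds hp] with q hq
      exact Phi_row c s q.1 q.2 hq.1 hq.2
    · have hg : ContDiff ℝ (⊤ : ℕ∞) (fun q : ℝ × ℝ =>
          ((1 - sg q.1 : ℝ) : ℂ) * II (fun n => c ((β ^ n) s)) q.2 +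
          ((sg q.1 : ℝ) : ℂ) * II (fun n => c (α ((β ^ n) s))) q.2) := by
        have h1 : ContDiff ℝ (⊤ : ℕ∞) (fun q : ℝ × ℝ => ((1 - sg q.1 : ℝ) : ℂ)) :=
          Complex.ofRealCLM.contDiff.comp (contDiff_const.sub (sg_smooth.comp contDiff_fst))
        exact (h1.mul ((II_smooth _).comp contDiff_snd)).add
          ((sgC_smooth.comp contDiff_fst).mul ((II_smooth _).comp contDiff_snd))
      refine hg.contDiffAt.congr_of_eventuallyEq ?_
      have ho : IsOpen {q : ℝ × ℝ | 0 < q.1 ∧ q.1 < 1} :=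
        (isOpen_lt continuous_const continuous_fst).inter (isOpen_lt continuous_fst continuous_const)
      filter_upwards [ho.mem_nhds hp] with q hq
      exact Phi_col hc s q.1 q.2 hq.1 hq.2
  row := by
    intro s x y hy hy'
    rw [Phi_eq, Phi_eq]
    simp only
    rw [floor_01 hy hy', Int.floor_add_one, Int.fract_add_one, zpow_add, zpow_one, zpow_zero]
    simp
  col := by
    intro s x y hx hx'
    rw [Phi_eq, Phi_eq]
    simp only
    rw [floor_01 hx hx', Int.floor_add_one, Int.fract_add_one, zpow_add, zpow_one, zpow_zero]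
    simp
  corner := by
    refine ⟨1 / 3, by norm_num, by norm_num, fun s x y hx hx' hy hy' => ?_⟩
    exact Phi_corner hc s x y hx hx'.le hy hy'.le
  cinv := hc

/-- real formula -/
private noncomputable def FR (α β : Equiv.Perm X) (w : X → ℝ) (s : X) (x y : ℝ) : ℝ :=
  (1 - sg y) * ((1 - sg x) * w s + sg x * w (α s)) +
    sg y * ((1 - sg x) * w (β s) + sg x * w (β (α s)))

private theorem F0_toC (w : X → ℝ) (s : X) (x y : ℝ) :
    F0 α β (toC w) s x y = ((FR α β w s x y : ℝ) : ℂ) := by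
  unfold F0 FR toC
  push_cast
  ring

private theorem cvx_le {t a b C : ℝ} (h0 : 0 ≤ t) (h1 : t ≤ 1) (ha : a ≤ C) (hb : b ≤ C) :
    (1 - t) * a + t * b ≤ C := by nlinarith

private theorem cvx_ge {t a b C : ℝ} (h0 : 0 ≤ t) (h1 : t ≤ 1) (ha : C ≤ a) (hb : C ≤ b) :
    C ≤ (1 - t) * a + t * b := by nlinarith

private theorem cvx_sq {t a b : ℝ} (h0 : 0 ≤ t) (h1 : t ≤ 1) :
    ((1 - t) * a + t * b) ^ 2 ≤ a ^ 2 + b ^ 2 := by
  have h2 : ((1 - t) * a + t * b) ^ 2 = (1 - t) * a ^ 2 + t * b ^ 2 - t * (1 - t) * (a - b) ^ 2 := by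
    ring
  have h3 : 0 ≤ t * (1 - t) * (a - b) ^ 2 :=
    mul_nonneg (mul_nonneg h0 (by linarith)) (sq_nonneg _)
  nlinarith [mul_nonneg h0 (sq_nonneg a), mul_nonneg (sub_nonneg.2 h1) (sq_nonneg b)]

theorem Phi_bound {w : X → ℝ} {C : ℝ} (hw : ∀ x, |w x| ≤ C) (s : X) (p : ℝ × ℝ) :
    ‖Phi α β (toC w) s p‖ ≤ C ∧ (Phi α β (toC w) s p).im = 0 := by
  rw [Phi_eq, F0_toC]
  refine ⟨?_, Complex.ofReal_im _⟩
  rw [Complex.norm_real, Real.norm_eq_abs, abs_le]
  constructor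
  · exact cvx_ge (sg_nonneg _) (sg_le_one _)
      (cvx_ge (sg_nonneg _) (sg_le_one _) (abs_le.1 (hw _)).1 (abs_le.1 (hw _)).1)
      (cvx_ge (sg_nonneg _) (sg_le_one _) (abs_le.1 (hw _)).1 (abs_le.1 (hw _)).1)
  · exact cvx_le (sg_nonneg _) (sg_le_one _)
      (cvx_le (sg_nonneg _) (sg_le_one _) (abs_le.1 (hw _)).2 (abs_le.1 (hw _)).2)
      (cvx_le (sg_nonneg _) (sg_le_one _) (abs_le.1 (hw _)).2 (abs_le.1 (hw _)).2)

theorem Phi_nonneg {w : X → ℝ} (hw : ∀ x, 0 ≤ w x) (s : X) (p : ℝ × ℝ) :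
    0 ≤ (Phi α β (toC w) s p).re := by
  rw [Phi_eq, F0_toC, Complex.ofReal_re]
  exact cvx_ge (sg_nonneg _) (sg_le_one _)
      (cvx_ge (sg_nonneg _) (sg_le_one _) (hw _) (hw _))
      (cvx_ge (sg_nonneg _) (sg_le_one _) (hw _) (hw _))

theorem Phi_add (c d : X → ℂ) (s : X) (p : ℝ × ℝ) :
    Phi α β (fun x => c x + d x) s p = Phi α β c s p + Phi α β d s p := by
  rw [Phi_eq, Phi_eq, Phi_eq]
  unfold F0
  ring

theorem Phi_smul (k : ℂ) (c : X → ℂ) (s : X) (p : ℝ × ℝ) :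
    Phi α β (fun x => k * c x) s p = k * Phi α β c s p := by
  rw [Phi_eq, Phi_eq]
  unfold F0
  ring

theorem Phi_one (k : ℂ) (s : X) (p : ℝ × ℝ) : Phi α β (fun _ => k) s p = k := by
  rw [Phi_eq]
  unfold F0
  push_cast
  ring

private theorem exists_dsg : ∃ M : ℝ, ∀ t, 0 < t → t < 1 → |deriv sg t| ≤ M := by
  have h : Continuous (deriv sg) := sg_smooth.continuous_deriv (by simp)
  obtain ⟨M, hM⟩ := (isCompact_Icc (a := (0:ℝ)) (b := 1)).exists_bound_of_continuousOn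
    h.continuousOn
  exact ⟨M, fun t h0 h1 => hM t ⟨h0.le, h1.le⟩⟩

private theorem F0_smooth (c : X → ℂ) (s : X) :
    ContDiff ℝ (⊤ : ℕ∞) (fun p : ℝ × ℝ => F0 α β c s p.1 p.2) := by
  unfold F0
  have hs1 : ContDiff ℝ (⊤ : ℕ∞) (fun p : ℝ × ℝ => sg p.1) := sg_smooth.comp contDiff_fst
  have hs2 : ContDiff ℝ (⊤ : ℕ∞) (fun p : ℝ × ℝ => sg p.2) := sg_smooth.comp contDiff_snd
  have e1 : ContDiff ℝ (⊤ : ℕ∞) (fun p : ℝ × ℝ => (((1 - sg p.1) * (1 - sg p.2) : ℝ) : ℂ)) :=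
    Complex.ofRealCLM.contDiff.comp ((contDiff_const.sub hs1).mul (contDiff_const.sub hs2))
  have e2 : ContDiff ℝ (⊤ : ℕ∞) (fun p : ℝ × ℝ => ((sg p.1 * (1 - sg p.2) : ℝ) : ℂ)) :=
    Complex.ofRealCLM.contDiff.comp (hs1.mul (contDiff_const.sub hs2))
  have e3 : ContDiff ℝ (⊤ : ℕ∞) (fun p : ℝ × ℝ => (((1 - sg p.1) * sg p.2 : ℝ) : ℂ)) :=
    Complex.ofRealCLM.contDiff.comp ((contDiff_const.sub hs1).mul hs2)
  have e4 : ContDiff ℝ (⊤ : ℕ∞) (fun p : ℝ × ℝ => ((sg p.1 * sg p.2 : ℝ) : ℂ)) :=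
    Complex.ofRealCLM.contDiff.comp (hs1.mul hs2)
  exact (((e1.mul contDiff_const).add (e2.mul contDiff_const)).add (e3.mul contDiff_const)).add
    (e4.mul contDiff_const)

private theorem Phi_ev (c : X → ℂ) (s : X) {p : ℝ × ℝ} (hp : p ∈ unitSq) :
    Phi α β c s =ᶠ[nhds p] fun q : ℝ × ℝ => F0 α β c s q.1 q.2 := by
  have ho : IsOpen unitSq := isOpen_Ioo.prod isOpen_Ioo
  filter_upwards [ho.mem_nhds hp] with q hq
  exact Phi_sq c s hq.1.1 hq.1.2 hq.2.1 hq.2.2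

private theorem dx_formula (w : X → ℝ) (s : X) {p : ℝ × ℝ} (hp : p ∈ unitSq) :
    dx (Phi α β (toC w)) s p = ((deriv sg p.1 * ((1 - sg p.2) * (w (α s) - w s) +
      sg p.2 * (w (β (α s)) - w (β s))) : ℝ) : ℂ) := by
  unfold dx
  rw [(Phi_ev (toC w) s hp).fderiv_eq]
  have hd : HasFDerivAt (fun q : ℝ × ℝ => F0 α β (toC w) s q.1 q.2)
      (fderiv ℝ (fun q : ℝ × ℝ => F0 α β (toC w) s q.1 q.2) p) (p.1, p.2) :=
    ((F0_smooth (toC w) s).differentiable (by simp)).differentiableAt.hasFDerivAt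
  have h1 : HasDerivAt (fun t : ℝ => (t, p.2)) (1, 0) p.1 :=
    (hasDerivAt_id p.1).prodMk (hasDerivAt_const p.1 p.2)
  have h2 := hd.comp_hasDerivAt p.1 h1
  have h3 : HasDerivAt sg (deriv sg p.1) p.1 :=
    (sg_smooth.differentiable (by simp)).differentiableAt.hasDerivAt
  have h4 : HasDerivAt (fun t : ℝ => FR α β w s t p.2) (deriv sg p.1 * ((1 - sg p.2) *
      (w (α s) - w s) + sg p.2 * (w (β (α s)) - w (β s)))) p.1 := by
    have h5 : (fun t : ℝ => FR α β w s t p.2) = fun t => sg t * ((1 - sg p.2) *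
      (w (α s) - w s) + sg p.2 * (w (β (α s)) - w (β s))) + ((1 - sg p.2) * w s +
        sg p.2 * w (β s)) := by
      funext t
      unfold FR
      ring
    rw [h5]
    exact (h3.mul_const _).add_const _
  have h6 := h4.ofReal_comp
  have h7 : (fun t : ℝ => ((FR α β w s t p.2 : ℝ) : ℂ)) =
      (fun q : ℝ × ℝ => F0 α β (toC w) s q.1 q.2) ∘ fun t : ℝ => (t, p.2) := by
    funext t
    exact (F0_toC w s t p.2).symm
  rw [h7] at h6
  exact h2.unique h6

private theorem dy_formula (w : X → ℝ) (s : X) {p : ℝ × ℝ} (hp : p ∈ unitSq) :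
    dy (Phi α β (toC w)) s p = ((deriv sg p.2 * ((1 - sg p.1) * (w (β s) - w s) +
      sg p.1 * (w (β (α s)) - w (α s))) : ℝ) : ℂ) := by
  unfold dy
  rw [(Phi_ev (toC w) s hp).fderiv_eq]
  have hd : HasFDerivAt (fun q : ℝ × ℝ => F0 α β (toC w) s q.1 q.2)
      (fderiv ℝ (fun q : ℝ × ℝ => F0 α β (toC w) s q.1 q.2) p) (p.1, p.2) :=
    ((F0_smooth (toC w) s).differentiable (by simp)).differentiableAt.hasFDerivAt
  have h1 : HasDerivAt (fun t : ℝ => (p.1, t)) (0, 1) p.2 :=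
    (hasDerivAt_const p.2 p.1).prodMk (hasDerivAt_id p.2)
  have h2 := hd.comp_hasDerivAt p.2 h1
  have h3 : HasDerivAt sg (deriv sg p.2) p.2 :=
    (sg_smooth.differentiable (by simp)).differentiableAt.hasDerivAt
  have h4 : HasDerivAt (fun t : ℝ => FR α β w s p.1 t) (deriv sg p.2 * ((1 - sg p.1) *
      (w (β s) - w s) + sg p.1 * (w (β (α s)) - w (α s)))) p.2 := by
    have h5 : (fun t : ℝ => FR α β w s p.1 t) = fun t => sg t * ((1 - sg p.1) *
      (w (β s) - w s) + sg p.1 * (w (β (α s)) - w (α s))) + ((1 - sg p.1) * w s +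
        sg p.1 * w (α s)) := by
      funext t
      unfold FR
      ring
    rw [h5]
    exact (h3.mul_const _).add_const _
  have h6 := h4.ofReal_comp
  have h7 : (fun t : ℝ => ((FR α β w s p.1 t : ℝ) : ℂ)) =
      (fun q : ℝ × ℝ => F0 α β (toC w) s q.1 q.2) ∘ fun t : ℝ => (p.1, t) := by
    funext t
    exact (F0_toC w s p.1 t).symm
  rw [h7] at h6
  exact h2.unique h6

variable [Countable X] [MeasurableSpace X] [DiscreteMeasurableSpace X]

private theorem lint_mu (f : Sq X → ENNReal) (hf : AEMeasurable f (mu X)) :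
    ∫⁻ q, f q ∂(mu X) = ∑' s, ∫⁻ p in unitSq, f (s, p) := by
  unfold mu
  rw [lintegral_prod _ hf, lintegral_count]

private theorem bound_mu {q : Sq X → ℂ} (hq : AEStronglyMeasurable q (mu X)) {b : X → ℝ}
    (hb : Summable b) (h : ∀ s, ∀ p ∈ unitSq, ‖q (s, p)‖ ^ 2 ≤ b s) :
    MemLp q 2 (mu X) ∧ ∫ x, ‖q x‖ ^ 2 ∂(mu X) ≤ ∑' s, b s := by
  have hb0 : ∀ s, 0 ≤ b s := fun s =>
    (sq_nonneg _).trans (h s (1 / 2, 1 / 2) ⟨by norm_num [Set.mem_Ioo], by norm_num [Set.mem_Ioo]⟩)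
  have h1 : ∫⁻ x, ENNReal.ofReal (‖q x‖ ^ 2) ∂(mu X) ≤ ENNReal.ofReal (∑' s, b s) := by
    rw [lint_mu, ENNReal.ofReal_tsum_of_nonneg hb0 hb]
    · refine ENNReal.tsum_le_tsum fun s => ?_
      have h2 : ∫⁻ p in unitSq, ENNReal.ofReal (‖q (s, p)‖ ^ 2) ≤
          ∫⁻ _ in unitSq, ENNReal.ofReal (b s) := by
        refine setLIntegral_mono' (isOpen_Ioo.prod isOpen_Ioo).measurableSet fun p hp => ?_
        exact ENNReal.ofReal_le_ofReal (h s p hp)
      refine h2.trans (le_of_eq ?_)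
      rw [setLIntegral_const]
      have h3 : (volume : Measure (ℝ × ℝ)) unitSq = 1 := by
        unfold unitSq
        rw [Measure.volume_eq_prod, Measure.prod_prod]
        simp
      rw [h3, mul_one]
    · exact (hq.norm.pow 2).aemeasurable.ennreal_ofReal
  have h4 : Integrable (fun x => ‖q x‖ ^ 2) (mu X) := by
    refine ⟨hq.norm.pow 2, ?_⟩
    rw [hasFiniteIntegral_iff_ofReal (Filter.Eventually.of_forall fun x => sq_nonneg _)]
    exact h1.trans_lt ENNReal.ofReal_lt_top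
  refine ⟨(memLp_two_iff_integrable_sq_norm hq).2 h4, ?_⟩
  rw [integral_eq_lintegral_of_nonneg_ae (Filter.Eventually.of_forall fun x => sq_nonneg _)
    h4.aestronglyMeasurable]
  exact ENNReal.toReal_le_of_le_ofReal (tsum_nonneg hb0) h1

omit [Countable X] [MeasurableSpace X] [DiscreteMeasurableSpace X] in
private theorem inv_toC {w : X → ℝ} (hw : InW α β w) : ∀ s, toC w (zeta α β s) = toC w s := by
  intro s
  unfold toC
  rw [hw.inv]

private theorem energy_aux {M : ℝ} (hM : ∀ t, 0 < t → t < 1 → |deriv sg t| ≤ M) {w : X → ℝ}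
    (hw : InW α β w) :
    (MemLp (fl (dx (Phi α β (toC w)))) 2 (mu X) ∧
      ∫ q, ‖fl (dx (Phi α β (toC w))) q‖ ^ 2 ∂(mu X) ≤
        2 * M ^ 2 * ∑' x, (w (α x) - w x) ^ 2) ∧
    (MemLp (fl (dy (Phi α β (toC w)))) 2 (mu X) ∧
      ∫ q, ‖fl (dy (Phi α β (toC w))) q‖ ^ 2 ∂(mu X) ≤
        2 * M ^ 2 * ∑' x, (w (β x) - w x) ^ 2) := by
  have key : ∀ (d t a b : ℝ), |d| ≤ M → 0 ≤ t → t ≤ 1 →
      ‖((d * ((1 - t) * a + t * b) : ℝ) : ℂ)‖ ^ 2 ≤ M ^ 2 * (a ^ 2 + b ^ 2) := by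
    intro d t a b hd h0 h1
    rw [Complex.norm_real, Real.norm_eq_abs, sq_abs, mul_pow]
    refine mul_le_mul ?_ (cvx_sq h0 h1) (sq_nonneg _) (sq_nonneg _)
    rw [← sq_abs]
    exact pow_le_pow_left₀ (abs_nonneg _) hd 2
  have hn := nice_Phi (inv_toC hw)
  constructor
  · have hs2 : Summable fun x => (w (β (α x)) - w (β x)) ^ 2 := by
      have h := (Equiv.summable_iff β).2 hw.sa
      refine h.congr fun x => ?_
      simp only [Function.comp]
      rw [zeta_swapR hw.inv]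
    have ht2 : ∑' x, (w (β (α x)) - w (β x)) ^ 2 = ∑' x, (w (α x) - w x) ^ 2 := by
      rw [← Equiv.tsum_eq β (fun x => (w (α x) - w x) ^ 2)]
      refine tsum_congr fun x => ?_
      rw [zeta_swapR hw.inv]
    have h := bound_mu (nice_meas (nice_dx hn)) ((hw.sa.add hs2).mul_left (M ^ 2)) (by
      intro s p hp
      change ‖dx (Phi α β (toC w)) s p‖ ^ 2 ≤ _
      rw [dx_formula w s hp]
      exact key _ _ _ _ (hM _ hp.1.1 hp.1.2) (sg_nonneg _) (sg_le_one _))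
    refine ⟨h.1, h.2.trans (le_of_eq ?_)⟩
    rw [tsum_mul_left, hw.sa.tsum_add hs2, ht2]
    ring
  · have hs2 : Summable fun x => (w (β (α x)) - w (α x)) ^ 2 := (Equiv.summable_iff α).2 hw.sb
    have ht2 : ∑' x, (w (β (α x)) - w (α x)) ^ 2 = ∑' x, (w (β x) - w x) ^ 2 :=
      Equiv.tsum_eq α (fun x => (w (β x) - w x) ^ 2)
    have h := bound_mu (nice_meas (nice_dy hn)) ((hw.sb.add hs2).mul_left (M ^ 2)) (by
      intro s p hp
      change ‖dy (Phi α β (toC w)) s p‖ ^ 2 ≤ _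
      rw [dy_formula w s hp]
      exact key _ _ _ _ (hM _ hp.2.1 hp.2.2) (sg_nonneg _) (sg_le_one _))
    refine ⟨h.1, h.2.trans (le_of_eq ?_)⟩
    rw [tsum_mul_left, hw.sb.tsum_add hs2, ht2]
    ring

theorem Phi_energy {w : X → ℝ} (hw : InW α β w) :
    MemLp (fl (dx (Phi α β (toC w)))) 2 (mu X) ∧ MemLp (fl (dy (Phi α β (toC w)))) 2 (mu X) := by
  obtain ⟨M, hM⟩ := exists_dsg
  have h := energy_aux hM hw
  exact ⟨h.1.1, h.2.1⟩

/-- there is a universal constant for the energy of `Φ_w` -/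
theorem Phi_energy_le : ∃ C : ℝ, ∀ w : X → ℝ, InW α β w →
    ∫ q, ‖fl (dx (Phi α β (toC w))) q‖ ^ 2 ∂(mu X) + ∫ q, ‖fl (dy (Phi α β (toC w))) q‖ ^ 2 ∂(mu X) ≤
      C * (∑' x, (w (α x) - w x) ^ 2 + ∑' x, (w (β x) - w x) ^ 2) := by
  obtain ⟨M, hM⟩ := exists_dsg
  refine ⟨2 * M ^ 2, fun w hw => ?_⟩
  have h := energy_aux hM hw
  rw [mul_add]
  exact add_le_add h.1.2 h.2.2

private theorem L2_aux {w : X → ℝ} (hw : InW α β w) (hl : L2s w) :
    MemLp (fl (Phi α β (toC w))) 2 (mu X) ∧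
    ∫ q, ‖fl (Phi α β (toC w)) q‖ ^ 2 ∂(mu X) ≤ 4 * ∑' x, (w x) ^ 2 := by
  have hn := nice_Phi (inv_toC hw)
  unfold L2s at hl
  have s1 : Summable fun x => (w (α x)) ^ 2 := (Equiv.summable_iff α).2 hl
  have s2 : Summable fun x => (w (β x)) ^ 2 := (Equiv.summable_iff β).2 hl
  have s3 : Summable fun x => (w (β (α x))) ^ 2 := (Equiv.summable_iff α).2 s2
  have t1 : ∑' x, (w (α x)) ^ 2 = ∑' x, (w x) ^ 2 := Equiv.tsum_eq α (fun x => (w x) ^ 2)
  have t2 : ∑' x, (w (β x)) ^ 2 = ∑' x, (w x) ^ 2 := Equiv.tsum_eq β (fun x => (w x) ^ 2)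
  have t3 : ∑' x, (w (β (α x))) ^ 2 = ∑' x, (w x) ^ 2 := by
    rw [← t2]
    exact Equiv.tsum_eq α (fun x => (w (β x)) ^ 2)
  have h := bound_mu (nice_meas hn) ((hl.add s1).add (s2.add s3)) (by
    intro s p hp
    change ‖Phi α β (toC w) s (p.1, p.2)‖ ^ 2 ≤ _
    rw [Phi_sq (toC w) s hp.1.1 hp.1.2 hp.2.1 hp.2.2, F0_toC, Complex.norm_real,
      Real.norm_eq_abs, sq_abs]
    exact (cvx_sq (sg_nonneg _) (sg_le_one _)).trans
      (add_le_add (cvx_sq (sg_nonneg _) (sg_le_one _)) (cvx_sq (sg_nonneg _) (sg_le_one _))))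
  refine ⟨h.1, h.2.trans (le_of_eq ?_)⟩
  rw [(hl.add s1).tsum_add (s2.add s3), hl.tsum_add s1, s2.tsum_add s3, t1, t2, t3]
  ring

theorem Phi_L2_iff {w : X → ℝ} (hw : InW α β w) :
    MemLp (fl (Phi α β (toC w))) 2 (mu X) ↔ L2s w := by
  refine ⟨fun h => ?_, fun h => (L2_aux hw h).1⟩
  have h1 := (memLp_two_iff_integrable_sq_norm h.1).1 h
  have h2 := h1.2
  rw [hasFiniteIntegral_iff_ofReal (Filter.Eventually.of_forall fun x => sq_nonneg _),
    lint_mu (fun x => ENNReal.ofReal (‖fl (Phi α β (toC w)) x‖ ^ 2))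
      (h.1.norm.pow 2).aemeasurable.ennreal_ofReal] at h2
  have h3 : ∑' s, ENNReal.ofReal ((w s) ^ 2 * (1 / 9)) < ⊤ := by
    refine (ENNReal.tsum_le_tsum fun s => ?_).trans_lt h2
    have hsub : Set.Ioo (0:ℝ) (1/3) ×ˢ Set.Ioo (0:ℝ) (1/3) ⊆ unitSq :=
      Set.prod_mono (Set.Ioo_subset_Ioo_right (by norm_num)) (Set.Ioo_subset_Ioo_right (by norm_num))
    refine le_trans ?_ (lintegral_mono_set hsub)
    have hm : MeasurableSet (Set.Ioo (0:ℝ) (1/3) ×ˢ Set.Ioo (0:ℝ) (1/3)) :=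
      measurableSet_Ioo.prod measurableSet_Ioo
    rw [setLIntegral_congr_fun (g := fun _ => ENNReal.ofReal ((w s) ^ 2)) hm]
    · rw [setLIntegral_const, Measure.volume_eq_prod, Measure.prod_prod, Real.volume_Ioo,
        ← ENNReal.ofReal_mul (by norm_num), ← ENNReal.ofReal_mul (sq_nonneg _)]
      exact ENNReal.ofReal_le_ofReal (by nlinarith [sq_nonneg (w s)])
    · intro p hp
      change ENNReal.ofReal (‖Phi α β (toC w) s (p.1, p.2)‖ ^ 2) = ENNReal.ofReal ((w s) ^ 2)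
      rw [(Phi_corner (inv_toC hw) s p.1 p.2 hp.1.1 hp.1.2.le hp.2.1 hp.2.2.le).1]
      unfold toC
      rw [Complex.norm_real, Real.norm_eq_abs, sq_abs]
  have h4 : Summable fun s => (w s) ^ 2 * (1 / 9) := by
    have h5 := ENNReal.summable_toReal h3.ne
    refine h5.congr fun s => ?_
    exact ENNReal.toReal_ofReal (by positivity)
  unfold L2s
  refine (h4.mul_right 9).congr fun s => ?_
  ring

theorem Phi_L2_le : ∃ C : ℝ, ∀ w : X → ℝ, InW α β w → L2s w →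
    ∫ q, ‖fl (Phi α β (toC w)) q‖ ^ 2 ∂(mu X) ≤ C * ∑' x, (w x) ^ 2 :=
  ⟨4, fun _ hw hl => (L2_aux hw hl).2⟩

end Pool.Agent.Helper96.OF
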