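import Pool.Agent.Helper96.OF.HADefs

/-!
# OF-HA1: existence, uniqueness, smoothness, minimality, reality of the solution

Proof. `Dt τ = d2 - τ̄ d1 : H →L[ℂ] K` (bounded linear), adjoint `Dt τ^† = d2^† - τ d1^†`. `A_τ = Dt τ^† ∘ Dt τ : H →L[ℂ] H`,
`Weq τ ψ ↔ A_τ ψ = - Dt τ^† (φ2 - τ̄ φ1)`.
Coercivity: for `τ = u+iv`, `v>0`, by `iso` `⟪d1χ, d2χ⟫` is real (`⟪d1χ,d2χ⟫ = ⟪d2χ,d1χ⟫ = conj`), so
`‖d2χ - τ̄ d1χ‖² = ‖d2χ‖² - 2u ⟪d1χ,d2χ⟫ + (u²+v²)‖d1χ‖² = ‖d2χ - u d1χ‖² + v²‖d1χ‖² ≥ c(τ)(‖d1χ‖²+‖d2χ‖²) ≥ c(τ) c0 ‖χ‖²`, `c(τ)>0`.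
So `A_τ` is invertible (Lax-Milgram: `IsCoercive.continuousLinearEquivOfBilin`, or `LinearMap.. ` antilipschitz + self adjoint), and `s τ = A_τ⁻¹(...)` is smooth on `HH`
since `τ ↦ A_τ` is smooth (polynomial in re, im) and inversion is smooth at invertible elements (`contDiffAt_map_inverse`, `contDiffAt_ringInverse`).
Uniqueness: difference `δ` of two solutions has `⟪Dt δ, Dt δ⟫ = 0`.  Minimality: `Y τ χ = Y τ ψ + Dt τ (χ-ψ)` and Pythagoras.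
Reality: by `iso`, `isoφ`, `Weq τ ψ` is equivalent to `∀ χ, ⟪d2χ - τ d1χ, (φ2+d2ψ) - τ (φ1+d1ψ)⟫ = 0` (the difference of the two expressions is
`(τ-τ̄)(⟪d2χ,P⟫ - ⟪d1χ,R⟫) = 0`); applying `J` to the second one (`J_inner`, `d_J`) shows that `JH ψ` satisfies `Weq τ`; so `JH ψ = ψ` by uniqueness.
-/

set_option autoImplicit false

open scoped ComplexConjugate

namespace Pool.Agent.Helper96.OF.HolData

variable {H K : Type*} [NormedAddCommGroup H] [InnerProductSpace ℂ H] [CompleteSpace H]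
    [NormedAddCommGroup K] [InnerProductSpace ℂ K] [CompleteSpace K] (D : HolData H K)

private theorem inner_Dt_expand (τ : ℂ) (χ : H) (P R : K) :
    inner ℂ (D.d2 χ - τ • D.d1 χ) (P - τ • R) =
      inner ℂ (D.d2 χ) P - τ * inner ℂ (D.d2 χ) R - conj τ * inner ℂ (D.d1 χ) P +
        conj τ * τ * inner ℂ (D.d1 χ) R := by
  simp only [inner_sub_left, inner_sub_right, inner_smul_left, inner_smul_right]
  ring

private theorem inner_d_real (χ : H) : conj (inner ℂ (D.d1 χ) (D.d2 χ)) =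
    inner ℂ (D.d1 χ) (D.d2 χ) := by
  rw [inner_conj_symm, ← D.iso]

private theorem normSq_Dt (τ : ℂ) (χ : H) : ‖D.Dt τ χ‖ ^ 2 =
    ‖D.d2 χ‖ ^ 2 - 2 * τ.re * (inner ℂ (D.d1 χ) (D.d2 χ)).re +
      (τ.re ^ 2 + τ.im ^ 2) * ‖D.d1 χ‖ ^ 2 := by
  have h1 : (inner ℂ (D.d2 χ) (D.d1 χ)) = inner ℂ (D.d1 χ) (D.d2 χ) := (D.iso χ χ).symm
  have h2 : (inner ℂ (D.d1 χ) (D.d2 χ)).im = 0 := by
    have := congrArg Complex.im (inner_d_real D χ)
    rw [Complex.conj_im] at this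
    linarith
  unfold Dt
  rw [@norm_sub_sq ℂ, inner_smul_right, h1, norm_smul, mul_pow]
  have h3 : ‖conj τ‖ ^ 2 = τ.re ^ 2 + τ.im ^ 2 := by
    rw [Complex.norm_conj, ← Complex.normSq_eq_norm_sq, Complex.normSq_apply]; ring
  rw [h3]
  have h4 : RCLike.re (conj τ * inner ℂ (D.d1 χ) (D.d2 χ)) =
      τ.re * (inner ℂ (D.d1 χ) (D.d2 χ)).re := by
    change (conj τ * inner ℂ (D.d1 χ) (D.d2 χ)).re = _
    rw [Complex.mul_re, Complex.conj_re, h2]; ring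
  rw [h4]; ring

/-- lower bound for `Dt` -/
private theorem Dt_coer' {τ : ℂ} (hτ : τ ∈ HH) :
    ∃ c : ℝ, 0 < c ∧ ∀ χ, c * ‖χ‖ ^ 2 ≤ ‖D.Dt τ χ‖ ^ 2 := by
  have hv : 0 < τ.im := hτ
  have hv2 : 0 < τ.im ^ 2 := by positivity
  set C : ℝ := 2 + (1 + 2 * τ.re ^ 2) / τ.im ^ 2 with hC
  have hCpos : 0 < C := by positivity
  refine ⟨D.c0 / C, div_pos D.c0_pos hCpos, fun χ => ?_⟩
  have h1 := D.coer χ
  have h2 : |(inner ℂ (D.d1 χ) (D.d2 χ)).re| ≤ ‖D.d1 χ‖ * ‖D.d2 χ‖ :=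
    (Complex.abs_re_le_norm _).trans (norm_inner_le_norm _ _)
  rw [normSq_Dt]
  set x := ‖D.d1 χ‖
  set y := ‖D.d2 χ‖
  set a := (inner ℂ (D.d1 χ) (D.d2 χ)).re
  have hx : 0 ≤ x := norm_nonneg _
  have hy : 0 ≤ y := norm_nonneg _
  -- main inequality
  have h3 : x ^ 2 + y ^ 2 ≤ C * (y ^ 2 - 2 * τ.re * a + (τ.re ^ 2 + τ.im ^ 2) * x ^ 2) := by
    have h4 : τ.re * a ≤ |τ.re| * (x * y) := by
      calc τ.re * a ≤ |τ.re * a| := le_abs_self _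
        _ = |τ.re| * |a| := abs_mul _ _
        _ ≤ |τ.re| * (x * y) := mul_le_mul_of_nonneg_left h2 (abs_nonneg _)
    have h5 : (y - |τ.re| * x) ^ 2 + τ.im ^ 2 * x ^ 2 ≤
        y ^ 2 - 2 * τ.re * a + (τ.re ^ 2 + τ.im ^ 2) * x ^ 2 := by
      have : |τ.re| ^ 2 = τ.re ^ 2 := sq_abs _
      nlinarith
    refine le_trans ?_ (mul_le_mul_of_nonneg_left h5 hCpos.le)
    have h6 : y ^ 2 ≤ 2 * (y - |τ.re| * x) ^ 2 + 2 * τ.re ^ 2 * x ^ 2 := by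
      have : |τ.re| ^ 2 = τ.re ^ 2 := sq_abs _
      nlinarith [sq_nonneg (y - 2 * (|τ.re| * x))]
    have h7 : (1 + 2 * τ.re ^ 2) / τ.im ^ 2 * (τ.im ^ 2 * x ^ 2) = (1 + 2 * τ.re ^ 2) * x ^ 2 := by
      field_simp
    have h8 : 0 ≤ (1 + 2 * τ.re ^ 2) / τ.im ^ 2 * (y - |τ.re| * x) ^ 2 := by positivity
    have h9 : 0 ≤ 2 * (τ.im ^ 2 * x ^ 2) := by positivity
    rw [hC]
    nlinarith
  rw [div_mul_eq_mul_div, div_le_iff₀ hCpos]
  calc D.c0 * ‖χ‖ ^ 2 ≤ x ^ 2 + y ^ 2 := h1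
    _ ≤ _ := by rw [mul_comm]; exact h3

private theorem Y_sub (τ : ℂ) (ψ ψ' : H) : D.Y τ ψ = D.Y τ ψ' + D.Dt τ (ψ - ψ') := by
  unfold Y Dt
  simp only [map_sub, smul_sub, smul_add]
  abel

private theorem Dt_smul (τ : ℂ) (c : ℂ) (χ : H) : D.Dt τ (c • χ) = c • D.Dt τ χ := by
  unfold Dt
  simp only [map_smul, smul_sub]
  rw [smul_comm]

theorem weq_unique {τ : ℂ} (hτ : τ ∈ HH) {ψ ψ' : H} (h : D.Weq τ ψ) (h' : D.Weq τ ψ') : ψ = ψ' := by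
  obtain ⟨c, hc, hcoer⟩ := Dt_coer' D hτ
  have h1 := h (ψ - ψ')
  rw [Y_sub D τ ψ ψ', inner_add_right, h' (ψ - ψ'), zero_add, inner_self_eq_zero] at h1
  have h2 := hcoer (ψ - ψ')
  rw [h1, norm_zero] at h2
  have h3 : ‖ψ - ψ'‖ ^ 2 ≤ 0 := by
    by_contra h4
    push Not at h4
    have := mul_pos hc h4
    simp at h2
    linarith
  have h4 : ‖ψ - ψ'‖ = 0 := by
    have := sq_nonneg ‖ψ - ψ'‖
    exact pow_eq_zero_iff (two_ne_zero) |>.1 (le_antisymm h3 this)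
  exact sub_eq_zero.1 (norm_eq_zero.1 h4)

/-- the operator `Dt τ^† ∘ Dt τ`, expanded -/
private noncomputable def opA (τ : ℂ) : H →L[ℂ] H :=
  (D.d2.adjoint.comp D.d2) - conj τ • (D.d2.adjoint.comp D.d1) - τ • (D.d1.adjoint.comp D.d2) +
    (conj τ * τ) • (D.d1.adjoint.comp D.d1)

/-- `Dt τ^† (φ2 - τ̄ φ1)`, expanded -/
private noncomputable def vecB (τ : ℂ) : H :=
  D.d2.adjoint D.φ2 - conj τ • D.d2.adjoint D.φ1 - τ • D.d1.adjoint D.φ2 +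
    (conj τ * τ) • D.d1.adjoint D.φ1

private theorem inner_opA (τ : ℂ) (χ ψ : H) :
    inner ℂ χ (opA D τ ψ) = inner ℂ (D.Dt τ χ) (D.Dt τ ψ) := by
  unfold Dt
  rw [inner_Dt_expand]
  unfold opA
  simp only [ContinuousLinearMap.add_apply, ContinuousLinearMap.sub_apply,
    ContinuousLinearMap.smul_apply, ContinuousLinearMap.comp_apply, inner_add_right,
    inner_sub_right, inner_smul_right, ContinuousLinearMap.adjoint_inner_right, Complex.conj_conj]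
  ring

private theorem inner_vecB (τ : ℂ) (χ : H) :
    inner ℂ χ (vecB D τ) = inner ℂ (D.Dt τ χ) (D.φ2 - conj τ • D.φ1) := by
  unfold Dt
  rw [inner_Dt_expand]
  unfold vecB
  simp only [inner_add_right,
    inner_sub_right, inner_smul_right, ContinuousLinearMap.adjoint_inner_right, Complex.conj_conj]
  ring

private theorem isUnit_opA {τ : ℂ} (hτ : τ ∈ HH) : IsUnit (opA D τ) := by
  obtain ⟨c, hc, hcoer⟩ := Dt_coer' D hτ
  refine ContinuousLinearMap.isUnit_of_forall_le_norm_inner_map (c := ⟨c, hc.le⟩) _ hc ?_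
  intro x
  rw [← inner_conj_symm, inner_opA, Complex.norm_conj, inner_self_eq_norm_sq_to_K]
  rw [mul_comm]
  refine (hcoer x).trans (le_of_eq ?_)
  simp

private theorem contDiff_conj : ContDiff ℝ (⊤ : ℕ∞) (fun τ : ℂ => conj τ) :=
  Complex.conjCLE.contDiff

private theorem contDiff_opA : ContDiff ℝ (⊤ : ℕ∞) (fun τ : ℂ => opA D τ) := by
  unfold opA
  have h := contDiff_conj
  exact ((contDiff_const.sub (h.smul contDiff_const)).sub (contDiff_id.smul contDiff_const)).add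
    ((h.mul contDiff_id).smul contDiff_const)

private theorem contDiff_vecB : ContDiff ℝ (⊤ : ℕ∞) (fun τ : ℂ => vecB D τ) := by
  unfold vecB
  have h := contDiff_conj
  exact ((contDiff_const.sub (h.smul contDiff_const)).sub (contDiff_id.smul contDiff_const)).add
    ((h.mul contDiff_id).smul contDiff_const)

theorem exists_smooth_sol : ∃ s : ℂ → H, (∀ τ ∈ HH, D.Weq τ (s τ)) ∧ ContDiffOn ℝ (⊤ : ℕ∞) s HH := by
  refine ⟨fun τ => - (Ring.inverse (opA D τ)) (vecB D τ), fun τ hτ χ => ?_, fun τ hτ => ?_⟩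
  · have h1 : D.Y τ (-(Ring.inverse (opA D τ)) (vecB D τ)) = (D.φ2 - conj τ • D.φ1) +
        D.Dt τ (-(Ring.inverse (opA D τ)) (vecB D τ)) := by
      unfold Y Dt
      rw [smul_add]; abel
    rw [h1, inner_add_right, ← inner_opA, ← inner_vecB, ← inner_add_right, map_neg]
    have h2 : opA D τ (Ring.inverse (opA D τ) (vecB D τ)) = vecB D τ := by
      have := Ring.mul_inverse_cancel _ (isUnit_opA D hτ)
      have := congrArg (fun f : H →L[ℂ] H => f (vecB D τ)) this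
      simpa using this
    rw [h2, add_neg_cancel, inner_zero_right]
  · have h1 : ContDiffAt ℝ (⊤ : ℕ∞) (fun τ : ℂ => Ring.inverse (opA D τ)) τ := by
      obtain ⟨e, he⟩ := isUnit_opA D hτ
      have h2 : ContDiffAt ℝ (⊤ : ℕ∞) (Ring.inverse : (H →L[ℂ] H) → (H →L[ℂ] H)) (opA D τ) := by
        rw [← he]
        exact (contDiffAt_ringInverse ℂ e).restrict_scalars ℝ
      exact h2.comp τ (contDiff_opA D).contDiffAt
    have h3 : ContDiff ℝ (⊤ : ℕ∞) (fun p : (H →L[ℂ] H) × H => p.1 p.2) :=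
      (isBoundedBilinearMap_apply (𝕜 := ℂ) (E := H) (F := H)).contDiff.restrict_scalars ℝ
    have h4 : ContDiffAt ℝ (⊤ : ℕ∞) (fun τ : ℂ => (Ring.inverse (opA D τ)) (vecB D τ)) τ :=
      h3.contDiffAt.comp τ (h1.prodMk (contDiff_vecB D).contDiffAt)
    exact h4.neg.contDiffWithinAt

theorem weq_minimal {τ : ℂ} {ψ : H} (h : D.Weq τ ψ) (χ : H) :
    ‖D.Y τ χ‖ ^ 2 = ‖D.Y τ ψ‖ ^ 2 + ‖D.Dt τ (χ - ψ)‖ ^ 2 := by
  rw [Y_sub D τ χ ψ, @norm_add_sq ℂ, ← inner_conj_symm, h (χ - ψ)]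
  simp

theorem weq_real {τ : ℂ} (hτ : τ ∈ HH) {ψ : H} (h : D.Weq τ ψ) : D.JH ψ = ψ := by
  refine weq_unique D hτ (fun χ => ?_) h
  obtain ⟨χ', rfl⟩ : ∃ χ', D.JH χ' = χ := ⟨D.JH χ, D.JH_inv χ⟩
  have h1 : D.Dt τ (D.JH χ') = D.J (D.d2 χ' - τ • D.d1 χ') := by
    unfold Dt
    rw [D.d1_J, D.d2_J, map_sub, D.J_smul]
  have h2 : D.Y τ (D.JH ψ) = D.J ((D.φ2 + D.d2 ψ) - τ • (D.φ1 + D.d1 ψ)) := by
    unfold Y
    rw [D.d1_J, D.d2_J, map_sub, D.J_smul, map_add, map_add, D.φ1_real, D.φ2_real]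
  rw [h1, h2, D.J_inner, ← inner_conj_symm, map_eq_zero, inner_Dt_expand]
  have h3 : inner ℂ (D.d1 χ') (D.φ2 + D.d2 ψ) = inner ℂ (D.d2 χ') (D.φ1 + D.d1 ψ) := by
    rw [inner_add_right, inner_add_right, D.isoφ, D.iso]
  have h4 := h χ'
  unfold Dt Y at h4
  rw [inner_Dt_expand, h3, Complex.conj_conj] at h4
  rw [h3]
  linear_combination h4

/-- lower bound for `Dt` -/
theorem Dt_coer {τ : ℂ} (hτ : τ ∈ HH) : ∃ c : ℝ, 0 < c ∧ ∀ χ, c * ‖χ‖ ^ 2 ≤ ‖D.Dt τ χ‖ ^ 2 :=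
  Dt_coer' D hτ

end Pool.Agent.Helper96.OF.HolData
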