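import Pool.Agent.Helper96.OF.HADefs

/-!
# OF-HA2: the Laplacian of the energy is `32 v ‖∂_τ̄ h‖²`
-/

set_option autoImplicit false

open scoped ComplexConjugate

namespace Pool.Agent.Helper96.OF.HolData

variable {H K : Type*} [NormedAddCommGroup H] [InnerProductSpace ℂ H] [CompleteSpace H]
    [NormedAddCommGroup K] [InnerProductSpace ℂ K] [CompleteSpace K] (D : HolData H K)

private theorem isOpen_HH : IsOpen HH := isOpen_lt continuous_const Complex.continuous_im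

private theorem sub_conj (τ : ℂ) : τ - conj τ = 2 * Complex.I * (τ.im : ℂ) := by
  apply Complex.ext <;> simp; ring

private theorem sub_conj_ne {τ : ℂ} (hτ : τ ∈ HH) : τ - conj τ ≠ 0 := by
  rw [sub_conj]
  have : (τ.im : ℂ) ≠ 0 := by
    have h : (0:ℝ) < τ.im := hτ
    exact_mod_cast h.ne'
  simp [this]

private theorem conj_smooth : ContDiff ℝ (⊤ : ℕ∞) (fun τ : ℂ => conj τ) := by
  exact Complex.conjCLE.contDiff

private theorem h_smooth (s : ℂ → H) (hs : ContDiffOn ℝ (⊤ : ℕ∞) s HH) :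
    ContDiffOn ℝ (⊤ : ℕ∞) (D.h s) HH := by
  have h1 : ContDiffOn ℝ (⊤ : ℕ∞) (fun τ => D.d1 (s τ)) HH :=
    (D.d1.restrictScalars ℝ).contDiff.comp_contDiffOn hs
  have h2 : ContDiffOn ℝ (⊤ : ℕ∞) (fun τ => D.d2 (s τ)) HH :=
    (D.d2.restrictScalars ℝ).contDiff.comp_contDiffOn hs
  have hc : ContDiffOn ℝ (⊤ : ℕ∞) (fun τ : ℂ => conj τ) HH := conj_smooth.contDiffOn
  have hi : ContDiffOn ℝ (⊤ : ℕ∞) (fun τ : ℂ => 1 / (τ - conj τ)) HH := by
    have hsub : ContDiffOn ℝ (⊤ : ℕ∞) (fun τ : ℂ => τ - conj τ) HH := contDiffOn_id.sub hc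
    refine (hsub.inv (fun τ hτ => sub_conj_ne hτ)).congr ?_
    intro τ _
    simp
  unfold HolData.h HolData.Y
  exact hi.smul ((contDiffOn_const.add h2).sub (hc.smul (contDiffOn_const.add h1)))

theorem E_smooth (s : ℂ → H) (hs : ContDiffOn ℝ (⊤ : ℕ∞) s HH) :
    ContDiffOn ℝ (⊤ : ℕ∞) (D.E s) HH := by
  have hh := D.h_smooth s hs
  have him : ContDiffOn ℝ (⊤ : ℕ∞) (fun τ : ℂ => τ.im) HH := Complex.imCLM.contDiff.contDiffOn
  unfold HolData.E
  exact (contDiffOn_const.mul him).mul (hh.norm_sq ℂ)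

private theorem Dt_lin (τ : ℂ) (a b : ℂ) (x y : H) :
    D.Dt τ (a • x + b • y) = a • D.Dt τ x + b • D.Dt τ y := by
  unfold HolData.Dt
  simp only [map_add, map_smul, smul_add, smul_sub]
  rw [smul_comm (conj τ) a, smul_comm (conj τ) b]
  abel

private theorem J_sym (x y : K) : inner ℂ (D.J x) y = inner ℂ (D.J y) x := by
  have := D.J_inner x (D.J y)
  rwa [D.J_inv] at this

/-- basic facts at a point -/
private theorem P_eq (s : ℂ → H) (hr : ∀ τ ∈ HH, D.JH (s τ) = s τ) {τ : ℂ} (hτ : τ ∈ HH) :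
    D.φ1 + D.d1 (s τ) = D.h s τ + D.J (D.h s τ) ∧
      D.φ2 + D.d2 (s τ) = τ • D.h s τ + conj τ • D.J (D.h s τ) := by
  set P := D.φ1 + D.d1 (s τ) with hP
  set R := D.φ2 + D.d2 (s τ) with hR
  have hne := sub_conj_ne hτ
  have JP : D.J P = P := by
    rw [hP, map_add, D.φ1_real, ← D.d1_J, hr τ hτ]
  have JR : D.J R = R := by
    rw [hR, map_add, D.φ2_real, ← D.d2_J, hr τ hτ]
  have hh : D.h s τ = (1 / (τ - conj τ)) • (R - conj τ • P) := rfl
  have hJh : D.J (D.h s τ) = (1 / (conj τ - τ)) • (R - τ • P) := by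
    rw [hh, D.J_smul, map_sub, D.J_smul, JP, JR]
    congr 2
    · simp
    · simp
  have hne2 : conj τ - τ ≠ 0 := by
    intro h0
    apply hne
    rw [← neg_sub, h0, neg_zero]
  have e : (1 / (conj τ - τ)) = -(1 / (τ - conj τ)) := by
    rw [← neg_sub, one_div_neg_eq_neg_one_div]
  constructor
  · rw [hJh, hh, e]
    have : (1 / (τ - conj τ)) • (R - conj τ • P) + -(1 / (τ - conj τ)) • (R - τ • P)
        = ((1 / (τ - conj τ)) * (τ - conj τ)) • P := by module
    rw [this, one_div_mul_cancel hne, one_smul]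
  · rw [hJh, hh, e]
    have : τ • (1 / (τ - conj τ)) • (R - conj τ • P) + conj τ • -(1 / (τ - conj τ)) • (R - τ • P)
        = ((1 / (τ - conj τ)) * (τ - conj τ)) • R := by module
    rw [this, one_div_mul_cancel hne, one_smul]

/-- `Dt τ (s' δ) = δ h + (τ - τ̄) h' δ + δ̄ J h` -/
private theorem Dt_deriv (s : ℂ → H) (hs : ContDiffOn ℝ (⊤ : ℕ∞) s HH)
    (hr : ∀ τ ∈ HH, D.JH (s τ) = s τ) {τ : ℂ} (hτ : τ ∈ HH) (δ : ℂ) :
    D.Dt τ (fderiv ℝ s τ δ) = δ • D.h s τ + (τ - conj τ) • fderiv ℝ (D.h s) τ δ +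
      conj δ • D.J (D.h s τ) := by
  have hsd : HasFDerivAt s (fderiv ℝ s τ) τ :=
    ((hs.differentiableOn (by simp)).differentiableAt (isOpen_HH.mem_nhds hτ)).hasFDerivAt
  have hhd : HasFDerivAt (D.h s) (fderiv ℝ (D.h s) τ) τ :=
    (((D.h_smooth s hs).differentiableOn (by simp)).differentiableAt
      (isOpen_HH.mem_nhds hτ)).hasFDerivAt
  have hJd : HasFDerivAt (fun σ => D.J (D.h s σ)) (D.J ∘L fderiv ℝ (D.h s) τ) τ :=
    D.J.hasFDerivAt.comp τ hhd
  have hP1 : HasFDerivAt (fun σ => D.φ1 + D.d1 (s σ))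
      ((D.d1.restrictScalars ℝ) ∘L fderiv ℝ s τ) τ := by
    have := ((D.d1.restrictScalars ℝ).hasFDerivAt.comp τ hsd).const_add D.φ1
    exact this
  have hR1 : HasFDerivAt (fun σ => D.φ2 + D.d2 (s σ))
      ((D.d2.restrictScalars ℝ) ∘L fderiv ℝ s τ) τ := by
    have := ((D.d2.restrictScalars ℝ).hasFDerivAt.comp τ hsd).const_add D.φ2
    exact this
  have hP2 : HasFDerivAt (fun σ => D.h s σ + D.J (D.h s σ))
      (fderiv ℝ (D.h s) τ + D.J ∘L fderiv ℝ (D.h s) τ) τ := hhd.add hJd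
  have hcj : HasFDerivAt (fun σ : ℂ => conj σ) (Complex.conjCLE : ℂ →L[ℝ] ℂ) τ :=
    Complex.conjCLE.hasFDerivAt
  have hR2 : HasFDerivAt (fun σ => σ • D.h s σ + conj σ • D.J (D.h s σ))
      ((τ • fderiv ℝ (D.h s) τ + (ContinuousLinearMap.id ℝ ℂ).smulRight (D.h s τ)) +
       (conj τ • (D.J ∘L fderiv ℝ (D.h s) τ) +
        (Complex.conjCLE : ℂ →L[ℝ] ℂ).smulRight (D.J (D.h s τ)))) τ :=
    ((hasFDerivAt_id τ).smul hhd).add (hcj.smul hJd)
  have evP : (fun σ => D.φ1 + D.d1 (s σ)) =ᶠ[nhds τ] (fun σ => D.h s σ + D.J (D.h s σ)) := by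
    filter_upwards [isOpen_HH.mem_nhds hτ] with σ hσ using (D.P_eq s hr hσ).1
  have evR : (fun σ => D.φ2 + D.d2 (s σ)) =ᶠ[nhds τ]
      (fun σ => σ • D.h s σ + conj σ • D.J (D.h s σ)) := by
    filter_upwards [isOpen_HH.mem_nhds hτ] with σ hσ using (D.P_eq s hr hσ).2
  have eP := hP1.unique (hP2.congr_of_eventuallyEq evP)
  have eR := hR1.unique (hR2.congr_of_eventuallyEq evR)
  have eP' := DFunLike.congr_fun eP δ
  have eR' := DFunLike.congr_fun eR δ
  simp only [ContinuousLinearMap.comp_apply, ContinuousLinearMap.coe_restrictScalars',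
    ContinuousLinearMap.add_apply, ContinuousLinearMap.smul_apply,
    ContinuousLinearMap.smulRight_apply, ContinuousLinearMap.id_apply] at eP' eR'
  unfold HolData.Dt
  rw [eP', eR']
  simp only [ContinuousLinearEquiv.coe_coe, Complex.conjCLE_apply]
  module

/-- derivative of the weak equation -/
private theorem weq_deriv (s : ℂ → H) (hw : ∀ τ ∈ HH, D.Weq τ (s τ))
    (hs : ContDiffOn ℝ (⊤ : ℕ∞) s HH) {τ : ℂ} (hτ : τ ∈ HH) (χ : H) :
    inner ℂ (D.Dt τ χ) (D.h s τ) = 0 ∧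
      ∀ δ, inner ℂ (D.Dt τ χ) (fderiv ℝ (D.h s) τ δ) = δ * inner ℂ (D.d1 χ) (D.h s τ) := by
  have key : ∀ σ ∈ HH, inner ℂ (D.Dt σ χ) (D.h s σ) = 0 := by
    intro σ hσ
    unfold HolData.h
    rw [inner_smul_right, hw σ hσ χ, mul_zero]
  refine ⟨key τ hτ, fun δ => ?_⟩
  have hhd : HasFDerivAt (D.h s) (fderiv ℝ (D.h s) τ) τ :=
    (((D.h_smooth s hs).differentiableOn (by simp)).differentiableAt
      (isOpen_HH.mem_nhds hτ)).hasFDerivAt
  have hcj : HasFDerivAt (fun σ : ℂ => conj σ) (Complex.conjCLE : ℂ →L[ℝ] ℂ) τ :=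
    Complex.conjCLE.hasFDerivAt
  have hD : HasFDerivAt (fun σ => D.Dt σ χ)
      (-((Complex.conjCLE : ℂ →L[ℝ] ℂ).smulRight (D.d1 χ))) τ := by
    have := (hcj.smul (hasFDerivAt_const (D.d1 χ) τ)).const_sub (D.d2 χ)
    refine this.congr_fderiv ?_
    ext x
    simp
  have hI := (hD.inner ℂ hhd)
  have h0 : HasFDerivAt (fun σ => inner ℂ (D.Dt σ χ) (D.h s σ)) (0 : ℂ →L[ℝ] ℂ) τ := by
    refine (hasFDerivAt_const (0:ℂ) τ).congr_of_eventuallyEq ?_
    filter_upwards [isOpen_HH.mem_nhds hτ] with σ hσ using key σ hσ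
  have e := DFunLike.congr_fun (hI.unique h0) δ
  simp only [ContinuousLinearMap.comp_apply, ContinuousLinearMap.prod_apply,
    fderivInnerCLM_apply, ContinuousLinearMap.zero_apply, ContinuousLinearMap.neg_apply,
    ContinuousLinearMap.smulRight_apply, ContinuousLinearEquiv.coe_coe, Complex.conjCLE_apply,
    inner_neg_left, inner_smul_left, Complex.conj_conj] at e
  linear_combination e

/-- the functional `c ↦ (δ ↦ 4 im (c δ))` -/
private noncomputable def Lam : ℂ →L[ℝ] (ℂ →L[ℝ] ℝ) :=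
  (ContinuousLinearMap.compL ℝ ℂ ℂ ℝ ((4:ℝ) • Complex.imCLM)).comp (ContinuousLinearMap.mul ℝ ℂ)

private theorem Lam_apply (c δ : ℂ) : Lam c δ = 4 * (c * δ).im := by
  simp [Lam]

private theorem two_pg (s : ℂ → H) (τ δ : ℂ) :
    fderiv ℝ (D.h s) τ δ = δ • dz (D.h s) τ + conj δ • dzb (D.h s) τ := by
  have e : fderiv ℝ (D.h s) τ δ
      = (δ.re : ℂ) • fderiv ℝ (D.h s) τ 1 + (δ.im : ℂ) • fderiv ℝ (D.h s) τ Complex.I := by
    have : δ = δ.re • (1:ℂ) + δ.im • Complex.I := by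
      apply Complex.ext <;> simp
    conv_lhs => rw [this, map_add, map_smul, map_smul]
    simp
  rw [e]
  unfold dz dzb
  have h1 : (δ.re : ℂ) = (1/2) * (δ + conj δ) := by
    apply Complex.ext <;> simp; ring
  have h2 : (δ.im : ℂ) = (1/2) * (-Complex.I) * (δ - conj δ) := by
    apply Complex.ext <;> simp; ring
  rw [h1, h2]
  module

/-- first derivative of the energy -/
private theorem E_deriv (s : ℂ → H) (hw : ∀ τ ∈ HH, D.Weq τ (s τ))
    (hs : ContDiffOn ℝ (⊤ : ℕ∞) s HH)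
    (hr : ∀ τ ∈ HH, D.JH (s τ) = s τ) {τ : ℂ} (hτ : τ ∈ HH) :
    (∀ δ, fderiv ℝ (D.E s) τ δ = 4 * (inner ℂ (D.J (D.h s τ)) (D.h s τ) * δ).im) ∧
    inner ℂ (D.J (D.h s τ)) (dzb (D.h s) τ) =
      2 * Complex.I * (τ.im : ℂ) * (‖dzb (D.h s) τ‖ ^ 2 : ℝ) := by
  set h0 := D.h s τ with hh0
  set p := dz (D.h s) τ with hp
  set g := dzb (D.h s) τ with hg
  set v : ℂ := (τ.im : ℂ) with hv
  have hvpos : (0:ℝ) < τ.im := hτ
  have hvne : v ≠ 0 := by rw [hv]; exact_mod_cast hvpos.ne'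
  have hde := D.Dt_deriv s hs hr hτ
  have hG : D.Dt τ (dz s τ) = h0 + (2 * Complex.I * v) • p := by
    have : dz s τ = (1/2 : ℂ) • fderiv ℝ s τ 1 + (-(1/2 : ℂ) * Complex.I) • fderiv ℝ s τ Complex.I := by
      unfold dz; module
    rw [this, D.Dt_lin, hde, hde, ← sub_conj, hp]
    unfold dz
    simp only [map_one, Complex.conj_I]
    have hI : Complex.I * Complex.I = -1 := Complex.I_mul_I
    have e1 : (1 / 2 : ℂ) • ((1:ℂ) • D.h s τ + (τ - conj τ) • fderiv ℝ (D.h s) τ 1 + (1:ℂ) • D.J (D.h s τ)) +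
        (-(1 / 2 : ℂ) * Complex.I) • (Complex.I • D.h s τ + (τ - conj τ) • fderiv ℝ (D.h s) τ Complex.I +
          (-Complex.I) • D.J (D.h s τ)) =
        ((1/2 : ℂ) - (1/2) * (Complex.I * Complex.I)) • D.h s τ +
        (τ - conj τ) • ((1 / 2 : ℂ) • (fderiv ℝ (D.h s) τ 1 - Complex.I • fderiv ℝ (D.h s) τ Complex.I)) +
        ((1/2 : ℂ) + (1/2) * (Complex.I * Complex.I)) • D.J (D.h s τ) := by module
    rw [e1, hI]
    norm_num
    rfl
  have hGb : D.Dt τ (dzb s τ) = D.J h0 + (2 * Complex.I * v) • g := by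
    have : dzb s τ = (1/2 : ℂ) • fderiv ℝ s τ 1 + ((1/2 : ℂ) * Complex.I) • fderiv ℝ s τ Complex.I := by
      unfold dzb; module
    rw [this, D.Dt_lin, hde, hde, ← sub_conj, hg]
    unfold dzb
    simp only [map_one, Complex.conj_I]
    have hI : Complex.I * Complex.I = -1 := Complex.I_mul_I
    have e1 : (1 / 2 : ℂ) • ((1:ℂ) • D.h s τ + (τ - conj τ) • fderiv ℝ (D.h s) τ 1 + (1:ℂ) • D.J (D.h s τ)) +
        ((1 / 2 : ℂ) * Complex.I) • (Complex.I • D.h s τ + (τ - conj τ) • fderiv ℝ (D.h s) τ Complex.I +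
          (-Complex.I) • D.J (D.h s τ)) =
        ((1/2 : ℂ) + (1/2) * (Complex.I * Complex.I)) • D.h s τ +
        (τ - conj τ) • ((1 / 2 : ℂ) • (fderiv ℝ (D.h s) τ 1 + Complex.I • fderiv ℝ (D.h s) τ Complex.I)) +
        ((1/2 : ℂ) - (1/2) * (Complex.I * Complex.I)) • D.J (D.h s τ) := by module
    rw [e1, hI]
    norm_num
    rw [add_comm]
  have hwk := fun χ => D.weq_deriv s hw hs hτ χ
  have hip : ∀ χ, inner ℂ (D.Dt τ χ) g = 0 := by
    intro χ
    rw [hg]
    unfold dzb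
    rw [inner_smul_right, inner_add_right, inner_smul_right, (hwk χ).2, (hwk χ).2]
    linear_combination ((1/2 : ℂ) * inner ℂ (D.d1 χ) (D.h s τ)) * Complex.I_mul_I
  have cj : conj (2 * Complex.I * v) = -(2 * Complex.I * v) := by
    rw [hv, map_mul, map_mul, Complex.conj_I, Complex.conj_ofReal, map_ofNat]; ring
  -- (E1)
  have E1 : inner ℂ (D.J h0) h0 = 2 * Complex.I * v * inner ℂ g h0 := by
    have := (hwk (dzb s τ)).1
    rw [hGb, inner_add_left, inner_smul_left, cj] at this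
    linear_combination this
  have E2 : inner ℂ (D.J h0) g = 2 * Complex.I * v * inner ℂ g g := by
    have := hip (dzb s τ)
    rw [hGb, inner_add_left, inner_smul_left, cj] at this
    linear_combination this
  have E3 : inner ℂ h0 h0 = 2 * Complex.I * v * inner ℂ p h0 := by
    have := (hwk (dz s τ)).1
    rw [hG, inner_add_left, inner_smul_left, cj] at this
    linear_combination this
  have E3' : inner ℂ h0 h0 = -(2 * Complex.I * v) * inner ℂ h0 p := by
    have := congrArg conj E3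
    rw [map_mul, cj, inner_conj_symm, inner_conj_symm] at this
    exact this
  refine ⟨fun δ => ?_, ?_⟩
  · have hhd : HasFDerivAt (D.h s) (fderiv ℝ (D.h s) τ) τ :=
      (((D.h_smooth s hs).differentiableOn (by simp)).differentiableAt
        (isOpen_HH.mem_nhds hτ)).hasFDerivAt
    have hI := hhd.inner ℂ hhd
    have him : HasFDerivAt (fun τ : ℂ => 4 * τ.im) ((4:ℝ) • Complex.imCLM) τ :=
      (Complex.imCLM.hasFDerivAt).const_mul 4
    have hre : HasFDerivAt (fun σ => (inner ℂ (D.h s σ) (D.h s σ)).re)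
      (Complex.reCLM ∘L ((fderivInnerCLM ℂ (D.h s τ, D.h s τ)) ∘L
        ((fderiv ℝ (D.h s) τ).prod (fderiv ℝ (D.h s) τ)))) τ :=
      Complex.reCLM.hasFDerivAt.comp τ hI
    have hE : D.E s = fun σ => (4 * σ.im) * (inner ℂ (D.h s σ) (D.h s σ)).re := by
      funext σ
      unfold HolData.E
      rw [inner_self_eq_norm_sq_to_K]
      norm_cast
    have hEd := him.mul hre
    have hEd' : HasFDerivAt (fun σ : ℂ => (4 * σ.im) * (inner ℂ (D.h s σ) (D.h s σ)).re) _ τ := hEd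
    rw [hE, hEd'.fderiv]
    simp only [ContinuousLinearMap.comp_apply, ContinuousLinearMap.prod_apply,
      fderivInnerCLM_apply, add_apply, smul_apply, Complex.reCLM_apply, Complex.imCLM_apply,
      smul_eq_mul]
    rw [D.two_pg s τ δ, inner_add_left, inner_add_right, inner_smul_left, inner_smul_left,
      inner_smul_right, inner_smul_right, ← hh0, ← hp, ← hg, E1]
    have hb : inner ℂ h0 g = conj (inner ℂ g h0) := (inner_conj_symm h0 g).symm
    have ha : inner ℂ p h0 = conj (inner ℂ h0 p) := (inner_conj_symm p h0).symm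
    rw [hb, ha]
    have hN : (inner ℂ h0 h0 : ℂ).im = 0 := by
      have := inner_self_im (𝕜 := ℂ) h0
      exact this
    set a := inner ℂ h0 p with hadef
    set b := inner ℂ g h0 with hbdef
    have r1 : (inner ℂ h0 h0 : ℂ).re = 2 * τ.im * a.im := by
      rw [E3', hv]; simp
    have r2 : a.re = 0 := by
      rw [E3', hv] at hN
      simp at hN
      rcases hN with h | h
      · exact absurd h hvpos.ne'
      · exact h
    rw [r1, hv]
    simp only [Complex.add_re, Complex.mul_re, Complex.mul_im, Complex.conj_re, Complex.conj_im,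
      Complex.I_re, Complex.I_im, Complex.ofReal_re, Complex.ofReal_im, r2, Complex.conj_conj,
      Complex.re_ofNat, Complex.im_ofNat]
    ring
  · rw [E2, inner_self_eq_norm_sq_to_K]
    norm_cast

theorem lap_E (s : ℂ → H) (hw : ∀ τ ∈ HH, D.Weq τ (s τ)) (hs : ContDiffOn ℝ (⊤ : ℕ∞) s HH)
    (hr : ∀ τ ∈ HH, D.JH (s τ) = s τ) : ∀ τ ∈ HH, lap (D.E s) τ = 32 * τ.im * ‖dzb (D.h s) τ‖ ^ 2 := by
  intro τ hτ
  have hhd : HasFDerivAt (D.h s) (fderiv ℝ (D.h s) τ) τ :=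
    (((D.h_smooth s hs).differentiableOn (by simp)).differentiableAt
      (isOpen_HH.mem_nhds hτ)).hasFDerivAt
  have hJd : HasFDerivAt (fun σ => D.J (D.h s σ)) (D.J ∘L fderiv ℝ (D.h s) τ) τ :=
    D.J.hasFDerivAt.comp τ hhd
  have hq := hJd.inner ℂ hhd
  have hL := Lam.hasFDerivAt.comp τ hq
  have ev : fderiv ℝ (D.E s) =ᶠ[nhds τ]
      (Lam ∘ fun σ => inner ℂ (D.J (D.h s σ)) (D.h s σ)) := by
    filter_upwards [isOpen_HH.mem_nhds hτ] with σ hσ
    ext1 δ
    rw [(D.E_deriv s hw hs hr hσ).1 δ, Function.comp_apply, Lam_apply]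
  have hLL := hL.congr_of_eventuallyEq ev
  have e2 := (D.E_deriv s hw hs hr hτ).2
  unfold lap
  rw [hLL.fderiv]
  simp only [ContinuousLinearMap.comp_apply, ContinuousLinearMap.prod_apply,
      fderivInnerCLM_apply, Lam_apply]
  rw [D.J_sym (fderiv ℝ (D.h s) τ 1) (D.h s τ), D.J_sym (fderiv ℝ (D.h s) τ Complex.I) (D.h s τ)]
  have e3 : inner ℂ (D.J (D.h s τ)) (dzb (D.h s) τ) = (1/2 : ℂ) *
      (inner ℂ (D.J (D.h s τ)) (fderiv ℝ (D.h s) τ 1) + Complex.I *
        inner ℂ (D.J (D.h s τ)) (fderiv ℝ (D.h s) τ Complex.I)) := by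
    unfold dzb
    rw [inner_smul_right, inner_add_right, inner_smul_right]
  rw [e2] at e3
  set A := inner ℂ (D.J (D.h s τ)) (fderiv ℝ (D.h s) τ 1) with hA
  set B := inner ℂ (D.J (D.h s τ)) (fderiv ℝ (D.h s) τ Complex.I) with hB
  have e4 := congrArg Complex.im e3
  simp only [Complex.add_re, Complex.mul_re, Complex.mul_im, Complex.add_im,
      Complex.I_re, Complex.I_im, Complex.ofReal_re, Complex.ofReal_im,
      Complex.re_ofNat, Complex.im_ofNat, Complex.one_re, Complex.one_im] at e4 ⊢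
  norm_num at e4 ⊢
  linarith

end Pool.Agent.Helper96.OF.HolData
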