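import Pool.Agent.Helper96.OF.HADefs

/-!
# OF-HA3: consequences of `∂_τ̄ h = 0`

`dzb h = 0` on the open set `HH` and `h` is real-smooth, so its real derivative is complex linear: `h` is `DifferentiableOn ℂ` on `HH`
(HasFDerivAt ℝ → HasDerivAt, Cauchy-Riemann). Put `G τ = dz s τ = ½(Ds(1) - i Ds(i)) ∈ H`.
`s` is real (`JH s = s`), so `Ds(1), Ds(i)` are JH-real and `Ds(δ) = re δ·Ds(1) + im δ·Ds(i) = δ•G + JH(δ•G)`
(δ=1: G + JH G = Ds(1); δ=i: iG + JH(iG) = iG - i JH G = Ds(i)).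
`P = φ1+d1 s = h + J h`, `R = τ h + τ̄ J h` (as JP=P, JR=R). `∂_τ P = d1 G = ∂_τ h + J(∂_τ̄ h) = deriv h`; `∂_τ R = d2 G = h + τ deriv h`.
`G` is holomorphic: `dzb G ∈ H` has `d1 (dzb G) = dzb (deriv h) = 0`, `d2 (dzb G) = dzb(h+τ deriv h) = 0`, so `dzb G = 0` by coercivity (`coer`).
-/

set_option autoImplicit false

open scoped ComplexConjugate

namespace Pool.Agent.Helper96.OF

section Gen

variable {E : Type*} [NormedAddCommGroup E] [NormedSpace ℂ E]

private theorem HH_open : IsOpen HH := isOpen_lt continuous_const Complex.continuous_im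

private theorem rl_apply (L : ℂ →L[ℝ] E) (z : ℂ) :
    L z = (z.re : ℂ) • L 1 + (z.im : ℂ) • L Complex.I := by
  have h : z = z.re • (1 : ℂ) + z.im • Complex.I := by
    apply Complex.ext <;> simp
  conv_lhs => rw [h]
  rw [map_add, map_smul, map_smul]
  simp only [Complex.coe_smul]

private theorem hasDerivAt_of {f : ℂ → E} {L : ℂ →L[ℝ] E} {τ : ℂ} (hf : HasFDerivAt f L τ)
    (h : L Complex.I = Complex.I • L 1) : HasDerivAt f (L 1) τ := by
  have h1 : HasFDerivAt f (ContinuousLinearMap.smulRight (1 : ℂ →L[ℂ] ℂ) (L 1)) τ := by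
    refine hasFDerivAt_of_restrictScalars ℝ hf ?_
    ext z
    rw [rl_apply L z, h, smul_smul, ← add_smul]
    simp only [ContinuousLinearMap.coe_restrictScalars', ContinuousLinearMap.smulRight_apply]
    congr 1
    exact (Complex.re_add_im z).symm
  simpa using h1.hasDerivAt

private theorem dzb_zero_iff (f : ℂ → E) (τ : ℂ) :
    dzb f τ = 0 ↔ fderiv ℝ f τ Complex.I = Complex.I • fderiv ℝ f τ 1 := by
  unfold dzb
  rw [smul_eq_zero]
  constructor
  · rintro (h | h)
    · norm_num at h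
    · have h1 : fderiv ℝ f τ 1 = - (Complex.I • fderiv ℝ f τ Complex.I) := eq_neg_of_add_eq_zero_left h
      rw [h1, smul_neg, smul_smul, Complex.I_mul_I, neg_smul, one_smul, neg_neg]
  · intro h
    right
    rw [h, smul_smul, Complex.I_mul_I, neg_smul, one_smul, add_neg_cancel]

/-- the real derivative of a holomorphic function is complex linear -/
private theorem fderiv_real {f : ℂ → E} {f' : E} {τ : ℂ} (hf : HasDerivAt f f' τ) :
    HasFDerivAt f (((ContinuousLinearMap.smulRight (1 : ℂ →L[ℂ] ℂ) f')).restrictScalars ℝ) τ :=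
  hf.hasFDerivAt.restrictScalars ℝ

end Gen

end Pool.Agent.Helper96.OF

namespace Pool.Agent.Helper96.OF.HolData

variable {H K : Type*} [NormedAddCommGroup H] [InnerProductSpace ℂ H] [CompleteSpace H]
    [NormedAddCommGroup K] [InnerProductSpace ℂ K] [CompleteSpace K] (D : HolData H K)

/-- `P = h + J h`, `R = τ h + τ̄ J h` -/
private theorem P_eq' (s : ℂ → H) (hr : ∀ τ ∈ HH, D.JH (s τ) = s τ) (τ : ℂ) (hτ : τ ∈ HH) :
    D.φ1 + D.d1 (s τ) = D.h s τ + D.J (D.h s τ) ∧
    D.φ2 + D.d2 (s τ) = τ • D.h s τ + conj τ • D.J (D.h s τ) := by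
  have hv : 0 < τ.im := hτ
  have hne : τ - conj τ ≠ 0 := by
    intro h
    have := congrArg Complex.im h
    simp at this
    linarith
  have hJP : D.J (D.φ1 + D.d1 (s τ)) = D.φ1 + D.d1 (s τ) := by
    rw [map_add, D.φ1_real, ← D.d1_J, hr τ hτ]
  have hJR : D.J (D.φ2 + D.d2 (s τ)) = D.φ2 + D.d2 (s τ) := by
    rw [map_add, D.φ2_real, ← D.d2_J, hr τ hτ]
  have hh : (τ - conj τ) • D.h s τ = (D.φ2 + D.d2 (s τ)) - conj τ • (D.φ1 + D.d1 (s τ)) := by
    unfold h Y
    rw [smul_smul, mul_one_div_cancel hne, one_smul]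
  have hJ : (conj τ - τ) • D.J (D.h s τ) = (D.φ2 + D.d2 (s τ)) - τ • (D.φ1 + D.d1 (s τ)) := by
    have := congrArg D.J hh
    rw [D.J_smul, map_sub D.J, D.J_smul, hJP, hJR, map_sub, Complex.conj_conj] at this
    exact this
  generalize D.φ1 + D.d1 (s τ) = P at *
  generalize D.φ2 + D.d2 (s τ) = R at *
  generalize D.J (D.h s τ) = g at *
  generalize D.h s τ = k at *
  have hJ' : (τ - conj τ) • g = τ • P - R := by
    have : (τ - conj τ) • g = - ((conj τ - τ) • g) := by rw [← neg_smul, neg_sub]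
    rw [this, hJ]; abel
  constructor
  · apply (smul_right_injective K hne)
    change (τ - conj τ) • P = (τ - conj τ) • (k + g)
    rw [smul_add, hh, hJ', sub_smul]; abel
  · apply (smul_right_injective K hne)
    change (τ - conj τ) • R = (τ - conj τ) • (τ • k + conj τ • g)
    rw [smul_add, smul_comm _ τ, smul_comm _ (conj τ), hh, hJ', sub_smul, smul_sub, smul_sub,
      smul_smul, smul_smul, mul_comm τ (conj τ)]; abel

theorem hol (s : ℂ → H) (hs : ContDiffOn ℝ (⊤ : ℕ∞) s HH)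
    (hr : ∀ τ ∈ HH, D.JH (s τ) = s τ) (h0 : ∀ τ ∈ HH, dzb (D.h s) τ = 0) :
    DifferentiableOn ℂ (D.h s) HH ∧ DifferentiableOn ℂ (fun τ => dz s τ) HH ∧
    ∀ τ ∈ HH, (∀ δ : ℂ, fderiv ℝ s τ δ = δ • dz s τ + D.JH (δ • dz s τ)) ∧
      D.d1 (dz s τ) = deriv (D.h s) τ ∧ D.d2 (dz s τ) = D.h s τ + τ • deriv (D.h s) τ := by
  have hsd : ∀ τ ∈ HH, DifferentiableAt ℝ s τ := fun τ hτ =>
    (hs.contDiffAt (HH_open.mem_nhds hτ)).differentiableAt (by simp)
  have hfs : ∀ τ ∈ HH, DifferentiableAt ℝ (fderiv ℝ s) τ := by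
    intro τ hτ
    have h1 : ContDiffAt ℝ (⊤ : ℕ∞) s τ := hs.contDiffAt (HH_open.mem_nhds hτ)
    have h2 : ContDiffAt ℝ 1 (fderiv ℝ s) τ := h1.fderiv_right (m := 1) (by norm_cast)
    exact h2.differentiableAt one_ne_zero
  have hhd : ∀ τ ∈ HH, DifferentiableAt ℝ (D.h s) τ := by
    intro τ hτ
    have hv : 0 < τ.im := hτ
    have hne : τ - conj τ ≠ 0 := by
      intro h
      have := congrArg Complex.im h
      simp at this
      linarith
    have hc : DifferentiableAt ℝ (fun τ : ℂ => conj τ) τ := Complex.conjCLE.differentiableAt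
    have h1 : DifferentiableAt ℝ (fun τ => D.d1 (s τ)) τ :=
      (D.d1.restrictScalars ℝ).differentiableAt.comp τ (hsd τ hτ)
    have h2 : DifferentiableAt ℝ (fun τ => D.d2 (s τ)) τ :=
      (D.d2.restrictScalars ℝ).differentiableAt.comp τ (hsd τ hτ)
    have h3 : DifferentiableAt ℝ (fun τ : ℂ => (1 / (τ - conj τ) : ℂ)) τ := by
      have h4 : DifferentiableAt ℝ (fun τ : ℂ => τ - conj τ) τ := differentiableAt_id.sub hc
      simpa only [one_div] using DifferentiableAt.fun_inv h4 hne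
    exact h3.smul (((differentiableAt_const _).add h2).sub
      (hc.smul ((differentiableAt_const _).add h1)))
  -- `h` is holomorphic
  have hder : ∀ τ ∈ HH, HasDerivAt (D.h s) (fderiv ℝ (D.h s) τ 1) τ := by
    intro τ hτ
    exact hasDerivAt_of (hhd τ hτ).hasFDerivAt ((dzb_zero_iff _ _).1 (h0 τ hτ))
  have hhol : DifferentiableOn ℂ (D.h s) HH := fun τ hτ =>
    (hder τ hτ).differentiableAt.differentiableWithinAt
  have hderiv : ∀ τ ∈ HH, HasDerivAt (D.h s) (deriv (D.h s) τ) τ := fun τ hτ =>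
    (hhol.differentiableAt (HH_open.mem_nhds hτ)).hasDerivAt
  -- the derivative of `s` is real
  have hJs : ∀ τ ∈ HH, ∀ δ, D.JH (fderiv ℝ s τ δ) = fderiv ℝ s τ δ := by
    intro τ hτ δ
    have h1 : HasFDerivAt (fun τ => D.JH (s τ)) (D.JH.comp (fderiv ℝ s τ)) τ :=
      D.JH.hasFDerivAt.comp τ (hsd τ hτ).hasFDerivAt
    have h2 : HasFDerivAt s (D.JH.comp (fderiv ℝ s τ)) τ :=
      h1.congr_of_eventuallyEq (by
        filter_upwards [HH_open.mem_nhds hτ] with x hx
        exact (hr x hx).symm)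
    have h3 := h2.unique (hsd τ hτ).hasFDerivAt
    exact congrArg (fun L : ℂ →L[ℝ] H => L δ) h3
  have hfd : ∀ τ ∈ HH, ∀ δ : ℂ, fderiv ℝ s τ δ = δ • dz s τ + D.JH (δ • dz s τ) := by
    intro τ hτ δ
    rw [D.JH_smul, rl_apply (fderiv ℝ s τ) δ]
    unfold dz
    rw [D.JH_smul, map_sub, D.JH_smul, hJs τ hτ, hJs τ hτ]
    generalize fderiv ℝ s τ 1 = a
    generalize fderiv ℝ s τ Complex.I = b
    have e1 : (δ.re : ℂ) = (δ + conj δ) / 2 := by rw [Complex.add_conj]; push_cast; ring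
    have e2 : (δ.im : ℂ) = (δ - conj δ) * (-Complex.I) / 2 := by
      rw [Complex.sub_conj]
      have := Complex.I_mul_I
      push_cast
      linear_combination ((δ.im : ℂ)) * this
    have e3 : conj (1 / 2 : ℂ) = 1 / 2 := by
      rw [map_div₀, map_one, map_ofNat]
    rw [e1, e2, e3, Complex.conj_I]
    module
  have hdd : ∀ τ ∈ HH, D.d1 (dz s τ) = deriv (D.h s) τ ∧
      D.d2 (dz s τ) = D.h s τ + τ • deriv (D.h s) τ := by
    intro τ hτ
    have hL := fderiv_real (hderiv τ hτ)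
    have hJL := D.J.hasFDerivAt.comp τ hL
    have hsD := (hsd τ hτ).hasFDerivAt
    have hP1 : HasFDerivAt (fun τ => D.φ1 + D.d1 (s τ))
        ((D.d1.restrictScalars ℝ).comp (fderiv ℝ s τ)) τ :=
      ((D.d1.restrictScalars ℝ).hasFDerivAt.comp τ hsD).const_add _
    have hR1 : HasFDerivAt (fun τ => D.φ2 + D.d2 (s τ))
        ((D.d2.restrictScalars ℝ).comp (fderiv ℝ s τ)) τ :=
      ((D.d2.restrictScalars ℝ).hasFDerivAt.comp τ hsD).const_add _
    have hP2 := hL.add hJL
    have hconj : HasFDerivAt (fun τ : ℂ => conj τ)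
        (Complex.conjCLE : ℂ →L[ℝ] ℂ) τ := Complex.conjCLE.hasFDerivAt
    have hR2 := ((hasFDerivAt_id (𝕜 := ℝ) τ).smul hL).add (hconj.smul hJL)
    have eP := (hP1.congr_of_eventuallyEq (f₁ := fun τ => D.h s τ + D.J (D.h s τ)) (by
        filter_upwards [HH_open.mem_nhds hτ] with x hx
        exact (P_eq' D s hr x hx).1.symm)).unique hP2
    have eR := (hR1.congr_of_eventuallyEq
        (f₁ := fun τ => τ • D.h s τ + conj τ • D.J (D.h s τ)) (by
        filter_upwards [HH_open.mem_nhds hτ] with x hx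
        exact (P_eq' D s hr x hx).2.symm)).unique hR2
    have eP' : ∀ δ, D.d1 (fderiv ℝ s τ δ) = δ • deriv (D.h s) τ + D.J (δ • deriv (D.h s) τ) :=
      fun δ => congrArg (fun L : ℂ →L[ℝ] K => L δ) eP
    have eR' : ∀ δ, D.d2 (fderiv ℝ s τ δ) = (τ • (δ • deriv (D.h s) τ) + δ • D.h s τ) +
        (conj τ • D.J (δ • deriv (D.h s) τ) + conj δ • D.J (D.h s τ)) :=
      fun δ => congrArg (fun L : ℂ →L[ℝ] K => L δ) eR
    constructor
    · unfold dz
      rw [map_smul, map_sub, map_smul, eP', eP', D.J_smul, D.J_smul, Complex.conj_I, map_one]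
      generalize deriv (D.h s) τ = a
      generalize D.J a = b
      have := Complex.I_mul_I
      match_scalars
      · linear_combination (-1 / 2 : ℂ) * this
      · linear_combination (1 / 2 : ℂ) * this
    · unfold dz
      rw [map_smul, map_sub, map_smul, eR', eR', D.J_smul, D.J_smul, Complex.conj_I, map_one]
      generalize deriv (D.h s) τ = a
      generalize D.J a = b
      generalize D.J (D.h s τ) = c
      generalize D.h s τ = d
      have := Complex.I_mul_I
      match_scalars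
      · linear_combination (-1 / 2 * τ : ℂ) * this
      · linear_combination (-1 / 2 : ℂ) * this
      · linear_combination (1 / 2 * conj τ : ℂ) * this
      · linear_combination (1 / 2 : ℂ) * this
  refine ⟨hhol, ?_, fun τ hτ => ⟨hfd τ hτ, hdd τ hτ⟩⟩
  -- `dz s` is holomorphic
  intro τ hτ
  have hGd : DifferentiableAt ℝ (fun τ => dz s τ) τ := by
    unfold dz
    have h1 : ∀ v : ℂ, DifferentiableAt ℝ (fun τ => fderiv ℝ s τ v) τ := fun v =>
      (hfs τ hτ).clm_apply (differentiableAt_const v)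
    exact (((h1 1).sub ((h1 Complex.I).const_smul Complex.I)).const_smul (1 / 2 : ℂ))
  have hG := hGd.hasFDerivAt
  set M := fderiv ℝ (fun τ => dz s τ) τ with hM
  have hh2 : HasDerivAt (deriv (D.h s)) (deriv (deriv (D.h s)) τ) τ :=
    ((hhol.deriv HH_open).differentiableAt (HH_open.mem_nhds hτ)).hasDerivAt
  have hL2 := fderiv_real hh2
  have hL3 := fderiv_real ((hderiv τ hτ).add ((hasDerivAt_id τ).smul hh2))
  have e1 := (((D.d1.restrictScalars ℝ).hasFDerivAt.comp τ hG).congr_of_eventuallyEq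
      (f₁ := deriv (D.h s)) (by
        filter_upwards [HH_open.mem_nhds hτ] with x hx
        exact (hdd x hx).1.symm)).unique hL2
  have e2 := (((D.d2.restrictScalars ℝ).hasFDerivAt.comp τ hG).congr_of_eventuallyEq
      (f₁ := fun τ => D.h s τ + τ • deriv (D.h s) τ) (by
        filter_upwards [HH_open.mem_nhds hτ] with x hx
        exact (hdd x hx).2.symm)).unique hL3
  have e1' : ∀ δ, D.d1 (M δ) = δ • deriv (deriv (D.h s)) τ :=
    fun δ => congrArg (fun L : ℂ →L[ℝ] K => L δ) e1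
  have e2' : ∀ δ, D.d2 (M δ) = δ • _ :=
    fun δ => congrArg (fun L : ℂ →L[ℝ] K => L δ) e2
  have hMI : M Complex.I = Complex.I • M 1 := by
    have h1 : D.d1 (M Complex.I - Complex.I • M 1) = 0 := by
      rw [map_sub, map_smul, e1', e1']
      simp only [one_smul, sub_self]
    have h2 : D.d2 (M Complex.I - Complex.I • M 1) = 0 := by
      rw [map_sub, map_smul, e2', e2']
      simp only [one_smul, sub_self]
    have h3 := D.coer (M Complex.I - Complex.I • M 1)
    rw [h1, h2] at h3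
    have h4 : ‖M Complex.I - Complex.I • M 1‖ ^ 2 ≤ 0 := by
      by_contra h5
      push Not at h5
      have := mul_pos D.c0_pos h5
      simp at h3
      linarith
    have h5 : ‖M Complex.I - Complex.I • M 1‖ = 0 := by
      have := sq_nonneg ‖M Complex.I - Complex.I • M 1‖
      exact pow_eq_zero_iff (two_ne_zero) |>.1 (le_antisymm h4 this)
    exact sub_eq_zero.1 (norm_eq_zero.1 h5)
  exact (hasDerivAt_of hG hMI).differentiableAt.differentiableWithinAt

/-- `P = h + J h`, `R = τ h + τ̄ J h` -/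
theorem P_eq (s : ℂ → H) (hr : ∀ τ ∈ HH, D.JH (s τ) = s τ) (τ : ℂ) (hτ : τ ∈ HH) :
    D.φ1 + D.d1 (s τ) = D.h s τ + D.J (D.h s τ) ∧
    D.φ2 + D.d2 (s τ) = τ • D.h s τ + conj τ • D.J (D.h s τ) := P_eq' D s hr τ hτ

end Pool.Agent.Helper96.OF.HolData
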