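import Pool.Agent.Helper96.OF.HA1

/-!
# OF-HA4: growth of the energy

If the x-derivative of `φ` can be made small by adding `d1 χ`, the energy is `o(v)`: by minimality (HA1.weq_minimal)
`E(τ) = (1/v)‖Y τ (s τ)‖² ≤ (1/v)‖R' - τ̄ P'‖²` with `P' = φ1+d1χ`, `R' = φ2+d2χ`  (note |τ-τ̄|² = 4v², so E = 4v‖Y‖²/(4v²) = ‖Y‖²/v), and
`‖R' - τ̄P'‖ ≤ ‖R'‖ + |τ| ‖P'‖ ≤ ‖R'‖ + (1+v) η` for `|u| ≤ 1` if `‖P'‖ ≤ η`; so `E ≤ (2‖R'‖² + 2(1+v)²η²)/v ≤ ε v` for v large if `η` is small (8η² ≤ ε/2 …).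
-/

set_option autoImplicit false

open scoped ComplexConjugate

namespace Pool.Agent.Helper96.OF.HolData

variable {H K : Type*} [NormedAddCommGroup H] [InnerProductSpace ℂ H] [CompleteSpace H]
    [NormedAddCommGroup K] [InnerProductSpace ℂ K] [CompleteSpace K] (D : HolData H K)

private theorem E_eq (s : ℂ → H) {τ : ℂ} (hτ : τ ∈ HH) :
    D.E s τ = ‖D.Y τ (s τ)‖ ^ 2 / τ.im := by
  have hv : 0 < τ.im := hτ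
  have h1 : ‖(1 / (τ - conj τ) : ℂ)‖ ^ 2 = 1 / (4 * τ.im ^ 2) := by
    rw [norm_div, norm_one, Complex.sub_conj, norm_mul, Complex.norm_I, mul_one,
      Complex.norm_real, Real.norm_eq_abs, div_pow, one_pow, sq_abs]
    congr 1; ring
  unfold E h
  rw [norm_smul, mul_pow, h1]
  field_simp

theorem growth (s : ℂ → H) (hw : ∀ τ ∈ HH, D.Weq τ (s τ))
    (hg : ∀ η : ℝ, 0 < η → ∃ χ : H, ‖D.φ1 + D.d1 χ‖ ≤ η) :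
    ∀ ε : ℝ, 0 < ε → ∃ V0 : ℝ, ∀ τ : ℂ, V0 ≤ τ.im → |τ.re| ≤ 1 → D.E s τ ≤ ε * τ.im := by
  intro ε hε
  -- choose `η` with `8 η² ≤ ε / 2`
  obtain ⟨χ, hχ⟩ := hg (Real.sqrt (ε / 16)) (Real.sqrt_pos.2 (by positivity))
  have hη : ‖D.φ1 + D.d1 χ‖ ^ 2 ≤ ε / 16 := by
    calc ‖D.φ1 + D.d1 χ‖ ^ 2 ≤ (Real.sqrt (ε / 16)) ^ 2 :=
        pow_le_pow_left₀ (norm_nonneg _) hχ 2
      _ = ε / 16 := Real.sq_sqrt (by positivity)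
  set N : ℝ := ‖D.φ2 + D.d2 χ‖ with hN
  have hN0 : 0 ≤ N := norm_nonneg _
  refine ⟨1 + 4 * N ^ 2 / ε, fun τ hτ hre => ?_⟩
  have h4 : 0 ≤ 4 * N ^ 2 / ε := by positivity
  have hv1 : 1 ≤ τ.im := by linarith
  have hv : 0 < τ.im := by linarith
  have hHH : τ ∈ HH := hv
  rw [E_eq D s hHH, div_le_iff₀ hv]
  -- minimality
  have h1 : ‖D.Y τ (s τ)‖ ^ 2 ≤ ‖D.Y τ χ‖ ^ 2 := by
    rw [D.weq_minimal (hw τ hHH) χ]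
    have := sq_nonneg ‖D.Dt τ (χ - s τ)‖
    linarith
  have h2 : ‖D.Y τ χ‖ ≤ N + ‖τ‖ * ‖D.φ1 + D.d1 χ‖ := by
    unfold Y
    refine (norm_sub_le _ _).trans ?_
    rw [norm_smul, Complex.norm_conj]
  have h3 : ‖τ‖ ^ 2 ≤ 2 * τ.im ^ 2 := by
    rw [← Complex.normSq_eq_norm_sq, Complex.normSq_apply]
    have : τ.re ^ 2 ≤ 1 := by
      rw [← sq_abs]; exact pow_le_one₀ (abs_nonneg _) hre
    nlinarith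
  have h5 : ‖D.Y τ χ‖ ^ 2 ≤ 2 * N ^ 2 + 2 * (‖τ‖ ^ 2 * ‖D.φ1 + D.d1 χ‖ ^ 2) := by
    have h6 : ‖D.Y τ χ‖ ^ 2 ≤ (N + ‖τ‖ * ‖D.φ1 + D.d1 χ‖) ^ 2 :=
      pow_le_pow_left₀ (norm_nonneg _) h2 2
    nlinarith [sq_nonneg (N - ‖τ‖ * ‖D.φ1 + D.d1 χ‖)]
  have h6 : ‖τ‖ ^ 2 * ‖D.φ1 + D.d1 χ‖ ^ 2 ≤ 2 * τ.im ^ 2 * (ε / 16) :=
    mul_le_mul h3 hη (sq_nonneg _) (by positivity)
  have h7 : 2 * N ^ 2 ≤ ε / 2 * τ.im ^ 2 := by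
    have h8 : 4 * N ^ 2 / ε ≤ τ.im := by linarith
    rw [div_le_iff₀ hε] at h8
    nlinarith
  nlinarith

end Pool.Agent.Helper96.OF.HolData
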