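import Pool.Agent.Helper96.OF.FT5
import Pool.Agent.Helper96.OF.FT7
import Pool.Agent.Helper96.OF.HA1
import Pool.Agent.Helper96.OF.HA2
import Pool.Agent.Helper96.OF.HA3
import Pool.Agent.Helper96.OF.HA4

/-!
# OF-FT6: the concrete HolData and its solution

`holD`: H = ↥(H1 α β) (closed submodule of the Hilbert space K3, complete by H1_closed), K = KK X, `d1 χ = (χ:K3) 1`, `d2 χ = (χ : K3) 2`, `J = JK X`, `JH = J3` restricted (H1_conj), φ1 = ph1, φ2 = ph2.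
iso: iso_H1. coer: poi_H1 (‖χ‖² = ∑ ‖χ i‖²). isoφ: iso_nice with f = Phi. φ real: Phi real, JK_cls.
`sol_spec`: HA1 exists_smooth_sol + weq_unique: `IsSol` has a unique solution, `sol` is it. The other statements are HA1-HA4 transported (`hh α β w τ = (holD ..).h s τ`, `EE = E`).
-/

set_option autoImplicit false

open MeasureTheory Filter Topology
open scoped ComplexConjugate

namespace Pool.Agent.Helper96.OF

variable {X : Type} [Countable X] [MeasurableSpace X] [DiscreteMeasurableSpace X] {α β : Equiv.Perm X}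

theorem ft6_JK_JK (x : KK X) : JK X (JK X x) = x := by
  apply Lp.ext
  filter_upwards [JK_ae (JK X x), JK_ae x] with q h1 h2
  rw [h1, h2, Complex.conj_conj]

theorem ft6_JK_smul (c : ℂ) (x : KK X) : JK X (c • x) = conj c • JK X x := by
  apply Lp.ext
  filter_upwards [JK_ae (c • x), JK_ae x, Lp.coeFn_smul c x, Lp.coeFn_smul (conj c) (JK X x)]
    with q h1 h2 h3 h4
  rw [h1, h4, Pi.smul_apply, h2, h3, Pi.smul_apply, smul_eq_mul, smul_eq_mul, map_mul]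

theorem ft6_JK_inner (x y : KK X) : inner ℂ (JK X x) (JK X y) = inner ℂ y x := by
  rw [inner_KK, inner_KK]
  apply integral_congr_ae
  filter_upwards [JK_ae x, JK_ae y] with q h1 h2
  simp only [h1, h2, Complex.conj_conj]
  ring

theorem ft6_JK_norm (x : KK X) : ‖JK X x‖ = ‖x‖ := by
  have h2 : ‖JK X x‖ ^ 2 = ‖x‖ ^ 2 := by
    rw [@norm_sq_eq_re_inner ℂ, @norm_sq_eq_re_inner ℂ, ft6_JK_inner]
  exact (sq_eq_sq₀ (norm_nonneg _) (norm_nonneg _)).1 h2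

theorem ft6_J3_apply (v : K3 X) (i : Fin 3) : J3 v i = JK X (v i) := rfl

theorem ft6_K3_norm (v : K3 X) : ‖v‖ ^ 2 = ‖v 0‖ ^ 2 + ‖v 1‖ ^ 2 + ‖v 2‖ ^ 2 := by
  rw [PiLp.norm_sq_eq_of_L2, Fin.sum_univ_three]

theorem ft6_J3_norm (v : K3 X) : ‖J3 v‖ = ‖v‖ := by
  have h : ‖J3 v‖ ^ 2 = ‖v‖ ^ 2 := by
    rw [ft6_K3_norm, ft6_K3_norm]
    simp only [ft6_J3_apply, ft6_JK_norm]
  exact (sq_eq_sq₀ (norm_nonneg _) (norm_nonneg _)).1 h

noncomputable def ft6_sub3 (α β : Equiv.Perm X) : (H1 α β) →L[ℝ] (K3 X) :=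
  (H1 α β).subtypeL.restrictScalars ℝ

noncomputable def ft6_p3 (X : Type) [MeasurableSpace X] (i : Fin 3) : K3 X →L[ℂ] KK X :=
  PiLp.proj 2 (fun _ => KK X) i

noncomputable def ft6_p3r (X : Type) [MeasurableSpace X] (i : Fin 3) : K3 X →L[ℝ] KK X :=
  (ft6_p3 X i).restrictScalars ℝ

theorem ft6_p3_apply (i : Fin 3) (v : K3 X) : ft6_p3 X i v = v i := rfl

theorem ft6_sub3_apply (v : H1 α β) : ft6_sub3 α β v = (v : K3 X) := rfl

/-- conjugation on H1 -/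
noncomputable def ft6_JH1 (α β : Equiv.Perm X) : (H1 α β) →L[ℝ] (H1 α β) :=
  LinearMap.mkContinuous
    { toFun := fun v => ⟨J3 (v : K3 X), H1_conj v.2⟩
      map_add' := by
        intro u v
        apply Subtype.ext
        refine PiLp.ext fun i => ?_
        change JK X (((u : K3 X) + (v : K3 X)) i) = JK X ((u : K3 X) i) + JK X ((v : K3 X) i)
        rw [PiLp.add_apply, map_add]
      map_smul' := by
        intro c v
        apply Subtype.ext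
        refine PiLp.ext fun i => ?_
        change JK X (((c : ℂ) • (v : K3 X)) i) = (c : ℂ) • JK X ((v : K3 X) i)
        rw [PiLp.smul_apply, ft6_JK_smul, Complex.conj_ofReal] }
    1 (by
      intro v
      rw [one_mul]
      change ‖J3 (v : K3 X)‖ ≤ ‖(v : K3 X)‖
      rw [ft6_J3_norm])

theorem ft6_JH1_apply (v : H1 α β) : ((ft6_JH1 α β v : H1 α β) : K3 X) = J3 (v : K3 X) := rfl

theorem ft6_conj_Phi {w : X → ℝ} (hw : InW α β w) :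
    (fun s p => conj (Phi α β (toC w) s p)) = Phi α β (toC w) := by
  obtain ⟨C, hC⟩ := hw.bdd
  funext s p
  rw [Complex.conj_eq_iff_im]
  exact (Phi_bound hC s p).2

theorem ft6_nice_PhiC {w : X → ℝ} (hw : InW α β w) : Nice α β (Phi α β (toC w)) (toC w) := by
  apply nice_Phi
  intro s
  unfold toC
  rw [hw.inv]

theorem ft6_ph_real {w : X → ℝ} (hw : InW α β w) :
    JK X (ph1 α β w) = ph1 α β w ∧ JK X (ph2 α β w) = ph2 α β w := by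
  have hN := ft6_nice_PhiC hw
  obtain ⟨h1, h2⟩ := Phi_energy hw
  unfold ph1 ph2
  rw [JK_cls h1, JK_cls h2]
  constructor
  · refine cls_congr (ae_mu_of _ fun s p hp => ?_)
    have := (dx_conj hN s p (unitSq_subset_Cross hp)).1
    rw [ft6_conj_Phi hw] at this
    exact this.symm
  · refine cls_congr (ae_mu_of _ fun s p hp => ?_)
    have := (dx_conj hN s p (unitSq_subset_Cross hp)).2
    rw [ft6_conj_Phi hw] at this
    exact this.symm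

theorem exists_holD (hSG : SG α β) {w : X → ℝ} (hw : InW α β w) :
    ∃ (_ : CompleteSpace (H1 α β)) (D : HolData (H1 α β) (KK X)),
      (∀ χ : H1 α β, D.d1 χ = (χ : K3 X) 1) ∧ (∀ χ : H1 α β, D.d2 χ = (χ : K3 X) 2) ∧
      D.J = JK X ∧ (∀ χ : H1 α β, (D.JH χ : K3 X) = J3 (χ : K3 X)) ∧
      D.φ1 = ph1 α β w ∧ D.φ2 = ph2 α β w := by
  have hc : CompleteSpace (H1 α β) := H1_closed.completeSpace_coe
  obtain ⟨C, hC, hP⟩ := poi_H1 hSG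
  obtain ⟨h1, h2⟩ := Phi_energy hw
  refine ⟨hc, {
    d1 := (ft6_p3 X 1).comp (H1 α β).subtypeL
    d2 := (ft6_p3 X 2).comp (H1 α β).subtypeL
    J := JK X
    JH := ft6_JH1 α β
    J_inv := ft6_JK_JK
    J_smul := ft6_JK_smul
    J_inner := ft6_JK_inner
    JH_inv := ?_
    JH_smul := ?_
    d1_J := fun χ => rfl
    d2_J := fun χ => rfl
    iso := fun χ χ' => iso_H1 χ.2 χ'.2
    c0 := 1 / (C + 1)
    c0_pos := by positivity
    coer := ?_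
    φ1 := ph1 α β w
    φ2 := ph2 α β w
    φ1_real := (ft6_ph_real hw).1
    φ2_real := (ft6_ph_real hw).2
    isoφ := fun χ => iso_nice (ft6_nice_PhiC hw) h1 h2 χ.2 }, fun _ => rfl, fun _ => rfl, rfl,
    fun _ => rfl, rfl, rfl⟩
  · intro v
    apply Subtype.ext
    refine PiLp.ext fun i => ?_
    exact ft6_JK_JK _
  · intro c v
    apply Subtype.ext
    refine PiLp.ext fun i => ?_
    change JK X ((c • (v : K3 X)) i) = conj c • JK X ((v : K3 X) i)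
    rw [PiLp.smul_apply, ft6_JK_smul]
  · intro χ
    have h3 := hP χ χ.2
    have h4 := ft6_K3_norm (χ : K3 X)
    have h5 : ‖χ‖ = ‖(χ : K3 X)‖ := rfl
    change 1 / (C + 1) * ‖χ‖ ^ 2 ≤ ‖(χ : K3 X) 1‖ ^ 2 + ‖(χ : K3 X) 2‖ ^ 2
    rw [h5, h4, div_mul_eq_mul_div, one_mul, div_le_iff₀ (by positivity)]
    nlinarith [h3]

/-- everything about the solution in terms of abstract Hilbert space data -/
theorem ft6_exists_hol (hSG : SG α β) {w : X → ℝ} (hw : InW α β w) :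
    ∃ (_ : CompleteSpace (H1 α β)) (D : HolData (H1 α β) (KK X)) (s : ℂ → H1 α β),
      (∀ χ : H1 α β, D.d1 χ = (χ : K3 X) 1) ∧ (∀ χ : H1 α β, D.d2 χ = (χ : K3 X) 2) ∧
      D.J = JK X ∧ (∀ χ : H1 α β, (D.JH χ : K3 X) = J3 (χ : K3 X)) ∧
      D.φ1 = ph1 α β w ∧ D.φ2 = ph2 α β w ∧
      ContDiffOn ℝ (⊤ : ℕ∞) s HH ∧ (∀ τ ∈ HH, D.Weq τ (s τ)) ∧
      (∀ τ ∈ HH, D.JH (s τ) = s τ) ∧ (∀ τ ∈ HH, sol α β w τ = (s τ : K3 X)) ∧
      (∀ τ ∈ HH, hh α β w τ = D.h s τ) ∧ (∀ τ ∈ HH, EE α β w τ = D.E s τ) ∧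
      (∀ τ ∈ HH, IsSol α β w τ (sol α β w τ)) ∧
      (∀ τ ∈ HH, ∀ ψ, IsSol α β w τ ψ → ψ = sol α β w τ) := by
  obtain ⟨hc, D, hd1, hd2, hJ, hJH, hφ1, hφ2⟩ := exists_holD hSG hw
  obtain ⟨s, hs, hsm⟩ := D.exists_smooth_sol
  have key : ∀ (τ : ℂ) (ψ : H1 α β), D.Weq τ ψ ↔ IsSol α β w τ (ψ : K3 X) := by
    intro τ ψ
    unfold HolData.Weq IsSol HolData.Dt HolData.Y
    rw [hφ1, hφ2, hd1, hd2]
    constructor
    · intro h
      refine ⟨ψ.2, fun χ hχ => ?_⟩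
      have := h ⟨χ, hχ⟩
      rw [hd1, hd2] at this
      exact this
    · rintro ⟨-, h⟩ χ
      rw [hd1, hd2]
      exact h χ χ.2
  have hsol : ∀ τ ∈ HH, IsSol α β w τ (sol α β w τ) := by
    intro τ hτ
    have hex : ∃ ψ, IsSol α β w τ ψ := ⟨_, (key τ (s τ)).1 (hs τ hτ)⟩
    unfold sol
    rw [dif_pos hex]
    exact hex.choose_spec
  have huniq : ∀ τ ∈ HH, ∀ ψ ψ', IsSol α β w τ ψ → IsSol α β w τ ψ' → ψ = ψ' := by
    intro τ hτ ψ ψ' h h'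
    have e1 : D.Weq τ ⟨ψ, h.1⟩ := (key τ ⟨ψ, h.1⟩).2 h
    have e2 : D.Weq τ ⟨ψ', h'.1⟩ := (key τ ⟨ψ', h'.1⟩).2 h'
    exact congrArg Subtype.val (D.weq_unique hτ e1 e2)
  have hss : ∀ τ ∈ HH, sol α β w τ = (s τ : K3 X) := fun τ hτ =>
    huniq τ hτ _ _ (hsol τ hτ) ((key τ (s τ)).1 (hs τ hτ))
  have hhh : ∀ τ ∈ HH, hh α β w τ = D.h s τ := by
    intro τ hτ
    unfold hh HolData.h HolData.Y RR PP
    rw [hφ1, hφ2, hd1, hd2, hss τ hτ]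
  refine ⟨hc, D, s, hd1, hd2, hJ, hJH, hφ1, hφ2, hsm, hs, fun τ hτ => D.weq_real hτ (hs τ hτ),
    hss, hhh, ?_, hsol, fun τ hτ ψ h => huniq τ hτ _ _ h (hsol τ hτ)⟩
  intro τ hτ
  unfold EE HolData.E
  rw [hhh τ hτ]

theorem sol_spec (hSG : SG α β) {w : X → ℝ} (hw : InW α β w) {τ : ℂ} (hτ : τ ∈ HH) :
    IsSol α β w τ (sol α β w τ) ∧ RealT (sol α β w τ) ∧
      ∀ ψ, IsSol α β w τ ψ → ψ = sol α β w τ := by
  obtain ⟨hc, D, s, hd1, hd2, hJ, hJH, hφ1, hφ2, hsm, hs, hr, hss, hhh, hEE, hsol, hun⟩ :=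
    ft6_exists_hol hSG hw
  refine ⟨hsol τ hτ, ?_, hun τ hτ⟩
  intro i
  rw [hss τ hτ]
  have h1 := hJH (s τ)
  rw [hr τ hτ] at h1
  rw [← ft6_J3_apply, ← h1]

theorem ft6_isOpen_HH : IsOpen HH := isOpen_lt continuous_const Complex.continuous_im

theorem sol_smooth (hSG : SG α β) {w : X → ℝ} (hw : InW α β w) :
    ContDiffOn ℝ (⊤ : ℕ∞) (sol α β w) HH ∧ ContDiffOn ℝ (⊤ : ℕ∞) (hh α β w) HH ∧
      ContDiffOn ℝ (⊤ : ℕ∞) (EE α β w) HH := by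
  obtain ⟨hc, D, s, hd1, hd2, hJ, hJH, hφ1, hφ2, hsm, hs, hr, hss, hhh, hEE, hsol, hun⟩ :=
    ft6_exists_hol hSG hw
  have h1 : ContDiffOn ℝ (⊤ : ℕ∞) (sol α β w) HH := by
    have := (ft6_sub3 α β).contDiff.comp_contDiffOn hsm
    exact this.congr fun τ hτ => hss τ hτ
  have hp : ∀ i : Fin 3, ContDiffOn ℝ (⊤ : ℕ∞) (fun τ => sol α β w τ i) HH := fun i =>
    (ft6_p3r X i).contDiff.comp_contDiffOn h1
  have hconj : ContDiffOn ℝ (⊤ : ℕ∞) (fun τ : ℂ => conj τ) HH :=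
    Complex.conjCLE.contDiff.contDiffOn
  have hden : ContDiffOn ℝ (⊤ : ℕ∞) (fun τ : ℂ => 1 / (τ - conj τ)) HH := by
    have hsub : ContDiffOn ℝ (⊤ : ℕ∞) (fun τ : ℂ => τ - conj τ) HH :=
      ContDiffOn.sub (f := fun τ : ℂ => τ) contDiffOn_id hconj
    simp only [one_div]
    refine hsub.inv ?_
    intro τ hτ h
    have := congrArg Complex.im h
    simp only [Complex.sub_im, Complex.conj_im, Complex.zero_im] at this
    have h3 : 0 < τ.im := hτ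
    linarith
  have h2 : ContDiffOn ℝ (⊤ : ℕ∞) (hh α β w) HH := by
    unfold hh RR PP
    exact hden.smul ((contDiffOn_const.add (hp 2)).sub (hconj.smul (contDiffOn_const.add (hp 1))))
  refine ⟨h1, h2, ?_⟩
  unfold EE
  have him : ContDiffOn ℝ (⊤ : ℕ∞) (fun τ : ℂ => τ.im) HH := Complex.imCLM.contDiff.contDiffOn
  exact (contDiffOn_const.mul him).mul (h2.norm_sq ℂ)

/-- minimality: the energy of the solution is at most that of any competitor, equality only for the solution -/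
theorem sol_min (hSG : SG α β) {w : X → ℝ} (hw : InW α β w) {τ : ℂ} (hτ : τ ∈ HH) {χ : K3 X}
    (hχ : χ ∈ H1 α β)
    (hle : ‖(ph2 α β w + χ 2) - conj τ • (ph1 α β w + χ 1)‖ ≤
      ‖(ph2 α β w + sol α β w τ 2) - conj τ • (ph1 α β w + sol α β w τ 1)‖) :
    χ = sol α β w τ := by
  obtain ⟨hc, D, s, hd1, hd2, hJ, hJH, hφ1, hφ2, hsm, hs, hr, hss, hhh, hEE, hsol, hun⟩ :=
    ft6_exists_hol hSG hw
  rw [hss τ hτ] at hle ⊢
  have h1 := D.weq_minimal (hs τ hτ) ⟨χ, hχ⟩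
  have h2 : ‖D.Y τ ⟨χ, hχ⟩‖ ≤ ‖D.Y τ (s τ)‖ := by
    unfold HolData.Y
    rw [hφ1, hφ2, hd1, hd2, hd1, hd2]
    exact hle
  obtain ⟨c, hc0, hco⟩ := D.Dt_coer hτ
  have h3 := hco (⟨χ, hχ⟩ - s τ)
  have h4 : ‖D.Y τ ⟨χ, hχ⟩‖ ^ 2 ≤ ‖D.Y τ (s τ)‖ ^ 2 := pow_le_pow_left₀ (norm_nonneg _) h2 2
  have h5 : c * ‖(⟨χ, hχ⟩ : H1 α β) - s τ‖ ^ 2 ≤ 0 := by linarith
  have h6 : ‖(⟨χ, hχ⟩ : H1 α β) - s τ‖ ^ 2 ≤ 0 := by
    by_contra hh
    push Not at hh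
    have := mul_pos hc0 hh
    linarith
  have h7 : ‖(⟨χ, hχ⟩ : H1 α β) - s τ‖ = 0 := by
    have := sq_nonneg ‖(⟨χ, hχ⟩ : H1 α β) - s τ‖
    exact pow_eq_zero_iff (two_ne_zero) |>.1 (le_antisymm h6 this)
  have h8 := sub_eq_zero.1 (norm_eq_zero.1 h7)
  exact congrArg Subtype.val h8

/-- weak equation in the form `⟪χ_y - τ̄ χ_x, h⟫ = 0` -/
theorem hh_weq (hSG : SG α β) {w : X → ℝ} (hw : InW α β w) {τ : ℂ} (hτ : τ ∈ HH) {χ : K3 X}
    (hχ : χ ∈ H1 α β) : inner ℂ (χ 2 - conj τ • χ 1) (hh α β w τ) = 0 := by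
  have h1 := (sol_spec hSG hw hτ).1.2 χ hχ
  unfold hh RR PP
  rw [inner_smul_right, h1, mul_zero]

/-- `F_x = h + h̄`, `F_y = τ h + τ̄ h̄` -/
theorem PP_eq (hSG : SG α β) {w : X → ℝ} (hw : InW α β w) {τ : ℂ} (hτ : τ ∈ HH) :
    PP α β w τ = hh α β w τ + JK X (hh α β w τ) ∧
    RR α β w τ = τ • hh α β w τ + conj τ • JK X (hh α β w τ) := by
  obtain ⟨hc, D, s, hd1, hd2, hJ, hJH, hφ1, hφ2, hsm, hs, hr, hss, hhh, hEE, hsol, hun⟩ :=
    ft6_exists_hol hSG hw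
  have := D.P_eq s hr τ hτ
  rw [hφ1, hφ2, hd1, hd2, hJ, ← hhh τ hτ, ← hss τ hτ] at this
  exact this

theorem ft6_dzb_congr {E : Type*} [NormedAddCommGroup E] [NormedSpace ℂ E] {f g : ℂ → E} {τ : ℂ}
    (h : f =ᶠ[𝓝 τ] g) : dzb f τ = dzb g τ := by
  unfold dzb
  rw [h.fderiv_eq]

theorem ft6_dz_congr {E : Type*} [NormedAddCommGroup E] [NormedSpace ℂ E] {f g : ℂ → E} {τ : ℂ}
    (h : f =ᶠ[𝓝 τ] g) : dz f τ = dz g τ := by
  unfold dz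
  rw [h.fderiv_eq]

theorem ft6_lap_congr {f g : ℂ → ℝ} {τ : ℂ} (h : f =ᶠ[𝓝 τ] g) : lap f τ = lap g τ := by
  unfold lap
  rw [h.fderiv.fderiv_eq]

theorem ft6_ev_HH {E : Type*} {f g : ℂ → E} (h : ∀ τ ∈ HH, f τ = g τ) {τ : ℂ} (hτ : τ ∈ HH) :
    f =ᶠ[𝓝 τ] g := by
  filter_upwards [ft6_isOpen_HH.mem_nhds hτ] with σ hσ
  exact h σ hσ

theorem lap_EE (hSG : SG α β) {w : X → ℝ} (hw : InW α β w) {τ : ℂ} (hτ : τ ∈ HH) :
    lap (EE α β w) τ = 32 * τ.im * ‖dzb (hh α β w) τ‖ ^ 2 := by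
  obtain ⟨hc, D, s, hd1, hd2, hJ, hJH, hφ1, hφ2, hsm, hs, hr, hss, hhh, hEE, hsol, hun⟩ :=
    ft6_exists_hol hSG hw
  rw [ft6_lap_congr (ft6_ev_HH hEE hτ), ft6_dzb_congr (ft6_ev_HH hhh hτ)]
  exact D.lap_E s hs hsm hr τ hτ

/-- `G = ∂_τ F` as a triple -/
noncomputable def GG (α β : Equiv.Perm X) (w : X → ℝ) (τ : ℂ) : K3 X := dz (sol α β w) τ

/-- the conclusions of the holomorphic variation -/
structure HolW (α β : Equiv.Perm X) (w : X → ℝ) : Prop where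
  h_hol : DifferentiableOn ℂ (hh α β w) HH
  G_hol : DifferentiableOn ℂ (GG α β w) HH
  G_mem : ∀ τ ∈ HH, GG α β w τ ∈ H1 α β
  G_1 : ∀ τ ∈ HH, GG α β w τ 1 = deriv (hh α β w) τ
  G_2 : ∀ τ ∈ HH, GG α β w τ 2 = hh α β w τ + τ • deriv (hh α β w) τ
  s_deriv : ∀ τ ∈ HH, HasFDerivAt (sol α β w) (fderiv ℝ (sol α β w) τ) τ ∧
    ∀ δ : ℂ, fderiv ℝ (sol α β w) τ δ = δ • GG α β w τ + J3 (δ • GG α β w τ)

theorem holW_of (hSG : SG α β) {w : X → ℝ} (hw : InW α β w)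
    (h0 : ∀ τ ∈ HH, lap (EE α β w) τ = 0) : HolW α β w := by
  have hsmooth := sol_smooth hSG hw
  obtain ⟨hc, D, s, hd1, hd2, hJ, hJH, hφ1, hφ2, hsm, hs, hr, hss, hhh, hEE, hsol, hun⟩ :=
    ft6_exists_hol hSG hw
  have hdzb : ∀ τ ∈ HH, dzb (D.h s) τ = 0 := by
    intro τ hτ
    have h1 := D.lap_E s hs hsm hr τ hτ
    rw [← ft6_lap_congr (ft6_ev_HH hEE hτ), h0 τ hτ] at h1
    have h2 : (0 : ℝ) < 32 * τ.im := by
      have : 0 < τ.im := hτ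
      positivity
    have h3 : ‖dzb (D.h s) τ‖ ^ 2 = 0 := by
      rcases mul_eq_zero.1 h1.symm with h | h
      · exact absurd h h2.ne'
      · exact h
    exact norm_eq_zero.1 (pow_eq_zero_iff two_ne_zero |>.1 h3)
  obtain ⟨c1, c2, c3⟩ := D.hol s hsm hr hdzb
  -- derivative of the solution
  have hsd : ∀ τ ∈ HH, HasFDerivAt (sol α β w) ((ft6_sub3 α β).comp (fderiv ℝ s τ)) τ := by
    intro τ hτ
    have h1 : DifferentiableAt ℝ s τ :=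
      (hsm.differentiableOn (by norm_num)).differentiableAt (ft6_isOpen_HH.mem_nhds hτ)
    have h2 := (ft6_sub3 α β).hasFDerivAt.comp τ h1.hasFDerivAt
    exact h2.congr_of_eventuallyEq (ft6_ev_HH hss hτ)
  have hfd : ∀ τ ∈ HH, ∀ δ : ℂ, fderiv ℝ (sol α β w) τ δ = ((fderiv ℝ s τ δ : H1 α β) : K3 X) := by
    intro τ hτ δ
    rw [(hsd τ hτ).fderiv]
    rfl
  have hGG : ∀ τ ∈ HH, GG α β w τ = ((dz s τ : H1 α β) : K3 X) := by
    intro τ hτ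
    unfold GG dz
    have h1 := hfd τ hτ 1
    have h2 := hfd τ hτ Complex.I
    change (1 / 2 : ℂ) • (fderiv ℝ (sol α β w) τ 1 - Complex.I • fderiv ℝ (sol α β w) τ Complex.I) = _
    rw [h1, h2]
    rfl
  have hder : ∀ τ ∈ HH, deriv (hh α β w) τ = deriv (D.h s) τ := fun τ hτ =>
    (ft6_ev_HH hhh hτ).deriv_eq
  refine ⟨?_, ?_, ?_, ?_, ?_, ?_⟩
  · exact c1.congr hhh
  · have h1 := (H1 α β).subtypeL.differentiable.comp_differentiableOn c2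
    exact h1.congr hGG
  · intro τ hτ
    rw [hGG τ hτ]
    exact (dz s τ).2
  · intro τ hτ
    rw [hGG τ hτ, hder τ hτ, ← hd1]
    exact (c3 τ hτ).2.1
  · intro τ hτ
    rw [hGG τ hτ, hder τ hτ, hhh τ hτ, ← hd2]
    exact (c3 τ hτ).2.2
  · intro τ hτ
    refine ⟨?_, ?_⟩
    · rw [(hsd τ hτ).fderiv]
      exact hsd τ hτ
    · intro δ
      rw [hfd τ hτ δ, hGG τ hτ]
      have h9 := congrArg Subtype.val ((c3 τ hτ).1 δ)
      refine h9.trans ?_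
      have := hJH (δ • dz s τ)
      rw [Submodule.coe_add, this]
      rfl

theorem EE_growth (hSG : SG α β) {w : X → ℝ} (hw : InW α β w)
    (hg : ∀ η : ℝ, 0 < η → ∃ χ ∈ H1 α β, ‖ph1 α β w + χ 1‖ ≤ η) :
    ∀ ε : ℝ, 0 < ε → ∃ V0 : ℝ, ∀ τ : ℂ, V0 ≤ τ.im → |τ.re| ≤ 1 → EE α β w τ ≤ ε * τ.im := by
  obtain ⟨hc, D, s, hd1, hd2, hJ, hJH, hφ1, hφ2, hsm, hs, hr, hss, hhh, hEE, hsol, hun⟩ :=
    ft6_exists_hol hSG hw
  intro ε hε
  have hg' : ∀ η : ℝ, 0 < η → ∃ χ : H1 α β, ‖D.φ1 + D.d1 χ‖ ≤ η := by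
    intro η hη
    obtain ⟨χ, hχ, h⟩ := hg η hη
    refine ⟨⟨χ, hχ⟩, ?_⟩
    rw [hφ1, hd1]
    exact h
  obtain ⟨V0, hV⟩ := D.growth s hs hg' ε hε
  refine ⟨max V0 1, fun τ h1 h2 => ?_⟩
  have h3 : τ ∈ HH := by
    have : (1 : ℝ) ≤ τ.im := (le_max_right _ _).trans h1
    change 0 < τ.im
    linarith
  rw [hEE τ h3]
  exact hV τ ((le_max_left _ _).trans h1) h2

end Pool.Agent.Helper96.OF
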