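import Pool.Agent.Helper96.OF.W1
import Pool.Agent.Helper59.PolarAvg

/-!
# OF-W2: L² mean value bounds for holomorphic functions

`l2_bound`: mean value property on circles (`circleAverage`/`Complex.circleIntegral`), integrate in polar coordinates: `g z0 = (1/πr²)∫_{B_r} g`, Cauchy-Schwarz.
`l2_bound_deriv`: apply `l2_bound` at the points of the circle of radius r/2 (discs of radius r/2) and Cauchy's estimate: `‖g'(z0)‖ ≤ (2/r) sup ≤ (2/r)·(2/(√π r))‖g‖_{L²}`; constant 4/√π r² ≤ 4/r².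
`zt_bound`: for τ in a compact set K of HH there are constants: the ball of radius `r` (sup norm of ℝ×ℝ) around p contains the z_τ-preimage of the disc of radius `c r` around `z_τ p`, and the change of variables
`∫_{ball p r} ‖g(z_τ q)‖² dq = (1/im τ) ∫_{z_τ(ball)} ‖g‖²`.
-/

set_option autoImplicit false

open MeasureTheory

namespace Pool.Agent.Helper96.OF

private theorem w2_avg (g : ℂ → ℂ) (z0 : ℂ) (r ρ : ℝ) (hρ : 0 < ρ) (hρr : ρ < r)
    (hg : DifferentiableOn ℂ g (Metric.ball z0 r)) :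
    ‖g z0‖ ^ 2 ≤ Real.circleAverage (fun z => ‖g z‖ ^ 2) z0 ρ := by
  have hsub : Metric.closedBall z0 ρ ⊆ Metric.ball z0 r := Metric.closedBall_subset_ball hρr
  have hd : DiffContOnCl ℂ (fun z => g z ^ 2) (Metric.ball z0 |ρ|) := by
    rw [abs_of_pos hρ]
    have h1 : DifferentiableOn ℂ (fun z => g z ^ 2) (Metric.closedBall z0 ρ) :=
      (hg.mono hsub).pow 2
    apply DifferentiableOn.diffContOnCl
    rw [closure_ball z0 hρ.ne']
    exact h1
  have h1 := hd.circleAverage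
  have h2 : ‖g z0‖ ^ 2 = ‖Real.circleAverage (fun z => g z ^ 2) z0 ρ‖ := by
    rw [h1, norm_pow]
  rw [h2]
  unfold Real.circleAverage
  rw [norm_smul, smul_eq_mul, Real.norm_eq_abs, abs_of_pos (by positivity)]
  refine mul_le_mul_of_nonneg_left ?_ (by positivity)
  refine (intervalIntegral.norm_integral_le_integral_norm (by positivity)).trans (le_of_eq ?_)
  simp only [norm_pow]

theorem l2_bound (g : ℂ → ℂ) (z0 : ℂ) (r : ℝ) (hr : 0 < r) (hg : DifferentiableOn ℂ g (Metric.ball z0 r))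
    (hi : IntegrableOn (fun z => ‖g z‖ ^ 2) (Metric.ball z0 r)) :
    ‖g z0‖ ^ 2 ≤ (1 / (Real.pi * r ^ 2)) * ∫ z in Metric.ball z0 r, ‖g z‖ ^ 2 := by
  have hc : ContinuousOn (fun z => ‖g z‖ ^ 2) (Metric.ball z0 r) := (hg.continuousOn.norm).pow 2
  have h1 := Pool.Agent.Helper59.Hardy.polar_avg (G := fun z => ‖g z‖ ^ 2) (w := z0) (R := r) hc
    (fun z _ => by positivity)
  have h2 : ENNReal.ofReal (∫ z in Metric.ball z0 r, ‖g z‖ ^ 2) =
      ∫⁻ z in Metric.ball z0 r, ENNReal.ofReal (‖g z‖ ^ 2) :=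
    ofReal_integral_eq_lintegral_ofReal hi (Filter.Eventually.of_forall (fun z => by positivity))
  have h3 : ∫⁻ ρ in Set.Ioo 0 r, ENNReal.ofReal (2 * Real.pi * ρ * ‖g z0‖ ^ 2) ≤
      ∫⁻ ρ in Set.Ioo 0 r, ENNReal.ofReal (2 * Real.pi * ρ *
        Real.circleAverage (fun z => ‖g z‖ ^ 2) z0 ρ) := by
    refine setLIntegral_mono' measurableSet_Ioo (fun ρ hρ => ?_)
    apply ENNReal.ofReal_le_ofReal
    have h4 := w2_avg g z0 r ρ hρ.1 hρ.2 hg
    have h5 : 0 ≤ 2 * Real.pi * ρ := by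
      have := hρ.1
      positivity
    exact mul_le_mul_of_nonneg_left h4 h5
  have h4 : ∫⁻ ρ in Set.Ioo 0 r, ENNReal.ofReal (2 * Real.pi * ρ * ‖g z0‖ ^ 2) =
      ENNReal.ofReal (Real.pi * r ^ 2 * ‖g z0‖ ^ 2) := by
    rw [← ofReal_integral_eq_lintegral_ofReal]
    · congr 1
      rw [← integral_Ioc_eq_integral_Ioo, ← intervalIntegral.integral_of_le hr.le]
      rw [intervalIntegral.integral_mul_const, intervalIntegral.integral_const_mul, integral_id]
      ring
    · have hcc : Continuous (fun ρ : ℝ => 2 * Real.pi * ρ * ‖g z0‖ ^ 2) := by fun_prop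
      exact (hcc.integrableOn_Icc).mono_set Set.Ioo_subset_Icc_self
    · refine (ae_restrict_mem measurableSet_Ioo).mono (fun ρ hρ => ?_)
      have := hρ.1
      simp only [Pi.zero_apply]
      positivity
  rw [← h1, h4, ← h2] at h3
  have h5 : 0 ≤ ∫ z in Metric.ball z0 r, ‖g z‖ ^ 2 := by positivity
  have h6 := (ENNReal.ofReal_le_ofReal_iff h5).mp h3
  have h7 : 0 < Real.pi * r ^ 2 := by positivity
  rw [one_div, ← div_eq_inv_mul, le_div_iff₀ h7]
  linarith

theorem l2_bound_deriv (g : ℂ → ℂ) (z0 : ℂ) (r : ℝ) (hr : 0 < r)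
    (hg : DifferentiableOn ℂ g (Metric.ball z0 r))
    (hi : IntegrableOn (fun z => ‖g z‖ ^ 2) (Metric.ball z0 r)) :
    ‖deriv g z0‖ ^ 2 ≤ (16 / r ^ 4) * ∫ z in Metric.ball z0 r, ‖g z‖ ^ 2 := by
  set I := ∫ z in Metric.ball z0 r, ‖g z‖ ^ 2 with hI
  have hI0 : 0 ≤ I := by positivity
  have hr2 : 0 < r / 2 := by positivity
  have key : ∀ z ∈ Metric.sphere z0 (r / 2), ‖g z‖ ≤ Real.sqrt (4 / (Real.pi * r ^ 2) * I) := by
    intro z hz
    have hz' : dist z z0 = r / 2 := hz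
    have hsub : Metric.ball z (r / 2) ⊆ Metric.ball z0 r := by
      apply Metric.ball_subset_ball'
      rw [hz']
      linarith
    have h1 := l2_bound g z (r / 2) hr2 (hg.mono hsub) (hi.mono_set hsub)
    have h2 : ∫ w in Metric.ball z (r / 2), ‖g w‖ ^ 2 ≤ I :=
      setIntegral_mono_set hi (Filter.Eventually.of_forall (fun w => by positivity))
        (Filter.Eventually.of_forall hsub)
    apply Real.le_sqrt_of_sq_le
    refine h1.trans ?_
    have h3 : 1 / (Real.pi * (r / 2) ^ 2) = 4 / (Real.pi * r ^ 2) := by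
      field_simp
      norm_num
    rw [h3]
    exact mul_le_mul_of_nonneg_left h2 (by positivity)
  have hd : DiffContOnCl ℂ g (Metric.ball z0 (r / 2)) := by
    apply DifferentiableOn.diffContOnCl
    rw [closure_ball z0 hr2.ne']
    exact hg.mono (Metric.closedBall_subset_ball (by linarith))
  have h4 := Complex.norm_deriv_le_of_forall_mem_sphere_norm_le hr2 hd key
  have h5 : ‖deriv g z0‖ ^ 2 ≤ (Real.sqrt (4 / (Real.pi * r ^ 2) * I) / (r / 2)) ^ 2 :=
    pow_le_pow_left₀ (norm_nonneg _) h4 2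
  refine h5.trans ?_
  rw [div_pow, Real.sq_sqrt (by positivity)]
  have h6 : 4 / (Real.pi * r ^ 2) * I / (r / 2) ^ 2 = (16 / r ^ 4 * I) * (1 / Real.pi) := by
    field_simp
    ring
  rw [h6]
  have h7 : 1 / Real.pi ≤ 1 := by
    rw [div_le_one Real.pi_pos]
    linarith [Real.pi_gt_three]
  calc (16 / r ^ 4 * I) * (1 / Real.pi) ≤ (16 / r ^ 4 * I) * 1 :=
        mul_le_mul_of_nonneg_left h7 (by positivity)
    _ = 16 / r ^ 4 * I := mul_one _

/-- the linear map `(x,y) ↦ (x + a y, b y)` -/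
private noncomputable def w2L (a b : ℝ) : (ℝ × ℝ) →ₗ[ℝ] (ℝ × ℝ) where
  toFun p := (p.1 + a * p.2, b * p.2)
  map_add' p q := by
    ext <;> simp <;> ring
  map_smul' c p := by
    ext <;> simp <;> ring

private theorem w2L_det (a b : ℝ) : LinearMap.det (w2L a b) = b := by
  rw [← LinearMap.det_toMatrix (Module.Basis.finTwoProd ℝ), Matrix.det_fin_two]
  simp [LinearMap.toMatrix_apply, w2L, Module.Basis.finTwoProd]

private theorem w2_zt (τ : ℂ) (p : ℝ × ℝ) :
    zt τ p = Complex.measurableEquivRealProd.symm (w2L τ.re τ.im p) := by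
  rw [Complex.measurableEquivRealProd_symm_apply]
  apply Complex.ext
  · simp [zt, w2L]
  · simp [zt, w2L]

private theorem w2_cont (τ : ℂ) : Continuous (zt τ) := by
  unfold zt
  fun_prop

private theorem w2_map (τ : ℂ) (hτ : 0 < τ.im) :
    Measure.map (zt τ) (volume : Measure (ℝ × ℝ)) = ENNReal.ofReal (τ.im)⁻¹ • (volume : Measure ℂ) := by
  have h1 : zt τ = Complex.measurableEquivRealProd.symm ∘ (w2L τ.re τ.im) := by
    funext p
    exact w2_zt τ p
  have hL : Measurable (w2L τ.re τ.im) :=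
    (LinearMap.continuous_of_finiteDimensional (w2L τ.re τ.im)).measurable
  rw [h1, ← Measure.map_map Complex.measurableEquivRealProd.symm.measurable hL,
    Measure.map_linearMap_addHaar_eq_smul_addHaar volume (by rw [w2L_det]; exact hτ.ne'),
    w2L_det, Measure.map_smul]
  rw [(Complex.volume_preserving_equiv_real_prod.symm).map_eq, abs_of_pos (by positivity)]

private theorem w2_inj (τ : ℂ) (hτ : 0 < τ.im) : Function.Injective (zt τ) := by
  intro p q h
  have h1 := congrArg Complex.im h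
  have h2 := congrArg Complex.re h
  simp [zt] at h1 h2
  have h3 : p.2 = q.2 := by
    rcases h1 with h1 | h1
    · exact h1
    · exact absurd h1 hτ.ne'
  rw [h3] at h2
  have h4 : p.1 = q.1 := by linarith
  exact Prod.ext h4 h3

private theorem w2_emb (τ : ℂ) (hτ : 0 < τ.im) : MeasurableEmbedding (zt τ) :=
  (w2_cont τ).measurableEmbedding (w2_inj τ hτ)

private theorem w2_ball (τ : ℂ) (hτ : 0 < τ.im) (p : ℝ × ℝ) (r c : ℝ) (hr : 0 < r)
    (hc : c * (1 + 2 * ‖τ‖) ≤ τ.im) (q : ℝ × ℝ) (hq : zt τ q ∈ Metric.ball (zt τ p) (c * r)) :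
    q ∈ Metric.ball p r := by
  rw [Metric.mem_ball, dist_eq_norm] at hq
  have hz : zt τ q - zt τ p = ((q.1 - p.1 : ℝ) : ℂ) + τ * ((q.2 - p.2 : ℝ) : ℂ) := by
    simp only [zt]
    push_cast
    ring
  set z := zt τ q - zt τ p with hzdef
  have him : z.im = τ.im * (q.2 - p.2) := by
    rw [hz]
    simp
  have hre : z.re = (q.1 - p.1) + τ.re * (q.2 - p.2) := by
    rw [hz]
    simp
  have hc0 : 0 < c := by
    by_contra hcn
    have : c * r ≤ 0 := mul_nonpos_of_nonpos_of_nonneg (not_lt.mp hcn) hr.le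
    have := norm_nonneg z
    linarith
  have h1 : |q.2 - p.2| * τ.im ≤ ‖z‖ := by
    have := Complex.abs_im_le_norm z
    rw [him, abs_mul, abs_of_pos hτ] at this
    linarith
  have h2 : |q.1 - p.1| ≤ ‖z‖ + ‖τ‖ * |q.2 - p.2| := by
    have e : q.1 - p.1 = z.re - τ.re * (q.2 - p.2) := by rw [hre]; ring
    rw [e]
    refine (abs_sub _ _).trans ?_
    rw [abs_mul]
    exact add_le_add (Complex.abs_re_le_norm z)
      (mul_le_mul_of_nonneg_right (Complex.abs_re_le_norm τ) (abs_nonneg _))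
  have him_le : τ.im ≤ ‖τ‖ := (le_abs_self _).trans (Complex.abs_im_le_norm τ)
  have hT : 0 < ‖τ‖ := lt_of_lt_of_le hτ him_le
  -- `‖z‖ < c r`, `c (1 + 2‖τ‖) ≤ im τ`
  have h3 : ‖z‖ * (1 + 2 * ‖τ‖) < τ.im * r := by
    calc ‖z‖ * (1 + 2 * ‖τ‖) < (c * r) * (1 + 2 * ‖τ‖) :=
          mul_lt_mul_of_pos_right hq (by positivity)
      _ = (c * (1 + 2 * ‖τ‖)) * r := by ring
      _ ≤ τ.im * r := mul_le_mul_of_nonneg_right hc hr.le
  have hz0 := norm_nonneg z
  have h4 : |q.2 - p.2| < r := by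
    have : |q.2 - p.2| * τ.im < r * τ.im := by nlinarith
    exact lt_of_mul_lt_mul_right this hτ.le
  have h5 : |q.1 - p.1| < r := by
    have h6 : |q.1 - p.1| * τ.im ≤ ‖z‖ * τ.im + ‖τ‖ * ‖z‖ := by
      have := mul_le_mul_of_nonneg_right h2 hτ.le
      nlinarith
    have h7 : ‖z‖ * τ.im ≤ ‖z‖ * ‖τ‖ := mul_le_mul_of_nonneg_left him_le hz0
    have : |q.1 - p.1| * τ.im < r * τ.im := by nlinarith
    exact lt_of_mul_lt_mul_right this hτ.le
  rw [Metric.mem_ball, Prod.dist_eq, max_lt_iff, Real.dist_eq, Real.dist_eq]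
  exact ⟨h5, h4⟩

/-- same bounds in the coordinates `(x,y)` with constants uniform for τ in a compact set -/
theorem zt_bound (K : Set ℂ) (hK : IsCompact K) (hKH : K ⊆ HH) :
    ∃ C : ℝ, 0 < C ∧ ∀ τ ∈ K, ∀ (p : ℝ × ℝ) (r : ℝ), 0 < r → ∀ g : ℂ → ℂ,
      DifferentiableOn ℂ g (zt τ '' Metric.ball p r) →
      IntegrableOn (fun q => ‖g (zt τ q)‖ ^ 2) (Metric.ball p r) →
      ‖g (zt τ p)‖ ^ 2 ≤ (C / r ^ 2) * ∫ q in Metric.ball p r, ‖g (zt τ q)‖ ^ 2 ∧
      ‖deriv g (zt τ p)‖ ^ 2 ≤ (C / r ^ 4) * ∫ q in Metric.ball p r, ‖g (zt τ q)‖ ^ 2 := by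
  -- constants
  obtain ⟨T, hT0, hT⟩ : ∃ T : ℝ, 0 < T ∧ ∀ τ ∈ K, ‖τ‖ ≤ T := by
    obtain ⟨T, hT⟩ := hK.isBounded.exists_norm_le
    exact ⟨max T 1, by positivity, fun τ hτ => (hT τ hτ).trans (le_max_left _ _)⟩
  obtain ⟨v, hv0, hv⟩ : ∃ v : ℝ, 0 < v ∧ ∀ τ ∈ K, v ≤ τ.im := by
    rcases K.eq_empty_or_nonempty with he | hne
    · exact ⟨1, one_pos, fun τ hτ => by rw [he] at hτ; exact absurd hτ (Set.notMem_empty τ)⟩
    · obtain ⟨τ0, h0, h1⟩ := hK.exists_isMinOn hne Complex.continuous_im.continuousOn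
      exact ⟨τ0.im, hKH h0, fun τ hτ => h1 hτ⟩
  obtain ⟨c, hc⟩ : ∃ c : ℝ, c = v / (1 + 2 * T) := ⟨_, rfl⟩
  have hc0 : 0 < c := by rw [hc]; positivity
  have hcT : c * (1 + 2 * T) = v := by rw [hc]; field_simp
  refine ⟨T * (1 / c ^ 2 + 16 / c ^ 4), by positivity, ?_⟩
  intro τ hτ p r hr g hg hi
  have hτ0 : 0 < τ.im := hKH hτ
  have hcτ : c * (1 + 2 * ‖τ‖) ≤ τ.im := by
    have h1 := hT τ hτ
    have h2 := hv τ hτ
    have h3 : c * (1 + 2 * ‖τ‖) ≤ c * (1 + 2 * T) :=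
      mul_le_mul_of_nonneg_left (by linarith) hc0.le
    linarith
  have hball : ∀ q : ℝ × ℝ, zt τ q ∈ Metric.ball (zt τ p) (c * r) → q ∈ Metric.ball p r :=
    fun q hq => w2_ball τ hτ0 p r c hr hcτ q hq
  have hsurj : Function.Surjective (zt τ) := by
    intro z
    refine ⟨(z.re - τ.re * (z.im / τ.im), z.im / τ.im), ?_⟩
    apply Complex.ext
    · simp [zt]
    · simp [zt]
      field_simp
  have hsub : Metric.ball (zt τ p) (c * r) ⊆ zt τ '' Metric.ball p r := by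
    intro z hz
    obtain ⟨q, rfl⟩ := hsurj z
    exact ⟨q, hball q hz, rfl⟩
  have hpre : zt τ ⁻¹' Metric.ball (zt τ p) (c * r) ⊆ Metric.ball p r := hball
  have hmap := w2_map τ hτ0
  have hemb := w2_emb τ hτ0
  have hvol : (volume : Measure ℂ) = ENNReal.ofReal τ.im • Measure.map (zt τ) volume := by
    rw [hmap, smul_smul, ← ENNReal.ofReal_mul hτ0.le, mul_inv_cancel₀ hτ0.ne', ENNReal.ofReal_one,
      one_smul]
  have hI1 : IntegrableOn (fun z => ‖g z‖ ^ 2) (Metric.ball (zt τ p) (c * r)) (volume : Measure ℂ) := by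
    rw [hvol]
    have h1 : IntegrableOn (fun z => ‖g z‖ ^ 2) (Metric.ball (zt τ p) (c * r))
        (Measure.map (zt τ) volume) := by
      rw [hemb.integrableOn_map_iff]
      exact hi.mono_set hpre
    unfold IntegrableOn at h1 ⊢
    rw [Measure.restrict_smul]
    exact h1.smul_measure ENNReal.ofReal_ne_top
  have hI2 : ∫ z in Metric.ball (zt τ p) (c * r), ‖g z‖ ^ 2 ≤
      T * ∫ q in Metric.ball p r, ‖g (zt τ q)‖ ^ 2 := by
    have h1 : ∫ z in Metric.ball (zt τ p) (c * r), ‖g z‖ ^ 2 =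
        τ.im * ∫ q in zt τ ⁻¹' Metric.ball (zt τ p) (c * r), ‖g (zt τ q)‖ ^ 2 := by
      conv_lhs => rw [hvol]
      rw [Measure.restrict_smul, integral_smul_measure, ENNReal.toReal_ofReal hτ0.le,
        hemb.setIntegral_map]
      rfl
    rw [h1]
    have h2 : ∫ q in zt τ ⁻¹' Metric.ball (zt τ p) (c * r), ‖g (zt τ q)‖ ^ 2 ≤
        ∫ q in Metric.ball p r, ‖g (zt τ q)‖ ^ 2 :=
      setIntegral_mono_set hi (Filter.Eventually.of_forall (fun w => by positivity))
        (Filter.Eventually.of_forall hpre)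
    have h3 : τ.im ≤ T := ((le_abs_self _).trans (Complex.abs_im_le_norm τ)).trans (hT τ hτ)
    have h4 : 0 ≤ ∫ q in Metric.ball p r, ‖g (zt τ q)‖ ^ 2 := by positivity
    exact mul_le_mul h3 h2 (by positivity) hT0.le
  have hg' := hg.mono hsub
  set J := ∫ q in Metric.ball p r, ‖g (zt τ q)‖ ^ 2 with hJ
  have hJ0 : 0 ≤ J := by positivity
  have hcr : 0 < c * r := by positivity
  constructor
  · refine (l2_bound g (zt τ p) (c * r) hcr hg' hI1).trans ?_
    have h1 : 1 / (Real.pi * (c * r) ^ 2) ≤ (1 / c ^ 2) / r ^ 2 := by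
      have e : 1 / (Real.pi * (c * r) ^ 2) = ((1 / c ^ 2) / r ^ 2) * (1 / Real.pi) := by
        field_simp
      rw [e]
      have h7 : 1 / Real.pi ≤ 1 := by
        rw [div_le_one Real.pi_pos]
        linarith [Real.pi_gt_three]
      calc ((1 / c ^ 2) / r ^ 2) * (1 / Real.pi) ≤ ((1 / c ^ 2) / r ^ 2) * 1 :=
            mul_le_mul_of_nonneg_left h7 (by positivity)
        _ = (1 / c ^ 2) / r ^ 2 := mul_one _
    calc 1 / (Real.pi * (c * r) ^ 2) * ∫ z in Metric.ball (zt τ p) (c * r), ‖g z‖ ^ 2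
        ≤ ((1 / c ^ 2) / r ^ 2) * (T * J) := mul_le_mul h1 hI2 (by positivity) (by positivity)
      _ = (T * (1 / c ^ 2)) / r ^ 2 * J := by ring
      _ ≤ (T * (1 / c ^ 2 + 16 / c ^ 4)) / r ^ 2 * J := by
        refine mul_le_mul_of_nonneg_right ?_ hJ0
        refine div_le_div_of_nonneg_right ?_ (by positivity)
        refine mul_le_mul_of_nonneg_left ?_ hT0.le
        have : 0 ≤ 16 / c ^ 4 := by positivity
        linarith
  · refine (l2_bound_deriv g (zt τ p) (c * r) hcr hg' hI1).trans ?_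
    calc 16 / (c * r) ^ 4 * ∫ z in Metric.ball (zt τ p) (c * r), ‖g z‖ ^ 2
        ≤ 16 / (c * r) ^ 4 * (T * J) := mul_le_mul_of_nonneg_left hI2 (by positivity)
      _ = (T * (16 / c ^ 4)) / r ^ 4 * J := by
        field_simp
      _ ≤ (T * (1 / c ^ 2 + 16 / c ^ 4)) / r ^ 4 * J := by
        refine mul_le_mul_of_nonneg_right ?_ hJ0
        refine div_le_div_of_nonneg_right ?_ (by positivity)
        refine mul_le_mul_of_nonneg_left ?_ hT0.le
        have : 0 ≤ 1 / c ^ 2 := by positivity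
        linarith

end Pool.Agent.Helper96.OF
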