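import Pool.Agent.Helper96.OF.FT5
import Pool.Agent.Helper96.OF.FT7

/-!
# OF-FT8 (CUT, PHI0)

`cut`: δ nice with corner values 0 (so δ = 0 in the corner boxes of side ρ), δ, δ_x, δ_y ∈ L². For a finite set S of squares let `w = 1_S` and let `η_S` be the blend of w across the edges: on the unit square of s
`η(x,y) = w s + (w(α⁻¹s) - w s)κ(x) + (w(α s) - w s)κ(1-x) + (w(β⁻¹s)-w s)κ(y) + (w(β s)-w s)κ(1-y)`, κ smooth, κ(t) = 1 - σ₁(t) with σ₁ a smooth step, `σ₁(-t) = 1-σ₁(t)`, σ₁=0 for t ≤ -ρ/2, 1 for t ≥ ρ/2.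
Outside the corner boxes at most one κ-term is nonzero and the pieces fit smoothly across the edges; the product `η_S δ` (δ=0 in the boxes) is nice, FinS, corner values 0 (extend to Cross by `ext`, as for Phi).
`|∇η_S| ≤ C`, `η_S = 1` on the squares all of whose 4 neighbours (and itself) are in S. So `‖trip(η_Sδ) - trip δ‖² ≤ C ∫_{outside those squares}(|δ|²+|δ_x|²+|δ_y|²) → 0` along an exhaustion of the countable X.
(Alternative to reduce gluing work: η_S built as a product of 4 one-sided blends; or use `w` only through `Phi`-like functions on the dual squares. Any proof is fine.)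
`phi0`: w ζ-invariant in ℓ²: `w_n = w` on a finite ζ-invariant set and 0 elsewhere (w is 0 on infinite ζ-orbits; finite orbits: exhaust X by finite unions of finite orbits), `Phi w_n` is nice, FinS;
`trip(Phi w) - trip(Phi w_n) = trip (Phi (w-w_n))` small by Phi_energy_le, Phi_L2_le.
-/

set_option autoImplicit false

open MeasureTheory Filter Topology

namespace Pool.Agent.Helper96.OF

variable {X : Type} [Countable X] [MeasurableSpace X] [DiscreteMeasurableSpace X] {α β : Equiv.Perm X}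

private theorem cls_tendsto {F : Sq X → ℂ} (hF : MemLp F 2 (mu X)) (G : Finset X → Sq X → ℂ)
    (hm : ∀ S, AEStronglyMeasurable (G S) (mu X))
    (hb : ∀ S, ∀ᵐ q ∂(mu X), ‖G S q‖ ≤ ‖F q‖)
    (hl : ∀ᵐ q ∂(mu X), ∀ᶠ S in atTop, G S q = F q) :
    Tendsto (fun S => cls (G S)) atTop (𝓝 (cls F)) := by
  have hG : ∀ S, MemLp (G S) 2 (mu X) := fun S => hF.mono (hm S) (hb S)
  have hD : ∀ S, MemLp (fun q => G S q - F q) 2 (mu X) := fun S => (hG S).sub hF
  have h1 : ∀ S, ‖cls (G S) - cls F‖ ^ 2 = ∫ q, ‖G S q - F q‖ ^ 2 ∂(mu X) := by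
    intro S
    have h3 : cls (fun q => (G S q - F q) + F q) = cls (fun q => G S q - F q) + cls F :=
      cls_add (hD S) hF
    have h4 : (fun q => (G S q - F q) + F q) = G S := by funext q; ring
    rw [h4] at h3
    rw [h3, add_sub_cancel_right, cls_norm (hD S)]
  have h4 : Tendsto (fun S => ∫ q, ‖G S q - F q‖ ^ 2 ∂(mu X)) atTop (𝓝 0) := by
    have h5 := tendsto_integral_filter_of_dominated_convergence (μ := mu X)
      (l := (atTop : Filter (Finset X))) (F := fun S q => ‖G S q - F q‖ ^ 2) (f := fun _ => 0)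
      (fun q => (2 * ‖F q‖) ^ 2)
      (Eventually.of_forall fun S => ((hD S).1.norm.pow 2))
      (Eventually.of_forall fun S => by
        filter_upwards [hb S] with q hq
        rw [Real.norm_eq_abs, abs_of_nonneg (by positivity)]
        have h6 : ‖G S q - F q‖ ≤ 2 * ‖F q‖ := by
          have := norm_sub_le (G S q) (F q)
          linarith
        gcongr)
      (by
        have := (hF.norm.const_mul 2).integrable_sq
        exact this)
      (by
        filter_upwards [hl] with q hq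
        refine tendsto_const_nhds.congr' ?_
        filter_upwards [hq] with S hS
        rw [hS]; simp)
    simpa using h5
  rw [tendsto_iff_norm_sub_tendsto_zero]
  have h6 : Tendsto (fun S => Real.sqrt (‖cls (G S) - cls F‖ ^ 2)) atTop (𝓝 (Real.sqrt 0)) := by
    refine (Real.continuous_sqrt.tendsto 0).comp ?_
    simp_rw [h1]
    exact h4
  simp_rw [Real.sqrt_sq (norm_nonneg _), Real.sqrt_zero] at h6
  exact h6

private theorem trip_tendsto {f : X → ℝ × ℝ → ℂ} (g : Finset X → X → ℝ × ℝ → ℂ)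
    (h0 : Tendsto (fun S => cls (fl (g S))) atTop (𝓝 (cls (fl f))))
    (h1 : Tendsto (fun S => cls (fl (dx (g S)))) atTop (𝓝 (cls (fl (dx f)))))
    (h2 : Tendsto (fun S => cls (fl (dy (g S)))) atTop (𝓝 (cls (fl (dy f))))) :
    Tendsto (fun S => trip (g S)) atTop (𝓝 (trip f)) := by
  have h3 : Tendsto (fun S => (![cls (fl (g S)), cls (fl (dx (g S))), cls (fl (dy (g S)))] :
      Fin 3 → KK X)) atTop (𝓝 ![cls (fl f), cls (fl (dx f)), cls (fl (dy f))]) := by
    rw [tendsto_pi_nhds]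
    intro i
    fin_cases i
    · exact h0
    · exact h1
    · exact h2
  exact ((PiLp.continuous_toLp 2 (fun _ : Fin 3 => KK X)).tendsto _).comp h3

/-- cutting with labels which are locally constant near the support -/
private theorem label_mem {f : X → ℝ × ℝ → ℂ} (hf : Nice α β f (fun _ => 0))
    (h0 : MemLp (fl f) 2 (mu X)) (h1 : MemLp (fl (dx f)) 2 (mu X))
    (h2 : MemLp (fl (dy f)) 2 (mu X)) (L : X → ℝ × ℝ → X)
    (hloc : ∀ s, ∀ p ∈ Cross, (∀ᶠ q in 𝓝 p, f s q = 0) ∨ (∀ᶠ q in 𝓝 p, L s q = L s p))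
    (hrow : ∀ s x y, 0 < y → y < 1 → L s (x + 1, y) = L (α s) (x, y))
    (hcol : ∀ s x y, 0 < x → x < 1 → L s (x, y + 1) = L (β s) (x, y))
    (hfin : ∀ t : X, {s | ∃ p ∈ unitSq, L s p = t}.Finite) : trip f ∈ H1 α β := by
  classical
  set g : Finset X → X → ℝ × ℝ → ℂ := fun S s p => if L s p ∈ S then f s p else 0 with hg
  -- local behaviour
  have hnear : ∀ S s, ∀ p ∈ Cross, (g S s =ᶠ[𝓝 p] fun _ => 0) ∨ (g S s =ᶠ[𝓝 p] f s) := by
    intro S s p hp
    rcases hloc s p hp with h | h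
    · left
      filter_upwards [h] with q hq
      simp only [hg, hq, ite_self]
    · by_cases hS : L s p ∈ S
      · right
        filter_upwards [h] with q hq
        simp only [hg, hq, if_pos hS]
      · left
        filter_upwards [h] with q hq
        simp only [hg, hq, if_neg hS]
  have hnice : ∀ S, Nice α β (g S) (fun _ => 0) := by
    intro S
    refine ⟨?_, ?_, ?_, ?_, fun _ => rfl⟩
    · intro s
      intro p hp
      apply ContDiffAt.contDiffWithinAt
      rcases hnear S s p hp with h | h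
      · exact contDiffAt_const.congr_of_eventuallyEq h
      · exact ((hf.smooth s).contDiffAt (isOpen_Cross.mem_nhds hp)).congr_of_eventuallyEq h
    · intro s x y hy hy'
      simp only [hg, hrow s x y hy hy', hf.row s x y hy hy']
    · intro s x y hx hx'
      simp only [hg, hcol s x y hx hx', hf.col s x y hx hx']
    · obtain ⟨ρ, hρ, hρ', h⟩ := hf.corner
      refine ⟨ρ, hρ, hρ', ?_⟩
      intro s x y hx hx' hy hy'
      obtain ⟨a1, a2, a3, a4⟩ := h s x y hx hx' hy hy'
      simp only [hg, a1, a2, a3, a4, ite_self, and_self]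
  have hderiv : ∀ S s, ∀ p ∈ Cross, dx (g S) s p = (if L s p ∈ S then dx f s p else 0) ∧
      dy (g S) s p = (if L s p ∈ S then dy f s p else 0) := by
    intro S s p hp
    rcases hloc s p hp with h | h
    · have e1 : fderiv ℝ (g S s) p = 0 := by
        have : g S s =ᶠ[𝓝 p] fun _ => 0 := by
          filter_upwards [h] with q hq
          simp only [hg, hq, ite_self]
        rw [this.fderiv_eq]
        simp
      have e2 : fderiv ℝ (f s) p = 0 := by
        have : f s =ᶠ[𝓝 p] fun _ => 0 := h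
        rw [this.fderiv_eq]
        simp
      simp only [dx, dy, e1, e2, _root_.zero_apply, ite_self, and_self]
    · by_cases hS : L s p ∈ S
      · have e1 : g S s =ᶠ[𝓝 p] f s := by
          filter_upwards [h] with q hq
          simp only [hg, hq, if_pos hS]
        simp only [dx, dy, e1.fderiv_eq, if_pos hS, and_self]
      · have e1 : g S s =ᶠ[𝓝 p] fun _ => 0 := by
          filter_upwards [h] with q hq
          simp only [hg, hq, if_neg hS]
        simp only [dx, dy, e1.fderiv_eq, if_neg hS]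
        simp
  have hfinS : ∀ S, FinS (g S) := by
    intro S
    have hU : (⋃ t ∈ S, {s | ∃ p ∈ unitSq, L s p = t}).Finite :=
      S.finite_toSet.biUnion fun t _ => hfin t
    refine ⟨hU.toFinset, fun s hs p hp => ?_⟩
    simp only [hg]
    split_ifs with h
    · exfalso
      apply hs
      rw [Set.Finite.mem_toFinset, Set.mem_iUnion₂]
      exact ⟨L s p, h, p, hp, rfl⟩
    · rfl
  refine H1_closed.mem_of_tendsto (trip_tendsto g ?_ ?_ ?_)
    (Eventually.of_forall fun S => trip_mem (hnice S) (hfinS S))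
  · refine cls_tendsto h0 _ (fun S => nice_meas (hnice S)) (fun S => ae_mu_of _ ?_) (ae_mu_of _ ?_)
    · intro s p hp
      simp only [fl, hg]
      split_ifs
      · exact le_rfl
      · rw [norm_zero]; exact norm_nonneg _
    · intro s p hp
      filter_upwards [eventually_ge_atTop ({L s p} : Finset X)] with S hS
      have : L s p ∈ S := hS (Finset.mem_singleton_self _)
      simp only [fl, hg, if_pos this]
  · refine cls_tendsto h1 _ (fun S => nice_meas (nice_dx (hnice S))) (fun S => ae_mu_of _ ?_)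
      (ae_mu_of _ ?_)
    · intro s p hp
      simp only [fl, (hderiv S s p (unitSq_subset_Cross hp)).1]
      split_ifs
      · exact le_rfl
      · rw [norm_zero]; exact norm_nonneg _
    · intro s p hp
      filter_upwards [eventually_ge_atTop ({L s p} : Finset X)] with S hS
      have : L s p ∈ S := hS (Finset.mem_singleton_self _)
      simp only [fl, (hderiv S s p (unitSq_subset_Cross hp)).1, if_pos this]
  · refine cls_tendsto h2 _ (fun S => nice_meas (nice_dy (hnice S))) (fun S => ae_mu_of _ ?_)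
      (ae_mu_of _ ?_)
    · intro s p hp
      simp only [fl, (hderiv S s p (unitSq_subset_Cross hp)).2]
      split_ifs
      · exact le_rfl
      · rw [norm_zero]; exact norm_nonneg _
    · intro s p hp
      filter_upwards [eventually_ge_atTop ({L s p} : Finset X)] with S hS
      have : L s p ∈ S := hS (Finset.mem_singleton_self _)
      simp only [fl, (hderiv S s p (unitSq_subset_Cross hp)).2, if_pos this]

/-! ### periodic bump functions -/

/-- `t` is within `r` of an integer -/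
private def nr (r t : ℝ) : Prop := Real.cos (2 * Real.pi * r) < Real.cos (2 * Real.pi * t)

private theorem nr_add_int (r t : ℝ) (k : ℤ) : nr r (t + k) ↔ nr r t := by
  unfold nr
  have : 2 * Real.pi * (t + k) = 2 * Real.pi * t + k * (2 * Real.pi) := by ring
  rw [this, Real.cos_add_int_mul_two_pi]

private theorem isOpen_nr (r : ℝ) : IsOpen {t | nr r t} :=
  isOpen_lt continuous_const (by fun_prop)

private theorem nr_int {r : ℝ} (h0 : 0 < r) (h1 : r ≤ 1 / 2) (k : ℤ) : nr r k := by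
  have := (nr_add_int r 0 k)
  rw [zero_add] at this
  rw [this]
  unfold nr
  rw [mul_zero, Real.cos_zero]
  have h2 : Real.cos (2 * Real.pi * r) < Real.cos 0 :=
    Real.cos_lt_cos_of_nonneg_of_le_pi le_rfl (by nlinarith [Real.pi_pos]) (by positivity)
  rwa [Real.cos_zero] at h2

private theorem nr_mono {r r' t : ℝ} (h0 : 0 ≤ r) (h : r ≤ r') (h1 : r' ≤ 1 / 2) (ht : nr r t) :
    nr r' t := by
  unfold nr at *
  refine lt_of_le_of_lt ?_ ht
  exact Real.cos_le_cos_of_nonneg_of_le_pi (by positivity) (by nlinarith [Real.pi_pos])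
    (by nlinarith [Real.pi_pos])

private theorem not_nr {r u : ℝ} (h0 : 0 < r) (h1 : r ≤ u) (h2 : u ≤ 1 - r) : ¬ nr r u := by
  unfold nr
  rw [not_lt]
  by_cases hu : u ≤ 1 / 2
  · exact Real.cos_le_cos_of_nonneg_of_le_pi (by positivity) (by nlinarith [Real.pi_pos])
      (by nlinarith [Real.pi_pos])
  · have e : Real.cos (2 * Real.pi * u) = Real.cos (2 * Real.pi * (1 - u)) := by
      have : 2 * Real.pi * (1 - u) = 2 * Real.pi - 2 * Real.pi * u := by ring
      rw [this, Real.cos_two_pi_sub]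
    rw [e]
    exact Real.cos_le_cos_of_nonneg_of_le_pi (by positivity) (by nlinarith [Real.pi_pos])
      (by nlinarith [Real.pi_pos])

/-- the bump function: 1 if `nr r0 t`, 0 unless `nr r1 t` -/
private noncomputable def th (r0 r1 t : ℝ) : ℝ :=
  Real.smoothTransition ((Real.cos (2 * Real.pi * t) - Real.cos (2 * Real.pi * r1)) /
    (Real.cos (2 * Real.pi * r0) - Real.cos (2 * Real.pi * r1)))

private theorem th_smooth (r0 r1 : ℝ) : ContDiff ℝ (⊤ : ℕ∞) (th r0 r1) := by
  unfold th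
  refine Real.smoothTransition.contDiff.comp ?_
  refine ContDiff.div_const (ContDiff.sub ?_ contDiff_const) _
  exact Real.contDiff_cos.comp (contDiff_const.mul contDiff_id)

private theorem th_periodic (r0 r1 t : ℝ) : th r0 r1 (t + 1) = th r0 r1 t := by
  unfold th
  have : 2 * Real.pi * (t + 1) = 2 * Real.pi * t + 2 * Real.pi := by ring
  rw [this, Real.cos_add_two_pi]

private theorem th_one {r0 r1 t : ℝ} (h0 : 0 ≤ r0) (h : r0 < r1) (h1 : r1 ≤ 1 / 2)
    (ht : nr r0 t) : th r0 r1 t = 1 := by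
  unfold th
  apply Real.smoothTransition.one_of_one_le
  have h2 : Real.cos (2 * Real.pi * r1) < Real.cos (2 * Real.pi * r0) :=
    Real.cos_lt_cos_of_nonneg_of_le_pi (by positivity) (by nlinarith [Real.pi_pos])
      (by nlinarith [Real.pi_pos])
  rw [one_le_div (by linarith)]
  unfold nr at ht
  linarith

private theorem th_zero {r0 r1 t : ℝ} (h0 : 0 ≤ r0) (h : r0 < r1) (h1 : r1 ≤ 1 / 2)
    (ht : ¬ nr r1 t) : th r0 r1 t = 0 := by
  unfold th
  apply Real.smoothTransition.zero_of_nonpos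
  have h2 : Real.cos (2 * Real.pi * r1) < Real.cos (2 * Real.pi * r0) :=
    Real.cos_lt_cos_of_nonneg_of_le_pi (by positivity) (by nlinarith [Real.pi_pos])
      (by nlinarith [Real.pi_pos])
  unfold nr at ht
  exact div_nonpos_of_nonpos_of_nonneg (by linarith) (by linarith)

/-! ### nice functions are determined on the unit squares -/

private theorem nice_row_int {f : X → ℝ × ℝ → ℂ} {c : X → ℂ} (hf : Nice α β f c) (y : ℝ)
    (hy : 0 < y) (hy' : y < 1) (k : ℤ) : ∀ (s : X) (x : ℝ), f s (x + k, y) = f ((α ^ k) s) (x, y) := by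
  induction k using Int.induction_on with
  | zero => intro s x; simp
  | succ k ih =>
    intro s x
    have e : (x + ((k + 1 : ℤ) : ℝ), y) = ((x + ((k : ℤ) : ℝ)) + 1, y) := by
      push_cast; ring_nf
    rw [e, hf.row s _ y hy hy', ih, zpow_add_one, Equiv.Perm.mul_apply]
  | pred k ih =>
    intro s x
    have h1 := hf.row (α.symm s) (x + ((-k - 1 : ℤ) : ℝ)) y hy hy'
    rw [Equiv.apply_symm_apply] at h1
    have e : (x + ((-k - 1 : ℤ) : ℝ) + 1, y) = (x + ((-k : ℤ) : ℝ), y) := by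
      push_cast; ring_nf
    rw [← h1, e, ih, zpow_sub_one, Equiv.Perm.mul_apply]
    rfl

private theorem nice_col_int {f : X → ℝ × ℝ → ℂ} {c : X → ℂ} (hf : Nice α β f c) (x : ℝ)
    (hx : 0 < x) (hx' : x < 1) (k : ℤ) : ∀ (s : X) (y : ℝ), f s (x, y + k) = f ((β ^ k) s) (x, y) := by
  induction k using Int.induction_on with
  | zero => intro s x; simp
  | succ k ih =>
    intro s y
    have e : (x, y + ((k + 1 : ℤ) : ℝ)) = (x, (y + ((k : ℤ) : ℝ)) + 1) := by
      push_cast; ring_nf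
    rw [e, hf.col s x _ hx hx', ih, zpow_add_one, Equiv.Perm.mul_apply]
  | pred k ih =>
    intro s y
    have h1 := hf.col (β.symm s) x (y + ((-k - 1 : ℤ) : ℝ)) hx hx'
    rw [Equiv.apply_symm_apply] at h1
    have e : (x, y + ((-k - 1 : ℤ) : ℝ) + 1) = (x, y + ((-k : ℤ) : ℝ)) := by
      push_cast; ring_nf
    rw [← h1, e, ih, zpow_sub_one, Equiv.Perm.mul_apply]
    rfl

private theorem fract_cases {r t : ℝ} (h0 : 0 < r) (h : nr r t) :
    Int.fract t < r ∨ 1 - r < Int.fract t := by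
  by_contra hcon
  push Not at hcon
  refine not_nr h0 hcon.1 hcon.2 ?_
  have := nr_add_int r (Int.fract t) ⌊t⌋
  rw [Int.fract_add_floor] at this
  exact this.1 h

/-- a nice function with corner values `0` vanishes near the corners -/
private theorem corner_zero {f : X → ℝ × ℝ → ℂ} (hf : Nice α β f (fun _ => 0)) :
    ∃ ρ : ℝ, 0 < ρ ∧ ρ ≤ 1 / 2 ∧ ∀ s, ∀ p ∈ Cross, nr ρ p.1 → nr ρ p.2 → f s p = 0 := by
  obtain ⟨ρ, hρ, hρ', hc⟩ := hf.corner
  refine ⟨ρ, hρ, hρ', ?_⟩
  -- inside the unit square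
  have key : ∀ (s : X) (u v : ℝ), 0 < u → u < 1 → 0 < v → v < 1 → nr ρ u → nr ρ v →
      f s (u, v) = 0 := by
    intro s u v hu hu' hv hv' hnu hnv
    have fu : Int.fract u = u := Int.fract_eq_self.2 ⟨hu.le, hu'⟩
    have fv : Int.fract v = v := Int.fract_eq_self.2 ⟨hv.le, hv'⟩
    have h1 := fract_cases hρ hnu
    have h2 := fract_cases hρ hnv
    rw [fu] at h1
    rw [fv] at h2
    rcases h1 with h1 | h1 <;> rcases h2 with h2 | h2
    · exact (hc s u v hu h1 hv h2).1
    · have := (hc s u (1 - v) hu h1 (by linarith) (by linarith)).2.2.1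
      rwa [sub_sub_cancel] at this
    · have := (hc s (1 - u) v (by linarith) (by linarith) hv h2).2.1
      rwa [sub_sub_cancel] at this
    · have := (hc s (1 - u) (1 - v) (by linarith) (by linarith) (by linarith) (by linarith)).2.2.2
      rwa [sub_sub_cancel, sub_sub_cancel] at this
  -- non integral coordinates, rows
  have keyr : ∀ (s : X) (x y : ℝ), 0 < y → y < 1 → Int.fract x ≠ 0 → nr ρ x → nr ρ y →
      f s (x, y) = 0 := by
    intro s x y hy hy' hx hnx hny
    have h1 := nice_row_int hf y hy hy' ⌊x⌋ s (Int.fract x)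
    rw [Int.fract_add_floor] at h1
    rw [h1]
    refine key _ _ _ (lt_of_le_of_ne (Int.fract_nonneg x) hx.symm) (Int.fract_lt_one x) hy hy' ?_ hny
    have := nr_add_int ρ (Int.fract x) ⌊x⌋
    rw [Int.fract_add_floor] at this
    exact this.1 hnx
  have keyc : ∀ (s : X) (x y : ℝ), 0 < x → x < 1 → Int.fract y ≠ 0 → nr ρ x → nr ρ y →
      f s (x, y) = 0 := by
    intro s x y hx hx' hy hnx hny
    have h1 := nice_col_int hf x hx hx' ⌊y⌋ s (Int.fract y)
    rw [Int.fract_add_floor] at h1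
    rw [h1]
    refine key _ _ _ hx hx' (lt_of_le_of_ne (Int.fract_nonneg y) hy.symm) (Int.fract_lt_one y) hnx ?_
    have := nr_add_int ρ (Int.fract y) ⌊y⌋
    rw [Int.fract_add_floor] at this
    exact this.1 hny
  rintro s ⟨x, y⟩ hp hnx hny
  simp only at hnx hny
  have hcont : ContinuousAt (f s) (x, y) :=
    ((hf.smooth s).contDiffAt (isOpen_Cross.mem_nhds hp)).continuousAt
  rcases hp with hp | hp
  · simp only at hp
    by_cases hx : Int.fract x = 0
    · -- limit
      have h1 : Tendsto (fun x' => f s (x', y)) (𝓝[≠] x) (𝓝 (f s (x, y))) := by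
        have h2 : ContinuousAt (fun x' : ℝ => f s (x', y)) x :=
          ContinuousAt.comp (f := fun x' : ℝ => (x', y)) hcont (by fun_prop)
        exact h2.tendsto.mono_left nhdsWithin_le_nhds
      refine tendsto_nhds_unique h1 (tendsto_const_nhds.congr' ?_)
      have e1 : ∀ᶠ x' in 𝓝[≠] x, nr ρ x' := nhdsWithin_le_nhds ((isOpen_nr ρ).mem_nhds hnx)
      have e2 : ∀ᶠ x' in 𝓝[≠] x, x' ∈ Set.Ioo (x - 1) (x + 1) :=
        nhdsWithin_le_nhds (Ioo_mem_nhds (by linarith) (by linarith))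
      filter_upwards [e1, e2, self_mem_nhdsWithin] with x' h1 h2 h3
      refine (keyr s x' y hp.1 hp.2 ?_ h1 hny).symm
      intro h4
      apply h3
      obtain ⟨m, hm⟩ := Int.fract_eq_zero_iff.1 hx
      obtain ⟨k, hk⟩ := Int.fract_eq_zero_iff.1 h4
      rw [← hm, ← hk] at h2
      have h5 : ((m : ℝ)) - 1 < k := h2.1
      have h6 : (k : ℝ) < m + 1 := h2.2
      have h7 : m - 1 < k := by exact_mod_cast h5
      have h8 : k < m + 1 := by exact_mod_cast h6
      rw [Set.mem_singleton_iff, ← hm, ← hk]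
      congr 1
      omega
    · exact keyr s x y hp.1 hp.2 hx hnx hny
  · simp only at hp
    by_cases hy : Int.fract y = 0
    · have h1 : Tendsto (fun y' => f s (x, y')) (𝓝[≠] y) (𝓝 (f s (x, y))) := by
        have h2 : ContinuousAt (fun y' : ℝ => f s (x, y')) y :=
          ContinuousAt.comp (f := fun y' : ℝ => (x, y')) hcont (by fun_prop)
        exact h2.tendsto.mono_left nhdsWithin_le_nhds
      refine tendsto_nhds_unique h1 (tendsto_const_nhds.congr' ?_)
      have e1 : ∀ᶠ x' in 𝓝[≠] y, nr ρ x' := nhdsWithin_le_nhds ((isOpen_nr ρ).mem_nhds hny)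
      have e2 : ∀ᶠ x' in 𝓝[≠] y, x' ∈ Set.Ioo (y - 1) (y + 1) :=
        nhdsWithin_le_nhds (Ioo_mem_nhds (by linarith) (by linarith))
      filter_upwards [e1, e2, self_mem_nhdsWithin] with x' h1 h2 h3
      refine (keyc s x x' hp.1 hp.2 ?_ hnx h1).symm
      intro h4
      apply h3
      obtain ⟨m, hm⟩ := Int.fract_eq_zero_iff.1 hy
      obtain ⟨k, hk⟩ := Int.fract_eq_zero_iff.1 h4
      rw [← hm, ← hk] at h2
      have h5 : ((m : ℝ)) - 1 < k := h2.1
      have h6 : (k : ℝ) < m + 1 := h2.2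
      have h7 : m - 1 < k := by exact_mod_cast h5
      have h8 : k < m + 1 := by exact_mod_cast h6
      rw [Set.mem_singleton_iff, ← hm, ← hk]
      congr 1
      omega
    · exact keyc s x y hp.1 hp.2 hy hnx hny

/-! ### multiplication by periodic functions -/

private theorem unitSq_bound (Θ : ℝ × ℝ → ℂ) (h : Continuous Θ) :
    ∃ C : ℝ, 0 ≤ C ∧ ∀ p ∈ unitSq, ‖Θ p‖ ≤ C := by
  have hK : IsCompact (Set.Icc (0 : ℝ) 1 ×ˢ Set.Icc (0 : ℝ) 1) := isCompact_Icc.prod isCompact_Icc
  obtain ⟨C, hC⟩ := hK.exists_bound_of_continuousOn h.continuousOn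
  refine ⟨max C 0, le_max_right _ _, fun p hp => (hC p ?_).trans (le_max_left _ _)⟩
  exact ⟨Set.Ioo_subset_Icc_self hp.1, Set.Ioo_subset_Icc_self hp.2⟩

private theorem memLp_mul_bdd {F G H : Sq X → ℂ} (hF : MemLp F 2 (mu X)) (hG : MemLp G 2 (mu X))
    (hH : AEStronglyMeasurable H (mu X)) (C : ℝ)
    (hb : ∀ᵐ q ∂(mu X), ‖H q‖ ≤ C * ‖F q‖ + C * ‖G q‖) : MemLp H 2 (mu X) := by
  have h1 : MemLp (fun q => C * ‖F q‖ + C * ‖G q‖) 2 (mu X) :=
    (hF.norm.const_mul C).add (hG.norm.const_mul C)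
  refine h1.mono hH ?_
  filter_upwards [hb] with q hq
  exact hq.trans (le_abs_self _)

private theorem per_mul {f : X → ℝ × ℝ → ℂ} (hf : Nice α β f (fun _ => 0))
    (h0 : MemLp (fl f) 2 (mu X)) (h1 : MemLp (fl (dx f)) 2 (mu X))
    (h2 : MemLp (fl (dy f)) 2 (mu X)) (Θ : ℝ × ℝ → ℂ) (hΘ : ContDiff ℝ (⊤ : ℕ∞) Θ)
    (hx : ∀ x y, Θ (x + 1, y) = Θ (x, y)) (hy : ∀ x y, Θ (x, y + 1) = Θ (x, y)) :
    Nice α β (fun s p => Θ p * f s p) (fun _ => 0) ∧
    MemLp (fl (fun s p => Θ p * f s p)) 2 (mu X) ∧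
    MemLp (fl (dx (fun s p => Θ p * f s p))) 2 (mu X) ∧
    MemLp (fl (dy (fun s p => Θ p * f s p))) 2 (mu X) := by
  have hn : Nice α β (fun s p => Θ p * f s p) (fun _ => 0) := by
    refine ⟨?_, ?_, ?_, ?_, fun _ => rfl⟩
    · intro s
      exact (hΘ.contDiffOn).mul (hf.smooth s)
    · intro s x y h h'
      simp only [hf.row s x y h h', hx]
    · intro s x y h h'
      simp only [hf.col s x y h h', hy]
    · obtain ⟨ρ, hρ, hρ', h⟩ := hf.corner
      refine ⟨ρ, hρ, hρ', ?_⟩
      intro s x y hx hx' hy hy'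
      obtain ⟨a1, a2, a3, a4⟩ := h s x y hx hx' hy hy'
      simp only [a1, a2, a3, a4, mul_zero, and_self]
  obtain ⟨C0, hC0, hb0⟩ := unitSq_bound Θ hΘ.continuous
  have hcd : Continuous (fderiv ℝ Θ) := hΘ.continuous_fderiv (by simp)
  obtain ⟨C1, hC1, hb1⟩ := unitSq_bound (fun p => fderiv ℝ Θ p (1, 0))
    (hcd.clm_apply continuous_const)
  obtain ⟨C2, hC2, hb2⟩ := unitSq_bound (fun p => fderiv ℝ Θ p (0, 1))
    (hcd.clm_apply continuous_const)
  have hder : ∀ s, ∀ p ∈ Cross, fderiv ℝ (fun p => Θ p * f s p) p =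
      Θ p • fderiv ℝ (f s) p + f s p • fderiv ℝ Θ p := by
    intro s p hp
    exact fderiv_fun_mul (hΘ.differentiable (by simp) p)
      (((hf.smooth s).contDiffAt (isOpen_Cross.mem_nhds hp)).differentiableAt (by simp))
  refine ⟨hn, ?_, ?_, ?_⟩
  · refine memLp_mul_bdd h0 h0 (nice_meas hn) C0 (ae_mu_of _ ?_)
    intro s p hp
    simp only [fl, norm_mul]
    have := mul_le_mul_of_nonneg_right (hb0 p hp) (norm_nonneg (f s p))
    have h3 : 0 ≤ C0 * ‖f s p‖ := by positivity
    linarith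
  · refine memLp_mul_bdd h0 h1 (nice_meas (nice_dx hn)) (max C0 C1) (ae_mu_of _ ?_)
    intro s p hp
    have h4 : dx (fun s p => Θ p * f s p) s p = Θ p * dx f s p + f s p * fderiv ℝ Θ p (1, 0) := by
      simp only [dx]
      rw [hder s p (unitSq_subset_Cross hp)]
      simp [smul_eq_mul]
    simp only [fl, h4]
    refine (norm_add_le _ _).trans ?_
    rw [norm_mul, norm_mul, add_comm, mul_comm ‖f s p‖]
    exact add_le_add (mul_le_mul_of_nonneg_right ((hb1 p hp).trans (le_max_right _ _)) (norm_nonneg _))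
      (mul_le_mul_of_nonneg_right ((hb0 p hp).trans (le_max_left _ _)) (norm_nonneg _))
  · refine memLp_mul_bdd h0 h2 (nice_meas (nice_dy hn)) (max C0 C2) (ae_mu_of _ ?_)
    intro s p hp
    have h4 : dy (fun s p => Θ p * f s p) s p = Θ p * dy f s p + f s p * fderiv ℝ Θ p (0, 1) := by
      simp only [dy]
      rw [hder s p (unitSq_subset_Cross hp)]
      simp [smul_eq_mul]
    simp only [fl, h4]
    refine (norm_add_le _ _).trans ?_
    rw [norm_mul, norm_mul, add_comm, mul_comm ‖f s p‖]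
    exact add_le_add (mul_le_mul_of_nonneg_right ((hb2 p hp).trans (le_max_right _ _)) (norm_nonneg _))
      (mul_le_mul_of_nonneg_right ((hb0 p hp).trans (le_max_left _ _)) (norm_nonneg _))

private theorem trip_add {f g : X → ℝ × ℝ → ℂ} {c d : X → ℂ} (hf : Nice α β f c)
    (hg : Nice α β g d)
    (h0 : MemLp (fl f) 2 (mu X)) (h1 : MemLp (fl (dx f)) 2 (mu X)) (h2 : MemLp (fl (dy f)) 2 (mu X))
    (k0 : MemLp (fl g) 2 (mu X)) (k1 : MemLp (fl (dx g)) 2 (mu X)) (k2 : MemLp (fl (dy g)) 2 (mu X)) :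
    trip (fun s p => f s p + g s p) = trip f + trip g := by
  have e0 : cls (fl (fun s p => f s p + g s p)) = cls (fl f) + cls (fl g) := by
    rw [← cls_add h0 k0]; rfl
  have e1 : cls (fl (dx (fun s p => f s p + g s p))) = cls (fl (dx f)) + cls (fl (dx g)) := by
    rw [← cls_add h1 k1]
    apply cls_congr
    refine ae_mu_of (fun q => fl (dx (fun s p => f s p + g s p)) q = fl (dx f) q + fl (dx g) q) ?_
    intro s p hp
    exact (dx_add hf hg s p (unitSq_subset_Cross hp)).1
  have e2 : cls (fl (dy (fun s p => f s p + g s p))) = cls (fl (dy f)) + cls (fl (dy g)) := by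
    rw [← cls_add h2 k2]
    apply cls_congr
    refine ae_mu_of (fun q => fl (dy (fun s p => f s p + g s p)) q = fl (dy f) q + fl (dy g) q) ?_
    intro s p hp
    exact (dx_add hf hg s p (unitSq_subset_Cross hp)).2
  unfold trip
  rw [e0, e1, e2, ← WithLp.toLp_add]
  congr 1
  funext i
  fin_cases i <;> rfl

/-! ### the cut -/

private theorem floor_near {t : ℝ} (h : Int.fract t ≠ 0) : ∀ᶠ t' in 𝓝 t, ⌊t'⌋ = ⌊t⌋ := by
  have h1 : Set.Ioo (⌊t⌋ : ℝ) (⌊t⌋ + 1) ∈ 𝓝 t := by
    apply Ioo_mem_nhds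
    · exact lt_of_le_of_ne (Int.floor_le t) (fun h2 => h (Int.fract_eq_zero_iff.2 ⟨⌊t⌋, h2⟩))
    · exact Int.lt_floor_add_one t
  filter_upwards [h1] with t' ht'
  exact Int.floor_eq_iff.2 ⟨ht'.1.le, ht'.2⟩

private theorem floor_of_unit {t : ℝ} (h : 0 < t) (h' : t < 1) : ⌊t⌋ = 0 :=
  Int.floor_eq_iff.2 ⟨by push_cast; exact h.le, by push_cast; linarith⟩

private theorem floor_half {t : ℝ} (h : 0 < t) (h' : t < 1) : ⌊t + 1 / 2⌋ = 0 ∨ ⌊t + 1 / 2⌋ = 1 := by
  by_cases h2 : t < 1 / 2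
  · left
    exact Int.floor_eq_iff.2 ⟨by push_cast; linarith, by push_cast; linarith⟩
  · right
    exact Int.floor_eq_iff.2 ⟨by push_cast; linarith, by push_cast; linarith⟩

/-- far from the half integers near the integers -/
private theorem half_not_nr {r t : ℝ} (h0 : 0 < r) (h1 : r < 1 / 2) (h : Int.fract (t + 1 / 2) = 0) :
    ∀ᶠ t' in 𝓝 t, ¬ nr r t' := by
  obtain ⟨k, hk⟩ := Int.fract_eq_zero_iff.1 h
  have h2 : Real.cos (2 * Real.pi * t) < Real.cos (2 * Real.pi * r) := by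
    have e : t = 1 / 2 + ((k - 1 : ℤ) : ℝ) := by push_cast; linarith
    have e2 : 2 * Real.pi * t = Real.pi + ((k - 1 : ℤ) : ℝ) * (2 * Real.pi) := by
      rw [e]; ring
    rw [e2, Real.cos_add_int_mul_two_pi]
    exact Real.cos_lt_cos_of_nonneg_of_le_pi (by positivity) le_rfl (by nlinarith [Real.pi_pos])
  have h3 : IsOpen {t : ℝ | Real.cos (2 * Real.pi * t) < Real.cos (2 * Real.pi * r)} :=
    isOpen_lt (by fun_prop) continuous_const
  filter_upwards [h3.mem_nhds h2] with t' ht'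
  unfold nr
  rw [not_lt]
  exact le_of_lt ht'

theorem cut {f : X → ℝ × ℝ → ℂ} (hf : Nice α β f (fun _ => 0)) (h0 : MemLp (fl f) 2 (mu X))
    (h1 : MemLp (fl (dx f)) 2 (mu X)) (h2 : MemLp (fl (dy f)) 2 (mu X)) : trip f ∈ H1 α β := by
  obtain ⟨ρ, hρ, hρ', hz⟩ := corner_zero hf
  set r0 : ℝ := ρ / 2 with hr0
  set r1 : ℝ := 3 * ρ / 4 with hr1
  have a0 : 0 < r0 := by positivity
  have a01 : r0 < r1 := by rw [hr0, hr1]; linarith
  have a1 : r1 < 1 / 2 := by rw [hr1]; linarith
  have a1' : r1 ≤ ρ := by rw [hr1]; linarith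
  have a1'' : 0 < r1 := a0.trans a01
  have ssm : ContDiff ℝ (⊤ : ℕ∞) (fun t : ℝ => ((th r0 r1 t : ℝ) : ℂ)) :=
    Complex.ofRealCLM.contDiff.comp (th_smooth r0 r1)
  -- the three pieces
  have sx : ContDiff ℝ (⊤ : ℕ∞) (fun p : ℝ × ℝ => ((th r0 r1 p.1 : ℝ) : ℂ)) := ssm.comp contDiff_fst
  have sy : ContDiff ℝ (⊤ : ℕ∞) (fun p : ℝ × ℝ => ((th r0 r1 p.2 : ℝ) : ℂ)) := ssm.comp contDiff_snd
  obtain ⟨nv, v0, v1, v2⟩ := per_mul hf h0 h1 h2 _ sx
    (fun x y => by simp only [th_periodic]) (fun x y => rfl)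
  obtain ⟨nh, w0, w1, w2⟩ := per_mul hf h0 h1 h2 _ sy
    (fun x y => rfl) (fun x y => by simp only [th_periodic])
  obtain ⟨ni, i0, i1, i2⟩ := per_mul hf h0 h1 h2
    (fun p : ℝ × ℝ => 1 - ((th r0 r1 p.1 : ℝ) : ℂ) - ((th r0 r1 p.2 : ℝ) : ℂ))
    ((contDiff_const.sub sx).sub sy)
    (fun x y => by simp only [th_periodic]) (fun x y => by simp only [th_periodic])
  -- near an integral coordinate
  have nearInt : ∀ t : ℝ, Int.fract t = 0 → ∀ᶠ t' in 𝓝 t, nr r0 t' := by
    intro t ht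
    obtain ⟨k, hk⟩ := Int.fract_eq_zero_iff.1 ht
    refine (isOpen_nr r0).mem_nhds ?_
    rw [Set.mem_ofPred_eq, ← hk]
    exact nr_int a0 (by linarith) k
  have hv : trip (fun s p => ((th r0 r1 p.1 : ℝ) : ℂ) * f s p) ∈ H1 α β := by
    refine label_mem nv v0 v1 v2 (fun s p => (α ^ ⌊p.1 + 1 / 2⌋) ((β ^ ⌊p.2⌋) s)) ?_ ?_ ?_ ?_
    · rintro s ⟨x, y⟩ hp
      by_cases hy : Int.fract y = 0
      · left
        have e1 : ∀ᶠ q : ℝ × ℝ in 𝓝 (x, y), nr r0 q.2 :=
          (continuous_snd.tendsto (x, y)).eventually (nearInt y hy)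
        filter_upwards [e1, isOpen_Cross.mem_nhds hp] with q hq hqC
        by_cases hx : nr r1 q.1
        · rw [hz s q hqC (nr_mono a1''.le a1' hρ' hx) (nr_mono a0.le (a01.le.trans a1') hρ' hq),
            mul_zero]
        · rw [th_zero a0.le a01 a1.le hx]; simp
      by_cases hx : Int.fract (x + 1 / 2) = 0
      · left
        have e1 : ∀ᶠ q : ℝ × ℝ in 𝓝 (x, y), ¬ nr r1 q.1 :=
          (continuous_fst.tendsto (x, y)).eventually (half_not_nr a1'' a1 hx)
        filter_upwards [e1] with q hq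
        rw [th_zero a0.le a01 a1.le hq]; simp
      · right
        have e1 : ∀ᶠ q : ℝ × ℝ in 𝓝 (x, y), ⌊q.1 + 1 / 2⌋ = ⌊x + 1 / 2⌋ := by
          have h3 : Tendsto (fun q : ℝ × ℝ => q.1 + 1 / 2) (𝓝 (x, y)) (𝓝 (x + 1 / 2)) :=
            (continuous_fst.add continuous_const).tendsto (x, y)
          exact h3.eventually (floor_near hx)
        have e2 : ∀ᶠ q : ℝ × ℝ in 𝓝 (x, y), ⌊q.2⌋ = ⌊y⌋ :=
          (continuous_snd.tendsto (x, y)).eventually (floor_near hy)
        filter_upwards [e1, e2] with q h3 h4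
        simp only [h3, h4]
    · intro s x y hy hy'
      have e : ⌊x + 1 + 1 / 2⌋ = ⌊x + 1 / 2⌋ + 1 := by
        rw [← Int.floor_add_one]; congr 1; ring
      simp only [floor_of_unit hy hy', zpow_zero, Equiv.Perm.one_apply, e, zpow_add_one,
        Equiv.Perm.mul_apply]
    · intro s x y hx hx'
      simp only [Int.floor_add_one, zpow_add_one, Equiv.Perm.mul_apply]
    · intro t
      refine (Set.toFinite ({t, α.symm t} : Set X)).subset ?_
      rintro s ⟨⟨x, y⟩, hp, ht⟩
      simp only [floor_of_unit hp.2.1 hp.2.2, zpow_zero, Equiv.Perm.one_apply] at ht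
      rcases floor_half hp.1.1 hp.1.2 with h | h <;> simp only [h] at ht
      · left; simpa using ht
      · right
        rw [Set.mem_singleton_iff, Equiv.eq_symm_apply]
        simpa using ht
  have hh : trip (fun s p => ((th r0 r1 p.2 : ℝ) : ℂ) * f s p) ∈ H1 α β := by
    refine label_mem nh w0 w1 w2 (fun s p => (β ^ ⌊p.2 + 1 / 2⌋) ((α ^ ⌊p.1⌋) s)) ?_ ?_ ?_ ?_
    · rintro s ⟨x, y⟩ hp
      by_cases hy : Int.fract x = 0
      · left
        have e1 : ∀ᶠ q : ℝ × ℝ in 𝓝 (x, y), nr r0 q.1 :=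
          (continuous_fst.tendsto (x, y)).eventually (nearInt x hy)
        filter_upwards [e1, isOpen_Cross.mem_nhds hp] with q hq hqC
        by_cases hx : nr r1 q.2
        · rw [hz s q hqC (nr_mono a0.le (a01.le.trans a1') hρ' hq) (nr_mono a1''.le a1' hρ' hx),
            mul_zero]
        · rw [th_zero a0.le a01 a1.le hx]; simp
      by_cases hx : Int.fract (y + 1 / 2) = 0
      · left
        have e1 : ∀ᶠ q : ℝ × ℝ in 𝓝 (x, y), ¬ nr r1 q.2 :=
          (continuous_snd.tendsto (x, y)).eventually (half_not_nr a1'' a1 hx)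
        filter_upwards [e1] with q hq
        rw [th_zero a0.le a01 a1.le hq]; simp
      · right
        have e1 : ∀ᶠ q : ℝ × ℝ in 𝓝 (x, y), ⌊q.2 + 1 / 2⌋ = ⌊y + 1 / 2⌋ := by
          have h3 : Tendsto (fun q : ℝ × ℝ => q.2 + 1 / 2) (𝓝 (x, y)) (𝓝 (y + 1 / 2)) :=
            (continuous_snd.add continuous_const).tendsto (x, y)
          exact h3.eventually (floor_near hx)
        have e2 : ∀ᶠ q : ℝ × ℝ in 𝓝 (x, y), ⌊q.1⌋ = ⌊x⌋ :=
          (continuous_fst.tendsto (x, y)).eventually (floor_near hy)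
        filter_upwards [e1, e2] with q h3 h4
        simp only [h3, h4]
    · intro s x y hx hx'
      simp only [Int.floor_add_one, zpow_add_one, Equiv.Perm.mul_apply]
    · intro s x y hy hy'
      have e : ⌊y + 1 + 1 / 2⌋ = ⌊y + 1 / 2⌋ + 1 := by
        rw [← Int.floor_add_one]; congr 1; ring
      simp only [floor_of_unit hy hy', zpow_zero, Equiv.Perm.one_apply, e, zpow_add_one,
        Equiv.Perm.mul_apply]
    · intro t
      refine (Set.toFinite ({t, β.symm t} : Set X)).subset ?_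
      rintro s ⟨⟨x, y⟩, hp, ht⟩
      simp only [floor_of_unit hp.1.1 hp.1.2, zpow_zero, Equiv.Perm.one_apply] at ht
      rcases floor_half hp.2.1 hp.2.2 with h | h <;> simp only [h] at ht
      · left; simpa using ht
      · right
        rw [Set.mem_singleton_iff, Equiv.eq_symm_apply]
        simpa using ht
  have hi : trip (fun s p => (1 - ((th r0 r1 p.1 : ℝ) : ℂ) - ((th r0 r1 p.2 : ℝ) : ℂ)) * f s p) ∈
      H1 α β := by
    refine label_mem ni i0 i1 i2 (fun s p => (α ^ ⌊p.1⌋) ((β ^ ⌊p.2⌋) s)) ?_ ?_ ?_ ?_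
    · rintro s ⟨x, y⟩ hp
      by_cases hx : Int.fract x = 0
      · left
        have e1 : ∀ᶠ q : ℝ × ℝ in 𝓝 (x, y), nr r0 q.1 :=
          (continuous_fst.tendsto (x, y)).eventually (nearInt x hx)
        filter_upwards [e1, isOpen_Cross.mem_nhds hp] with q hq hqC
        by_cases hy : nr r1 q.2
        · rw [hz s q hqC (nr_mono a0.le (a01.le.trans a1') hρ' hq) (nr_mono a1''.le a1' hρ' hy),
            mul_zero]
        · rw [th_zero a0.le a01 a1.le hy, th_one a0.le a01 a1.le hq]; simp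
      by_cases hy : Int.fract y = 0
      · left
        have e1 : ∀ᶠ q : ℝ × ℝ in 𝓝 (x, y), nr r0 q.2 :=
          (continuous_snd.tendsto (x, y)).eventually (nearInt y hy)
        filter_upwards [e1, isOpen_Cross.mem_nhds hp] with q hq hqC
        by_cases hx : nr r1 q.1
        · rw [hz s q hqC (nr_mono a1''.le a1' hρ' hx) (nr_mono a0.le (a01.le.trans a1') hρ' hq),
            mul_zero]
        · rw [th_zero a0.le a01 a1.le hx, th_one a0.le a01 a1.le hq]; simp
      · right
        have e1 : ∀ᶠ q : ℝ × ℝ in 𝓝 (x, y), ⌊q.1⌋ = ⌊x⌋ :=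
          (continuous_fst.tendsto (x, y)).eventually (floor_near hx)
        have e2 : ∀ᶠ q : ℝ × ℝ in 𝓝 (x, y), ⌊q.2⌋ = ⌊y⌋ :=
          (continuous_snd.tendsto (x, y)).eventually (floor_near hy)
        filter_upwards [e1, e2] with q h3 h4
        simp only [h3, h4]
    · intro s x y hy hy'
      simp only [floor_of_unit hy hy', zpow_zero, Equiv.Perm.one_apply, Int.floor_add_one,
        zpow_add_one, Equiv.Perm.mul_apply]
    · intro s x y hx hx'
      simp only [Int.floor_add_one, zpow_add_one, Equiv.Perm.mul_apply]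
    · intro t
      refine (Set.toFinite ({t} : Set X)).subset ?_
      rintro s ⟨⟨x, y⟩, hp, ht⟩
      simp only [floor_of_unit hp.1.1 hp.1.2, floor_of_unit hp.2.1 hp.2.2, zpow_zero,
        Equiv.Perm.one_apply] at ht
      exact ht
  -- sum
  have e1 := trip_add nv nh v0 v1 v2 w0 w1 w2
  have nvh := nice_add nv nh
  have e2 : trip f = trip (fun s p => ((th r0 r1 p.1 : ℝ) : ℂ) * f s p) +
      trip (fun s p => ((th r0 r1 p.2 : ℝ) : ℂ) * f s p) +
      trip (fun s p => (1 - ((th r0 r1 p.1 : ℝ) : ℂ) - ((th r0 r1 p.2 : ℝ) : ℂ)) * f s p) := by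
    rw [← e1]
    obtain ⟨_, u0, u1, u2⟩ := per_mul hf h0 h1 h2
      (fun p : ℝ × ℝ => ((th r0 r1 p.1 : ℝ) : ℂ) + ((th r0 r1 p.2 : ℝ) : ℂ)) (sx.add sy)
      (fun x y => by simp only [th_periodic]) (fun x y => by simp only [th_periodic])
    have e3 : (fun (s : X) (p : ℝ × ℝ) => (((th r0 r1 p.1 : ℝ) : ℂ) + ((th r0 r1 p.2 : ℝ) : ℂ)) * f s p) =
        fun s p => ((th r0 r1 p.1 : ℝ) : ℂ) * f s p + ((th r0 r1 p.2 : ℝ) : ℂ) * f s p := by
      funext s p; ring
    rw [e3] at u0 u1 u2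
    rw [← trip_add nvh ni u0 u1 u2 i0 i1 i2]
    congr 1
    funext s p
    ring
  rw [e2]
  exact add_mem (add_mem hv hh) hi


/-! ### square summable invariant functions -/

private theorem sum_comp {v : X → ℝ} (h2 : L2s v) (g : Equiv.Perm X) :
    Summable (fun x => (v (g x) - v x) ^ 2) ∧
      ∑' x, (v (g x) - v x) ^ 2 ≤ 4 * ∑' x, (v x) ^ 2 := by
  have h3 : Summable fun x => (v (g x)) ^ 2 := (Equiv.summable_iff g (f := fun x => (v x) ^ 2)).2 h2
  have h4 : Summable fun x => 2 * (v (g x)) ^ 2 + 2 * (v x) ^ 2 :=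
    (h3.mul_left 2).add (h2.mul_left 2)
  have hb : ∀ x, (v (g x) - v x) ^ 2 ≤ 2 * (v (g x)) ^ 2 + 2 * (v x) ^ 2 := fun x => by
    nlinarith [sq_nonneg (v (g x) + v x)]
  have h5 : Summable (fun x => (v (g x) - v x) ^ 2) :=
    Summable.of_nonneg_of_le (fun x => sq_nonneg _) hb h4
  refine ⟨h5, (h5.tsum_le_tsum hb h4).trans ?_⟩
  rw [(h3.mul_left 2).tsum_add (h2.mul_left 2), tsum_mul_left, tsum_mul_left,
    Equiv.tsum_eq g (fun x => (v x) ^ 2)]
  linarith

private theorem inW_L2s {v : X → ℝ} (hinv : ∀ x, v (zeta α β x) = v x) (h2 : L2s v) :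
    InW α β v := by
  refine ⟨⟨1 + ∑' x, (v x) ^ 2, fun x => ?_⟩, hinv, (sum_comp h2 α).1, (sum_comp h2 β).1⟩
  have h3 : (v x) ^ 2 ≤ ∑' x, (v x) ^ 2 := h2.le_tsum x fun j _ => sq_nonneg _
  have h4 : |v x| ^ 2 = v x ^ 2 := sq_abs _
  nlinarith [sq_nonneg (|v x| - 1), abs_nonneg (v x)]

private theorem phi_unit (c : X → ℂ) (s : X) (p : ℝ × ℝ) (hp : p ∈ unitSq) (h1 : c s = 0)
    (h2 : c (α s) = 0) (h3 : c (β s) = 0) (h4 : c (β (α s)) = 0) : Phi α β c s p = 0 := by
  simp only [Phi, ext, floor_of_unit hp.1.1 hp.1.2, floor_of_unit hp.2.1 hp.2.2, zpow_zero,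
    Equiv.Perm.one_apply, h1, h2, h3, h4, mul_zero, add_zero]

theorem phi0 {w : X → ℝ} (hw : InW α β w) (h2 : L2s w) : trip (Phi α β (toC w)) ∈ H1 α β := by
  classical
  set wn : ℕ → X → ℝ := fun n x => if 1 / ((n : ℝ) + 1) ≤ |w x| then w x else 0 with hwn
  have hle : ∀ n x, (wn n x) ^ 2 ≤ (w x) ^ 2 := by
    intro n x
    simp only [hwn]
    split_ifs
    · exact le_rfl
    · rw [zero_pow two_ne_zero]; exact sq_nonneg _
  have hle' : ∀ n x, (w x - wn n x) ^ 2 ≤ (w x) ^ 2 := by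
    intro n x
    simp only [hwn]
    split_ifs
    · rw [sub_self, zero_pow two_ne_zero]; exact sq_nonneg _
    · rw [sub_zero]
  have hL : ∀ n, L2s (wn n) := fun n =>
    Summable.of_nonneg_of_le (fun x => sq_nonneg _) (hle n) h2
  have hL' : ∀ n, L2s (fun x => w x - wn n x) := fun n =>
    Summable.of_nonneg_of_le (fun x => sq_nonneg _) (hle' n) h2
  have hinv : ∀ n x, wn n (zeta α β x) = wn n x := by
    intro n x
    simp only [hwn, hw.inv]
  have hW : ∀ n, InW α β (wn n) := fun n => inW_L2s (hinv n) (hL n)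
  have hW' : ∀ n, InW α β (fun x => w x - wn n x) := fun n => inW_L2s (fun x => by
    simp only [hinv, hw.inv]) (hL' n)
  have hnice : ∀ v : X → ℝ, InW α β v → Nice α β (Phi α β (toC v)) (toC v) := fun v hv =>
    nice_Phi (fun s => by simp only [toC, hv.inv])
  have hfin : ∀ n, {x | wn n x ≠ 0}.Finite := by
    intro n
    have h3 := h2.tendsto_cofinite_zero
    have h4 : ∀ᶠ x in cofinite, (w x) ^ 2 < (1 / ((n : ℝ) + 1)) ^ 2 :=
      h3.eventually (gt_mem_nhds (by positivity))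
    refine (Filter.eventually_cofinite.1 h4).subset ?_
    intro x hx hx'
    apply hx
    simp only [hwn]
    rw [if_neg]
    intro h5
    rw [← sq_abs (w x)] at hx'
    have : (1 / ((n : ℝ) + 1)) ^ 2 ≤ |w x| ^ 2 := pow_le_pow_left₀ (by positivity) h5 2
    linarith
  have hS : ∀ n, FinS (Phi α β (toC (wn n))) := by
    intro n
    set T := {x | wn n x ≠ 0} with hT
    have hU : (T ∪ (α ⁻¹' T) ∪ (β ⁻¹' T) ∪ ((fun x => β (α x)) ⁻¹' T)).Finite := by
      refine (((hfin n).union ?_).union ?_).union ?_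
      · exact (hfin n).preimage α.injective.injOn
      · exact (hfin n).preimage β.injective.injOn
      · exact (hfin n).preimage (β.injective.comp α.injective).injOn
    refine ⟨hU.toFinset, fun s hs p hp => ?_⟩
    rw [Set.Finite.mem_toFinset] at hs
    simp only [Set.mem_union, Set.mem_preimage, not_or] at hs
    obtain ⟨⟨⟨s1, s2⟩, s3⟩, s4⟩ := hs
    have hh : ∀ x, x ∉ T → toC (wn n) x = 0 := by
      intro x hx
      have : wn n x = 0 := by
        by_contra h
        exact hx h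
      simp only [toC, this, Complex.ofReal_zero]
    exact phi_unit _ s p hp (hh _ s1) (hh _ s2) (hh _ s3) (hh _ s4)
  obtain ⟨C1, hC1⟩ := Phi_energy_le (α := α) (β := β)
  obtain ⟨C2, hC2⟩ := Phi_L2_le (α := α) (β := β)
  -- difference
  have hdiff : ∀ n, trip (Phi α β (toC w)) - trip (Phi α β (toC (wn n))) =
      trip (Phi α β (toC (fun x => w x - wn n x))) := by
    intro n
    rw [sub_eq_iff_eq_add']
    rw [← trip_add (hnice _ (hW n)) (hnice _ (hW' n)) ((Phi_L2_iff (hW n)).2 (hL n))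
      (Phi_energy (hW n)).1 (Phi_energy (hW n)).2 ((Phi_L2_iff (hW' n)).2 (hL' n))
      (Phi_energy (hW' n)).1 (Phi_energy (hW' n)).2]
    congr 1
    funext s p
    rw [← Phi_add]
    congr 1
    funext x
    simp only [toC]
    push_cast
    ring
  have hnorm : ∀ n, ‖trip (Phi α β (toC w)) - trip (Phi α β (toC (wn n)))‖ ^ 2 ≤
      (|C2| + |C1| * 8) * ∑' x, (w x - wn n x) ^ 2 := by
    intro n
    set v : X → ℝ := fun x => w x - wn n x with hv
    have m0 := (Phi_L2_iff (hW' n)).2 (hL' n)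
    have m12 := Phi_energy (hW' n)
    rw [hdiff, PiLp.norm_sq_eq_of_L2, Fin.sum_univ_three]
    have e0 : ‖(trip (Phi α β (toC v))) 0‖ ^ 2 = ∫ q, ‖fl (Phi α β (toC v)) q‖ ^ 2 ∂(mu X) :=
      cls_norm m0
    have e1 : ‖(trip (Phi α β (toC v))) 1‖ ^ 2 = ∫ q, ‖fl (dx (Phi α β (toC v))) q‖ ^ 2 ∂(mu X) :=
      cls_norm m12.1
    have e2 : ‖(trip (Phi α β (toC v))) 2‖ ^ 2 = ∫ q, ‖fl (dy (Phi α β (toC v))) q‖ ^ 2 ∂(mu X) :=
      cls_norm m12.2
    rw [e0, e1, e2]
    have b0 := hC2 v (hW' n) (hL' n)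
    have b1 := hC1 v (hW' n)
    have t0 : 0 ≤ ∑' x, (v x) ^ 2 := tsum_nonneg fun x => sq_nonneg _
    have ta := (sum_comp (hL' n) α).2
    have tb := (sum_comp (hL' n) β).2
    have ta0 : 0 ≤ ∑' x, (v (α x) - v x) ^ 2 := tsum_nonneg fun x => sq_nonneg _
    have tb0 : 0 ≤ ∑' x, (v (β x) - v x) ^ 2 := tsum_nonneg fun x => sq_nonneg _
    have c2 : C2 * ∑' x, (v x) ^ 2 ≤ |C2| * ∑' x, (v x) ^ 2 :=
      mul_le_mul_of_nonneg_right (le_abs_self _) t0
    have c1 : C1 * (∑' x, (v (α x) - v x) ^ 2 + ∑' x, (v (β x) - v x) ^ 2) ≤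
        |C1| * (8 * ∑' x, (v x) ^ 2) := by
      refine (mul_le_mul_of_nonneg_right (le_abs_self _) (by positivity)).trans ?_
      refine mul_le_mul_of_nonneg_left ?_ (abs_nonneg _)
      simp only [hv] at ta tb ⊢
      linarith
    calc _ = (∫ q, ‖fl (Phi α β (toC v)) q‖ ^ 2 ∂(mu X)) +
          (∫ q, ‖fl (dx (Phi α β (toC v))) q‖ ^ 2 ∂(mu X) +
            ∫ q, ‖fl (dy (Phi α β (toC v))) q‖ ^ 2 ∂(mu X)) := by ring
      _ ≤ |C2| * ∑' x, (v x) ^ 2 + |C1| * (8 * ∑' x, (v x) ^ 2) :=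
          add_le_add (b0.trans c2) (b1.trans c1)
      _ = _ := by ring
  have hlim : Tendsto (fun n => ∑' x, (w x - wn n x) ^ 2) atTop (𝓝 0) := by
    have h3 := tendsto_tsum_of_dominated_convergence (𝓕 := (atTop : Filter ℕ))
      (f := fun n x => (w x - wn n x) ^ 2) (g := fun _ => (0 : ℝ)) (bound := fun x => (w x) ^ 2) h2
      (by
        intro x
        by_cases hx : w x = 0
        · refine tendsto_const_nhds.congr fun n => ?_
          simp only [hwn, hx, ite_self, sub_self]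
          norm_num
        · refine tendsto_const_nhds.congr' ?_
          have h4 : ∀ᶠ n : ℕ in atTop, 1 / ((n : ℝ) + 1) < |w x| :=
            tendsto_one_div_add_atTop_nhds_zero_nat.eventually (gt_mem_nhds (abs_pos.2 hx))
          filter_upwards [h4] with n hn
          simp only [hwn, if_pos hn.le, sub_self]
          norm_num)
      (Eventually.of_forall fun n x => by
        rw [Real.norm_eq_abs, abs_of_nonneg (sq_nonneg _)]
        exact hle' n x)
    simpa using h3
  refine H1_closed.mem_of_tendsto (f := fun n => trip (Phi α β (toC (wn n)))) (b := atTop) ?_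
    (Eventually.of_forall fun n => trip_mem (hnice _ (hW n)) (hS n))
  rw [tendsto_iff_norm_sub_tendsto_zero]
  have h5 : Tendsto (fun n => Real.sqrt ((|C2| + |C1| * 8) * ∑' x, (w x - wn n x) ^ 2)) atTop
      (𝓝 0) := by
    have h6 := (Real.continuous_sqrt.tendsto 0).comp
      ((by simpa using hlim.const_mul (|C2| + |C1| * 8) :
        Tendsto (fun n => (|C2| + |C1| * 8) * ∑' x, (w x - wn n x) ^ 2) atTop (𝓝 0)))
    rw [Real.sqrt_zero] at h6
    exact h6
  refine squeeze_zero (fun n => norm_nonneg _) (fun n => ?_) h5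
  rw [norm_sub_rev]
  exact Real.le_sqrt_of_sq_le (hnorm n)

end Pool.Agent.Helper96.OF
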