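import Pool.Agent.Helper96.OF.FT9b

/-!
# OF-FT9 (CHAIN, PROD)

`chain`: take real nice FinS `f n` with `trip (f n) → ψ` (mem_H1_real), pass to a subsequence converging a.e. in all three components (`TendstoInMeasure`/`Lp` subsequence). `κ(Φ+f n) - κ(Φ)` is nice and FinS (nice_comp), its
triple is `(κ(Φ+f_n)-κ(Φ), κ'(Φ+f_n)(Φ_x+f_{n,x}) - κ'(Φ)Φ_x, …)`. L²-limits: first component: κ Lipschitz. Second: `κ'(Φ+f_n) f_{n,x} → κ'(Φ+ψ)ψ_x` (κ' bounded; `κ'(Φ+f_n)(f_{n,x}-ψ_x) → 0`, and `(κ'(Φ+f_n)-κ'(Φ+ψ0))ψ_x → 0` by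
dominated convergence), same for `(κ'(Φ+f_n)-κ'(Φ+ψ0))Φ_x`. H1 is closed.
`bdd_approx`: for v ∈ H1 (complex) with |v 0| ≤ C a.e.: treat a smooth radial truncation `K : ℂ → ℂ`, K z = z for |z| ≤ C, |K| ≤ C+1, bounded derivative, and `K ∘ f_n` (a.e. subsequence, dominated convergence as above).
`prod`: F = Φ_w + ψ bounded by C (ψ real), g ∈ H1 bounded. Approximate: F_n = κ(Φ_w+f_n) with κ a smooth truncation at level C, g_n from bdd_approx; `F_n g_n` is nice FinS; product rule; limits by dominated convergence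
(F_n → F, g_n → g a.e. and bounded, derivatives in L²).
`prod_D`: a nice FinS multiplier: if f is nice and FinS, g ∈ H1 then f g ∈ H1.
-/

set_option autoImplicit false

open MeasureTheory Filter Topology

namespace Pool.Agent.Helper96.OF

variable {X : Type} [Countable X] [MeasurableSpace X] [DiscreteMeasurableSpace X] {α β : Equiv.Perm X}

theorem ft9_K_fderiv {κ : ℝ → ℝ} (hκ : ContDiff ℝ (⊤ : ℕ∞) κ) (z v : ℂ) :
    fderiv ℝ (fun z : ℂ => ((κ z.re : ℝ) : ℂ)) z v = ((deriv κ z.re * v.re : ℝ) : ℂ) := by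
  have h1 : HasDerivAt κ (deriv κ z.re) z.re := (hκ.differentiable (by norm_num) _).hasDerivAt
  have h2 : HasFDerivAt (fun z : ℂ => κ z.re) ((deriv κ z.re) • Complex.reCLM) z :=
    h1.comp_hasFDerivAt z Complex.reCLM.hasFDerivAt
  have h3 : HasFDerivAt (fun z : ℂ => ((κ z.re : ℝ) : ℂ))
      (Complex.ofRealCLM.comp ((deriv κ z.re) • Complex.reCLM)) z :=
    Complex.ofRealCLM.hasFDerivAt.comp z h2
  rw [h3.fderiv]
  simp

theorem ft9_RealT_ae {ψ : K3 X} (hr : RealT ψ) (i : Fin 3) :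
    ∀ᵐ q ∂(mu X), (starRingEnd ℂ) ((ψ i : Sq X → ℂ) q) = (ψ i : Sq X → ℂ) q := by
  have h1 := JK_ae (ψ i)
  rw [hr i] at h1
  filter_upwards [h1] with q hq
  exact hq.symm

theorem ft9_realT_of {v : K3 X}
    (h : ∀ i, ∀ᵐ q ∂(mu X), (starRingEnd ℂ) ((v i : Sq X → ℂ) q) = (v i : Sq X → ℂ) q) : RealT v := by
  intro i
  refine Lp.ext ?_
  filter_upwards [JK_ae (v i), h i] with q h1 h2
  rw [h1, h2]

theorem ft9_Phi_dx_real {w : X → ℝ} (hw : InW α β w) (s : X) (p : ℝ × ℝ) (hp : p ∈ unitSq) :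
    (dx (Phi α β (toC w)) s p).im = 0 ∧ (dy (Phi α β (toC w)) s p).im = 0 := by
  have hP : Nice α β (Phi α β (toC w)) (toC w) := nice_Phi (fun s => by simp [toC, hw.inv s])
  obtain ⟨C, hC⟩ := hw.bdd
  have h1 := dx_conj hP s p (unitSq_subset_Cross hp)
  have h2 : (fun s p => (starRingEnd ℂ) (Phi α β (toC w) s p)) = Phi α β (toC w) := by
    funext s p
    exact Complex.conj_eq_iff_im.2 (Phi_bound hC s p).2
  rw [h2] at h1
  exact ⟨Complex.conj_eq_iff_im.1 h1.1.symm, Complex.conj_eq_iff_im.1 h1.2.symm⟩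

theorem chain {w : X → ℝ} (hw : InW α β w) {ψ : K3 X} (hψ : ψ ∈ H1 α β) (hr : RealT ψ)
    (κ : ℝ → ℝ) (hκ : ContDiff ℝ (⊤ : ℕ∞) κ) (C : ℝ) (hC : ∀ t, |deriv κ t| ≤ C) :
    ∃ v ∈ H1 α β, RealT v ∧
      ((v 0 : Sq X → ℂ) =ᵐ[mu X] fun q =>
        ((κ (fl (Phi α β (toC w)) q + (ψ 0 : Sq X → ℂ) q).re - κ (fl (Phi α β (toC w)) q).re : ℝ) : ℂ)) ∧
      ((v 1 : Sq X → ℂ) =ᵐ[mu X] fun q =>
        ((deriv κ (fl (Phi α β (toC w)) q + (ψ 0 : Sq X → ℂ) q).re : ℝ) : ℂ) *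
          (fl (dx (Phi α β (toC w))) q + (ψ 1 : Sq X → ℂ) q) -
        ((deriv κ (fl (Phi α β (toC w)) q).re : ℝ) : ℂ) * fl (dx (Phi α β (toC w))) q) ∧
      ((v 2 : Sq X → ℂ) =ᵐ[mu X] fun q =>
        ((deriv κ (fl (Phi α β (toC w)) q + (ψ 0 : Sq X → ℂ) q).re : ℝ) : ℂ) *
          (fl (dy (Phi α β (toC w))) q + (ψ 2 : Sq X → ℂ) q) -
        ((deriv κ (fl (Phi α β (toC w)) q).re : ℝ) : ℂ) * fl (dy (Phi α β (toC w))) q) := by
  have hP : Nice α β (Phi α β (toC w)) (toC w) := nice_Phi (fun s => by simp [toC, hw.inv s])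
  obtain ⟨hP1, hP2⟩ := Phi_energy hw
  have hC0 : 0 ≤ C := (abs_nonneg (deriv κ 0)).trans (hC 0)
  have hK : ContDiff ℝ (⊤ : ℕ∞) (fun z : ℂ => ((κ z.re : ℝ) : ℂ)) :=
    Complex.ofRealCLM.contDiff.comp (hκ.comp Complex.reCLM.contDiff)
  have hM : ∀ z, ‖fderiv ℝ (fun z : ℂ => ((κ z.re : ℝ) : ℂ)) z‖ ≤ C := by
    intro z
    refine ContinuousLinearMap.opNorm_le_bound _ hC0 fun v => ?_
    rw [ft9_K_fderiv hκ, Complex.norm_real, Real.norm_eq_abs, abs_mul]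
    exact mul_le_mul (hC _) (Complex.abs_re_le_norm v) (abs_nonneg _) hC0
  obtain ⟨f, c, hf, hlim⟩ := (mem_H1_iff ψ).1 hψ
  obtain ⟨k, hk, hlim', hae⟩ := ft9_sub_ae hf hlim
  have t0 := ft9_core_0 hP hP1 hP2 (fun n => hf (k n)) hlim' hae hK hM
  obtain ⟨t1, t2⟩ := ft9_core_sub hP hP1 hP2 (fun n => hf (k n)) hlim' hae hK hM
  obtain ⟨v, hv, v0, v1, v2⟩ := ft9_H1_of_T2 (fun n => ft9_nice_Ksub hP (hf (k n)) hK) t0 t1 t2
  have hre : ∀ i, ∀ᵐ q ∂(mu X), (((ψ i : Sq X → ℂ) q).im = 0) := by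
    intro i
    filter_upwards [ft9_RealT_ae hr i] with q hq
    exact Complex.conj_eq_iff_im.1 hq
  have hd : ∀ᵐ q ∂(mu X), (fl (dx (Phi α β (toC w))) q).im = 0 ∧
      (fl (dy (Phi α β (toC w))) q).im = 0 :=
    ft9_ae_unit _ fun s p hp => ft9_Phi_dx_real hw s p hp
  have e0 : (v 0 : Sq X → ℂ) =ᵐ[mu X] fun q =>
        ((κ (fl (Phi α β (toC w)) q + (ψ 0 : Sq X → ℂ) q).re - κ (fl (Phi α β (toC w)) q).re : ℝ) : ℂ) := by
    filter_upwards [v0] with q hq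
    rw [hq]
    push_cast
    rfl
  have e1 : (v 1 : Sq X → ℂ) =ᵐ[mu X] fun q =>
        ((deriv κ (fl (Phi α β (toC w)) q + (ψ 0 : Sq X → ℂ) q).re : ℝ) : ℂ) *
          (fl (dx (Phi α β (toC w))) q + (ψ 1 : Sq X → ℂ) q) -
        ((deriv κ (fl (Phi α β (toC w)) q).re : ℝ) : ℂ) * fl (dx (Phi α β (toC w))) q := by
    filter_upwards [v1, hre 1, hd] with q hq h1 h2
    rw [hq, ft9_K_fderiv hκ, ft9_K_fderiv hκ, Complex.ofReal_mul, Complex.ofReal_mul]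
    have h3 : (((fl (dx (Phi α β (toC w))) q + (ψ 1 : Sq X → ℂ) q).re : ℝ) : ℂ) =
        fl (dx (Phi α β (toC w))) q + (ψ 1 : Sq X → ℂ) q :=
      Complex.ext (by simp) (by simp [h1, h2.1])
    have h4 : (((fl (dx (Phi α β (toC w))) q).re : ℝ) : ℂ) = fl (dx (Phi α β (toC w))) q :=
      Complex.ext (by simp) (by simp [h2.1])
    rw [h3, h4]
  have e2 : (v 2 : Sq X → ℂ) =ᵐ[mu X] fun q =>
        ((deriv κ (fl (Phi α β (toC w)) q + (ψ 0 : Sq X → ℂ) q).re : ℝ) : ℂ) *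
          (fl (dy (Phi α β (toC w))) q + (ψ 2 : Sq X → ℂ) q) -
        ((deriv κ (fl (Phi α β (toC w)) q).re : ℝ) : ℂ) * fl (dy (Phi α β (toC w))) q := by
    filter_upwards [v2, hre 2, hd] with q hq h1 h2
    rw [hq, ft9_K_fderiv hκ, ft9_K_fderiv hκ, Complex.ofReal_mul, Complex.ofReal_mul]
    have h3 : (((fl (dy (Phi α β (toC w))) q + (ψ 2 : Sq X → ℂ) q).re : ℝ) : ℂ) =
        fl (dy (Phi α β (toC w))) q + (ψ 2 : Sq X → ℂ) q :=
      Complex.ext (by simp) (by simp [h1, h2.2])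
    have h4 : (((fl (dy (Phi α β (toC w))) q).re : ℝ) : ℂ) = fl (dy (Phi α β (toC w))) q :=
      Complex.ext (by simp) (by simp [h2.2])
    rw [h3, h4]
  refine ⟨v, hv, ft9_realT_of ?_, e0, e1, e2⟩
  intro i
  fin_cases i
  · filter_upwards [v0] with q hq
    show (starRingEnd ℂ) ((v 0 : Sq X → ℂ) q) = (v 0 : Sq X → ℂ) q
    rw [hq, map_sub, Complex.conj_ofReal, Complex.conj_ofReal]
  · filter_upwards [v1] with q hq
    show (starRingEnd ℂ) ((v 1 : Sq X → ℂ) q) = (v 1 : Sq X → ℂ) q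
    rw [hq, ft9_K_fderiv hκ, ft9_K_fderiv hκ, map_sub, Complex.conj_ofReal, Complex.conj_ofReal]
  · filter_upwards [v2] with q hq
    show (starRingEnd ℂ) ((v 2 : Sq X → ℂ) q) = (v 2 : Sq X → ℂ) q
    rw [hq, ft9_K_fderiv hκ, ft9_K_fderiv hκ, map_sub, Complex.conj_ofReal, Complex.conj_ofReal]

theorem ft9_mu_pos (s : X) : mu X ({s} ×ˢ unitSq) = 1 := by
  have h1 : (volume : Measure (ℝ × ℝ)) unitSq = 1 := by
    rw [unitSq, Measure.volume_eq_prod, Measure.prod_prod, Real.volume_Ioo]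
    simp
  rw [mu, Measure.prod_prod, Measure.restrict_apply_self, h1, Measure.count_singleton, one_mul]

theorem ft9_nonneg_of_ae (s : X) {u : Sq X → ℂ} {C : ℝ} (h : ∀ᵐ q ∂(mu X), ‖u q‖ ≤ C) : 0 ≤ C := by
  by_contra hC
  push Not at hC
  have h1 : ∀ᵐ q ∂(mu X), False := by
    filter_upwards [h] with q hq
    exact absurd (norm_nonneg (u q)) (by linarith)
  have h2 : mu X = 0 := by
    rw [← ae_eq_bot]
    exact Filter.empty_mem_iff_bot.1 h1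
  have h3 := ft9_mu_pos s
  rw [h2] at h3
  simp at h3

theorem ft9_cls_coe (v : KK X) : cls (v : Sq X → ℂ) = v :=
  Lp.ext (cls_ae (Lp.memLp v))

theorem bdd_approx {v : K3 X} (hv : v ∈ H1 α β) (C : ℝ)
    (hC : ∀ᵐ q ∂(mu X), ‖(v 0 : Sq X → ℂ) q‖ ≤ C) :
    ∃ (f : ℕ → X → ℝ × ℝ → ℂ) (c : ℕ → X → ℂ), (∀ n, Nice α β (f n) (c n) ∧ FinS (f n) ∧
      ∀ s p, ‖f n s p‖ ≤ C + 1) ∧ Tendsto (fun n => trip (f n)) atTop (𝓝 v) ∧
      ∀ᵐ q ∂(mu X), Tendsto (fun n => fl (f n) q) atTop (𝓝 ((v 0 : Sq X → ℂ) q)) := by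
  by_cases hX : Nonempty X
  swap
  · have hX' : IsEmpty X := not_nonempty_iff.1 hX
    refine ⟨fun _ _ _ => 0, fun _ _ => 0, fun n => ⟨nice_const 0, ⟨∅, fun s => isEmptyElim s⟩,
      fun s => isEmptyElim s⟩, ?_, Eventually.of_forall fun q => isEmptyElim q.1⟩
    have h1 : trip (fun (_ : X) (_ : ℝ × ℝ) => (0 : ℂ)) = v := by
      refine PiLp.ext fun i => Lp.ext (Eventually.of_forall fun q => isEmptyElim q.1)
    show Tendsto (fun _ : ℕ => trip (fun (_ : X) (_ : ℝ × ℝ) => (0 : ℂ))) atTop (𝓝 v)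
    rw [h1]
    exact tendsto_const_nhds
  obtain ⟨s0⟩ := hX
  have hC0 : 0 ≤ C := ft9_nonneg_of_ae s0 hC
  obtain ⟨K, M, hK, hK0, hKb, hM, hKid, hKd⟩ := ft9_exists_trunc C hC0
  obtain ⟨f, c, hf, hlim⟩ := (mem_H1_iff v).1 hv
  obtain ⟨k, hk, hlim', hae⟩ := ft9_sub_ae hf hlim
  have hP : Nice α β (fun (_ : X) (_ : ℝ × ℝ) => (0 : ℂ)) (fun _ => 0) := nice_const 0
  have hdx : fl (dx (fun (_ : X) (_ : ℝ × ℝ) => (0 : ℂ))) = fun _ => 0 := by
    funext q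
    simp [fl, dx]
  have hdy : fl (dy (fun (_ : X) (_ : ℝ × ℝ) => (0 : ℂ))) = fun _ => 0 := by
    funext q
    simp [fl, dy]
  have hP1 : MemLp (fl (dx (fun (_ : X) (_ : ℝ × ℝ) => (0 : ℂ)))) 2 (mu X) := by
    rw [hdx]; exact MemLp.zero'
  have hP2 : MemLp (fl (dy (fun (_ : X) (_ : ℝ × ℝ) => (0 : ℂ)))) 2 (mu X) := by
    rw [hdy]; exact MemLp.zero'
  have t0 := ft9_core_0 hP hP1 hP2 (fun n => hf (k n)) hlim' hae hK hM
  obtain ⟨t1, t2⟩ := ft9_core_D hP hP1 hP2 (fun n => hf (k n)) hlim' hae hK hM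
  have z1 : ∀ n, (fun s p => K ((0 : ℂ) + f (k n) s p)) = fun s p => K (f (k n) s p) := by
    intro n
    funext s p
    rw [zero_add]
  simp only [z1] at t1 t2
  have u0 : Ft9T2 (mu X) (fun n => fl (fun s p => K (f (k n) s p))) (v 0 : Sq X → ℂ) := by
    refine t0.congr (fun n => Eventually.of_forall fun q => ?_) ?_
    · show K (0 + f (k n) q.1 q.2) - K 0 = K (f (k n) q.1 q.2)
      rw [zero_add, hK0, sub_zero]
    · filter_upwards [hC] with q hq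
      show K (0 + (v 0 : Sq X → ℂ) q) - K 0 = _
      rw [zero_add, hK0, sub_zero, hKid _ hq]
  have u1 : Ft9T2 (mu X) (fun n => fl (dx (fun s p => K (f (k n) s p)))) (v 1 : Sq X → ℂ) := by
    refine t1.congr (fun n => ae_eq_refl _) ?_
    filter_upwards [hC] with q hq
    rw [hdx]
    show fderiv ℝ K (0 + (v 0 : Sq X → ℂ) q) (0 + (v 1 : Sq X → ℂ) q) = _
    rw [zero_add, zero_add, hKd _ hq]
    rfl
  have u2 : Ft9T2 (mu X) (fun n => fl (dy (fun s p => K (f (k n) s p)))) (v 2 : Sq X → ℂ) := by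
    refine t2.congr (fun n => ae_eq_refl _) ?_
    filter_upwards [hC] with q hq
    rw [hdy]
    show fderiv ℝ K (0 + (v 0 : Sq X → ℂ) q) (0 + (v 2 : Sq X → ℂ) q) = _
    rw [zero_add, zero_add, hKd _ hq]
    rfl
  refine ⟨fun n s p => K (f (k n) s p), fun n s => K (c (k n) s), fun n =>
    ⟨nice_comp (hf (k n)).1 K hK, ?_, fun s p => hKb _⟩, ?_, ?_⟩
  · obtain ⟨S, hS⟩ := (hf (k n)).2
    refine ⟨S, fun s hs p hp => ?_⟩
    show K (f (k n) s p) = 0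
    rw [hS s hs p hp, hK0]
  · have h1 := ft9_T2_trip u0 u1 u2
    rw [ft9_cls_coe, ft9_cls_coe, ft9_cls_coe] at h1
    have h2 : (WithLp.toLp 2 ![v 0, v 1, v 2] : K3 X) = v := by
      refine PiLp.ext fun i => ?_
      fin_cases i <;> rfl
    rw [h2] at h1
    exact h1
  · filter_upwards [hae, hC] with q hq hq'
    have h1 := (hK.continuous.tendsto _).comp hq
    rw [hKid _ hq'] at h1
    exact h1

theorem prod {w : X → ℝ} (hw : InW α β w) {ψ : K3 X} (hψ : ψ ∈ H1 α β) (hr : RealT ψ) (C : ℝ)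
    (hC : ∀ᵐ q ∂(mu X), ‖fl (Phi α β (toC w)) q + (ψ 0 : Sq X → ℂ) q‖ ≤ C)
    {g : K3 X} (hg : g ∈ H1 α β) (C' : ℝ) (hC' : ∀ᵐ q ∂(mu X), ‖(g 0 : Sq X → ℂ) q‖ ≤ C') :
    ∃ v ∈ H1 α β,
      ((v 0 : Sq X → ℂ) =ᵐ[mu X] fun q =>
        (fl (Phi α β (toC w)) q + (ψ 0 : Sq X → ℂ) q) * (g 0 : Sq X → ℂ) q) ∧
      ((v 1 : Sq X → ℂ) =ᵐ[mu X] fun q =>
        (fl (Phi α β (toC w)) q + (ψ 0 : Sq X → ℂ) q) * (g 1 : Sq X → ℂ) q +
          (fl (dx (Phi α β (toC w))) q + (ψ 1 : Sq X → ℂ) q) * (g 0 : Sq X → ℂ) q) ∧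
      ((v 2 : Sq X → ℂ) =ᵐ[mu X] fun q =>
        (fl (Phi α β (toC w)) q + (ψ 0 : Sq X → ℂ) q) * (g 2 : Sq X → ℂ) q +
          (fl (dy (Phi α β (toC w))) q + (ψ 2 : Sq X → ℂ) q) * (g 0 : Sq X → ℂ) q) := by
  by_cases hX : Nonempty X
  swap
  · have hX' : IsEmpty X := not_nonempty_iff.1 hX
    exact ⟨0, Submodule.zero_mem _, Eventually.of_forall fun q => isEmptyElim q.1,
      Eventually.of_forall fun q => isEmptyElim q.1, Eventually.of_forall fun q => isEmptyElim q.1⟩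
  obtain ⟨s0⟩ := hX
  have hC0 : 0 ≤ C := ft9_nonneg_of_ae (u := fun q => fl (Phi α β (toC w)) q + (ψ 0 : Sq X → ℂ) q) s0 hC
  have hP : Nice α β (Phi α β (toC w)) (toC w) := nice_Phi (fun s => by simp [toC, hw.inv s])
  obtain ⟨hP1, hP2⟩ := Phi_energy hw
  obtain ⟨K, M, hK, hK0, hKb, hM, hKid, hKd⟩ := ft9_exists_trunc C hC0
  obtain ⟨f, c, hf, hlim⟩ := (mem_H1_iff ψ).1 hψ
  obtain ⟨k, hk, hlim', hae⟩ := ft9_sub_ae hf hlim
  obtain ⟨t1, t2⟩ := ft9_core_D hP hP1 hP2 (fun n => hf (k n)) hlim' hae hK hM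
  obtain ⟨gn, d, hgn, hgl, hga⟩ := bdd_approx hg C' hC'
  have hgn' : ∀ n, Nice α β (gn n) (d n) ∧ FinS (gn n) := fun n => ⟨(hgn n).1, (hgn n).2.1⟩
  obtain ⟨g0, g1, g2⟩ := ft9_trip_T2 hgn' hgl
  have hFn : ∀ n, Nice α β (fun s p => K (Phi α β (toC w) s p + f (k n) s p))
      (fun s => K (toC w s + c (k n) s)) := fun n =>
    nice_comp (nice_add hP (hf (k n)).1) K hK
  have hFa : ∀ᵐ q ∂(mu X), Tendsto
      (fun n => fl (fun s p => K (Phi α β (toC w) s p + f (k n) s p)) q) atTop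
      (𝓝 (fl (Phi α β (toC w)) q + (ψ 0 : Sq X → ℂ) q)) := by
    filter_upwards [hae, hC] with q hq hq'
    have h1 := (hK.continuous.tendsto _).comp (hq.const_add (fl (Phi α β (toC w)) q))
    rw [hKid _ hq'] at h1
    exact h1
  have hFm : AEStronglyMeasurable (fun q => fl (Phi α β (toC w)) q + (ψ 0 : Sq X → ℂ) q) (mu X) :=
    (nice_meas hP).add (Lp.aestronglyMeasurable _)
  have a0 : Ft9T2 (mu X) (fun n q => fl (fun s p => K (Phi α β (toC w) s p + f (k n) s p)) q *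
      fl (gn n) q) (fun q => (fl (Phi α β (toC w)) q + (ψ 0 : Sq X → ℂ) q) * (g 0 : Sq X → ℂ) q) :=
    g0.mul (C + 1) (fun n => nice_meas (hFn n)) hFm (fun n => Eventually.of_forall fun q => hKb _) hFa
  have a1 : Ft9T2 (mu X) (fun n q => fl (fun s p => K (Phi α β (toC w) s p + f (k n) s p)) q *
      fl (dx (gn n)) q)
      (fun q => (fl (Phi α β (toC w)) q + (ψ 0 : Sq X → ℂ) q) * (g 1 : Sq X → ℂ) q) :=
    g1.mul (C + 1) (fun n => nice_meas (hFn n)) hFm (fun n => Eventually.of_forall fun q => hKb _) hFa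
  have a2 : Ft9T2 (mu X) (fun n q => fl (fun s p => K (Phi α β (toC w) s p + f (k n) s p)) q *
      fl (dy (gn n)) q)
      (fun q => (fl (Phi α β (toC w)) q + (ψ 0 : Sq X → ℂ) q) * (g 2 : Sq X → ℂ) q) :=
    g2.mul (C + 1) (fun n => nice_meas (hFn n)) hFm (fun n => Eventually.of_forall fun q => hKb _) hFa
  have b1 := t1.mul (C' + 1) (fun n => nice_meas (hgn n).1) (Lp.aestronglyMeasurable (g 0))
    (fun n => Eventually.of_forall fun q => (hgn n).2.2 q.1 q.2) hga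
  have b2 := t2.mul (C' + 1) (fun n => nice_meas (hgn n).1) (Lp.aestronglyMeasurable (g 0))
    (fun n => Eventually.of_forall fun q => (hgn n).2.2 q.1 q.2) hga
  have hN : ∀ n, Nice α β (fun s p => K (Phi α β (toC w) s p + f (k n) s p) * gn n s p)
      (fun s => K (toC w s + c (k n) s) * d n s) ∧
      FinS (fun s p => K (Phi α β (toC w) s p + f (k n) s p) * gn n s p) := by
    intro n
    refine ⟨nice_mul (hFn n) (hgn n).1, ?_⟩
    obtain ⟨S, hS⟩ := (hgn n).2.1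
    refine ⟨S, fun s hs p hp => ?_⟩
    show K (Phi α β (toC w) s p + f (k n) s p) * gn n s p = 0
    rw [hS s hs p hp, mul_zero]
  refine ft9_H1_of_T2 hN a0 ?_ ?_
  · refine (a1.add b1).congr (fun n => ?_) ?_
    · refine ft9_ae_unit _ fun s p hp => ?_
      have h1 := (dx_mul (hFn n) (hgn n).1 s p (unitSq_subset_Cross hp)).1
      show K (Phi α β (toC w) s p + f (k n) s p) * dx (gn n) s p + gn n s p *
        dx (fun s p => K (Phi α β (toC w) s p + f (k n) s p)) s p =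
        dx (fun s p => K (Phi α β (toC w) s p + f (k n) s p) * gn n s p) s p
      rw [h1]
      ring
    · filter_upwards [hC] with q hq
      rw [hKd _ hq]
      simp only [ContinuousLinearMap.id_apply]
      ring
  · refine (a2.add b2).congr (fun n => ?_) ?_
    · refine ft9_ae_unit _ fun s p hp => ?_
      have h1 := (dx_mul (hFn n) (hgn n).1 s p (unitSq_subset_Cross hp)).2
      show K (Phi α β (toC w) s p + f (k n) s p) * dy (gn n) s p + gn n s p *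
        dy (fun s p => K (Phi α β (toC w) s p + f (k n) s p)) s p =
        dy (fun s p => K (Phi α β (toC w) s p + f (k n) s p) * gn n s p) s p
      rw [h1]
      ring
    · filter_upwards [hC] with q hq
      rw [hKd _ hq]
      simp only [ContinuousLinearMap.id_apply]
      ring

theorem ft9_nice_fin_bdd {f : X → ℝ × ℝ → ℂ} {c : X → ℂ} (hf : Nice α β f c) (hs : FinS f) :
    ∃ B : ℝ, ∀ᵐ q ∂(mu X), ‖fl f q‖ ≤ B := by
  choose B hB using fun s => nice_bdd hf s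
  obtain ⟨S, hS⟩ := hs
  refine ⟨∑ s ∈ S, |B s|, ft9_ae_unit _ fun s p hp => ?_⟩
  show ‖f s p‖ ≤ _
  by_cases h : s ∈ S
  · exact ((hB s p hp).trans (le_abs_self _)).trans
      (Finset.single_le_sum (f := fun s => |B s|) (fun s _ => abs_nonneg _) h)
  · rw [hS s h p hp, norm_zero]
    exact Finset.sum_nonneg fun s _ => abs_nonneg _

theorem prod_D {f : X → ℝ × ℝ → ℂ} {c : X → ℂ} (hf : Nice α β f c) (hs : FinS f)
    {g : K3 X} (hg : g ∈ H1 α β) :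
    ∃ v ∈ H1 α β,
      ((v 0 : Sq X → ℂ) =ᵐ[mu X] fun q => fl f q * (g 0 : Sq X → ℂ) q) ∧
      ((v 1 : Sq X → ℂ) =ᵐ[mu X] fun q =>
        fl f q * (g 1 : Sq X → ℂ) q + fl (dx f) q * (g 0 : Sq X → ℂ) q) ∧
      ((v 2 : Sq X → ℂ) =ᵐ[mu X] fun q =>
        fl f q * (g 2 : Sq X → ℂ) q + fl (dy f) q * (g 0 : Sq X → ℂ) q) := by
  obtain ⟨gn, d, hgn, hgl⟩ := (mem_H1_iff g).1 hg
  obtain ⟨g0, g1, g2⟩ := ft9_trip_T2 hgn hgl
  obtain ⟨B, hB⟩ := ft9_nice_fin_bdd hf hs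
  obtain ⟨B1, hB1⟩ := ft9_nice_fin_bdd (nice_dx hf) (finS_dx hs).1
  obtain ⟨B2, hB2⟩ := ft9_nice_fin_bdd (nice_dy hf) (finS_dx hs).2
  have mul' : ∀ {u : ℕ → Sq X → ℂ} {v : Sq X → ℂ} {h : X → ℝ × ℝ → ℂ} {e : X → ℂ} {B : ℝ},
      Ft9T2 (mu X) u v → Nice α β h e → (∀ᵐ q ∂(mu X), ‖fl h q‖ ≤ B) →
      Ft9T2 (mu X) (fun n q => fl h q * u n q) (fun q => fl h q * v q) := by
    intro u v h e B hT hN hb
    exact hT.mul B (fun _ => nice_meas hN) (nice_meas hN) (fun _ => hb)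
      (Eventually.of_forall fun q => tendsto_const_nhds)
  have a0 := mul' g0 hf hB
  have a1 := mul' g1 hf hB
  have a2 := mul' g2 hf hB
  have b1 := mul' g0 (nice_dx hf) hB1
  have b2 := mul' g0 (nice_dy hf) hB2
  refine ft9_H1_of_T2 (f := fun n s p => f s p * gn n s p) (c := fun n s => c s * d n s)
    (fun n => ⟨nice_mul hf (hgn n).1, finS_mul_left hs⟩) a0 ?_ ?_
  · refine (a1.add b1).congr (fun n => ?_) (ae_eq_refl _)
    refine ft9_ae_unit _ fun s p hp => ?_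
    have h1 := (dx_mul hf (hgn n).1 s p (unitSq_subset_Cross hp)).1
    show f s p * dx (gn n) s p + dx f s p * gn n s p = dx (fun s p => f s p * gn n s p) s p
    rw [h1]
    ring
  · refine (a2.add b2).congr (fun n => ?_) (ae_eq_refl _)
    refine ft9_ae_unit _ fun s p hp => ?_
    have h1 := (dx_mul hf (hgn n).1 s p (unitSq_subset_Cross hp)).2
    show f s p * dy (gn n) s p + dy f s p * gn n s p = dy (fun s p => f s p * gn n s p) s p
    rw [h1]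
    ring

end Pool.Agent.Helper96.OF
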