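import Pool.Agent.Helper96.OF.FT6
import Pool.Agent.Helper96.OF.FT8
import Pool.Agent.Helper96.OF.FT9

/-!
# OF-FT10: linearity, bounds, positivity of the harmonic functions; dependence on w only mod ℓ²

`sol_add`, `sol_smul`: the equation is linear (Phi_add etc.; ph1, ph2 additive by cls_add), uniqueness. `sol_const`: Phi const is constant, ph = 0, sol = 0.
`sol_L2`: if w - w' ∈ ℓ², trip(Phi(w-w')) ∈ H1 (phi0), so `sol w + trip(Phi(w-w'))` solves the equation for w'; uniqueness. 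
`FF_real`: RealT. `FF_bound`: κ a smooth truncation: κ t = t for |t| ≤ C, |κ'| ≤ 1, |κ| ≤ C+ε; `v` from `chain` (FT9): `Φ+v0 = κ(Φ+ψ0)` (κ Φ = Φ), `(φ_i + v_i) = κ'(Φ+ψ0)(φ_i+ψ_i)` (κ'(Φ)=1 a.e.), so
pointwise a.e. `|(φ2+v2) - τ̄(φ1+v1)| ≤ |(φ2+ψ2) - τ̄(φ1+ψ1)|`; `sol_min` gives v = ψ, so F = κ(F), |F| ≤ C+ε a.e.; ε = 1/n.
`FF_nonneg`: apply FF_bound to `w - C/2` where 0 ≤ w ≤ C (|w - C/2| ≤ C/2).
-/

set_option autoImplicit false

open MeasureTheory

namespace Pool.Agent.Helper96.OF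

variable {X : Type} [Countable X] [MeasurableSpace X] [DiscreteMeasurableSpace X] {α β : Equiv.Perm X}

private theorem invC {w : X → ℝ} (hw : InW α β w) : ∀ s, toC w (zeta α β s) = toC w s := by
  intro s
  simp only [toC, hw.inv]

private theorem ph_add {w w' : X → ℝ} (hw : InW α β w) (hw' : InW α β w') :
    ph1 α β (fun x => w x + w' x) = ph1 α β w + ph1 α β w' ∧
    ph2 α β (fun x => w x + w' x) = ph2 α β w + ph2 α β w' := by
  have hP : Phi α β (toC (fun x => w x + w' x)) =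
      fun s p => Phi α β (toC w) s p + Phi α β (toC w') s p := by
    funext s p
    rw [← Phi_add]
    congr 1
    funext x
    simp [toC]
  have hn := nice_Phi (α := α) (β := β) (invC hw)
  have hn' := nice_Phi (α := α) (β := β) (invC hw')
  obtain ⟨a1, a2⟩ := Phi_energy hw
  obtain ⟨b1, b2⟩ := Phi_energy hw'
  constructor
  · unfold ph1
    rw [← cls_add a1 b1, hP]
    apply cls_congr
    apply ae_mu_of
    intro s p hp
    exact (dx_add hn hn' s p (unitSq_subset_Cross hp)).1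
  · unfold ph2
    rw [← cls_add a2 b2, hP]
    apply cls_congr
    apply ae_mu_of
    intro s p hp
    exact (dx_add hn hn' s p (unitSq_subset_Cross hp)).2

private theorem ph_smul {w : X → ℝ} (hw : InW α β w) (k : ℝ) :
    ph1 α β (fun x => k * w x) = (k : ℂ) • ph1 α β w ∧
    ph2 α β (fun x => k * w x) = (k : ℂ) • ph2 α β w := by
  have hP : Phi α β (toC (fun x => k * w x)) = fun s p => (k : ℂ) * Phi α β (toC w) s p := by
    funext s p
    rw [← Phi_smul]
    congr 1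
    funext x
    simp [toC]
  have hn := nice_Phi (α := α) (β := β) (invC hw)
  obtain ⟨a1, a2⟩ := Phi_energy hw
  constructor
  · unfold ph1
    rw [← cls_smul a1, hP]
    apply cls_congr
    apply ae_mu_of
    intro s p hp
    exact (dx_smul (k : ℂ) hn s p (unitSq_subset_Cross hp)).1
  · unfold ph2
    rw [← cls_smul a2, hP]
    apply cls_congr
    apply ae_mu_of
    intro s p hp
    exact (dx_smul (k : ℂ) hn s p (unitSq_subset_Cross hp)).2

private theorem cls_zero : cls (fun _ : Sq X => (0 : ℂ)) = 0 := by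
  have h0 : MemLp (fun _ : Sq X => (0 : ℂ)) 2 (mu X) := MemLp.zero'
  have h1 := cls_smul h0 0
  simpa using h1

private theorem ph_const (k : ℝ) : ph1 α β (fun _ : X => k) = 0 ∧ ph2 α β (fun _ : X => k) = 0 := by
  have hP : Phi α β (toC (fun _ : X => k)) = fun _ _ => (k : ℂ) := by
    funext s p
    exact Phi_one (k : ℂ) s p
  constructor
  · unfold ph1
    rw [hP, ← cls_zero]
    congr 1
    funext q
    simp [fl, dx]
  · unfold ph2
    rw [hP, ← cls_zero]
    congr 1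
    funext q
    simp [fl, dy]

private theorem isSol_add {w w' : X → ℝ} (hw : InW α β w) (hw' : InW α β w') {τ : ℂ} {ψ ψ' : K3 X}
    (h : IsSol α β w τ ψ) (h' : IsSol α β w' τ ψ') :
    IsSol α β (fun x => w x + w' x) τ (ψ + ψ') := by
  refine ⟨(H1 α β).add_mem h.1 h'.1, fun χ hχ => ?_⟩
  have e := h.2 χ hχ
  have e' := h'.2 χ hχ
  obtain ⟨p1, p2⟩ := ph_add hw hw'
  have : (ph2 α β (fun x => w x + w' x) + (ψ + ψ') 2) -
      (starRingEnd ℂ) τ • (ph1 α β (fun x => w x + w' x) + (ψ + ψ') 1) =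
      ((ph2 α β w + ψ 2) - (starRingEnd ℂ) τ • (ph1 α β w + ψ 1)) +
      ((ph2 α β w' + ψ' 2) - (starRingEnd ℂ) τ • (ph1 α β w' + ψ' 1)) := by
    rw [p1, p2, PiLp.add_apply, PiLp.add_apply]
    module
  rw [this, inner_add_right, e, e', add_zero]

private theorem isSol_smul {w : X → ℝ} (hw : InW α β w) (k : ℝ) {τ : ℂ} {ψ : K3 X}
    (h : IsSol α β w τ ψ) : IsSol α β (fun x => k * w x) τ ((k : ℂ) • ψ) := by
  refine ⟨(H1 α β).smul_mem _ h.1, fun χ hχ => ?_⟩
  have e := h.2 χ hχ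
  obtain ⟨p1, p2⟩ := ph_smul hw k
  have : (ph2 α β (fun x => k * w x) + ((k : ℂ) • ψ) 2) -
      (starRingEnd ℂ) τ • (ph1 α β (fun x => k * w x) + ((k : ℂ) • ψ) 1) =
      (k : ℂ) • ((ph2 α β w + ψ 2) - (starRingEnd ℂ) τ • (ph1 α β w + ψ 1)) := by
    rw [p1, p2, PiLp.smul_apply, PiLp.smul_apply]
    module
  rw [this, inner_smul_right, e, mul_zero]

theorem sol_add (hSG : SG α β) {w w' : X → ℝ} (hw : InW α β w) (hw' : InW α β w') {τ : ℂ} (hτ : τ ∈ HH) :
    sol α β (fun x => w x + w' x) τ = sol α β w τ + sol α β w' τ :=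
  ((sol_spec hSG (inW_add hw hw') hτ).2.2 _
    (isSol_add hw hw' (sol_spec hSG hw hτ).1 (sol_spec hSG hw' hτ).1)).symm

theorem sol_smul (hSG : SG α β) {w : X → ℝ} (hw : InW α β w) (k : ℝ) {τ : ℂ} (hτ : τ ∈ HH) :
    sol α β (fun x => k * w x) τ = (k : ℂ) • sol α β w τ :=
  ((sol_spec hSG (inW_smul k hw) hτ).2.2 _ (isSol_smul hw k (sol_spec hSG hw hτ).1)).symm

theorem hh_add (hSG : SG α β) {w w' : X → ℝ} (hw : InW α β w) (hw' : InW α β w') {τ : ℂ} (hτ : τ ∈ HH) :
    hh α β (fun x => w x + w' x) τ = hh α β w τ + hh α β w' τ := by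
  obtain ⟨p1, p2⟩ := ph_add hw hw'
  unfold hh RR PP
  rw [sol_add hSG hw hw' hτ, p1, p2, PiLp.add_apply, PiLp.add_apply]
  module

theorem hh_smul (hSG : SG α β) {w : X → ℝ} (hw : InW α β w) (k : ℝ) {τ : ℂ} (hτ : τ ∈ HH) :
    hh α β (fun x => k * w x) τ = (k : ℂ) • hh α β w τ := by
  obtain ⟨p1, p2⟩ := ph_smul hw k
  unfold hh RR PP
  rw [sol_smul hSG hw k hτ, p1, p2, PiLp.smul_apply, PiLp.smul_apply]
  module

theorem hh_const (hSG : SG α β) (k : ℝ) {τ : ℂ} (hτ : τ ∈ HH) :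
    hh α β (fun _ => k) τ = 0 ∧ sol α β (fun _ => k) τ = 0 := by
  obtain ⟨p1, p2⟩ := ph_const (α := α) (β := β) k
  have hs : sol α β (fun _ => k) τ = 0 := by
    refine ((sol_spec hSG (inW_const α β k) hτ).2.2 0 ⟨(H1 α β).zero_mem, fun χ _ => ?_⟩).symm
    rw [p1, p2]
    simp
  refine ⟨?_, hs⟩
  unfold hh RR PP
  rw [hs, p1, p2]
  simp

/-- `F_w` and `h_w` depend only on the class of `w` modulo ℓ² -/
theorem FF_L2 (hSG : SG α β) {w w' : X → ℝ} (hw : InW α β w) (hw' : InW α β w')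
    (h2 : L2s (fun x => w x - w' x)) {τ : ℂ} (hτ : τ ∈ HH) :
    hh α β w τ = hh α β w' τ ∧ FF α β w τ =ᵐ[mu X] FF α β w' τ := by
  have hd : InW α β (fun x => w x - w' x) := by
    have := inW_add hw (inW_smul (-1) hw')
    have e : (fun x => w x + -1 * w' x) = fun x => w x - w' x := by
      funext x; ring
    rwa [e] at this
  have hww : (fun x => w' x + (w x - w' x)) = w := by funext x; ring
  obtain ⟨p1, p2⟩ := ph_add hw' hd
  rw [hww] at p1 p2
  have hT : trip (Phi α β (toC (fun x => w x - w' x))) ∈ H1 α β := phi0 hd h2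
  set T : K3 X := trip (Phi α β (toC (fun x => w x - w' x))) with hTdef
  have hT0 : T 0 = cls (fl (Phi α β (toC (fun x => w x - w' x)))) := rfl
  have hT1 : T 1 = ph1 α β (fun x => w x - w' x) := rfl
  have hT2 : T 2 = ph2 α β (fun x => w x - w' x) := rfl
  have hsol := (sol_spec hSG hw hτ).1
  have hs : IsSol α β w' τ (sol α β w τ + T) := by
    refine ⟨(H1 α β).add_mem hsol.1 hT, fun χ hχ => ?_⟩
    have e := hsol.2 χ hχ
    have : (ph2 α β w' + (sol α β w τ + T) 2) -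
        (starRingEnd ℂ) τ • (ph1 α β w' + (sol α β w τ + T) 1) =
        (ph2 α β w + sol α β w τ 2) - (starRingEnd ℂ) τ • (ph1 α β w + sol α β w τ 1) := by
      rw [p1, p2, PiLp.add_apply, PiLp.add_apply, hT1, hT2]
      module
    rw [this]
    exact e
  have hs' : sol α β w τ + T = sol α β w' τ := (sol_spec hSG hw' hτ).2.2 _ hs
  constructor
  · unfold hh RR PP
    rw [← hs', p1, p2, PiLp.add_apply, PiLp.add_apply, hT1, hT2]
    module
  · have hm : MemLp (fl (Phi α β (toC (fun x => w x - w' x)))) 2 (mu X) := (Phi_L2_iff hd).2 h2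
    have hc := cls_ae hm
    have ha := Lp.coeFn_add (sol α β w τ 0) (T 0)
    rw [← hT0] at hc
    have hP : ∀ q : Sq X, fl (Phi α β (toC w)) q =
        fl (Phi α β (toC w')) q + fl (Phi α β (toC (fun x => w x - w' x))) q := by
      intro q
      simp only [fl]
      rw [← Phi_add]
      congr 1
      funext x
      simp [toC]
    filter_upwards [hc, ha] with q h1 h2'
    unfold FF
    rw [← hs', PiLp.add_apply, h2', Pi.add_apply, h1, hP q]
    ring

theorem FF_meas (hSG : SG α β) {w : X → ℝ} (hw : InW α β w) {τ : ℂ} (hτ : τ ∈ HH) :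
    AEStronglyMeasurable (FF α β w τ) (mu X) ∧ ∀ᵐ q ∂(mu X), (FF α β w τ q).im = 0 := by
  constructor
  · exact (nice_meas (nice_Phi (invC hw))).add (Lp.aestronglyMeasurable _)
  · obtain ⟨C, hC⟩ := hw.bdd
    have hr := (sol_spec hSG hw hτ).2.1 0
    have h1 := JK_ae (sol α β w τ 0)
    rw [hr] at h1
    filter_upwards [h1] with q hq
    unfold FF
    rw [Complex.add_im]
    have h2 : (fl (Phi α β (toC w)) q).im = 0 := (Phi_bound hC q.1 q.2).2
    have h3 : ((sol α β w τ 0 : Sq X → ℂ) q).im = 0 := by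
      have := congrArg Complex.im hq
      rw [Complex.conj_im] at this
      linarith
    rw [h2, h3, add_zero]

/-- smooth truncation -/
private theorem ft10_exists_trunc (C ε : ℝ) (hC : 0 ≤ C) (hε : 0 < ε) :
    ∃ κ : ℝ → ℝ, ContDiff ℝ (⊤ : ℕ∞) κ ∧ (∀ t, |deriv κ t| ≤ 1) ∧
      (∀ t, |t| ≤ C → κ t = t ∧ deriv κ t = 1) ∧ ∀ t, |κ t| ≤ C + ε := by
  let ρ : ContDiffBump (0 : ℝ) := ⟨C + ε / 2, C + ε, by positivity, by linarith⟩
  have hρc : Continuous (ρ : ℝ → ℝ) := ρ.continuous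
  have hρ1 : ∀ t, |t| ≤ C + ε / 2 → ρ t = 1 := by
    intro t ht
    apply ρ.one_of_mem_closedBall
    rw [mem_closedBall_zero_iff, Real.norm_eq_abs]
    exact ht
  have hρ0 : ∀ t, C + ε ≤ |t| → ρ t = 0 := by
    intro t ht
    apply ρ.zero_of_le_dist
    rw [Real.dist_0_eq_abs]
    exact ht
  have hρb : ∀ t, |ρ t| ≤ 1 := by
    intro t
    rw [abs_of_nonneg ρ.nonneg]
    exact ρ.le_one
  have hd : ∀ t, HasDerivAt (fun t => ∫ s in (0:ℝ)..t, ρ s) (ρ t) t := by
    intro t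
    exact intervalIntegral.integral_hasDerivAt_right (hρc.intervalIntegrable _ _)
      hρc.stronglyMeasurable.stronglyMeasurableAtFilter hρc.continuousAt
  have hde : deriv (fun t => ∫ s in (0:ℝ)..t, ρ s) = fun t => ρ t := by
    funext t
    exact (hd t).deriv
  refine ⟨fun t => ∫ s in (0:ℝ)..t, ρ s, ?_, ?_, ?_, ?_⟩
  · rw [contDiff_infty_iff_deriv]
    refine ⟨fun t => (hd t).differentiableAt, ?_⟩
    rw [hde]
    exact ρ.contDiff
  · intro t
    rw [hde]
    exact hρb t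
  · intro t ht
    constructor
    · have : ∫ s in (0:ℝ)..t, ρ s = ∫ s in (0:ℝ)..t, (1:ℝ) := by
        apply intervalIntegral.integral_congr
        intro s hs
        apply hρ1
        have : |s| ≤ |t| := by
          rw [Set.mem_uIcc] at hs
          rcases hs with ⟨h1, h2⟩ | ⟨h1, h2⟩
          · rw [abs_of_nonneg h1, abs_of_nonneg (h1.trans h2)]
            exact h2
          · rw [abs_of_nonpos h2, abs_of_nonpos (h1.trans h2)]
            linarith
        linarith
      simp only [this]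
      simp
    · rw [hde]
      exact hρ1 t (by linarith)
  · have hin : ∀ t, |t| ≤ C + ε → |∫ s in (0:ℝ)..t, ρ s| ≤ C + ε := by
      intro t ht
      have := intervalIntegral.norm_integral_le_of_norm_le_const (a := (0:ℝ)) (b := t)
        (f := fun s => ρ s) (C := 1) (fun s _ => hρb s)
      rw [Real.norm_eq_abs, one_mul, sub_zero] at this
      linarith
    intro t
    rcases le_or_gt |t| (C + ε) with ht | ht
    · exact hin t ht
    · have hCe : 0 < C + ε := by linarith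
      rcases le_or_gt 0 t with h0 | h0
      · rw [abs_of_nonneg h0] at ht
        have e : ∫ s in (0:ℝ)..t, ρ s = (∫ s in (0:ℝ)..(C + ε), ρ s) + ∫ s in (C + ε)..t, ρ s :=
          (intervalIntegral.integral_add_adjacent_intervals (hρc.intervalIntegrable _ _)
            (hρc.intervalIntegrable _ _)).symm
        have e2 : ∫ s in (C + ε)..t, ρ s = ∫ s in (C + ε)..t, (0:ℝ) := by
          apply intervalIntegral.integral_congr
          intro s hs
          rw [Set.uIcc_of_le ht.le] at hs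
          apply hρ0
          rw [abs_of_nonneg (hCe.le.trans hs.1)]
          exact hs.1
        simp only [e, e2]
        rw [intervalIntegral.integral_zero, add_zero]
        exact hin _ (by rw [abs_of_pos hCe])
      · rw [abs_of_neg h0] at ht
        have e : ∫ s in (0:ℝ)..t, ρ s = (∫ s in (0:ℝ)..(-(C + ε)), ρ s) +
            ∫ s in (-(C + ε))..t, ρ s :=
          (intervalIntegral.integral_add_adjacent_intervals (hρc.intervalIntegrable _ _)
            (hρc.intervalIntegrable _ _)).symm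
        have e2 : ∫ s in (-(C + ε))..t, ρ s = ∫ s in (-(C + ε))..t, (0:ℝ) := by
          apply intervalIntegral.integral_congr
          intro s hs
          rw [Set.uIcc_of_ge (by linarith)] at hs
          apply hρ0
          rw [abs_of_nonpos (by linarith [hs.2])]
          linarith [hs.2]
        simp only [e, e2]
        rw [intervalIntegral.integral_zero, add_zero]
        exact hin _ (by rw [abs_neg, abs_of_pos hCe])

private theorem FF_bound_eps (hSG : SG α β) {w : X → ℝ} (hw : InW α β w) {C : ℝ} (h0 : 0 ≤ C)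
    (hC : ∀ x, |w x| ≤ C) {τ : ℂ} (hτ : τ ∈ HH) {ε : ℝ} (hε : 0 < ε) :
    ∀ᵐ q ∂(mu X), ‖FF α β w τ q‖ ≤ C + ε := by
  obtain ⟨κ, hκ, hκ1, hκ2, hκ3⟩ := ft10_exists_trunc C ε h0 hε
  obtain ⟨hsol, hreal, -⟩ := sol_spec hSG hw hτ
  obtain ⟨v, hv, -, v0, v1, v2⟩ := chain hw hsol.1 hreal κ hκ 1 hκ1
  obtain ⟨m1, m2⟩ := Phi_energy hw
  have c1 : (ph1 α β w : Sq X → ℂ) =ᵐ[mu X] fl (dx (Phi α β (toC w))) := cls_ae m1
  have c2 : (ph2 α β w : Sq X → ℂ) =ᵐ[mu X] fl (dy (Phi α β (toC w))) := cls_ae m2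
  have hre : ∀ q : Sq X, |(fl (Phi α β (toC w)) q).re| ≤ C := fun q =>
    (Complex.abs_re_le_norm _).trans (Phi_bound hC q.1 q.2).1
  have hd1 : ∀ q : Sq X, deriv κ (fl (Phi α β (toC w)) q).re = 1 := fun q => (hκ2 _ (hre q)).2
  have hk1 : ∀ q : Sq X, κ (fl (Phi α β (toC w)) q).re = (fl (Phi α β (toC w)) q).re :=
    fun q => (hκ2 _ (hre q)).1
  have hle : ‖(ph2 α β w + v 2) - (starRingEnd ℂ) τ • (ph1 α β w + v 1)‖ ≤
      ‖(ph2 α β w + sol α β w τ 2) - (starRingEnd ℂ) τ • (ph1 α β w + sol α β w τ 1)‖ := by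
    apply Lp.norm_le_norm_of_ae_le
    filter_upwards [c1, c2, v1, v2,
      Lp.coeFn_sub (ph2 α β w + v 2) ((starRingEnd ℂ) τ • (ph1 α β w + v 1)),
      Lp.coeFn_add (ph2 α β w) (v 2), Lp.coeFn_smul ((starRingEnd ℂ) τ) (ph1 α β w + v 1),
      Lp.coeFn_add (ph1 α β w) (v 1),
      Lp.coeFn_sub (ph2 α β w + sol α β w τ 2)
        ((starRingEnd ℂ) τ • (ph1 α β w + sol α β w τ 1)),
      Lp.coeFn_add (ph2 α β w) (sol α β w τ 2),
      Lp.coeFn_smul ((starRingEnd ℂ) τ) (ph1 α β w + sol α β w τ 1),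
      Lp.coeFn_add (ph1 α β w) (sol α β w τ 1)] with q q1 q2 q3 q4 a1 a2 a3 a4 b1 b2 b3 b4
    rw [a1, Pi.sub_apply, a2, a3, Pi.smul_apply, Pi.add_apply, a4, Pi.add_apply,
      b1, Pi.sub_apply, b2, b3, Pi.smul_apply, Pi.add_apply, b4, Pi.add_apply,
      q1, q2, q3, q4, hd1 q]
    set D : ℝ := deriv κ (fl (Phi α β (toC w)) q + (sol α β w τ 0 : Sq X → ℂ) q).re with hD
    have e : fl (dy (Phi α β (toC w))) q +
        ((D : ℂ) * (fl (dy (Phi α β (toC w))) q + (sol α β w τ 2 : Sq X → ℂ) q) -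
          ((1 : ℝ) : ℂ) * fl (dy (Phi α β (toC w))) q) -
        (starRingEnd ℂ) τ • (fl (dx (Phi α β (toC w))) q +
        ((D : ℂ) * (fl (dx (Phi α β (toC w))) q + (sol α β w τ 1 : Sq X → ℂ) q) -
          ((1 : ℝ) : ℂ) * fl (dx (Phi α β (toC w))) q)) =
        (D : ℂ) * (fl (dy (Phi α β (toC w))) q + (sol α β w τ 2 : Sq X → ℂ) q -
          (starRingEnd ℂ) τ • (fl (dx (Phi α β (toC w))) q +
            (sol α β w τ 1 : Sq X → ℂ) q)) := by
      rw [smul_eq_mul, smul_eq_mul, Complex.ofReal_one]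
      ring
    rw [e, norm_mul, Complex.norm_real, Real.norm_eq_abs]
    have := hκ1 (fl (Phi α β (toC w)) q + (sol α β w τ 0 : Sq X → ℂ) q).re
    rw [← hD] at this
    exact mul_le_of_le_one_left (norm_nonneg _) this
  have hvs : v = sol α β w τ := sol_min hSG hw hτ hv hle
  rw [hvs] at v0
  filter_upwards [v0] with q hq
  unfold FF
  rw [hq]
  have him : (fl (Phi α β (toC w)) q).im = 0 := (Phi_bound hC q.1 q.2).2
  have hΦ : fl (Phi α β (toC w)) q = (((fl (Phi α β (toC w)) q).re : ℝ) : ℂ) := by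
    apply Complex.ext
    · simp
    · simp [him]
  have e : fl (Phi α β (toC w)) q +
      ((κ (fl (Phi α β (toC w)) q + (sol α β w τ 0 : Sq X → ℂ) q).re -
        κ (fl (Phi α β (toC w)) q).re : ℝ) : ℂ) =
      ((κ (fl (Phi α β (toC w)) q + (sol α β w τ 0 : Sq X → ℂ) q).re : ℝ) : ℂ) := by
    rw [hk1 q]
    nth_rewrite 1 [hΦ]
    push_cast
    ring
  rw [e, Complex.norm_real, Real.norm_eq_abs]
  exact hκ3 _

theorem FF_bound (hSG : SG α β) {w : X → ℝ} (hw : InW α β w) {C : ℝ} (hC : ∀ x, |w x| ≤ C) {τ : ℂ}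
    (hτ : τ ∈ HH) : ∀ᵐ q ∂(mu X), ‖FF α β w τ q‖ ≤ C := by
  rcases isEmpty_or_nonempty X with hX | ⟨⟨x⟩⟩
  · exact Filter.Eventually.of_forall fun q => (hX.false q.1).elim
  · have h0 : 0 ≤ C := (abs_nonneg _).trans (hC x)
    have h1 : ∀ n : ℕ, ∀ᵐ q ∂(mu X), ‖FF α β w τ q‖ ≤ C + 1 / ((n : ℝ) + 1) := fun n =>
      FF_bound_eps hSG hw h0 hC hτ (by positivity)
    rw [← ae_all_iff] at h1
    filter_upwards [h1] with q hq
    apply le_of_forall_pos_le_add
    intro ε hε
    obtain ⟨n, hn⟩ := exists_nat_one_div_lt hε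
    exact (hq n).trans (by linarith)

theorem FF_nonneg (hSG : SG α β) {w : X → ℝ} (hw : InW α β w) (h0 : ∀ x, 0 ≤ w x) {τ : ℂ}
    (hτ : τ ∈ HH) : ∀ᵐ q ∂(mu X), 0 ≤ (FF α β w τ q).re := by
  obtain ⟨C, hC⟩ := hw.bdd
  have hc := inW_const α β (-(C / 2))
  have hw2 : InW α β (fun x => w x + -(C / 2)) := inW_add hw hc
  have hb : ∀ x, |w x + -(C / 2)| ≤ C / 2 := by
    intro x
    have h1 := h0 x
    have h2 := (abs_le.1 (hC x)).2
    rw [abs_le]
    constructor <;> linarith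
  have h3 := FF_bound hSG hw2 hb hτ
  have hs : sol α β (fun x => w x + -(C / 2)) τ = sol α β w τ := by
    rw [sol_add hSG hw hc hτ, (hh_const hSG (-(C / 2)) hτ).2, add_zero]
  filter_upwards [h3] with q hq
  have e : FF α β (fun x => w x + -(C / 2)) τ q = FF α β w τ q + ((-(C / 2) : ℝ) : ℂ) := by
    unfold FF
    rw [hs]
    have hP : fl (Phi α β (toC (fun x => w x + -(C / 2)))) q =
        fl (Phi α β (toC w)) q + ((-(C / 2) : ℝ) : ℂ) := by
      simp only [fl]
      have h4 := Phi_add (α := α) (β := β) (toC w) (fun _ => ((-(C / 2) : ℝ) : ℂ)) q.1 q.2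
      rw [Phi_one] at h4
      rw [← h4]
      congr 1
      funext x
      simp [toC]
    rw [hP]
    ring
  rw [e] at hq
  have h5 := (Complex.abs_re_le_norm _).trans hq
  rw [Complex.add_re, Complex.ofReal_re] at h5
  have := (abs_le.1 h5).1
  linarith

end Pool.Agent.Helper96.OF
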