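import Pool.Agent.Helper96.OF.FT10

/-!
# OF-Z1a: auxiliary lemmas for Z1 (slices, averages over neighbouring squares)
-/

set_option autoImplicit false

open MeasureTheory Filter Topology

namespace Pool.Agent.Helper96.OF.Z1

variable {X : Type} [Countable X] [MeasurableSpace X] [DiscreteMeasurableSpace X] {α β : Equiv.Perm X}

theorem meas_sq : MeasurableSet unitSq := measurableSet_Ioo.prod measurableSet_Ioo

theorem vol_sq : (volume : Measure (ℝ × ℝ)) unitSq = 1 := by
  rw [unitSq, Measure.volume_eq_prod, Measure.prod_prod]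
  simp

instance instProbSq : IsProbabilityMeasure ((volume : Measure (ℝ × ℝ)).restrict unitSq) := by
  constructor
  rw [Measure.restrict_apply_univ, vol_sq]

/-- a.e. statements on slices -/
theorem ae_mu_slices {P : Sq X → Prop} (h : ∀ s, ∀ᵐ p ∂((volume : Measure (ℝ × ℝ)).restrict unitSq), P (s, p)) :
    ∀ᵐ q ∂(mu X), P q := by
  have h1 : {q : Sq X | ¬ P q} ⊆ ⋃ s : X, ({s} : Set X) ×ˢ {p | ¬ P (s, p)} := by
    rintro ⟨s, p⟩ hq
    exact Set.mem_iUnion.2 ⟨s, rfl, hq⟩
  refine measure_mono_null h1 (measure_iUnion_null fun s => ?_)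
  rw [mu, Measure.prod_prod]
  have h2 : ((volume : Measure (ℝ × ℝ)).restrict unitSq) {p | ¬ P (s, p)} = 0 := h s
  rw [h2, mul_zero]

theorem ae_slices_of {P : Sq X → Prop} (h : ∀ᵐ q ∂(mu X), P q) (s : X) :
    ∀ᵐ p ∂((volume : Measure (ℝ × ℝ)).restrict unitSq), P (s, p) := by
  have h1 := Measure.ae_ae_of_ae_prod h
  rw [Measure.ae_count_iff] at h1
  exact h1 s

/-- squares of the norm on slices -/
theorem hasSum_slices {q : Sq X → ℂ} (hq : MemLp q 2 (mu X)) :
    HasSum (fun s => ∫ p in unitSq, ‖q (s, p)‖ ^ 2) (∫ x, ‖q x‖ ^ 2 ∂(mu X)) := by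
  have hi : Integrable (fun x => ‖q x‖ ^ 2) (mu X) := hq.integrable_norm_pow (by norm_num)
  have hic : Integrable (fun x => (((‖q x‖ ^ 2 : ℝ)) : ℂ)) (mu X) := hi.ofReal
  have h1 := (integral_mu _ hic).2
  rw [integral_complex_ofReal] at h1
  have h2 : (fun s => ∫ p in unitSq, (((‖q (s, p)‖ ^ 2 : ℝ)) : ℂ)) =
      fun s => ((∫ p in unitSq, ‖q (s, p)‖ ^ 2 : ℝ) : ℂ) := by
    funext s
    exact integral_complex_ofReal
  rw [h2] at h1
  exact Complex.hasSum_ofReal.1 h1

theorem slice_le {q : Sq X → ℂ} (hq : MemLp q 2 (mu X)) (s : X) :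
    ∫ p in unitSq, ‖q (s, p)‖ ^ 2 ≤ ∫ x, ‖q x‖ ^ 2 ∂(mu X) :=
  le_hasSum (hasSum_slices hq) s fun _ _ => integral_nonneg fun _ => by positivity

theorem slice_memLp {q : Sq X → ℂ} (hq : MemLp q 2 (mu X)) (s : X) :
    MemLp (fun p => q (s, p)) 2 ((volume : Measure (ℝ × ℝ)).restrict unitSq) := by
  have hi : Integrable (fun x => ‖q x‖ ^ 2) (mu X) := hq.integrable_norm_pow (by norm_num)
  have hic : Integrable (fun x => (((‖q x‖ ^ 2 : ℝ)) : ℂ)) (mu X) := hi.ofReal
  have h1 := ((integrable_mu_iff _ hic.1).1 hic).1 s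
  have hm : AEStronglyMeasurable (fun p => q (s, p)) ((volume : Measure (ℝ × ℝ)).restrict unitSq) := by
    obtain ⟨g, hg, hqg⟩ := hq.1
    refine ⟨fun p => g (s, p), hg.comp_measurable measurable_prodMk_left, ?_⟩
    exact ae_slices_of hqg s
  rw [memLp_two_iff_integrable_sq_norm hm]
  have h3 := h1.re
  exact h3

/-- `L¹` norm on the unit square is at most the `L²` norm -/
theorem l1_le {g : ℝ × ℝ → ℂ} (hg : MemLp g 2 ((volume : Measure (ℝ × ℝ)).restrict unitSq)) :
    ∫ p in unitSq, ‖g p‖ ≤ Real.sqrt (∫ p in unitSq, ‖g p‖ ^ 2) := by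
  have h1 : Integrable g ((volume : Measure (ℝ × ℝ)).restrict unitSq) := hg.integrable (by norm_num)
  have h2 : Integrable (fun p => ‖g p‖ ^ 2) ((volume : Measure (ℝ × ℝ)).restrict unitSq) :=
    hg.integrable_norm_pow (by norm_num)
  refine Real.le_sqrt_of_sq_le ?_
  set m : ℝ := ∫ p in unitSq, ‖g p‖ with hm
  have h3 : 0 ≤ ∫ p in unitSq, (‖g p‖ - m) ^ 2 := integral_nonneg fun _ => sq_nonneg _
  have h4 : ∫ p in unitSq, (‖g p‖ - m) ^ 2 = (∫ p in unitSq, ‖g p‖ ^ 2) - m ^ 2 := by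
    have h5 : ∀ p, (‖g p‖ - m) ^ 2 = ‖g p‖ ^ 2 - (2 * m) * ‖g p‖ + m ^ 2 := fun p => by ring
    simp only [h5]
    rw [integral_add, integral_sub, integral_const_mul, integral_const]
    · simp only [probReal_univ, smul_eq_mul]
      rw [← hm]; ring
    · exact h2
    · exact h1.norm.const_mul _
    · exact h2.sub (h1.norm.const_mul _)
    · exact integrable_const _
  linarith

/-- one-dimensional estimate -/
theorem one_dim (g g' : ℝ → ℂ) (h : ∀ t, HasDerivAt g (g' t) t) (hc : Continuous g') :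
    ‖∫ x in Set.Ioo (0:ℝ) 1, (g (x + 1) - g x)‖ ≤
      (∫ x in Set.Ioo (0:ℝ) 1, ‖g' x‖) + ∫ x in Set.Ioo (0:ℝ) 1, ‖g' (x + 1)‖ := by
  have e1 : (∫ x in Set.Ioo (0:ℝ) 1, ‖g' x‖) = ∫ x in (0:ℝ)..1, ‖g' x‖ := by
    rw [intervalIntegral.integral_of_le zero_le_one, integral_Ioc_eq_integral_Ioo]
  have e2 : (∫ x in Set.Ioo (0:ℝ) 1, ‖g' (x + 1)‖) = ∫ x in (1:ℝ)..2, ‖g' x‖ := by
    rw [← integral_Ioc_eq_integral_Ioo, ← intervalIntegral.integral_of_le zero_le_one,
      intervalIntegral.integral_comp_add_right (fun x => ‖g' x‖)]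
    norm_num
  have hii : ∀ a b : ℝ, IntervalIntegrable (fun t => ‖g' t‖) volume a b := fun a b =>
    (hc.norm).intervalIntegrable a b
  have e3 : (∫ x in (0:ℝ)..1, ‖g' x‖) + ∫ x in (1:ℝ)..2, ‖g' x‖ = ∫ x in (0:ℝ)..2, ‖g' x‖ :=
    intervalIntegral.integral_add_adjacent_intervals (hii _ _) (hii _ _)
  rw [e1, e2, e3]
  have hb : ∀ x ∈ Set.Ioo (0:ℝ) 1, ‖g (x + 1) - g x‖ ≤ ∫ x in (0:ℝ)..2, ‖g' x‖ := by
    intro x hx
    have h1 : ∫ t in x..(x+1), g' t = g (x + 1) - g x :=
      intervalIntegral.integral_eq_sub_of_hasDerivAt (fun t _ => h t) (hc.intervalIntegrable _ _)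
    rw [← h1]
    refine (intervalIntegral.norm_integral_le_integral_norm (by linarith)).trans ?_
    refine intervalIntegral.integral_mono_interval hx.1.le (by linarith) (by linarith [hx.2]) ?_ (hii _ _)
    exact Filter.Eventually.of_forall fun _ => norm_nonneg _
  have := norm_setIntegral_le_of_norm_le_const (μ := volume) (s := Set.Ioo (0:ℝ) 1) (by simp) hb
  simpa using this

theorem nice_memLp_slice {f : X → ℝ × ℝ → ℂ} {c : X → ℂ} (hf : Nice α β f c) (s : X) (p : ENNReal) :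
    MemLp (f s) p ((volume : Measure (ℝ × ℝ)).restrict unitSq) := by
  obtain ⟨C, hC⟩ := nice_bdd hf s
  have hcont : ContinuousOn (f s) unitSq := (hf.smooth s).continuousOn.mono unitSq_subset_Cross
  refine MemLp.of_bound (hcont.aestronglyMeasurable meas_sq) C ?_
  exact (ae_restrict_iff' meas_sq).2 (Filter.Eventually.of_forall hC)

theorem nice_int_slice {f : X → ℝ × ℝ → ℂ} {c : X → ℂ} (hf : Nice α β f c) (s : X) :
    Integrable (f s) ((volume : Measure (ℝ × ℝ)).restrict unitSq) :=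
  memLp_one_iff_integrable.1 (nice_memLp_slice hf s 1)

theorem restr_prod : (volume : Measure (ℝ × ℝ)).restrict unitSq =
    ((volume : Measure ℝ).restrict (Set.Ioo 0 1)).prod ((volume : Measure ℝ).restrict (Set.Ioo 0 1)) := by
  rw [Measure.prod_restrict]
  rfl

theorem row_avg {u : X → ℝ × ℝ → ℂ} {c : X → ℂ} (hu : Nice α β u c) (s : X) :
    ‖(∫ p in unitSq, u (α s) p) - ∫ p in unitSq, u s p‖ ≤
      (∫ p in unitSq, ‖dx u s p‖) + ∫ p in unitSq, ‖dx u (α s) p‖ := by
  have i1 := nice_int_slice hu s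
  have i2 := nice_int_slice hu (α s)
  have j1 := (nice_int_slice (nice_dx hu) s).norm
  have j2 := (nice_int_slice (nice_dx hu) (α s)).norm
  rw [← integral_sub i2 i1, ← integral_add j1 j2]
  have i3 : Integrable (fun p => u (α s) p - u s p) (volume.restrict unitSq) := i2.sub i1
  have j3 : Integrable (fun p => ‖dx u s p‖ + ‖dx u (α s) p‖) (volume.restrict unitSq) := j1.add j2
  simp only [restr_prod] at i3 j3 ⊢
  rw [integral_prod_symm _ i3, integral_prod_symm _ j3]
  refine norm_integral_le_of_norm_le j3.integral_prod_right ?_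
  refine (ae_restrict_iff' measurableSet_Ioo).2 (Filter.Eventually.of_forall fun y hy => ?_)
  -- pointwise in y
  have hder : ∀ t : ℝ, HasDerivAt (fun t => u s (t, y)) (dx u s (t, y)) t := by
    intro t
    have hmem : ((t, y) : ℝ × ℝ) ∈ Cross := Or.inl hy
    have hd : DifferentiableAt ℝ (u s) (t, y) :=
      ((hu.smooth s).contDiffAt (isOpen_Cross.mem_nhds hmem)).differentiableAt (by simp)
    have h1 := hd.hasFDerivAt.comp_hasDerivAt t ((hasDerivAt_id t).prodMk (hasDerivAt_const t y))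
    exact h1
  have hcont : Continuous fun t : ℝ => dx u s (t, y) := by
    have hc : ContinuousOn (dx u s) Cross := ((nice_dx hu).smooth s).continuousOn
    rw [continuous_iff_continuousAt]
    intro t
    have hmem : ((t, y) : ℝ × ℝ) ∈ Cross := Or.inl hy
    have h1 : ContinuousAt (dx u s) (t, y) := hc.continuousAt (isOpen_Cross.mem_nhds hmem)
    exact ContinuousAt.comp (f := fun t : ℝ => ((t, y) : ℝ × ℝ)) h1 (by fun_prop)
  have h1 := one_dim (fun t => u s (t, y)) (fun t => dx u s (t, y)) hder hcont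
  have e1 : ∀ x, u (α s) (x, y) = u s (x + 1, y) := fun x => (hu.row s x y hy.1 hy.2).symm
  have e2 : ∀ x, dx u (α s) (x, y) = dx u s (x + 1, y) := fun x => ((nice_dx hu).row s x y hy.1 hy.2).symm
  simp only [e1, e2]
  rw [integral_add]
  · exact h1
  · exact (hcont.norm.integrableOn_Icc (a := 0) (b := 1)).mono_set Set.Ioo_subset_Icc_self
  · have hc2 : Continuous fun x : ℝ => ‖dx u s (x + 1, y)‖ :=
      (hcont.comp (continuous_id.add continuous_const)).norm
    exact (hc2.integrableOn_Icc (a := 0) (b := 1)).mono_set Set.Ioo_subset_Icc_self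

theorem col_avg {u : X → ℝ × ℝ → ℂ} {c : X → ℂ} (hu : Nice α β u c) (s : X) :
    ‖(∫ p in unitSq, u (β s) p) - ∫ p in unitSq, u s p‖ ≤
      (∫ p in unitSq, ‖dy u s p‖) + ∫ p in unitSq, ‖dy u (β s) p‖ := by
  have i1 := nice_int_slice hu s
  have i2 := nice_int_slice hu (β s)
  have j1 := (nice_int_slice (nice_dy hu) s).norm
  have j2 := (nice_int_slice (nice_dy hu) (β s)).norm
  rw [← integral_sub i2 i1, ← integral_add j1 j2]
  have i3 : Integrable (fun p => u (β s) p - u s p) (volume.restrict unitSq) := i2.sub i1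
  have j3 : Integrable (fun p => ‖dy u s p‖ + ‖dy u (β s) p‖) (volume.restrict unitSq) := j1.add j2
  simp only [restr_prod] at i3 j3 ⊢
  rw [integral_prod _ i3, integral_prod _ j3]
  refine norm_integral_le_of_norm_le j3.integral_prod_left ?_
  refine (ae_restrict_iff' measurableSet_Ioo).2 (Filter.Eventually.of_forall fun x hx => ?_)
  have hder : ∀ t : ℝ, HasDerivAt (fun t => u s (x, t)) (dy u s (x, t)) t := by
    intro t
    have hmem : ((x, t) : ℝ × ℝ) ∈ Cross := Or.inr hx
    have hd : DifferentiableAt ℝ (u s) (x, t) :=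
      ((hu.smooth s).contDiffAt (isOpen_Cross.mem_nhds hmem)).differentiableAt (by simp)
    have h1 := hd.hasFDerivAt.comp_hasDerivAt t ((hasDerivAt_const t x).prodMk (hasDerivAt_id t))
    exact h1
  have hcont : Continuous fun t : ℝ => dy u s (x, t) := by
    have hc : ContinuousOn (dy u s) Cross := ((nice_dy hu).smooth s).continuousOn
    rw [continuous_iff_continuousAt]
    intro t
    have hmem : ((x, t) : ℝ × ℝ) ∈ Cross := Or.inr hx
    have h1 : ContinuousAt (dy u s) (x, t) := hc.continuousAt (isOpen_Cross.mem_nhds hmem)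
    exact ContinuousAt.comp (f := fun t : ℝ => ((x, t) : ℝ × ℝ)) h1 (by fun_prop)
  have h1 := one_dim (fun t => u s (x, t)) (fun t => dy u s (x, t)) hder hcont
  have e1 : ∀ y, u (β s) (x, y) = u s (x, y + 1) := fun y => (hu.col s x y hx.1 hx.2).symm
  have e2 : ∀ y, dy u (β s) (x, y) = dy u s (x, y + 1) := fun y => ((nice_dy hu).col s x y hx.1 hx.2).symm
  simp only [e1, e2]
  rw [integral_add]
  · exact h1
  · exact (hcont.norm.integrableOn_Icc (a := 0) (b := 1)).mono_set Set.Ioo_subset_Icc_self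
  · have hc2 : Continuous fun y : ℝ => ‖dy u s (x, y + 1)‖ :=
      (hcont.comp (continuous_id.add continuous_const)).norm
    exact (hc2.integrableOn_Icc (a := 0) (b := 1)).mono_set Set.Ioo_subset_Icc_self

end Pool.Agent.Helper96.OF.Z1
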