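import Pool.Agent.Helper96.OF.FT10
import Pool.Agent.Helper96.OF.Z1a

/-!
# OF-Z1: h = 0 implies that w is constant modulo ℓ²

`PP_eq`: PP = RR = 0 in L², i.e. `ph_i + ψ i = 0`, ψ = sol. Choose nice FinS `f n` with `trip (f n) → ψ`; `u_n = Φ_w + f_n` is nice with `dx u_n, dy u_n → 0` in L². Averages `m_n(s) = ∫_{unitSq} u_n s → m(s) = ∫_{unitSq} (Φ_w + ψ0)(s,·)`.
As in FT4: `|m_n(α s) - m_n(s)|² ≤ 2‖dx u_n‖² → 0`, so m(α s) = m(s), m(β s) = m(s); `Conn`: m = k constant. `poi_square`: `∫_{unitSq}|u_n - m_n(s)|² ≤ 4‖du_n‖² → 0`. So `Φ_w + ψ0 = k` a.e., `Φ_{w-k} = -ψ0 ∈ L²`, and Phi_L2_iff gives L2s (w-k).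
(poi_square needs boundedness of the function and its derivative on the open square: nice_bdd for f, dx f, dy f.) If X is empty everything is trivial.
`Z2`: `hh w` is invariant under a map γ of X×square given by a permutation γ of X all of whose orbits are infinite and `hh w ∈ L²` ⟹ `hh w = 0`: `∫_{unitSq}|hh(s,·)|²` is constant on γ-orbits and summable over s.
-/

set_option autoImplicit false

open MeasureTheory Filter Topology

namespace Pool.Agent.Helper96.OF

variable {X : Type} [Countable X] [MeasurableSpace X] [DiscreteMeasurableSpace X] {α β : Equiv.Perm X}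

namespace Z1

theorem l1_sub_le {q : Sq X → ℂ} (hq : MemLp q 2 (mu X)) (v : KK X) (s : X) :
    ∫ p in unitSq, ‖q (s, p) - (v : Sq X → ℂ) (s, p)‖ ≤ ‖cls q - v‖ := by
  have hr : MemLp (fun x => q x - (v : Sq X → ℂ) x) 2 (mu X) := hq.sub (Lp.memLp v)
  have h1 := l1_le (slice_memLp hr s)
  refine h1.trans ?_
  have h2 : cls (fun x => q x - (v : Sq X → ℂ) x) = cls q - v := by
    refine Lp.ext ?_
    filter_upwards [cls_ae hr, cls_ae hq, Lp.coeFn_sub (cls q) v] with x h1 h2 h3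
    rw [h1, h3, Pi.sub_apply, h2]
  rw [← h2]
  refine Real.sqrt_le_iff.2 ⟨norm_nonneg _, ?_⟩
  rw [cls_norm hr]
  exact slice_le hr s

theorem l1_le_cls {q : Sq X → ℂ} (hq : MemLp q 2 (mu X)) (s : X) :
    ∫ p in unitSq, ‖q (s, p)‖ ≤ ‖cls q‖ := by
  refine (l1_le (slice_memLp hq s)).trans ?_
  refine Real.sqrt_le_iff.2 ⟨norm_nonneg _, ?_⟩
  rw [cls_norm hq]
  exact slice_le hq s

theorem fderiv_le (L : ℝ × ℝ →L[ℝ] ℂ) : ‖L‖ ≤ ‖L (1, 0)‖ + ‖L (0, 1)‖ := by
  refine L.opNorm_le_bound (by positivity) fun p => ?_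
  obtain ⟨a, b⟩ := p
  have h1 : ((a, b) : ℝ × ℝ) = a • ((1, 0) : ℝ × ℝ) + b • ((0, 1) : ℝ × ℝ) := by
    ext <;> simp
  have ha : ‖a‖ ≤ ‖((a, b) : ℝ × ℝ)‖ := norm_fst_le ((a, b) : ℝ × ℝ)
  have hb : ‖b‖ ≤ ‖((a, b) : ℝ × ℝ)‖ := norm_snd_le ((a, b) : ℝ × ℝ)
  calc ‖L (a, b)‖ = ‖a • L (1, 0) + b • L (0, 1)‖ := by rw [h1, map_add, map_smul, map_smul]
    _ ≤ ‖a • L (1, 0)‖ + ‖b • L (0, 1)‖ := norm_add_le _ _
    _ = ‖a‖ * ‖L (1, 0)‖ + ‖b‖ * ‖L (0, 1)‖ := by rw [norm_smul, norm_smul]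
    _ ≤ ‖((a, b) : ℝ × ℝ)‖ * ‖L (1, 0)‖ + ‖((a, b) : ℝ × ℝ)‖ * ‖L (0, 1)‖ :=
        add_le_add (mul_le_mul_of_nonneg_right ha (norm_nonneg _)) (mul_le_mul_of_nonneg_right hb (norm_nonneg _))
    _ = _ := by ring

/-- Poincaré on one square of a nice function -/
theorem poi_nice {u : X → ℝ × ℝ → ℂ} {c : X → ℂ} (hu : Nice α β u c)
    (h1 : MemLp (fl (dx u)) 2 (mu X)) (h2 : MemLp (fl (dy u)) 2 (mu X)) (s : X) :
    ∫ p in unitSq, ‖u s p - ∫ p' in unitSq, u s p'‖ ≤
      2 * (‖cls (fl (dx u))‖ + ‖cls (fl (dy u))‖) := by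
  obtain ⟨C0, hC0⟩ := nice_bdd hu s
  obtain ⟨C1, hC1⟩ := nice_bdd (nice_dx hu) s
  obtain ⟨C2, hC2⟩ := nice_bdd (nice_dy hu) s
  have hcd : ContDiffOn ℝ 1 (u s) unitSq :=
    ((hu.smooth s).mono unitSq_subset_Cross).of_le (by exact_mod_cast le_top)
  have hp := poi_square (u s) hcd (max C0 (C1 + C2)) (fun p hp => (hC0 p hp).trans (le_max_left _ _))
    (fun p hp => (fderiv_le _).trans ((add_le_add (hC1 p hp) (hC2 p hp)).trans (le_max_right _ _)))
  have hm : MemLp (fun p => u s p - ∫ p' in unitSq, u s p') 2 (volume.restrict unitSq) :=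
    (nice_memLp_slice hu s 2).sub (memLp_const _)
  refine (l1_le hm).trans ?_
  refine Real.sqrt_le_iff.2 ⟨by positivity, hp.trans ?_⟩
  have e : ∫ p in unitSq, (‖fderiv ℝ (u s) p (1, 0)‖ ^ 2 + ‖fderiv ℝ (u s) p (0, 1)‖ ^ 2) =
      (∫ p in unitSq, ‖fl (dx u) (s, p)‖ ^ 2) + ∫ p in unitSq, ‖fl (dy u) (s, p)‖ ^ 2 := by
    refine integral_add ?_ ?_
    · exact (nice_memLp_slice (nice_dx hu) s 2).integrable_norm_pow (by norm_num)
    · exact (nice_memLp_slice (nice_dy hu) s 2).integrable_norm_pow (by norm_num)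
  rw [e]
  have s1 := slice_le h1 s
  have s2 := slice_le h2 s
  rw [← cls_norm h1] at s1
  rw [← cls_norm h2] at s2
  nlinarith [mul_nonneg (norm_nonneg (cls (fl (dx u)))) (norm_nonneg (cls (fl (dy u))))]

theorem const_of_zero (hconn : Conn α β) {w : X → ℝ} (hw : InW α β w) {ψ : K3 X} (hψ : ψ ∈ H1 α β)
    (h1 : ph1 α β w + ψ 1 = 0) (h2 : ph2 α β w + ψ 2 = 0) :
    ∃ K : ℂ, ∀ᵐ q ∂(mu X), fl (Phi α β (toC w)) q + (ψ 0 : Sq X → ℂ) q = K := by
  classical
  rcases isEmpty_or_nonempty X with hX | ⟨⟨x0⟩⟩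
  · exact ⟨0, ae_mu_of _ fun s => (hX.false s).elim⟩
  have hc : ∀ s, toC w (zeta α β s) = toC w s := fun s => by
    simp only [toC]; rw [hw.inv]
  have hΦ : Nice α β (Phi α β (toC w)) (toC w) := nice_Phi hc
  obtain ⟨hΦ1, hΦ2⟩ := Phi_energy hw
  obtain ⟨f, c, hf, hlim⟩ := (mem_H1_iff _).1 hψ
  -- components
  have l0 : Tendsto (fun n => ‖cls (fl (f n)) - ψ 0‖) atTop (𝓝 0) := by
    have h := ((PiLp.proj 2 (fun _ : Fin 3 => KK X) 0 : K3 X →L[ℂ] KK X).continuous.tendsto ψ).comp hlim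
    have h' : Tendsto (fun n => cls (fl (f n))) atTop (𝓝 (ψ 0)) := h
    exact tendsto_iff_norm_sub_tendsto_zero.1 h'
  have hu : ∀ n, Nice α β (fun s p => Phi α β (toC w) s p + f n s p) (fun s => toC w s + c n s) :=
    fun n => nice_add hΦ (hf n).1
  have m1 : ∀ n, MemLp (fl (dx (f n))) 2 (mu X) := fun n => nice_memLp (nice_dx (hf n).1) (finS_dx (hf n).2).1 2
  have m2 : ∀ n, MemLp (fl (dy (f n))) 2 (mu X) := fun n => nice_memLp (nice_dy (hf n).1) (finS_dx (hf n).2).2 2
  have m0 : ∀ n, MemLp (fl (f n)) 2 (mu X) := fun n => nice_memLp (hf n).1 (hf n).2 2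
  have e1 : ∀ n, fl (dx (fun s p => Phi α β (toC w) s p + f n s p)) =ᵐ[mu X]
      fun x => fl (dx (Phi α β (toC w))) x + fl (dx (f n)) x := fun n =>
    ae_mu_of _ fun s p hp => (dx_add hΦ (hf n).1 s p (unitSq_subset_Cross hp)).1
  have e2 : ∀ n, fl (dy (fun s p => Phi α β (toC w) s p + f n s p)) =ᵐ[mu X]
      fun x => fl (dy (Phi α β (toC w))) x + fl (dy (f n)) x := fun n =>
    ae_mu_of _ fun s p hp => (dx_add hΦ (hf n).1 s p (unitSq_subset_Cross hp)).2
  have M1 : ∀ n, MemLp (fl (dx (fun s p => Phi α β (toC w) s p + f n s p))) 2 (mu X) := fun n =>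
    (memLp_congr_ae (e1 n)).2 (hΦ1.add (m1 n))
  have M2 : ∀ n, MemLp (fl (dy (fun s p => Phi α β (toC w) s p + f n s p))) 2 (mu X) := fun n =>
    (memLp_congr_ae (e2 n)).2 (hΦ2.add (m2 n))
  have l1 : Tendsto (fun n => ‖cls (fl (dx (fun s p => Phi α β (toC w) s p + f n s p)))‖) atTop (𝓝 0) := by
    have h := ((PiLp.proj 2 (fun _ : Fin 3 => KK X) 1 : K3 X →L[ℂ] KK X).continuous.tendsto ψ).comp hlim
    have h' : Tendsto (fun n => cls (fl (dx (f n)))) atTop (𝓝 (ψ 1)) := h
    have h3 := (h'.const_add (ph1 α β w)).norm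
    rw [h1, norm_zero] at h3
    refine h3.congr fun n => ?_
    rw [cls_congr (e1 n), cls_add hΦ1 (m1 n), ph1]
  have l2 : Tendsto (fun n => ‖cls (fl (dy (fun s p => Phi α β (toC w) s p + f n s p)))‖) atTop (𝓝 0) := by
    have h := ((PiLp.proj 2 (fun _ : Fin 3 => KK X) 2 : K3 X →L[ℂ] KK X).continuous.tendsto ψ).comp hlim
    have h' : Tendsto (fun n => cls (fl (dy (f n)))) atTop (𝓝 (ψ 2)) := h
    have h3 := (h'.const_add (ph2 α β w)).norm
    rw [h2, norm_zero] at h3
    refine h3.congr fun n => ?_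
    rw [cls_congr (e2 n), cls_add hΦ2 (m2 n), ph2]
  -- the limit function and its averages
  set G : Sq X → ℂ := fun q => fl (Phi α β (toC w)) q + (ψ 0 : Sq X → ℂ) q with hG
  set m : X → ℂ := fun s => ∫ p in unitSq, G (s, p) with hm
  have iΨ : ∀ s, Integrable (fun p => (ψ 0 : Sq X → ℂ) (s, p)) (volume.restrict unitSq) := fun s =>
    (slice_memLp (Lp.memLp (ψ 0)) s).integrable (by norm_num)
  have iG : ∀ s, Integrable (fun p => G (s, p)) (volume.restrict unitSq) := fun s =>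
    (nice_int_slice hΦ s).add (iΨ s)
  have hE : ∀ n s, ∫ p in unitSq, ‖(Phi α β (toC w) s p + f n s p) - G (s, p)‖ ≤ ‖cls (fl (f n)) - ψ 0‖ := by
    intro n s
    refine le_trans (le_of_eq ?_) (l1_sub_le (m0 n) (ψ 0) s)
    refine integral_congr_ae (Filter.Eventually.of_forall fun p => ?_)
    simp only [hG, fl]
    congr 1
    ring
  have hmn : ∀ n s, ‖(∫ p in unitSq, (Phi α β (toC w) s p + f n s p)) - m s‖ ≤ ‖cls (fl (f n)) - ψ 0‖ := by
    intro n s
    simp only [hm]
    rw [← integral_sub (nice_int_slice (hu n) s) (iG s)]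
    exact (norm_integral_le_integral_norm _).trans (hE n s)
  have hsum : Tendsto (fun n => 2 * ‖cls (fl (f n)) - ψ 0‖ +
      2 * (‖cls (fl (dx (fun s p => Phi α β (toC w) s p + f n s p)))‖ +
        ‖cls (fl (dy (fun s p => Phi α β (toC w) s p + f n s p)))‖)) atTop (𝓝 0) := by
    have := (l0.const_mul 2).add ((l1.add l2).const_mul 2)
    simpa using this
  have hconst : ∀ s, ∀ᵐ p ∂(volume.restrict unitSq), G (s, p) = m s := by
    intro s
    have iGm : Integrable (fun p => ‖G (s, p) - m s‖) (volume.restrict unitSq) :=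
      ((iG s).sub (integrable_const _)).norm
    have hle : ∫ p in unitSq, ‖G (s, p) - m s‖ ≤ 0 := by
      refine ge_of_tendsto' hsum fun n => ?_
      have a1 : Integrable (fun p => ‖(Phi α β (toC w) s p + f n s p) - G (s, p)‖) (volume.restrict unitSq) :=
        ((nice_int_slice (hu n) s).sub (iG s)).norm
      have a2 : Integrable (fun p => ‖(Phi α β (toC w) s p + f n s p) -
          ∫ p' in unitSq, (Phi α β (toC w) s p' + f n s p')‖) (volume.restrict unitSq) :=
        ((nice_int_slice (hu n) s).sub (integrable_const _)).norm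
      have a3 : Integrable (fun _ : ℝ × ℝ => ‖(∫ p in unitSq, (Phi α β (toC w) s p + f n s p)) - m s‖)
          (volume.restrict unitSq) := integrable_const _
      have hmono : ∫ p in unitSq, ‖G (s, p) - m s‖ ≤
          ∫ p in unitSq, (‖(Phi α β (toC w) s p + f n s p) - G (s, p)‖ +
            ‖(Phi α β (toC w) s p + f n s p) - ∫ p' in unitSq, (Phi α β (toC w) s p' + f n s p')‖ +
            ‖(∫ p in unitSq, (Phi α β (toC w) s p + f n s p)) - m s‖) := by
        refine integral_mono iGm ((a1.add a2).add a3) fun p => ?_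
        have hd : G (s, p) - m s = -((Phi α β (toC w) s p + f n s p) - G (s, p)) +
            ((Phi α β (toC w) s p + f n s p) - ∫ p' in unitSq, (Phi α β (toC w) s p' + f n s p')) +
            ((∫ p in unitSq, (Phi α β (toC w) s p + f n s p)) - m s) := by ring
        show ‖G (s, p) - m s‖ ≤ _
        rw [hd]
        refine (norm_add₃_le).trans ?_
        rw [norm_neg]
      refine hmono.trans ?_
      have a12 : Integrable (fun p => ‖(Phi α β (toC w) s p + f n s p) - G (s, p)‖ +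
          ‖(Phi α β (toC w) s p + f n s p) -
          ∫ p' in unitSq, (Phi α β (toC w) s p' + f n s p')‖) (volume.restrict unitSq) := a1.add a2
      rw [integral_add a12 a3, integral_add a1 a2, integral_const]
      simp only [probReal_univ, one_smul]
      have b1 := hE n s
      have b2 := poi_nice (hu n) (M1 n) (M2 n) s
      have b3 := hmn n s
      linarith
    have h0 : ∫ p in unitSq, ‖G (s, p) - m s‖ = 0 := le_antisymm hle (integral_nonneg fun _ => norm_nonneg _)
    rw [integral_eq_zero_iff_of_nonneg (fun _ => norm_nonneg _) iGm] at h0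
    filter_upwards [h0] with p hp
    exact sub_eq_zero.1 (norm_eq_zero.1 hp)
  have hα : ∀ s, m (α s) = m s := by
    intro s
    refine sub_eq_zero.1 (norm_eq_zero.1 (le_antisymm ?_ (norm_nonneg _)))
    refine ge_of_tendsto' hsum fun n => ?_
    have b1 := row_avg (hu n) s
    have b2 := hmn n s
    have b3 := hmn n (α s)
    have b4 := l1_le_cls (M1 n) s
    have b5 := l1_le_cls (M1 n) (α s)
    have hd : m (α s) - m s = -((∫ p in unitSq, (Phi α β (toC w) (α s) p + f n (α s) p)) - m (α s)) +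
        ((∫ p in unitSq, (Phi α β (toC w) (α s) p + f n (α s) p)) - ∫ p in unitSq, (Phi α β (toC w) s p + f n s p)) +
        ((∫ p in unitSq, (Phi α β (toC w) s p + f n s p)) - m s) := by ring
    rw [hd]
    refine (norm_add₃_le).trans ?_
    rw [norm_neg]
    have b6 := norm_nonneg (cls (fl (dy (fun s p => Phi α β (toC w) s p + f n s p))))
    simp only [fl] at b4 b5 b6 ⊢
    linarith
  have hβ : ∀ s, m (β s) = m s := by
    intro s
    refine sub_eq_zero.1 (norm_eq_zero.1 (le_antisymm ?_ (norm_nonneg _)))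
    refine ge_of_tendsto' hsum fun n => ?_
    have b1 := col_avg (hu n) s
    have b2 := hmn n s
    have b3 := hmn n (β s)
    have b4 := l1_le_cls (M2 n) s
    have b5 := l1_le_cls (M2 n) (β s)
    have hd : m (β s) - m s = -((∫ p in unitSq, (Phi α β (toC w) (β s) p + f n (β s) p)) - m (β s)) +
        ((∫ p in unitSq, (Phi α β (toC w) (β s) p + f n (β s) p)) - ∫ p in unitSq, (Phi α β (toC w) s p + f n s p)) +
        ((∫ p in unitSq, (Phi α β (toC w) s p + f n s p)) - m s) := by ring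
    rw [hd]
    refine (norm_add₃_le).trans ?_
    rw [norm_neg]
    have b6 := norm_nonneg (cls (fl (dx (fun s p => Phi α β (toC w) s p + f n s p))))
    simp only [fl] at b4 b5 b6 ⊢
    linarith
  have hall : ∀ g ∈ Subgroup.closure ({α, β} : Set (Equiv.Perm X)), ∀ x, m (g x) = m x := by
    intro g hg
    induction hg using Subgroup.closure_induction with
    | mem g hg =>
      rcases hg with rfl | hg
      · exact hα
      · rw [Set.mem_singleton_iff] at hg
        subst hg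
        exact hβ
    | one => intro x; rfl
    | mul g h _ _ ihg ihh => intro x; rw [Equiv.Perm.mul_apply, ihg, ihh]
    | inv g _ ih =>
      intro x
      have := ih (g⁻¹ x)
      have h3 : g (g⁻¹ x) = x := Equiv.apply_symm_apply g x
      rw [h3] at this
      exact this.symm
  refine ⟨m x0, ae_mu_slices fun s => ?_⟩
  obtain ⟨g, hg, hgs⟩ := hconn x0 s
  have hms : m s = m x0 := by rw [← hgs]; exact hall g hg x0
  filter_upwards [hconst s] with p hp
  rw [← hms, ← hp]

end Z1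

theorem hh_zero (hSG : SG α β) (hconn : Conn α β) {w : X → ℝ} (hw : InW α β w) {τ : ℂ} (hτ : τ ∈ HH)
    (h0 : hh α β w τ = 0) :
    ∃ k : ℝ, L2s (fun x => w x - k) ∧ FF α β w τ =ᵐ[mu X] fun _ => (k : ℂ) := by
  obtain ⟨hPP, hRR⟩ := PP_eq hSG hw hτ
  rw [h0] at hPP hRR
  simp only [map_zero, add_zero, smul_zero] at hPP hRR
  obtain ⟨hsol, -, -⟩ := sol_spec hSG hw hτ
  obtain ⟨K, hK⟩ := Z1.const_of_zero hconn hw hsol.1 hPP hRR
  rcases isEmpty_or_nonempty X with hX | ⟨⟨x0⟩⟩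
  · refine ⟨0, ?_, ae_mu_of _ fun s => (hX.false s).elim⟩
    unfold L2s
    exact (hasSum_empty (β := X)).summable
  have him : K.im = 0 := by
    have h1 := (FF_meas hSG hw hτ).2
    have h2 : ∀ᵐ q ∂(mu X), K.im = 0 := by
      filter_upwards [h1, hK] with q hq hq'
      rw [← hq']; exact hq
    have h3 := Z1.ae_slices_of h2 x0
    simpa using h3
  have hKr : ((K.re : ℝ) : ℂ) = K := by
    apply Complex.ext <;> simp [him]
  have hFF : FF α β w τ =ᵐ[mu X] fun _ => ((K.re : ℝ) : ℂ) := by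
    filter_upwards [hK] with q hq
    rw [hKr]; exact hq
  refine ⟨K.re, ?_, hFF⟩
  have hw' : InW α β (fun x => w x - K.re) := by
    obtain ⟨⟨C, hC⟩, hinv, ha, hb⟩ := hw
    refine ⟨⟨C + |K.re|, fun x => ?_⟩, fun x => ?_, ?_, ?_⟩
    · have h1 := hC x
      have h2 := abs_sub (w x) K.re
      linarith
    · show w (zeta α β x) - K.re = w x - K.re
      rw [hinv]
    · simpa using ha
    · simpa using hb
  rw [← Phi_L2_iff hw']
  have heq : fl (Phi α β (toC fun x => w x - K.re)) =ᵐ[mu X] fun q => -(sol α β w τ 0 : Sq X → ℂ) q := by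
    filter_upwards [hK] with q hq
    have h1 : (toC fun x => w x - K.re) = fun x => toC w x + (-K) := by
      funext x
      simp only [toC]
      conv_rhs => rw [← hKr]
      push_cast
      ring
    have h2 : fl (Phi α β (toC fun x => w x - K.re)) q = fl (Phi α β (toC w)) q - K := by
      simp only [fl]
      rw [h1, Phi_add, Phi_one]
      ring
    rw [h2, ← hq]
    ring
  exact (memLp_congr_ae heq).2 (Lp.memLp _).neg

theorem inv_zero (v : KK X) (γ : Equiv.Perm X) (hγ : ∀ (x : X) (n : ℕ), 0 < n → (γ ^ n) x ≠ x)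
    (hinv : ∀ᵐ q ∂(mu X), (v : Sq X → ℂ) (γ q.1, q.2) = (v : Sq X → ℂ) q) : v = 0 := by
  have hs := Z1.hasSum_slices (Lp.memLp v)
  set I : X → ℝ := fun s => ∫ p in unitSq, ‖(v : Sq X → ℂ) (s, p)‖ ^ 2 with hI
  have hstep : ∀ s, I (γ s) = I s := by
    intro s
    refine integral_congr_ae ?_
    filter_upwards [Z1.ae_slices_of hinv s] with p hp
    have hp' : (v : Sq X → ℂ) (γ s, p) = (v : Sq X → ℂ) (s, p) := hp
    rw [hp']
  have hpow : ∀ (n : ℕ) (s : X), I ((γ ^ n) s) = I s := by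
    intro n
    induction n with
    | zero => intro s; rfl
    | succ n ih =>
      intro s
      rw [pow_succ', Equiv.Perm.mul_apply, hstep, ih]
  have hzero : ∀ s, I s = 0 := by
    intro s
    have hinj : Function.Injective fun n : ℕ => (γ ^ n) s := by
      intro a b hab
      by_contra hne
      rcases lt_or_gt_of_ne hne with hlt | hlt
      · have h1 : (γ ^ (b - a)) ((γ ^ a) s) = (γ ^ a) s := by
          rw [← Equiv.Perm.mul_apply, ← pow_add, Nat.sub_add_cancel hlt.le]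
          exact hab.symm
        exact hγ _ _ (Nat.sub_pos_of_lt hlt) h1
      · have h1 : (γ ^ (a - b)) ((γ ^ b) s) = (γ ^ b) s := by
          rw [← Equiv.Perm.mul_apply, ← pow_add, Nat.sub_add_cancel hlt.le]
          exact hab
        exact hγ _ _ (Nat.sub_pos_of_lt hlt) h1
    have h1 : Summable (fun n : ℕ => I ((γ ^ n) s)) := hs.summable.comp_injective hinj
    simp only [hpow] at h1
    exact (summable_const_iff _).1 h1
  have h2 : ∫ x, ‖(v : Sq X → ℂ) x‖ ^ 2 ∂(mu X) = 0 := by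
    have h3 : HasSum (fun _ : X => (0 : ℝ)) (∫ x, ‖(v : Sq X → ℂ) x‖ ^ 2 ∂(mu X)) := by
      have : (fun s => I s) = fun _ => (0:ℝ) := funext hzero
      rw [← this]
      exact hs
    exact h3.unique hasSum_zero
  have h4 : cls (v : Sq X → ℂ) = v := Lp.ext (cls_ae (Lp.memLp v))
  have h5 := cls_norm (Lp.memLp v)
  rw [h4, h2] at h5
  exact norm_eq_zero.1 (pow_eq_zero_iff (by norm_num) |>.1 h5)

end Pool.Agent.Helper96.OF
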