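import Pool.Agent.Helper96.OF.W2

/-!
# OF-W3 (REG): pointwise representative of a holomorphic family of weakly z_τ-holomorphic functions

Hypotheses on `f : ℂ → (ℝ×ℝ → ℂ)` on the open set Ω: (1) `f τ ∈ L²(Ω)`, locally uniformly bounded in τ ∈ HH; (2) `τ ↦ ∫ f τ · η` is holomorphic for every smooth compactly supported η with support in Ω;
(3) weak equation at each τ.
Proof. `weyl` (W1) gives for each τ ∈ HH a function `g_τ` holomorphic on `zt τ '' Ω` with `f τ = g_τ ∘ zt τ` a.e.; put `ft τ p = g_τ (zt τ p)` (p ∈ Ω). Real differentiability in p, `∂_y = τ ∂_x`: chain rule.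
Holomorphy in τ for fixed p ∈ Ω: let `ρ_ε` be a normed bump at p (radius ε); `N_ε(τ) = ∫ f τ ρ_ε = ∫ ft τ ρ_ε` is holomorphic by (2). For τ in a compact K ⊆ HH, `zt_bound` gives a uniform bound for the gradient of `ft τ`
near p, so `|N_ε(τ) - ft τ p| ≤ C_K ε`; so `N_ε → ft · p` locally uniformly on HH (`TendstoLocallyUniformlyOn.differentiableOn`).
The last statement (weak = pointwise derivative in τ) : `deriv` of locally uniform limits converge.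
-/

set_option autoImplicit false

open MeasureTheory Filter Topology

namespace Pool.Agent.Helper96.OF

private theorem isOpen_HH : IsOpen HH := isOpen_lt continuous_const Complex.continuous_im

/-- the inverse of `zt τ` -/
private noncomputable def zi (τ z : ℂ) : ℝ × ℝ := (z.re - τ.re * (z.im / τ.im), z.im / τ.im)

private theorem continuous_zi (τ : ℂ) : Continuous (zi τ) := by
  unfold zi
  have h1 : Continuous (fun z : ℂ => z.re) := Complex.continuous_re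
  have h2 : Continuous (fun z : ℂ => z.im) := Complex.continuous_im
  fun_prop

private theorem zi_zt (τ : ℂ) (hτ : τ ∈ HH) (p : ℝ × ℝ) : zi τ (zt τ p) = p := by
  have h : τ.im ≠ 0 := ne_of_gt hτ
  unfold zi zt
  ext <;> simp [h]

private theorem zt_zi (τ : ℂ) (hτ : τ ∈ HH) (z : ℂ) : zt τ (zi τ z) = z := by
  have h : τ.im ≠ 0 := ne_of_gt hτ
  unfold zi zt
  apply Complex.ext
  · simp
  · simp
    field_simp

private theorem isOpen_image (τ : ℂ) (hτ : τ ∈ HH) (Ω : Set (ℝ × ℝ)) (hΩ : IsOpen Ω) :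
    IsOpen (zt τ '' Ω) := by
  have : zt τ '' Ω = zi τ ⁻¹' Ω := by
    ext z
    constructor
    · rintro ⟨p, hp, rfl⟩
      show zi τ (zt τ p) ∈ Ω
      rw [zi_zt τ hτ]; exact hp
    · intro hz
      exact ⟨zi τ z, hz, zt_zi τ hτ z⟩
  rw [this]
  exact hΩ.preimage (continuous_zi τ)

private theorem continuous_zt (τ : ℂ) : Continuous (zt τ) := by
  unfold zt
  fun_prop

private theorem zt_lip (τ : ℂ) (p q : ℝ × ℝ) : ‖zt τ q - zt τ p‖ ≤ (1 + ‖τ‖) * ‖q - p‖ := by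
  have h : zt τ q - zt τ p = (((q - p).1 : ℝ) : ℂ) + τ * (((q - p).2 : ℝ) : ℂ) := by
    unfold zt; simp; ring
  rw [h]
  calc _ ≤ ‖(((q - p).1 : ℝ) : ℂ)‖ + ‖τ * (((q - p).2 : ℝ) : ℂ)‖ := norm_add_le _ _
    _ = ‖(q - p).1‖ + ‖τ‖ * ‖(q - p).2‖ := by
        rw [norm_mul, Complex.norm_real, Complex.norm_real]
    _ ≤ ‖q - p‖ + ‖τ‖ * ‖q - p‖ := by
        have h1 := norm_fst_le (q - p)
        have h2 := norm_snd_le (q - p)
        have h3 := norm_nonneg τ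
        nlinarith [mul_le_mul_of_nonneg_left h2 h3]
    _ = _ := by ring

private theorem convex_image (τ : ℂ) (p : ℝ × ℝ) (r : ℝ) : Convex ℝ (zt τ '' Metric.ball p r) := by
  have h : IsLinearMap ℝ (zt τ) := by
    constructor
    · intro x y; unfold zt; simp; ring
    · intro c x; unfold zt; simp; ring
  exact (convex_ball p r).is_linear_image h

/-- gradient bound, uniform for `τ` in a compact set -/
private theorem lip_bound (Ω : Set (ℝ × ℝ)) (f : ℂ → ℝ × ℝ → ℂ)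
    (h1 : ∀ τ ∈ HH, MemLp (f τ) 2 (volume.restrict Ω))
    (h1b : ∀ K : Set ℂ, IsCompact K → K ⊆ HH → ∃ C : ℝ, ∀ τ ∈ K, ∫ p in Ω, ‖f τ p‖ ^ 2 ≤ C)
    (g : ℂ → ℂ → ℂ) (hΩ : IsOpen Ω)
    (hg : ∀ τ ∈ HH, DifferentiableOn ℂ (g τ) (zt τ '' Ω))
    (hae : ∀ τ ∈ HH, ∀ᵐ p ∂(volume.restrict Ω), f τ p = g τ (zt τ p))
    (p : ℝ × ℝ) (r : ℝ) (hr : 0 < r) (hp : Metric.ball p (2 * r) ⊆ Ω)
    (K : Set ℂ) (hK : IsCompact K) (hKH : K ⊆ HH) :
    ∃ C : ℝ, 0 ≤ C ∧ ∀ τ ∈ K, ∀ q ∈ Metric.ball p r,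
      ‖g τ (zt τ q) - g τ (zt τ p)‖ ≤ C * ‖q - p‖ := by
  obtain ⟨C1, hC1, hb⟩ := zt_bound K hK hKH
  obtain ⟨C2, hC2⟩ := h1b K hK hKH
  obtain ⟨B, hB⟩ := hK.isBounded.exists_norm_le
  set D : ℝ := Real.sqrt ((C1 / r ^ 4) * |C2|) with hD
  have hBt : ∀ τ ∈ K, ‖τ‖ ≤ |B| := fun τ hτ => (hB τ hτ).trans (le_abs_self B)
  refine ⟨D * (1 + |B|), by positivity, ?_⟩
  intro τ hτ q hq
  have hτH := hKH hτ
  have hopen := isOpen_image τ hτH Ω hΩ
  have hsub : ∀ q ∈ Metric.ball p r, Metric.ball q r ⊆ Ω := by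
    intro q hq
    refine subset_trans ?_ hp
    intro s hs
    rw [Metric.mem_ball] at *
    calc dist s p ≤ dist s q + dist q p := dist_triangle _ _ _
      _ < r + r := add_lt_add hs hq
      _ = 2 * r := by ring
  -- derivative bound
  have hder : ∀ z ∈ zt τ '' Metric.ball p r, ‖deriv (g τ) z‖ ≤ D := by
    rintro z ⟨q, hq, rfl⟩
    have hs := hsub q hq
    have hdiff : DifferentiableOn ℂ (g τ) (zt τ '' Metric.ball q r) :=
      (hg τ hτH).mono (Set.image_mono hs)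
    have hint : IntegrableOn (fun s => ‖f τ s‖ ^ 2) Ω := (h1 τ hτH).integrable_norm_pow (by norm_num)
    have hsq : (fun s => ‖f τ s‖ ^ 2) =ᵐ[volume.restrict Ω] (fun s => ‖g τ (zt τ s)‖ ^ 2) := by
      filter_upwards [hae τ hτH] with s hs
      rw [hs]
    have hint2 : IntegrableOn (fun s => ‖g τ (zt τ s)‖ ^ 2) Ω := hint.congr hsq
    have hint3 : IntegrableOn (fun s => ‖g τ (zt τ s)‖ ^ 2) (Metric.ball q r) := hint2.mono_set hs
    have h5 := (hb τ hτ q r hr (g τ) hdiff hint3).2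
    have h6 : ∫ s in Metric.ball q r, ‖g τ (zt τ s)‖ ^ 2 ≤ ∫ s in Ω, ‖g τ (zt τ s)‖ ^ 2 :=
      setIntegral_mono_set hint2 (Eventually.of_forall fun s => by positivity)
        (HasSubset.Subset.eventuallyLE hs)
    have h7 : ∫ s in Ω, ‖g τ (zt τ s)‖ ^ 2 = ∫ s in Ω, ‖f τ s‖ ^ 2 :=
      integral_congr_ae hsq.symm
    have h8 : ∫ s in Metric.ball q r, ‖g τ (zt τ s)‖ ^ 2 ≤ |C2| := by
      rw [h7] at h6
      exact h6.trans ((hC2 τ hτ).trans (le_abs_self _))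
    apply Real.le_sqrt_of_sq_le
    exact h5.trans (mul_le_mul_of_nonneg_left h8 (by positivity))
  have hda : ∀ z ∈ zt τ '' Metric.ball p r, DifferentiableAt ℂ (g τ) z := by
    intro z hz
    have hz' : z ∈ zt τ '' Ω := by
      refine Set.image_mono ?_ hz
      exact subset_trans (Metric.ball_subset_ball (by linarith)) hp
    exact (hg τ hτH).differentiableAt (hopen.mem_nhds hz')
  have hmv := Convex.norm_image_sub_le_of_norm_deriv_le hda hder (convex_image τ p r)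
    (Set.mem_image_of_mem _ (Metric.mem_ball_self hr)) (Set.mem_image_of_mem _ hq)
  calc _ ≤ D * ‖zt τ q - zt τ p‖ := hmv
    _ ≤ D * ((1 + |B|) * ‖q - p‖) := by
        apply mul_le_mul_of_nonneg_left _ (Real.sqrt_nonneg _)
        refine (zt_lip τ p q).trans ?_
        apply mul_le_mul_of_nonneg_right _ (norm_nonneg _)
        linarith [hBt τ hτ]
    _ = _ := by ring

/-- pairing with a narrow function -/
private theorem pair_bound (Ω : Set (ℝ × ℝ)) (F G : ℝ × ℝ → ℂ)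
    (h1 : MemLp F 2 (volume.restrict Ω))
    (hae : ∀ᵐ p ∂(volume.restrict Ω), F p = G p)
    (p : ℝ × ℝ) (ρ : ℝ × ℝ → ℂ) (hρ : Continuous ρ) (s : Set (ℝ × ℝ)) (hs : IsCompact s)
    (hρs : tsupport ρ ⊆ s) (hsΩ : s ⊆ Ω) (hρ1 : ∫ q, ρ q = 1) (hρ2 : ∫ q, ‖ρ q‖ = 1)
    (c : ℝ) (hc : ∀ q ∈ s, ‖G q - G p‖ ≤ c) :
    ‖(∫ q, F q * ρ q) - G p‖ ≤ c := by
  have hcs : HasCompactSupport ρ := HasCompactSupport.of_support_subset_isCompact hs
    ((subset_tsupport ρ).trans hρs)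
  have hri : Integrable ρ := hρ.integrable_of_hasCompactSupport hcs
  have hzero : ∀ q, q ∉ s → ρ q = 0 := by
    intro q hq
    by_contra h
    exact hq (hρs (subset_tsupport ρ h))
  have e1 : ∫ q, F q * ρ q = ∫ q in Ω, F q * ρ q := by
    symm
    apply setIntegral_eq_integral_of_forall_compl_eq_zero
    intro q hq
    rw [hzero q (fun h => hq (hsΩ h)), mul_zero]
  have e2 : ∫ q in Ω, F q * ρ q = ∫ q in Ω, G q * ρ q := by
    apply integral_congr_ae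
    filter_upwards [hae] with q hq
    rw [hq]
  have e3 : ∫ q in Ω, ρ q = 1 := by
    rw [← hρ1]
    apply setIntegral_eq_integral_of_forall_compl_eq_zero
    intro q hq
    exact hzero q (fun h => hq (hsΩ h))
  have hρL : MemLp ρ 2 (volume.restrict Ω) := (hρ.memLp_of_hasCompactSupport hcs).restrict Ω
  have hFi : Integrable (fun q => F q * ρ q) (volume.restrict Ω) := h1.integrable_mul hρL
  have hGi : Integrable (fun q => G q * ρ q) (volume.restrict Ω) := by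
    refine hFi.congr ?_
    filter_upwards [hae] with q hq
    rw [hq]
  have hci : Integrable (fun q => G p * ρ q) (volume.restrict Ω) :=
    (hri.restrict).const_mul _
  have e4 : (∫ q, F q * ρ q) - G p = ∫ q in Ω, (G q * ρ q - G p * ρ q) := by
    rw [integral_sub hGi hci, e1, e2, integral_const_mul, e3, mul_one]
  rw [e4]
  have hb : ∀ᵐ q ∂(volume.restrict Ω), ‖G q * ρ q - G p * ρ q‖ ≤ c * ‖ρ q‖ := by
    apply Eventually.of_forall
    intro q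
    by_cases hq : q ∈ s
    · rw [← sub_mul, norm_mul]
      exact mul_le_mul_of_nonneg_right (hc q hq) (norm_nonneg _)
    · rw [hzero q hq]; simp
  have hni : Integrable (fun q => c * ‖ρ q‖) (volume.restrict Ω) := (hri.norm.restrict).const_mul _
  refine (norm_integral_le_of_norm_le hni hb).trans ?_
  rw [integral_const_mul]
  have e5 : ∫ q in Ω, ‖ρ q‖ = 1 := by
    rw [← hρ2]
    apply setIntegral_eq_integral_of_forall_compl_eq_zero
    intro q hq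
    rw [hzero q (fun h => hq (hsΩ h)), norm_zero]
  rw [e5, mul_one]

/-- locally uniform convergence of the averages -/
private theorem tlu (Ω : Set (ℝ × ℝ)) (f : ℂ → ℝ × ℝ → ℂ)
    (h1 : ∀ τ ∈ HH, MemLp (f τ) 2 (volume.restrict Ω))
    (h1b : ∀ K : Set ℂ, IsCompact K → K ⊆ HH → ∃ C : ℝ, ∀ τ ∈ K, ∫ p in Ω, ‖f τ p‖ ^ 2 ≤ C)
    (g : ℂ → ℂ → ℂ) (hΩ : IsOpen Ω)
    (hg : ∀ τ ∈ HH, DifferentiableOn ℂ (g τ) (zt τ '' Ω))
    (hae : ∀ τ ∈ HH, ∀ᵐ p ∂(volume.restrict Ω), f τ p = g τ (zt τ p))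
    (p : ℝ × ℝ) (hp : p ∈ Ω) (ρ : ℕ → ℝ × ℝ → ℂ)
    (hρ : ∀ n, ContDiff ℝ (⊤ : ℕ∞) (ρ n) ∧ tsupport (ρ n) ⊆ Metric.closedBall p (1 / (n + 1)) ∧
          ∫ q, ρ n q = 1 ∧ ∫ q, ‖ρ n q‖ = 1) :
    TendstoLocallyUniformlyOn (fun n τ => ∫ q, f τ q * ρ n q) (fun τ => g τ (zt τ p)) atTop HH := by
  rw [tendstoLocallyUniformlyOn_iff_forall_isCompact isOpen_HH]
  intro K hKH hK
  obtain ⟨R, hR, hRΩ⟩ := Metric.isOpen_iff.1 hΩ p hp
  obtain ⟨C, hC, hlip⟩ := lip_bound Ω f h1 h1b g hΩ hg hae p (R / 2) (by positivity)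
    (by rw [mul_div_cancel₀ _ (by norm_num : (2:ℝ) ≠ 0)]; exact hRΩ) K hK hKH
  rw [Metric.tendstoUniformlyOn_iff]
  intro ε hε
  have hlim : Tendsto (fun n : ℕ => (1 : ℝ) / (n + 1)) atTop (𝓝 0) := tendsto_one_div_add_atTop_nhds_zero_nat
  have hlim2 : Tendsto (fun n : ℕ => C * ((1 : ℝ) / (n + 1))) atTop (𝓝 0) := by
    have := hlim.const_mul C
    rwa [mul_zero] at this
  filter_upwards [hlim.eventually (gt_mem_nhds (by positivity : (0:ℝ) < R / 2)),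
    hlim2.eventually (gt_mem_nhds hε)] with n hn1 hn2 τ hτ
  rw [dist_comm, dist_eq_norm]
  refine lt_of_le_of_lt ?_ hn2
  apply pair_bound Ω (f τ) (fun q => g τ (zt τ q)) (h1 τ (hKH hτ)) (hae τ (hKH hτ)) p (ρ n)
    (hρ n).1.continuous (Metric.closedBall p (1 / (n + 1))) (isCompact_closedBall _ _)
    (hρ n).2.1 _ (hρ n).2.2.1 (hρ n).2.2.2
  · intro q hq
    have hq1 : ‖q - p‖ ≤ 1 / ((n : ℝ) + 1) := by rw [← dist_eq_norm]; exact hq
    have hq2 : q ∈ Metric.ball p (R / 2) := by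
      rw [Metric.mem_ball, dist_eq_norm]; exact lt_of_le_of_lt hq1 hn1
    exact (hlip τ hτ q hq2).trans (mul_le_mul_of_nonneg_left hq1 hC)
  · intro q hq
    apply hRΩ
    rw [Metric.mem_closedBall] at hq
    rw [Metric.mem_ball]
    linarith

private theorem exists_rho (p : ℝ × ℝ) : ∃ ρ : ℕ → ℝ × ℝ → ℂ,
    ∀ n, ContDiff ℝ (⊤ : ℕ∞) (ρ n) ∧ tsupport (ρ n) ⊆ Metric.closedBall p (1 / (n + 1)) ∧
          ∫ q, ρ n q = 1 ∧ ∫ q, ‖ρ n q‖ = 1 := by
  have hpos : ∀ n : ℕ, (0:ℝ) < 1 / (n + 1) := fun n => by positivity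
  let φ : ∀ n : ℕ, ContDiffBump p := fun n =>
    ⟨1 / (n + 1) / 2, 1 / (n + 1), by have := hpos n; positivity, by have := hpos n; linarith⟩
  refine ⟨fun n q => (((φ n).normed volume q : ℝ) : ℂ), fun n => ⟨?_, ?_, ?_, ?_⟩⟩
  · exact Complex.ofRealCLM.contDiff.comp (φ n).contDiff_normed
  · have h1 : tsupport (fun q => (((φ n).normed volume q : ℝ) : ℂ)) ⊆
        tsupport ((φ n).normed (volume : Measure (ℝ × ℝ))) := by
      apply closure_mono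
      intro q hq hq2
      apply hq
      show (((φ n).normed volume q : ℝ) : ℂ) = 0
      rw [hq2]; simp
    refine h1.trans ?_
    rw [(φ n).tsupport_normed_eq]
  · rw [integral_complex_ofReal, (φ n).integral_normed]; simp
  · have : (fun q => ‖(((φ n).normed volume q : ℝ) : ℂ)‖) = fun q => (φ n).normed volume q := by
      funext q
      rw [Complex.norm_real, Real.norm_of_nonneg ((φ n).nonneg_normed q)]
    rw [this, (φ n).integral_normed]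

theorem reg (Ω : Set (ℝ × ℝ)) (hΩ : IsOpen Ω) (f : ℂ → ℝ × ℝ → ℂ)
    (h1 : ∀ τ ∈ HH, MemLp (f τ) 2 (volume.restrict Ω))
    (h1b : ∀ K : Set ℂ, IsCompact K → K ⊆ HH → ∃ C : ℝ, ∀ τ ∈ K, ∫ p in Ω, ‖f τ p‖ ^ 2 ≤ C)
    (h2 : ∀ η : ℝ × ℝ → ℂ, ContDiff ℝ (⊤ : ℕ∞) η → HasCompactSupport η → tsupport η ⊆ Ω →
      DifferentiableOn ℂ (fun τ => ∫ p, f τ p * η p) HH)
    (h3 : ∀ τ ∈ HH, ∀ χ : ℝ × ℝ → ℂ, ContDiff ℝ (⊤ : ℕ∞) χ → HasCompactSupport χ → tsupport χ ⊆ Ω →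
      ∫ p, f τ p * (τ * fderiv ℝ χ p (1, 0) - fderiv ℝ χ p (0, 1)) = 0) :
    ∃ ft : ℂ → ℝ × ℝ → ℂ,
      (∀ τ ∈ HH, ∃ g : ℂ → ℂ, DifferentiableOn ℂ g (zt τ '' Ω) ∧ ∀ p ∈ Ω, ft τ p = g (zt τ p)) ∧
      (∀ τ ∈ HH, ∀ᵐ p ∂(volume.restrict Ω), f τ p = ft τ p) ∧
      (∀ p ∈ Ω, DifferentiableOn ℂ (fun τ => ft τ p) HH) ∧
      (∀ p ∈ Ω, ∀ τ ∈ HH, ∀ ρ : ℕ → ℝ × ℝ → ℂ,
        (∀ n, ContDiff ℝ (⊤ : ℕ∞) (ρ n) ∧ tsupport (ρ n) ⊆ Metric.closedBall p (1 / (n + 1)) ∧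
          ∫ q, ρ n q = 1 ∧ ∫ q, ‖ρ n q‖ = 1) →
        Tendsto (fun n => ∫ q, f τ q * ρ n q) atTop (𝓝 (ft τ p)) ∧
        Tendsto (fun n => deriv (fun σ => ∫ q, f σ q * ρ n q) τ) atTop
          (𝓝 (deriv (fun σ => ft σ p) τ))) := by
  classical
  have hex : ∀ τ, ∃ g : ℂ → ℂ, τ ∈ HH → (DifferentiableOn ℂ g (zt τ '' Ω) ∧
      ∀ᵐ p ∂(volume.restrict Ω), f τ p = g (zt τ p)) := by
    intro τ
    by_cases hτ : τ ∈ HH
    · obtain ⟨g, hg⟩ := weyl τ hτ Ω hΩ (f τ)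
        (locallyIntegrableOn_of_locallyIntegrable_restrict ((h1 τ hτ).locallyIntegrable (by norm_num)))
        (h3 τ hτ)
      exact ⟨g, fun _ => hg⟩
    · exact ⟨0, fun h => absurd h hτ⟩
  choose g hg using hex
  have hgd : ∀ τ ∈ HH, DifferentiableOn ℂ (g τ) (zt τ '' Ω) := fun τ hτ => (hg τ hτ).1
  have hgae : ∀ τ ∈ HH, ∀ᵐ p ∂(volume.restrict Ω), f τ p = g τ (zt τ p) := fun τ hτ => (hg τ hτ).2
  have hdN : ∀ p ∈ Ω, ∀ ρ : ℕ → ℝ × ℝ → ℂ,
      (∀ n, ContDiff ℝ (⊤ : ℕ∞) (ρ n) ∧ tsupport (ρ n) ⊆ Metric.closedBall p (1 / (n + 1)) ∧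
          ∫ q, ρ n q = 1 ∧ ∫ q, ‖ρ n q‖ = 1) →
      ∀ᶠ n in atTop, DifferentiableOn ℂ (fun τ => ∫ q, f τ q * ρ n q) HH := by
    intro p hp ρ hρ
    obtain ⟨R, hR, hRΩ⟩ := Metric.isOpen_iff.1 hΩ p hp
    have hlim : Tendsto (fun n : ℕ => (1 : ℝ) / (n + 1)) atTop (𝓝 0) :=
      tendsto_one_div_add_atTop_nhds_zero_nat
    filter_upwards [hlim.eventually (gt_mem_nhds hR)] with n hn
    apply h2 (ρ n) (hρ n).1
    · exact HasCompactSupport.of_support_subset_isCompact (isCompact_closedBall p (1 / ((n:ℝ) + 1)))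
        ((subset_tsupport _).trans (hρ n).2.1)
    · refine (hρ n).2.1.trans (subset_trans ?_ hRΩ)
      exact Metric.closedBall_subset_ball hn
  refine ⟨fun τ p => g τ (zt τ p), ?_, ?_, ?_, ?_⟩
  · intro τ hτ
    exact ⟨g τ, hgd τ hτ, fun p _ => rfl⟩
  · exact hgae
  · intro p hp
    obtain ⟨ρ, hρ⟩ := exists_rho p
    exact (tlu Ω f h1 h1b g hΩ hgd hgae p hp ρ hρ).differentiableOn (hdN p hp ρ hρ) isOpen_HH
  · intro p hp τ hτ ρ hρ
    have ht := tlu Ω f h1 h1b g hΩ hgd hgae p hp ρ hρ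
    refine ⟨ht.tendsto_at hτ, ?_⟩
    exact (ht.deriv (hdN p hp ρ hρ) isOpen_HH).tendsto_at hτ

end Pool.Agent.Helper96.OF
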