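import Pool.Agent.Helper96.OF.Defs

/-!
# OF-N1 (NAG): Nagumo type uniqueness lemma

Proof. Claim (j ∈ ℕ): for `τ ∈ ball τ0 t0`, `d = t0 - |τ-τ0|`, `0<r<r0`: `‖lam τ r‖ ≤ B (K r^δ / d)^j`, `K = C e / δ`.
Step: Cauchy's estimate with radius `d/(j+2)`, `(j+2) ((j+2)/(j+1))^j ≤ e (j+1)`, and integration in `r`.
-/

set_option autoImplicit false

open Filter Topology

namespace Pool.Agent.Helper96.OF

theorem nagumo_aux_exp (j : ℕ) :
    ((j : ℝ) + 2) * (((j : ℝ) + 2) / (j + 1)) ^ j ≤ Real.exp 1 * (j + 1) := by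
  have hj : (0 : ℝ) < (j : ℝ) + 1 := by positivity
  have h1 : ((j : ℝ) + 2) / (j + 1) = 1 + 1 / ((j : ℝ) + 1) := by
    field_simp
    ring
  have h2 : (1 + 1 / ((j : ℝ) + 1)) ^ (j + 1) ≤ Real.exp 1 := by
    have h3 := Real.add_one_le_exp (1 / ((j : ℝ) + 1))
    have h4 : (1 + 1 / ((j : ℝ) + 1)) ^ (j + 1) ≤ (Real.exp (1 / ((j : ℝ) + 1))) ^ (j + 1) := by
      refine pow_le_pow_left₀ (by positivity) ?_ _
      linarith
    refine h4.trans (le_of_eq ?_)
    rw [← Real.exp_nat_mul]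
    congr 1
    push_cast
    field_simp
  have h5 : ((j : ℝ) + 2) * (((j : ℝ) + 2) / (j + 1)) ^ j =
      (1 + 1 / ((j : ℝ) + 1)) ^ (j + 1) * (j + 1) := by
    rw [← h1, pow_succ]
    field_simp
  rw [h5]
  exact mul_le_mul_of_nonneg_right h2 hj.le

theorem nagumo (τ0 : ℂ) (t0 r0 δ C B : ℝ) (ht0 : 0 < t0) (hr0 : 0 < r0) (hδ : 0 < δ) (hC : 0 ≤ C)
    (lam : ℂ → ℝ → ℂ)
    (hhol : ∀ r ∈ Set.Ioo 0 r0, DifferentiableOn ℂ (fun τ => lam τ r) (Metric.ball τ0 t0))
    (hdiff : ∀ τ ∈ Metric.ball τ0 t0, ∀ r ∈ Set.Ioo 0 r0, DifferentiableAt ℝ (lam τ) r ∧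
      ‖deriv (lam τ) r‖ ≤ C * r ^ (δ - 1) * ‖deriv (fun σ => lam σ r) τ‖)
    (hb : ∀ τ ∈ Metric.ball τ0 t0, ∀ r ∈ Set.Ioo 0 r0, ‖lam τ r‖ ≤ B)
    (hlim : ∀ τ ∈ Metric.ball τ0 t0, Tendsto (lam τ) (𝓝[>] 0) (𝓝 0)) :
    ∀ τ ∈ Metric.ball τ0 (t0 / 2), ∀ r ∈ Set.Ioo 0 r0,
      C * Real.exp 1 * r ^ δ / (δ * (t0 / 2)) < 1 → lam τ r = 0 := by
  have hB0 : 0 ≤ B := (norm_nonneg _).trans
    (hb τ0 (Metric.mem_ball_self ht0) (r0 / 2) ⟨by positivity, by linarith⟩)
  set K : ℝ := C * Real.exp 1 / δ with hK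
  have hK0 : 0 ≤ K := by positivity
  have claim : ∀ j : ℕ, ∀ τ ∈ Metric.ball τ0 t0, ∀ r ∈ Set.Ioo 0 r0,
      ‖lam τ r‖ ≤ B * (K * r ^ δ / (t0 - dist τ τ0)) ^ j := by
    intro j
    induction j with
    | zero =>
      intro τ hτ r hr
      simpa using hb τ hτ r hr
    | succ j ih =>
      intro τ hτ r hr
      rw [Metric.mem_ball] at hτ
      set d : ℝ := t0 - dist τ τ0 with hd
      have hdpos : 0 < d := by linarith
      have hj1 : (0 : ℝ) < (j : ℝ) + 1 := by positivity
      have hj2 : (0 : ℝ) < (j : ℝ) + 2 := by positivity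
      -- the bound for the derivative
      have hder : ∀ s ∈ Set.Ioo 0 r0, ‖deriv (fun σ => lam σ s) τ‖ ≤
          B * (K * s ^ δ / d) ^ j * (Real.exp 1 * (j + 1) / d) := by
        intro s hs
        have hs0 : 0 ≤ s ^ δ := Real.rpow_nonneg hs.1.le _
        have hρ : 0 < d / ((j : ℝ) + 2) := by positivity
        have hρd : d / ((j : ℝ) + 2) < d := by
          rw [div_lt_iff₀ hj2]
          nlinarith
        have hsub : Metric.closedBall τ (d / ((j : ℝ) + 2)) ⊆ Metric.ball τ0 t0 := by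
          intro σ hσ
          rw [Metric.mem_closedBall] at hσ
          rw [Metric.mem_ball]
          have := dist_triangle σ τ τ0
          linarith
        have hdc : DiffContOnCl ℂ (fun σ => lam σ s) (Metric.ball τ (d / ((j : ℝ) + 2))) :=
          ((hhol s hs).mono (Metric.closure_ball_subset_closedBall.trans hsub)).diffContOnCl
        have h1 := Complex.norm_deriv_le_of_forall_mem_sphere_norm_le hρ hdc
          (C := B * (K * s ^ δ / d) ^ j * (((j : ℝ) + 2) / (j + 1)) ^ j) (by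
            intro σ hσ
            have hσ' : σ ∈ Metric.ball τ0 t0 := hsub (Metric.sphere_subset_closedBall hσ)
            refine (ih σ hσ' s hs).trans ?_
            rw [mul_assoc, ← mul_pow]
            refine mul_le_mul_of_nonneg_left ?_ hB0
            rw [Metric.mem_sphere] at hσ
            have h2 : d * ((j + 1) / ((j : ℝ) + 2)) ≤ t0 - dist σ τ0 := by
              have h3 := dist_triangle σ τ τ0
              rw [hσ] at h3
              have h4 : d * ((j + 1) / ((j : ℝ) + 2)) = d - d / ((j : ℝ) + 2) := by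
                field_simp
                ring
              rw [h4]
              linarith
            have h5 : 0 < d * ((j + 1) / ((j : ℝ) + 2)) := by positivity
            refine pow_le_pow_left₀ (div_nonneg (mul_nonneg hK0 hs0) (h5.le.trans h2)) ?_ _
            have h6 : K * s ^ δ / (t0 - dist σ τ0) ≤ K * s ^ δ / (d * ((j + 1) / ((j : ℝ) + 2))) :=
              div_le_div_of_nonneg_left (mul_nonneg hK0 hs0) h5 h2
            refine h6.trans (le_of_eq ?_)
            field_simp)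
        refine h1.trans ?_
        have h7 := nagumo_aux_exp j
        have h8 : 0 ≤ B * (K * s ^ δ / d) ^ j := by positivity
        calc B * (K * s ^ δ / d) ^ j * (((j : ℝ) + 2) / (j + 1)) ^ j / (d / ((j : ℝ) + 2))
            = B * (K * s ^ δ / d) ^ j * ((((j : ℝ) + 2) * (((j : ℝ) + 2) / (j + 1)) ^ j) / d) := by
              field_simp
          _ ≤ B * (K * s ^ δ / d) ^ j * (Real.exp 1 * (j + 1) / d) := by
              refine mul_le_mul_of_nonneg_left ?_ h8
              exact div_le_div_of_nonneg_right h7 hdpos.le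
      -- the comparison function
      set g : ℝ → ℝ := fun s => B * (K / d) ^ (j + 1) * (s ^ δ) ^ (j + 1) with hg
      have hgd : ∀ s : ℝ, 0 < s → HasDerivAt g
          (B * (K / d) ^ (j + 1) * (((j + 1 : ℕ) : ℝ) * (s ^ δ) ^ j * (δ * s ^ (δ - 1)))) s := by
        intro s hs
        have h1 := (Real.hasDerivAt_rpow_const (x := s) (p := δ) (Or.inl hs.ne')).fun_pow (j + 1)
        have h2 := h1.const_mul (B * (K / d) ^ (j + 1))
        exact h2
      have hbd : ∀ s ∈ Set.Ioo 0 r0, ‖deriv (lam τ) s‖ ≤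
          B * (K / d) ^ (j + 1) * (((j + 1 : ℕ) : ℝ) * (s ^ δ) ^ j * (δ * s ^ (δ - 1))) := by
        intro s hs
        have h1 := (hdiff τ (Metric.mem_ball.2 hτ) s hs).2
        have h2 : 0 ≤ C * s ^ (δ - 1) := mul_nonneg hC (Real.rpow_nonneg hs.1.le _)
        refine (h1.trans (mul_le_mul_of_nonneg_left (hder s hs) h2)).trans (le_of_eq ?_)
        have h3 : K * δ = C * Real.exp 1 := by
          rw [hK]
          field_simp
        have h4 : (K * s ^ δ / d) ^ j = (K / d) ^ j * (s ^ δ) ^ j := by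
          rw [← mul_pow]
          congr 1
          ring
        rw [h4, pow_succ (K / d) j]
        push_cast
        calc C * s ^ (δ - 1) * (B * ((K / d) ^ j * (s ^ δ) ^ j) * (Real.exp 1 * (↑j + 1) / d))
            = (C * Real.exp 1) * (s ^ (δ - 1) * (B * ((K / d) ^ j * (s ^ δ) ^ j) * ((↑j + 1) / d))) := by
              ring
          _ = B * ((K / d) ^ j * (K / d)) * ((↑j + 1) * (s ^ δ) ^ j * (δ * s ^ (δ - 1))) := by
              rw [← h3]
              ring
      have hmain : ∀ ε ∈ Set.Ioo 0 r, ‖lam τ r‖ ≤ g r + ‖lam τ ε‖ := by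
        intro ε hε
        have hcont : ContinuousOn (lam τ) (Set.Icc ε r) := fun s hs =>
          (hdiff τ (Metric.mem_ball.2 hτ) s ⟨lt_of_lt_of_le hε.1 hs.1,
            lt_of_le_of_lt hs.2 hr.2⟩).1.continuousAt.continuousWithinAt
        have hgε : 0 ≤ g ε := by
          have : 0 ≤ ε ^ δ := Real.rpow_nonneg hε.1.le _
          rw [hg]
          positivity
        have h1 := image_norm_le_of_norm_deriv_right_le_deriv_boundary' (f := lam τ)
          (f' := fun s => deriv (lam τ) s) (a := ε) (b := r)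
          (B := fun s => g s - g ε + ‖lam τ ε‖)
          (B' := fun s => B * (K / d) ^ (j + 1) *
            (((j + 1 : ℕ) : ℝ) * (s ^ δ) ^ j * (δ * s ^ (δ - 1)))) hcont
          (fun s hs => (hdiff τ (Metric.mem_ball.2 hτ) s ⟨lt_of_lt_of_le hε.1 hs.1,
            hs.2.trans hr.2⟩).1.hasDerivAt.hasDerivWithinAt)
          (by simp)
          (fun s hs => (((hgd s (lt_of_lt_of_le hε.1 hs.1)).sub_const (g ε)).add_const
            ‖lam τ ε‖).continuousAt.continuousWithinAt)
          (fun s hs => (((hgd s (lt_of_lt_of_le hε.1 hs.1)).sub_const (g ε)).add_const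
            ‖lam τ ε‖).hasDerivWithinAt)
          (fun s hs => hbd s ⟨lt_of_lt_of_le hε.1 hs.1, hs.2.trans hr.2⟩)
        have h2 := h1 ⟨hε.2.le, le_rfl⟩
        linarith
      have hle : ‖lam τ r‖ ≤ g r := by
        have h1 : Tendsto (fun ε => g r + ‖lam τ ε‖) (𝓝[>] 0) (𝓝 (g r + ‖(0 : ℂ)‖)) :=
          tendsto_const_nhds.add (hlim τ (Metric.mem_ball.2 hτ)).norm
        rw [norm_zero, add_zero] at h1
        refine ge_of_tendsto h1 ?_
        filter_upwards [Ioo_mem_nhdsGT hr.1] with ε hε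
        exact hmain ε hε
      refine hle.trans (le_of_eq ?_)
      rw [hg]
      show B * (K / d) ^ (j + 1) * (r ^ δ) ^ (j + 1) = B * (K * r ^ δ / d) ^ (j + 1)
      rw [mul_assoc, ← mul_pow]
      congr 2
      ring
  intro τ hτ r hr hq
  rw [Metric.mem_ball] at hτ
  have hr1 : 0 ≤ r ^ δ := Real.rpow_nonneg hr.1.le _
  have hτ' : τ ∈ Metric.ball τ0 t0 := by
    rw [Metric.mem_ball]
    linarith
  set q : ℝ := C * Real.exp 1 * r ^ δ / (δ * (t0 / 2)) with hqdef
  have hq0 : 0 ≤ q := by positivity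
  have hKq : K * r ^ δ / (t0 - dist τ τ0) ≤ q := by
    have h1 : q = K * r ^ δ / (t0 / 2) := by
      rw [hqdef, hK]
      field_simp
    rw [h1]
    exact div_le_div_of_nonneg_left (by positivity) (by positivity) (by linarith)
  have hKpos : 0 ≤ K * r ^ δ / (t0 - dist τ τ0) :=
    div_nonneg (by positivity) (by linarith)
  have h1 : ∀ j : ℕ, ‖lam τ r‖ ≤ B * q ^ j := fun j =>
    (claim j τ hτ' r hr).trans (mul_le_mul_of_nonneg_left (pow_le_pow_left₀ hKpos hKq j) hB0)
  have h2 : Tendsto (fun j : ℕ => B * q ^ j) atTop (𝓝 (B * 0)) :=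
    (tendsto_pow_atTop_nhds_zero_of_lt_one hq0 hq).const_mul B
  rw [mul_zero] at h2
  have h3 := ge_of_tendsto' h2 h1
  exact norm_le_zero_iff.1 h3

end Pool.Agent.Helper96.OF
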