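import Pool.Agent.Helper96.OF.FT4

/-!
# OF-FT5: the space H1

`trip` is linear on nice FinS functions (FT2 cls_add, cls_smul, FT1 dx_add, dx_smul; a.e. = on unitSq ⊆ Cross), so the span in the definition of `H1` is the set of the `trip f` itself, and
`v ∈ H1` iff v is a limit of a sequence `trip (f n)` (metric space closure). `H1_conj`: nice_conj. Real elements: replace `f n` by its real part `½(f+conj f)`.
`poi_H1`, `iso_H1` (and iso with a nice f whose derivatives are in L²): pass to the limit in FT4 / FT3 (bilinear, continuous; use inner_KK with conj).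
`ibp_H1`: for v ∈ H1 and g nice FinS: `∫ v1 g = -∫ v0 g_x`, `∫ v2 g = -∫ v0 g_y`.
-/

set_option autoImplicit false
set_option linter.unusedSectionVars false

open MeasureTheory Filter Topology

namespace Pool.Agent.Helper96.OF

variable {X : Type} [Countable X] [MeasurableSpace X] [DiscreteMeasurableSpace X] {α β : Equiv.Perm X}

private lemma memLp_all {f : X → ℝ × ℝ → ℂ} {c : X → ℂ} (hf : Nice α β f c) (hs : FinS f) :
    MemLp (fl f) 2 (mu X) ∧ MemLp (fl (dx f)) 2 (mu X) ∧ MemLp (fl (dy f)) 2 (mu X) :=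
  ⟨nice_memLp hf hs 2, nice_memLp (nice_dx hf) (finS_dx hs).1 2,
    nice_memLp (nice_dy hf) (finS_dx hs).2 2⟩

private lemma trip_add {f g : X → ℝ × ℝ → ℂ} {c d : X → ℂ} (hf : Nice α β f c) (hfs : FinS f)
    (hg : Nice α β g d) (hgs : FinS g) :
    trip (fun s p => f s p + g s p) = trip f + trip g := by
  obtain ⟨a0, a1, a2⟩ := memLp_all hf hfs
  obtain ⟨b0, b1, b2⟩ := memLp_all hg hgs
  ext i : 1
  fin_cases i
  · exact cls_add a0 b0
  · show cls (fl (dx (fun s p => f s p + g s p))) = cls (fl (dx f)) + cls (fl (dx g))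
    rw [← cls_add a1 b1]
    exact cls_congr (ae_mu_of _ fun s p hp => (dx_add hf hg s p (unitSq_subset_Cross hp)).1)
  · show cls (fl (dy (fun s p => f s p + g s p))) = cls (fl (dy f)) + cls (fl (dy g))
    rw [← cls_add a2 b2]
    exact cls_congr (ae_mu_of _ fun s p hp => (dx_add hf hg s p (unitSq_subset_Cross hp)).2)

private lemma trip_smul {f : X → ℝ × ℝ → ℂ} {c : X → ℂ} (k : ℂ) (hf : Nice α β f c)
    (hfs : FinS f) :
    trip (fun s p => k * f s p) = k • trip f := by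
  obtain ⟨a0, a1, a2⟩ := memLp_all hf hfs
  ext i : 1
  fin_cases i
  · exact cls_smul a0 k
  · show cls (fl (dx (fun s p => k * f s p))) = k • cls (fl (dx f))
    rw [← cls_smul a1 k]
    exact cls_congr (ae_mu_of _ fun s p hp => (dx_smul k hf s p (unitSq_subset_Cross hp)).1)
  · show cls (fl (dy (fun s p => k * f s p))) = k • cls (fl (dy f))
    rw [← cls_smul a2 k]
    exact cls_congr (ae_mu_of _ fun s p hp => (dx_smul k hf s p (unitSq_subset_Cross hp)).2)

private lemma finS_smul {f : X → ℝ × ℝ → ℂ} (k : ℂ) (hf : FinS f) :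
    FinS (fun s p => k * f s p) := by
  obtain ⟨S, hS⟩ := hf
  exact ⟨S, fun s hs p hp => by simp [hS s hs p hp]⟩

private lemma finS_conj {f : X → ℝ × ℝ → ℂ} (hf : FinS f) :
    FinS (fun s p => (starRingEnd ℂ) (f s p)) := by
  obtain ⟨S, hS⟩ := hf
  exact ⟨S, fun s hs p hp => by simp [hS s hs p hp]⟩

theorem trip_mem {f : X → ℝ × ℝ → ℂ} {c : X → ℂ} (hf : Nice α β f c) (hs : FinS f) :
    trip f ∈ H1 α β :=
  Submodule.le_topologicalClosure _ (Submodule.subset_span ⟨f, c, hf, hs, rfl⟩)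

private lemma span_eq {v : K3 X}
    (hv : v ∈ Submodule.span ℂ {v : K3 X | ∃ f c, Nice α β f c ∧ FinS f ∧ v = trip f}) :
    ∃ f c, Nice α β f c ∧ FinS f ∧ v = trip f := by
  induction hv using Submodule.span_induction with
  | mem x hx => exact hx
  | zero =>
    refine ⟨fun _ _ => 0 * 0, fun _ => 0 * 0, nice_smul 0 (nice_const 0), ⟨∅, by simp⟩, ?_⟩
    rw [trip_smul (α := α) (β := β) 0 (nice_const 0) ⟨∅, by simp⟩]
    simp
  | add x y _ _ hx hy =>
    obtain ⟨f, c, hf, hfs, rfl⟩ := hx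
    obtain ⟨g, d, hg, hgs, rfl⟩ := hy
    exact ⟨_, _, nice_add hf hg, finS_add hfs hgs, (trip_add hf hfs hg hgs).symm⟩
  | smul k x _ hx =>
    obtain ⟨f, c, hf, hfs, rfl⟩ := hx
    exact ⟨_, _, nice_smul k hf, finS_smul k hfs, (trip_smul k hf hfs).symm⟩

theorem mem_H1_iff (v : K3 X) : v ∈ H1 α β ↔
    ∃ (f : ℕ → X → ℝ × ℝ → ℂ) (c : ℕ → X → ℂ), (∀ n, Nice α β (f n) (c n) ∧ FinS (f n)) ∧
      Tendsto (fun n => trip (f n)) atTop (𝓝 v) := by
  constructor
  · intro hv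
    have hv' : v ∈ closure (Submodule.span ℂ
        {v : K3 X | ∃ f c, Nice α β f c ∧ FinS f ∧ v = trip f} : Set (K3 X)) := hv
    obtain ⟨x, hx, hlim⟩ := mem_closure_iff_seq_limit.1 hv'
    choose f c h1 h2 h3 using fun n => span_eq (hx n)
    exact ⟨f, c, fun n => ⟨h1 n, h2 n⟩, hlim.congr h3⟩
  · rintro ⟨f, c, h, hlim⟩
    have : IsClosed (H1 α β : Set (K3 X)) := Submodule.isClosed_topologicalClosure _
    exact this.mem_of_tendsto hlim (Eventually.of_forall fun n => trip_mem (h n).1 (h n).2)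

/-- conjugate triple -/
noncomputable def J3 (v : K3 X) : K3 X := WithLp.toLp 2 fun i => JK X (v i)

private lemma J3_cont : Continuous (J3 : K3 X → K3 X) := by
  unfold J3
  fun_prop

private lemma J3_trip {f : X → ℝ × ℝ → ℂ} {c : X → ℂ} (hf : Nice α β f c) (hs : FinS f) :
    J3 (trip f) = trip (fun s p => (starRingEnd ℂ) (f s p)) := by
  obtain ⟨a0, a1, a2⟩ := memLp_all hf hs
  ext i : 1
  fin_cases i
  · exact JK_cls a0
  · show JK X (cls (fl (dx f))) = cls (fl (dx (fun s p => (starRingEnd ℂ) (f s p))))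
    rw [JK_cls a1]
    exact (cls_congr (ae_mu_of _ fun s p hp =>
      (dx_conj hf s p (unitSq_subset_Cross hp)).1)).symm
  · show JK X (cls (fl (dy f))) = cls (fl (dy (fun s p => (starRingEnd ℂ) (f s p))))
    rw [JK_cls a2]
    exact (cls_congr (ae_mu_of _ fun s p hp =>
      (dx_conj hf s p (unitSq_subset_Cross hp)).2)).symm

theorem H1_conj {v : K3 X} (hv : v ∈ H1 α β) : J3 v ∈ H1 α β := by
  obtain ⟨f, c, h, hlim⟩ := (mem_H1_iff v).1 hv
  refine (mem_H1_iff _).2 ⟨fun n s p => (starRingEnd ℂ) (f n s p),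
    fun n s => (starRingEnd ℂ) (c n s), fun n => ⟨nice_conj (h n).1, finS_conj (h n).2⟩, ?_⟩
  have := (J3_cont.tendsto v).comp hlim
  refine this.congr fun n => ?_
  exact J3_trip (h n).1 (h n).2

theorem mem_H1_real {v : K3 X} (hv : v ∈ H1 α β) (hr : RealT v) :
    ∃ (f : ℕ → X → ℝ × ℝ → ℂ) (c : ℕ → X → ℂ), (∀ n, Nice α β (f n) (c n) ∧ FinS (f n) ∧
      (∀ s p, (f n s p).im = 0) ∧ ∀ s, (c n s).im = 0) ∧
      Tendsto (fun n => trip (f n)) atTop (𝓝 v) := by
  obtain ⟨f, c, h, hlim⟩ := (mem_H1_iff v).1 hv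
  refine ⟨fun n s p => (1 / 2 : ℂ) * (f n s p + (starRingEnd ℂ) (f n s p)),
    fun n s => (1 / 2 : ℂ) * (c n s + (starRingEnd ℂ) (c n s)), fun n => ⟨?_, ?_, ?_, ?_⟩, ?_⟩
  · exact nice_smul _ (nice_add (h n).1 (nice_conj (h n).1))
  · exact finS_smul _ (finS_add (h n).2 (finS_conj (h n).2))
  · intro s p
    show ((1 / 2 : ℂ) * (f n s p + (starRingEnd ℂ) (f n s p))).im = 0
    rw [Complex.add_conj]
    simp
  · intro s
    show ((1 / 2 : ℂ) * (c n s + (starRingEnd ℂ) (c n s))).im = 0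
    rw [Complex.add_conj]
    simp
  · have h1 : Tendsto (fun n => (1 / 2 : ℂ) • (trip (f n) + J3 (trip (f n)))) atTop
        (𝓝 ((1 / 2 : ℂ) • (v + J3 v))) :=
      (hlim.add ((J3_cont.tendsto v).comp hlim)).const_smul _
    have h2 : J3 v = v := by
      ext i : 1
      exact hr i
    have h3 : (1 / 2 : ℂ) • (v + J3 v) = v := by
      rw [h2, ← two_smul ℂ v, smul_smul]
      norm_num
    rw [h3] at h1
    refine h1.congr fun n => ?_
    rw [J3_trip (h n).1 (h n).2, ← trip_add (h n).1 (h n).2 (nice_conj (h n).1)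
      (finS_conj (h n).2), ← trip_smul _ (nice_add (h n).1 (nice_conj (h n).1))
      (finS_add (h n).2 (finS_conj (h n).2))]

private lemma tend_comp {u : ℕ → K3 X} {v : K3 X} (h : Tendsto u atTop (𝓝 v)) (i : Fin 3) :
    Tendsto (fun n => u n i) atTop (𝓝 (v i)) := by
  have hc : Continuous fun w : K3 X => w i := by fun_prop
  exact (hc.tendsto v).comp h

theorem poi_H1 (hSG : SG α β) : ∃ C : ℝ, 0 < C ∧ ∀ v ∈ H1 α β,
    ‖v 0‖ ^ 2 ≤ C * (‖v 1‖ ^ 2 + ‖v 2‖ ^ 2) := by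
  obtain ⟨C, hC, hp⟩ := poi_D hSG
  refine ⟨C, hC, fun v hv => ?_⟩
  obtain ⟨f, c, h, hlim⟩ := (mem_H1_iff v).1 hv
  refine le_of_tendsto_of_tendsto' ((tend_comp hlim 0).norm.pow 2)
    ((((tend_comp hlim 1).norm.pow 2).add ((tend_comp hlim 2).norm.pow 2)).const_mul C)
    fun n => ?_
  obtain ⟨a0, a1, a2⟩ := memLp_all (h n).1 (h n).2
  have := hp (f n) (c n) (h n).1 (h n).2
  rw [← cls_norm a0, ← cls_norm a1, ← cls_norm a2] at this
  exact this

private lemma inner_cls {q : Sq X → ℂ} (hq : MemLp q 2 (mu X)) (v : KK X) :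
    inner ℂ v (cls q) = ∫ x, (starRingEnd ℂ) ((v : Sq X → ℂ) x) * q x ∂(mu X) := by
  rw [inner_KK]
  refine integral_congr_ae ?_
  filter_upwards [cls_ae hq] with x hx
  rw [hx]

private lemma inner_cls2 {q q' : Sq X → ℂ} (hq : MemLp q 2 (mu X)) (hq' : MemLp q' 2 (mu X)) :
    inner ℂ (cls q) (cls q') = ∫ x, (starRingEnd ℂ) (q x) * q' x ∂(mu X) := by
  rw [inner_cls hq']
  refine integral_congr_ae ?_
  filter_upwards [cls_ae hq] with x hx
  rw [hx]

/-- isotropy for nice functions, first one conjugated and finitely supported -/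
private lemma iso_D' {f g : X → ℝ × ℝ → ℂ} {c d : X → ℂ} (hf : Nice α β f c) (hg : Nice α β g d)
    (hs : FinS g) :
    ∫ q, (starRingEnd ℂ) (fl (dx g) q) * fl (dy f) q ∂(mu X) =
      ∫ q, (starRingEnd ℂ) (fl (dy g) q) * fl (dx f) q ∂(mu X) := by
  have h := iso_D hf (nice_conj hg) (finS_conj hs)
  have e1 : ∫ q, fl (dx f) q * fl (dy (fun s p => (starRingEnd ℂ) (g s p))) q ∂(mu X) =
      ∫ q, (starRingEnd ℂ) (fl (dy g) q) * fl (dx f) q ∂(mu X) := by
    refine integral_congr_ae (ae_mu_of _ fun s p hp => ?_)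
    show dx f s p * dy (fun s p => (starRingEnd ℂ) (g s p)) s p =
      (starRingEnd ℂ) (dy g s p) * dx f s p
    rw [(dx_conj hg s p (unitSq_subset_Cross hp)).2, mul_comm]
  have e2 : ∫ q, fl (dy f) q * fl (dx (fun s p => (starRingEnd ℂ) (g s p))) q ∂(mu X) =
      ∫ q, (starRingEnd ℂ) (fl (dx g) q) * fl (dy f) q ∂(mu X) := by
    refine integral_congr_ae (ae_mu_of _ fun s p hp => ?_)
    show dy f s p * dx (fun s p => (starRingEnd ℂ) (g s p)) s p =
      (starRingEnd ℂ) (dx g s p) * dy f s p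
    rw [(dx_conj hg s p (unitSq_subset_Cross hp)).1, mul_comm]
  rw [e1, e2] at h
  exact h.symm

theorem iso_H1 {u v : K3 X} (hu : u ∈ H1 α β) (hv : v ∈ H1 α β) :
    inner ℂ (u 1) (v 2) = inner ℂ (u 2) (v 1) := by
  obtain ⟨f, c, hf, hflim⟩ := (mem_H1_iff u).1 hu
  obtain ⟨g, d, hg, hglim⟩ := (mem_H1_iff v).1 hv
  have h1 := (tend_comp hflim 1).inner (𝕜 := ℂ) (tend_comp hglim 2)
  have h2 := (tend_comp hflim 2).inner (𝕜 := ℂ) (tend_comp hglim 1)
  refine tendsto_nhds_unique h1 (h2.congr fun n => ?_)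
  obtain ⟨a0, a1, a2⟩ := memLp_all (hf n).1 (hf n).2
  obtain ⟨b0, b1, b2⟩ := memLp_all (hg n).1 (hg n).2
  show inner ℂ (cls (fl (dy (f n)))) (cls (fl (dx (g n)))) =
    inner ℂ (cls (fl (dx (f n)))) (cls (fl (dy (g n))))
  rw [inner_cls2 a2 b1, inner_cls2 a1 b2]
  exact (iso_D' (hg n).1 (hf n).1 (hf n).2).symm

theorem iso_nice {f : X → ℝ × ℝ → ℂ} {c : X → ℂ} (hf : Nice α β f c)
    (h1 : MemLp (fl (dx f)) 2 (mu X)) (h2 : MemLp (fl (dy f)) 2 (mu X)) {v : K3 X}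
    (hv : v ∈ H1 α β) :
    inner ℂ (v 1) (cls (fl (dy f))) = inner ℂ (v 2) (cls (fl (dx f))) := by
  obtain ⟨g, d, hg, hglim⟩ := (mem_H1_iff v).1 hv
  have k1 := (tend_comp hglim 1).inner (𝕜 := ℂ) (tendsto_const_nhds (x := cls (fl (dy f))))
  have k2 := (tend_comp hglim 2).inner (𝕜 := ℂ) (tendsto_const_nhds (x := cls (fl (dx f))))
  refine tendsto_nhds_unique k1 (k2.congr fun n => ?_)
  obtain ⟨b0, b1, b2⟩ := memLp_all (hg n).1 (hg n).2
  show inner ℂ (cls (fl (dy (g n)))) (cls (fl (dx f))) =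
    inner ℂ (cls (fl (dx (g n)))) (cls (fl (dy f)))
  rw [inner_cls2 b2 h1, inner_cls2 b1 h2]
  exact (iso_D' hf (hg n).1 (hg n).2).symm

private lemma inner_conj {g : X → ℝ × ℝ → ℂ} {c : X → ℂ} (hg : Nice α β g c)
    (hs : FinS g) (v : KK X) :
    ∫ q, (v : Sq X → ℂ) q * fl g q ∂(mu X) =
      inner ℂ (cls (fl (fun s p => (starRingEnd ℂ) (g s p)))) v := by
  rw [inner_KK]
  refine integral_congr_ae ?_
  filter_upwards [cls_ae (memLp_all (nice_conj hg) (finS_conj hs)).1] with x hx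
  rw [hx]
  show _ = (starRingEnd ℂ) ((starRingEnd ℂ) (g x.1 x.2)) * _
  rw [Complex.conj_conj, mul_comm]
  rfl

private lemma inner_conj_cls {g : X → ℝ × ℝ → ℂ} {c : X → ℂ} (hg : Nice α β g c)
    (hs : FinS g) {q : Sq X → ℂ} (hq : MemLp q 2 (mu X)) :
    ∫ x, q x * fl g x ∂(mu X) =
      inner ℂ (cls (fl (fun s p => (starRingEnd ℂ) (g s p)))) (cls q) := by
  rw [← inner_conj hg hs]
  refine integral_congr_ae ?_
  filter_upwards [cls_ae hq] with x hx
  rw [hx]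

theorem ibp_H1 {v : K3 X} (hv : v ∈ H1 α β) {g : X → ℝ × ℝ → ℂ} {c : X → ℂ} (hg : Nice α β g c)
    (hs : FinS g) :
    ∫ q, (v 1 : Sq X → ℂ) q * fl g q ∂(mu X) = - ∫ q, (v 0 : Sq X → ℂ) q * fl (dx g) q ∂(mu X) ∧
    ∫ q, (v 2 : Sq X → ℂ) q * fl g q ∂(mu X) = - ∫ q, (v 0 : Sq X → ℂ) q * fl (dy g) q ∂(mu X) := by
  obtain ⟨f, d, hf, hlim⟩ := (mem_H1_iff v).1 hv
  rw [inner_conj hg hs, inner_conj hg hs, inner_conj (nice_dx hg) (finS_dx hs).1,
    inner_conj (nice_dy hg) (finS_dx hs).2]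
  have k (w : KK X) (i : Fin 3) := (tendsto_const_nhds (x := w) (f := (atTop : Filter ℕ))).inner
    (𝕜 := ℂ) (tend_comp hlim i)
  constructor
  · refine tendsto_nhds_unique (k _ 1) ((k _ 0).neg.congr fun n => ?_)
    obtain ⟨b0, b1, b2⟩ := memLp_all (hf n).1 (hf n).2
    show -inner ℂ _ (cls (fl (f n))) = inner ℂ _ (cls (fl (dx (f n))))
    rw [← inner_conj_cls (nice_dx hg) (finS_dx hs).1 b0, ← inner_conj_cls hg hs b1]
    exact (ibp (hf n).1 hg hs).1.symm
  · refine tendsto_nhds_unique (k _ 2) ((k _ 0).neg.congr fun n => ?_)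
    obtain ⟨b0, b1, b2⟩ := memLp_all (hf n).1 (hf n).2
    show -inner ℂ _ (cls (fl (f n))) = inner ℂ _ (cls (fl (dy (f n))))
    rw [← inner_conj_cls (nice_dy hg) (finS_dx hs).2 b0, ← inner_conj_cls hg hs b2]
    exact (ibp (hf n).1 hg hs).2.symm

theorem H1_closed : IsClosed (H1 α β : Set (K3 X)) :=
  Submodule.isClosed_topologicalClosure _

end Pool.Agent.Helper96.OF
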