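import Mathlib

/-!
# OF/Defs: definitions for the proof of S02082 (MP_804d81_al), helper96.
Plan: /team-store/804d81_plan.md.  Part G = group theory, Part FT = square tiled surfaces.
-/

set_option autoImplicit false

open MeasureTheory

namespace Pool.Agent.Helper96.OF

/-! ## Part G: free group of rank two, automorphisms, RAAGs -/

/-- the free group on two letters -/
abbrev A := FreeGroup (Fin 2)

def ga : A := FreeGroup.of 0
def gb : A := FreeGroup.of 1
/-- `z = b a b⁻¹ a⁻¹` -/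
def gz : A := gb * ga * gb⁻¹ * ga⁻¹

/-- `t1 : a ↦ a, b ↦ b a` -/
def t1 : MulAut A where
  toFun := FreeGroup.lift ![ga, gb * ga]
  invFun := FreeGroup.lift ![ga, gb * ga⁻¹]
  left_inv := by
    intro x
    have : (FreeGroup.lift ![ga, gb * ga⁻¹]).comp (FreeGroup.lift ![ga, gb * ga]) = MonoidHom.id A := by
      apply FreeGroup.ext_hom
      intro i
      fin_cases i <;> simp [ga, gb]
    exact DFunLike.congr_fun this x
  right_inv := by
    intro x
    have : (FreeGroup.lift ![ga, gb * ga]).comp (FreeGroup.lift ![ga, gb * ga⁻¹]) = MonoidHom.id A := by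
      apply FreeGroup.ext_hom
      intro i
      fin_cases i <;> simp [ga, gb]
    exact DFunLike.congr_fun this x
  map_mul' := by intro x y; exact map_mul _ x y

/-- `t2 : a ↦ a b, b ↦ b` -/
def t2 : MulAut A where
  toFun := FreeGroup.lift ![ga * gb, gb]
  invFun := FreeGroup.lift ![ga * gb⁻¹, gb]
  left_inv := by
    intro x
    have : (FreeGroup.lift ![ga * gb⁻¹, gb]).comp (FreeGroup.lift ![ga * gb, gb]) = MonoidHom.id A := by
      apply FreeGroup.ext_hom
      intro i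
      fin_cases i <;> simp [ga, gb]
    exact DFunLike.congr_fun this x
  right_inv := by
    intro x
    have : (FreeGroup.lift ![ga * gb, gb]).comp (FreeGroup.lift ![ga * gb⁻¹, gb]) = MonoidHom.id A := by
      apply FreeGroup.ext_hom
      intro i
      fin_cases i <;> simp [ga, gb]
    exact DFunLike.congr_fun this x
  map_mul' := by intro x y; exact map_mul _ x y

/-- inner automorphisms -/
def Inn : Subgroup (MulAut A) := (MulAut.conj : A →* MulAut A).range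

/-- `B3 = <t1, t2>` -/
def B3 : Subgroup (MulAut A) := Subgroup.closure {t1, t2}

/-- `G0 = <Inn A, t1, t2>` -/
def G0 : Subgroup (MulAut A) := B3 ⊔ Inn

/-- right-angled Artin group of a graph (same presentation as in S02082) -/
abbrev Raag {V : Type} (Γ : SimpleGraph V) : Type :=
  PresentedGroup {r : FreeGroup V | ∃ a b : V, Γ.Adj a b ∧
    r = FreeGroup.of a * FreeGroup.of b * (FreeGroup.of a)⁻¹ * (FreeGroup.of b)⁻¹}

/-- vertices different from `v` -/
abbrev Vm {V : Type} (v : V) : Type := {w : V // w ≠ v}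

/-- the graph `Γ - v` -/
abbrev Gm {V : Type} (Γ : SimpleGraph V) (v : V) : SimpleGraph (Vm v) := Γ.comap (fun w => (w : V))

/-- a finite index subgroup of `G0` embeds in the RAAG of a graph on `V` -/
def Emb {V : Type} (Γ : SimpleGraph V) : Prop :=
  ∃ (H : Subgroup (MulAut A)) (f : H →* Raag Γ), H ≤ G0 ∧ H.relIndex G0 ≠ 0 ∧ Function.Injective f

/-- Theorem M (statement) -/
def TheoremM : Prop :=
  ∀ (A1 R : Subgroup A), R ≤ A1 → A1.index ≠ 0 → (∀ g ∈ A1, ∀ r ∈ R, g * r * g⁻¹ ∈ R) →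
  ∀ (ι : Type) (_ : Finite ι) (p : A1 →* FreeGroup ι), Function.Surjective p →
    (∀ g : A1, p g = 1 ↔ (g : A) ∈ R) → (∃ i j : ι, i ≠ j) →
  ∀ (M : Subgroup (MulAut A)), M ≤ G0 → (∀ m ∈ M, ∀ g ∈ A1, g⁻¹ * m g ∈ R) →
    (M ⊔ Inn).relIndex G0 ≠ 0 →
    (∃ n : ℕ, 0 < n ∧ gz ^ n ∈ R) →
    (∃ m0 ∈ M, ∃ g0 ∈ A1, g0 ∉ R ∧ m0 gz = g0⁻¹ * gz * g0) →
  ∀ N : ℤ, (∀ g, g ∈ A1 ↔ gz ^ N * g * gz ^ (-N) ∈ A1) → (∀ g, g ∈ R ↔ gz ^ N * g * gz ^ (-N) ∈ R) →
    ∀ g ∈ A1, g⁻¹ * (gz ^ N * g * gz ^ (-N)) ∈ R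

/-! ## Part FT: square tiled surfaces -/

section FT

variable {X : Type}

/-- the commutator `β α β⁻¹ α⁻¹`: its orbits are the (lower left) corners -/
def zeta (α β : Equiv.Perm X) : Equiv.Perm X := β * α * β⁻¹ * α⁻¹

/-- the open cross -/
def Cross : Set (ℝ × ℝ) := {p | (0 < p.2 ∧ p.2 < 1) ∨ (0 < p.1 ∧ p.1 < 1)}

/-- the open unit square -/
def unitSq : Set (ℝ × ℝ) := Set.Ioo (0:ℝ) 1 ×ˢ Set.Ioo (0:ℝ) 1

/-- `f` is a nice function on the surface of `(α, β)` with corner values `c` -/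
structure Nice (α β : Equiv.Perm X) (f : X → ℝ × ℝ → ℂ) (c : X → ℂ) : Prop where
  smooth : ∀ s, ContDiffOn ℝ (⊤ : ℕ∞) (f s) Cross
  row : ∀ s x y, 0 < y → y < 1 → f s (x + 1, y) = f (α s) (x, y)
  col : ∀ s x y, 0 < x → x < 1 → f s (x, y + 1) = f (β s) (x, y)
  corner : ∃ ρ : ℝ, 0 < ρ ∧ ρ ≤ 1 / 2 ∧ ∀ s x y, 0 < x → x < ρ → 0 < y → y < ρ →
    f s (x, y) = c s ∧ f s (1 - x, y) = c (α s) ∧ f s (x, 1 - y) = c (β s) ∧
    f s (1 - x, 1 - y) = c (β (α s))
  cinv : ∀ s, c (zeta α β s) = c s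

/-- supported in finitely many squares -/
def FinS (f : X → ℝ × ℝ → ℂ) : Prop := ∃ S : Finset X, ∀ s ∉ S, ∀ p ∈ unitSq, f s p = 0

/-- partial derivatives -/
noncomputable def dx (f : X → ℝ × ℝ → ℂ) : X → ℝ × ℝ → ℂ := fun s p => fderiv ℝ (f s) p (1, 0)
noncomputable def dy (f : X → ℝ × ℝ → ℂ) : X → ℝ × ℝ → ℂ := fun s p => fderiv ℝ (f s) p (0, 1)

/-- points of the surface -/
abbrev Sq (X : Type) := X × ℝ × ℝ

/-- a family of functions as a function on `Sq X` -/
def fl (f : X → ℝ × ℝ → ℂ) : Sq X → ℂ := fun q => f q.1 q.2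

variable [MeasurableSpace X]

/-- counting measure times Lebesgue measure on the unit squares -/
noncomputable def mu (X : Type) [MeasurableSpace X] : Measure (Sq X) :=
  (Measure.count : Measure X).prod ((volume : Measure (ℝ × ℝ)).restrict unitSq)

/-- `L²` of the surface -/
noncomputable abbrev KK (X : Type) [MeasurableSpace X] := Lp ℂ 2 (mu X)

/-- triples (function, x-derivative, y-derivative) -/
noncomputable abbrev K3 (X : Type) [MeasurableSpace X] := PiLp 2 (fun _ : Fin 3 => KK X)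

/-- the class in `L²` of a function (zero if not in `L²`) -/
noncomputable def cls (f : Sq X → ℂ) : KK X :=
  open Classical in if h : MemLp f 2 (mu X) then h.toLp f else 0

/-- the triple of a family `f` -/
noncomputable def trip (f : X → ℝ × ℝ → ℂ) : K3 X :=
  WithLp.toLp 2 ![cls (fl f), cls (fl (dx f)), cls (fl (dy f))]

/-- closure of the nice finitely supported functions -/
noncomputable def H1 (α β : Equiv.Perm X) : Submodule ℂ (K3 X) :=
  (Submodule.span ℂ {v : K3 X | ∃ f c, Nice α β f c ∧ FinS f ∧ v = trip f}).topologicalClosure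

/-- complex conjugation on `L²` -/
noncomputable def JK (X : Type) [MeasurableSpace X] : KK X →L[ℝ] KK X :=
  ContinuousLinearMap.compLpL 2 (mu X) (Complex.conjCLE : ℂ →L[ℝ] ℂ)

/-- real triple -/
def RealT (v : K3 X) : Prop := ∀ i, JK X (v i) = v i

end FT

section FT2
variable {X : Type}

/-- bounded, corner-invariant functions on squares with finite energy -/
structure InW (α β : Equiv.Perm X) (w : X → ℝ) : Prop where
  bdd : ∃ C : ℝ, ∀ x, |w x| ≤ C
  inv : ∀ x, w (zeta α β x) = w x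
  sa : Summable fun x => (w (α x) - w x) ^ 2
  sb : Summable fun x => (w (β x) - w x) ^ 2

/-- square summable -/
def L2s (w : X → ℝ) : Prop := Summable fun x => (w x) ^ 2

/-- spectral gap (discrete Poincaré inequality) for the pair of permutations -/
def SG (α β : Equiv.Perm X) : Prop :=
  ∃ C : ℝ, 0 < C ∧ ∀ w : X → ℝ, L2s w →
    ∑' x, (w x) ^ 2 ≤ C * (∑' x, (w (α x) - w x) ^ 2 + ∑' x, (w (β x) - w x) ^ 2)

/-- connectedness -/
def Conn (α β : Equiv.Perm X) : Prop :=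
  ∀ x y : X, ∃ g ∈ Subgroup.closure ({α, β} : Set (Equiv.Perm X)), g x = y

/-- smooth step, 0 for `t ≤ 1/3`, 1 for `t ≥ 2/3` -/
noncomputable def sg (t : ℝ) : ℝ := Real.smoothTransition (3 * t - 1)

/-- extension of a function on squares to the crosses -/
noncomputable def ext (α β : Equiv.Perm X) (f : X → ℝ × ℝ → ℂ) : X → ℝ × ℝ → ℂ := fun s p =>
  f ((α ^ ⌊p.1⌋) ((β ^ ⌊p.2⌋) s)) (Int.fract p.1, Int.fract p.2)

/-- interpolation of the corner function `c` -/
noncomputable def Phi (α β : Equiv.Perm X) (c : X → ℂ) : X → ℝ × ℝ → ℂ :=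
  ext α β fun s p =>
    (((1 - sg p.1) * (1 - sg p.2) : ℝ) : ℂ) * c s + ((sg p.1 * (1 - sg p.2) : ℝ) : ℂ) * c (α s) +
    (((1 - sg p.1) * sg p.2 : ℝ) : ℂ) * c (β s) + ((sg p.1 * sg p.2 : ℝ) : ℂ) * c (β (α s))

/-- a real function as a complex one -/
def toC (w : X → ℝ) : X → ℂ := fun x => (w x : ℂ)

variable [MeasurableSpace X]

/-- `Φ_w`, its derivative classes -/
noncomputable def ph1 (α β : Equiv.Perm X) (w : X → ℝ) : KK X := cls (fl (dx (Phi α β (toC w))))
noncomputable def ph2 (α β : Equiv.Perm X) (w : X → ℝ) : KK X := cls (fl (dy (Phi α β (toC w))))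

/-- the weak equation at `τ` for `Φ_w + ψ` -/
def IsSol (α β : Equiv.Perm X) (w : X → ℝ) (τ : ℂ) (ψ : K3 X) : Prop :=
  ψ ∈ H1 α β ∧ ∀ χ ∈ H1 α β,
    inner ℂ (χ 2 - (starRingEnd ℂ) τ • χ 1)
      ((ph2 α β w + ψ 2) - (starRingEnd ℂ) τ • (ph1 α β w + ψ 1)) = 0

/-- the solution (unique if `0 < im τ` and `SG`) -/
noncomputable def sol (α β : Equiv.Perm X) (w : X → ℝ) (τ : ℂ) : K3 X :=
  open Classical in if h : ∃ ψ, IsSol α β w τ ψ then h.choose else 0

/-- `x`- and `y`-derivative of the harmonic function -/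
noncomputable def PP (α β : Equiv.Perm X) (w : X → ℝ) (τ : ℂ) : KK X := ph1 α β w + sol α β w τ 1
noncomputable def RR (α β : Equiv.Perm X) (w : X → ℝ) (τ : ℂ) : KK X := ph2 α β w + sol α β w τ 2

/-- `h = ∂F = (F_y - τ̄ F_x)/(τ - τ̄)` -/
noncomputable def hh (α β : Equiv.Perm X) (w : X → ℝ) (τ : ℂ) : KK X :=
  (1 / (τ - (starRingEnd ℂ) τ)) • (RR α β w τ - (starRingEnd ℂ) τ • PP α β w τ)

/-- the harmonic function itself -/
noncomputable def FF (α β : Equiv.Perm X) (w : X → ℝ) (τ : ℂ) : Sq X → ℂ := fun q =>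
  fl (Phi α β (toC w)) q + (sol α β w τ 0 : Sq X → ℂ) q

/-- the energy -/
noncomputable def EE (α β : Equiv.Perm X) (w : X → ℝ) (τ : ℂ) : ℝ := 4 * τ.im * ‖hh α β w τ‖ ^ 2

/-- `K(τ) = v ∫ F² |h'|²` -/
noncomputable def Kf (α β : Equiv.Perm X) (w w' : X → ℝ) (τ : ℂ) : ℝ :=
  τ.im * ∫ q, ‖FF α β w τ q‖ ^ 2 * ‖(hh α β w' τ : Sq X → ℂ) q‖ ^ 2 ∂(mu X)

end FT2

/-! ## Wirtinger calculus on the upper half plane -/

/-- upper half plane as a set -/
def HH : Set ℂ := {τ | 0 < τ.im}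

section Wirt
variable {E : Type*} [NormedAddCommGroup E] [NormedSpace ℂ E]

/-- `∂/∂τ` -/
noncomputable def dz (f : ℂ → E) (τ : ℂ) : E :=
  (1 / 2 : ℂ) • (fderiv ℝ f τ 1 - Complex.I • fderiv ℝ f τ Complex.I)
/-- `∂/∂τ̄` -/
noncomputable def dzb (f : ℂ → E) (τ : ℂ) : E :=
  (1 / 2 : ℂ) • (fderiv ℝ f τ 1 + Complex.I • fderiv ℝ f τ Complex.I)
end Wirt

/-- Laplacian of a real function -/
noncomputable def lap (U : ℂ → ℝ) (τ : ℂ) : ℝ :=
  fderiv ℝ (fderiv ℝ U) τ 1 1 + fderiv ℝ (fderiv ℝ U) τ Complex.I Complex.I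

end Pool.Agent.Helper96.OF
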