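import Pool.Agent.Helper96.OF.M1

/-!
# OF-M3: the rotation T_y

`z^N` normalises A1 and R. `T (g R) = g z^{-N} R`: well defined (`g r z^{-N} = g z^{-N} (z^N r z^{-N})`), bijective (inverse `g z^N R`), commutes with A, `T (f • x) = f' • T x` with f = p h, f' = p (z^N h z^{-N}):
`T(g h⁻¹ R) = g h⁻¹ z^{-N}R = g z^{-N} (z^N h⁻¹ z^{-N}) R`. `T (1 R) = z^{-N} • (1 R)`.
-/

set_option autoImplicit false

namespace Pool.Agent.Helper96.OF

theorem exists_T (A1 R : Subgroup A) (hRA : R ≤ A1)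
    (hnorm : ∀ g ∈ A1, ∀ r ∈ R, g * r * g⁻¹ ∈ R)
    {ι : Type} (p : A1 →* FreeGroup ι) (hp : Function.Surjective p)
    (hker : ∀ g : A1, p g = 1 ↔ (g : A) ∈ R) (N : ℤ)
    (hN1 : ∀ g, g ∈ A1 ↔ gz ^ N * g * gz ^ (-N) ∈ A1) (hN2 : ∀ g, g ∈ R ↔ gz ^ N * g * gz ^ (-N) ∈ R) :
    letI := actF A1 R hRA hnorm p hp hker
    ∃ T : Equiv.Perm (A ⧸ R), (∀ g : A, T (g : A ⧸ R) = ((g * gz ^ (-N) : A) : A ⧸ R)) ∧
      (∀ (g : A) (x : A ⧸ R), T (g • x) = g • T x) ∧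
      ∀ (h : A1) (x : A ⧸ R), T ((p h) • x) =
        (p ⟨gz ^ N * (h : A) * gz ^ (-N), (hN1 h).1 h.2⟩) • T x := by
  letI := actF A1 R hRA hnorm p hp hker
  have hrel : ∀ a b : A, (QuotientGroup.leftRel R) a b ↔
      (QuotientGroup.leftRel R) (Equiv.mulRight (gz ^ (-N)) a) (Equiv.mulRight (gz ^ (-N)) b) := by
    intro a b
    rw [QuotientGroup.leftRel_apply, QuotientGroup.leftRel_apply, Equiv.coe_mulRight, hN2 (a⁻¹ * b)]
    have e : gz ^ N * (a⁻¹ * b) * gz ^ (-N) = (a * gz ^ (-N))⁻¹ * (b * gz ^ (-N)) := by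
      group
    rw [e]
  let T : Equiv.Perm (A ⧸ R) := Quotient.congr (Equiv.mulRight (gz ^ (-N))) hrel
  have hT : ∀ g : A, T (g : A ⧸ R) = ((g * gz ^ (-N) : A) : A ⧸ R) := fun g => rfl
  refine ⟨T, hT, ?_, ?_⟩
  · intro g x
    induction x using QuotientGroup.induction_on with
    | H x =>
      change ((g * x * gz ^ (-N) : A) : A ⧸ R) = ((g * (x * gz ^ (-N)) : A) : A ⧸ R)
      rw [mul_assoc]
  · intro h x
    induction x using QuotientGroup.induction_on with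
    | H x =>
      rw [actF_smul A1 R hRA hnorm p hp hker h x, hT, hT,
        actF_smul A1 R hRA hnorm p hp hker ⟨gz ^ N * (h : A) * gz ^ (-N), _⟩ (x * gz ^ (-N))]
      congr 1
      simp only [Subgroup.coe_mk]
      group

end Pool.Agent.Helper96.OF
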