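import Pool.Agent.Helper96.OF.Defs

/-!
# OF-M4: small group facts

`centralizer_z`: C = centraliser of z in the free group A is free (Nielsen-Schreier, `subgroupIsFreeOfIsFree`) with nontrivial centre (z), hence of rank one: cyclic, C = <r>, z = r^k. Show k = ±1: let Hei = integral Heisenberg group (3x3 unipotent integer
matrices, or Z³ with the usual product), φ : A → Hei, a ↦ x, b ↦ y; φ(z) = [y,x] = central generator^{±1}. The image of r in Z² = Hei/centre: k·(r) = 0 and k ≠ 0 so it is 0: φ(r) = c^j central, kj = ±1.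
`G0_decomp`: Inn is normal, so B3 ⊔ Inn = Inn·B3. `Delta_fin`: `(M ⊔ Inn).relIndex G0 ≠ 0` and `B3 ≤ G0` (relIndex is monotone in the second argument).
`Delta_decomp`: an element of `B3 ⊓ (M ⊔ Inn)` : M ⊔ Inn = Inn·M.
`closure_pair`: an automorphism maps generators to generators.
-/

set_option autoImplicit false

namespace Pool.Agent.Helper96.OF

namespace M4

/-- the integral Heisenberg group -/
@[ext] structure Hei where
  /-- first coordinate -/
  x : ℤ
  /-- second coordinate -/
  y : ℤ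
  /-- central coordinate -/
  w : ℤ

instance : Mul Hei := ⟨fun p q => ⟨p.x + q.x, p.y + q.y, p.w + q.w + p.x * q.y⟩⟩
instance : One Hei := ⟨⟨0, 0, 0⟩⟩
instance : Inv Hei := ⟨fun p => ⟨-p.x, -p.y, -p.w + p.x * p.y⟩⟩

theorem mul_x (p q : Hei) : (p * q).x = p.x + q.x := rfl
theorem mul_y (p q : Hei) : (p * q).y = p.y + q.y := rfl
theorem mul_w (p q : Hei) : (p * q).w = p.w + q.w + p.x * q.y := rfl
theorem one_x : (1 : Hei).x = 0 := rfl
theorem one_y : (1 : Hei).y = 0 := rfl
theorem one_w : (1 : Hei).w = 0 := rfl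
theorem inv_x (p : Hei) : (p⁻¹).x = -p.x := rfl
theorem inv_y (p : Hei) : (p⁻¹).y = -p.y := rfl
theorem inv_w (p : Hei) : (p⁻¹).w = -p.w + p.x * p.y := rfl

instance : Group Hei := Group.ofLeftAxioms
  (fun p q r => by
    ext
    · simp only [mul_x]; ring
    · simp only [mul_y]; ring
    · simp only [mul_w, mul_x, mul_y]; ring)
  (fun p => by
    ext
    · simp only [mul_x, one_x]; ring
    · simp only [mul_y, one_y]; ring
    · simp only [mul_w, one_w, one_x]; ring)
  (fun p => by
    ext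
    · simp only [mul_x, inv_x, one_x]; ring
    · simp only [mul_y, inv_y, one_y]; ring
    · simp only [mul_w, inv_w, inv_x, one_w]; ring)

/-- first coordinate as a homomorphism -/
def hx : Hei →* Multiplicative ℤ where
  toFun p := Multiplicative.ofAdd p.x
  map_one' := rfl
  map_mul' _ _ := rfl

/-- second coordinate as a homomorphism -/
def hy : Hei →* Multiplicative ℤ where
  toFun p := Multiplicative.ofAdd p.y
  map_one' := rfl
  map_mul' _ _ := rfl

/-- the centre -/
def hc : Multiplicative ℤ →* Hei where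
  toFun n := ⟨0, 0, Multiplicative.toAdd n⟩
  map_one' := rfl
  map_mul' a b := by
    ext
    · rfl
    · rfl
    · simp [mul_w]

/-- the homomorphism `a ↦ x`, `b ↦ y` -/
def ph : A →* Hei := FreeGroup.lift ![⟨1, 0, 0⟩, ⟨0, 1, 0⟩]

theorem ph_gz : ph gz = ⟨0, 0, -1⟩ := by
  have ha : ph ga = ⟨1, 0, 0⟩ := by simp [ph, ga]
  have hb : ph gb = ⟨0, 1, 0⟩ := by simp [ph, gb]
  unfold gz
  rw [map_mul, map_mul, map_mul, map_inv, map_inv, ha, hb]
  ext
  · simp [mul_x, inv_x]
  · simp [mul_y, inv_y]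
  · simp [mul_w, mul_x, mul_y, inv_w, inv_x, inv_y]

/-- an element whose power is `z` is `z^{±1}` -/
theorem root_z (r : A) (k : ℤ) (h : r ^ k = gz) : k = 1 ∨ k = -1 := by
  have h1 : ph r ^ k = ⟨0, 0, -1⟩ := by rw [← map_zpow, h, ph_gz]
  have hk : k ≠ 0 := by
    rintro rfl
    rw [zpow_zero] at h1
    have := congrArg Hei.w h1
    simp [one_w] at this
  have hxr : (ph r).x = 0 := by
    have h2 := congrArg hx h1
    rw [map_zpow] at h2
    have h3 := congrArg Multiplicative.toAdd h2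
    rw [toAdd_zpow] at h3
    simp only [hx, MonoidHom.coe_mk, OneHom.coe_mk, toAdd_ofAdd, smul_eq_mul, mul_eq_zero] at h3
    exact h3.resolve_left hk
  have hyr : (ph r).y = 0 := by
    have h2 := congrArg hy h1
    rw [map_zpow] at h2
    have h3 := congrArg Multiplicative.toAdd h2
    rw [toAdd_zpow] at h3
    simp only [hy, MonoidHom.coe_mk, OneHom.coe_mk, toAdd_ofAdd, smul_eq_mul, mul_eq_zero] at h3
    exact h3.resolve_left hk
  have hr : ph r = hc (Multiplicative.ofAdd (ph r).w) := by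
    ext
    · exact hxr
    · exact hyr
    · rfl
  rw [hr, ← map_zpow] at h1
  have h4 := congrArg Hei.w h1
  have h5 : k * (ph r).w = -1 := by
    have h6 : (hc (Multiplicative.ofAdd (ph r).w ^ k)).w =
        Multiplicative.toAdd (Multiplicative.ofAdd (ph r).w ^ k) := rfl
    rw [h6, toAdd_zpow, toAdd_ofAdd, smul_eq_mul] at h4
    exact h4
  have h7 : k * (-(ph r).w) = 1 := by linarith
  exact Int.isUnit_iff.mp (IsUnit.of_mul_eq_one _ h7)

theorem of_comm {ι : Type*} (i j : ι)
    (h : FreeGroup.of i * FreeGroup.of j = FreeGroup.of j * FreeGroup.of i) : i = j := by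
  classical
  have key : ∀ a b : ι, (FreeGroup.of a * FreeGroup.of b).toWord = [(a, true), (b, true)] := by
    intro a b
    rw [FreeGroup.toWord_mul, FreeGroup.toWord_of, FreeGroup.toWord_of]
    apply FreeGroup.IsReduced.reduce_eq
    simp [FreeGroup.IsReduced]
  have h1 := congrArg FreeGroup.toWord h
  rw [key, key] at h1
  simp only [List.cons.injEq, Prod.mk.injEq, and_true] at h1
  exact h1.1

theorem cyc_of_subsingleton {ι : Type*} [Subsingleton ι] :
    ∃ r : FreeGroup ι, ∀ u : FreeGroup ι, ∃ n : ℤ, u = r ^ n := by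
  rcases isEmpty_or_nonempty ι with h | ⟨⟨i⟩⟩
  · refine ⟨1, fun u => ⟨0, ?_⟩⟩
    exact Subsingleton.elim _ _
  · refine ⟨FreeGroup.of i, fun u => ?_⟩
    have h1 : u ∈ Subgroup.closure (Set.range (FreeGroup.of : ι → FreeGroup ι)) := by
      rw [FreeGroup.closure_range_of]; trivial
    have h2 : Set.range (FreeGroup.of : ι → FreeGroup ι) = {FreeGroup.of i} := by
      ext v
      constructor
      · rintro ⟨j, rfl⟩
        rw [Subsingleton.elim j i]; rfl
      · rintro rfl
        exact ⟨i, rfl⟩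
    rw [h2, ← Subgroup.zpowers_eq_closure, Subgroup.mem_zpowers_iff] at h1
    obtain ⟨n, hn⟩ := h1
    exact ⟨n, hn.symm⟩

/-- commuting elements of a free group are powers of one element -/
theorem comm_pow {G : Type*} [Group G] [IsFreeGroup G] (x y : G) (h : x * y = y * x) :
    ∃ (r : G) (a b : ℤ), x = r ^ a ∧ y = r ^ b := by
  set H : Subgroup G := Subgroup.closure {x, y} with hH
  have hc : ∀ u v : H, u * v = v * u := by
    have h1 : IsMulCommutative (Subgroup.closure ({x, y} : Set G)) := by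
      apply Subgroup.isMulCommutative_closure
      intro a ha b hb
      rcases ha with rfl | rfl <;> rcases hb with rfl | rfl
      · rfl
      · exact h
      · exact h.symm
      · rfl
    intro u v
    exact h1.is_comm.comm u v
  haveI : IsFreeGroup H := subgroupIsFreeOfIsFree H
  let e : H ≃* FreeGroup (IsFreeGroup.Generators H) := IsFreeGroup.toFreeGroup H
  haveI : Subsingleton (IsFreeGroup.Generators H) := ⟨fun i j => by
    apply of_comm
    apply e.symm.injective
    rw [map_mul, map_mul]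
    exact hc _ _⟩
  obtain ⟨r, hr⟩ := cyc_of_subsingleton (ι := IsFreeGroup.Generators H)
  have hx : x ∈ H := Subgroup.subset_closure (by simp)
  have hy : y ∈ H := Subgroup.subset_closure (by simp)
  obtain ⟨a, ha⟩ := hr (e ⟨x, hx⟩)
  obtain ⟨b, hb⟩ := hr (e ⟨y, hy⟩)
  refine ⟨(e.symm r : H), a, b, ?_, ?_⟩
  · have h1 : (⟨x, hx⟩ : H) = (e.symm r) ^ a := by
      rw [← map_zpow, ← ha, MulEquiv.symm_apply_apply]
    have h2 := congrArg (Subtype.val) h1
    simpa using h2
  · have h1 : (⟨y, hy⟩ : H) = (e.symm r) ^ b := by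
      rw [← map_zpow, ← hb, MulEquiv.symm_apply_apply]
    have h2 := congrArg (Subtype.val) h1
    simpa using h2

theorem conj_mul_conj (μ : MulAut A) (n : A) : μ * MulAut.conj n * μ⁻¹ = MulAut.conj (μ n) := by
  ext x
  simp [MulAut.mul_apply]

instance inn_normal : Inn.Normal := ⟨by
  rintro _ ⟨n, rfl⟩ μ
  exact ⟨μ n, (conj_mul_conj μ n).symm⟩⟩

end M4

open M4

theorem centralizer_z (g : A) (h : g * gz = gz * g) : ∃ e : ℤ, g = gz ^ e := by
  obtain ⟨r, a, b, ha, hb⟩ := comm_pow g gz h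
  rcases root_z r b hb.symm with h1 | h1
  · refine ⟨a, ?_⟩
    rw [h1, zpow_one] at hb
    rw [hb, ha]
  · refine ⟨-a, ?_⟩
    rw [h1] at hb
    rw [hb, ha, ← zpow_mul]
    congr 1
    ring

theorem t_fix_z : t1 gz = gz ∧ t2 gz = gz := by
  have h1 : t1 ga = ga ∧ t1 gb = gb * ga := by
    constructor
    · simp [t1, ga]
    · simp [t1, gb]
  have h2 : t2 ga = ga * gb ∧ t2 gb = gb := by
    constructor
    · simp [t2, ga]
    · simp [t2, gb]
  constructor
  · unfold gz
    rw [map_mul, map_mul, map_mul, map_inv, map_inv, h1.1, h1.2]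
    group
  · unfold gz
    rw [map_mul, map_mul, map_mul, map_inv, map_inv, h2.1, h2.2]
    group

theorem B3_fix_z {ψ : MulAut A} (h : ψ ∈ B3) : ψ gz = gz ∧ ψ⁻¹ gz = gz := by
  have h1 : ψ gz = gz := by
    unfold B3 at h
    induction h using Subgroup.closure_induction with
    | mem x hx =>
      rcases hx with rfl | rfl
      · exact t_fix_z.1
      · exact t_fix_z.2
    | one => rfl
    | mul x y _ _ hx hy => rw [MulAut.mul_apply, hy, hx]
    | inv x _ hx =>
      rw [MulAut.inv_apply, MulEquiv.symm_apply_eq]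
      exact hx.symm
  refine ⟨h1, ?_⟩
  rw [MulAut.inv_apply, MulEquiv.symm_apply_eq]
  exact h1.symm

theorem G0_decomp {m : MulAut A} (h : m ∈ G0) : ∃ (n : A) (μ : MulAut A), μ ∈ B3 ∧ m = MulAut.conj n * μ := by
  have h1 : m ∈ ((Inn ⊔ B3 : Subgroup (MulAut A)) : Set (MulAut A)) := by
    rw [sup_comm]; exact h
  rw [Subgroup.normal_mul] at h1
  obtain ⟨x, ⟨n, hn⟩, μ, hμ, hx⟩ := h1
  exact ⟨n, μ, hμ, by rw [← hx, ← hn]⟩

theorem Delta_fin (M : Subgroup (MulAut A)) (h : (M ⊔ Inn).relIndex G0 ≠ 0) :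
    (B3 ⊓ (M ⊔ Inn)).relIndex B3 ≠ 0 := by
  rw [Subgroup.inf_relIndex_left]
  intro h1
  exact h (Subgroup.relIndex_eq_zero_of_le_right (le_sup_left : B3 ≤ G0) h1)

theorem Delta_decomp (M : Subgroup (MulAut A)) {μ : MulAut A} (h : μ ∈ B3 ⊓ (M ⊔ Inn)) :
    ∃ n : A, MulAut.conj n * μ ∈ M := by
  have h1 : μ ∈ ((Inn ⊔ M : Subgroup (MulAut A)) : Set (MulAut A)) := by
    rw [sup_comm]; exact h.2
  rw [Subgroup.normal_mul] at h1
  obtain ⟨x, ⟨n, hn⟩, m, hm, hx⟩ := h1
  refine ⟨n⁻¹, ?_⟩
  have : MulAut.conj n⁻¹ * μ = m := by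
    rw [← hx, ← hn, map_inv]
    simp
  rw [this]
  exact hm

theorem closure_pair (ψ : MulAut A) : Subgroup.closure ({ψ ga, ψ gb} : Set A) = ⊤ := by
  have h1 : Subgroup.closure ({ga, gb} : Set A) = ⊤ := by
    rw [← FreeGroup.closure_range_of (Fin 2)]
    congr 1
    ext v
    constructor
    · rintro (rfl | rfl)
      · exact ⟨0, rfl⟩
      · exact ⟨1, rfl⟩
    · rintro ⟨i, rfl⟩
      fin_cases i
      · exact Or.inl rfl
      · exact Or.inr rfl
  have h2 : ({ψ ga, ψ gb} : Set A) = ψ.toMonoidHom '' {ga, gb} := by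
    rw [Set.image_pair]; rfl
  rw [h2, ← MonoidHom.map_closure, h1, ← MonoidHom.range_eq_map, MonoidHom.range_eq_top]
  exact ψ.surjective

end Pool.Agent.Helper96.OF
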