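import Pool.Agent.Helper96.OF.WZ5

/-!
# OF-WZ6: lap K = 8 v ‖ω‖²

`Θ = ⟪ω,N⟫`; ω holomorphic (om_hol): `∂_τ Θ = ⟪∂_τ̄ω, N⟫ + ⟪ω, ∂_τN⟫ = ⟪ω, Mop(G0)h' + Mop(F)∂_τh'⟫` (NN_smooth). `∂_τ v = -i/2`.
`∂_τh' = delG' - h'/(2iv)` (see WZ5), so `∂_τ(vΘ) = -(i/2)Θ + v⟪ω,G0h'⟫ + v⟪ω,F delG'⟫ + (i/2)Θ`.
`prod` (FT9): u = F·G' ∈ H1, `(u_2-τ̄u_1)/(2iv) = F delG' + h G'_0`; `om_weak`: `⟪ω, u_2-τ̄u_1⟫ = 0`: `⟪ω,F delG'⟫ = -⟪ω,hG'_0⟫`. So `∂_τ(vΘ) = v⟪ω, G0h' - hG'_0⟫ = -v‖ω‖²`.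
For a real C² function K (as complex function) `lap K = 4 ∂_τ(∂_τ̄ K)`: `lap_eq`. So `lap K = 4·(-2)·(-v‖ω‖²) = 8v‖ω‖²`.
`Kf_le`: `K ≤ v C² ‖h'‖² = C² EE(w')/4`.
-/

set_option autoImplicit false

open MeasureTheory
open scoped ComplexConjugate

namespace Pool.Agent.Helper96.OF

private theorem hh_open : IsOpen HH := isOpen_lt continuous_const Complex.continuous_im

private theorem hh_nhds {τ : ℂ} (hτ : τ ∈ HH) : HH ∈ nhds τ := hh_open.mem_nhds hτ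

theorem lap_eq (U : ℂ → ℝ) (hU : ContDiffOn ℝ 2 U HH) {τ : ℂ} (hτ : τ ∈ HH) :
    ((lap U τ : ℝ) : ℂ) = 4 * dz (fun σ => dzb (fun σ' => ((U σ' : ℝ) : ℂ)) σ) τ := by
  have hat : ∀ σ ∈ HH, ContDiffAt ℝ 2 U σ := fun σ hσ => hU.contDiffAt (hh_nhds hσ)
  have hd : ∀ σ ∈ HH, DifferentiableAt ℝ U σ :=
    fun σ hσ => (hat σ hσ).differentiableAt (by norm_num)
  have hfd : ∀ σ ∈ HH, ∀ v : ℂ,
      fderiv ℝ (fun σ' => ((U σ' : ℝ) : ℂ)) σ v = ((fderiv ℝ U σ v : ℝ) : ℂ) := by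
    intro σ hσ v
    have h1 : HasFDerivAt (fun σ' => ((U σ' : ℝ) : ℂ)) (Complex.ofRealCLM.comp (fderiv ℝ U σ)) σ :=
      Complex.ofRealCLM.hasFDerivAt.comp σ (hd σ hσ).hasFDerivAt
    rw [h1.fderiv]; rfl
  have hdd : DifferentiableAt ℝ (fderiv ℝ U) τ :=
    ((hat τ hτ).fderiv_right (m := 1) (by norm_num)).differentiableAt (by norm_num)
  have hE : ∀ e : ℂ, HasFDerivAt (fun σ => ((fderiv ℝ U σ e : ℝ) : ℂ))
      (Complex.ofRealCLM.comp ((ContinuousLinearMap.apply ℝ ℝ e).comp (fderiv ℝ (fderiv ℝ U) τ))) τ := by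
    intro e
    have h1 : HasFDerivAt (fun σ => fderiv ℝ U σ e)
        ((ContinuousLinearMap.apply ℝ ℝ e).comp (fderiv ℝ (fderiv ℝ U) τ)) τ :=
      (ContinuousLinearMap.apply ℝ ℝ e).hasFDerivAt.comp τ hdd.hasFDerivAt
    exact Complex.ofRealCLM.hasFDerivAt.comp τ h1
  set D := fderiv ℝ (fderiv ℝ U) τ with hDdef
  have hG : (fun σ => dzb (fun σ' => ((U σ' : ℝ) : ℂ)) σ) =ᶠ[nhds τ]
      fun σ => (1 / 2 : ℂ) * (((fderiv ℝ U σ 1 : ℝ) : ℂ) +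
        Complex.I * ((fderiv ℝ U σ Complex.I : ℝ) : ℂ)) := by
    filter_upwards [hh_nhds hτ] with σ hσ
    simp only [dzb, smul_eq_mul]
    rw [hfd σ hσ, hfd σ hσ]
  have hG' : HasFDerivAt (fun σ => (1 / 2 : ℂ) * (((fderiv ℝ U σ 1 : ℝ) : ℂ) +
        Complex.I * ((fderiv ℝ U σ Complex.I : ℝ) : ℂ)))
      ((1 / 2 : ℂ) • (Complex.ofRealCLM.comp ((ContinuousLinearMap.apply ℝ ℝ (1 : ℂ)).comp D) +
        Complex.I • (Complex.ofRealCLM.comp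
          ((ContinuousLinearMap.apply ℝ ℝ Complex.I).comp D)))) τ :=
    ((hE 1).add ((hE Complex.I).const_mul Complex.I)).const_mul (1 / 2 : ℂ)
  have hsym : D 1 Complex.I = D Complex.I 1 :=
    ((hat τ hτ).isSymmSndFDerivAt (by simp)).eq 1 Complex.I
  simp only [dz]
  rw [hG.fderiv_eq, hG'.fderiv]
  simp only [lap, ← hDdef, smul_apply, add_apply,
    ContinuousLinearMap.comp_apply, ContinuousLinearMap.apply_apply, Complex.ofRealCLM_apply,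
    smul_eq_mul, hsym]
  push_cast
  linear_combination ((D Complex.I Complex.I : ℝ) : ℂ) * Complex.I_sq

variable {X : Type} [Countable X] [MeasurableSpace X] [DiscreteMeasurableSpace X] {α β : Equiv.Perm X}

private theorem FF_Bd (hSG : SG α β) {w : X → ℝ} (hw : InW α β w) {C : ℝ} (hC : ∀ x, |w x| ≤ C)
    {τ : ℂ} (hτ : τ ∈ HH) : Bd (FF α β w τ) |C| := by
  refine ⟨(FF_meas hSG hw hτ).1, abs_nonneg C, ?_⟩
  filter_upwards [FF_bound hSG hw hC hτ] with q hq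
  exact hq.trans (le_abs_self C)

private theorem GG_Bd (hSG : SG α β) {w : X → ℝ} (hw : InW α β w) (hH : HolW α β w) {C : ℝ}
    (hC : ∀ x, |w x| ≤ C) {τ : ℂ} (hτ : τ ∈ HH) :
    Bd (GG α β w τ 0 : Sq X → ℂ) (4 * |C| / τ.im) := by
  have hpos : 0 < τ.im := hτ
  refine ⟨Lp.aestronglyMeasurable _, by positivity, ?_⟩
  filter_upwards [GG_bound hSG hw hH hC hτ] with q hq
  refine hq.trans ?_
  gcongr
  exact le_abs_self C

private theorem tau_ne {τ : ℂ} (hτ : τ ∈ HH) : τ - conj τ ≠ 0 := by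
  intro h
  have h1 : (τ - conj τ).im = 0 := by rw [h]; simp
  have hpos : 0 < τ.im := hτ
  simp at h1
  linarith

private theorem tau_sub (τ : ℂ) : τ - conj τ = 2 * Complex.I * (τ.im : ℂ) := by
  apply Complex.ext <;> simp
  ring

/-- the key weak identity -/
private theorem inner_key (hSG : SG α β) {w w' : X → ℝ} (hw : InW α β w) (hw' : InW α β w')
    (hH : HolW α β w) (hH' : HolW α β w') {τ : ℂ} (hτ : τ ∈ HH) :
    inner ℂ (om α β w w' τ) (Mop (FF α β w τ) (deriv (hh α β w') τ)) =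
      - inner ℂ (om α β w w' τ) (Mop (GG α β w' τ 0 : Sq X → ℂ) (hh α β w τ)) -
        (1 / (τ - conj τ)) * inner ℂ (om α β w w' τ) (NN α β w w' τ) := by
  obtain ⟨C, hC⟩ := hw.bdd
  obtain ⟨C', hC'⟩ := hw'.bdd
  have hF : Bd (FF α β w τ) |C| := FF_Bd hSG hw hC hτ
  have hG : Bd (GG α β w' τ 0 : Sq X → ℂ) (4 * |C'| / τ.im) := GG_Bd hSG hw' hH' hC' hτ
  have hsol := sol_spec hSG hw hτ
  obtain ⟨u, hu, hu0, hu1, hu2⟩ := prod hw hsol.1.1 hsol.2.1 |C| hF.2.2 (hH'.G_mem τ hτ)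
    (4 * |C'| / τ.im) hG.2.2
  have hne := tau_ne hτ
  -- the derivative of the interpolation
  have hPhi := Phi_energy hw
  have e1 := cls_ae hPhi.1
  have e2 := cls_ae hPhi.2
  have hkey : u 2 - conj τ • u 1 = (τ - conj τ) • (Mop (FF α β w τ) (deriv (hh α β w') τ) +
      (1 / (τ - conj τ)) • Mop (FF α β w τ) (hh α β w' τ) +
      Mop (GG α β w' τ 0 : Sq X → ℂ) (hh α β w τ)) := by
    apply Lp.ext
    have a1 := Lp.coeFn_sub (u 2) (conj τ • u 1)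
    have a2 := Lp.coeFn_smul (conj τ) (u 1)
    have a3 := Lp.coeFn_smul (τ - conj τ) (Mop (FF α β w τ) (deriv (hh α β w') τ) +
      (1 / (τ - conj τ)) • Mop (FF α β w τ) (hh α β w' τ) +
      Mop (GG α β w' τ 0 : Sq X → ℂ) (hh α β w τ))
    have a4 := Lp.coeFn_add (Mop (FF α β w τ) (deriv (hh α β w') τ) +
      (1 / (τ - conj τ)) • Mop (FF α β w τ) (hh α β w' τ))
      (Mop (GG α β w' τ 0 : Sq X → ℂ) (hh α β w τ))
    have a5 := Lp.coeFn_add (Mop (FF α β w τ) (deriv (hh α β w') τ))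
      ((1 / (τ - conj τ)) • Mop (FF α β w τ) (hh α β w' τ))
    have a6 := Lp.coeFn_smul (1 / (τ - conj τ)) (Mop (FF α β w τ) (hh α β w' τ))
    have b1 := mop_ae hF (deriv (hh α β w') τ)
    have b2 := mop_ae hF (hh α β w' τ)
    have b3 := mop_ae hG (hh α β w τ)
    -- the components of G'
    have c1 : ((GG α β w' τ 1 : KK X) : Sq X → ℂ) = ((deriv (hh α β w') τ : KK X) : Sq X → ℂ) := by
      rw [hH'.G_1 τ hτ]
    have c2 : ((GG α β w' τ 2 : KK X) : Sq X → ℂ) =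
        ((hh α β w' τ + τ • deriv (hh α β w') τ : KK X) : Sq X → ℂ) := by
      rw [hH'.G_2 τ hτ]
    have c3 := Lp.coeFn_add (hh α β w' τ) (τ • deriv (hh α β w') τ)
    have c4 := Lp.coeFn_smul τ (deriv (hh α β w') τ)
    -- the components of h
    have d1 : (hh α β w τ : Sq X → ℂ) = ((((1 / (τ - conj τ)) • (RR α β w τ -
      (starRingEnd ℂ) τ • PP α β w τ) : KK X)) : Sq X → ℂ) := rfl
    have d2 := Lp.coeFn_smul (1 / (τ - conj τ)) (RR α β w τ - (starRingEnd ℂ) τ • PP α β w τ)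
    have d3 := Lp.coeFn_sub (RR α β w τ) ((starRingEnd ℂ) τ • PP α β w τ)
    have d4 := Lp.coeFn_smul ((starRingEnd ℂ) τ) (PP α β w τ)
    have d5 := Lp.coeFn_add (ph1 α β w) (sol α β w τ 1)
    have d6 := Lp.coeFn_add (ph2 α β w) (sol α β w τ 2)
    filter_upwards [hu1, hu2, a1, a2, a3, a4, a5, a6, b1, b2, b3, c3, c4, d2, d3, d4, d5, d6, e1, e2]
      with q hu1 hu2 a1 a2 a3 a4 a5 a6 b1 b2 b3 c3 c4 d2 d3 d4 d5 d6 e1 e2
    have hP : (PP α β w τ : Sq X → ℂ) q = fl (dx (Phi α β (toC w))) q + (sol α β w τ 1 : Sq X → ℂ) q := by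
      rw [← e1]; exact d5
    have hR : (RR α β w τ : Sq X → ℂ) q = fl (dy (Phi α β (toC w))) q + (sol α β w τ 2 : Sq X → ℂ) q := by
      rw [← e2]; exact d6
    have hh1 : (hh α β w τ : Sq X → ℂ) q = (1 / (τ - conj τ)) *
        ((RR α β w τ : Sq X → ℂ) q - conj τ * (PP α β w τ : Sq X → ℂ) q) := by
      rw [d1, d2, Pi.smul_apply, d3, Pi.sub_apply, d4, Pi.smul_apply, smul_eq_mul, smul_eq_mul]
    rw [a1, Pi.sub_apply, a2, Pi.smul_apply, a3, Pi.smul_apply, a4, Pi.add_apply, a5, Pi.add_apply,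
      a6, Pi.smul_apply, b1, b2, b3, hu1, hu2, hh1, hP, hR, c1, c2, c3, Pi.add_apply, c4,
      Pi.smul_apply]
    simp only [smul_eq_mul, FF]
    field_simp
    ring
  have h0 := om_weak hSG hw hw' hH hH' hτ hu
  rw [hkey, inner_smul_right, inner_add_right, inner_add_right, inner_smul_right] at h0
  have h1 := (mul_eq_zero.1 h0).resolve_left hne
  have h2 : NN α β w w' τ = Mop (FF α β w τ) (hh α β w' τ) := rfl
  rw [h2]
  linear_combination h1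

theorem dz_Theta (hSG : SG α β) {w w' : X → ℝ} (hw : InW α β w) (hw' : InW α β w')
    (hH : HolW α β w) (hH' : HolW α β w') {τ : ℂ} (hτ : τ ∈ HH) :
    dz (fun σ => (σ.im : ℂ) * inner ℂ (om α β w w' σ) (NN α β w w' σ)) τ =
      -(τ.im : ℂ) * ((‖om α β w w' τ‖ ^ 2 : ℝ) : ℂ) := by
  have hom : HasDerivAt (om α β w w') (deriv (om α β w w') τ) τ :=
    (((om_hol hSG hw hw' hH hH') τ hτ).differentiableAt (hh_nhds hτ)).hasDerivAt
  have homR : HasFDerivAt (om α β w w')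
      ((ContinuousLinearMap.smulRight (1 : ℂ →L[ℂ] ℂ) (deriv (om α β w w') τ)).restrictScalars ℝ) τ :=
    hom.hasFDerivAt.restrictScalars ℝ
  obtain ⟨hNs, -, hNd⟩ := NN_smooth hSG hw hw' hH hH'
  have hN : HasFDerivAt (NN α β w w') (fderiv ℝ (NN α β w w') τ) τ :=
    ((hNs.contDiffAt (hh_nhds hτ)).differentiableAt (by simp)).hasFDerivAt
  have hI : HasFDerivAt (fun σ : ℂ => (σ.im : ℂ)) (Complex.ofRealCLM.comp Complex.imCLM) τ :=
    (Complex.ofRealCLM.comp Complex.imCLM).hasFDerivAt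
  have hin := homR.inner ℂ hN
  set ω := om α β w w' τ with hω
  set N := NN α β w w' τ with hNdef
  set D := fderiv ℝ (NN α β w w') τ with hD
  set ω' := deriv (om α β w w') τ with hω'
  have hall : HasFDerivAt (fun σ : ℂ => (σ.im : ℂ) * inner ℂ (om α β w w' σ) (NN α β w w' σ)) _ τ :=
    hI.mul hin
  obtain ⟨hz, -⟩ := hNd τ hτ
  have hz : (1 / 2 : ℂ) • (D 1 - Complex.I • D Complex.I) =
      Mop (GG α β w τ 0 : Sq X → ℂ) (hh α β w' τ) + Mop (FF α β w τ) (deriv (hh α β w') τ) := hz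
  have hk := inner_key hSG hw hw' hH hH' hτ
  rw [← hω, ← hNdef, tau_sub] at hk
  have hv : (τ.im : ℂ) ≠ 0 := by
    have : 0 < τ.im := hτ
    exact_mod_cast this.ne'
  have hzi : inner ℂ ω ((1 / 2 : ℂ) • (D 1 - Complex.I • D Complex.I)) =
      inner ℂ ω (Mop (GG α β w τ 0 : Sq X → ℂ) (hh α β w' τ)) +
        inner ℂ ω (Mop (FF α β w τ) (deriv (hh α β w') τ)) := by
    rw [hz, inner_add_right]
  rw [inner_smul_right, inner_sub_right, inner_smul_right] at hzi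
  have hnorm : inner ℂ ω ω = ((‖ω‖ ^ 2 : ℝ) : ℂ) := by
    rw [inner_self_eq_norm_sq_to_K]; norm_cast
  have hωω : inner ℂ ω (Mop (GG α β w' τ 0 : Sq X → ℂ) (hh α β w τ)) -
      inner ℂ ω (Mop (GG α β w τ 0 : Sq X → ℂ) (hh α β w' τ)) = ((‖ω‖ ^ 2 : ℝ) : ℂ) := by
    rw [← hnorm, ← inner_sub_right]; rfl
  have hf1 : fderiv ℝ (fun σ : ℂ => (σ.im : ℂ) * inner ℂ (om α β w w' σ) (NN α β w w' σ)) τ 1 =
      (τ.im : ℂ) * (inner ℂ ω (D 1) + inner ℂ ω' N) := by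
    rw [hall.fderiv]
    simp [fderivInnerCLM_apply, ← hω, ← hNdef]
    ring
  have hfI : fderiv ℝ (fun σ : ℂ => (σ.im : ℂ) * inner ℂ (om α β w w' σ) (NN α β w w' σ)) τ
      Complex.I = (τ.im : ℂ) * (inner ℂ ω (D Complex.I) - Complex.I * inner ℂ ω' N) +
        inner ℂ ω N := by
    rw [hall.fderiv]
    simp [fderivInnerCLM_apply, ← hω, ← hNdef, inner_smul_left]
    ring
  simp only [dz, smul_eq_mul]
  rw [hf1, hfI]
  have hk' : (τ.im : ℂ) * inner ℂ ω (Mop (FF α β w τ) (deriv (hh α β w') τ)) =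
      -(τ.im : ℂ) * inner ℂ ω (Mop (GG α β w' τ 0 : Sq X → ℂ) (hh α β w τ)) +
        Complex.I / 2 * inner ℂ ω N := by
    rw [hk]
    have hinv : 1 / (2 * Complex.I * (τ.im : ℂ)) = -Complex.I / (2 * (τ.im : ℂ)) := by
      field_simp
      rw [Complex.I_sq]
      norm_num
    rw [hinv]
    field_simp
    ring
  linear_combination (τ.im : ℂ) * hzi + hk' - (τ.im : ℂ) * hωω +
    ((τ.im : ℂ) * inner ℂ ω' N / 2) * Complex.I_sq

theorem lap_K (hSG : SG α β) {w w' : X → ℝ} (hw : InW α β w) (hw' : InW α β w')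
    (hH : HolW α β w) (hH' : HolW α β w') {τ : ℂ} (hτ : τ ∈ HH) :
    lap (Kf α β w w') τ = 8 * τ.im * ‖om α β w w' τ‖ ^ 2 := by
  obtain ⟨hNs, hKs, -⟩ := NN_smooth hSG hw hw' hH hH'
  have h1 := lap_eq (Kf α β w w') (hKs.of_le (WithTop.coe_le_coe.2 (le_top : (2 : ℕ∞) ≤ ⊤))) hτ
  have h2 : (fun σ => dzb (fun σ' => ((Kf α β w w' σ' : ℝ) : ℂ)) σ) =ᶠ[nhds τ]
      fun σ => (-2 : ℂ) * ((σ.im : ℂ) * inner ℂ (om α β w w' σ) (NN α β w w' σ)) := by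
    filter_upwards [hh_nhds hτ] with σ hσ
    rw [dzb_K hSG hw hw' hH hH' hσ]
    ring
  have h3 : dz (fun σ => dzb (fun σ' => ((Kf α β w w' σ' : ℝ) : ℂ)) σ) τ =
      (-2 : ℂ) * dz (fun σ => (σ.im : ℂ) * inner ℂ (om α β w w' σ) (NN α β w w' σ)) τ := by
    have homR : DifferentiableAt ℝ (om α β w w') τ :=
      (((om_hol hSG hw hw' hH hH') τ hτ).differentiableAt (hh_nhds hτ)).restrictScalars ℝ
    have hN : DifferentiableAt ℝ (NN α β w w') τ :=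
      (hNs.contDiffAt (hh_nhds hτ)).differentiableAt (by simp)
    have hI : DifferentiableAt ℝ (fun σ : ℂ => (σ.im : ℂ)) τ :=
      (Complex.ofRealCLM.comp Complex.imCLM).differentiableAt
    have hd : DifferentiableAt ℝ
        (fun σ : ℂ => (σ.im : ℂ) * inner ℂ (om α β w w' σ) (NN α β w w' σ)) τ :=
      hI.mul (homR.inner ℂ hN)
    simp only [dz]
    rw [h2.fderiv_eq, fderiv_const_mul hd]
    simp only [smul_apply, smul_eq_mul]
    ring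
  rw [h3, dz_Theta hSG hw hw' hH hH' hτ] at h1
  have h4 : ((lap (Kf α β w w') τ : ℝ) : ℂ) = ((8 * τ.im * ‖om α β w w' τ‖ ^ 2 : ℝ) : ℂ) := by
    rw [h1]; push_cast; ring
  exact_mod_cast h4

theorem Kf_le (hSG : SG α β) {w w' : X → ℝ} (hw : InW α β w) (hw' : InW α β w') {C : ℝ}
    (hC : ∀ x, |w x| ≤ C) {τ : ℂ} (hτ : τ ∈ HH) :
    Kf α β w w' τ ≤ C ^ 2 * EE α β w' τ / 4 ∧ 0 ≤ Kf α β w w' τ := by
  have hpos : 0 < τ.im := hτ
  rw [Kf_eq hSG hw hw' hτ]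
  have h1 : ‖NN α β w w' τ‖ ≤ |C| * ‖hh α β w' τ‖ := by
    refine (ContinuousLinearMap.le_opNorm _ _).trans ?_
    gcongr
    exact mop_norm (FF_Bd hSG hw hC hτ)
  refine ⟨?_, by positivity⟩
  calc τ.im * ‖NN α β w w' τ‖ ^ 2 ≤ τ.im * (|C| * ‖hh α β w' τ‖) ^ 2 := by gcongr
    _ = C ^ 2 * EE α β w' τ / 4 := by
      rw [EE, mul_pow, sq_abs]; ring

/-- conclusion: if the Laplacian of `K` vanishes then `h G' = h' G` a.e. -/
theorem wedge_zero (hSG : SG α β) {w w' : X → ℝ} (hw : InW α β w) (hw' : InW α β w')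
    (hH : HolW α β w) (hH' : HolW α β w') (h0 : ∀ τ ∈ HH, lap (Kf α β w w') τ = 0) :
    ∀ τ ∈ HH, (fun q => (hh α β w τ : Sq X → ℂ) q * (GG α β w' τ 0 : Sq X → ℂ) q) =ᵐ[mu X]
      fun q => (hh α β w' τ : Sq X → ℂ) q * (GG α β w τ 0 : Sq X → ℂ) q := by
  intro τ hτ
  have hpos : 0 < τ.im := hτ
  obtain ⟨C, hC⟩ := hw.bdd
  obtain ⟨C', hC'⟩ := hw'.bdd
  have h1 := lap_K hSG hw hw' hH hH' hτ
  rw [h0 τ hτ] at h1
  have h2 : om α β w w' τ = 0 := by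
    rw [← norm_eq_zero]
    have h3 : 8 * τ.im * ‖om α β w w' τ‖ ^ 2 = 0 := h1.symm
    have h4 : (8 * τ.im) ≠ 0 := by positivity
    exact pow_eq_zero_iff (two_ne_zero) |>.1 ((mul_eq_zero.1 h3).resolve_left h4)
  have h3 : Mop (GG α β w' τ 0 : Sq X → ℂ) (hh α β w τ) =
      Mop (GG α β w τ 0 : Sq X → ℂ) (hh α β w' τ) := sub_eq_zero.1 h2
  have e1 := mop_ae (GG_Bd hSG hw' hH' hC' hτ) (hh α β w τ)
  have e2 := mop_ae (GG_Bd hSG hw hH hC hτ) (hh α β w' τ)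
  rw [h3] at e1
  filter_upwards [e1, e2] with q h5 h6
  rw [mul_comm, ← h5, h6, mul_comm]

end Pool.Agent.Helper96.OF
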