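import Pool.Agent.Helper96.OF.X4

/-!
# OF-X5 (EX): a bounded nontrivial class

Proof. Take `c` from `exists_unbounded` (X4), `c_n = max (-n) (min n c)` (1-Lipschitz truncation: bounded, ζ-invariant, energy ≤ energy of c). Suppose for every n there is `k_n` with
`c_n - k_n ∈ ℓ²`. By `sgX` (g = ga, h = gb; closure of {ga, gb} is ⊤) `∑ (c_n - k_n)² ≤ C·energy(c)` for all n. Evaluate at a fixed `x0` (X is nonempty: otherwise c is in ℓ²):
`|c_n(x0) - k_n|` bounded so `k_n` is bounded; pass to a subsequence `k_n → k`; every finite partial sum of `∑ (c-k)²` is `≤ C·energy(c)`; so `c - k ∈ ℓ²`: contradiction.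
-/

set_option autoImplicit false

namespace Pool.Agent.Helper96.OF

open Filter Topology

private noncomputable def trn (n : ℕ) (t : ℝ) : ℝ := max (-(n : ℝ)) (min (n : ℝ) t)

private theorem trn_lip (n : ℕ) (s t : ℝ) : |trn n s - trn n t| ≤ |s - t| := by
  unfold trn
  refine (abs_max_sub_max_le_max _ _ _ _).trans ?_
  rw [sub_self, abs_zero]
  refine max_le (abs_nonneg _) ?_
  refine (abs_min_sub_min_le_max _ _ _ _).trans ?_
  rw [sub_self, abs_zero]
  exact max_le (abs_nonneg _) le_rfl

private theorem trn_sq (n : ℕ) (s t : ℝ) : (trn n s - trn n t) ^ 2 ≤ (s - t) ^ 2 :=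
  sq_le_sq.2 (trn_lip n s t)

private theorem trn_abs (n : ℕ) (t : ℝ) : |trn n t| ≤ n := by
  unfold trn
  rw [abs_le]
  have hn : (0 : ℝ) ≤ n := Nat.cast_nonneg n
  exact ⟨le_max_left _ _, max_le (by linarith) (min_le_left _ _)⟩

private theorem trn_abs' (n : ℕ) (t : ℝ) : |trn n t| ≤ |t| := by
  have h := trn_lip n t 0
  have h0 : trn n 0 = 0 := by
    unfold trn
    have hn : (0 : ℝ) ≤ n := Nat.cast_nonneg n
    rw [min_eq_right hn, max_eq_right (by linarith)]
  rwa [h0, sub_zero, sub_zero] at h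

private theorem trn_eq {n : ℕ} {t : ℝ} (h : |t| ≤ n) : trn n t = t := by
  unfold trn
  rw [abs_le] at h
  rw [min_eq_right h.2, max_eq_right h.1]

private theorem closure_ga_gb : Subgroup.closure ({ga, gb} : Set A) = ⊤ := by
  rw [← FreeGroup.closure_range_of (α := Fin 2)]
  congr 1
  ext x
  simp only [Set.mem_insert_iff, Set.mem_singleton_iff, Set.mem_range, Fin.exists_fin_two, ga, gb]
  constructor
  · rintro (h | h)
    · exact Or.inl h.symm
    · exact Or.inr h.symm
  · rintro (h | h)
    · exact Or.inl h.symm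
    · exact Or.inr h.symm

theorem exists_class {X : Type} [MulAction A X] [MulAction.IsPretransitive A X] [Nonempty X] {ι : Type} [Finite ι]
    [MulAction (FreeGroup ι) X] [SMulCommClass A (FreeGroup ι) X]
    (hfree : ∀ (f : FreeGroup ι) (x : X), f • x = x → f = 1)
    (hfin : Finite (MulAction.orbitRel.Quotient (FreeGroup ι) X))
    (i j : ι) (hij : i ≠ j) :
    ∃ w : X → ℝ, InW (MulAction.toPerm ga : Equiv.Perm X) (MulAction.toPerm gb) w ∧
      ∀ k : ℝ, ¬ L2s (fun x => w x - k) := by
  obtain ⟨c, hc, ha, hb, hno⟩ := exists_unbounded hfree hfin i j hij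
  obtain ⟨C, hC, hSG⟩ := sgX hfree hfin i j hij ga gb closure_ga_gb
  obtain ⟨x0⟩ := (inferInstance : Nonempty X)
  by_contra hcon
  push Not at hcon
  -- the truncations
  have hW : ∀ n : ℕ, InW (MulAction.toPerm ga : Equiv.Perm X) (MulAction.toPerm gb)
      (fun x => trn n (c x)) := by
    intro n
    refine ⟨⟨n, fun x => trn_abs n _⟩, fun x => ?_, ?_, ?_⟩
    · have h1 : zeta (MulAction.toPerm ga : Equiv.Perm X) (MulAction.toPerm gb) x = gz • x := by
        rw [zeta, gz, mul_smul, mul_smul, mul_smul]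
        rfl
      rw [h1, hc]
    · exact Summable.of_nonneg_of_le (fun x => sq_nonneg _) (fun x => trn_sq n _ _) ha
    · exact Summable.of_nonneg_of_le (fun x => sq_nonneg _) (fun x => trn_sq n _ _) hb
  choose k hk using fun n => hcon _ (hW n)
  set D : ℝ := C * (∑' x, (c (ga • x) - c x) ^ 2 + ∑' x, (c (gb • x) - c x) ^ 2) with hD
  have hsum : ∀ n : ℕ, ∑' x, (trn n (c x) - k n) ^ 2 ≤ D := by
    intro n
    refine (hSG _ (hk n)).trans ?_
    rw [hD]
    refine mul_le_mul_of_nonneg_left (add_le_add ?_ ?_) hC.le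
    · refine Summable.tsum_le_tsum (fun x => ?_) ?_ ha
      · have h1 := trn_sq n (c (ga • x)) (c x)
        simpa using h1
      · refine Summable.of_nonneg_of_le (fun x => sq_nonneg _) (fun x => ?_) ha
        have h1 := trn_sq n (c (ga • x)) (c x)
        simpa using h1
    · refine Summable.tsum_le_tsum (fun x => ?_) ?_ hb
      · have h1 := trn_sq n (c (gb • x)) (c x)
        simpa using h1
      · refine Summable.of_nonneg_of_le (fun x => sq_nonneg _) (fun x => ?_) hb
        have h1 := trn_sq n (c (gb • x)) (c x)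
        simpa using h1
  have hfs : ∀ (n : ℕ) (s : Finset X), ∑ x ∈ s, (trn n (c x) - k n) ^ 2 ≤ D := fun n s =>
    (Summable.sum_le_tsum s (fun x _ => sq_nonneg _) (hk n)).trans (hsum n)
  have hD0 : 0 ≤ D := by
    have := hfs 0 ∅
    simpa using this
  have hkb : ∀ n, k n ∈ Set.Icc (-(|c x0| + Real.sqrt D)) (|c x0| + Real.sqrt D) := by
    intro n
    have h1 := hfs n {x0}
    rw [Finset.sum_singleton] at h1
    have h2 : |trn n (c x0) - k n| ≤ Real.sqrt D := by
      rw [← Real.sqrt_sq_eq_abs]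
      exact Real.sqrt_le_sqrt h1
    have h3 := trn_abs' n (c x0)
    rw [abs_le] at h2
    have h4 := abs_le.1 h3
    constructor
    · linarith [h2.2, h4.1]
    · linarith [h2.1, h4.2]
  obtain ⟨k', -, φ, hφ, hlim⟩ := isCompact_Icc.tendsto_subseq hkb
  refine hno k' ?_
  refine summable_of_sum_le (c := D) (fun x => sq_nonneg _) fun s => ?_
  have h1 : Tendsto (fun n => ∑ x ∈ s, (trn (φ n) (c x) - k (φ n)) ^ 2) atTop
      (𝓝 (∑ x ∈ s, (c x - k') ^ 2)) := by
    refine tendsto_finset_sum s fun x _ => ?_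
    have h2 : Tendsto (fun n => trn (φ n) (c x)) atTop (𝓝 (c x)) := by
      refine tendsto_const_nhds.congr' ?_
      have h3 : ∀ᶠ n in atTop, |c x| ≤ ((φ n : ℕ) : ℝ) :=
        ((tendsto_natCast_atTop_atTop (R := ℝ)).comp hφ.tendsto_atTop).eventually_ge_atTop _
      filter_upwards [h3] with n hn
      exact (trn_eq hn).symm
    exact (h2.sub hlim).pow 2
  exact le_of_tendsto h1 (Eventually.of_forall fun n => hfs (φ n) s)

end Pool.Agent.Helper96.OF
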