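import Pool.Agent.Helper96.OF.M2
import Pool.Agent.Helper96.OF.M3
import Pool.Agent.Helper96.OF.M4
import Pool.Agent.Helper96.OF.X5
import Pool.Agent.Helper96.OF.Z1
import Pool.Agent.Helper96.OF.WZ6

/-!
# OF-FIN: Theorem M from the analytic theorems
-/

set_option autoImplicit false

open MeasureTheory Filter Topology

namespace Pool.Agent.Helper96.OF

section
variable {X : Type}

/-- `s` lies in the corner of `s0` -/
def corr (α β : Equiv.Perm X) (s0 s : X) : Prop := ∃ n : ℤ, (zeta α β ^ n) s0 = s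

end

/-- relabelled `L2s` -/
theorem L2s_perm {X : Type} (θ : Equiv.Perm X) {w : X → ℝ} (h : L2s w) : L2s (fun x => w (θ x)) := by
  have := (Equiv.summable_iff θ).2 h
  exact this

theorem L2s_add {X : Type} {w w' : X → ℝ} (h : L2s w) (h' : L2s w') : L2s (fun x => w x + w' x) := by
  unfold L2s at *
  refine Summable.of_nonneg_of_le (fun x => sq_nonneg _) (fun x => ?_) ((h.add h').mul_left 2)
  nlinarith [sq_nonneg (w x - w' x)]

theorem L2s_neg {X : Type} {w : X → ℝ} (h : L2s w) : L2s (fun x => - w x) := by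
  unfold L2s at *
  simpa using h

theorem L2s_sub {X : Type} {w w' : X → ℝ} (h : L2s w) (h' : L2s w') : L2s (fun x => w x - w' x) := by
  simpa [sub_eq_add_neg] using L2s_add h (L2s_neg h')

/-- (4.3): there is a class whose average at the base corner is not constant in τ -/
theorem exists_nonconst {X : Type} [Countable X] [MeasurableSpace X] [DiscreteMeasurableSpace X]
    {α β : Equiv.Perm X} (hSG : SG α β)
    (AA : X → (X → ℝ) → ℂ → ℝ) (s0 : X) (φ : Equiv.Perm X) (hφα : φ * α = α * φ) (hφβ : φ * β = β * φ)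
    (hiso : ∀ w, InW α β w → ∀ s, ∀ τ ∈ HH, AA s (fun x => w (φ x)) τ = AA (φ s) w τ)
    -- m0-invariance
    (hm0 : ∀ w, InW α β w → ∀ τ ∈ HH, ∃ τ' ∈ HH, AA (φ s0) w τ = AA s0 w τ')
    (hlim : ∀ w, InW α β w → ∀ τ ∈ HH,
      Tendsto (fun n : ℕ => AA ((φ ^ n) s0) w τ - w ((φ ^ n) s0)) atTop (𝓝 0))
    (hL6 : ∀ w, InW α β w → (∀ x, 0 ≤ w x) → (∀ τ ∈ HH, AA s0 w τ = 0) → L2s w)
    {w1 : X → ℝ} (hw1 : InW α β w1) (hnt : ∀ k : ℝ, ¬ L2s (fun x => w1 x - k)) :
    ∃ w, InW α β w ∧ ∃ τ ∈ HH, ∃ τ' ∈ HH, AA s0 w τ ≠ AA s0 w τ' := by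
  by_contra hcon
  push Not at hcon
  have hI : Complex.I ∈ HH := by simp [HH]
  -- l(w)
  set l : (X → ℝ) → ℝ := fun w => AA s0 w Complex.I with hl
  have hlc : ∀ w, InW α β w → ∀ τ ∈ HH, AA s0 w τ = l w := fun w hw τ hτ => hcon w hw τ hτ _ hI
  -- invariance under φ
  have hcomp : ∀ w, InW α β w → InW α β (fun x => w (φ x)) := fun w hw => inW_comp hw φ hφα hφβ
  have hlφ : ∀ w, InW α β w → l (fun x => w (φ x)) = l w := by
    intro w hw
    have h1 := hiso w hw s0 Complex.I hI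
    obtain ⟨τ', hτ', h2⟩ := hm0 w hw Complex.I hI
    simp only [hl]
    rw [h1, h2, hlc w hw τ' hτ']
  have hpow : ∀ n : ℕ, ∀ w, InW α β w → AA ((φ ^ n) s0) w Complex.I = l w := by
    intro n
    induction n with
    | zero => intro w hw; simp [hl]
    | succ n ih =>
      intro w hw
      have h1 := hiso w hw ((φ ^ n) s0) Complex.I hI
      have h2 : (φ ^ (n + 1)) s0 = φ ((φ ^ n) s0) := by
        rw [pow_succ', Equiv.Perm.mul_apply]
      rw [h2, ← h1, ih _ (hcomp w hw), hlφ w hw]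
  have hconv : ∀ w, InW α β w → Tendsto (fun n : ℕ => w ((φ ^ n) s0)) atTop (𝓝 (l w)) := by
    intro w hw
    have h1 := hlim w hw Complex.I hI
    have h2 : (fun n : ℕ => w ((φ ^ n) s0)) =
        fun n : ℕ => l w - (AA ((φ ^ n) s0) w Complex.I - w ((φ ^ n) s0)) := by
      funext n
      rw [hpow n w hw]; ring
    rw [h2]
    simpa using h1.const_sub (l w)
  -- the class (w1 - k)^2
  set k := l w1 with hk
  have hwk : InW α β (fun x => w1 x - k) := by
    have := inW_add hw1 (inW_const α β (-k))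
    simpa [sub_eq_add_neg] using this
  have hsq : InW α β (fun x => (w1 x - k) * (w1 x - k)) := inW_mul hwk hwk
  have hl0 : l (fun x => (w1 x - k) * (w1 x - k)) = 0 := by
    have h1 := hconv _ hsq
    have h2 : Tendsto (fun n : ℕ => (w1 ((φ ^ n) s0) - k) * (w1 ((φ ^ n) s0) - k)) atTop
        (𝓝 ((l w1 - k) * (l w1 - k))) :=
      ((hconv w1 hw1).sub_const k).mul ((hconv w1 hw1).sub_const k)
    have h3 := tendsto_nhds_unique h1 h2
    rw [h3]; simp [hk]
  have hL2 : L2s (fun x => (w1 x - k) * (w1 x - k)) :=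
    hL6 _ hsq (fun x => mul_self_nonneg _) (fun τ hτ => by rw [hlc _ hsq τ hτ, hl0])
  have h4 : Summable fun x => (w1 x - k) ^ 4 := by
    have : (fun x => (w1 x - k) ^ 4) = fun x => ((w1 x - k) * (w1 x - k)) ^ 2 := by
      funext x; ring
    rw [this]; exact hL2
  refine hnt k (l4_l2 hSG _ h4 ?_ ?_)
  · exact hwk.sa
  · exact hwk.sb

/-- (4.7): if `w ∘ T - w ∈ ℓ²` for all classes then `T` commutes with `F` -/
theorem commute_of {X : Type} [Countable X] [MeasurableSpace X] [DiscreteMeasurableSpace X]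
    {α β : Equiv.Perm X} (hSG : SG α β) (hconn : Conn α β)
    (hisoh : ∀ γ : Equiv.Perm X, γ * α = α * γ → γ * β = β * γ → ∀ w, InW α β w → ∀ τ ∈ HH,
      (hh α β (fun x => w (γ x)) τ : Sq X → ℂ) =ᵐ[mu X] fun q => (hh α β w τ : Sq X → ℂ) (γ q.1, q.2))
    (T f f' : Equiv.Perm X) (hfα : f * α = α * f) (hfβ : f * β = β * f)
    (hf'α : f' * α = α * f') (hf'β : f' * β = β * f')
    (hTf : T * f = f' * T)
    (hT : ∀ w, InW α β w → L2s (fun x => w (T x) - w x))
    (hinf : ∀ (x : X) (n : ℕ), 0 < n → ((f' * f⁻¹) ^ n) x ≠ x)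
    {w1 : X → ℝ} (hw1 : InW α β w1) (hnt : ∀ k : ℝ, ¬ L2s (fun x => w1 x - k)) : False := by
  have hI : Complex.I ∈ HH := by simp [HH]
  set γ := f' * f⁻¹ with hγ
  have hγα : γ * α = α * γ := by
    rw [hγ]
    have : f⁻¹ * α = α * f⁻¹ := by
      rw [inv_mul_eq_iff_eq_mul, ← mul_assoc, hfα, mul_assoc, mul_inv_cancel, mul_one]
    rw [mul_assoc, this, ← mul_assoc, hf'α, mul_assoc]
  have hγβ : γ * β = β * γ := by
    rw [hγ]
    have : f⁻¹ * β = β * f⁻¹ := by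
      rw [inv_mul_eq_iff_eq_mul, ← mul_assoc, hfβ, mul_assoc, mul_inv_cancel, mul_one]
    rw [mul_assoc, this, ← mul_assoc, hf'β, mul_assoc]
  -- w ∘ γ - w ∈ l²
  have hL : L2s (fun x => w1 (γ x) - w1 x) := by
    -- (w∘T - w) evaluated at f T⁻¹ f⁻¹ x ; T f T⁻¹ = f'
    have h1 := L2s_perm (f * T⁻¹ * f⁻¹) (hT w1 hw1)
    have h2 := L2s_perm (T⁻¹ * f⁻¹) (hT (fun x => w1 (f x)) (inW_comp hw1 f hfα hfβ))
    have h3 := L2s_add h1 (L2s_neg h2)
    convert h3 using 1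
    funext x
    have e1 : T ((f * T⁻¹ * f⁻¹) x) = γ x := by
      have : T * (f * T⁻¹ * f⁻¹) = γ := by
        rw [hγ, ← mul_assoc, ← mul_assoc, hTf, mul_assoc f' T, mul_inv_cancel, mul_one]
      rw [← this]; rfl
    have e2 : (f : X → X) (T ((T⁻¹ * f⁻¹) x)) = x := by
      have : f * (T * (T⁻¹ * f⁻¹)) = 1 := by
        rw [mul_inv_cancel_left, mul_inv_cancel]
      calc f (T ((T⁻¹ * f⁻¹) x)) = (f * (T * (T⁻¹ * f⁻¹))) x := rfl
        _ = x := by rw [this]; rfl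
    have e3 : f ((T⁻¹ * f⁻¹) x) = (f * T⁻¹ * f⁻¹) x := rfl
    simp only [e1, e2, e3]
    ring
  have hw1γ : InW α β (fun x => w1 (γ x)) := inW_comp hw1 γ hγα hγβ
  have hh1 : hh α β (fun x => w1 (γ x)) Complex.I = hh α β w1 Complex.I :=
    (FF_L2 hSG hw1γ hw1 hL hI).1
  have hinv : ∀ᵐ q ∂(mu X), (hh α β w1 Complex.I : Sq X → ℂ) (γ q.1, q.2) =
      (hh α β w1 Complex.I : Sq X → ℂ) q := by
    have h5 := hisoh γ hγα hγβ w1 hw1 Complex.I hI
    rw [hh1] at h5
    filter_upwards [h5] with q hq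
    exact hq.symm
  have h6 := inv_zero (hh α β w1 Complex.I) γ hinf hinv
  obtain ⟨k, hk, -⟩ := hh_zero hSG hconn hw1 hI h6
  exact hnt k hk

end Pool.Agent.Helper96.OF
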