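import Pool.Agent.Helper96.OF.Defs

/-!
# OF-FT1: algebra of nice functions

`Cross` is open; `f s` is `C^∞` on it. All statements are pointwise on Cross / on the corner boxes.
`nice_comp2`: composition with a smooth map of two variables. `nice_dx`: on the open set Cross the derivative of a smooth function is smooth; `row`: `f s (x+1,y) = f (α s) (x,y)` holds in a neighbourhood
(0<y<1 is open), so the derivatives agree; corner boxes: f is constant in a neighbourhood of each point of the (open) boxes, so the derivative is 0; corner values 0.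
-/

set_option autoImplicit false

namespace Pool.Agent.Helper96.OF

variable {X : Type} {α β : Equiv.Perm X}

theorem isOpen_Cross : IsOpen Cross := by
  unfold Cross
  refine IsOpen.union ?_ ?_
  · exact (isOpen_lt continuous_const continuous_snd).inter (isOpen_lt continuous_snd continuous_const)
  · exact (isOpen_lt continuous_const continuous_fst).inter (isOpen_lt continuous_fst continuous_const)

theorem isOpen_unitSq : IsOpen unitSq := isOpen_Ioo.prod isOpen_Ioo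

theorem unitSq_subset_Cross : unitSq ⊆ Cross := by
  rintro p ⟨-, h⟩
  exact Or.inl ⟨h.1, h.2⟩

theorem nice_const (k : ℂ) : Nice α β (fun _ _ => k) (fun _ => k) where
  smooth _ := contDiffOn_const
  row _ _ _ _ _ := rfl
  col _ _ _ _ _ := rfl
  corner := ⟨1 / 2, by norm_num, le_rfl, fun _ _ _ _ _ _ _ => ⟨rfl, rfl, rfl, rfl⟩⟩
  cinv _ := rfl

theorem nice_comp2 {f g : X → ℝ × ℝ → ℂ} {c d : X → ℂ} (hf : Nice α β f c) (hg : Nice α β g d)
    (κ : ℂ → ℂ → ℂ) (hκ : ContDiff ℝ (⊤ : ℕ∞) (fun p : ℂ × ℂ => κ p.1 p.2)) :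
    Nice α β (fun s p => κ (f s p) (g s p)) (fun s => κ (c s) (d s)) where
  smooth s := hκ.comp_contDiffOn ((hf.smooth s).prodMk (hg.smooth s))
  row s x y h0 h1 := by rw [hf.row s x y h0 h1, hg.row s x y h0 h1]
  col s x y h0 h1 := by rw [hf.col s x y h0 h1, hg.col s x y h0 h1]
  corner := by
    obtain ⟨r1, p1, q1, h1⟩ := hf.corner
    obtain ⟨r2, p2, q2, h2⟩ := hg.corner
    refine ⟨min r1 r2, lt_min p1 p2, (min_le_left _ _).trans q1, ?_⟩
    intro s x y hx0 hx1 hy0 hy1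
    obtain ⟨a1, a2, a3, a4⟩ := h1 s x y hx0 (hx1.trans_le (min_le_left _ _)) hy0
      (hy1.trans_le (min_le_left _ _))
    obtain ⟨b1, b2, b3, b4⟩ := h2 s x y hx0 (hx1.trans_le (min_le_right _ _)) hy0
      (hy1.trans_le (min_le_right _ _))
    exact ⟨by rw [a1, b1], by rw [a2, b2], by rw [a3, b3], by rw [a4, b4]⟩
  cinv s := by rw [hf.cinv, hg.cinv]

theorem nice_comp {f : X → ℝ × ℝ → ℂ} {c : X → ℂ} (hf : Nice α β f c)
    (κ : ℂ → ℂ) (hκ : ContDiff ℝ (⊤ : ℕ∞) κ) :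
    Nice α β (fun s p => κ (f s p)) (fun s => κ (c s)) :=
  nice_comp2 hf hf (fun a _ => κ a) (hκ.comp contDiff_fst)

theorem nice_add {f g : X → ℝ × ℝ → ℂ} {c d : X → ℂ} (hf : Nice α β f c) (hg : Nice α β g d) :
    Nice α β (fun s p => f s p + g s p) (fun s => c s + d s) :=
  nice_comp2 hf hg (fun a b => a + b) (contDiff_fst.add contDiff_snd)

theorem nice_mul {f g : X → ℝ × ℝ → ℂ} {c d : X → ℂ} (hf : Nice α β f c) (hg : Nice α β g d) :
    Nice α β (fun s p => f s p * g s p) (fun s => c s * d s) :=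
  nice_comp2 hf hg (fun a b => a * b) (contDiff_fst.mul contDiff_snd)

theorem nice_smul {f : X → ℝ × ℝ → ℂ} {c : X → ℂ} (k : ℂ) (hf : Nice α β f c) :
    Nice α β (fun s p => k * f s p) (fun s => k * c s) :=
  nice_comp hf (fun a => k * a) (contDiff_const.mul contDiff_id)

theorem nice_conj {f : X → ℝ × ℝ → ℂ} {c : X → ℂ} (hf : Nice α β f c) :
    Nice α β (fun s p => (starRingEnd ℂ) (f s p)) (fun s => (starRingEnd ℂ) (c s)) :=
  nice_comp hf (starRingEnd ℂ) Complex.conjCLE.contDiff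

/-- differentiability of nice functions -/
theorem nice_diff {f : X → ℝ × ℝ → ℂ} {c : X → ℂ} (hf : Nice α β f c) (s : X) {p : ℝ × ℝ}
    (hp : p ∈ Cross) : DifferentiableAt ℝ (f s) p :=
  ((hf.smooth s).contDiffAt (isOpen_Cross.mem_nhds hp)).differentiableAt (by simp)

/-- the directional derivative of a nice function is nice -/
theorem nice_dv {f : X → ℝ × ℝ → ℂ} {c : X → ℂ} (hf : Nice α β f c) (v : ℝ × ℝ) :
    Nice α β (fun s p => fderiv ℝ (f s) p v) (fun _ => 0) where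
  smooth s := by
    have h := (hf.smooth s).fderiv_of_isOpen (m := (⊤ : ℕ∞)) isOpen_Cross (by
      exact_mod_cast (le_top : ((⊤ : ℕ∞) + 1) ≤ ⊤))
    exact h.clm_apply contDiffOn_const
  row s x y h0 h1 := by
    have e1 : (fun q : ℝ × ℝ => f s (q + (1, 0))) =ᶠ[nhds (x, y)] f (α s) := by
      have hU : {q : ℝ × ℝ | 0 < q.2 ∧ q.2 < 1} ∈ nhds (x, y) :=
        ((isOpen_lt continuous_const continuous_snd).inter
          (isOpen_lt continuous_snd continuous_const)).mem_nhds ⟨h0, h1⟩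
      filter_upwards [hU] with q hq
      have := hf.row s q.1 q.2 hq.1 hq.2
      rw [← this]
      congr 1
      ext <;> simp
    have e2 : fderiv ℝ (fun q : ℝ × ℝ => f s (q + (1, 0))) (x, y) =
        fderiv ℝ (f s) ((x, y) + (1, 0)) := fderiv_comp_add_right _
    have e3 : ((x, y) : ℝ × ℝ) + (1, 0) = (x + 1, y) := by ext <;> simp
    show fderiv ℝ (f s) (x + 1, y) v = fderiv ℝ (f (α s)) (x, y) v
    rw [← e3, ← e2, e1.fderiv_eq]
  col s x y h0 h1 := by
    have e1 : (fun q : ℝ × ℝ => f s (q + (0, 1))) =ᶠ[nhds (x, y)] f (β s) := by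
      have hU : {q : ℝ × ℝ | 0 < q.1 ∧ q.1 < 1} ∈ nhds (x, y) :=
        ((isOpen_lt continuous_const continuous_fst).inter
          (isOpen_lt continuous_fst continuous_const)).mem_nhds ⟨h0, h1⟩
      filter_upwards [hU] with q hq
      have := hf.col s q.1 q.2 hq.1 hq.2
      rw [← this]
      congr 1
      ext <;> simp
    have e2 : fderiv ℝ (fun q : ℝ × ℝ => f s (q + (0, 1))) (x, y) =
        fderiv ℝ (f s) ((x, y) + (0, 1)) := fderiv_comp_add_right _
    have e3 : ((x, y) : ℝ × ℝ) + (0, 1) = (x, y + 1) := by ext <;> simp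
    show fderiv ℝ (f s) (x, y + 1) v = fderiv ℝ (f (β s)) (x, y) v
    rw [← e3, ← e2, e1.fderiv_eq]
  corner := by
    obtain ⟨r, hr0, hr1, h⟩ := hf.corner
    refine ⟨r, hr0, hr1, ?_⟩
    -- general principle: locally constant on an open box
    have key : ∀ (s : X) (k : ℂ) (a b a' b' : ℝ) (p : ℝ × ℝ), p ∈ Set.Ioo a b ×ˢ Set.Ioo a' b' →
        (∀ q ∈ Set.Ioo a b ×ˢ Set.Ioo a' b', f s q = k) → fderiv ℝ (f s) p v = 0 := by
      intro s k a b a' b' p hp hq
      have e1 : f s =ᶠ[nhds p] fun _ => k :=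
        Filter.eventuallyEq_of_mem ((isOpen_Ioo.prod isOpen_Ioo).mem_nhds hp) hq
      rw [e1.fderiv_eq]
      simp
    intro s x y hx0 hx1 hy0 hy1
    refine ⟨?_, ?_, ?_, ?_⟩
    · refine key s (c s) 0 r 0 r (x, y) ⟨⟨hx0, hx1⟩, ⟨hy0, hy1⟩⟩ ?_
      rintro ⟨a, b⟩ ⟨⟨ha0, ha1⟩, ⟨hb0, hb1⟩⟩
      exact (h s a b ha0 ha1 hb0 hb1).1
    · refine key s (c (α s)) (1 - r) 1 0 r (1 - x, y) ⟨⟨by simp only; linarith, by simp only; linarith⟩,
        ⟨hy0, hy1⟩⟩ ?_
      rintro ⟨a, b⟩ ⟨⟨ha0, ha1⟩, ⟨hb0, hb1⟩⟩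
      simp only at ha0 ha1 hb0 hb1
      have := (h s (1 - a) b (by linarith) (by linarith) hb0 hb1).2.1
      rwa [sub_sub_cancel] at this
    · refine key s (c (β s)) 0 r (1 - r) 1 (x, 1 - y) ⟨⟨hx0, hx1⟩,
        ⟨by simp only; linarith, by simp only; linarith⟩⟩ ?_
      rintro ⟨a, b⟩ ⟨⟨ha0, ha1⟩, ⟨hb0, hb1⟩⟩
      simp only at ha0 ha1 hb0 hb1
      have := (h s a (1 - b) ha0 ha1 (by linarith) (by linarith)).2.2.1
      rwa [sub_sub_cancel] at this
    · refine key s (c (β (α s))) (1 - r) 1 (1 - r) 1 (1 - x, 1 - y)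
        ⟨⟨by simp only; linarith, by simp only; linarith⟩,
        ⟨by simp only; linarith, by simp only; linarith⟩⟩ ?_
      rintro ⟨a, b⟩ ⟨⟨ha0, ha1⟩, ⟨hb0, hb1⟩⟩
      simp only at ha0 ha1 hb0 hb1
      have := (h s (1 - a) (1 - b) (by linarith) (by linarith) (by linarith) (by linarith)).2.2.2
      rwa [sub_sub_cancel, sub_sub_cancel] at this
  cinv _ := rfl

theorem nice_dx {f : X → ℝ × ℝ → ℂ} {c : X → ℂ} (hf : Nice α β f c) :
    Nice α β (dx f) (fun _ => 0) := nice_dv hf (1, 0)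

theorem nice_dy {f : X → ℝ × ℝ → ℂ} {c : X → ℂ} (hf : Nice α β f c) :
    Nice α β (dy f) (fun _ => 0) := nice_dv hf (0, 1)

/-- mixed derivatives agree -/
theorem nice_dxdy {f : X → ℝ × ℝ → ℂ} {c : X → ℂ} (hf : Nice α β f c) (s : X) (p : ℝ × ℝ)
    (hp : p ∈ Cross) : dx (dy f) s p = dy (dx f) s p := by
  have hc : ContDiffAt ℝ (⊤ : ℕ∞) (f s) p := (hf.smooth s).contDiffAt (isOpen_Cross.mem_nhds hp)
  have hsym : IsSymmSndFDerivAt ℝ (f s) p := hc.isSymmSndFDerivAt (by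
    rw [minSmoothness_of_isRCLikeNormedField]
    exact WithTop.coe_le_coe.2 (le_top : (2 : ℕ∞) ≤ ⊤))
  have hd : DifferentiableAt ℝ (fderiv ℝ (f s)) p := by
    have h := (hf.smooth s).fderiv_of_isOpen (m := (⊤ : ℕ∞)) isOpen_Cross (by
      exact_mod_cast (le_top : ((⊤ : ℕ∞) + 1) ≤ ⊤))
    exact (h.contDiffAt (isOpen_Cross.mem_nhds hp)).differentiableAt (by simp)
  have e : ∀ v w : ℝ × ℝ, fderiv ℝ (fun q => fderiv ℝ (f s) q w) p v =
      fderiv ℝ (fderiv ℝ (f s)) p v w := by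
    intro v w
    rw [fderiv_clm_apply hd (differentiableAt_const _)]
    simp
  show fderiv ℝ (fun q => fderiv ℝ (f s) q (0, 1)) p (1, 0) =
    fderiv ℝ (fun q => fderiv ℝ (f s) q (1, 0)) p (0, 1)
  rw [e, e]
  exact hsym _ _

theorem dx_mul {f g : X → ℝ × ℝ → ℂ} {c d : X → ℂ} (hf : Nice α β f c) (hg : Nice α β g d)
    (s : X) (p : ℝ × ℝ) (hp : p ∈ Cross) :
    dx (fun s p => f s p * g s p) s p = dx f s p * g s p + f s p * dx g s p ∧
    dy (fun s p => f s p * g s p) s p = dy f s p * g s p + f s p * dy g s p := by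
  have h := fderiv_fun_mul (nice_diff hf s hp) (nice_diff hg s hp)
  constructor
  · show fderiv ℝ (fun p => f s p * g s p) p (1, 0) = _
    rw [h]
    simp only [add_apply, smul_apply, smul_eq_mul, dx]
    ring
  · show fderiv ℝ (fun p => f s p * g s p) p (0, 1) = _
    rw [h]
    simp only [add_apply, smul_apply, smul_eq_mul, dy]
    ring

theorem dx_add {f g : X → ℝ × ℝ → ℂ} {c d : X → ℂ} (hf : Nice α β f c) (hg : Nice α β g d)
    (s : X) (p : ℝ × ℝ) (hp : p ∈ Cross) :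
    dx (fun s p => f s p + g s p) s p = dx f s p + dx g s p ∧
    dy (fun s p => f s p + g s p) s p = dy f s p + dy g s p := by
  have h := fderiv_fun_add (nice_diff hf s hp) (nice_diff hg s hp)
  constructor
  · show fderiv ℝ (fun p => f s p + g s p) p (1, 0) = _
    rw [h]
    rfl
  · show fderiv ℝ (fun p => f s p + g s p) p (0, 1) = _
    rw [h]
    rfl

theorem dx_smul {f : X → ℝ × ℝ → ℂ} {c : X → ℂ} (k : ℂ) (hf : Nice α β f c)
    (s : X) (p : ℝ × ℝ) (hp : p ∈ Cross) :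
    dx (fun s p => k * f s p) s p = k * dx f s p ∧
    dy (fun s p => k * f s p) s p = k * dy f s p := by
  have h := fderiv_const_mul (nice_diff hf s hp) k
  constructor
  · show fderiv ℝ (fun p => k * f s p) p (1, 0) = _
    rw [h]
    rfl
  · show fderiv ℝ (fun p => k * f s p) p (0, 1) = _
    rw [h]
    rfl

theorem dx_conj {f : X → ℝ × ℝ → ℂ} {c : X → ℂ} (hf : Nice α β f c)
    (s : X) (p : ℝ × ℝ) (hp : p ∈ Cross) :
    dx (fun s p => (starRingEnd ℂ) (f s p)) s p = (starRingEnd ℂ) (dx f s p) ∧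
    dy (fun s p => (starRingEnd ℂ) (f s p)) s p = (starRingEnd ℂ) (dy f s p) := by
  have h : fderiv ℝ (fun p => (starRingEnd ℂ) (f s p)) p =
      (Complex.conjCLE : ℂ →L[ℝ] ℂ).comp (fderiv ℝ (f s) p) :=
    ((Complex.conjCLE : ℂ →L[ℝ] ℂ).hasFDerivAt.comp p (nice_diff hf s hp).hasFDerivAt).fderiv
  constructor
  · show fderiv ℝ (fun p => (starRingEnd ℂ) (f s p)) p (1, 0) = _
    rw [h]
    rfl
  · show fderiv ℝ (fun p => (starRingEnd ℂ) (f s p)) p (0, 1) = _
    rw [h]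
    rfl

theorem finS_dx {f : X → ℝ × ℝ → ℂ} (hf : FinS f) : FinS (dx f) ∧ FinS (dy f) := by
  obtain ⟨S, hS⟩ := hf
  have key : ∀ s ∉ S, ∀ p ∈ unitSq, fderiv ℝ (f s) p = 0 := by
    intro s hs p hp
    have e1 : f s =ᶠ[nhds p] fun _ => (0 : ℂ) :=
      Filter.eventuallyEq_of_mem (isOpen_unitSq.mem_nhds hp) (fun q hq => hS s hs q hq)
    rw [e1.fderiv_eq]
    simp
  refine ⟨⟨S, fun s hs p hp => ?_⟩, ⟨S, fun s hs p hp => ?_⟩⟩
  · show fderiv ℝ (f s) p (1, 0) = 0
    rw [key s hs p hp]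
    rfl
  · show fderiv ℝ (f s) p (0, 1) = 0
    rw [key s hs p hp]
    rfl

theorem finS_mul_left {f g : X → ℝ × ℝ → ℂ} (hf : FinS f) : FinS (fun s p => f s p * g s p) := by
  obtain ⟨S, hS⟩ := hf
  exact ⟨S, fun s hs p hp => by simp only [hS s hs p hp, zero_mul]⟩

theorem finS_add {f g : X → ℝ × ℝ → ℂ} (hf : FinS f) (hg : FinS g) :
    FinS (fun s p => f s p + g s p) := by
  classical
  obtain ⟨S, hS⟩ := hf
  obtain ⟨T, hT⟩ := hg
  refine ⟨S ∪ T, fun s hs p hp => ?_⟩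
  rw [Finset.mem_union, not_or] at hs
  simp only [hS s hs.1 p hp, hT s hs.2 p hp, add_zero]

end Pool.Agent.Helper96.OF
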