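import Pool.Agent.Helper96.OF.FT2

/-!
# OF-FT3: integration by parts and isotropy for finitely supported nice functions

`int_dx_zero`: for fixed `y ∈ (0,1)` the function `x ↦ g s (x,y)` is smooth on ℝ (row part of Cross), `∫_0^1 g_x dx = g s (1,y) - g s (0,y) = g (α s) (0,y) - g s (0,y)` by `row`; sum over the finitely many s in the
support (and α-preimages): telescopes to 0 (`∑_s u(α s) = ∑_s u(s)` for finitely supported u; note that g s (0,y) = 0 if both neighbours vanish, by continuity). Fubini over y. Same for dy with `col`.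
`ibp`: product rule and int_dx_zero applied to `f g`.
`iso_D`: `f_x g_y - f_y g_x = (f g_y)_x - (f g_x)_y` by `nice_dxdy`; `f g_y` and `f g_x` are nice (nice_dy, nice_mul) and FinS.
-/

set_option autoImplicit false

open MeasureTheory

namespace Pool.Agent.Helper96.OF

set_option linter.unusedSectionVars false

variable {X : Type} [Countable X] [MeasurableSpace X] [DiscreteMeasurableSpace X] {α β : Equiv.Perm X}

omit [Countable X] [MeasurableSpace X] [DiscreteMeasurableSpace X] in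
theorem nice_contAt {g : X → ℝ × ℝ → ℂ} {c : X → ℂ} (hg : Nice α β g c) (s : X) {p : ℝ × ℝ}
    (hp : p ∈ Cross) : ContinuousAt (g s) p :=
  ((hg.smooth s).continuousOn.continuousAt (isOpen_Cross.mem_nhds hp))

/-- a limit from inside of the square -/
theorem bdry_mem {g : ℝ × ℝ → ℂ} {p v : ℝ × ℝ} (hc : ContinuousAt g p) (K : Set ℂ) (hK : IsClosed K)
    (h : ∀ t : ℝ, 0 < t → t < 1 → g (p + t • v) ∈ K) : g p ∈ K := by
  have h1 : Filter.Tendsto (fun t : ℝ => p + t • v) (nhdsWithin 0 (Set.Ioi 0)) (nhds p) := by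
    have : ContinuousAt (fun t : ℝ => p + t • v) 0 := by fun_prop
    have h2 := this.tendsto
    simp only [zero_smul, add_zero] at h2
    exact h2.mono_left nhdsWithin_le_nhds
  have h3 : Filter.Tendsto (fun t : ℝ => g (p + t • v)) (nhdsWithin 0 (Set.Ioi 0)) (nhds (g p)) :=
    hc.tendsto.comp h1
  refine hK.mem_of_tendsto h3 ?_
  have h4 : Set.Ioo (0 : ℝ) 1 ∈ nhdsWithin (0 : ℝ) (Set.Ioi 0) := Ioo_mem_nhdsGT zero_lt_one
  filter_upwards [h4] with t ht
  exact h t ht.1 ht.2

theorem left_mem {g : X → ℝ × ℝ → ℂ} {c : X → ℂ} (hg : Nice α β g c) (s : X) (K : Set ℂ)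
    (hK : IsClosed K) (h : ∀ p ∈ unitSq, g s p ∈ K) {y : ℝ} (h0 : 0 < y) (h1 : y < 1) :
    g s (0, y) ∈ K := by
  refine bdry_mem (v := (1, 0)) (nice_contAt hg s (Or.inl ⟨h0, h1⟩)) K hK fun t ht0 ht1 => ?_
  have : ((0, y) : ℝ × ℝ) + t • (1, 0) = (t, y) := by ext <;> simp
  rw [this]
  exact h _ ⟨⟨ht0, ht1⟩, ⟨h0, h1⟩⟩

theorem bottom_mem {g : X → ℝ × ℝ → ℂ} {c : X → ℂ} (hg : Nice α β g c) (s : X) (K : Set ℂ)
    (hK : IsClosed K) (h : ∀ p ∈ unitSq, g s p ∈ K) {x : ℝ} (h0 : 0 < x) (h1 : x < 1) :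
    g s (x, 0) ∈ K := by
  refine bdry_mem (v := (0, 1)) (nice_contAt hg s (Or.inr ⟨h0, h1⟩)) K hK fun t ht0 ht1 => ?_
  have : ((x, 0) : ℝ × ℝ) + t • (0, 1) = (x, t) := by ext <;> simp
  rw [this]
  exact h _ ⟨⟨h0, h1⟩, ⟨ht0, ht1⟩⟩

/-- fundamental theorem of calculus along rows -/
theorem ftc_row {g : X → ℝ × ℝ → ℂ} {c : X → ℂ} (hg : Nice α β g c) (s : X) {y : ℝ} (h0 : 0 < y)
    (h1 : y < 1) : ∫ x in Set.Ioo (0 : ℝ) 1, dx g s (x, y) = g (α s) (0, y) - g s (0, y) := by
  have hmem : ∀ x : ℝ, ((x, y) : ℝ × ℝ) ∈ Cross := fun x => Or.inl ⟨h0, h1⟩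
  have hd : ∀ x : ℝ, HasDerivAt (fun x => g s (x, y)) (dx g s (x, y)) x := by
    intro x
    have h2 : HasFDerivAt (g s) (fderiv ℝ (g s) (x, y)) (x, y) := (nice_diff hg s (hmem x)).hasFDerivAt
    have h3 : HasDerivAt (fun x : ℝ => ((x, y) : ℝ × ℝ)) (1, 0) x :=
      (hasDerivAt_id x).prodMk (hasDerivAt_const x y)
    exact h2.comp_hasDerivAt x h3
  have hcont : Continuous fun x : ℝ => dx g s (x, y) := by
    rw [continuous_iff_continuousAt]
    intro x
    exact (nice_contAt (nice_dx hg) s (hmem x)).comp (f := fun x : ℝ => ((x, y) : ℝ × ℝ))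
      (Continuous.prodMk continuous_id continuous_const).continuousAt
  rw [← integral_Ioc_eq_integral_Ioo, ← intervalIntegral.integral_of_le zero_le_one,
    intervalIntegral.integral_eq_sub_of_hasDerivAt (f := fun x => g s (x, y)) (fun x _ => hd x)
      (hcont.intervalIntegrable _ _)]
  have := hg.row s 0 y h0 h1
  rw [zero_add] at this
  simp only [this]

/-- fundamental theorem of calculus along columns -/
theorem ftc_col {g : X → ℝ × ℝ → ℂ} {c : X → ℂ} (hg : Nice α β g c) (s : X) {x : ℝ} (h0 : 0 < x)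
    (h1 : x < 1) : ∫ y in Set.Ioo (0 : ℝ) 1, dy g s (x, y) = g (β s) (x, 0) - g s (x, 0) := by
  have hmem : ∀ y : ℝ, ((x, y) : ℝ × ℝ) ∈ Cross := fun y => Or.inr ⟨h0, h1⟩
  have hd : ∀ y : ℝ, HasDerivAt (fun y => g s (x, y)) (dy g s (x, y)) y := by
    intro y
    have h2 : HasFDerivAt (g s) (fderiv ℝ (g s) (x, y)) (x, y) := (nice_diff hg s (hmem y)).hasFDerivAt
    have h3 : HasDerivAt (fun y : ℝ => ((x, y) : ℝ × ℝ)) (0, 1) y :=
      (hasDerivAt_const y x).prodMk (hasDerivAt_id y)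
    exact h2.comp_hasDerivAt y h3
  have hcont : Continuous fun y : ℝ => dy g s (x, y) := by
    rw [continuous_iff_continuousAt]
    intro y
    exact (nice_contAt (nice_dy hg) s (hmem y)).comp (f := fun y : ℝ => ((x, y) : ℝ × ℝ))
      (Continuous.prodMk continuous_const continuous_id).continuousAt
  rw [← integral_Ioc_eq_integral_Ioo, ← intervalIntegral.integral_of_le zero_le_one,
    intervalIntegral.integral_eq_sub_of_hasDerivAt (f := fun y => g s (x, y)) (fun y _ => hd y)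
      (hcont.intervalIntegrable _ _)]
  have := hg.col s x 0 h0 h1
  rw [zero_add] at this
  simp only [this]

theorem left_int {g : X → ℝ × ℝ → ℂ} {c : X → ℂ} (hg : Nice α β g c) (s : X) :
    IntegrableOn (fun y : ℝ => g s (0, y)) (Set.Ioo 0 1) := by
  obtain ⟨C, hC⟩ := nice_bdd hg s
  have hm : AEStronglyMeasurable (fun y : ℝ => g s (0, y)) (volume.restrict (Set.Ioo 0 1)) := by
    refine ContinuousOn.aestronglyMeasurable ?_ measurableSet_Ioo
    intro y hy
    exact ((nice_contAt hg s (p := (0, y)) (Or.inl ⟨hy.1, hy.2⟩)).comp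
      (f := fun y : ℝ => ((0, y) : ℝ × ℝ))
      (Continuous.prodMk continuous_const continuous_id).continuousAt).continuousWithinAt
  have hb : ∀ᵐ y ∂(volume.restrict (Set.Ioo (0 : ℝ) 1)), ‖g s (0, y)‖ ≤ C := by
    rw [ae_restrict_iff' (measurableSet_Ioo (a := (0 : ℝ)) (b := 1))]
    refine Filter.Eventually.of_forall fun y hy => ?_
    have := left_mem hg s (Metric.closedBall 0 C) Metric.isClosed_closedBall
      (fun p hp => by simpa using hC p hp) hy.1 hy.2
    simpa using this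
  exact Integrable.of_bound hm C hb

theorem bottom_int {g : X → ℝ × ℝ → ℂ} {c : X → ℂ} (hg : Nice α β g c) (s : X) :
    IntegrableOn (fun x : ℝ => g s (x, 0)) (Set.Ioo 0 1) := by
  obtain ⟨C, hC⟩ := nice_bdd hg s
  have hm : AEStronglyMeasurable (fun x : ℝ => g s (x, 0)) (volume.restrict (Set.Ioo 0 1)) := by
    refine ContinuousOn.aestronglyMeasurable ?_ measurableSet_Ioo
    intro x hx
    exact ((nice_contAt hg s (p := (x, 0)) (Or.inr ⟨hx.1, hx.2⟩)).comp
      (f := fun x : ℝ => ((x, 0) : ℝ × ℝ))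
      (Continuous.prodMk continuous_id continuous_const).continuousAt).continuousWithinAt
  have hb : ∀ᵐ x ∂(volume.restrict (Set.Ioo (0 : ℝ) 1)), ‖g s (x, 0)‖ ≤ C := by
    rw [ae_restrict_iff' (measurableSet_Ioo (a := (0 : ℝ)) (b := 1))]
    refine Filter.Eventually.of_forall fun x hx => ?_
    have := bottom_mem hg s (Metric.closedBall 0 C) Metric.isClosed_closedBall
      (fun p hp => by simpa using hC p hp) hx.1 hx.2
    simpa using this
  exact Integrable.of_bound hm C hb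

/-- telescoping -/
theorem tele (e : Equiv.Perm X) (U : X → ℂ) (S : Finset X) (hU : ∀ s ∉ S, U s = 0) :
    ∑' s, (U (e s) - U s) = 0 := by
  have h1 : Summable U := summable_of_ne_finset_zero hU
  have h2 : Summable fun s => U (e s) := e.summable_iff.2 h1
  rw [h2.tsum_sub h1, e.tsum_eq U, sub_self]

theorem int_dx_zero {g : X → ℝ × ℝ → ℂ} {c : X → ℂ} (hg : Nice α β g c) (hs : FinS g) :
    ∫ q, fl (dx g) q ∂(mu X) = 0 ∧ ∫ q, fl (dy g) q ∂(mu X) = 0 := by
  obtain ⟨S, hS⟩ := hs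
  have hs : FinS g := ⟨S, hS⟩
  constructor
  · have hint : Integrable (fl (dx g)) (mu X) :=
      memLp_one_iff_integrable.1 (nice_memLp (nice_dx hg) (finS_dx hs).1 1)
    rw [(integral_mu _ hint).1]
    have hslice := ((integrable_mu_iff _ hint.1).1 hint).1
    have e1 : ∀ s, ∫ p in unitSq, fl (dx g) (s, p) =
        (∫ y in Set.Ioo (0 : ℝ) 1, g (α s) (0, y)) - ∫ y in Set.Ioo (0 : ℝ) 1, g s (0, y) := by
      intro s
      have h1 : IntegrableOn (fun p : ℝ × ℝ => dx g s p) (Set.Ioo (0 : ℝ) 1 ×ˢ Set.Ioo (0 : ℝ) 1)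
          ((volume : Measure ℝ).prod volume) := hslice s
      have h2 : ∫ p in unitSq, fl (dx g) (s, p) =
          ∫ y in Set.Ioo (0 : ℝ) 1, ∫ x in Set.Ioo (0 : ℝ) 1, dx g s (x, y) := by
        show ∫ p in (Set.Ioo (0 : ℝ) 1 ×ˢ Set.Ioo (0 : ℝ) 1), dx g s p
          ∂((volume : Measure ℝ).prod volume) = _
        rw [← Measure.prod_restrict]
        rw [IntegrableOn, ← Measure.prod_restrict] at h1
        exact integral_prod_symm _ h1
      rw [h2, ← integral_sub (left_int hg (α s)) (left_int hg s)]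
      refine setIntegral_congr_fun measurableSet_Ioo fun y hy => ?_
      exact ftc_row hg s hy.1 hy.2
    simp_rw [e1]
    refine tele α (fun s => ∫ y in Set.Ioo (0 : ℝ) 1, g s (0, y)) S fun s hs => ?_
    rw [← integral_zero ℝ ℂ (μ := volume.restrict (Set.Ioo (0 : ℝ) 1))]
    refine setIntegral_congr_fun measurableSet_Ioo fun y hy => ?_
    have := left_mem hg s {0} isClosed_singleton (fun p hp => hS s hs p hp) hy.1 hy.2
    exact this
  · have hint : Integrable (fl (dy g)) (mu X) :=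
      memLp_one_iff_integrable.1 (nice_memLp (nice_dy hg) (finS_dx hs).2 1)
    rw [(integral_mu _ hint).1]
    have hslice := ((integrable_mu_iff _ hint.1).1 hint).1
    have e1 : ∀ s, ∫ p in unitSq, fl (dy g) (s, p) =
        (∫ x in Set.Ioo (0 : ℝ) 1, g (β s) (x, 0)) - ∫ x in Set.Ioo (0 : ℝ) 1, g s (x, 0) := by
      intro s
      have h1 : IntegrableOn (fun p : ℝ × ℝ => dy g s p) (Set.Ioo (0 : ℝ) 1 ×ˢ Set.Ioo (0 : ℝ) 1)
          ((volume : Measure ℝ).prod volume) := hslice s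
      have h2 : ∫ p in unitSq, fl (dy g) (s, p) =
          ∫ x in Set.Ioo (0 : ℝ) 1, ∫ y in Set.Ioo (0 : ℝ) 1, dy g s (x, y) :=
        setIntegral_prod _ h1
      rw [h2, ← integral_sub (bottom_int hg (β s)) (bottom_int hg s)]
      refine setIntegral_congr_fun measurableSet_Ioo fun x hx => ?_
      exact ftc_col hg s hx.1 hx.2
    simp_rw [e1]
    refine tele β (fun s => ∫ x in Set.Ioo (0 : ℝ) 1, g s (x, 0)) S fun s hs => ?_
    rw [← integral_zero ℝ ℂ (μ := volume.restrict (Set.Ioo (0 : ℝ) 1))]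
    refine setIntegral_congr_fun measurableSet_Ioo fun x hx => ?_
    have := bottom_mem hg s {0} isClosed_singleton (fun p hp => hS s hs p hp) hx.1 hx.2
    exact this

/-- integrability of products -/
theorem int_prod {f g : X → ℝ × ℝ → ℂ} {c d : X → ℂ} (hf : Nice α β f c) (hg : Nice α β g d)
    (hs : FinS g) : Integrable (fun q => fl f q * fl g q) (mu X) := by
  have h1 : FinS (fun s p => f s p * g s p) := by
    obtain ⟨S, hS⟩ := hs
    exact ⟨S, fun s hs p hp => by simp only [hS s hs p hp, mul_zero]⟩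
  exact memLp_one_iff_integrable.1 (nice_memLp (nice_mul hf hg) h1 1)

theorem ibp {f g : X → ℝ × ℝ → ℂ} {c d : X → ℂ} (hf : Nice α β f c) (hg : Nice α β g d)
    (hs : FinS g) :
    ∫ q, fl (dx f) q * fl g q ∂(mu X) = - ∫ q, fl f q * fl (dx g) q ∂(mu X) ∧
    ∫ q, fl (dy f) q * fl g q ∂(mu X) = - ∫ q, fl f q * fl (dy g) q ∂(mu X) := by
  have h1 : FinS (fun s p => f s p * g s p) := by
    obtain ⟨S, hS⟩ := hs
    exact ⟨S, fun s hs p hp => by simp only [hS s hs p hp, mul_zero]⟩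
  obtain ⟨z1, z2⟩ := int_dx_zero (nice_mul hf hg) h1
  constructor
  · rw [eq_neg_iff_add_eq_zero, ← integral_add (int_prod (nice_dx hf) hg hs)
      (int_prod hf (nice_dx hg) (finS_dx hs).1), ← z1]
    refine integral_congr_ae (ae_mu_of _ fun s p hp => ?_)
    exact ((dx_mul hf hg s p (unitSq_subset_Cross hp)).1).symm
  · rw [eq_neg_iff_add_eq_zero, ← integral_add (int_prod (nice_dy hf) hg hs)
      (int_prod hf (nice_dy hg) (finS_dx hs).2), ← z2]
    refine integral_congr_ae (ae_mu_of _ fun s p hp => ?_)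
    exact ((dx_mul hf hg s p (unitSq_subset_Cross hp)).2).symm

theorem iso_D {f g : X → ℝ × ℝ → ℂ} {c d : X → ℂ} (hf : Nice α β f c) (hg : Nice α β g d)
    (hs : FinS g) :
    ∫ q, fl (dx f) q * fl (dy g) q ∂(mu X) = ∫ q, fl (dy f) q * fl (dx g) q ∂(mu X) := by
  rw [(ibp hf (nice_dy hg) (finS_dx hs).2).1, (ibp hf (nice_dx hg) (finS_dx hs).1).2]
  congr 1
  refine integral_congr_ae (ae_mu_of _ fun s p hp => ?_)
  have := nice_dxdy hg s p (unitSq_subset_Cross hp)
  simp only [fl, this]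

end Pool.Agent.Helper96.OF
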