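import Pool.Agent.Helper96.OF.FT3

/-!
# OF-FT4 (POI): Poincaré inequality

Proof. For nice FinS f let `m s = ∫_{unitSq} f s`. (a) `∫_{unitSq} |f s - m s|² ≤ C ∫_{unitSq} (|f_x|²+|f_y|²)` (Poincaré on the square, f smooth and bounded with bounded derivatives on the open square):
`f(x,y)-f(x',y') = ∫ f_x(·,y) + ∫ f_y(x',·)`, Cauchy-Schwarz; C = 2 works. (b) `m (α s) - m s = ∫_{unitSq} (f s (x+1,y) - f s (x,y)) = ∫ ∫_0^1 f_x s (x+t,y) dt`, so `|m(α s)-m s|² ≤ 2(∫_{unitSq}|f_x s|² + ∫|f_x (α s)|²)` (row);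
same for β. (c) SG applied to re m and im m (finitely supported, hence L2s). So `∑ |m|² ≤ C' (‖f_x‖²+‖f_y‖²)` and `‖f‖² ≤ 2∑∫|f-m|² + 2∑|m|²`.
-/

set_option autoImplicit false
open MeasureTheory
namespace Pool.Agent.Helper96.OF

/-- Lebesgue measure on the open unit interval -/
noncomputable def ft4_nuI : Measure ℝ := (volume : Measure ℝ).restrict (Set.Ioo 0 1)

instance ft4_inst1 : IsProbabilityMeasure ft4_nuI := ⟨by simp [ft4_nuI]⟩

theorem ft4_vol_unitSq : (volume : Measure (ℝ × ℝ)).restrict unitSq = ft4_nuI.prod ft4_nuI := by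
  rw [ft4_nuI, Measure.prod_restrict]; rfl

theorem ft4_isOpen_unitSq : IsOpen unitSq := isOpen_Ioo.prod isOpen_Ioo

instance ft4_inst2 : IsProbabilityMeasure ((volume : Measure (ℝ × ℝ)).restrict unitSq) := by
  rw [ft4_vol_unitSq]; infer_instance

theorem ft4_measSet_unitSq : MeasurableSet unitSq := ft4_isOpen_unitSq.measurableSet

/-- Cauchy-Schwarz on a probability space -/
theorem ft4_cs_prob {Ω : Type*} [MeasurableSpace Ω] (P : Measure Ω) [IsProbabilityMeasure P] (h : Ω → ℝ)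
    (h1 : Integrable h P) (h2 : Integrable (fun x => h x ^ 2) P) :
    (∫ x, h x ∂P) ^ 2 ≤ ∫ x, h x ^ 2 ∂P := by
  set m := ∫ x, h x ∂P with hm
  have h3 : 0 ≤ ∫ x, (h x - m) ^ 2 ∂P := integral_nonneg fun x => sq_nonneg _
  have h4 : ∫ x, (h x - m) ^ 2 ∂P = (∫ x, h x ^ 2 ∂P) - m ^ 2 := by
    have : (fun x => (h x - m) ^ 2) = fun x => (h x ^ 2 - (2 * m) * h x) + m ^ 2 := by
      funext x; ring
    have e1 : ∫ x, (h x ^ 2 - (2 * m) * h x) + m ^ 2 ∂P =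
        (∫ x, (h x ^ 2 - (2 * m) * h x) ∂P) + ∫ x, m ^ 2 ∂P :=
      integral_add (h2.sub (h1.const_mul _)) (integrable_const _)
    have e2 : ∫ x, (h x ^ 2 - (2 * m) * h x) ∂P = (∫ x, h x ^ 2 ∂P) - ∫ x, (2 * m) * h x ∂P :=
      integral_sub h2 (h1.const_mul _)
    rw [this, e1, e2, integral_const_mul, integral_const]
    simp only [← hm, probReal_univ, smul_eq_mul]
    ring
  linarith

/-- bounded continuous on an open set: integrable -/
theorem ft4_intOn_of_bdd {Ω E : Type*} [TopologicalSpace Ω] [MeasurableSpace Ω] [OpensMeasurableSpace Ω]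
    [NormedAddCommGroup E] [SecondCountableTopologyEither Ω E] (μ : Measure Ω) (S : Set Ω) (hS : MeasurableSet S) (hfin : μ S ≠ ⊤)
    (g : Ω → E) (hg : ContinuousOn g S) (C : ℝ) (hb : ∀ x ∈ S, ‖g x‖ ≤ C) : IntegrableOn g S μ := by
  have : IsFiniteMeasure (μ.restrict S) := ⟨by simpa using hfin.lt_top⟩
  refine Integrable.of_bound (hg.aestronglyMeasurable hS) C ?_
  exact (ae_restrict_iff' hS).2 (Filter.Eventually.of_forall hb)

/-- one-dimensional estimate -/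
theorem ft4_one_dim (g g' : ℝ → ℂ) (hd : ∀ x ∈ Set.Ioo (0:ℝ) 1, HasDerivAt g (g' x) x)
    (hc : ContinuousOn g' (Set.Ioo 0 1)) (C : ℝ) (hb : ∀ x ∈ Set.Ioo (0:ℝ) 1, ‖g' x‖ ≤ C)
    (a b : ℝ) (ha : a ∈ Set.Ioo (0:ℝ) 1) (hb1 : b ∈ Set.Ioo (0:ℝ) 1) :
    ‖g a - g b‖ ^ 2 ≤ ∫ t, ‖g' t‖ ^ 2 ∂ft4_nuI := by
  wlog hab : a ≤ b generalizing a b with H
  · rw [norm_sub_rev]; exact H b a hb1 ha (le_of_not_ge hab)
  have hsub : Set.uIcc a b ⊆ Set.Ioo (0:ℝ) 1 := by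
    rw [Set.uIcc_of_le hab]
    exact fun x hx => ⟨lt_of_lt_of_le ha.1 hx.1, lt_of_le_of_lt hx.2 hb1.2⟩
  have hftc : ∫ t in a..b, g' t = g b - g a :=
    intervalIntegral.integral_eq_sub_of_hasDerivAt (fun x hx => hd x (hsub hx))
      ((hc.mono hsub).intervalIntegrable)
  have hI1 : IntegrableOn (fun t => ‖g' t‖) (Set.Ioo (0:ℝ) 1) volume :=
    ft4_intOn_of_bdd _ _ measurableSet_Ioo (by simp) _ hc.norm C (by simpa using hb)
  have hI2 : IntegrableOn (fun t => ‖g' t‖ ^ 2) (Set.Ioo (0:ℝ) 1) volume :=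
    ft4_intOn_of_bdd _ _ measurableSet_Ioo (by simp) _ (hc.norm.pow 2) (C ^ 2) (by
      intro x hx
      rw [norm_pow, norm_norm]
      exact pow_le_pow_left₀ (norm_nonneg _) (hb x hx) 2)
  have h1 : ‖g a - g b‖ ≤ ∫ t, ‖g' t‖ ∂ft4_nuI := by
    rw [norm_sub_rev, ← hftc]
    refine (intervalIntegral.norm_integral_le_integral_norm hab).trans ?_
    rw [intervalIntegral.integral_of_le hab]
    refine setIntegral_mono_set (t := Set.Ioo (0:ℝ) 1) hI1 ?_ ?_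
    · exact Filter.Eventually.of_forall fun x => norm_nonneg _
    · exact LE.le.eventuallyLE (fun x hx => ⟨lt_trans ha.1 hx.1, lt_of_le_of_lt hx.2 hb1.2⟩)
  have h2 := ft4_cs_prob ft4_nuI (fun t => ‖g' t‖) hI1 hI2
  exact (pow_le_pow_left₀ (norm_nonneg _) h1 2).trans h2

theorem ft4_vol_unitSq_ne : (volume : Measure (ℝ × ℝ)) unitSq ≠ ⊤ := by
  have h := measure_lt_top ((volume : Measure (ℝ × ℝ)).restrict unitSq) Set.univ
  rw [Measure.restrict_apply_univ] at h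
  exact h.ne

theorem ft4_bdd_int {g : ℝ × ℝ → ℂ} (hg : ContinuousOn g unitSq) {C : ℝ} (hb : ∀ p ∈ unitSq, ‖g p‖ ≤ C) :
    IntegrableOn g unitSq volume :=
  ft4_intOn_of_bdd _ _ ft4_measSet_unitSq ft4_vol_unitSq_ne _ hg C hb

theorem ft4_bdd_int_sq {g : ℝ × ℝ → ℂ} (hg : ContinuousOn g unitSq) {C : ℝ} (hb : ∀ p ∈ unitSq, ‖g p‖ ≤ C) :
    IntegrableOn (fun p => ‖g p‖ ^ 2) unitSq volume :=
  ft4_intOn_of_bdd _ _ ft4_measSet_unitSq ft4_vol_unitSq_ne _ (hg.norm.pow 2) (C ^ 2) (by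
      intro x hx
      rw [norm_pow, norm_norm]
      exact pow_le_pow_left₀ (norm_nonneg _) (hb x hx) 2)

/-- Poincaré on one square for a smooth function with bounded values and derivatives -/
theorem poi_square (f : ℝ × ℝ → ℂ) (hf : ContDiffOn ℝ 1 f unitSq) (C : ℝ) (hb : ∀ p ∈ unitSq, ‖f p‖ ≤ C)
    (hb' : ∀ p ∈ unitSq, ‖fderiv ℝ f p‖ ≤ C) :
    ∫ p in unitSq, ‖f p - ∫ p' in unitSq, f p'‖ ^ 2 ≤
      4 * ∫ p in unitSq, (‖fderiv ℝ f p (1, 0)‖ ^ 2 + ‖fderiv ℝ f p (0, 1)‖ ^ 2) := by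
  have hfc : ContinuousOn f unitSq := hf.continuousOn
  have hdc : ContinuousOn (fderiv ℝ f) unitSq := hf.continuousOn_fderiv_of_isOpen ft4_isOpen_unitSq le_rfl
  have hdiff : ∀ p ∈ unitSq, DifferentiableAt ℝ f p := fun p hp =>
    (hf.differentiableOn (by norm_num)).differentiableAt (ft4_isOpen_unitSq.mem_nhds hp)
  set fx : ℝ × ℝ → ℂ := fun p => fderiv ℝ f p (1, 0) with hfx
  set fy : ℝ × ℝ → ℂ := fun p => fderiv ℝ f p (0, 1) with hfy
  have hfxc : ContinuousOn fx unitSq := hdc.clm_apply continuousOn_const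
  have hfyc : ContinuousOn fy unitSq := hdc.clm_apply continuousOn_const
  have hfxb : ∀ p ∈ unitSq, ‖fx p‖ ≤ C := fun p hp => by
    have h1 := (fderiv ℝ f p).le_opNorm (1, 0)
    have h2 : ‖((1:ℝ), (0:ℝ))‖ = 1 := by simp [Prod.norm_def]
    rw [h2, mul_one] at h1
    exact h1.trans (hb' p hp)
  have hfyb : ∀ p ∈ unitSq, ‖fy p‖ ≤ C := fun p hp => by
    have h1 := (fderiv ℝ f p).le_opNorm (0, 1)
    have h2 : ‖((0:ℝ), (1:ℝ))‖ = 1 := by simp [Prod.norm_def]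
    rw [h2, mul_one] at h1
    exact h1.trans (hb' p hp)
  have hC : 0 ≤ C := (norm_nonneg _).trans (hb (1/2, 1/2) (by constructor <;> constructor <;> norm_num))
  have hIf := ft4_bdd_int hfc hb
  have hIx := ft4_bdd_int_sq hfxc hfxb
  have hIy := ft4_bdd_int_sq hfyc hfyb
  set A : ℝ → ℝ := fun y => ∫ t, ‖fx (t, y)‖ ^ 2 ∂ft4_nuI with hA
  set B : ℝ → ℝ := fun x => ∫ t, ‖fy (x, t)‖ ^ 2 ∂ft4_nuI with hB
  -- Fubini
  have hIx' : Integrable (fun p : ℝ × ℝ => ‖fx p‖ ^ 2) (ft4_nuI.prod ft4_nuI) := by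
    rw [← ft4_vol_unitSq]; exact hIx
  have hIy' : Integrable (fun p : ℝ × ℝ => ‖fy p‖ ^ 2) (ft4_nuI.prod ft4_nuI) := by
    rw [← ft4_vol_unitSq]; exact hIy
  have hAint : Integrable A ft4_nuI := by
    have := hIx'.swap.integral_prod_left
    simpa using this
  have hBint : Integrable B ft4_nuI := by
    have := hIy'.integral_prod_left
    simpa using this
  have hAI : ∫ y, A y ∂ft4_nuI = ∫ p in unitSq, ‖fx p‖ ^ 2 := by
    rw [ft4_vol_unitSq, integral_prod_symm _ hIx']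
  have hBI : ∫ y, B y ∂ft4_nuI = ∫ p in unitSq, ‖fy p‖ ^ 2 := by
    rw [ft4_vol_unitSq, integral_prod _ hIy']
  -- pointwise
  have hpt : ∀ p ∈ unitSq, ∀ p' ∈ unitSq, ‖f p - f p'‖ ^ 2 ≤ 2 * A p.2 + 2 * B p'.1 := by
    rintro ⟨x, y⟩ ⟨hx, hy⟩ ⟨x', y'⟩ ⟨hx', hy'⟩
    simp only at hx hy hx' hy' ⊢
    have h1 : ‖f (x, y) - f (x', y)‖ ^ 2 ≤ A y := by
      refine ft4_one_dim (fun t => f (t, y)) (fun t => fx (t, y)) ?_ ?_ C ?_ x x' hx hx'
      · intro t ht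
        exact (hdiff (t, y) ⟨ht, hy⟩).hasFDerivAt.comp_hasDerivAt t
          ((hasDerivAt_id' t).prodMk (hasDerivAt_const t y))
      · exact hfxc.comp (by fun_prop) (fun t ht => ⟨ht, hy⟩)
      · intro t ht; exact hfxb _ ⟨ht, hy⟩
    have h2 : ‖f (x', y) - f (x', y')‖ ^ 2 ≤ B x' := by
      refine ft4_one_dim (fun t => f (x', t)) (fun t => fy (x', t)) ?_ ?_ C ?_ y y' hy hy'
      · intro t ht
        exact (hdiff (x', t) ⟨hx', ht⟩).hasFDerivAt.comp_hasDerivAt t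
          ((hasDerivAt_const t x').prodMk (hasDerivAt_id' t))
      · exact hfyc.comp (by fun_prop) (fun t ht => ⟨hx', ht⟩)
      · intro t ht; exact hfyb _ ⟨hx', ht⟩
    have h3 : ‖f (x, y) - f (x', y')‖ ≤ ‖f (x, y) - f (x', y)‖ + ‖f (x', y) - f (x', y')‖ := by
      have := norm_add_le (f (x, y) - f (x', y)) (f (x', y) - f (x', y'))
      simpa using this
    have h4 := norm_nonneg (f (x, y) - f (x', y'))
    nlinarith [sq_nonneg (‖f (x, y) - f (x', y)‖ - ‖f (x', y) - f (x', y')‖)]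
  set P : Measure (ℝ × ℝ) := (volume : Measure (ℝ × ℝ)).restrict unitSq with hP
  set m := ∫ p', f p' ∂P with hm
  have hpp : ∀ p ∈ unitSq, ‖f p - m‖ ^ 2 ≤ 2 * A p.2 + 2 * ∫ x, B x ∂ft4_nuI := by
    intro p hp
    have h1 : f p - m = ∫ p', (f p - f p') ∂P := by
      rw [integral_sub (integrable_const _) hIf, integral_const, probReal_univ, one_smul]
    have hc2 : ContinuousOn (fun p' => f p - f p') unitSq := continuousOn_const.sub hfc
    have hb2 : ∀ p' ∈ unitSq, ‖f p - f p'‖ ≤ 2 * C := fun p' hp' => by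
      have := norm_sub_le (f p) (f p')
      linarith [hb p hp, hb p' hp']
    have hi1 := ft4_bdd_int hc2 hb2
    have hi2 := ft4_bdd_int_sq hc2 hb2
    have h2 : ‖f p - m‖ ^ 2 ≤ ∫ p', ‖f p - f p'‖ ^ 2 ∂P := by
      rw [h1]
      refine (pow_le_pow_left₀ (norm_nonneg _) (norm_integral_le_integral_norm _) 2).trans ?_
      exact ft4_cs_prob P (fun p' => ‖f p - f p'‖) hi1.norm hi2
    refine h2.trans ?_
    have hBp : Integrable (fun p' : ℝ × ℝ => B p'.1) P := by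
      rw [hP, ft4_vol_unitSq]
      exact hBint.comp_fst ft4_nuI
    have h5 : ∫ p', (2 * A p.2 + 2 * B p'.1) ∂P = 2 * A p.2 + 2 * ∫ x, B x ∂ft4_nuI := by
      rw [integral_add (integrable_const _) (hBp.const_mul 2), integral_const, integral_const_mul]
      have : ∫ p' : ℝ × ℝ, B p'.1 ∂P = ∫ x, B x ∂ft4_nuI := by
        rw [hP, ft4_vol_unitSq, integral_fun_fst]; simp
      rw [this]; simp
    rw [← h5]
    refine setIntegral_mono_on hi2 ((integrable_const _).add (hBp.const_mul 2)) ft4_measSet_unitSq ?_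
    intro p' hp'
    exact hpt p hp p' hp'
  have hAp : Integrable (fun p : ℝ × ℝ => A p.2) P := by
    rw [hP, ft4_vol_unitSq]
    exact hAint.comp_snd ft4_nuI
  have h6 : ∫ p, ‖f p - m‖ ^ 2 ∂P ≤ ∫ p, (2 * A p.2 + 2 * ∫ x, B x ∂ft4_nuI) ∂P := by
    refine setIntegral_mono_on ?_ ((hAp.const_mul 2).add (integrable_const _)) ft4_measSet_unitSq ?_
    · refine ft4_bdd_int_sq (hfc.sub continuousOn_const) (C := C + ‖m‖) ?_
      intro p hp
      exact (norm_sub_le _ _).trans (by linarith [hb p hp])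
    · exact hpp
  refine h6.trans ?_
  rw [integral_add (hAp.const_mul 2) (integrable_const _), integral_const, integral_const_mul]
  have h7 : ∫ p : ℝ × ℝ, A p.2 ∂P = ∫ x, A x ∂ft4_nuI := by
    rw [hP, ft4_vol_unitSq, integral_fun_snd]; simp
  rw [h7, hAI, hBI, integral_add hIx hIy]
  have h8 : 0 ≤ ∫ p, ‖fx p‖ ^ 2 ∂P := integral_nonneg fun _ => by positivity
  have h9 : 0 ≤ ∫ p, ‖fy p‖ ^ 2 ∂P := integral_nonneg fun _ => by positivity
  simp only [probReal_univ, one_smul]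
  linarith


/-- the shift estimate on the line -/
theorem ft4_shift_est (φ G : ℝ → ℂ) (hd : ∀ x, HasDerivAt φ (G x) x) (hc : Continuous G) (x : ℝ)
    (hx : x ∈ Set.Ioo (0:ℝ) 1) :
    ‖φ (x + 1) - φ x‖ ^ 2 ≤ 2 * ∫ t, ‖G t‖ ^ 2 ∂ft4_nuI + 2 * ∫ t, ‖G (t + 1)‖ ^ 2 ∂ft4_nuI := by
  have hc1 : Continuous fun t => ‖G t‖ := hc.norm
  have hc2 : Continuous fun t => ‖G (t + 1)‖ := (hc.comp (by fun_prop : Continuous fun t : ℝ => t + 1)).norm
  have hint : ∀ g : ℝ → ℝ, Continuous g → Integrable g ft4_nuI := fun g hg => by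
    refine IntegrableOn.mono_set ?_ Set.Ioo_subset_Icc_self
    exact hg.continuousOn.integrableOn_compact isCompact_Icc
  have hnu : ∀ g : ℝ → ℝ, Continuous g → ∫ t in (0:ℝ)..1, g t = ∫ t, g t ∂ft4_nuI := fun g hg => by
    rw [intervalIntegral.integral_of_le zero_le_one, ft4_nuI, integral_Ioc_eq_integral_Ioo]
  have hftc : ∫ t in x..(x + 1), G t = φ (x + 1) - φ x :=
    intervalIntegral.integral_eq_sub_of_hasDerivAt (fun y _ => hd y) (hc.intervalIntegrable _ _)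
  have h1 : ‖φ (x + 1) - φ x‖ ≤ ∫ t in (0:ℝ)..2, ‖G t‖ := by
    rw [← hftc]
    refine (intervalIntegral.norm_integral_le_integral_norm (by linarith)).trans ?_
    refine intervalIntegral.integral_mono_interval hx.1.le (by linarith) (by linarith [hx.2]) ?_
      (hc1.intervalIntegrable _ _)
    exact Filter.Eventually.of_forall fun x => norm_nonneg _
  have h2 : ∫ t in (0:ℝ)..2, ‖G t‖ = ∫ t, ‖G t‖ ∂ft4_nuI + ∫ t, ‖G (t + 1)‖ ∂ft4_nuI := by
    rw [← intervalIntegral.integral_add_adjacent_intervals (hc1.intervalIntegrable 0 1)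
      (hc1.intervalIntegrable 1 2), hnu _ hc1, ← hnu _ hc2]
    congr 1
    rw [intervalIntegral.integral_comp_add_right (fun t => ‖G t‖) 1]
    norm_num
  have h3 := ft4_cs_prob ft4_nuI _ (hint _ hc1) (hint _ (hc1.pow 2))
  have h4 := ft4_cs_prob ft4_nuI _ (hint _ hc2) (hint _ (hc2.pow 2))
  rw [h2] at h1
  have h5 := norm_nonneg (φ (x + 1) - φ x)
  nlinarith [sq_nonneg (∫ t, ‖G t‖ ∂ft4_nuI - ∫ t, ‖G (t + 1)‖ ∂ft4_nuI)]

variable {X : Type} {α β : Equiv.Perm X}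

theorem ft4_nice_diff {f : X → ℝ × ℝ → ℂ} {c : X → ℂ} (hf : Nice α β f c) (s : X) (p : ℝ × ℝ)
    (hp : p ∈ Cross) : DifferentiableAt ℝ (f s) p :=
  ((hf.smooth s).differentiableOn (by simp)).differentiableAt (isOpen_Cross.mem_nhds hp)

theorem ft4_nice_fderiv_cont {f : X → ℝ × ℝ → ℂ} {c : X → ℂ} (hf : Nice α β f c) (s : X) :
    ContinuousOn (fderiv ℝ (f s)) Cross :=
  (hf.smooth s).continuousOn_fderiv_of_isOpen isOpen_Cross (by norm_cast)

/-- horizontal neighbours -/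
theorem ft4_row_est [Countable X] [MeasurableSpace X] [DiscreteMeasurableSpace X]
    {f : X → ℝ × ℝ → ℂ} {c : X → ℂ} (hf : Nice α β f c) (s : X) :
    ‖(∫ p in unitSq, f (α s) p) - ∫ p in unitSq, f s p‖ ^ 2 ≤
      2 * (∫ p in unitSq, ‖dx f s p‖ ^ 2) + 2 * ∫ p in unitSq, ‖dx f (α s) p‖ ^ 2 := by
  obtain ⟨C0, hC0⟩ := nice_bdd hf s
  obtain ⟨C1, hC1⟩ := nice_bdd hf (α s)
  obtain ⟨C2, hC2⟩ := nice_bdd (nice_dx hf) s
  obtain ⟨C3, hC3⟩ := nice_bdd (nice_dx hf) (α s)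
  have hcs : ∀ s, ContinuousOn (f s) unitSq := fun s => (hf.smooth s).continuousOn.mono unitSq_subset_Cross
  have hcx : ∀ s, ContinuousOn (dx f s) unitSq := fun s =>
    ((nice_dx hf).smooth s).continuousOn.mono unitSq_subset_Cross
  have hI0 := ft4_bdd_int (hcs s) hC0
  have hI1 := ft4_bdd_int (hcs (α s)) hC1
  have hI2 := ft4_bdd_int_sq (hcx s) hC2
  have hI3 := ft4_bdd_int_sq (hcx (α s)) hC3
  rw [← integral_sub hI1 hI0]
  set P : Measure (ℝ × ℝ) := (volume : Measure (ℝ × ℝ)).restrict unitSq with hP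
  have hc : ContinuousOn (fun p => f (α s) p - f s p) unitSq := (hcs _).sub (hcs _)
  have hb : ∀ p ∈ unitSq, ‖f (α s) p - f s p‖ ≤ C1 + C0 := fun p hp =>
    (norm_sub_le _ _).trans (add_le_add (hC1 p hp) (hC0 p hp))
  have hJ1 := ft4_bdd_int hc hb
  have hJ2 := ft4_bdd_int_sq hc hb
  refine (pow_le_pow_left₀ (norm_nonneg _) (norm_integral_le_integral_norm _) 2).trans ?_
  refine (ft4_cs_prob P (fun p' => ‖f (α s) p' - f s p'‖) hJ1.norm hJ2).trans ?_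
  have hI2' : Integrable (fun p : ℝ × ℝ => ‖dx f s p‖ ^ 2) (ft4_nuI.prod ft4_nuI) := by
    rw [← ft4_vol_unitSq]; exact hI2
  have hI3' : Integrable (fun p : ℝ × ℝ => ‖dx f (α s) p‖ ^ 2) (ft4_nuI.prod ft4_nuI) := by
    rw [← ft4_vol_unitSq]; exact hI3
  set A : ℝ → ℝ := fun y => ∫ t, ‖dx f s (t, y)‖ ^ 2 ∂ft4_nuI with hA
  set A' : ℝ → ℝ := fun y => ∫ t, ‖dx f (α s) (t, y)‖ ^ 2 ∂ft4_nuI with hA'
  have hAint : Integrable A ft4_nuI := by simpa using hI2'.swap.integral_prod_left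
  have hAint' : Integrable A' ft4_nuI := by simpa using hI3'.swap.integral_prod_left
  have hAp : Integrable (fun p : ℝ × ℝ => A p.2) P := by
    rw [hP, ft4_vol_unitSq]; exact hAint.comp_snd ft4_nuI
  have hAp' : Integrable (fun p : ℝ × ℝ => A' p.2) P := by
    rw [hP, ft4_vol_unitSq]; exact hAint'.comp_snd ft4_nuI
  have hAI : ∫ p : ℝ × ℝ, A p.2 ∂P = ∫ p in unitSq, ‖dx f s p‖ ^ 2 := by
    rw [hP, ft4_vol_unitSq, integral_fun_snd, integral_prod_symm _ hI2', probReal_univ, one_smul]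
  have hAI' : ∫ p : ℝ × ℝ, A' p.2 ∂P = ∫ p in unitSq, ‖dx f (α s) p‖ ^ 2 := by
    rw [hP, ft4_vol_unitSq, integral_fun_snd, integral_prod_symm _ hI3', probReal_univ, one_smul]
  rw [← hAI, ← hAI', ← integral_const_mul, ← integral_const_mul,
    ← integral_add (hAp.const_mul 2) (hAp'.const_mul 2)]
  refine setIntegral_mono_on hJ2 ((hAp.const_mul 2).add (hAp'.const_mul 2)) ft4_measSet_unitSq ?_
  rintro ⟨x, y⟩ ⟨hx, hy⟩
  simp only at hx hy ⊢
  have hcr : ∀ t, ((t, y) : ℝ × ℝ) ∈ Cross := fun t => Or.inl hy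
  have h := ft4_shift_est (fun t => f s (t, y)) (fun t => dx f s (t, y)) (fun t =>
    (ft4_nice_diff hf s (t, y) (hcr t)).hasFDerivAt.comp_hasDerivAt t
      ((hasDerivAt_id' t).prodMk (hasDerivAt_const t y)))
    (by
      have h1 := ((nice_dx hf).smooth s).continuousOn
      exact continuousOn_univ.1 (h1.comp (by fun_prop) (fun t _ => hcr t))) x hx
  have e1 : f s (x + 1, y) = f (α s) (x, y) := hf.row s x y hy.1 hy.2
  have e2 : ∀ t, dx f s (t + 1, y) = dx f (α s) (t, y) := fun t =>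
    (nice_dx hf).row s t y hy.1 hy.2
  simp only [e1, e2] at h
  exact h

/-- vertical neighbours -/
theorem ft4_col_est [Countable X] [MeasurableSpace X] [DiscreteMeasurableSpace X]
    {f : X → ℝ × ℝ → ℂ} {c : X → ℂ} (hf : Nice α β f c) (s : X) :
    ‖(∫ p in unitSq, f (β s) p) - ∫ p in unitSq, f s p‖ ^ 2 ≤
      2 * (∫ p in unitSq, ‖dy f s p‖ ^ 2) + 2 * ∫ p in unitSq, ‖dy f (β s) p‖ ^ 2 := by
  obtain ⟨C0, hC0⟩ := nice_bdd hf s
  obtain ⟨C1, hC1⟩ := nice_bdd hf (β s)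
  obtain ⟨C2, hC2⟩ := nice_bdd (nice_dy hf) s
  obtain ⟨C3, hC3⟩ := nice_bdd (nice_dy hf) (β s)
  have hcs : ∀ s, ContinuousOn (f s) unitSq := fun s => (hf.smooth s).continuousOn.mono unitSq_subset_Cross
  have hcx : ∀ s, ContinuousOn (dy f s) unitSq := fun s =>
    ((nice_dy hf).smooth s).continuousOn.mono unitSq_subset_Cross
  have hI0 := ft4_bdd_int (hcs s) hC0
  have hI1 := ft4_bdd_int (hcs (β s)) hC1
  have hI2 := ft4_bdd_int_sq (hcx s) hC2
  have hI3 := ft4_bdd_int_sq (hcx (β s)) hC3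
  rw [← integral_sub hI1 hI0]
  set P : Measure (ℝ × ℝ) := (volume : Measure (ℝ × ℝ)).restrict unitSq with hP
  have hc : ContinuousOn (fun p => f (β s) p - f s p) unitSq := (hcs _).sub (hcs _)
  have hb : ∀ p ∈ unitSq, ‖f (β s) p - f s p‖ ≤ C1 + C0 := fun p hp =>
    (norm_sub_le _ _).trans (add_le_add (hC1 p hp) (hC0 p hp))
  have hJ1 := ft4_bdd_int hc hb
  have hJ2 := ft4_bdd_int_sq hc hb
  refine (pow_le_pow_left₀ (norm_nonneg _) (norm_integral_le_integral_norm _) 2).trans ?_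
  refine (ft4_cs_prob P (fun p' => ‖f (β s) p' - f s p'‖) hJ1.norm hJ2).trans ?_
  have hI2' : Integrable (fun p : ℝ × ℝ => ‖dy f s p‖ ^ 2) (ft4_nuI.prod ft4_nuI) := by
    rw [← ft4_vol_unitSq]; exact hI2
  have hI3' : Integrable (fun p : ℝ × ℝ => ‖dy f (β s) p‖ ^ 2) (ft4_nuI.prod ft4_nuI) := by
    rw [← ft4_vol_unitSq]; exact hI3
  set A : ℝ → ℝ := fun x => ∫ t, ‖dy f s (x, t)‖ ^ 2 ∂ft4_nuI with hA
  set A' : ℝ → ℝ := fun x => ∫ t, ‖dy f (β s) (x, t)‖ ^ 2 ∂ft4_nuI with hA'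
  have hAint : Integrable A ft4_nuI := by simpa using hI2'.integral_prod_left
  have hAint' : Integrable A' ft4_nuI := by simpa using hI3'.integral_prod_left
  have hAp : Integrable (fun p : ℝ × ℝ => A p.1) P := by
    rw [hP, ft4_vol_unitSq]; exact hAint.comp_fst ft4_nuI
  have hAp' : Integrable (fun p : ℝ × ℝ => A' p.1) P := by
    rw [hP, ft4_vol_unitSq]; exact hAint'.comp_fst ft4_nuI
  have hAI : ∫ p : ℝ × ℝ, A p.1 ∂P = ∫ p in unitSq, ‖dy f s p‖ ^ 2 := by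
    rw [hP, ft4_vol_unitSq, integral_fun_fst, integral_prod _ hI2', probReal_univ, one_smul]
  have hAI' : ∫ p : ℝ × ℝ, A' p.1 ∂P = ∫ p in unitSq, ‖dy f (β s) p‖ ^ 2 := by
    rw [hP, ft4_vol_unitSq, integral_fun_fst, integral_prod _ hI3', probReal_univ, one_smul]
  rw [← hAI, ← hAI', ← integral_const_mul, ← integral_const_mul,
    ← integral_add (hAp.const_mul 2) (hAp'.const_mul 2)]
  refine setIntegral_mono_on hJ2 ((hAp.const_mul 2).add (hAp'.const_mul 2)) ft4_measSet_unitSq ?_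
  rintro ⟨x, y⟩ ⟨hx, hy⟩
  simp only at hx hy ⊢
  have hcr : ∀ t, ((x, t) : ℝ × ℝ) ∈ Cross := fun t => Or.inr hx
  have h := ft4_shift_est (fun t => f s (x, t)) (fun t => dy f s (x, t)) (fun t =>
    (ft4_nice_diff hf s (x, t) (hcr t)).hasFDerivAt.comp_hasDerivAt t
      ((hasDerivAt_const t x).prodMk (hasDerivAt_id' t)))
    (by
      have h1 := ((nice_dy hf).smooth s).continuousOn
      exact continuousOn_univ.1 (h1.comp (by fun_prop) (fun t _ => hcr t))) y hy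
  have e1 : f s (x, y + 1) = f (β s) (x, y) := hf.col s x y hx.1 hx.2
  have e2 : ∀ t, dy f s (x, t + 1) = dy f (β s) (x, t) := fun t =>
    (nice_dy hf).col s x t hx.1 hx.2
  simp only [e1, e2] at h
  exact h

variable [Countable X] [MeasurableSpace X] [DiscreteMeasurableSpace X]

theorem ft4_int_sq_mu {f : X → ℝ × ℝ → ℂ} {c : X → ℂ} (hf : Nice α β f c) (hs : FinS f) :
    ∫ q, ‖fl f q‖ ^ 2 ∂(mu X) = ∑' s, ∫ p in unitSq, ‖f s p‖ ^ 2 := by
  have h1 : Integrable (fun q => ‖fl f q‖ ^ 2) (mu X) :=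
    (nice_memLp hf hs 2).integrable_norm_pow (by norm_num)
  have h2 := (integral_mu (fun q => ((‖fl f q‖ ^ 2 : ℝ) : ℂ)) h1.ofReal).1
  rw [integral_complex_ofReal] at h2
  have h3 : ∀ s : X, ∫ p in unitSq, ((‖fl f (s, p)‖ ^ 2 : ℝ) : ℂ) =
      ((∫ p in unitSq, ‖f s p‖ ^ 2 : ℝ) : ℂ) := fun s => integral_complex_ofReal
  rw [tsum_congr h3, ← Complex.ofReal_tsum] at h2
  exact_mod_cast h2

theorem poi_D (hSG : SG α β) : ∃ C : ℝ, 0 < C ∧ ∀ (f : X → ℝ × ℝ → ℂ) (c : X → ℂ),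
    Nice α β f c → FinS f →
    ∫ q, ‖fl f q‖ ^ 2 ∂(mu X) ≤
      C * (∫ q, ‖fl (dx f) q‖ ^ 2 ∂(mu X) + ∫ q, ‖fl (dy f) q‖ ^ 2 ∂(mu X)) := by
  obtain ⟨C, hC, hSGC⟩ := hSG
  refine ⟨8 + 8 * C, by linarith, fun f c hf hs => ?_⟩
  rw [ft4_int_sq_mu hf hs, ft4_int_sq_mu (nice_dx hf) (finS_dx hs).1, ft4_int_sq_mu (nice_dy hf) (finS_dx hs).2]
  have hs0 := hs
  obtain ⟨S, hS⟩ := hs
  set m : X → ℂ := fun s => ∫ p in unitSq, f s p with hm
  set a : X → ℝ := fun s => ∫ p in unitSq, ‖dx f s p‖ ^ 2 with ha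
  set b : X → ℝ := fun s => ∫ p in unitSq, ‖dy f s p‖ ^ 2 with hb
  set u : X → ℝ := fun s => ∫ p in unitSq, ‖f s p‖ ^ 2 with hu
  -- finite supports
  have hfin : ∀ g : X → ℝ, (∀ s ∉ S, g s = 0) → Summable g := fun g hg =>
    summable_of_ne_finset_zero hg
  have hfin' : ∀ (γ : Equiv.Perm X) (g : X → ℝ), (∀ s, s ∉ S → γ s ∉ S → g s = 0) → Summable g := by
    classical
    intro γ g hg
    refine summable_of_ne_finset_zero (s := S ∪ S.image γ.symm) ?_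
    intro s hs
    rw [Finset.mem_union, not_or] at hs
    refine hg s hs.1 fun h => hs.2 (Finset.mem_image.2 ⟨γ s, h, by simp⟩)
  have hm0 : ∀ s ∉ S, m s = 0 := fun s hs => by
    simp only [hm]
    rw [setIntegral_congr_fun ft4_measSet_unitSq (g := fun _ => (0:ℂ)) (fun p hp => hS s hs p hp)]
    simp
  have hu0 : ∀ s ∉ S, u s = 0 := fun s hs => by
    simp only [hu]
    rw [setIntegral_congr_fun ft4_measSet_unitSq (g := fun _ => (0:ℝ)) (fun p hp => by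
      simp [hS s hs p hp])]
    simp
  have hd0 : ∀ s ∉ S, ∀ p ∈ unitSq, fderiv ℝ (f s) p = 0 := fun s hs p hp => by
    have : f s =ᶠ[nhds p] fun _ => (0:ℂ) :=
      Filter.eventually_of_mem (ft4_isOpen_unitSq.mem_nhds hp) fun q hq => hS s hs q hq
    rw [this.fderiv_eq]; simp
  have ha0 : ∀ s ∉ S, a s = 0 := fun s hs => by
    simp only [ha]
    rw [setIntegral_congr_fun ft4_measSet_unitSq (g := fun _ => (0:ℝ)) (fun p hp => by
      simp [dx, hd0 s hs p hp])]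
    simp
  have hb0 : ∀ s ∉ S, b s = 0 := fun s hs => by
    simp only [hb]
    rw [setIntegral_congr_fun ft4_measSet_unitSq (g := fun _ => (0:ℝ)) (fun p hp => by
      simp [dy, hd0 s hs p hp])]
    simp
  have hsa := hfin a ha0
  have hsb := hfin b hb0
  have hsu := hfin u hu0
  have hsaα : Summable fun s => a (α s) := (Equiv.summable_iff α).2 hsa
  have hsbβ : Summable fun s => b (β s) := (Equiv.summable_iff β).2 hsb
  have eaα : ∑' s, a (α s) = ∑' s, a s := Equiv.tsum_eq α a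
  have ebβ : ∑' s, b (β s) = ∑' s, b s := Equiv.tsum_eq β b
  -- differences of means
  have hrow : ∀ s, ‖m (α s) - m s‖ ^ 2 ≤ 2 * a s + 2 * a (α s) := fun s => ft4_row_est hf s
  have hcol : ∀ s, ‖m (β s) - m s‖ ^ 2 ≤ 2 * b s + 2 * b (β s) := fun s => ft4_col_est hf s
  have hsm : Summable fun s => ‖m s‖ ^ 2 := hfin _ fun s hs => by simp [hm0 s hs]
  have key : ∀ (γ : Equiv.Perm X), (Summable fun s => ‖m (γ s) - m s‖ ^ 2) ∧
      (Summable fun s => ((m (γ s)).re - (m s).re) ^ 2) ∧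
      (Summable fun s => ((m (γ s)).im - (m s).im) ^ 2) := by
    intro γ
    refine ⟨hfin' γ _ ?_, hfin' γ _ ?_, hfin' γ _ ?_⟩ <;>
    · intro s h1 h2; simp [hm0 _ h1, hm0 _ h2]
  have hsplit : ∀ (γ : Equiv.Perm X), ∑' s, ((m (γ s)).re - (m s).re) ^ 2 +
      ∑' s, ((m (γ s)).im - (m s).im) ^ 2 = ∑' s, ‖m (γ s) - m s‖ ^ 2 := by
    intro γ
    rw [← (key γ).2.1.tsum_add (key γ).2.2]
    congr 1; funext s
    rw [← Complex.normSq_eq_norm_sq, Complex.normSq_apply]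
    simp only [Complex.sub_re, Complex.sub_im]; ring
  have hre := hSGC (fun s => (m s).re) (hfin _ fun s hs => by simp [hm0 s hs])
  have him := hSGC (fun s => (m s).im) (hfin _ fun s hs => by simp [hm0 s hs])
  have hmm : ∑' s, ‖m s‖ ^ 2 = ∑' s, ((m s).re) ^ 2 + ∑' s, ((m s).im) ^ 2 := by
    rw [← Summable.tsum_add (hfin _ fun s hs => by simp [hm0 s hs]) (hfin _ fun s hs => by simp [hm0 s hs])]
    congr 1; funext s
    rw [← Complex.normSq_eq_norm_sq, Complex.normSq_apply]; ring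
  have h1 : ∑' s, ‖m s‖ ^ 2 ≤ C * (∑' s, ‖m (α s) - m s‖ ^ 2 + ∑' s, ‖m (β s) - m s‖ ^ 2) := by
    rw [hmm, ← hsplit α, ← hsplit β]
    calc _ ≤ _ := add_le_add hre him
      _ = _ := by ring
  have h2 : ∑' s, ‖m (α s) - m s‖ ^ 2 ≤ 4 * ∑' s, a s := by
    refine (Summable.tsum_le_tsum hrow (key α).1 ((hsa.mul_left 2).add (hsaα.mul_left 2))).trans ?_
    rw [Summable.tsum_add (hsa.mul_left 2) (hsaα.mul_left 2), tsum_mul_left, tsum_mul_left, eaα]
    linarith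
  have h3 : ∑' s, ‖m (β s) - m s‖ ^ 2 ≤ 4 * ∑' s, b s := by
    refine (Summable.tsum_le_tsum hcol (key β).1 ((hsb.mul_left 2).add (hsbβ.mul_left 2))).trans ?_
    rw [Summable.tsum_add (hsb.mul_left 2) (hsbβ.mul_left 2), tsum_mul_left, tsum_mul_left, ebβ]
    linarith
  -- one square
  have h4 : ∀ s, u s ≤ 8 * a s + 8 * b s + 2 * ‖m s‖ ^ 2 := by
    intro s
    obtain ⟨C0, hC0⟩ := nice_bdd hf s
    obtain ⟨C1, hC1⟩ := nice_bdd (nice_dx hf) s
    obtain ⟨C2, hC2⟩ := nice_bdd (nice_dy hf) s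
    have hcs : ContinuousOn (f s) unitSq := (hf.smooth s).continuousOn.mono unitSq_subset_Cross
    have hp0 : ((1/2, 1/2) : ℝ × ℝ) ∈ unitSq := by constructor <;> constructor <;> norm_num
    have hn0 := (norm_nonneg _).trans (hC0 _ hp0)
    have hn1 := (norm_nonneg _).trans (hC1 _ hp0)
    have hn2 := (norm_nonneg _).trans (hC2 _ hp0)
    have hbd : ∀ p ∈ unitSq, ‖fderiv ℝ (f s) p‖ ≤ C0 + C1 + C2 := by
      intro p hp
      refine ContinuousLinearMap.opNorm_le_bound _ (by linarith) ?_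
      rintro ⟨v, w⟩
      have e : ((v, w) : ℝ × ℝ) = v • (1, 0) + w • (0, 1) := by simp
      rw [e, map_add, map_smul, map_smul, ← e]
      refine (norm_add_le _ _).trans ?_
      rw [norm_smul, norm_smul]
      have k1 : ‖fderiv ℝ (f s) p (1, 0)‖ ≤ C1 := hC1 p hp
      have k2 : ‖fderiv ℝ (f s) p (0, 1)‖ ≤ C2 := hC2 p hp
      have k3 : ‖v‖ ≤ ‖((v, w) : ℝ × ℝ)‖ := norm_fst_le (v, w)
      have k4 : ‖w‖ ≤ ‖((v, w) : ℝ × ℝ)‖ := norm_snd_le (v, w)
      have k5 := mul_le_mul k3 k1 (norm_nonneg _) (norm_nonneg _)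
      have k6 := mul_le_mul k4 k2 (norm_nonneg _) (norm_nonneg _)
      have k7 := mul_nonneg hn0 (norm_nonneg ((v, w) : ℝ × ℝ))
      linarith
    have hps := poi_square (f s) (((hf.smooth s).mono unitSq_subset_Cross).of_le (by norm_cast))
      (C0 + C1 + C2) (fun p hp => (hC0 p hp).trans (by linarith)) hbd
    have hIx := ft4_bdd_int_sq (((nice_dx hf).smooth s).continuousOn.mono unitSq_subset_Cross) hC1
    have hIy := ft4_bdd_int_sq (((nice_dy hf).smooth s).continuousOn.mono unitSq_subset_Cross) hC2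
    have e1 : ∫ p in unitSq, (‖fderiv ℝ (f s) p (1, 0)‖ ^ 2 + ‖fderiv ℝ (f s) p (0, 1)‖ ^ 2) = a s + b s :=
      integral_add hIx hIy
    rw [e1] at hps
    have hId : IntegrableOn (fun p => ‖f s p - m s‖ ^ 2) unitSq := by
      refine ft4_bdd_int_sq (hcs.sub continuousOn_const) (C := C0 + ‖m s‖) ?_
      intro p hp
      exact (norm_sub_le _ _).trans (by linarith [hC0 p hp])
    have h5 : u s ≤ ∫ p in unitSq, (2 * ‖f s p - m s‖ ^ 2 + 2 * ‖m s‖ ^ 2) := by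
      refine setIntegral_mono_on (ft4_bdd_int_sq hcs hC0) ((hId.const_mul 2).add (integrable_const _))
        ft4_measSet_unitSq ?_
      intro p _
      have := norm_add_le (f s p - m s) (m s)
      rw [sub_add_cancel] at this
      nlinarith [norm_nonneg (f s p), sq_nonneg (‖f s p - m s‖ - ‖m s‖)]
    have h6 : ∫ p in unitSq, (2 * ‖f s p - m s‖ ^ 2 + 2 * ‖m s‖ ^ 2) =
        2 * (∫ p in unitSq, ‖f s p - m s‖ ^ 2) + 2 * ‖m s‖ ^ 2 := by
      rw [integral_add (hId.const_mul 2) (integrable_const _), integral_const_mul, integral_const,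
        probReal_univ, one_smul]
    rw [h6] at h5
    linarith
  have h5 : ∑' s, u s ≤ 8 * ∑' s, a s + 8 * ∑' s, b s + 2 * ∑' s, ‖m s‖ ^ 2 := by
    refine (Summable.tsum_le_tsum h4 hsu (((hsa.mul_left 8).add (hsb.mul_left 8)).add
      (hsm.mul_left 2))).trans ?_
    rw [Summable.tsum_add ((hsa.mul_left 8).add (hsb.mul_left 8)) (hsm.mul_left 2),
      Summable.tsum_add (hsa.mul_left 8) (hsb.mul_left 8), tsum_mul_left, tsum_mul_left, tsum_mul_left]
  have h6 : C * (∑' s, ‖m (α s) - m s‖ ^ 2 + ∑' s, ‖m (β s) - m s‖ ^ 2) ≤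
      C * (4 * ∑' s, a s + 4 * ∑' s, b s) := mul_le_mul_of_nonneg_left (add_le_add h2 h3) hC.le
  nlinarith

end Pool.Agent.Helper96.OF
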