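import Pool.Agent.Helper96.OF.FT5
import Pool.Agent.Helper96.OF.FT7

/-!
# OF-FT9a: tools for OF-FT9 (L² convergence of functions, approximation by nice functions)
-/

set_option autoImplicit false

open MeasureTheory Filter Topology

namespace Pool.Agent.Helper96.OF

section Ft9T2
variable {Ω : Type*} [MeasurableSpace Ω] {μ : Measure Ω}

/-- L² convergence of functions -/
def Ft9T2 (μ : Measure Ω) (u : ℕ → Ω → ℂ) (v : Ω → ℂ) : Prop :=
  (∀ n, MemLp (u n) 2 μ) ∧ MemLp v 2 μ ∧ Tendsto (fun n => eLpNorm (u n - v) 2 μ) atTop (𝓝 0)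

theorem Ft9T2.congr {u u' : ℕ → Ω → ℂ} {v v' : Ω → ℂ} (h : Ft9T2 μ u v) (hu : ∀ n, u n =ᵐ[μ] u' n)
    (hv : v =ᵐ[μ] v') : Ft9T2 μ u' v' := by
  refine ⟨fun n => (memLp_congr_ae (hu n)).1 (h.1 n), (memLp_congr_ae hv).1 h.2.1, ?_⟩
  have h1 : (fun n => eLpNorm (u' n - v') 2 μ) = fun n => eLpNorm (u n - v) 2 μ := by
    funext n
    exact (eLpNorm_congr_ae ((hu n).sub hv)).symm
  rw [h1]
  exact h.2.2

theorem Ft9T2.const {v : Ω → ℂ} (hv : MemLp v 2 μ) : Ft9T2 μ (fun _ => v) v := by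
  refine ⟨fun _ => hv, hv, ?_⟩
  simp

theorem Ft9T2.subseq {u : ℕ → Ω → ℂ} {v : Ω → ℂ} (h : Ft9T2 μ u v) {k : ℕ → ℕ} (hk : Tendsto k atTop atTop) :
    Ft9T2 μ (fun n => u (k n)) v :=
  ⟨fun n => h.1 (k n), h.2.1, h.2.2.comp hk⟩

theorem Ft9T2.add {u u' : ℕ → Ω → ℂ} {v v' : Ω → ℂ} (h : Ft9T2 μ u v) (h' : Ft9T2 μ u' v') :
    Ft9T2 μ (fun n q => u n q + u' n q) (fun q => v q + v' q) := by
  refine ⟨fun n => (h.1 n).add (h'.1 n), h.2.1.add h'.2.1, ?_⟩
  have h1 : Tendsto (fun n => eLpNorm (u n - v) 2 μ + eLpNorm (u' n - v') 2 μ) atTop (𝓝 0) := by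
    have := h.2.2.add h'.2.2
    rwa [add_zero] at this
  refine tendsto_of_tendsto_of_tendsto_of_le_of_le tendsto_const_nhds h1 (fun _ => zero_le) ?_
  intro n
  have h2 : ((fun q => u n q + u' n q) - fun q => v q + v' q) = (u n - v) + (u' n - v') := by
    funext q
    simp only [Pi.sub_apply, Pi.add_apply]
    ring
  show eLpNorm ((fun q => u n q + u' n q) - fun q => v q + v' q) 2 μ ≤ _
  rw [h2]
  exact eLpNorm_add_le ((h.1 n).sub h.2.1).1 ((h'.1 n).sub h'.2.1).1 (by norm_num)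

theorem Ft9T2.sub_const {u : ℕ → Ω → ℂ} {v w : Ω → ℂ} (h : Ft9T2 μ u v) (hw : MemLp w 2 μ) :
    Ft9T2 μ (fun n q => u n q - w q) (fun q => v q - w q) := by
  have h1 := h.add (Ft9T2.const hw.neg)
  simpa only [sub_eq_add_neg, Pi.neg_apply] using h1

theorem Ft9T2.of_le {u : ℕ → Ω → ℂ} {v : Ω → ℂ} (hu : ∀ n, MemLp (u n) 2 μ) (hv : MemLp v 2 μ)
    {u' : ℕ → Ω → ℂ} {v' : Ω → ℂ} (h : Ft9T2 μ u' v') (M : ℝ)
    (hle : ∀ n, ∀ᵐ q ∂μ, ‖u n q - v q‖ ≤ M * ‖u' n q - v' q‖) : Ft9T2 μ u v := by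
  refine ⟨hu, hv, ?_⟩
  have h1 : Tendsto (fun n => ENNReal.ofReal M * eLpNorm (u' n - v') 2 μ) atTop (𝓝 0) := by
    have := ENNReal.Tendsto.const_mul h.2.2 (Or.inr ENNReal.ofReal_ne_top : (0 : ENNReal) ≠ 0 ∨
      ENNReal.ofReal M ≠ ⊤)
    rwa [mul_zero] at this
  refine tendsto_of_tendsto_of_tendsto_of_le_of_le tendsto_const_nhds h1 (fun _ => zero_le) ?_
  intro n
  exact eLpNorm_le_mul_eLpNorm_of_ae_le_mul (hle n) 2

theorem ft9_dct2 {h : ℕ → Ω → ℂ} {G : Ω → ℝ} (hG : MemLp G 2 μ) (hm : ∀ n, AEStronglyMeasurable (h n) μ)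
    (hb : ∀ n, ∀ᵐ q ∂μ, ‖h n q‖ ≤ G q) (hl : ∀ᵐ q ∂μ, Tendsto (fun n => h n q) atTop (𝓝 0)) :
    Tendsto (fun n => eLpNorm (h n) 2 μ) atTop (𝓝 0) := by
  have hp0 : (2 : ENNReal) ≠ 0 := by norm_num
  have hpt : (2 : ENNReal) ≠ ⊤ := by norm_num
  have hp : 0 < (2 : ENNReal).toReal := ENNReal.toReal_pos hp0 hpt
  suffices hs : Tendsto (fun n => ∫⁻ x, ‖h n x‖ₑ ^ (2 : ENNReal).toReal ∂μ) atTop (𝓝 0) by
    simp only [eLpNorm_eq_lintegral_rpow_enorm_toReal hp0 hpt]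
    have h2 := (ENNReal.continuous_rpow_const (y := 1 / (2 : ENNReal).toReal)).continuousAt.tendsto.comp hs
    have h3 : (0 : ENNReal) ^ (1 / (2 : ENNReal).toReal) = 0 :=
      ENNReal.zero_rpow_of_pos (by positivity)
    rw [h3] at h2
    exact h2
  have h0 : ∫⁻ _x : Ω, (0 : ENNReal) ∂μ = 0 := by simp
  rw [← h0]
  refine tendsto_lintegral_of_dominated_convergence' (fun x => ‖G x‖ₑ ^ (2 : ENNReal).toReal)
    (fun n => (hm n).enorm.pow_const _) (fun n => ?_)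
    (lintegral_rpow_enorm_lt_top_of_eLpNorm_lt_top hp0 hpt hG.2).ne ?_
  · filter_upwards [hb n] with q hq
    refine ENNReal.rpow_le_rpow ?_ hp.le
    have h1 : ‖h n q‖ ≤ ‖G q‖ := hq.trans (le_abs_self _)
    exact enorm_le_iff_norm_le.2 h1
  · filter_upwards [hl] with q hq
    have h1 : Tendsto (fun n => ‖h n q‖ₑ) atTop (𝓝 0) := by
      have := hq.enorm
      simpa using this
    have h2 := (ENNReal.continuous_rpow_const (y := (2 : ENNReal).toReal)).continuousAt.tendsto.comp h1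
    rw [ENNReal.zero_rpow_of_pos hp] at h2
    exact h2

theorem ft9_clm_meas {a : Ω → ℂ →L[ℝ] ℂ} {u : Ω → ℂ} (ha : AEStronglyMeasurable a μ)
    (hu : AEStronglyMeasurable u μ) : AEStronglyMeasurable (fun q => a q (u q)) μ :=
  (isBoundedBilinearMap_apply (𝕜 := ℝ) (E := ℂ) (F := ℂ)).continuous.comp_aestronglyMeasurable
    (ha.prodMk hu)

theorem Ft9T2.clm {u : ℕ → Ω → ℂ} {v : Ω → ℂ} (h : Ft9T2 μ u v) {a : ℕ → Ω → ℂ →L[ℝ] ℂ}
    {b : Ω → ℂ →L[ℝ] ℂ} (M : ℝ) (ham : ∀ n, AEStronglyMeasurable (a n) μ)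
    (hbm : AEStronglyMeasurable b μ) (hab : ∀ n, ∀ᵐ q ∂μ, ‖a n q‖ ≤ M)
    (hl : ∀ᵐ q ∂μ, Tendsto (fun n => a n q) atTop (𝓝 (b q))) :
    Ft9T2 μ (fun n q => a n q (u n q)) (fun q => b q (v q)) := by
  have hb : ∀ᵐ q ∂μ, ‖b q‖ ≤ M := by
    filter_upwards [hl, ae_all_iff.2 hab] with q hq hq'
    exact le_of_tendsto hq.norm (Eventually.of_forall hq')
  have hmemu : ∀ n, MemLp (fun q => a n q (u n q)) 2 μ := by
    intro n
    refine MemLp.of_le_mul (c := M) (h.1 n) (ft9_clm_meas (ham n) (h.1 n).1) ?_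
    filter_upwards [hab n] with q hq
    exact ((a n q).le_opNorm _).trans (mul_le_mul_of_nonneg_right hq (norm_nonneg _))
  have hmemv : MemLp (fun q => b q (v q)) 2 μ := by
    refine MemLp.of_le_mul (c := M) h.2.1 (ft9_clm_meas hbm h.2.1.1) ?_
    filter_upwards [hb] with q hq
    exact ((b q).le_opNorm _).trans (mul_le_mul_of_nonneg_right hq (norm_nonneg _))
  -- `a_n (u_n - v) → 0`
  have h1 : Ft9T2 μ (fun n q => a n q (u n q - v q)) (fun _ => 0) := by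
    have hd : ∀ n, MemLp (fun q => a n q (u n q - v q)) 2 μ := by
      intro n
      refine MemLp.of_le_mul (c := M) ((h.1 n).sub h.2.1) (ft9_clm_meas (ham n) ((h.1 n).sub h.2.1).1) ?_
      filter_upwards [hab n] with q hq
      exact ((a n q).le_opNorm _).trans (mul_le_mul_of_nonneg_right hq (norm_nonneg _))
    refine Ft9T2.of_le hd (by simp) h M ?_
    intro n
    filter_upwards [hab n] with q hq
    rw [sub_zero]
    exact ((a n q).le_opNorm _).trans (mul_le_mul_of_nonneg_right hq (norm_nonneg _))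
  -- `(a_n - b) v → 0`
  have h2 : Ft9T2 μ (fun n q => (a n q - b q) (v q)) (fun _ => 0) := by
    have hd : ∀ n, MemLp (fun q => (a n q - b q) (v q)) 2 μ := by
      intro n
      refine MemLp.of_le_mul (c := 2 * M) h.2.1 (ft9_clm_meas ((ham n).sub hbm) h.2.1.1) ?_
      filter_upwards [hab n, hb] with q hq hq'
      refine ((a n q - b q).le_opNorm _).trans (mul_le_mul_of_nonneg_right ?_ (norm_nonneg _))
      exact (norm_sub_le _ _).trans (by linarith)
    refine ⟨hd, by simp, ?_⟩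
    have h3 : Tendsto (fun n => eLpNorm (fun q => (a n q - b q) (v q)) 2 μ) atTop (𝓝 0) := by
      refine ft9_dct2 (G := fun q => 2 * M * ‖v q‖) (h.2.1.norm.const_mul _) (fun n => (hd n).1) ?_ ?_
      · intro n
        filter_upwards [hab n, hb] with q hq hq'
        refine ((a n q - b q).le_opNorm _).trans (mul_le_mul_of_nonneg_right ?_ (norm_nonneg _))
        exact (norm_sub_le _ _).trans (by linarith)
      · filter_upwards [hl] with q hq
        have h4 : Tendsto (fun n => a n q - b q) atTop (𝓝 0) := by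
          have := hq.sub_const (b q)
          rwa [sub_self] at this
        have h5 : Tendsto (fun n => ‖a n q - b q‖ * ‖v q‖) atTop (𝓝 0) := by
          have := h4.norm.mul_const (‖v q‖)
          rwa [norm_zero, zero_mul] at this
        exact squeeze_zero_norm (fun n => (a n q - b q).le_opNorm _) h5
    refine h3.congr fun n => ?_
    congr 1
    funext q
    simp
  have h3 := h1.add h2
  refine ⟨hmemu, hmemv, ?_⟩
  refine h3.2.2.congr fun n => ?_
  congr 1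
  funext q
  simp only [Pi.sub_apply, map_sub, _root_.sub_apply, add_zero, sub_zero]
  ring

theorem Ft9T2.mul {u : ℕ → Ω → ℂ} {v : Ω → ℂ} (h : Ft9T2 μ u v) {a : ℕ → Ω → ℂ}
    {b : Ω → ℂ} (M : ℝ) (ham : ∀ n, AEStronglyMeasurable (a n) μ)
    (hbm : AEStronglyMeasurable b μ) (hab : ∀ n, ∀ᵐ q ∂μ, ‖a n q‖ ≤ M)
    (hl : ∀ᵐ q ∂μ, Tendsto (fun n => a n q) atTop (𝓝 (b q))) :
    Ft9T2 μ (fun n q => a n q * u n q) (fun q => b q * v q) := by
  have h1 := h.clm (a := fun n q => ContinuousLinearMap.mul ℝ ℂ (a n q))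
    (b := fun q => ContinuousLinearMap.mul ℝ ℂ (b q)) M
    (fun n => (ContinuousLinearMap.mul ℝ ℂ).continuous.comp_aestronglyMeasurable (ham n))
    ((ContinuousLinearMap.mul ℝ ℂ).continuous.comp_aestronglyMeasurable hbm) ?_ ?_
  · simpa using h1
  · intro n
    filter_upwards [hab n] with q hq
    rw [ContinuousLinearMap.opNorm_mul_apply]
    exact hq
  · filter_upwards [hl] with q hq
    exact ((ContinuousLinearMap.mul ℝ ℂ).continuous.tendsto _).comp hq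

end Ft9T2

end Pool.Agent.Helper96.OF
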