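import Pool.Agent.Helper96.OF.FT9a

/-!
# OF-FT9b: tools for OF-FT9, approximation by nice functions
-/

set_option autoImplicit false

open MeasureTheory Filter Topology

namespace Pool.Agent.Helper96.OF

variable {X : Type} [Countable X] [MeasurableSpace X] [DiscreteMeasurableSpace X] {α β : Equiv.Perm X}

theorem ft9_trip_zero (f : X → ℝ × ℝ → ℂ) : trip f 0 = cls (fl f) := rfl
theorem ft9_trip_one (f : X → ℝ × ℝ → ℂ) : trip f 1 = cls (fl (dx f)) := rfl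
theorem ft9_trip_two (f : X → ℝ × ℝ → ℂ) : trip f 2 = cls (fl (dy f)) := rfl

theorem ft9_nice_fin_mem {f : X → ℝ × ℝ → ℂ} {c : X → ℂ} (hf : Nice α β f c ∧ FinS f) :
    MemLp (fl f) 2 (mu X) ∧ MemLp (fl (dx f)) 2 (mu X) ∧ MemLp (fl (dy f)) 2 (mu X) :=
  ⟨nice_memLp hf.1 hf.2 2, nice_memLp (nice_dx hf.1) (finS_dx hf.2).1 2,
    nice_memLp (nice_dy hf.1) (finS_dx hf.2).2 2⟩

theorem ft9_T2_of_cls {u : ℕ → Sq X → ℂ} (hu : ∀ n, MemLp (u n) 2 (mu X)) {v : KK X}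
    (h : Tendsto (fun n => cls (u n)) atTop (𝓝 v)) : Ft9T2 (mu X) u v := by
  have h1 : Ft9T2 (mu X) (fun n => (cls (u n) : Sq X → ℂ)) v := by
    refine ⟨fun n => Lp.memLp _, Lp.memLp _, ?_⟩
    exact (Lp.tendsto_Lp_iff_tendsto_eLpNorm' _ _).1 h
  exact h1.congr (fun n => cls_ae (hu n)) (ae_eq_refl _)

theorem ft9_cls_of_T2 {u : ℕ → Sq X → ℂ} {v : Sq X → ℂ} (h : Ft9T2 (mu X) u v) :
    Tendsto (fun n => cls (u n)) atTop (𝓝 (cls v)) := by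
  rw [Lp.tendsto_Lp_iff_tendsto_eLpNorm']
  exact (h.congr (fun n => (cls_ae (h.1 n)).symm) (cls_ae h.2.1).symm).2.2

theorem ft9_trip_T2 {f : ℕ → X → ℝ × ℝ → ℂ} {c : ℕ → X → ℂ}
    (hf : ∀ n, Nice α β (f n) (c n) ∧ FinS (f n)) {v : K3 X}
    (h : Tendsto (fun n => trip (f n)) atTop (𝓝 v)) :
    Ft9T2 (mu X) (fun n => fl (f n)) (v 0) ∧ Ft9T2 (mu X) (fun n => fl (dx (f n))) (v 1) ∧
      Ft9T2 (mu X) (fun n => fl (dy (f n))) (v 2) := by
  have hc : ∀ i : Fin 3, Tendsto (fun n => trip (f n) i) atTop (𝓝 (v i)) := by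
    intro i
    exact ((PiLp.continuous_apply 2 (fun _ : Fin 3 => KK X) i).tendsto v).comp h
  refine ⟨ft9_T2_of_cls (fun n => (ft9_nice_fin_mem (hf n)).1) (hc 0),
    ft9_T2_of_cls (fun n => (ft9_nice_fin_mem (hf n)).2.1) (hc 1),
    ft9_T2_of_cls (fun n => (ft9_nice_fin_mem (hf n)).2.2) (hc 2)⟩

theorem ft9_T2_trip {f : ℕ → X → ℝ × ℝ → ℂ} {v0 v1 v2 : Sq X → ℂ}
    (h0 : Ft9T2 (mu X) (fun n => fl (f n)) v0) (h1 : Ft9T2 (mu X) (fun n => fl (dx (f n))) v1)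
    (h2 : Ft9T2 (mu X) (fun n => fl (dy (f n))) v2) :
    Tendsto (fun n => trip (f n)) atTop
      (𝓝 (WithLp.toLp 2 ![cls v0, cls v1, cls v2] : K3 X)) := by
  have h3 : Tendsto (fun n => (![cls (fl (f n)), cls (fl (dx (f n))), cls (fl (dy (f n)))] :
      Fin 3 → KK X)) atTop (𝓝 ![cls v0, cls v1, cls v2]) := by
    rw [tendsto_pi_nhds]
    intro i
    fin_cases i
    · exact ft9_cls_of_T2 h0
    · exact ft9_cls_of_T2 h1
    · exact ft9_cls_of_T2 h2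
  exact ((PiLp.continuous_toLp 2 (fun _ : Fin 3 => KK X)).tendsto _).comp h3

/-- limits of nice functions are in `H1` -/
theorem ft9_H1_of_T2 {f : ℕ → X → ℝ × ℝ → ℂ} {c : ℕ → X → ℂ}
    (hf : ∀ n, Nice α β (f n) (c n) ∧ FinS (f n)) {v0 v1 v2 : Sq X → ℂ}
    (h0 : Ft9T2 (mu X) (fun n => fl (f n)) v0) (h1 : Ft9T2 (mu X) (fun n => fl (dx (f n))) v1)
    (h2 : Ft9T2 (mu X) (fun n => fl (dy (f n))) v2) :
    ∃ v ∈ H1 α β, ((v 0 : Sq X → ℂ) =ᵐ[mu X] v0) ∧ ((v 1 : Sq X → ℂ) =ᵐ[mu X] v1) ∧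
      ((v 2 : Sq X → ℂ) =ᵐ[mu X] v2) := by
  refine ⟨WithLp.toLp 2 ![cls v0, cls v1, cls v2], ?_, cls_ae h0.2.1, cls_ae h1.2.1, cls_ae h2.2.1⟩
  rw [mem_H1_iff]
  exact ⟨f, c, hf, ft9_T2_trip h0 h1 h2⟩

theorem ft9_sub_ae {f : ℕ → X → ℝ × ℝ → ℂ} {c : ℕ → X → ℂ}
    (hf : ∀ n, Nice α β (f n) (c n) ∧ FinS (f n)) {v : K3 X}
    (h : Tendsto (fun n => trip (f n)) atTop (𝓝 v)) :
    ∃ k : ℕ → ℕ, StrictMono k ∧ Tendsto (fun n => trip (f (k n))) atTop (𝓝 v) ∧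
      ∀ᵐ q ∂(mu X), Tendsto (fun n => fl (f (k n)) q) atTop (𝓝 ((v 0 : Sq X → ℂ) q)) := by
  have h0 := (ft9_trip_T2 hf h).1
  have h1 : TendstoInMeasure (mu X) (fun n => fl (f n)) atTop (v 0 : Sq X → ℂ) :=
    tendstoInMeasure_of_tendsto_eLpNorm (by norm_num) (fun n => (h0.1 n).1) h0.2.1.1 h0.2.2
  obtain ⟨k, hk, hk'⟩ := h1.exists_seq_tendsto_ae
  exact ⟨k, hk, h.comp hk.tendsto_atTop, hk'⟩

theorem ft9_K_lip {K : ℂ → ℂ} (hK : ContDiff ℝ (⊤ : ℕ∞) K) {M : ℝ} (hM : ∀ z, ‖fderiv ℝ K z‖ ≤ M)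
    (a b : ℂ) : ‖K a - K b‖ ≤ M * ‖a - b‖ :=
  Convex.norm_image_sub_le_of_norm_fderiv_le (𝕜 := ℝ) (s := Set.univ)
    (fun x _ => (hK.differentiable (by norm_num)) x) (fun x _ => hM x) convex_univ
    (Set.mem_univ _) (Set.mem_univ _)

theorem ft9_nice_diff {f : X → ℝ × ℝ → ℂ} {c : X → ℂ} (hf : Nice α β f c) (s : X) (p : ℝ × ℝ)
    (hp : p ∈ unitSq) : DifferentiableAt ℝ (f s) p :=
  ((hf.smooth s).contDiffAt (isOpen_Cross.mem_nhds (unitSq_subset_Cross hp))).differentiableAt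
    (by norm_num)

theorem ft9_dx_comp {F : X → ℝ × ℝ → ℂ} {c : X → ℂ} (hF : Nice α β F c) {K : ℂ → ℂ}
    (hK : ContDiff ℝ (⊤ : ℕ∞) K) (s : X) (p : ℝ × ℝ) (hp : p ∈ unitSq) :
    dx (fun s p => K (F s p)) s p = fderiv ℝ K (F s p) (dx F s p) ∧
    dy (fun s p => K (F s p)) s p = fderiv ℝ K (F s p) (dy F s p) := by
  have h1 := ft9_nice_diff hF s p hp
  have h2 : fderiv ℝ (fun p => K (F s p)) p = (fderiv ℝ K (F s p)).comp (fderiv ℝ (F s) p) :=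
    fderiv_comp (𝕜 := ℝ) p (g := K) (f := F s) ((hK.differentiable (by norm_num)) _) h1
  constructor
  · show fderiv ℝ (fun p => K (F s p)) p (1, 0) = _
    rw [h2]; rfl
  · show fderiv ℝ (fun p => K (F s p)) p (0, 1) = _
    rw [h2]; rfl

theorem ft9_ae_unit (P : Sq X → Prop) (h : ∀ s, ∀ p ∈ unitSq, P (s, p)) : ∀ᵐ q ∂(mu X), P q := ae_mu_of P h

section core

variable {Ph : X → ℝ × ℝ → ℂ} {cP : X → ℂ} (hP : Nice α β Ph cP)
  (hP1 : MemLp (fl (dx Ph)) 2 (mu X)) (hP2 : MemLp (fl (dy Ph)) 2 (mu X)) {ψ : K3 X}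
  {f : ℕ → X → ℝ × ℝ → ℂ} {c : ℕ → X → ℂ} (hf : ∀ n, Nice α β (f n) (c n) ∧ FinS (f n))
  (hψ : Tendsto (fun n => trip (f n)) atTop (𝓝 ψ))
  (hae : ∀ᵐ q ∂(mu X), Tendsto (fun n => fl (f n) q) atTop (𝓝 ((ψ 0 : Sq X → ℂ) q)))
  {K : ℂ → ℂ} (hK : ContDiff ℝ (⊤ : ℕ∞) K) {M : ℝ} (hM : ∀ z, ‖fderiv ℝ K z‖ ≤ M)

include hP hP1 hP2 hf hψ hae hK hM

/-- derivative of `K ∘ (Ph + f n)` in L² -/
theorem ft9_core_D :
    Ft9T2 (mu X) (fun n => fl (dx (fun s p => K (Ph s p + f n s p))))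
      (fun q => fderiv ℝ K (fl Ph q + (ψ 0 : Sq X → ℂ) q) (fl (dx Ph) q + (ψ 1 : Sq X → ℂ) q)) ∧
    Ft9T2 (mu X) (fun n => fl (dy (fun s p => K (Ph s p + f n s p))))
      (fun q => fderiv ℝ K (fl Ph q + (ψ 0 : Sq X → ℂ) q) (fl (dy Ph) q + (ψ 2 : Sq X → ℂ) q)) := by
  obtain ⟨t0, t1, t2⟩ := ft9_trip_T2 hf hψ
  have hKc : Continuous (fderiv ℝ K) := hK.continuous_fderiv (by norm_num)
  have hm0 := nice_meas hP
  have hma : ∀ n, AEStronglyMeasurable (fun q => fderiv ℝ K (fl Ph q + fl (f n) q)) (mu X) :=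
    fun n => hKc.comp_aestronglyMeasurable (hm0.add (t0.1 n).1)
  have hmb : AEStronglyMeasurable (fun q => fderiv ℝ K (fl Ph q + (ψ 0 : Sq X → ℂ) q)) (mu X) :=
    hKc.comp_aestronglyMeasurable (hm0.add t0.2.1.1)
  have hlim : ∀ᵐ q ∂(mu X), Tendsto (fun n => fderiv ℝ K (fl Ph q + fl (f n) q)) atTop
      (𝓝 (fderiv ℝ K (fl Ph q + (ψ 0 : Sq X → ℂ) q))) := by
    filter_upwards [hae] with q hq
    exact (hKc.tendsto _).comp (hq.const_add _)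
  constructor
  · have h1 := ((Ft9T2.const hP1).add t1).clm M hma hmb (fun n => ae_of_all _ fun q => hM _) hlim
    refine h1.congr (fun n => ?_) (ae_eq_refl _)
    refine ft9_ae_unit _ fun s p hp => ?_
    have h2 := (ft9_dx_comp (nice_add hP (hf n).1) hK s p hp).1
    have h3 := (dx_add hP (hf n).1 s p (unitSq_subset_Cross hp)).1
    rw [h3] at h2
    exact h2.symm
  · have h1 := ((Ft9T2.const hP2).add t2).clm M hma hmb (fun n => ae_of_all _ fun q => hM _) hlim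
    refine h1.congr (fun n => ?_) (ae_eq_refl _)
    refine ft9_ae_unit _ fun s p hp => ?_
    have h2 := (ft9_dx_comp (nice_add hP (hf n).1) hK s p hp).2
    have h3 := (dx_add hP (hf n).1 s p (unitSq_subset_Cross hp)).2
    rw [h3] at h2
    exact h2.symm

theorem ft9_core_0 :
    Ft9T2 (mu X) (fun n => fl (fun s p => K (Ph s p + f n s p) - K (Ph s p)))
      (fun q => K (fl Ph q + (ψ 0 : Sq X → ℂ) q) - K (fl Ph q)) := by
  obtain ⟨t0, -, -⟩ := ft9_trip_T2 hf hψ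
  have hKc : Continuous K := hK.continuous
  have hm0 := nice_meas hP
  refine Ft9T2.of_le (fun n => ?_) ?_ t0 M (fun n => ae_of_all _ fun q => ?_)
  · refine MemLp.of_le_mul (c := M) (t0.1 n)
      ((hKc.comp_aestronglyMeasurable (hm0.add (t0.1 n).1)).sub (hKc.comp_aestronglyMeasurable hm0))
      (ae_of_all _ fun q => ?_)
    have := ft9_K_lip hK hM (fl Ph q + fl (f n) q) (fl Ph q)
    rw [add_sub_cancel_left] at this
    exact this
  · refine MemLp.of_le_mul (c := M) t0.2.1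
      ((hKc.comp_aestronglyMeasurable (hm0.add t0.2.1.1)).sub (hKc.comp_aestronglyMeasurable hm0))
      (ae_of_all _ fun q => ?_)
    have := ft9_K_lip hK hM (fl Ph q + (ψ 0 : Sq X → ℂ) q) (fl Ph q)
    rw [add_sub_cancel_left] at this
    exact this
  · have := ft9_K_lip hK hM (fl Ph q + fl (f n) q) (fl Ph q + (ψ 0 : Sq X → ℂ) q)
    rw [add_sub_add_left_eq_sub] at this
    show ‖(K (fl Ph q + fl (f n) q) - K (fl Ph q)) -
      (K (fl Ph q + (ψ 0 : Sq X → ℂ) q) - K (fl Ph q))‖ ≤ _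
    rwa [sub_sub_sub_cancel_right]

/-- the full triple of `K ∘ (Ph + f n) - K ∘ Ph` -/
theorem ft9_core_sub :
    Ft9T2 (mu X) (fun n => fl (dx (fun s p => K (Ph s p + f n s p) - K (Ph s p))))
      (fun q => fderiv ℝ K (fl Ph q + (ψ 0 : Sq X → ℂ) q) (fl (dx Ph) q + (ψ 1 : Sq X → ℂ) q) -
        fderiv ℝ K (fl Ph q) (fl (dx Ph) q)) ∧
    Ft9T2 (mu X) (fun n => fl (dy (fun s p => K (Ph s p + f n s p) - K (Ph s p))))
      (fun q => fderiv ℝ K (fl Ph q + (ψ 0 : Sq X → ℂ) q) (fl (dy Ph) q + (ψ 2 : Sq X → ℂ) q) -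
        fderiv ℝ K (fl Ph q) (fl (dy Ph) q)) := by
  obtain ⟨h1, h2⟩ := ft9_core_D hP hP1 hP2 hf hψ hae hK hM
  have hKc : Continuous (fderiv ℝ K) := hK.continuous_fderiv (by norm_num)
  have hm0 := nice_meas hP
  have hK0 : AEStronglyMeasurable (fun q => fderiv ℝ K (fl Ph q)) (mu X) :=
    hKc.comp_aestronglyMeasurable hm0
  have m1 : MemLp (fun q => fderiv ℝ K (fl Ph q) (fl (dx Ph) q)) 2 (mu X) := by
    refine MemLp.of_le_mul (c := M) hP1 (ft9_clm_meas hK0 hP1.1) (ae_of_all _ fun q => ?_)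
    exact ((fderiv ℝ K (fl Ph q)).le_opNorm _).trans
      (mul_le_mul_of_nonneg_right (hM _) (norm_nonneg _))
  have m2 : MemLp (fun q => fderiv ℝ K (fl Ph q) (fl (dy Ph) q)) 2 (mu X) := by
    refine MemLp.of_le_mul (c := M) hP2 (ft9_clm_meas hK0 hP2.1) (ae_of_all _ fun q => ?_)
    exact ((fderiv ℝ K (fl Ph q)).le_opNorm _).trans
      (mul_le_mul_of_nonneg_right (hM _) (norm_nonneg _))
  have hsub : ∀ n, ∀ s, ∀ p ∈ unitSq, fderiv ℝ (fun p => K (Ph s p + f n s p) - K (Ph s p)) p =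
      fderiv ℝ (fun p => K (Ph s p + f n s p)) p - fderiv ℝ (fun p => K (Ph s p)) p := by
    intro n s p hp
    have hKd : Differentiable ℝ K := hK.differentiable (by norm_num)
    have d1 : DifferentiableAt ℝ (fun p => K (Ph s p + f n s p)) p :=
      (hKd _).comp p (ft9_nice_diff (nice_add hP (hf n).1) s p hp)
    have d2 : DifferentiableAt ℝ (fun p => K (Ph s p)) p :=
      (hKd _).comp p (ft9_nice_diff hP s p hp)
    exact fderiv_fun_sub d1 d2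
  constructor
  · refine (h1.sub_const m1).congr (fun n => ft9_ae_unit _ fun s p hp => ?_) (ae_eq_refl _)
    show _ = fderiv ℝ (fun p => K (Ph s p + f n s p) - K (Ph s p)) p (1, 0)
    rw [hsub n s p hp]
    have h3 := (ft9_dx_comp hP hK s p hp).1
    show fl (dx fun s p => K (Ph s p + f n s p)) (s, p) - fderiv ℝ K (Ph s p) (dx Ph s p) = _
    rw [← h3]
    rfl
  · refine (h2.sub_const m2).congr (fun n => ft9_ae_unit _ fun s p hp => ?_) (ae_eq_refl _)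
    show _ = fderiv ℝ (fun p => K (Ph s p + f n s p) - K (Ph s p)) p (0, 1)
    rw [hsub n s p hp]
    have h3 := (ft9_dx_comp hP hK s p hp).2
    show fl (dy fun s p => K (Ph s p + f n s p)) (s, p) - fderiv ℝ K (Ph s p) (dy Ph s p) = _
    rw [← h3]
    rfl

end core

/-- niceness of `K ∘ (Ph + f) - K ∘ Ph` -/
theorem ft9_nice_Ksub {Ph f : X → ℝ × ℝ → ℂ} {cP c : X → ℂ} (hP : Nice α β Ph cP)
    (hf : Nice α β f c ∧ FinS f) {K : ℂ → ℂ} (hK : ContDiff ℝ (⊤ : ℕ∞) K) :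
    Nice α β (fun s p => K (Ph s p + f s p) - K (Ph s p)) (fun s => K (cP s + c s) - K (cP s)) ∧
      FinS (fun s p => K (Ph s p + f s p) - K (Ph s p)) := by
  constructor
  · refine nice_comp2 hP (nice_add hP hf.1) (fun z w => K w - K z) ?_
    exact (hK.comp contDiff_snd).sub (hK.comp contDiff_fst)
  · obtain ⟨S, hS⟩ := hf.2
    refine ⟨S, fun s hs p hp => ?_⟩
    show K (Ph s p + f s p) - K (Ph s p) = 0
    rw [hS s hs p hp, add_zero, sub_self]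

/-- smooth truncation -/
theorem ft9_exists_trunc (C : ℝ) (hC : 0 ≤ C) : ∃ (K : ℂ → ℂ) (M : ℝ), ContDiff ℝ (⊤ : ℕ∞) K ∧ K 0 = 0 ∧
    (∀ z, ‖K z‖ ≤ C + 1) ∧ (∀ z, ‖fderiv ℝ K z‖ ≤ M) ∧ (∀ z, ‖z‖ ≤ C → K z = z) ∧
    ∀ z, ‖z‖ ≤ C → fderiv ℝ K z = ContinuousLinearMap.id ℝ ℂ := by
  let φ : ContDiffBump (0 : ℂ) := ⟨C + 1 / 3, C + 1 / 2, by linarith, by linarith⟩
  have hs : ContDiff ℝ (⊤ : ℕ∞) (fun z : ℂ => ((φ z : ℝ) : ℂ) * z) := by
    have h1 : ContDiff ℝ (⊤ : ℕ∞) (fun z : ℂ => (φ z : ℝ)) := φ.contDiff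
    exact (Complex.ofRealCLM.contDiff.comp h1).mul contDiff_id
  have hsupp : HasCompactSupport (fun z : ℂ => ((φ z : ℝ) : ℂ) * z) := by
    have h1 : HasCompactSupport (fun z : ℂ => ((φ z : ℝ) : ℂ)) := by
      have := φ.hasCompactSupport
      exact this.comp_left (g := fun t : ℝ => (t : ℂ)) (by simp)
    exact h1.mul_right
  have hcd : Continuous (fderiv ℝ (fun z : ℂ => ((φ z : ℝ) : ℂ) * z)) := hs.continuous_fderiv (by norm_num)
  obtain ⟨M, hM⟩ := hcd.bounded_above_of_compact_support (hsupp.fderiv (𝕜 := ℝ))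
  have hid : ∀ z : ℂ, ‖z‖ ≤ C + 1 / 3 → ((φ z : ℝ) : ℂ) * z = z := by
    intro z hz
    have h1 : φ z = 1 := φ.one_of_mem_closedBall (by
      rw [mem_closedBall_zero_iff]
      exact hz)
    rw [h1]; simp
  refine ⟨fun z => ((φ z : ℝ) : ℂ) * z, M, hs, by simp, ?_, hM, fun z hz => hid z (by linarith), ?_⟩
  · intro z
    rw [norm_mul, Complex.norm_real, Real.norm_eq_abs, abs_of_nonneg φ.nonneg]
    by_cases hz : ‖z‖ ≤ C + 1 / 2
    · calc φ z * ‖z‖ ≤ 1 * (C + 1 / 2) := mul_le_mul φ.le_one hz (norm_nonneg _) (by norm_num)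
        _ ≤ C + 1 := by linarith
    · push Not at hz
      have h1 : φ z = 0 := φ.zero_of_le_dist (by
        rw [dist_zero_right]
        exact hz.le)
      rw [h1, zero_mul]
      linarith
  · intro z hz
    have h1 : (fun z : ℂ => ((φ z : ℝ) : ℂ) * z) =ᶠ[𝓝 z] fun z => z := by
      have h2 : ∀ᶠ w in 𝓝 z, ‖w‖ < C + 1 / 3 :=
        (continuous_norm.tendsto z).eventually (gt_mem_nhds (by linarith))
      filter_upwards [h2] with w hw
      exact hid w hw.le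
    rw [h1.fderiv_eq]
    exact fderiv_fun_id

end Pool.Agent.Helper96.OF
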