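import Pool.Agent.Helper96.OF.Defs

/-!
# OF-HADefs: abstract Hilbert space data for the variation of the energy
-/

set_option autoImplicit false

open scoped ComplexConjugate

namespace Pool.Agent.Helper96.OF

structure HolData (H K : Type*) [NormedAddCommGroup H] [InnerProductSpace ℂ H] [CompleteSpace H]
    [NormedAddCommGroup K] [InnerProductSpace ℂ K] [CompleteSpace K] where
  d1 : H →L[ℂ] K
  d2 : H →L[ℂ] K
  J : K →L[ℝ] K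
  JH : H →L[ℝ] H
  J_inv : ∀ x, J (J x) = x
  J_smul : ∀ (c : ℂ) (x : K), J (c • x) = conj c • J x
  J_inner : ∀ x y, inner ℂ (J x) (J y) = inner ℂ y x
  JH_inv : ∀ x, JH (JH x) = x
  JH_smul : ∀ (c : ℂ) (x : H), JH (c • x) = conj c • JH x
  d1_J : ∀ χ, d1 (JH χ) = J (d1 χ)
  d2_J : ∀ χ, d2 (JH χ) = J (d2 χ)
  iso : ∀ χ χ', inner ℂ (d1 χ) (d2 χ') = inner ℂ (d2 χ) (d1 χ')
  c0 : ℝ
  c0_pos : 0 < c0
  coer : ∀ χ, c0 * ‖χ‖ ^ 2 ≤ ‖d1 χ‖ ^ 2 + ‖d2 χ‖ ^ 2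
  φ1 : K
  φ2 : K
  φ1_real : J φ1 = φ1
  φ2_real : J φ2 = φ2
  isoφ : ∀ χ, inner ℂ (d1 χ) φ2 = inner ℂ (d2 χ) φ1

namespace HolData

variable {H K : Type*} [NormedAddCommGroup H] [InnerProductSpace ℂ H] [CompleteSpace H]
    [NormedAddCommGroup K] [InnerProductSpace ℂ K] [CompleteSpace K] (D : HolData H K)

/-- `χ_y - τ̄ χ_x` -/
noncomputable def Dt (τ : ℂ) (χ : H) : K := D.d2 χ - conj τ • D.d1 χ

/-- `F_y - τ̄ F_x`, `F = φ + ψ` -/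
noncomputable def Y (τ : ℂ) (ψ : H) : K := (D.φ2 + D.d2 ψ) - conj τ • (D.φ1 + D.d1 ψ)

/-- the weak equation -/
def Weq (τ : ℂ) (ψ : H) : Prop := ∀ χ, inner ℂ (D.Dt τ χ) (D.Y τ ψ) = 0

/-- `h = ∂F` -/
noncomputable def h (s : ℂ → H) (τ : ℂ) : K := (1 / (τ - conj τ)) • D.Y τ (s τ)

/-- the energy -/
noncomputable def E (s : ℂ → H) (τ : ℂ) : ℝ := 4 * τ.im * ‖D.h s τ‖ ^ 2

end HolData

end Pool.Agent.Helper96.OF
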