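import Pool.Agent.Helper96.OF.Defs

/-!
# OF-M1: the action of F = FreeGroup ι ≅ A1/R on the squares X = A ⧸ R

`R ≤ A1 ≤ A`, R normal in A1, `p : A1 →* FreeGroup ι` surjective with kernel R. For f choose `h ∈ A1` with `p h = f` and put `f • (g R) = g h⁻¹ R`. Well defined: `g r h⁻¹ = g h⁻¹ (h r h⁻¹)`; independent of h (kernel R).
It is a left action, commutes with left multiplication by A, is free (`g h⁻¹ R = g R ⟹ h ∈ R`), and the orbit set is finite (orbits ↔ cosets of A1: finite index).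
-/

set_option autoImplicit false

namespace Pool.Agent.Helper96.OF

section
variable (A1 R : Subgroup A) (hRA : R ≤ A1) (hnorm : ∀ g ∈ A1, ∀ r ∈ R, g * r * g⁻¹ ∈ R)
  {ι : Type} (p : A1 →* FreeGroup ι) (hp : Function.Surjective p) (hker : ∀ g : A1, p g = 1 ↔ (g : A) ∈ R)

include hRA hnorm hp hker in
theorem exists_actF : ∃ act : MulAction (FreeGroup ι) (A ⧸ R),
    (∀ (h : A1) (g : A), act.toSMul.smul (p h) (g : A ⧸ R) = ((g * (h : A)⁻¹ : A) : A ⧸ R)) := by
  classical
  obtain ⟨s, hs⟩ : ∃ s : FreeGroup ι → A1, ∀ f, p (s f) = f :=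
    ⟨Function.surjInv hp, Function.surjInv_eq hp⟩
  let sm : FreeGroup ι → (A ⧸ R) → (A ⧸ R) := fun f =>
    Quotient.map' (fun g : A => g * ((s f : A1) : A)⁻¹) (by
      intro x y hxy
      rw [QuotientGroup.leftRel_apply] at hxy ⊢
      have h1 := hnorm ((s f : A1) : A) (s f).2 _ hxy
      have h2 : (x * ((s f : A1) : A)⁻¹)⁻¹ * (y * ((s f : A1) : A)⁻¹) =
          ((s f : A1) : A) * (x⁻¹ * y) * ((s f : A1) : A)⁻¹ := by group
      show (x * ((s f : A1) : A)⁻¹)⁻¹ * (y * ((s f : A1) : A)⁻¹) ∈ R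
      rw [h2]
      exact h1)
  have key : ∀ (h : A1) (g : A), sm (p h) (g : A ⧸ R) = ((g * (h : A)⁻¹ : A) : A ⧸ R) := by
    intro h g
    show ((g * ((s (p h) : A1) : A)⁻¹ : A) : A ⧸ R) = ((g * (h : A)⁻¹ : A) : A ⧸ R)
    rw [QuotientGroup.eq]
    have h1 : p (s (p h) * h⁻¹) = 1 := by
      rw [map_mul, hs, map_inv, mul_inv_cancel]
    have h2 := (hker _).mp h1
    have h3 : (g * ((s (p h) : A1) : A)⁻¹)⁻¹ * (g * (h : A)⁻¹) =
        ((s (p h) * h⁻¹ : A1) : A) := by
      push_cast
      group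
    rw [h3]
    exact h2
  have keyone : ∀ x : A ⧸ R, sm 1 x = x := by
    intro x
    induction x using QuotientGroup.induction_on with
    | H g =>
      have h1 := key 1 g
      rw [map_one] at h1
      rw [h1]
      congr 1
      simp
  have keymul : ∀ (f f' : FreeGroup ι) (x : A ⧸ R), sm (f * f') x = sm f (sm f' x) := by
    intro f f' x
    induction x using QuotientGroup.induction_on with
    | H g =>
      have h1 := key (s f * s f') g
      rw [map_mul, hs, hs] at h1
      have h2 := key (s f') g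
      rw [hs] at h2
      have h3 := key (s f) (g * ((s f' : A1) : A)⁻¹)
      rw [hs] at h3
      rw [h1, h2, h3]
      congr 1
      push_cast
      group
  exact ⟨{ smul := sm, one_smul := keyone, mul_smul := keymul }, key⟩

/-- the action -/
@[reducible] noncomputable def actF : MulAction (FreeGroup ι) (A ⧸ R) :=
  (exists_actF A1 R hRA hnorm p hp hker).choose

theorem actF_smul (h : A1) (g : A) :
    letI := actF A1 R hRA hnorm p hp hker
    (p h) • (g : A ⧸ R) = ((g * (h : A)⁻¹ : A) : A ⧸ R) :=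
  (exists_actF A1 R hRA hnorm p hp hker).choose_spec h g

theorem actF_comm :
    letI := actF A1 R hRA hnorm p hp hker
    SMulCommClass A (FreeGroup ι) (A ⧸ R) := by
  letI := actF A1 R hRA hnorm p hp hker
  refine ⟨fun a f x => ?_⟩
  induction x using QuotientGroup.induction_on with
  | H g =>
    obtain ⟨h, rfl⟩ := hp f
    have h1 : (p h) • (g : A ⧸ R) = ((g * (h : A)⁻¹ : A) : A ⧸ R) :=
      actF_smul A1 R hRA hnorm p hp hker h g
    have h2 : (p h) • ((a * g : A) : A ⧸ R) = ((a * g * (h : A)⁻¹ : A) : A ⧸ R) :=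
      actF_smul A1 R hRA hnorm p hp hker h (a * g)
    have h3 : a • (g : A ⧸ R) = ((a * g : A) : A ⧸ R) := rfl
    have h4 : a • ((g * (h : A)⁻¹ : A) : A ⧸ R) = ((a * (g * (h : A)⁻¹) : A) : A ⧸ R) := rfl
    rw [h1, h3, h2, h4, mul_assoc]

theorem actF_free :
    letI := actF A1 R hRA hnorm p hp hker
    ∀ (f : FreeGroup ι) (x : A ⧸ R), f • x = x → f = 1 := by
  letI := actF A1 R hRA hnorm p hp hker
  intro f x hfx
  induction x using QuotientGroup.induction_on with
  | H g =>
    obtain ⟨h, rfl⟩ := hp f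
    have h1 : (p h) • (g : A ⧸ R) = ((g * (h : A)⁻¹ : A) : A ⧸ R) :=
      actF_smul A1 R hRA hnorm p hp hker h g
    rw [h1, QuotientGroup.eq] at hfx
    rw [hker]
    have h2 : (g * (h : A)⁻¹)⁻¹ * g = (h : A) := by group
    rwa [h2] at hfx

theorem actF_fin (hfi : A1.index ≠ 0) :
    letI := actF A1 R hRA hnorm p hp hker
    Finite (MulAction.orbitRel.Quotient (FreeGroup ι) (A ⧸ R)) := by
  letI := actF A1 R hRA hnorm p hp hker
  have hFI : A1.FiniteIndex := ⟨hfi⟩
  have hfin : Finite (A ⧸ A1) := Subgroup.finite_quotient_of_finiteIndex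
  refine Finite.of_surjective
    (fun c : A ⧸ A1 => (Quotient.mk'' ((c.out : A) : A ⧸ R) :
      MulAction.orbitRel.Quotient (FreeGroup ι) (A ⧸ R))) ?_
  intro o
  induction o using Quotient.inductionOn' with
  | h x =>
    induction x using QuotientGroup.induction_on with
    | H g =>
      refine ⟨(g : A ⧸ A1), ?_⟩
      have h0 : (((g : A ⧸ A1).out : A) : A ⧸ A1) = (g : A ⧸ A1) := Quotient.out_eq' _
      rw [QuotientGroup.eq] at h0
      apply Quotient.sound
      show (MulAction.orbitRel (FreeGroup ι) (A ⧸ R)) _ _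
      rw [MulAction.orbitRel_apply]
      refine ⟨p ⟨_, h0⟩, ?_⟩
      show (p ⟨_, h0⟩) • ((g : A) : A ⧸ R) = _
      have h1 := actF_smul A1 R hRA hnorm p hp hker
        ⟨((g : A ⧸ A1).out : A)⁻¹ * g, h0⟩ g
      refine h1.trans ?_
      congr 1
      group

end

theorem pretrans (R : Subgroup A) : MulAction.IsPretransitive A (A ⧸ R) := inferInstance

end Pool.Agent.Helper96.OF
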