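import Pool.Agent.Helper96.OF.M1
import Pool.Agent.Helper96.OF.X0

/-!
# OF-M2: the relabelling θ attached to m = ad_n ∘ μ ∈ M

Hypothesis on m (from M1-condition of Theorem M): `∀ g ∈ A1, g⁻¹ * m g ∈ R`, and the same for m⁻¹. `m = MulAut.conj n * μ`, i.e. `m g = n (μ g) n⁻¹`.
`θ (g R) = μ(g) n⁻¹ R`. Well defined: `μ(g r) n⁻¹ = μ(g) n⁻¹ · m(r)`, `m r ∈ R` for r ∈ R (r⁻¹ m(r) ∈ R). Bijective: the inverse comes from m⁻¹ = conj(μ⁻¹(n⁻¹)) * μ⁻¹.
Intertwining: `θ (μ⁻¹(g) • x) = g • θ x`. Commutes with F: `θ(g h⁻¹R) = μ(g) n⁻¹ m(h)⁻¹ R = μ(g)n⁻¹h⁻¹R` because `m(h) ∈ hR`, h ∈ A1.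
Bounded displacement: A = ⊔ g_l A1 (finitely many l); for x = g_l h R, h ∈ A1: `θ x = μ(g_l)μ(h)n⁻¹R = μ(g_l)n⁻¹m(h)R = μ(g_l) n⁻¹ h R = γ_l • x`, `γ_l = μ(g_l) n⁻¹ g_l⁻¹`. So `∑ (w(θx)-w x)² ≤ ∑_l ∑_x (w(γ_l • x) - w x)² < ∞` (X0.diff_closure:
toPerm γ_l lies in the closure of {toPerm ga, toPerm gb}).
-/

set_option autoImplicit false

namespace Pool.Agent.Helper96.OF

private theorem m_apply (n : A) (μ : MulAut A) (g : A) :
    (MulAut.conj n * μ) g = n * μ g * n⁻¹ := rfl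

private theorem m_inv_apply (n : A) (μ : MulAut A) (g : A) :
    (MulAut.conj n * μ)⁻¹ g = μ⁻¹ (n⁻¹ * g * n) := by
  rw [mul_inv_rev, MulAut.mul_apply, ← map_inv]
  simp

private theorem closure_gagb : Subgroup.closure ({ga, gb} : Set A) = ⊤ := by
  rw [← FreeGroup.closure_range_of (Fin 2)]
  congr 1
  ext x
  simp only [Set.mem_insert_iff, Set.mem_singleton_iff, Set.mem_range, Fin.exists_fin_two, ga, gb]
  constructor
  · rintro (h | h)
    · left; exact h.symm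
    · right; exact h.symm
  · rintro (h | h)
    · left; exact h.symm
    · right; exact h.symm

private theorem toPerm_mem (R : Subgroup A) (γ : A) :
    (MulAction.toPerm γ : Equiv.Perm (A ⧸ R)) ∈
      Subgroup.closure ({MulAction.toPerm ga, MulAction.toPerm gb} : Set (Equiv.Perm (A ⧸ R))) := by
  have h1 : γ ∈ Subgroup.closure ({ga, gb} : Set A) := by rw [closure_gagb]; trivial
  have h2 : MulAction.toPermHom A (A ⧸ R) γ ∈
      (Subgroup.closure ({ga, gb} : Set A)).map (MulAction.toPermHom A (A ⧸ R)) :=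
    Subgroup.mem_map_of_mem _ h1
  rw [MonoidHom.map_closure, Set.image_pair] at h2
  exact h2

theorem exists_theta (A1 R : Subgroup A) (hRA : R ≤ A1) (hfi : A1.index ≠ 0)
    (hnorm : ∀ g ∈ A1, ∀ r ∈ R, g * r * g⁻¹ ∈ R)
    {ι : Type} (p : A1 →* FreeGroup ι) (hp : Function.Surjective p)
    (hker : ∀ g : A1, p g = 1 ↔ (g : A) ∈ R)
    (n : A) (μ : MulAut A) (hm : ∀ g ∈ A1, g⁻¹ * (MulAut.conj n * μ) g ∈ R)
    (hm' : ∀ g ∈ A1, g⁻¹ * (MulAut.conj n * μ)⁻¹ g ∈ R) :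
    letI := actF A1 R hRA hnorm p hp hker
    ∃ θ : Equiv.Perm (A ⧸ R), (∀ g : A, θ (g : A ⧸ R) = ((μ g * n⁻¹ : A) : A ⧸ R)) ∧
      (∀ (g : A) (x : A ⧸ R), θ ((μ⁻¹ g) • x) = g • θ x) ∧
      (∀ (f : FreeGroup ι) (x : A ⧸ R), θ (f • x) = f • θ x) ∧
      ∀ w : A ⧸ R → ℝ, InW (MulAction.toPerm ga : Equiv.Perm (A ⧸ R)) (MulAction.toPerm gb) w →
        L2s (fun x => w (θ x) - w x) := by
  letI act := actF A1 R hRA hnorm p hp hker
  have hmR : ∀ r ∈ R, n * μ r * n⁻¹ ∈ R := by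
    intro r hr
    have h := R.mul_mem hr (hm r (hRA hr))
    rw [m_apply] at h
    simpa [mul_assoc] using h
  have hmR' : ∀ r ∈ R, μ⁻¹ (n⁻¹ * r * n) ∈ R := by
    intro r hr
    have h := R.mul_mem hr (hm' r (hRA hr))
    rw [m_inv_apply] at h
    simpa [mul_assoc] using h
  -- the map
  let F : A ⧸ R → A ⧸ R := Quotient.map' (fun g => μ g * n⁻¹) (by
    intro a b hab
    rw [QuotientGroup.leftRel_apply] at hab ⊢
    have h := hmR _ hab
    have e : (μ a * n⁻¹)⁻¹ * (μ b * n⁻¹) = n * μ (a⁻¹ * b) * n⁻¹ := by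
      rw [map_mul, map_inv]; group
    show (μ a * n⁻¹)⁻¹ * (μ b * n⁻¹) ∈ R
    rw [e]; exact h)
  let G : A ⧸ R → A ⧸ R := Quotient.map' (fun g => μ⁻¹ (g * n)) (by
    intro a b hab
    rw [QuotientGroup.leftRel_apply] at hab ⊢
    have h := hmR' _ hab
    have e : (μ⁻¹ (a * n))⁻¹ * (μ⁻¹ (b * n)) = μ⁻¹ (n⁻¹ * (a⁻¹ * b) * n) := by
      rw [← map_inv, ← map_mul]; congr 1; group
    show (μ⁻¹ (a * n))⁻¹ * (μ⁻¹ (b * n)) ∈ R
    rw [e]; exact h)
  have hF : ∀ g : A, F (g : A ⧸ R) = ((μ g * n⁻¹ : A) : A ⧸ R) := fun g => rfl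
  have hG : ∀ g : A, G (g : A ⧸ R) = ((μ⁻¹ (g * n) : A) : A ⧸ R) := fun g => rfl
  have hGF : Function.LeftInverse G F := by
    intro x
    induction x using QuotientGroup.induction_on with
    | H g => rw [hF, hG]; simp
  have hFG : Function.RightInverse G F := by
    intro x
    induction x using QuotientGroup.induction_on with
    | H g => rw [hG, hF]; simp
  let θ : Equiv.Perm (A ⧸ R) := ⟨F, G, hGF, hFG⟩
  have hθ : ∀ g : A, θ (g : A ⧸ R) = ((μ g * n⁻¹ : A) : A ⧸ R) := hF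
  refine ⟨θ, hθ, ?_, ?_, ?_⟩
  · intro g x
    induction x using QuotientGroup.induction_on with
    | H h =>
      have e1 : (μ⁻¹ g) • (h : A ⧸ R) = ((μ⁻¹ g * h : A) : A ⧸ R) := rfl
      rw [e1, hθ, hθ]
      have e2 : g • (((μ h * n⁻¹ : A)) : A ⧸ R) = ((g * (μ h * n⁻¹) : A) : A ⧸ R) := rfl
      rw [e2, map_mul, MulAut.apply_inv_self, mul_assoc]
  · intro f x
    obtain ⟨h, rfl⟩ := hp f
    induction x using QuotientGroup.induction_on with
    | H g =>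
      have e1 : (p h) • (g : A ⧸ R) = ((g * (h : A)⁻¹ : A) : A ⧸ R) :=
        actF_smul A1 R hRA hnorm p hp hker h g
      have e2 : (p h) • ((μ g * n⁻¹ : A) : A ⧸ R) = (((μ g * n⁻¹) * (h : A)⁻¹ : A) : A ⧸ R) :=
        actF_smul A1 R hRA hnorm p hp hker h _
      rw [e1, hθ, hθ, e2, QuotientGroup.eq]
      have h1 := hm (h : A) h.2
      rw [m_apply] at h1
      have h2 := hnorm (h : A) h.2 _ h1
      have e : (μ (g * (h : A)⁻¹) * n⁻¹)⁻¹ * (μ g * n⁻¹ * (h : A)⁻¹) =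
          (h : A) * ((h : A)⁻¹ * (n * μ (h : A) * n⁻¹)) * (h : A)⁻¹ := by
        rw [map_mul, map_inv]; group
      rw [e]; exact h2
  · intro w hw
    haveI : A1.FiniteIndex := ⟨hfi⟩
    haveI : Finite (A ⧸ A1) := inferInstance
    letI : Fintype (A ⧸ A1) := Fintype.ofFinite _
    let γ : A ⧸ A1 → A := fun l => μ l.out * n⁻¹ * (l.out)⁻¹
    have hs : ∀ l : A ⧸ A1, Summable (fun x : A ⧸ R => (w (γ l • x) - w x) ^ 2) := by
      intro l
      obtain ⟨C, -, hC⟩ := diff_closure (MulAction.toPerm ga : Equiv.Perm (A ⧸ R))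
        (MulAction.toPerm gb) (MulAction.toPerm (γ l)) (toPerm_mem R (γ l))
      exact (hC w hw.sa hw.sb).1
    have hsum : Summable (fun x : A ⧸ R => ∑ l : A ⧸ A1, (w (γ l • x) - w x) ^ 2) :=
      summable_sum (fun l _ => hs l)
    refine Summable.of_nonneg_of_le (fun x => sq_nonneg _) (fun x => ?_) hsum
    induction x using QuotientGroup.induction_on with
    | H g =>
      let l : A ⧸ A1 := (g : A ⧸ A1)
      have hl : (l.out)⁻¹ * g ∈ A1 := by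
        rw [← QuotientGroup.eq]
        exact Quotient.out_eq' l
      have key : θ (g : A ⧸ R) = γ l • (g : A ⧸ R) := by
        rw [hθ]
        have e2 : γ l • (g : A ⧸ R) = ((γ l * g : A) : A ⧸ R) := rfl
        rw [e2, QuotientGroup.eq]
        have h1 := hm _ hl
        rw [m_apply] at h1
        have h2 := R.inv_mem h1
        have e : (μ g * n⁻¹)⁻¹ * (γ l * g) =
            ((l.out⁻¹ * g)⁻¹ * (n * μ (l.out⁻¹ * g) * n⁻¹))⁻¹ := by
          show (μ g * n⁻¹)⁻¹ * (μ l.out * n⁻¹ * (l.out)⁻¹ * g) = _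
          rw [map_mul, map_inv]; group
        rw [e]; exact h2
      show (w (θ (g : A ⧸ R)) - w (g : A ⧸ R)) ^ 2 ≤ _
      rw [key]
      exact Finset.single_le_sum (f := fun l : A ⧸ A1 => (w (γ l • (g : A ⧸ R)) - w (g : A ⧸ R)) ^ 2)
        (fun l _ => sq_nonneg _) (Finset.mem_univ l)

end Pool.Agent.Helper96.OF
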