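import Pool.Agent.Helper96.OF.FIN
import Pool.Agent.Helper80.OF.M3
import Pool.Agent.Helper80.OF.RL
import Pool.Agent.Helper80.OF.B3
import Pool.Agent.Helper42.OF.L12
import Pool.Agent.Helper42.OF.L15

/-!
# OF-Main: Theorem M
-/

set_option autoImplicit false

open MeasureTheory Filter Topology
open scoped ComplexConjugate

namespace Pool.Agent.Helper96.OF

theorem theoremM_holds : TheoremM := by
  intro A1 R hRA hfi hnorm ι hιfin p hp hker hij M hMG hM hMfi hz hm0 N hN1 hN2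
  obtain ⟨i, j, hij⟩ := hij
  obtain ⟨nz, hnz, hnzR⟩ := hz
  obtain ⟨m0, hm0M, g0, hg0A, hg0R, hm0z⟩ := hm0
  -- the surface
  let _ : MeasurableSpace (A ⧸ R) := ⊤
  have : DiscreteMeasurableSpace (A ⧸ R) := ⟨fun _ => trivial⟩
  have : Countable (A ⧸ R) := Quotient.countable
  let act := actF A1 R hRA hnorm p hp hker
  have hcomm : SMulCommClass A (FreeGroup ι) (A ⧸ R) := actF_comm A1 R hRA hnorm p hp hker
  have hfree := actF_free A1 R hRA hnorm p hp hker
  have hfinq := actF_fin A1 R hRA hnorm p hp hker hfi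
  have := pretrans R
  set α : Equiv.Perm (A ⧸ R) := MulAction.toPerm ga with hα
  set β : Equiv.Perm (A ⧸ R) := MulAction.toPerm gb with hβ
  have hcl : Subgroup.closure ({ga, gb} : Set A) = ⊤ := by
    have := closure_pair 1
    simpa using this
  have hSG : SG α β := sgX hfree hfinq i j hij ga gb hcl
  have hconn : Conn α β := connX ga gb hcl
  -- Delta
  set Δ : Subgroup (MulAut A) := B3 ⊓ (M ⊔ Inn) with hΔ
  have hinvM : ∀ m ∈ M, ∀ g ∈ A1, g⁻¹ * m g ∈ R := hM
  have hInv : Inv (A ⧸ R) Δ := by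
    refine ⟨inf_le_left, Delta_fin M hMfi, ?_⟩
    intro μ hμ
    obtain ⟨n, hn⟩ := Delta_decomp M hμ
    obtain ⟨θ, -, h2, -, h4⟩ := exists_theta A1 R hRA hfi hnorm p hp hker n μ (hM _ hn)
      (hM _ (M.inv_mem hn))
    exact ⟨θ, h2, h4⟩
  have hHol : ∀ w, InW α β w → HolW α β w := by
    intro w hw
    have := holW_psi hSG hInv hw (ψ := 1) (one_mem _)
    rwa [al_one.1, al_one.2] at this
  have hwedge : ∀ w w', InW α β w → InW α β w' → ∀ τ ∈ HH,
      (fun q => (hh α β w τ : Sq (A ⧸ R) → ℂ) q * (GG α β w' τ 0 : Sq (A ⧸ R) → ℂ) q) =ᵐ[mu (A ⧸ R)]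
      fun q => (hh α β w' τ : Sq (A ⧸ R) → ℂ) q * (GG α β w τ 0 : Sq (A ⧸ R) → ℂ) q := by
    intro w w' hw hw'
    apply wedge_zero hSG hw hw' (hHol w hw) (hHol w' hw')
    have hC : ∀ ψ ∈ B3, ContDiffOn ℝ 2 (Kf (al (A ⧸ R) ψ) (be (A ⧸ R) ψ) w w') HH := by
      intro ψ hψ
      exact ((NN_smooth (sg_psi ψ hSG) (inW_psi hψ hw) (inW_psi hψ hw')
        (holW_psi hSG hInv hw hψ) (holW_psi hSG hInv hw' hψ)).2.1).of_le (by norm_cast)
    have hs : ∀ ψ ∈ B3, ∀ τ ∈ HH, 0 ≤ lap (Kf (al (A ⧸ R) ψ) (be (A ⧸ R) ψ) w w') τ := by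
      intro ψ hψ τ hτ
      rw [lap_K (sg_psi ψ hSG) (inW_psi hψ hw) (inW_psi hψ hw')
        (holW_psi hSG hInv hw hψ) (holW_psi hSG hInv hw' hψ) hτ]
      have : 0 < τ.im := hτ
      positivity
    have := Kf_harm hSG hInv hw hw' hC hs 1 (one_mem _)
    rwa [al_one.1, al_one.2] at this
  -- the base corner
  set s0 : A ⧸ R := ((1 : A) : A ⧸ R) with hs0
  have hzeta : zeta α β = MulAction.toPerm gz := by
    have := zeta_al_be (X := A ⧸ R) (ψ := 1) (one_mem _)
    rwa [al_one.1, al_one.2] at this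
  have hzpow : ∀ (e : ℤ) (x : A ⧸ R), (zeta α β ^ e) x = (gz ^ e) • x := by
    intro e x
    rw [hzeta]
    have : (MulAction.toPerm gz : Equiv.Perm (A ⧸ R)) = MulAction.toPermHom A (A ⧸ R) gz := rfl
    rw [this, ← map_zpow]; rfl
  have hs0z : (gz ^ nz) • s0 = s0 := by
    rw [hs0]
    change ((gz ^ nz * 1 : A) : A ⧸ R) = _
    rw [QuotientGroup.eq]
    simpa using R.inv_mem hnzR
  have hs0k : (zeta α β ^ nz) s0 = s0 := by
    have := hzpow nz s0
    rw [zpow_natCast] at this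
    rw [this, zpow_natCast, hs0z]
  -- a nontrivial class
  obtain ⟨w1, hw1, hnt⟩ := exists_class (X := A ⧸ R) hfree hfinq i j hij
  -- the F-element of m0
  set φf : FreeGroup ι := (p ⟨g0, hg0A⟩)⁻¹ with hφf
  have hφ1 : φf ≠ 1 := by
    intro h
    rw [hφf, inv_eq_one] at h
    exact hg0R ((hker ⟨g0, hg0A⟩).1 h)
  set φ : Equiv.Perm (A ⧸ R) := MulAction.toPerm φf with hφ
  have hcommP : ∀ (f : FreeGroup ι) (g : A),
      (MulAction.toPerm f : Equiv.Perm (A ⧸ R)) * MulAction.toPerm g =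
        MulAction.toPerm g * MulAction.toPerm f := by
    intro f g
    ext x
    exact (smul_comm g f x).symm
  have hinfF : ∀ (f : FreeGroup ι), f ≠ 1 → ∀ (x : A ⧸ R) (n : ℕ), 0 < n →
      ((MulAction.toPerm f : Equiv.Perm (A ⧸ R)) ^ n) x ≠ x := by
    intro f hf x n hn h
    have e1 : ((MulAction.toPerm f : Equiv.Perm (A ⧸ R)) ^ n) x = (f ^ n) • x := by
      have : (MulAction.toPerm f : Equiv.Perm (A ⧸ R)) = MulAction.toPermHom (FreeGroup ι) (A ⧸ R) f := rfl
      rw [this, ← map_pow]; rfl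
    rw [e1] at h
    have h2 := hfree _ _ h
    exact hf ((pow_eq_one_iff_left hn.ne').1 h2)
  -- m0 = conj n0 * μ0
  obtain ⟨n0, μ0, hμ0, hm0eq⟩ := G0_decomp (hMG hm0M)
  have hm0M' : MulAut.conj n0 * μ0 ∈ M := hm0eq ▸ hm0M
  obtain ⟨θ, hθ1, hθ2, hθ3, hθ4⟩ := exists_theta A1 R hRA hfi hnorm p hp hker n0 μ0
    (hM _ hm0M') (hM _ (M.inv_mem hm0M'))
  have hcent : (g0 * n0) * gz = gz * (g0 * n0) := by
    have h1 : m0 gz = n0 * gz * n0⁻¹ := by
      rw [hm0eq]
      simp [MulAut.mul_apply, (B3_fix_z hμ0).1]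
    rw [h1] at hm0z
    have h2 : g0 * (n0 * gz * n0⁻¹) * (g0⁻¹ * g0) * n0 = g0 * (g0⁻¹ * gz * g0) * n0 := by
      rw [hm0z]; group
    calc (g0 * n0) * gz = g0 * (n0 * gz * n0⁻¹) * n0 := by group
      _ = g0 * (g0⁻¹ * gz * g0) * n0 := by rw [hm0z]
      _ = gz * (g0 * n0) := by group
  obtain ⟨e, he⟩ := centralizer_z _ hcent
  have hφs0 : φ s0 = ((g0 : A) : A ⧸ R) := by
    have h1 := actF_smul A1 R hRA hnorm p hp hker (⟨g0, hg0A⟩ : A1)⁻¹ 1
    rw [map_inv] at h1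
    change φf • s0 = _
    rw [hφf, hs0, h1]
    simp
  have hθs0 : corr α β (φ s0) (θ s0) := by
    refine ⟨-e, ?_⟩
    rw [hzpow, hφs0, hs0, hθ1 1]
    change ((gz ^ (-e) * g0 : A) : A ⧸ R) = _
    congr 1
    have : n0 = g0⁻¹ * gz ^ e := by rw [← he]; group
    rw [this]; simp
  -- commuting permutations preserve the finite corners
  have hzc : ∀ (γ : Equiv.Perm (A ⧸ R)), γ * α = α * γ → γ * β = β * γ → ∀ s,
      ((zeta α β ^ nz) (γ s) = γ s ↔ (zeta α β ^ nz) s = s) := by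
    intro γ h1 h2 s
    have c1 : Commute γ α := h1
    have c2 : Commute γ β := h2
    have c3 : Commute γ (zeta α β ^ nz) :=
      (((c2.mul_right c1).mul_right c2.inv_right).mul_right c1.inv_right).pow_right nz
    have h3 : (zeta α β ^ nz) (γ s) = γ ((zeta α β ^ nz) s) := by
      have := congrArg (fun e : Equiv.Perm (A ⧸ R) => e s) c3.eq
      simpa [Equiv.Perm.mul_apply] using this.symm
    rw [h3]
    exact γ.injective.eq_iff
  -- AA facts at (α, β)
  have hAAiso : ∀ (γ : Equiv.Perm (A ⧸ R)), γ * α = α * γ → γ * β = β * γ → ∀ w, InW α β w →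
      ∀ s, (zeta α β ^ nz) s = s → ∀ τ ∈ HH, AA α β (fun x => w (γ x)) s τ = AA α β w (γ s) τ :=
    fun γ h1 h2 w hw s hs τ hτ => AA_relabel h1 h2 hSG hSG hw hτ hnz hs
  have hcorr : ∀ {s s' : A ⧸ R}, corr α β s s' → ∀ w, InW α β w → (zeta α β ^ nz) s = s →
      ∀ τ ∈ HH, AA α β w s τ = AA α β w s' τ := by
    rintro s s' ⟨n, rfl⟩ w hw hs τ hτ
    exact (AA_zeta hSG hw hτ hnz hs n).symm
  have hφs0k : (zeta α β ^ nz) (φ s0) = φ s0 :=
    (hzc φ (hcommP φf ga) (hcommP φf gb) s0).2 hs0k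
  have hm0AA : ∀ w, InW α β w → ∀ τ ∈ HH, ∃ τ' ∈ HH, AA α β w (φ s0) τ = AA α β w s0 τ' := by
    intro w hw τ hτ
    obtain ⟨τ', hτ', h1⟩ := AA_B3 (X := A ⧸ R) hSG hnz hs0z μ0 hμ0 τ hτ
    refine ⟨τ', hτ', ?_⟩
    have h2 := h1 w hw
    -- relabelling θ : (al μ0, be μ0) → (α, β)
    have h3 := theta_al hθ2 1
    rw [one_mul, al_one.1, al_one.2] at h3
    have hwθ : InW α β w := hw
    have h3a : θ.symm * α = al (A ⧸ R) μ0 * θ.symm := by
      have h := h3.1
      ext x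
      have h' := congrArg (fun e : Equiv.Perm (A ⧸ R) => θ.symm (e (θ.symm x))) h
      simpa [hα] using h'.symm
    have h3b : θ.symm * β = be (A ⧸ R) μ0 * θ.symm := by
      have h := h3.2
      ext x
      have h' := congrArg (fun e : Equiv.Perm (A ⧸ R) => θ.symm (e (θ.symm x))) h
      simpa [hβ] using h'.symm
    have h5 : InW α β (fun x => w (θ.symm x)) := inW_relabel h3a h3b (inW_psi hμ0 hw)
    have h6 : L2s (fun x => w (θ.symm x) - w x) := by
      have := L2s_perm θ.symm (hθ4 w hw)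
      have := L2s_neg this
      simpa using this
    have hs0μ : (zeta (al (A ⧸ R) μ0) (be (A ⧸ R) μ0) ^ nz) s0 = s0 := by
      rw [zeta_al_be hμ0, ← hzeta, hs0k]
    have hθk : (zeta α β ^ nz) (θ s0) = θ s0 := by
      obtain ⟨m, hm⟩ := hθs0
      have c : Commute (zeta α β ^ m) (zeta α β ^ nz) :=
        ((Commute.refl (zeta α β)).zpow_left m).pow_right nz
      have h := congrArg (fun e : Equiv.Perm (A ⧸ R) => e (φ s0)) c.eq
      simp only [Equiv.Perm.mul_apply] at h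
      rw [← hm, ← h, hφs0k]
    have h4 := AA_relabel h3.1 h3.2 (sg_psi μ0 hSG) hSG h5 hτ hnz hs0μ
    simp only [Equiv.symm_apply_apply] at h4
    rw [hcorr hθs0 w hw hφs0k τ hτ, ← AA_L2 hSG h5 hw h6 hτ hnz hθk, ← h4, h2]
  classical
  have hφn : ∀ n : ℕ, (zeta α β ^ nz) ((φ ^ n) s0) = (φ ^ n) s0 := by
    intro n
    induction n with
    | zero => simpa using hs0k
    | succ n ih =>
      rw [pow_succ', Equiv.Perm.mul_apply]
      exact (hzc φ (hcommP φf ga) (hcommP φf gb) _).2 ih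
  have hφinj : Function.Injective (fun n : ℕ => (φ ^ n) s0) := by
    intro m n hmn
    simp only at hmn
    by_contra hne
    rcases Nat.lt_or_gt_of_ne hne with h | h
    · obtain ⟨d, rfl⟩ := Nat.exists_eq_add_of_lt h
      have h1 : (φ ^ (m + d + 1)) s0 = (φ ^ (d + 1)) ((φ ^ m) s0) := by
        rw [← Equiv.Perm.mul_apply, ← pow_add]; congr 2; ring
      rw [h1] at hmn
      exact hinfF φf hφ1 _ (d + 1) (Nat.succ_pos _) hmn.symm
    · obtain ⟨d, rfl⟩ := Nat.exists_eq_add_of_lt h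
      have h1 : (φ ^ (n + d + 1)) s0 = (φ ^ (d + 1)) ((φ ^ n) s0) := by
        rw [← Equiv.Perm.mul_apply, ← pow_add]; congr 2; ring
      rw [h1] at hmn
      exact hinfF φf hφ1 _ (d + 1) (Nat.succ_pos _) hmn
  obtain ⟨w0, hw0, τa, hτa, τb, hτb, hne⟩ := exists_nonconst hSG
    (fun s w τ => if (zeta α β ^ nz) s = s then AA α β w s τ else 0) s0 φ
    (hcommP φf ga) (hcommP φf gb)
    (by
      intro w hw s τ hτ
      have h1 := hzc φ (hcommP φf ga) (hcommP φf gb) s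
      by_cases hs : (zeta α β ^ nz) s = s
      · simp only [if_pos hs, if_pos (h1.2 hs)]
        exact hAAiso φ (hcommP φf ga) (hcommP φf gb) w hw s hs τ hτ
      · have h2 : ¬ (zeta α β ^ nz) (φ s) = φ s := fun h => hs (h1.1 h)
        simp only [if_neg hs, if_neg h2])
    (by
      intro w hw τ hτ
      simp only [if_pos hs0k, if_pos hφs0k]
      exact hm0AA w hw τ hτ)
    (by
      intro w hw τ hτ
      simp only [if_pos (hφn _)]
      exact AA_lim hSG hw hτ hnz (fun n : ℕ => (φ ^ n) s0) hφinj hφn)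
    (by
      intro w hw hnn h0
      simp only [if_pos hs0k] at h0
      have hI : Complex.I ∈ HH := by simp [HH]
      exact AA_pos_zero hSG hconn hw hI hnz hs0k (FF_nonneg hSG hw hnn hI) (h0 _ hI)) hw1 hnt
  simp only [if_pos hs0k] at hne
  -- the rotation
  obtain ⟨T, hT1, hT2, hT3⟩ := exists_T A1 R hRA hnorm p hp hker N hN1 hN2
  have hTα : T * α = α * T := by ext x; exact hT2 ga x
  have hTβ : T * β = β * T := by ext x; exact hT2 gb x
  have hTL : ∀ w, InW α β w → L2s (fun x => w (T x) - w x) := by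
    intro w hw
    have hwT : InW α β (fun x => w (T x)) := inW_comp hw T hTα hTβ
    have hb : InW α β (fun x => w (T x) - w x) := by
      have := inW_add hwT (inW_smul (-1) hw)
      simpa [sub_eq_add_neg] using this
    refine local_main hSG hconn hnz hs0k hw0 hb (hHol _ hw0) (hHol _ hb) (hwedge _ _ hb hw0) ?_
      ⟨τa, hτa, τb, hτb, hne⟩
    intro τ hτ
    have hsub : AA α β (fun x => w (T x) - w x) s0 τ =
        AA α β (fun x => w (T x)) s0 τ - AA α β w s0 τ := by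
      have h1 := AA_add hSG hwT (inW_smul (-1) hw) hτ hnz hs0k
      have h2 := AA_smul hSG hw (-1) hτ hnz hs0k
      have h3 : (fun x => w (T x) - w x) = fun x => w (T x) + (-1) * w x := by
        funext x; ring
      rw [h3, h1, h2]; ring
    rw [hsub, hAAiso T hTα hTβ w hw s0 hs0k τ hτ]
    have : corr α β s0 (T s0) := by
      refine ⟨-N, ?_⟩
      rw [hzpow, hs0, hT1 1]
      change ((gz ^ (-N) * 1 : A) : A ⧸ R) = _
      simp
    rw [hcorr this w hw hs0k τ hτ, sub_self]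
  -- conclusion
  intro g hg
  by_contra hcon
  set h' : A1 := ⟨gz ^ N * g * gz ^ (-N), (hN1 g).1 hg⟩ with hh'
  set f : FreeGroup ι := p ⟨g, hg⟩ with hf
  set f' : FreeGroup ι := p h' with hf'
  have hne1 : f' * f⁻¹ ≠ 1 := by
    intro h
    have h1 : p ((⟨g, hg⟩ : A1)⁻¹ * h') = 1 := by
      rw [map_mul, map_inv, ← hf, ← hf']
      have : f' = f := by rwa [mul_inv_eq_one] at h
      rw [this]; simp
    have h2 := (hker _).1 h1
    exact hcon (by simpa [hh'] using h2)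
  refine commute_of hSG hconn ?_ T (MulAction.toPerm f) (MulAction.toPerm f') (hcommP f ga)
    (hcommP f gb) (hcommP f' ga) (hcommP f' gb) ?_ hTL ?_ hw1 hnt
  · intro γ h1 h2 w hw τ hτ
    rw [(relabel_eq (θ := γ) h1 h2 hSG hSG hw hτ).1]
    exact Lp.coeFn_compMeasurePreserving _ (rlT_mp γ)
  · ext x
    exact hT3 ⟨g, hg⟩ x
  · intro x n hn
    have : (MulAction.toPerm f' : Equiv.Perm (A ⧸ R)) * (MulAction.toPerm f)⁻¹ =
        MulAction.toPerm (f' * f⁻¹) := by
      have e1 : ∀ f : FreeGroup ι, (MulAction.toPerm f : Equiv.Perm (A ⧸ R)) =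
        MulAction.toPermHom (FreeGroup ι) (A ⧸ R) f := fun _ => rfl
      rw [e1, e1, e1, map_mul, map_inv]
    rw [this]
    exact hinfF _ hne1 x n hn

end Pool.Agent.Helper96.OF
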