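import Pool.Agent.Helper96.OF.Defs
import Pool.Agent.Helper89.OF.Max

/-!
# OF-P1: strong maximum principle for C² subharmonic functions on the upper half plane

Proof by Hopf's barrier argument, see `Pool/Agent/Helper89/OF/Max.lean`.
-/

set_option autoImplicit false

namespace Pool.Agent.Helper96.OF

theorem lap_eq_Lap {U : ℂ → ℝ} (hC : ContDiffOn ℝ 2 U HH) {τ : ℂ} (hτ : τ ∈ HH) :
    lap U τ = Helper89.OF.Lap U τ := by
  have h : ContDiffAt ℝ 2 U τ := hC.contDiffAt (Helper89.OF.isOpen_HH.mem_nhds hτ)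
  rw [lap, Helper89.OF.Lap, Helper89.OF.dd_eq 1 h, Helper89.OF.dd_eq Complex.I h]

theorem strongMax (U : ℂ → ℝ) (hC : ContDiffOn ℝ 2 U HH) (hs : ∀ τ ∈ HH, 0 ≤ lap U τ)
    (τ0 : ℂ) (h0 : τ0 ∈ HH) (hmax : ∀ τ ∈ HH, U τ ≤ U τ0) : ∀ τ ∈ HH, U τ = U τ0 :=
  Helper89.OF.strong_max (U := U) hC (fun τ hτ => by rw [← lap_eq_Lap hC hτ]; exact hs τ hτ)
    h0 hmax

end Pool.Agent.Helper96.OF
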