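import Pool.Agent.Helper96.OF.P1

/-!
# OF-P2: maximum principle in the half strip

Proof: `W = U - ε im + δ / im` is strictly subharmonic and tends to `-∞` at the cusp; see
`Pool/Agent/Helper89/OF/Max.lean`.
-/

set_option autoImplicit false

namespace Pool.Agent.Helper96.OF

theorem stripMax (U : ℂ → ℝ) (hC : ContDiffOn ℝ 2 U HH) (hs : ∀ τ ∈ HH, 0 ≤ lap U τ)
    (hper : ∀ τ ∈ HH, U (τ + 1) = U τ)
    (hgrow : ∀ ε : ℝ, 0 < ε → ∃ V0 : ℝ, ∀ τ : ℂ, V0 ≤ τ.im → |τ.re| ≤ 1 → U τ ≤ ε * τ.im)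
    (y0 B : ℝ) (hy0 : 0 < y0) (hB : ∀ τ : ℂ, τ.im = y0 → U τ ≤ B) :
    ∀ τ : ℂ, y0 ≤ τ.im → U τ ≤ B :=
  Helper89.OF.strip_max (U := U) hC (fun τ hτ => by rw [← lap_eq_Lap hC hτ]; exact hs τ hτ)
    hper hgrow y0 B hy0 hB

end Pool.Agent.Helper96.OF
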