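import Pool.Agent.Helper96.OF.P1
import Pool.Agent.Helper96.OF.P2

/-!
# OF-P3 (PROP H): an SL₂(ℤ)-invariant subharmonic function of growth o(v) is constant
-/

set_option autoImplicit false

open Set Filter Topology

namespace Pool.Agent.Helper96.OF

theorem inv_SL (U : ℂ → ℝ) (h1 : ∀ τ ∈ HH, U (τ + 1) = U τ)
    (h2 : ∀ τ ∈ HH, U (τ / (1 - τ)) = U τ) (g : Matrix.SpecialLinearGroup (Fin 2) ℤ) :
    ∀ z : UpperHalfPlane, U ((g • z : UpperHalfPlane) : ℂ) = U (z : ℂ) := by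
  have hT : ∀ z : UpperHalfPlane, U ((ModularGroup.T • z : UpperHalfPlane) : ℂ) = U (z : ℂ) := by
    intro z
    have e : ((ModularGroup.T • z : UpperHalfPlane) : ℂ) = (z : ℂ) + 1 := by
      have := ModularGroup.coe_T_zpow_smul_eq z (n := 1)
      simpa using this
    rw [e]
    exact h1 _ z.im_pos
  have hS : ∀ z : UpperHalfPlane, U ((ModularGroup.S • z : UpperHalfPlane) : ℂ) = U (z : ℂ) := by
    intro z
    have e : ((ModularGroup.S • z : UpperHalfPlane) : ℂ) = (-(z : ℂ))⁻¹ := by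
      rw [UpperHalfPlane.modular_S_smul]
    have hz0 : (z : ℂ) ≠ 0 := z.ne_zero
    have hzp : (z : ℂ) + 1 ∈ HH := by
      show 0 < ((z : ℂ) + 1).im
      simpa using z.im_pos
    have e1 : ((z : ℂ) + 1) / (1 - ((z : ℂ) + 1)) = (-(z : ℂ))⁻¹ - 1 := by
      have : (1 : ℂ) - ((z : ℂ) + 1) = -(z : ℂ) := by ring
      rw [this]
      field_simp
      ring
    have hm : (-(z : ℂ))⁻¹ - 1 ∈ HH := by
      show 0 < ((-(z : ℂ))⁻¹ - 1).im
      have h3 := (ModularGroup.S • z : UpperHalfPlane).im_pos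
      have h4 : (ModularGroup.S • z : UpperHalfPlane).im = ((-(z : ℂ))⁻¹).im := by
        rw [← e]
        rfl
      rw [h4] at h3
      simpa using h3
    rw [e]
    have h5 := h1 _ hm
    rw [sub_add_cancel] at h5
    rw [h5, ← e1, h2 _ hzp, h1 _ z.im_pos]
  have hg : g ∈ Subgroup.closure {ModularGroup.S, ModularGroup.T} := by
    rw [SpecialLinearGroup.SL2Z_generators]
    exact Subgroup.mem_top g
  refine Subgroup.closure_induction (p := fun g _ => ∀ z : UpperHalfPlane,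
    U ((g • z : UpperHalfPlane) : ℂ) = U (z : ℂ)) ?_ ?_ ?_ ?_ hg
  · intro x hx
    rcases hx with rfl | hx
    · exact hS
    · rw [mem_singleton_iff] at hx
      subst hx
      exact hT
  · intro z
    rw [one_smul]
  · intro x y _ _ hx hy z
    rw [mul_smul, hx, hy]
  · intro x _ hx z
    have := hx (x⁻¹ • z)
    rw [smul_inv_smul] at this
    exact this.symm

theorem propH (U : ℂ → ℝ) (hC : ContDiffOn ℝ 2 U HH) (hs : ∀ τ ∈ HH, 0 ≤ lap U τ)
    (h1 : ∀ τ ∈ HH, U (τ + 1) = U τ) (h2 : ∀ τ ∈ HH, U (τ / (1 - τ)) = U τ)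
    (hgrow : ∀ ε : ℝ, 0 < ε → ∃ V0 : ℝ, ∀ τ : ℂ, V0 ≤ τ.im → |τ.re| ≤ 1 → U τ ≤ ε * τ.im) :
    (∀ τ ∈ HH, U τ = U Complex.I) ∧ ∀ τ ∈ HH, lap U τ = 0 := by
  have hint : ∀ (n : ℤ) (z : ℂ), z ∈ HH → U (z + n) = U z := by
    intro n z hz
    have h3 := inv_SL U h1 h2 (ModularGroup.T ^ n) ⟨z, hz⟩
    have e := ModularGroup.coe_T_zpow_smul_eq (⟨z, hz⟩ : UpperHalfPlane) (n := n)
    rw [e] at h3
    exact h3
  -- the maximum on `im = 1 / 2`
  set K : Set ℂ := Icc (0 : ℝ) 1 ×ℂ {(1 / 2 : ℝ)} with hK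
  have hKc : IsCompact K := isCompact_Icc.reProdIm isCompact_singleton
  have hKH : K ⊆ HH := by
    intro z hz
    rw [hK, Complex.mem_reProdIm] at hz
    show 0 < z.im
    rw [hz.2]
    norm_num
  have hKne : K.Nonempty := ⟨⟨0, 1 / 2⟩, by
    rw [hK, Complex.mem_reProdIm]
    exact ⟨⟨le_rfl, zero_le_one⟩, rfl⟩⟩
  obtain ⟨τ0, hτ0, hmax⟩ := hKc.exists_isMaxOn hKne (hC.continuousOn.mono hKH)
  have hB : ∀ τ : ℂ, τ.im = 1 / 2 → U τ ≤ U τ0 := by
    intro τ hτ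
    have hτH : τ ∈ HH := by
      show 0 < τ.im
      rw [hτ]
      norm_num
    rw [← hint (-⌊τ.re⌋) τ hτH]
    apply hmax
    have h3 := Int.floor_le τ.re
    have h4 := Int.lt_floor_add_one τ.re
    rw [hK, Complex.mem_reProdIm]
    refine ⟨?_, ?_⟩
    · simp only [Int.cast_neg, Complex.add_re, Complex.neg_re, Complex.intCast_re, mem_Icc]
      constructor <;> linarith
    · simpa using hτ
  have hstrip := stripMax U hC hs h1 hgrow (1 / 2) (U τ0) (by norm_num) hB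
  have hall : ∀ τ ∈ HH, U τ ≤ U τ0 := by
    intro τ hτ
    obtain ⟨g, hg⟩ := ModularGroup.exists_smul_mem_fd (⟨τ, hτ⟩ : UpperHalfPlane)
    have h3 := inv_SL U h1 h2 g ⟨τ, hτ⟩
    have h4 := ModularGroup.three_le_four_mul_im_sq_of_mem_fd hg
    have h5 := (g • (⟨τ, hτ⟩ : UpperHalfPlane)).im_pos
    have h6 : U τ = U ((g • (⟨τ, hτ⟩ : UpperHalfPlane) : UpperHalfPlane) : ℂ) := h3.symm
    rw [h6]
    apply hstrip
    show 1 / 2 ≤ (g • (⟨τ, hτ⟩ : UpperHalfPlane)).im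
    nlinarith
  have hconst := strongMax U hC hs τ0 (hKH hτ0) hall
  have hI : Complex.I ∈ HH := by
    show 0 < Complex.I.im
    simp
  refine ⟨fun τ hτ => by rw [hconst τ hτ, hconst _ hI], fun τ hτ => ?_⟩
  have hev : ∀ᶠ σ in 𝓝 τ, U =ᶠ[𝓝 σ] fun _ => U τ0 := by
    filter_upwards [Helper89.OF.isOpen_HH.mem_nhds hτ] with σ hσ
    filter_upwards [Helper89.OF.isOpen_HH.mem_nhds hσ] with ρ hρ
    exact hconst ρ hρ
  have hf : fderiv ℝ U =ᶠ[𝓝 τ] fun _ => 0 := by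
    filter_upwards [hev] with σ hσ
    rw [hσ.fderiv_eq]
    simp
  rw [lap, hf.fderiv_eq]
  simp

end Pool.Agent.Helper96.OF
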