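import Pool.Agent.Helper96.OF.FT6

/-!
# OF-WZ0: multiplication operators on L²

`exists_mop`: `v ↦ b v` is well defined, linear, bounded by C (MemLp.of_bound / `MemLp.mul`, norm estimate). The other statements follow from the a.e. formula and `Lp` extensionality.
-/

set_option autoImplicit false

open MeasureTheory
open scoped ComplexConjugate

namespace Pool.Agent.Helper96.OF

variable {X : Type} [Countable X] [MeasurableSpace X] [DiscreteMeasurableSpace X]

theorem exists_mop (b : Sq X → ℂ) (hb : AEStronglyMeasurable b (mu X)) (C : ℝ) (hC0 : 0 ≤ C)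
    (hC : ∀ᵐ q ∂(mu X), ‖b q‖ ≤ C) :
    ∃ T : KK X →L[ℂ] KK X, (∀ v : KK X, (T v : Sq X → ℂ) =ᵐ[mu X] fun q => b q * (v : Sq X → ℂ) q) ∧
      ‖T‖ ≤ C := by
  have hmem : ∀ v : KK X, MemLp (fun q => b q * (v : Sq X → ℂ) q) 2 (mu X) := by
    intro v
    have hv := Lp.memLp v
    refine MemLp.of_le_mul (c := C) hv (hb.mul hv.1) ?_
    filter_upwards [hC] with q hq
    rw [norm_mul]
    exact mul_le_mul_of_nonneg_right hq (norm_nonneg _)
  have hae : ∀ v : KK X, ((hmem v).toLp _ : Sq X → ℂ) =ᵐ[mu X] fun q => b q * (v : Sq X → ℂ) q :=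
    fun v => (hmem v).coeFn_toLp
  let L : KK X →ₗ[ℂ] KK X :=
    { toFun := fun v => (hmem v).toLp _
      map_add' := by
        intro u v
        apply Lp.ext
        filter_upwards [hae (u + v), Lp.coeFn_add ((hmem u).toLp _) ((hmem v).toLp _), hae u, hae v,
          Lp.coeFn_add u v] with q h1 h2 h3 h4 h5
        rw [h1, h2, h5]
        simp only [Pi.add_apply]
        rw [h3, h4, mul_add]
      map_smul' := by
        intro k v
        apply Lp.ext
        simp only [RingHom.id_apply]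
        filter_upwards [hae (k • v), Lp.coeFn_smul k ((hmem v).toLp _), hae v,
          Lp.coeFn_smul k v] with q h1 h2 h3 h4
        rw [h1, h2, h4]
        simp only [Pi.smul_apply, smul_eq_mul]
        rw [h3]
        ring }
  have hL : ∀ v, ‖L v‖ ≤ C * ‖v‖ := by
    intro v
    apply Lp.norm_le_mul_norm_of_ae_le_mul
    filter_upwards [hae v, hC] with q h1 h2
    change ‖(((hmem v).toLp _ : KK X) : Sq X → ℂ) q‖ ≤ _
    rw [h1, norm_mul]
    exact mul_le_mul_of_nonneg_right h2 (norm_nonneg _)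
  exact ⟨L.mkContinuous C hL, fun v => hae v, L.mkContinuous_norm_le hC0 hL⟩

/-- multiplication by `b` on `L²` (zero if not bounded) -/
noncomputable def Mop (b : Sq X → ℂ) : KK X →L[ℂ] KK X :=
  open Classical in
  if h : ∃ T : KK X →L[ℂ] KK X, ∀ v : KK X, (T v : Sq X → ℂ) =ᵐ[mu X] fun q => b q * (v : Sq X → ℂ) q
  then h.choose else 0

/-- a bounded measurable function -/
def Bd (b : Sq X → ℂ) (C : ℝ) : Prop := AEStronglyMeasurable b (mu X) ∧ 0 ≤ C ∧ ∀ᵐ q ∂(mu X), ‖b q‖ ≤ C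

theorem mop_ae {b : Sq X → ℂ} {C : ℝ} (hb : Bd b C) (v : KK X) :
    (Mop b v : Sq X → ℂ) =ᵐ[mu X] fun q => b q * (v : Sq X → ℂ) q := by
  obtain ⟨T, hT, -⟩ := exists_mop b hb.1 C hb.2.1 hb.2.2
  have h : ∃ T : KK X →L[ℂ] KK X, ∀ v : KK X, (T v : Sq X → ℂ) =ᵐ[mu X] fun q => b q * (v : Sq X → ℂ) q :=
    ⟨T, hT⟩
  have e : Mop b = h.choose := by
    unfold Mop
    exact dif_pos h
  rw [e]
  exact h.choose_spec v

private theorem mop_unique {b : Sq X → ℂ} {C : ℝ} (hb : Bd b C) (T : KK X →L[ℂ] KK X)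
    (hT : ∀ v : KK X, (T v : Sq X → ℂ) =ᵐ[mu X] fun q => b q * (v : Sq X → ℂ) q) : T = Mop b := by
  ext1 v
  apply Lp.ext
  exact (hT v).trans (mop_ae hb v).symm

theorem mop_norm {b : Sq X → ℂ} {C : ℝ} (hb : Bd b C) : ‖Mop b‖ ≤ C := by
  obtain ⟨T, hT, hn⟩ := exists_mop b hb.1 C hb.2.1 hb.2.2
  rw [← mop_unique hb T hT]
  exact hn

theorem mop_congr {b b' : Sq X → ℂ} (h : b =ᵐ[mu X] b') : Mop b = Mop b' := by
  have key : (fun T : KK X →L[ℂ] KK X => ∀ v : KK X, (T v : Sq X → ℂ) =ᵐ[mu X] fun q => b q * (v : Sq X → ℂ) q) =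
      (fun T : KK X →L[ℂ] KK X => ∀ v : KK X, (T v : Sq X → ℂ) =ᵐ[mu X] fun q => b' q * (v : Sq X → ℂ) q) := by
    funext T
    apply propext
    constructor
    · intro hT v
      filter_upwards [hT v, h] with q h1 h2
      rw [h1, h2]
    · intro hT v
      filter_upwards [hT v, h] with q h1 h2
      rw [h1, h2]
  unfold Mop
  by_cases hc : ∃ T : KK X →L[ℂ] KK X, ∀ v : KK X, (T v : Sq X → ℂ) =ᵐ[mu X] fun q => b q * (v : Sq X → ℂ) q
  · have hc' : ∃ T : KK X →L[ℂ] KK X, ∀ v : KK X, (T v : Sq X → ℂ) =ᵐ[mu X] fun q => b' q * (v : Sq X → ℂ) q := by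
      obtain ⟨T, hT⟩ := hc
      exact ⟨T, (congrFun key T).mp hT⟩
    rw [dif_pos hc, dif_pos hc']
    congr 1
  · have hc' : ¬ ∃ T : KK X →L[ℂ] KK X, ∀ v : KK X, (T v : Sq X → ℂ) =ᵐ[mu X] fun q => b' q * (v : Sq X → ℂ) q := by
      rintro ⟨T, hT⟩
      exact hc ⟨T, (congrFun key T).mpr hT⟩
    rw [dif_neg hc, dif_neg hc']

theorem mop_add {b b' : Sq X → ℂ} {C C' : ℝ} (hb : Bd b C) (hb' : Bd b' C') :
    Mop (fun q => b q + b' q) = Mop b + Mop b' := by
  have hbd : Bd (fun q => b q + b' q) (C + C') := by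
    refine ⟨hb.1.add hb'.1, add_nonneg hb.2.1 hb'.2.1, ?_⟩
    filter_upwards [hb.2.2, hb'.2.2] with q h1 h2
    exact (norm_add_le _ _).trans (add_le_add h1 h2)
  symm
  apply mop_unique hbd
  intro v
  filter_upwards [Lp.coeFn_add (Mop b v) (Mop b' v), mop_ae hb v, mop_ae hb' v] with q h1 h2 h3
  rw [ContinuousLinearMap.add_apply, h1, Pi.add_apply, h2, h3, add_mul]

theorem mop_smul {b : Sq X → ℂ} {C : ℝ} (hb : Bd b C) (k : ℂ) :
    Mop (fun q => k * b q) = k • Mop b := by
  have hbd : Bd (fun q => k * b q) (‖k‖ * C) := by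
    refine ⟨hb.1.const_mul k, mul_nonneg (norm_nonneg _) hb.2.1, ?_⟩
    filter_upwards [hb.2.2] with q h1
    rw [norm_mul]
    exact mul_le_mul_of_nonneg_left h1 (norm_nonneg _)
  symm
  apply mop_unique hbd
  intro v
  filter_upwards [Lp.coeFn_smul k (Mop b v), mop_ae hb v] with q h1 h2
  rw [ContinuousLinearMap.smul_apply, h1, Pi.smul_apply, h2, smul_eq_mul, mul_assoc]

private theorem bd_conj {b : Sq X → ℂ} {C : ℝ} (hb : Bd b C) : Bd (fun q => conj (b q)) C := by
  refine ⟨?_, hb.2.1, ?_⟩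
  · exact (Complex.continuous_conj.comp_aestronglyMeasurable hb.1)
  · filter_upwards [hb.2.2] with q h1
    rw [Complex.norm_conj]
    exact h1

private theorem jk_ae (v : KK X) : (JK X v : Sq X → ℂ) =ᵐ[mu X] fun q => conj ((v : Sq X → ℂ) q) := by
  have h := ContinuousLinearMap.coeFn_compLpL (p := 2) (μ := mu X) (Complex.conjCLE : ℂ →L[ℝ] ℂ) v
  filter_upwards [h] with q hq
  exact hq

theorem mop_conj {b : Sq X → ℂ} {C : ℝ} (hb : Bd b C) (v : KK X) :
    Mop (fun q => conj (b q)) v = JK X (Mop b (JK X v)) := by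
  apply Lp.ext
  filter_upwards [mop_ae (bd_conj hb) v, jk_ae (Mop b (JK X v)), mop_ae hb (JK X v), jk_ae v] with q h1 h2 h3 h4
  rw [h1, h2, h3, h4, map_mul, Complex.conj_conj]

/-- a bound for the operator norm from an a.e. bound and conversely -/
theorem mop_norm_le_iff {b : Sq X → ℂ} {C : ℝ} (hb : Bd b C) {c : ℝ} (hc : 0 ≤ c) :
    ‖Mop b‖ ≤ c ↔ ∀ᵐ q ∂(mu X), ‖b q‖ ≤ c := by
  constructor
  · intro h
    have hsf : SigmaFinite (mu X) := by
      unfold mu
      infer_instance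
    have hle : (fun q => ‖b q‖ₑ ^ 2) ≤ᵐ[mu X] fun _ => (ENNReal.ofReal c) ^ 2 := by
      apply ae_le_of_forall_setLIntegral_le_of_sigmaFinite₀ (hb.1.enorm.pow_const 2)
      intro s hs hμ
      set v : KK X := indicatorConstLp 2 hs hμ.ne (1 : ℂ) with hv
      have h1 : ‖Mop b v‖ ≤ c * ‖v‖ := (Mop b).le_of_opNorm_le h v
      have h2 : ‖Mop b v‖ₑ ≤ ENNReal.ofReal c * ‖v‖ₑ := by
        rw [← ofReal_norm_eq_enorm, ← ofReal_norm_eq_enorm, ← ENNReal.ofReal_mul hc]
        exact ENNReal.ofReal_le_ofReal h1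
      have hv1 : ‖v‖ₑ ^ 2 = mu X s := by
        rw [Lp.enorm_def]
        have e1 : eLpNorm (v : Sq X → ℂ) 2 (mu X) = eLpNorm (s.indicator fun _ => (1 : ℂ)) 2 (mu X) :=
          eLpNorm_congr_ae indicatorConstLp_coeFn
        rw [e1]
        have e2 := eLpNorm_indicator_const (μ := mu X) (c := (1 : ℂ)) hs (p := 2) (by norm_num) (by norm_num)
        rw [e2]
        simp only [enorm_one, one_mul]
        rw [← ENNReal.rpow_natCast, ← ENNReal.rpow_mul]
        norm_num
      have hv2 : ‖Mop b v‖ₑ ^ 2 = ∫⁻ q in s, ‖b q‖ₑ ^ 2 ∂(mu X) := by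
        rw [Lp.enorm_def]
        have e1 : eLpNorm (Mop b v : Sq X → ℂ) 2 (mu X) = eLpNorm (fun q => s.indicator b q) 2 (mu X) := by
          apply eLpNorm_congr_ae
          filter_upwards [mop_ae hb v, indicatorConstLp_coeFn (p := 2) (hs := hs) (hμs := hμ.ne) (c := (1 : ℂ))] with q h1 h2
          rw [h1, h2]
          by_cases hq : q ∈ s
          · simp [hq]
          · simp [hq]
        rw [e1]
        have e2 := eLpNorm_nnreal_pow_eq_lintegral (μ := mu X) (f := fun q => s.indicator b q) (p := 2) (by norm_num)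
        have e3 : (eLpNorm (fun q => s.indicator b q) 2 (mu X)) ^ 2 =
            ∫⁻ q, ‖s.indicator b q‖ₑ ^ 2 ∂(mu X) := by
          have := e2
          simp only [NNReal.coe_ofNat, ENNReal.coe_ofNat] at this
          rw [← ENNReal.rpow_natCast]
          simp only [Nat.cast_ofNat]
          rw [this]
          apply lintegral_congr
          intro q
          rw [← ENNReal.rpow_natCast]
          norm_num
        rw [e3, ← lintegral_indicator hs]
        apply lintegral_congr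
        intro q
        by_cases hq : q ∈ s
        · simp [hq]
        · simp [hq]
      rw [← hv2, lintegral_const, Measure.restrict_apply MeasurableSet.univ, Set.univ_inter, ← hv1, ← mul_pow]
      exact pow_le_pow_left' h2 2
    filter_upwards [hle] with q hq
    have h3 : ‖b q‖ₑ ≤ ENNReal.ofReal c := by
      by_contra hcon
      push Not at hcon
      have := ENNReal.pow_lt_pow_left (two_ne_zero) hcon
      exact absurd hq (not_le.mpr this)
    rw [← ofReal_norm_eq_enorm] at h3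
    exact (ENNReal.ofReal_le_ofReal_iff hc).mp h3
  · intro h
    exact mop_norm ⟨hb.1, hc, h⟩

theorem mop_inner {b : Sq X → ℂ} {C : ℝ} (hb : Bd b C) (u v : KK X) :
    inner ℂ (Mop b u) v = inner ℂ u (Mop (fun q => conj (b q)) v) := by
  rw [L2.inner_def, L2.inner_def]
  apply integral_congr_ae
  filter_upwards [mop_ae hb u, mop_ae (bd_conj hb) v] with q h1 h2
  rw [h1, h2]
  simp only [RCLike.inner_apply, map_mul]
  ring

end Pool.Agent.Helper96.OF
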