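import Pool.Agent.Helper96.OF.FT10
import Pool.Agent.Helper96.OF.WZ0

/-!
# OF-WZ1: the bound |G| ≤ 4C/v

Put `f σ = sol α β w σ 0 : KK X`, `G0 σ = GG α β w σ 0`; f is real differentiable, `Df(δ) = δ•G0 + J(δ•G0)` (HolW.s_deriv, component 0; J3 componentwise JK), G0 holomorphic on HH.
`f σ - f τ = FF σ - FF τ` a.e., so `|f σ - f τ| ≤ 2C` a.e. (FF_bound). For `0 < r < im τ`: `A(r) = ∫_0^{2π} (f(τ+re^{iθ}) - f τ) e^{-iθ} dθ` equals `2π r G0 τ`
(primitive P of G0 on the disc: f = f τ + P + J P; Cauchy's formula for P and for J P), the set `{v ∈ KK : |v| ≤ c a.e.}` is closed and convex, so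
`|G0 τ| ≤ 2C/r` a.e.; r = im τ /2.
-/

set_option autoImplicit false

open MeasureTheory
open scoped ComplexConjugate

namespace Pool.Agent.Helper96.OF

variable {X : Type} [Countable X] [MeasurableSpace X] [DiscreteMeasurableSpace X] {α β : Equiv.Perm X}

theorem closed_convex_bd (c : ℝ) :
    IsClosed {v : KK X | ∀ᵐ q ∂(mu X), ‖(v : Sq X → ℂ) q‖ ≤ c} ∧
    Convex ℝ {v : KK X | ∀ᵐ q ∂(mu X), ‖(v : Sq X → ℂ) q‖ ≤ c} := by
  constructor
  · apply IsSeqClosed.isClosed
    intro u v hu huv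
    have hm := tendstoInMeasure_of_tendsto_Lp (μ := mu X) (p := 2) huv
    obtain ⟨ns, -, hns⟩ := hm.exists_seq_tendsto_ae
    have hall : ∀ᵐ q ∂(mu X), ∀ n, ‖(u n : Sq X → ℂ) q‖ ≤ c := ae_all_iff.2 fun n => hu n
    change ∀ᵐ q ∂(mu X), ‖(v : Sq X → ℂ) q‖ ≤ c
    filter_upwards [hns, hall] with q h1 h2
    exact le_of_tendsto (h1.norm) (Filter.Eventually.of_forall fun n => h2 (ns n))
  · intro u hu v hv a b ha hb hab
    change ∀ᵐ q ∂(mu X), ‖((a • u + b • v : KK X) : Sq X → ℂ) q‖ ≤ c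
    have hu' : ∀ᵐ q ∂(mu X), ‖(u : Sq X → ℂ) q‖ ≤ c := hu
    have hv' : ∀ᵐ q ∂(mu X), ‖(v : Sq X → ℂ) q‖ ≤ c := hv
    filter_upwards [hu', hv', Lp.coeFn_add (a • u) (b • v), Lp.coeFn_smul a u, Lp.coeFn_smul b v]
      with q h1 h2 h3 h4 h5
    rw [h3, Pi.add_apply, h4, h5, Pi.smul_apply, Pi.smul_apply]
    refine (norm_add_le _ _).trans ?_
    rw [norm_smul, norm_smul, Real.norm_of_nonneg ha, Real.norm_of_nonneg hb]
    calc a * ‖(u : Sq X → ℂ) q‖ + b * ‖(v : Sq X → ℂ) q‖ ≤ a * c + b * c := by gcongr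
      _ = c := by rw [← add_mul, hab, one_mul]

/-- mean value representation of the `∂`-derivative of `P + J P` -/
theorem wz1_key {E : Type*} [NormedAddCommGroup E] [NormedSpace ℂ E] [CompleteSpace E]
    (J : E →L[ℝ] E) (hJ : ∀ (k : ℂ) (v : E), J (k • v) = conj k • J v) (f G : ℂ → E)
    (L : ℂ → ℂ →L[ℝ] E) (τ : ℂ) (R r : ℝ) (hr : 0 < r) (hrR : r < R)
    (hG : DifferentiableOn ℂ G (Metric.ball τ R))
    (hf : ∀ σ ∈ Metric.ball τ R, HasFDerivAt f (L σ) σ ∧
      ∀ δ : ℂ, L σ δ = δ • G σ + J (δ • G σ)) :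
    ∫ θ in (0:ℝ)..(2 * Real.pi), Complex.exp (-(θ * Complex.I)) • (f (circleMap τ r θ) - f τ) =
      ((2 * Real.pi * r : ℝ) : ℂ) • G τ := by
  obtain ⟨P, hP⟩ := hG.isExactOn_ball
  have hτ : τ ∈ Metric.ball τ R := Metric.mem_ball_self (hr.trans hrR)
  -- `f = P + J P + const`
  have hconst : ∀ σ ∈ Metric.ball τ R, f σ - f τ = (P σ - P τ) + J (P σ - P τ) := by
    intro σ hσ
    have hd : ∀ z ∈ Metric.ball τ R, HasFDerivAt (fun z => f z - P z - J (P z)) (0 : ℂ →L[ℝ] E) z := by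
      intro z hz
      have h1 := (hf z hz).1
      have h2 : HasFDerivAt P ((ContinuousLinearMap.toSpanSingleton ℂ (G z)).restrictScalars ℝ) z :=
        (hP z hz).hasFDerivAt.restrictScalars ℝ
      have h3 := J.hasFDerivAt (x := P z) |>.comp z h2
      have h4 := (h1.sub h2).sub h3
      refine h4.congr_fderiv ?_
      refine ContinuousLinearMap.ext fun δ => ?_
      simp [(hf z hz).2]
    have h0 := (convex_ball τ R).is_const_of_fderivWithin_eq_zero (𝕜 := ℝ)
      (f := fun z => f z - P z - J (P z))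
      (fun z hz => (hd z hz).differentiableAt.differentiableWithinAt)
      (fun z hz => by
        rw [fderivWithin_of_isOpen Metric.isOpen_ball hz, (hd z hz).fderiv]) hσ hτ
    have h5 : f σ - f τ = (P σ + J (P σ)) - (P τ + J (P τ)) := by
      have := h0
      rw [sub_sub, sub_sub, sub_eq_sub_iff_add_eq_add] at this
      rw [sub_eq_sub_iff_add_eq_add, this]
      abel
    rw [h5, map_sub]
    abel
  have hmem : ∀ θ : ℝ, circleMap τ r θ ∈ Metric.ball τ R := by
    intro θ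
    have := circleMap_mem_sphere τ hr.le θ
    rw [mem_sphere_iff_norm] at this
    rw [Metric.mem_ball, dist_eq_norm, this]
    exact hrR
  set Q : ℂ → E := fun z => P z - P τ with hQ
  have hPd : DifferentiableOn ℂ P (Metric.ball τ R) := fun z hz =>
    (hP z hz).differentiableAt.differentiableWithinAt
  have hQd : DifferentiableOn ℂ Q (Metric.ball τ R) := hPd.sub_const _
  have hcb : Metric.closedBall τ r ⊆ Metric.ball τ R := Metric.closedBall_subset_ball hrR
  have hQc : Continuous fun θ : ℝ => Q (circleMap τ r θ) := by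
    have := hQd.continuousOn.comp_continuous (continuous_circleMap τ r) hmem
    exact this
  have hE1 : Continuous fun θ : ℝ => Complex.exp (-(θ * Complex.I)) := by fun_prop
  have hE2 : Continuous fun θ : ℝ => Complex.exp (θ * Complex.I) := by fun_prop
  have hrC : (r : ℂ) ≠ 0 := by exact_mod_cast hr.ne'
  -- first integral
  have hI1 : ∫ θ in (0:ℝ)..(2 * Real.pi), Complex.exp (-(θ * Complex.I)) • Q (circleMap τ r θ) =
      ((2 * Real.pi * r : ℝ) : ℂ) • G τ := by
    have h := Complex.two_pi_I_inv_smul_circleIntegral_sub_sq_inv_smul_of_differentiable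
      Metric.isOpen_ball hcb hQd (Metric.mem_ball_self hr)
    have hder : deriv Q τ = G τ := by
      have : HasDerivAt Q (G τ) τ := (hP τ hτ).sub_const _
      exact this.deriv
    rw [hder] at h
    have h2 : (∮ z in C(τ, r), ((z - τ) ^ 2)⁻¹ • Q z) = (2 * Real.pi * Complex.I : ℂ) • G τ := by
      rw [← h, smul_smul, mul_inv_cancel₀ Complex.two_pi_I_ne_zero, one_smul]
    have h3 : (∮ z in C(τ, r), ((z - τ) ^ 2)⁻¹ • Q z) =
        ((r : ℂ)⁻¹ * Complex.I) • ∫ θ in (0:ℝ)..(2 * Real.pi),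
          Complex.exp (-(θ * Complex.I)) • Q (circleMap τ r θ) := by
      rw [circleIntegral, ← intervalIntegral.integral_smul]
      apply intervalIntegral.integral_congr
      intro θ _
      simp only
      rw [smul_smul, smul_smul]
      congr 1
      rw [deriv_circleMap, circleMap, circleMap, zero_add, add_sub_cancel_left, Complex.exp_neg]
      have he : Complex.exp (θ * Complex.I) ≠ 0 := Complex.exp_ne_zero _
      field_simp
    rw [h2] at h3
    have h4 : ((2 * Real.pi * r : ℝ) : ℂ) • G τ =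
        (r / Complex.I : ℂ) • ((2 * Real.pi * Complex.I : ℂ) • G τ) := by
      rw [smul_smul]
      congr 1
      push_cast
      field_simp
    rw [h4, h3, smul_smul]
    have h5 : (r / Complex.I : ℂ) * ((r : ℂ)⁻¹ * Complex.I) = 1 := by
      field_simp
    rw [h5, one_smul]
  -- second integral
  have hI2 : ∫ θ in (0:ℝ)..(2 * Real.pi), Complex.exp (θ * Complex.I) • Q (circleMap τ r θ) = 0 := by
    have h := (hQd.diffContOnCl_ball hcb).circleIntegral_eq_zero hr.le
    have h3 : (∮ z in C(τ, r), Q z) =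
        ((r : ℂ) * Complex.I) • ∫ θ in (0:ℝ)..(2 * Real.pi),
          Complex.exp (θ * Complex.I) • Q (circleMap τ r θ) := by
      rw [circleIntegral, ← intervalIntegral.integral_smul]
      apply intervalIntegral.integral_congr
      intro θ _
      simp only
      rw [smul_smul]
      congr 1
      rw [deriv_circleMap, circleMap, zero_add]
      ring
    rw [h] at h3
    have hne : (r : ℂ) * Complex.I ≠ 0 := mul_ne_zero hrC Complex.I_ne_zero
    exact (smul_eq_zero.1 h3.symm).resolve_left hne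
  have hI3 : ∫ θ in (0:ℝ)..(2 * Real.pi), Complex.exp (-(θ * Complex.I)) • J (Q (circleMap τ r θ)) =
      0 := by
    have h := J.intervalIntegral_comp_comm (a := 0) (b := 2 * Real.pi) (μ := volume)
      (f := fun θ : ℝ => Complex.exp (θ * Complex.I) • Q (circleMap τ r θ))
      ((hE2.smul hQc).intervalIntegrable _ _)
    rw [hI2, map_zero] at h
    rw [← h]
    apply intervalIntegral.integral_congr
    intro θ _
    simp only
    rw [hJ]
    congr 1
    rw [← Complex.exp_conj]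
    congr 1
    simp
  have hsplit : ∀ θ : ℝ, Complex.exp (-(θ * Complex.I)) • (f (circleMap τ r θ) - f τ) =
      Complex.exp (-(θ * Complex.I)) • Q (circleMap τ r θ) +
        Complex.exp (-(θ * Complex.I)) • J (Q (circleMap τ r θ)) := by
    intro θ
    rw [hconst _ (hmem θ), smul_add]
  have hadd := intervalIntegral.integral_add (μ := volume) (a := 0) (b := 2 * Real.pi)
    (f := fun θ : ℝ => Complex.exp (-(θ * Complex.I)) • Q (circleMap τ r θ))
    (g := fun θ : ℝ => Complex.exp (-(θ * Complex.I)) • J (Q (circleMap τ r θ)))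
    ((hE1.smul hQc).intervalIntegrable _ _)
    ((hE1.smul (J.continuous.comp hQc)).intervalIntegrable _ _)
  rw [intervalIntegral.integral_congr (fun θ _ => hsplit θ), hadd, hI1, hI3, add_zero]

theorem JK_smul (k : ℂ) (v : KK X) : JK X (k • v) = conj k • JK X v := by
  apply Lp.ext
  filter_upwards [JK_ae (k • v), JK_ae v, Lp.coeFn_smul k v, Lp.coeFn_smul (conj k) (JK X v)]
    with q h1 h2 h3 h4
  rw [h1, h4, h3, Pi.smul_apply, Pi.smul_apply, h2, smul_eq_mul, smul_eq_mul, map_mul]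

theorem GG_bound (hSG : SG α β) {w : X → ℝ} (hw : InW α β w) (hH : HolW α β w) {C : ℝ}
    (hC : ∀ x, |w x| ≤ C) {τ : ℂ} (hτ : τ ∈ HH) :
    ∀ᵐ q ∂(mu X), ‖(GG α β w τ 0 : Sq X → ℂ) q‖ ≤ 4 * C / τ.im := by
  have hτ' : 0 < τ.im := hτ
  set r : ℝ := τ.im / 2 with hr_def
  have hr : 0 < r := by positivity
  have hrR : r < τ.im := by rw [hr_def]; linarith
  have hball : ∀ σ ∈ Metric.ball τ τ.im, σ ∈ HH := by
    intro σ hσ
    rw [Metric.mem_ball, dist_eq_norm] at hσ
    have h1 : |(σ - τ).im| ≤ ‖σ - τ‖ := Complex.abs_im_le_norm _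
    have h2 : |σ.im - τ.im| < τ.im := by
      rw [← Complex.sub_im]; exact lt_of_le_of_lt h1 hσ
    have h3 := (abs_lt.1 h2).1
    change 0 < σ.im
    linarith
  let pr : K3 X →L[ℂ] KK X := PiLp.proj 2 (fun _ : Fin 3 => KK X) 0
  have hpr : ∀ v : K3 X, pr v = v 0 := fun v => rfl
  let f : ℂ → KK X := fun σ => sol α β w σ 0
  let G : ℂ → KK X := fun σ => GG α β w σ 0
  have hG : DifferentiableOn ℂ G (Metric.ball τ τ.im) := by
    have h1 : DifferentiableOn ℂ (GG α β w) (Metric.ball τ τ.im) :=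
      hH.G_hol.mono fun σ hσ => hball σ hσ
    exact pr.differentiable.comp_differentiableOn h1
  let L : ℂ → ℂ →L[ℝ] KK X := fun σ => (pr.restrictScalars ℝ).comp (fderiv ℝ (sol α β w) σ)
  have hf : ∀ σ ∈ Metric.ball τ τ.im, HasFDerivAt f (L σ) σ ∧
      ∀ δ : ℂ, L σ δ = δ • G σ + JK X (δ • G σ) := by
    intro σ hσ
    obtain ⟨h1, h2⟩ := hH.s_deriv σ (hball σ hσ)
    refine ⟨(pr.restrictScalars ℝ).hasFDerivAt.comp σ h1, fun δ => ?_⟩
    change pr (fderiv ℝ (sol α β w) σ δ) = _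
    rw [h2 δ, hpr]
    rfl
  have hkey : (∫ θ in (0:ℝ)..(2 * Real.pi),
      (Complex.exp (-(θ * Complex.I)) • (f (circleMap τ r θ) - f τ) : KK X)) =
      ((2 * Real.pi * r : ℝ) : ℂ) • G τ := wz1_key (JK X) JK_smul f G L τ τ.im r hr hrR hG hf
  -- bound of `f σ - f τ`
  have hbd : ∀ σ ∈ Metric.ball τ τ.im, ∀ᵐ q ∂(mu X), ‖((f σ - f τ : KK X) : Sq X → ℂ) q‖ ≤ 2 * C := by
    intro σ hσ
    filter_upwards [FF_bound hSG hw hC (hball σ hσ), FF_bound hSG hw hC hτ,
      Lp.coeFn_sub (f σ) (f τ)] with q h1 h2 h3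
    rw [h3, Pi.sub_apply]
    have h4 : (f σ : Sq X → ℂ) q - (f τ : Sq X → ℂ) q = FF α β w σ q - FF α β w τ q := by
      simp only [FF, f]
      ring
    rw [h4]
    calc ‖FF α β w σ q - FF α β w τ q‖ ≤ ‖FF α β w σ q‖ + ‖FF α β w τ q‖ := norm_sub_le _ _
      _ ≤ C + C := add_le_add h1 h2
      _ = 2 * C := by ring
  have hmem : ∀ θ : ℝ, circleMap τ r θ ∈ Metric.ball τ τ.im := by
    intro θ
    have := circleMap_mem_sphere τ hr.le θ
    rw [mem_sphere_iff_norm] at this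
    rw [Metric.mem_ball, dist_eq_norm, this]
    exact hrR
  have hset : ∀ θ : ℝ, (Complex.exp (-(θ * Complex.I)) • (f (circleMap τ r θ) - f τ) : KK X) ∈
      {v : KK X | ∀ᵐ q ∂(mu X), ‖(v : Sq X → ℂ) q‖ ≤ 2 * C} := by
    intro θ
    change ∀ᵐ q ∂(mu X), _
    filter_upwards [hbd _ (hmem θ),
      Lp.coeFn_smul (Complex.exp (-(θ * Complex.I))) (f (circleMap τ r θ) - f τ)] with q h1 h2
    rw [h2, Pi.smul_apply, norm_smul]
    have h3 : ‖Complex.exp (-(θ * Complex.I))‖ = 1 := by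
      have : -(θ * Complex.I) = ((-θ : ℝ) : ℂ) * Complex.I := by push_cast; ring
      rw [this, Complex.norm_exp_ofReal_mul_I]
    rw [h3, one_mul]
    exact h1
  have hfc : Continuous fun θ : ℝ => f (circleMap τ r θ) := by
    have h1 : ContinuousOn f (Metric.ball τ τ.im) := fun σ hσ =>
      (hf σ hσ).1.continuousAt.continuousWithinAt
    exact h1.comp_continuous (continuous_circleMap τ r) hmem
  have hcont : Continuous fun θ : ℝ =>
      (Complex.exp (-(θ * Complex.I)) • (f (circleMap τ r θ) - f τ) : KK X) := by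
    have hE1 : Continuous fun θ : ℝ => Complex.exp (-(θ * Complex.I)) := by fun_prop
    exact hE1.smul (hfc.sub continuous_const)
  have h2pi : (0:ℝ) < 2 * Real.pi := by positivity
  have havg : (⨍ θ in Set.Ioc (0:ℝ) (2 * Real.pi),
      (Complex.exp (-(θ * Complex.I)) • (f (circleMap τ r θ) - f τ) : KK X)) ∈
      {v : KK X | ∀ᵐ q ∂(mu X), ‖(v : Sq X → ℂ) q‖ ≤ 2 * C} := by
    apply Convex.set_average_mem (closed_convex_bd (X := X) (2 * C)).2
      (closed_convex_bd (X := X) (2 * C)).1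
    · rw [Real.volume_Ioc, sub_zero]
      exact (ENNReal.ofReal_pos.2 h2pi).ne'
    · exact measure_Ioc_lt_top.ne
    · exact Filter.Eventually.of_forall fun θ => hset θ
    · exact (hcont.integrableOn_Icc (a := 0) (b := 2 * Real.pi)).mono_set Set.Ioc_subset_Icc_self
  have hGτ : (GG α β w τ 0 : KK X) = ((r : ℂ)⁻¹) • (⨍ θ in Set.Ioc (0:ℝ) (2 * Real.pi),
      (Complex.exp (-(θ * Complex.I)) • (f (circleMap τ r θ) - f τ) : KK X)) := by
    rw [setAverage_eq, ← intervalIntegral.integral_of_le h2pi.le, hkey]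
    rw [Real.volume_real_Ioc_of_le h2pi.le, sub_zero]
    change G τ = _
    have h1 : ((2 * Real.pi)⁻¹ : ℝ) • (((2 * Real.pi * r : ℝ) : ℂ) • G τ) =
        (((2 * Real.pi)⁻¹ : ℝ) : ℂ) • (((2 * Real.pi * r : ℝ) : ℂ) • G τ) :=
      (IsScalarTower.algebraMap_smul ℂ ((2 * Real.pi)⁻¹ : ℝ) (((2 * Real.pi * r : ℝ) : ℂ) • G τ)).symm
    rw [h1, smul_smul, smul_smul]
    have h2 : (r : ℂ)⁻¹ * (((2 * Real.pi)⁻¹ : ℝ) : ℂ) * ((2 * Real.pi * r : ℝ) : ℂ) = 1 := by
      have hrC : (r : ℂ) ≠ 0 := by exact_mod_cast hr.ne'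
      have hpiC : (Real.pi : ℂ) ≠ 0 := by exact_mod_cast Real.pi_ne_zero
      push_cast
      field_simp
    rw [h2, one_smul]
  rw [hGτ]
  have havg' : ∀ᵐ q ∂(mu X), ‖((⨍ θ in Set.Ioc (0:ℝ) (2 * Real.pi),
      (Complex.exp (-(θ * Complex.I)) • (f (circleMap τ r θ) - f τ) : KK X) : KK X) : Sq X → ℂ) q‖ ≤
      2 * C := havg
  filter_upwards [havg', Lp.coeFn_smul ((r : ℂ)⁻¹) (⨍ θ in Set.Ioc (0:ℝ) (2 * Real.pi),
      (Complex.exp (-(θ * Complex.I)) • (f (circleMap τ r θ) - f τ) : KK X))] with q h1 h2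
  rw [h2, Pi.smul_apply, norm_smul, norm_inv, Complex.norm_real, Real.norm_of_nonneg hr.le]
  calc r⁻¹ * _ ≤ r⁻¹ * (2 * C) := by gcongr
    _ = 4 * C / τ.im := by
      rw [hr_def]
      field_simp
      ring

end Pool.Agent.Helper96.OF
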