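import Pool.Agent.Helper96.OF.WZ1

/-!
# OF-WZ2: holomorphic bounded families give holomorphic multiplication operators

`g : ℂ → KK X` holomorphic on HH, `|g τ| ≤ M/im τ` a.e. for every τ ∈ HH. For τ ∈ HH, ρ = im τ/2, |δ| ≤ ρ/2, Cauchy's formula on the circle |ξ-τ|=ρ (Bochner integral in KK) gives
`g(τ+δ) - g τ - δ•g'(τ) = (1/2πi) ∮ g(ξ) δ²/((ξ-τ)²(ξ-τ-δ)) dξ` and `g'(τ) = (1/2πi)∮ g(ξ)/(ξ-τ)² dξ`; the integrands are `≤ const` a.e. (|g ξ| ≤ M/ρ as im ξ ≥ ρ), so by `closed_convex_bd`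
(`Convex.integral_mem`/closed convex sets contain averages) `|g' τ| ≤ M/ρ²` and `|g(τ+δ)-g τ-δ g' τ| ≤ C|δ|²` a.e., C = 2M/ρ³·…. With `mop_norm_le_iff` the operator valued map `Mop ∘ g` has derivative `Mop (g' τ)`.
-/

set_option autoImplicit false

open MeasureTheory
open scoped ComplexConjugate

namespace Pool.Agent.Helper96.OF

variable {X : Type} [Countable X] [MeasurableSpace X] [DiscreteMeasurableSpace X]

open Metric Set in
private theorem wz2_smul_bd {v : KK X} {c : ℝ} (hv : ∀ᵐ q ∂(mu X), ‖(v : Sq X → ℂ) q‖ ≤ c) (k : ℂ)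
    {c' : ℝ} (h : ‖k‖ * c ≤ c') : ∀ᵐ q ∂(mu X), ‖((k • v : KK X) : Sq X → ℂ) q‖ ≤ c' := by
  filter_upwards [hv, Lp.coeFn_smul k v] with q hq hk
  rw [hk, Pi.smul_apply, norm_smul]
  exact (mul_le_mul_of_nonneg_left hq (norm_nonneg _)).trans h

private theorem wz2_circ (F : ℂ → KK X) (c : ℂ) {R b : ℝ} (hR : 0 < R)
    (hF : ContinuousOn F (Metric.sphere c R))
    (hb : ∀ z ∈ Metric.sphere c R, ∀ᵐ q ∂(mu X), ‖(F z : Sq X → ℂ) q‖ ≤ b) :
    ∀ᵐ q ∂(mu X), ‖(((2 * Real.pi * Complex.I : ℂ)⁻¹ • (∮ z in C(c, R), F z) : KK X) :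
      Sq X → ℂ) q‖ ≤ R * b := by
  have hmem : ∀ θ : ℝ, circleMap c R θ ∈ Metric.sphere c R := fun θ =>
    circleMap_mem_sphere c hR.le θ
  set φ : ℝ → KK X := fun θ => (circleMap 0 R θ) • F (circleMap c R θ) with hφ
  have hφc : Continuous φ := by
    refine (continuous_circleMap 0 R).smul ?_
    exact hF.comp_continuous (continuous_circleMap c R) hmem
  have hφb : ∀ θ, φ θ ∈ {v : KK X | ∀ᵐ q ∂(mu X), ‖(v : Sq X → ℂ) q‖ ≤ R * b} := by
    intro θ
    refine wz2_smul_bd (hb _ (hmem θ)) _ ?_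
    rw [norm_circleMap_zero, abs_of_pos hR]
  obtain ⟨hcl, hcv⟩ := closed_convex_bd (X := X) (R * b)
  have hpi : (0:ℝ) < 2 * Real.pi := by positivity
  have key : (⨍ θ in Set.uIoc 0 (2 * Real.pi), φ θ) ∈
      {v : KK X | ∀ᵐ q ∂(mu X), ‖(v : Sq X → ℂ) q‖ ≤ R * b} := by
    refine hcv.set_average_mem hcl ?_ ?_ (Filter.Eventually.of_forall hφb) ?_
    · rw [Set.uIoc_of_le hpi.le, Real.volume_Ioc]; simpa using Real.pi_pos
    · rw [Set.uIoc_of_le hpi.le, Real.volume_Ioc]; exact ENNReal.ofReal_ne_top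
    · rw [Set.uIoc_of_le hpi.le]
      exact (hφc.integrableOn_Icc).mono_set Set.Ioc_subset_Icc_self
  have heq : ((2 * Real.pi * Complex.I : ℂ)⁻¹ • (∮ z in C(c, R), F z) : KK X) =
      ⨍ θ in Set.uIoc 0 (2 * Real.pi), φ θ := by
    rw [interval_average_eq, circleIntegral]
    have h1 : (fun θ : ℝ => deriv (circleMap c R) θ • F (circleMap c R θ)) =
        fun θ => Complex.I • φ θ := by
      funext θ
      rw [deriv_circleMap, hφ, smul_smul, mul_comm]
    rw [h1, intervalIntegral.integral_smul, smul_smul, sub_zero]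
    have h2 : ((2 * Real.pi * Complex.I : ℂ)⁻¹ * Complex.I) = (((2 * Real.pi)⁻¹ : ℝ) : ℂ) := by
      have := Complex.I_ne_zero
      have hp : (Real.pi : ℂ) ≠ 0 := by exact_mod_cast Real.pi_ne_zero
      push_cast
      field_simp
    rw [h2, Complex.coe_smul]
    rfl
  rw [heq]
  exact key

private theorem wz2_coe_ae {a b : KK X} {k : ℂ} (v : KK X) :
    ((v - a - k • b : KK X) : Sq X → ℂ) =ᵐ[mu X]
      fun q => ((v : Sq X → ℂ) q + (-1) * (a : Sq X → ℂ) q) + (-k) * (b : Sq X → ℂ) q := by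
  filter_upwards [Lp.coeFn_sub (v - a) (k • b), Lp.coeFn_sub v a, Lp.coeFn_smul k b] with q h1 h2 h3
  rw [h1, Pi.sub_apply, h2, Pi.sub_apply, h3, Pi.smul_apply, smul_eq_mul]
  ring

private theorem wz2_mop_lin {v a b : KK X} {C : ℝ} (hv : Bd (v : Sq X → ℂ) C)
    (ha : Bd (a : Sq X → ℂ) C) (hb : Bd (b : Sq X → ℂ) C) (k : ℂ) :
    Mop (v : Sq X → ℂ) - Mop (a : Sq X → ℂ) - k • Mop (b : Sq X → ℂ) =
      Mop ((v - a - k • b : KK X) : Sq X → ℂ) := by
  have hsm : ∀ (u : KK X) (c : ℂ), Bd (u : Sq X → ℂ) C →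
      Bd (fun q => c * (u : Sq X → ℂ) q) (‖c‖ * C) := by
    intro u c hu
    refine ⟨hu.1.const_mul c, mul_nonneg (norm_nonneg _) hu.2.1, ?_⟩
    filter_upwards [hu.2.2] with q hq
    rw [norm_mul]
    exact mul_le_mul_of_nonneg_left hq (norm_nonneg _)
  have hadd : Bd (fun q => (v : Sq X → ℂ) q + (-1) * (a : Sq X → ℂ) q) (C + ‖(-1 : ℂ)‖ * C) := by
    refine ⟨hv.1.add (hsm a (-1) ha).1, add_nonneg hv.2.1 (hsm a (-1) ha).2.1, ?_⟩
    filter_upwards [hv.2.2, (hsm a (-1) ha).2.2] with q h1 h2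
    exact (norm_add_le _ _).trans (add_le_add h1 h2)
  rw [mop_congr (wz2_coe_ae v), mop_add hadd (hsm b (-k) hb), mop_add hv (hsm a (-1) ha),
    mop_smul ha, mop_smul hb]
  simp [sub_eq_add_neg]

theorem mop_hol (g : ℂ → KK X) (hg : DifferentiableOn ℂ g HH) (M : ℝ) (hM0 : 0 ≤ M)
    (hM : ∀ τ ∈ HH, ∀ᵐ q ∂(mu X), ‖(g τ : Sq X → ℂ) q‖ ≤ M / τ.im) :
    DifferentiableOn ℂ (fun τ => Mop (g τ : Sq X → ℂ)) HH ∧
    (∀ τ ∈ HH, deriv (fun τ => Mop (g τ : Sq X → ℂ)) τ = Mop ((deriv g τ : KK X) : Sq X → ℂ)) ∧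
    ∀ τ ∈ HH, ∀ᵐ q ∂(mu X), ‖((deriv g τ : KK X) : Sq X → ℂ) q‖ ≤ 4 * M / τ.im ^ 2 * 2 := by
  have hopen : IsOpen HH := isOpen_lt continuous_const Complex.continuous_im
  -- geometry
  have hgeo : ∀ τ ∈ HH, ∀ z ∈ Metric.closedBall τ (τ.im / 2), τ.im / 2 ≤ z.im := by
    intro τ hτ z hz
    have h1 : |(z - τ).im| ≤ τ.im / 2 := (Complex.abs_im_le_norm _).trans (by
      rwa [Metric.mem_closedBall, dist_eq_norm] at hz)
    have h2 := (abs_le.1 h1).1
    rw [Complex.sub_im] at h2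
    linarith
  have hsub : ∀ τ ∈ HH, Metric.closedBall τ (τ.im / 2) ⊆ HH := by
    intro τ hτ z hz
    have h0 : 0 < τ.im := hτ
    exact lt_of_lt_of_le (by linarith) (hgeo τ hτ z hz)
  have hbd : ∀ τ ∈ HH, ∀ z ∈ Metric.closedBall τ (τ.im / 2),
      ∀ᵐ q ∂(mu X), ‖(g z : Sq X → ℂ) q‖ ≤ M / (τ.im / 2) := by
    intro τ hτ z hz
    have h0 : 0 < τ.im := hτ
    filter_upwards [hM z (hsub τ hτ hz)] with q hq
    exact hq.trans (div_le_div_of_nonneg_left hM0 (by linarith) (hgeo τ hτ z hz))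
  -- bound of the derivative
  have hder : ∀ τ ∈ HH, ∀ᵐ q ∂(mu X),
      ‖((deriv g τ : KK X) : Sq X → ℂ) q‖ ≤ 4 * M / τ.im ^ 2 := by
    intro τ hτ
    have h0 : 0 < τ.im := hτ
    have hρ : 0 < τ.im / 2 := by linarith
    rw [← Complex.two_pi_I_inv_smul_circleIntegral_sub_sq_inv_smul_of_differentiable hopen
      (hsub τ hτ) hg (Metric.mem_ball_self hρ)]
    have := wz2_circ (fun z => ((z - τ) ^ 2)⁻¹ • g z) τ (R := τ.im / 2)
      (b := ((τ.im / 2) ^ 2)⁻¹ * (M / (τ.im / 2))) hρ ?_ ?_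
    · filter_upwards [this] with q hq
      refine hq.trans (le_of_eq ?_)
      field_simp
      norm_num
      ring
    · refine ContinuousOn.smul (f := fun z : ℂ => ((z - τ) ^ 2)⁻¹) ?_
        (hg.continuousOn.mono (Metric.sphere_subset_closedBall.trans (hsub τ hτ)))
      refine ContinuousOn.inv₀ (by fun_prop) ?_
      intro z hz
      have : z - τ ≠ 0 := by
        rw [sub_ne_zero]
        rintro rfl
        rw [Metric.mem_sphere, dist_self] at hz
        linarith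
      exact pow_ne_zero 2 this
    · intro z hz
      refine wz2_smul_bd (hbd τ hτ z (Metric.sphere_subset_closedBall hz)) _ (le_of_eq ?_)
      rw [norm_inv, norm_pow]
      rw [Metric.mem_sphere, dist_eq_norm] at hz
      rw [hz]
  -- second order expansion
  have htay : ∀ τ ∈ HH, ∀ δ : ℂ, ‖δ‖ ≤ τ.im / 4 → ∀ᵐ q ∂(mu X),
      ‖((g (τ + δ) - g τ - δ • deriv g τ : KK X) : Sq X → ℂ) q‖ ≤
        (2 * (M / (τ.im / 2)) / (τ.im / 2) ^ 2) * ‖δ‖ ^ 2 := by
    intro τ hτ δ hδ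
    have h0 : 0 < τ.im := hτ
    have hρ : 0 < τ.im / 2 := by linarith
    have hw : τ + δ ∈ Metric.ball τ (τ.im / 2) := by
      rw [Metric.mem_ball, dist_eq_norm, add_sub_cancel_left]
      linarith
    have hgc : ContinuousOn g (Metric.closedBall τ (τ.im / 2)) := hg.continuousOn.mono (hsub τ hτ)
    have hgs : ContinuousOn g (Metric.sphere τ (τ.im / 2)) := hgc.mono Metric.sphere_subset_closedBall
    have hd : DiffContOnCl ℂ g (Metric.ball τ (τ.im / 2)) :=
      hg.diffContOnCl_ball (hsub τ hτ)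
    have e1 := hd.two_pi_i_inv_smul_circleIntegral_sub_inv_smul hw
    have e2 := hd.two_pi_i_inv_smul_circleIntegral_sub_inv_smul (Metric.mem_ball_self hρ)
    have e3 := Complex.two_pi_I_inv_smul_circleIntegral_sub_sq_inv_smul_of_differentiable hopen
      (hsub τ hτ) hg (Metric.mem_ball_self hρ)
    have hne : ∀ z ∈ Metric.sphere τ (τ.im / 2), z - τ ≠ 0 := by
      intro z hz
      rw [sub_ne_zero]
      rintro rfl
      rw [Metric.mem_sphere, dist_self] at hz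
      linarith
    have hne2 : ∀ z ∈ Metric.sphere τ (τ.im / 2), z - (τ + δ) ≠ 0 := by
      intro z hz
      rw [sub_ne_zero]
      rintro rfl
      rw [Metric.mem_sphere] at hz
      rw [Metric.mem_ball] at hw
      linarith
    have c1 : ContinuousOn (fun z : ℂ => (z - (τ + δ))⁻¹ • g z) (Metric.sphere τ (τ.im / 2)) :=
      ContinuousOn.smul (ContinuousOn.inv₀ (by fun_prop) hne2) hgs
    have c2 : ContinuousOn (fun z : ℂ => (z - τ)⁻¹ • g z) (Metric.sphere τ (τ.im / 2)) :=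
      ContinuousOn.smul (ContinuousOn.inv₀ (by fun_prop) hne) hgs
    have c3 : ContinuousOn (fun z : ℂ => ((z - τ) ^ 2)⁻¹ • g z) (Metric.sphere τ (τ.im / 2)) :=
      ContinuousOn.smul (ContinuousOn.inv₀ (by fun_prop) (fun z hz => pow_ne_zero 2 (hne z hz))) hgs
    have c4 : ContinuousOn (fun z : ℂ => (δ ^ 2 * (((z - τ) ^ 2) * (z - (τ + δ)))⁻¹) • g z)
        (Metric.sphere τ (τ.im / 2)) :=
      ContinuousOn.smul (ContinuousOn.mul continuousOn_const (ContinuousOn.inv₀ (by fun_prop)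
        (fun z hz => mul_ne_zero (pow_ne_zero 2 (hne z hz)) (hne2 z hz)))) hgs
    have c12 : ContinuousOn (fun z : ℂ => (z - (τ + δ))⁻¹ • g z - (z - τ)⁻¹ • g z)
        (Metric.sphere τ (τ.im / 2)) := c1.sub c2
    have c33 : ContinuousOn (fun z : ℂ => δ • ((z - τ) ^ 2)⁻¹ • g z)
        (Metric.sphere τ (τ.im / 2)) := c3.const_smul δ
    have heq : g (τ + δ) - g τ - δ • deriv g τ = (2 * Real.pi * Complex.I : ℂ)⁻¹ •
        ∮ z in C(τ, τ.im / 2), (δ ^ 2 * (((z - τ) ^ 2) * (z - (τ + δ)))⁻¹) • g z := by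
      rw [← e3, ← e2, ← e1, smul_comm δ, ← smul_sub, ← smul_sub, ← circleIntegral.integral_smul,
        ← circleIntegral.integral_sub (c1.circleIntegrable hρ.le) (c2.circleIntegrable hρ.le),
        ← circleIntegral.integral_sub (c12.circleIntegrable hρ.le) (c33.circleIntegrable hρ.le)]
      congr 1
      refine circleIntegral.integral_congr hρ.le ?_
      intro z hz
      simp only [smul_smul, ← sub_smul]
      congr 1
      have hz1 := hne z hz
      have hz2 := hne2 z hz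
      field_simp
      ring
    rw [heq]
    have := wz2_circ (fun z => (δ ^ 2 * (((z - τ) ^ 2) * (z - (τ + δ)))⁻¹) • g z) τ
      (R := τ.im / 2)
      (b := (‖δ‖ ^ 2 * ((τ.im / 2) ^ 2 * (τ.im / 4))⁻¹) * (M / (τ.im / 2))) hρ c4 ?_
    · filter_upwards [this] with q hq
      refine hq.trans (le_of_eq ?_)
      field_simp
      ring
    · intro z hz
      refine wz2_smul_bd (hbd τ hτ z (Metric.sphere_subset_closedBall hz)) _ ?_
      refine mul_le_mul_of_nonneg_right ?_ (by positivity)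
      rw [norm_mul, norm_pow, norm_inv, norm_mul, norm_pow]
      have hzn : ‖z - τ‖ = τ.im / 2 := by
        rw [Metric.mem_sphere, dist_eq_norm] at hz
        exact hz
      have hz2 : τ.im / 4 ≤ ‖z - (τ + δ)‖ := by
        have h1 : ‖z - τ‖ ≤ ‖z - (τ + δ)‖ + ‖δ‖ := by
          have : z - τ = (z - (τ + δ)) + δ := by ring
          calc ‖z - τ‖ = ‖(z - (τ + δ)) + δ‖ := by rw [← this]
            _ ≤ _ := norm_add_le _ _
        linarith
      rw [hzn]
      refine mul_le_mul_of_nonneg_left ?_ (by positivity)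
      refine inv_anti₀ (by positivity) ?_
      exact mul_le_mul_of_nonneg_left hz2 (by positivity)
  -- boundedness predicates
  have hBdg : ∀ τ ∈ HH, ∀ C : ℝ, M / τ.im ≤ C → Bd (g τ : Sq X → ℂ) C := by
    intro τ hτ C hC
    have h0 : 0 < τ.im := hτ
    refine ⟨Lp.aestronglyMeasurable _, le_trans (by positivity) hC, ?_⟩
    filter_upwards [hM τ hτ] with q hq using hq.trans hC
  have hmain : ∀ τ ∈ HH, HasDerivAt (fun τ => Mop (g τ : Sq X → ℂ))
      (Mop ((deriv g τ : KK X) : Sq X → ℂ)) τ := by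
    intro τ hτ
    have h0 : 0 < τ.im := hτ
    rw [hasDerivAt_iff_isLittleO_nhds_zero]
    have hO : (fun δ : ℂ => Mop (g (τ + δ) : Sq X → ℂ) - Mop (g τ : Sq X → ℂ) -
        δ • Mop ((deriv g τ : KK X) : Sq X → ℂ)) =O[nhds 0] fun δ : ℂ => ‖δ‖ ^ 2 := by
      refine Asymptotics.IsBigO.of_bound (2 * (M / (τ.im / 2)) / (τ.im / 2) ^ 2) ?_
      have hev : ∀ᶠ δ : ℂ in nhds 0, ‖δ‖ ≤ τ.im / 4 := by
        have : Metric.closedBall (0 : ℂ) (τ.im / 4) ∈ nhds (0 : ℂ) :=
          Metric.closedBall_mem_nhds _ (by linarith)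
        filter_upwards [this] with δ hδ
        rwa [Metric.mem_closedBall, dist_zero_right] at hδ
      filter_upwards [hev] with δ hδ
      have hw : τ + δ ∈ Metric.closedBall τ (τ.im / 2) := by
        rw [Metric.mem_closedBall, dist_eq_norm, add_sub_cancel_left]
        linarith
      have hwH := hsub τ hτ hw
      have hwim := hgeo τ hτ _ hw
      set C : ℝ := M / (τ.im / 2) + 4 * M / τ.im ^ 2 with hC
      have hC1 : M / (τ.im / 2) ≤ C := by
        rw [hC]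
        have : 0 ≤ 4 * M / τ.im ^ 2 := by positivity
        linarith
      have hb1 : Bd (g (τ + δ) : Sq X → ℂ) C := hBdg _ hwH C
        ((div_le_div_of_nonneg_left hM0 (by linarith) hwim).trans hC1)
      have hb2 : Bd (g τ : Sq X → ℂ) C := hBdg _ hτ C
        ((div_le_div_of_nonneg_left hM0 (by linarith) (by linarith)).trans hC1)
      have hb3 : Bd ((deriv g τ : KK X) : Sq X → ℂ) C := by
        refine ⟨Lp.aestronglyMeasurable _, hb2.2.1, ?_⟩
        filter_upwards [hder τ hτ] with q hq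
        refine hq.trans ?_
        rw [hC]
        have : 0 ≤ M / (τ.im / 2) := by positivity
        linarith
      rw [wz2_mop_lin hb1 hb2 hb3 δ]
      have hb4 : Bd ((g (τ + δ) - g τ - δ • deriv g τ : KK X) : Sq X → ℂ)
          ((2 * (M / (τ.im / 2)) / (τ.im / 2) ^ 2) * ‖δ‖ ^ 2) :=
        ⟨Lp.aestronglyMeasurable _, by positivity, htay τ hτ δ hδ⟩
      refine (mop_norm hb4).trans (le_of_eq ?_)
      rw [norm_pow, norm_norm]
    refine hO.trans_isLittleO ?_
    have := Asymptotics.isLittleO_norm_pow_id (E' := ℂ) (n := 2) (by norm_num)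
    exact this
  refine ⟨fun τ hτ => (hmain τ hτ).differentiableAt.differentiableWithinAt,
    fun τ hτ => (hmain τ hτ).deriv, ?_⟩
  intro τ hτ
  have h0 : 0 < τ.im := hτ
  filter_upwards [hder τ hτ] with q hq
  refine hq.trans ?_
  have : 0 ≤ 4 * M / τ.im ^ 2 := by positivity
  linarith

end Pool.Agent.Helper96.OF
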