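import Pool.Agent.Helper96.OF.WZ2

/-!
# OF-WZ3: τ ↦ multiplication by F_τ is smooth (operator valued)

Let `G0 τ = GG α β w τ 0` (holomorphic, bounded by 4C/im τ: WZ1), MG τ = Mop (G0 τ) holomorphic (WZ2), `Mop (conj G0) = J ∘ MG ∘ J` (mop_conj), smooth in τ.
Claim: `τ ↦ Mop (FF α β w τ)` has real derivative `δ ↦ δ•Mop(G0 τ) + conj δ•Mop(conj G0 τ)` at τ ∈ HH. `FF(τ+δ) - FF τ = f(τ+δ) - f τ` a.e. with f = component 0 of sol, `f(τ+δ) - f τ = ∫_0^1 (δ•G0(τ+tδ) + J(δ•G0(τ+tδ))) dt`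
(fundamental theorem of calculus, HolW.s_deriv), so `f(τ+δ)-f τ - δG0 τ - J(δ G0 τ) = ∫_0^1 (δ(G0(τ+tδ)-G0 τ) + J(..)) dt` is `≤ 2 L|δ|²` a.e. (WZ2: |G0(τ+tδ)-G0 τ| ≤ L|δ|; closed convex). Use mop_norm_le_iff.
The derivative is a smooth function of τ, so the map is C^∞ on HH (contDiffOn_infty_iff_fderiv…).
-/

set_option autoImplicit false
set_option maxHeartbeats 600000

open MeasureTheory
open scoped ComplexConjugate

namespace Pool.Agent.Helper96.OF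

variable {X : Type} [Countable X] [MeasurableSpace X] [DiscreteMeasurableSpace X] {α β : Equiv.Perm X}

private theorem isOpen_HH' : IsOpen HH := isOpen_lt continuous_const Complex.continuous_im

/-- the closed convex set of functions bounded by `c` -/
private def SC (X : Type) [Countable X] [MeasurableSpace X] [DiscreteMeasurableSpace X] (c : ℝ) :
    Set (KK X) := {v : KK X | ∀ᵐ q ∂(mu X), ‖(v : Sq X → ℂ) q‖ ≤ c}

private theorem SC_add {c d : ℝ} {u v : KK X} (hu : u ∈ SC X c) (hv : v ∈ SC X d) :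
    u + v ∈ SC X (c + d) := by
  change ∀ᵐ q ∂(mu X), _
  have h := Lp.coeFn_add u v
  filter_upwards [hu, hv, h] with q h1 h2 h3
  rw [h3]
  exact (norm_add_le _ _).trans (add_le_add h1 h2)

private theorem SC_smul {c : ℝ} {u : KK X} (hu : u ∈ SC X c) (k : ℂ) :
    k • u ∈ SC X (‖k‖ * c) := by
  change ∀ᵐ q ∂(mu X), _
  have h := Lp.coeFn_smul k u
  filter_upwards [hu, h] with q h1 h3
  rw [h3]
  simp only [Pi.smul_apply, norm_smul]
  exact mul_le_mul_of_nonneg_left h1 (norm_nonneg _)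

private theorem SC_J {c : ℝ} {u : KK X} (hu : u ∈ SC X c) : JK X u ∈ SC X c := by
  change ∀ᵐ q ∂(mu X), _
  have h := JK_ae u
  filter_upwards [hu, h] with q h1 h3
  rw [h3]
  simpa using h1

private theorem SC_mono {c d : ℝ} (h : c ≤ d) {u : KK X} (hu : u ∈ SC X c) : u ∈ SC X d := by
  change ∀ᵐ q ∂(mu X), _
  filter_upwards [hu] with q h1
  exact h1.trans h

private theorem seg (c : ℝ) (u u' : ℝ → KK X)
    (hu : ∀ t ∈ Set.Icc (0:ℝ) 1, HasDerivAt u (u' t) t)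
    (hc : ContinuousOn u' (Set.Icc (0:ℝ) 1)) (hb : ∀ t ∈ Set.Icc (0:ℝ) 1, u' t ∈ SC X c) :
    u 1 - u 0 ∈ SC X c := by
  have hI : IntervalIntegrable u' volume 0 1 := by
    apply ContinuousOn.intervalIntegrable
    rwa [Set.uIcc_of_le zero_le_one]
  have h1 : ∫ t in (0:ℝ)..1, u' t = u 1 - u 0 :=
    intervalIntegral.integral_eq_sub_of_hasDerivAt
      (by rw [Set.uIcc_of_le zero_le_one]; exact hu) hI
  rw [← h1, intervalIntegral.integral_of_le zero_le_one]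
  have : IsProbabilityMeasure (volume.restrict (Set.Ioc (0:ℝ) 1)) := ⟨by simp⟩
  apply (closed_convex_bd (X := X) c).2.integral_mem (closed_convex_bd (X := X) c).1
  · rw [ae_restrict_iff' measurableSet_Ioc]
    exact Filter.Eventually.of_forall fun t ht => hb t ⟨ht.1.le, ht.2⟩
  · exact hI.1

private theorem line_mem {τ δ : ℂ} (hδ : ‖δ‖ ≤ τ.im / 2) {t : ℝ} (ht : t ∈ Set.Icc (0:ℝ) 1) :
    τ.im / 2 ≤ (τ + t * δ).im := by
  have h1 : (τ + t * δ).im = τ.im + t * δ.im := by simp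
  have h2 : |δ.im| ≤ ‖δ‖ := Complex.abs_im_le_norm δ
  have h3 : |t * δ.im| ≤ τ.im / 2 := by
    rw [abs_mul, abs_of_nonneg ht.1]
    calc t * |δ.im| ≤ 1 * |δ.im| := mul_le_mul_of_nonneg_right ht.2 (abs_nonneg _)
      _ ≤ _ := by rw [one_mul]; exact h2.trans hδ
  have := (abs_le.mp h3).1
  rw [h1]; linarith

/-- derivative along a segment of a real differentiable function -/
private theorem line_deriv {E : Type*} [NormedAddCommGroup E] [NormedSpace ℝ E] {f : ℂ → E}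
    {f' : ℂ →L[ℝ] E} {τ δ : ℂ} {t : ℝ} (hf : HasFDerivAt f f' (τ + t * δ)) :
    HasDerivAt (fun s : ℝ => f (τ + s * δ)) (f' δ) t := by
  have h1 : HasDerivAt (fun s : ℝ => τ + (s : ℂ) * δ) δ t := by
    have h := ((Complex.ofRealCLM.hasDerivAt (x := t)).mul_const δ).const_add τ
    simpa using h
  exact hf.comp_hasDerivAt t h1

/-- Lipschitz bound -/
private theorem lip (g : ℂ → KK X) (hg : DifferentiableOn ℂ g HH) (M : ℝ) (hM0 : 0 ≤ M)
    (hM : ∀ τ ∈ HH, ∀ᵐ q ∂(mu X), ‖(g τ : Sq X → ℂ) q‖ ≤ M / τ.im) {τ δ : ℂ} (hτ : τ ∈ HH)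
    (hδ : ‖δ‖ ≤ τ.im / 2) :
    g (τ + δ) - g τ ∈ SC X (‖δ‖ * (32 * M / τ.im ^ 2)) := by
  have hτ' : 0 < τ.im := hτ
  have hd := (mop_hol g hg M hM0 hM).2.2
  have hopen := isOpen_HH'
  have hmem : ∀ t ∈ Set.Icc (0:ℝ) 1, τ + t * δ ∈ HH := fun t ht => by
    have h := line_mem hδ ht
    have h' : 0 < (τ + t * δ).im := by linarith
    exact h'
  have hs := seg (X := X) (‖δ‖ * (32 * M / τ.im ^ 2)) (fun t : ℝ => g (τ + t * δ))
    (fun t : ℝ => δ • deriv g (τ + t * δ)) ?_ ?_ ?_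
  · simpa using hs
  · intro t ht
    have h1 : HasDerivAt g (deriv g (τ + t * δ)) (τ + t * δ) :=
      (hg.differentiableAt (hopen.mem_nhds (hmem t ht))).hasDerivAt
    have h2 := line_deriv (h1.hasFDerivAt.restrictScalars ℝ)
    simpa using h2
  · have h1 : ContinuousOn (deriv g) HH := (hg.deriv hopen).continuousOn
    have h2 : ContinuousOn (fun t : ℝ => deriv g (τ + t * δ)) (Set.Icc (0:ℝ) 1) := by
      apply h1.comp (t := HH) _ (fun t ht => hmem t ht)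
      exact Continuous.continuousOn (by fun_prop)
    exact h2.const_smul δ
  · intro t ht
    apply SC_smul
    have h1 : deriv g (τ + t * δ) ∈ SC X (4 * M / (τ + t * δ).im ^ 2 * 2) := hd _ (hmem t ht)
    refine SC_mono ?_ h1
    have h2 := line_mem hδ ht
    have h3 : (τ.im / 2) ^ 2 ≤ (τ + t * δ).im ^ 2 := by
      apply pow_le_pow_left₀ (by linarith) h2
    have h4 : 4 * M / (τ + t * δ).im ^ 2 ≤ 4 * M / (τ.im / 2) ^ 2 := by
      apply div_le_div_of_nonneg_left (by positivity) (by positivity) h3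
    calc 4 * M / (τ + t * δ).im ^ 2 * 2 ≤ 4 * M / (τ.im / 2) ^ 2 * 2 := by linarith
      _ = 32 * M / τ.im ^ 2 := by field_simp; ring

/-- the adjoint as a real linear map -/
private noncomputable def adjR (X : Type) [Countable X] [MeasurableSpace X] [DiscreteMeasurableSpace X] :
    (KK X →L[ℂ] KK X) →L[ℝ] (KK X →L[ℂ] KK X) :=
  { toFun := fun T => ContinuousLinearMap.adjoint T
    map_add' := fun T S => map_add _ T S
    map_smul' := fun r T => by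
      have h : ∀ S : KK X →L[ℂ] KK X, (r • S : KK X →L[ℂ] KK X) = (r : ℂ) • S :=
        fun S => (algebraMap_smul ℂ r S).symm
      rw [h, map_smulₛₗ, RingHom.id_apply, h, Complex.conj_ofReal]
    cont := (ContinuousLinearMap.adjoint (𝕜 := ℂ) (E := KK X) (F := KK X)).continuous }

private theorem adjR_apply (T : KK X →L[ℂ] KK X) : adjR X T = ContinuousLinearMap.adjoint T := rfl

private theorem mop_adj {b : Sq X → ℂ} {C : ℝ} (hb : Bd b C) :
    Mop (fun q => conj (b q)) = adjR X (Mop b) := by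
  rw [adjR_apply]
  apply ContinuousLinearMap.ext
  intro v
  apply ext_inner_left ℂ
  intro u
  rw [ContinuousLinearMap.adjoint_inner_right, mop_inner hb]

section gen
variable {E : Type*} [NormedAddCommGroup E] [NormedSpace ℂ E] [NormedSpace ℝ E] [IsScalarTower ℝ ℂ E]

/-- the derivative -/
private noncomputable def LL (A B : E) : ℂ →L[ℝ] E :=
  (ContinuousLinearMap.lsmul ℝ ℂ).flip A +
    ((ContinuousLinearMap.lsmul ℝ ℂ).flip B).comp (Complex.conjCLE : ℂ →L[ℝ] ℂ)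

private theorem LL_apply (A B : E) (δ : ℂ) : LL A B δ = δ • A + conj δ • B := by
  simp [LL]

private theorem contDiff_gen (F A B : ℂ → E) (hF : ∀ τ ∈ HH, HasFDerivAt F (LL (A τ) (B τ)) τ)
    (hA : ContDiffOn ℝ (⊤ : ℕ∞) A HH) (hB : ContDiffOn ℝ (⊤ : ℕ∞) B HH) :
    ContDiffOn ℝ (⊤ : ℕ∞) F HH := by
  have hopen := isOpen_HH'
  have hL : ContDiffOn ℝ (⊤ : ℕ∞) (fun τ => LL (A τ) (B τ)) HH := by
    unfold LL
    refine ContDiffOn.add ?_ ?_
    · exact ((ContinuousLinearMap.lsmul ℝ ℂ (E := E)).flip).contDiff.comp_contDiffOn hA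
    · exact (((ContinuousLinearMap.lsmul ℝ ℂ (E := E)).flip).contDiff.comp_contDiffOn hB).clm_comp
        contDiffOn_const
  have : ((⊤ : ℕ∞) : WithTop ℕ∞) = (⊤ : ℕ∞) + 1 := rfl
  rw [this, contDiffOn_succ_iff_fderiv_of_isOpen hopen]
  refine ⟨fun τ hτ => (hF τ hτ).differentiableAt.differentiableWithinAt, by simp, ?_⟩
  exact hL.congr fun τ hτ => (hF τ hτ).fderiv

end gen

private theorem G0_hol {w : X → ℝ} (hH : HolW α β w) :
    DifferentiableOn ℂ (fun τ => GG α β w τ 0) HH := by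
  intro τ hτ
  exact ((PiLp.proj (𝕜 := ℂ) 2 (fun _ : Fin 3 => KK X) 0).differentiableAt.comp_differentiableWithinAt
    τ (hH.G_hol τ hτ))

private theorem sol0_deriv {w : X → ℝ} (hH : HolW α β w) {τ : ℂ} (hτ : τ ∈ HH) :
    HasFDerivAt (fun σ => sol α β w σ 0)
      (((PiLp.proj (𝕜 := ℝ) 2 (fun _ : Fin 3 => KK X) 0)).comp (fderiv ℝ (sol α β w) τ)) τ :=
  (PiLp.proj (𝕜 := ℝ) 2 (fun _ : Fin 3 => KK X) 0).hasFDerivAt.comp τ (hH.s_deriv τ hτ).1

private theorem sol0_deriv_apply {w : X → ℝ} (hH : HolW α β w) {τ : ℂ} (hτ : τ ∈ HH) (δ : ℂ) :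
    (((PiLp.proj (𝕜 := ℝ) 2 (fun _ : Fin 3 => KK X) 0)).comp (fderiv ℝ (sol α β w) τ)) δ =
      δ • GG α β w τ 0 + JK X (δ • GG α β w τ 0) := by
  have h := (hH.s_deriv τ hτ).2 δ
  have h2 : (fderiv ℝ (sol α β w) τ δ) 0 = δ • GG α β w τ 0 + JK X (δ • GG α β w τ 0) := by
    rw [h]; rfl
  exact h2

/-- the remainder -/
private theorem rem {w : X → ℝ} (hH : HolW α β w) (M : ℝ) (hM0 : 0 ≤ M)
    (hM : ∀ τ ∈ HH, ∀ᵐ q ∂(mu X), ‖(GG α β w τ 0 : Sq X → ℂ) q‖ ≤ M / τ.im) {τ δ : ℂ} (hτ : τ ∈ HH)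
    (hδ : ‖δ‖ ≤ τ.im / 2) :
    sol α β w (τ + δ) 0 - sol α β w τ 0 - (δ • GG α β w τ 0 + JK X (δ • GG α β w τ 0)) ∈
      SC X (2 * (32 * M / τ.im ^ 2) * ‖δ‖ ^ 2) := by
  have hτ' : 0 < τ.im := hτ
  have hmem : ∀ t ∈ Set.Icc (0:ℝ) 1, τ + t * δ ∈ HH := fun t ht => by
    have h := line_mem hδ ht
    have h' : 0 < (τ + t * δ).im := by linarith
    exact h'
  set N : KK X := δ • GG α β w τ 0 + JK X (δ • GG α β w τ 0) with hN
  have hs := seg (X := X) (2 * (32 * M / τ.im ^ 2) * ‖δ‖ ^ 2)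
    (fun t : ℝ => sol α β w (τ + t * δ) 0 - t • N)
    (fun t : ℝ => (δ • GG α β w (τ + t * δ) 0 + JK X (δ • GG α β w (τ + t * δ) 0)) - N) ?_ ?_ ?_
  · have h : sol α β w (τ + δ) 0 - sol α β w τ 0 - N =
      (sol α β w (τ + ((1:ℝ):ℂ) * δ) 0 - (1:ℝ) • N) - (sol α β w (τ + ((0:ℝ):ℂ) * δ) 0 - (0:ℝ) • N) := by
      simp only [Complex.ofReal_one, one_mul, Complex.ofReal_zero, zero_mul, add_zero, one_smul,
        zero_smul, sub_zero]
      abel
    rw [h]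
    exact hs
  · intro t ht
    have h2 := line_deriv (sol0_deriv hH (hmem t ht))
    rw [sol0_deriv_apply hH (hmem t ht)] at h2
    have h3 : HasDerivAt (fun s : ℝ => s • N) N t := by
      simpa using (hasDerivAt_id t).smul_const N
    exact h2.sub h3
  · have h1 : ContinuousOn (fun τ => GG α β w τ 0) HH := (G0_hol hH).continuousOn
    have h2 : ContinuousOn (fun t : ℝ => GG α β w (τ + t * δ) 0) (Set.Icc (0:ℝ) 1) :=
      h1.comp (t := HH) (f := fun t : ℝ => τ + t * δ)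
        (Continuous.continuousOn (by fun_prop)) (fun t ht => hmem t ht)
    exact ((h2.const_smul δ).add ((JK X).continuous.comp_continuousOn (h2.const_smul δ))).sub
      continuousOn_const
  · intro t ht
    have hδt : ‖(t : ℂ) * δ‖ ≤ ‖δ‖ := by
      rw [norm_mul, Complex.norm_real, Real.norm_eq_abs, abs_of_nonneg ht.1]
      exact mul_le_of_le_one_left (norm_nonneg _) ht.2
    have h1 := lip (fun τ => GG α β w τ 0) (G0_hol hH) M hM0 hM hτ (hδt.trans hδ)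
    have h1' : GG α β w (τ + t * δ) 0 - GG α β w τ 0 ∈ SC X (‖δ‖ * (32 * M / τ.im ^ 2)) := by
      refine SC_mono ?_ h1
      exact mul_le_mul_of_nonneg_right hδt (by positivity)
    have h2 := SC_smul h1' δ
    have h3 := SC_add h2 (SC_J h2)
    have h4 : (δ • GG α β w (τ + t * δ) 0 + JK X (δ • GG α β w (τ + t * δ) 0)) - N =
      δ • (GG α β w (τ + t * δ) 0 - GG α β w τ 0) +
        JK X (δ • (GG α β w (τ + t * δ) 0 - GG α β w τ 0)) := by
      rw [hN, smul_sub, map_sub]; abel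
    rw [h4]
    refine SC_mono (le_of_eq ?_) h3
    ring

private theorem hasF (hSG : SG α β) {w : X → ℝ} (hw : InW α β w) (hH : HolW α β w) (C : ℝ)
    (hC : ∀ x, |w x| ≤ C) (hC0 : 0 ≤ C) {τ : ℂ} (hτ : τ ∈ HH) :
    HasFDerivAt (fun τ => Mop (FF α β w τ))
      (LL (Mop (GG α β w τ 0 : Sq X → ℂ)) (Mop (fun q => conj ((GG α β w τ 0 : Sq X → ℂ) q)))) τ := by
  have hτ' : 0 < τ.im := hτ
  have hM : ∀ τ ∈ HH, ∀ᵐ q ∂(mu X), ‖(GG α β w τ 0 : Sq X → ℂ) q‖ ≤ 4 * C / τ.im :=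
    fun τ hτ => GG_bound hSG hw hH hC hτ
  have hFB : ∀ τ ∈ HH, Bd (FF α β w τ) C := fun τ hτ =>
    ⟨(FF_meas hSG hw hτ).1, hC0, FF_bound hSG hw hC hτ⟩
  have hGB : ∀ τ ∈ HH, Bd (GG α β w τ 0 : Sq X → ℂ) (4 * C / τ.im) := fun τ hτ =>
    ⟨Lp.aestronglyMeasurable _, by have h' : 0 < τ.im := hτ; positivity, hM τ hτ⟩
  have hconjm : AEStronglyMeasurable (fun q => conj ((GG α β w τ 0 : Sq X → ℂ) q)) (mu X) :=
    Complex.continuous_conj.comp_aestronglyMeasurable (Lp.aestronglyMeasurable _)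
  have hGBc : Bd (fun q => conj ((GG α β w τ 0 : Sq X → ℂ) q)) (4 * C / τ.im) := by
    refine ⟨hconjm, (hGB τ hτ).2.1, ?_⟩
    filter_upwards [hM τ hτ] with q hq
    simpa using hq
  set K : ℝ := 2 * (32 * (4 * C) / τ.im ^ 2) with hK
  have key : ∀ δ : ℂ, ‖δ‖ ≤ τ.im / 2 →
      ‖Mop (FF α β w (τ + δ)) - Mop (FF α β w τ) -
        LL (Mop (GG α β w τ 0 : Sq X → ℂ)) (Mop (fun q => conj ((GG α β w τ 0 : Sq X → ℂ) q))) δ‖ ≤
        K * ‖δ‖ ^ 2 := by
    intro δ hδ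
    have hmem : τ + δ ∈ HH := by
      have h := line_mem (t := 1) hδ ⟨zero_le_one, le_rfl⟩
      have h' : 0 < (τ + δ).im := by
        simp only [Complex.ofReal_one, one_mul] at h
        linarith
      exact h'
    have hr := rem hH (4 * C) (by positivity) hM hτ hδ
    set v := sol α β w (τ + δ) 0 - sol α β w τ 0 - (δ • GG α β w τ 0 + JK X (δ • GG α β w τ 0)) with hv
    -- the function
    have e1 : Bd (fun q => FF α β w (τ + δ) q + (-1) * FF α β w τ q) (C + C) := by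
      refine ⟨(hFB _ hmem).1.add ((hFB _ hτ).1.const_mul _), by positivity, ?_⟩
      filter_upwards [(hFB _ hmem).2.2, (hFB _ hτ).2.2] with q h1 h2
      refine (norm_add_le _ _).trans (add_le_add h1 ?_)
      simpa using h2
    have e2 : Bd (fun q => (-δ) * (GG α β w τ 0 : Sq X → ℂ) q) (‖δ‖ * (4 * C / τ.im)) := by
      refine ⟨(hGB _ hτ).1.const_mul _, mul_nonneg (norm_nonneg _) (hGB _ hτ).2.1, ?_⟩
      filter_upwards [(hGB _ hτ).2.2] with q h1
      rw [norm_mul, norm_neg]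
      exact mul_le_mul_of_nonneg_left h1 (norm_nonneg _)
    have e3 : Bd (fun q => (-conj δ) * conj ((GG α β w τ 0 : Sq X → ℂ) q)) (‖δ‖ * (4 * C / τ.im)) := by
      refine ⟨hGBc.1.const_mul _, mul_nonneg (norm_nonneg _) (hGB _ hτ).2.1, ?_⟩
      filter_upwards [hGBc.2.2] with q h1
      rw [norm_mul, norm_neg, RCLike.norm_conj]
      exact mul_le_mul_of_nonneg_left h1 (norm_nonneg _)
    have e23 : Bd (fun q => (-δ) * (GG α β w τ 0 : Sq X → ℂ) q + (-conj δ) * conj ((GG α β w τ 0 : Sq X → ℂ) q))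
        (‖δ‖ * (4 * C / τ.im) + ‖δ‖ * (4 * C / τ.im)) := by
      refine ⟨e2.1.add e3.1, add_nonneg e2.2.1 e3.2.1, ?_⟩
      filter_upwards [e2.2.2, e3.2.2] with q h1 h2
      exact (norm_add_le _ _).trans (add_le_add h1 h2)
    have m1' : Bd (fun q => (-1 : ℂ) * FF α β w τ q) C := by
      refine ⟨(hFB _ hτ).1.const_mul _, hC0, ?_⟩
      filter_upwards [(hFB _ hτ).2.2] with q h2
      simpa using h2
    have m1 : Mop (fun q => FF α β w (τ + δ) q + (-1) * FF α β w τ q) =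
        Mop (FF α β w (τ + δ)) - Mop (FF α β w τ) := by
      rw [mop_add (hFB _ hmem) m1', mop_smul (hFB _ hτ)]
      rw [neg_one_smul, sub_eq_add_neg]
    have m2 : Mop (fun q => (-δ) * (GG α β w τ 0 : Sq X → ℂ) q + (-conj δ) * conj ((GG α β w τ 0 : Sq X → ℂ) q)) =
        -(LL (Mop (GG α β w τ 0 : Sq X → ℂ)) (Mop (fun q => conj ((GG α β w τ 0 : Sq X → ℂ) q))) δ) := by
      rw [mop_add e2 e3, mop_smul (hGB _ hτ), mop_smul hGBc, LL_apply, neg_smul, neg_smul, neg_add]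
    have m3 : Mop (FF α β w (τ + δ)) - Mop (FF α β w τ) -
        LL (Mop (GG α β w τ 0 : Sq X → ℂ)) (Mop (fun q => conj ((GG α β w τ 0 : Sq X → ℂ) q))) δ =
        Mop (fun q => (FF α β w (τ + δ) q + (-1) * FF α β w τ q) +
          ((-δ) * (GG α β w τ 0 : Sq X → ℂ) q + (-conj δ) * conj ((GG α β w τ 0 : Sq X → ℂ) q))) := by
      rw [mop_add e1 e23, m1, m2, sub_eq_add_neg]
    rw [m3]
    refine mop_norm ⟨e1.1.add e23.1, by positivity, ?_⟩
    have a1 := Lp.coeFn_sub (sol α β w (τ + δ) 0 - sol α β w τ 0) (δ • GG α β w τ 0 + JK X (δ • GG α β w τ 0))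
    have a2 := Lp.coeFn_sub (sol α β w (τ + δ) 0) (sol α β w τ 0)
    have a3 := Lp.coeFn_add (δ • GG α β w τ 0) (JK X (δ • GG α β w τ 0))
    have a4 := Lp.coeFn_smul δ (GG α β w τ 0)
    have a5 := JK_ae (δ • GG α β w τ 0)
    have hr' : ∀ᵐ q ∂(mu X), ‖(v : Sq X → ℂ) q‖ ≤ 2 * (32 * (4 * C) / τ.im ^ 2) * ‖δ‖ ^ 2 := hr
    filter_upwards [hr', a1, a2, a3, a4, a5] with q h0 h1 h2 h3 h4 h5
    refine le_trans (le_of_eq ?_) h0
    congr 1
    rw [hv, h1, Pi.sub_apply, h2, h3, Pi.add_apply, Pi.sub_apply, h5, h4, Pi.smul_apply]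
    simp only [FF, smul_eq_mul, map_mul]
    ring
  rw [hasFDerivAt_iff_isLittleO_nhds_zero]
  have hO : (fun δ : ℂ => Mop (FF α β w (τ + δ)) - Mop (FF α β w τ) -
        LL (Mop (GG α β w τ 0 : Sq X → ℂ)) (Mop (fun q => conj ((GG α β w τ 0 : Sq X → ℂ) q))) δ)
      =O[nhds 0] fun δ : ℂ => ‖δ‖ ^ 2 := by
    apply Asymptotics.IsBigO.of_bound K
    have : Metric.ball (0:ℂ) (τ.im / 2) ∈ nhds (0:ℂ) := Metric.ball_mem_nhds _ (by linarith)
    filter_upwards [this] with δ hδ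
    have h := key δ (by rw [mem_ball_zero_iff] at hδ; exact hδ.le)
    refine h.trans (le_of_eq ?_)
    rw [Real.norm_of_nonneg (by positivity)]
  refine hO.trans_isLittleO ?_
  have h2 : (fun δ : ℂ => ‖δ‖ ^ 2) =o[nhds 0] fun δ : ℂ => ‖δ‖ := by
    have := Asymptotics.isLittleO_pow_pow (𝕜 := ℝ) (m := 1) (n := 2) (by norm_num)
    have h3 := this.comp_tendsto (tendsto_norm_zero (E := ℂ))
    simpa [Function.comp_def] using h3
  exact Asymptotics.IsLittleO.of_norm_right h2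

theorem mop_FF (hSG : SG α β) {w : X → ℝ} (hw : InW α β w) (hH : HolW α β w) :
    ContDiffOn ℝ (⊤ : ℕ∞) (fun τ => Mop (FF α β w τ)) HH ∧
    ∀ τ ∈ HH, ∀ δ : ℂ, fderiv ℝ (fun τ => Mop (FF α β w τ)) τ δ =
      δ • Mop (GG α β w τ 0 : Sq X → ℂ) +
        conj δ • Mop (fun q => conj ((GG α β w τ 0 : Sq X → ℂ) q)) := by
  obtain ⟨C', hC'⟩ := hw.bdd
  set C := |C'| with hCdef
  have hC : ∀ x, |w x| ≤ C := fun x => (hC' x).trans (le_abs_self _)
  have hC0 : 0 ≤ C := abs_nonneg _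
  have hF := fun (τ : ℂ) (hτ : τ ∈ HH) => hasF hSG hw hH C hC hC0 hτ
  have hM : ∀ τ ∈ HH, ∀ᵐ q ∂(mu X), ‖(GG α β w τ 0 : Sq X → ℂ) q‖ ≤ 4 * C / τ.im :=
    fun τ hτ => GG_bound hSG hw hH hC hτ
  have hGB : ∀ τ ∈ HH, Bd (GG α β w τ 0 : Sq X → ℂ) (4 * C / τ.im) := fun τ hτ =>
    ⟨Lp.aestronglyMeasurable _, by have h' : 0 < τ.im := hτ; positivity, hM τ hτ⟩
  have hopen := isOpen_HH'
  constructor
  · have hMG : DifferentiableOn ℂ (fun τ => Mop (GG α β w τ 0 : Sq X → ℂ)) HH :=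
      (mop_hol (fun τ => GG α β w τ 0) (G0_hol hH) (4 * C) (by positivity) hM).1
    have hMGs : ContDiffOn ℝ (⊤ : ℕ∞) (fun τ => Mop (GG α β w τ 0 : Sq X → ℂ)) HH :=
      ((hMG.contDiffOn hopen (n := (⊤ : ℕ∞)))).restrict_scalars ℝ
    have hMGc : ContDiffOn ℝ (⊤ : ℕ∞)
        (fun τ => Mop (fun q => conj ((GG α β w τ 0 : Sq X → ℂ) q))) HH := by
      have h1 : ContDiffOn ℝ (⊤ : ℕ∞) (fun τ => adjR X (Mop (GG α β w τ 0 : Sq X → ℂ))) HH :=
        (adjR X).contDiff.comp_contDiffOn hMGs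
      exact h1.congr fun τ hτ => mop_adj (hGB τ hτ)
    exact contDiff_gen _ _ _ hF hMGs hMGc
  · intro τ hτ δ
    rw [(hF τ hτ).fderiv, LL_apply]

end Pool.Agent.Helper96.OF
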