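import Pool.Agent.Helper96.OF.WZ3
import Pool.Agent.Helper96.OF.FT9

/-!
# OF-WZ4: the wedge ω = h G' - h' G is holomorphic in τ and weakly holomorphic on the surface

`om_hol`: mop_hol (WZ2) for G0, G0' (bounds WZ1) and HolW.h_hol: evaluation of a holomorphic operator family at a holomorphic vector.
`om_weak`: for χ ∈ H1: `⟪om, χ2 - τ̄χ1⟫ = 0`. By density and conjugation it is enough that `∫ om·(χ_y - τ χ_x) = 0` for χ nice FinS (then apply it to conj χ and conjugate).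
 `prod_D` (FT9) with f = χ, g = GG w' τ: u ∈ H1, `u_2 - τ u_1 = χ (G'_2 - τ G'_1) + G'_0 (χ_y - τχ_x) = χ h' + G'_0(χ_y-τχ_x)` (HolW.G_1, G_2). `hh_weq` for h (w) in the form `∫ h (u_2 - τ u_1) = 0` for all u ∈ H1 (apply it to J3 u).
 So `∫ h G'_0 (χ_y-τχ_x) = -∫ h h' χ`; the same with w, w' exchanged; subtract.
-/

set_option autoImplicit false

open MeasureTheory Filter Topology
open scoped ComplexConjugate

namespace Pool.Agent.Helper96.OF

variable {X : Type} [Countable X] [MeasurableSpace X] [DiscreteMeasurableSpace X] {α β : Equiv.Perm X}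

/-- `ω = h G' - h' G` -/
noncomputable def om (α β : Equiv.Perm X) (w w' : X → ℝ) (τ : ℂ) : KK X :=
  Mop (GG α β w' τ 0 : Sq X → ℂ) (hh α β w τ) - Mop (GG α β w τ 0 : Sq X → ℂ) (hh α β w' τ)

private theorem GG_bd (hSG : SG α β) {w : X → ℝ} (hw : InW α β w) (hH : HolW α β w) :
    ∃ M : ℝ, 0 ≤ M ∧ ∀ τ ∈ HH, ∀ᵐ q ∂(mu X), ‖(GG α β w τ 0 : Sq X → ℂ) q‖ ≤ M / τ.im := by
  obtain ⟨C, hC⟩ := hw.bdd
  refine ⟨4 * |C|, by positivity, fun τ hτ => ?_⟩
  exact GG_bound hSG hw hH (C := |C|) (fun x => (hC x).trans (le_abs_self _)) hτ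

private theorem GG_Bd (hSG : SG α β) {w : X → ℝ} (hw : InW α β w) (hH : HolW α β w) {τ : ℂ}
    (hτ : τ ∈ HH) : ∃ C : ℝ, Bd (GG α β w τ 0 : Sq X → ℂ) C := by
  obtain ⟨M, hM, h⟩ := GG_bd hSG hw hH
  have hv : 0 < τ.im := hτ
  exact ⟨M / τ.im, (Lp.aestronglyMeasurable _), by positivity, h τ hτ⟩

omit [Countable X] [DiscreteMeasurableSpace X] in
private theorem GG0_hol {w : X → ℝ} (hH : HolW α β w) :
    DifferentiableOn ℂ (fun τ => (GG α β w τ 0 : KK X)) HH := fun τ hτ =>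
  ((PiLp.proj (𝕜 := ℂ) 2 (fun _ : Fin 3 => KK X) 0).differentiable.differentiableAt).comp_differentiableWithinAt
    τ (hH.G_hol τ hτ)

theorem om_hol (hSG : SG α β) {w w' : X → ℝ} (hw : InW α β w) (hw' : InW α β w')
    (hH : HolW α β w) (hH' : HolW α β w') : DifferentiableOn ℂ (om α β w w') HH := by
  obtain ⟨M, hM, h⟩ := GG_bd hSG hw hH
  obtain ⟨M', hM', h'⟩ := GG_bd hSG hw' hH'
  have h1 := (mop_hol _ (GG0_hol hH) M hM h).1
  have h2 := (mop_hol _ (GG0_hol hH') M' hM' h').1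
  exact (h2.clm_apply hH.h_hol).sub (h1.clm_apply hH'.h_hol)

/-- the product with a nice finitely supported function -/
private theorem core_ae {w w' : X → ℝ} (hH' : HolW α β w') {τ : ℂ} (hτ : τ ∈ HH) {g : X → ℝ × ℝ → ℂ} {c : X → ℂ}
    (hg : Nice α β g c) (hs : FinS g) :
    ∃ u ∈ H1 α β, ∀ᵐ q ∂(mu X),
      conj (((J3 u 2 - conj τ • J3 u 1 : KK X) : Sq X → ℂ) q) * (hh α β w τ : Sq X → ℂ) q =
      fl g q * (hh α β w' τ : Sq X → ℂ) q * (hh α β w τ : Sq X → ℂ) q +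
      (fl (dy g) q - τ * fl (dx g) q) * ((GG α β w' τ 0 : Sq X → ℂ) q * (hh α β w τ : Sq X → ℂ) q) := by
  obtain ⟨u, hu, -, hu1, hu2⟩ := prod_D hg hs (hH'.G_mem τ hτ)
  refine ⟨u, hu, ?_⟩
  have hG1 := hH'.G_1 τ hτ
  have hG2 := hH'.G_2 τ hτ
  rw [hG1] at hu1
  rw [hG2] at hu2
  have e1 := Lp.coeFn_sub (J3 u 2 : KK X) (conj τ • J3 u 1)
  have e2 := Lp.coeFn_smul (conj τ) (J3 u 1 : KK X)
  have e3 : (J3 u 2 : Sq X → ℂ) =ᵐ[mu X] fun x => conj ((u 2 : Sq X → ℂ) x) := JK_ae (u 2)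
  have e4 : (J3 u 1 : Sq X → ℂ) =ᵐ[mu X] fun x => conj ((u 1 : Sq X → ℂ) x) := JK_ae (u 1)
  have e5 := Lp.coeFn_add (hh α β w' τ : KK X) (τ • deriv (hh α β w') τ)
  have e6 := Lp.coeFn_smul τ (deriv (hh α β w') τ : KK X)
  filter_upwards [hu1, hu2, e1, e2, e3, e4, e5, e6] with q q1 q2 q3 q4 q5 q6 q7 q8
  rw [q3]
  simp only [Pi.sub_apply]
  rw [q4]
  simp only [Pi.smul_apply, smul_eq_mul]
  rw [q5, q6, q1, q2, q7]
  simp only [Pi.add_apply]
  rw [q8]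
  simp only [Pi.smul_apply, smul_eq_mul, map_sub, map_mul, Complex.conj_conj]
  ring

omit [Countable X] [DiscreteMeasurableSpace X] in
private theorem integrable_pair (u v : KK X) :
    Integrable (fun q => conj ((u : Sq X → ℂ) q) * (v : Sq X → ℂ) q) (mu X) := by
  have h := L2.integrable_inner (𝕜 := ℂ) u v
  refine h.congr (Eventually.of_forall fun q => ?_)
  simp [RCLike.inner_apply, mul_comm]

private theorem core (hSG : SG α β) {w w' : X → ℝ} (hw : InW α β w) (hw' : InW α β w')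
    (hH : HolW α β w) (hH' : HolW α β w') {τ : ℂ} (hτ : τ ∈ HH) {g : X → ℝ × ℝ → ℂ} {c : X → ℂ}
    (hg : Nice α β g c) (hs : FinS g) :
    ∫ q, (om α β w w' τ : Sq X → ℂ) q * (fl (dy g) q - τ * fl (dx g) q) ∂(mu X) = 0 := by
  obtain ⟨u, hu, hae⟩ := core_ae (w := w) hH' hτ hg hs
  obtain ⟨u', hu', hae'⟩ := core_ae (w := w') hH hτ hg hs
  have k1 : inner ℂ (J3 u 2 - conj τ • J3 u 1) (hh α β w τ) = 0 := hh_weq hSG hw hτ (H1_conj hu)
  have k2 : inner ℂ (J3 u' 2 - conj τ • J3 u' 1) (hh α β w' τ) = 0 := hh_weq hSG hw' hτ (H1_conj hu')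
  rw [inner_KK] at k1 k2
  obtain ⟨C, hC⟩ := GG_Bd hSG hw hH hτ
  obtain ⟨C', hC'⟩ := GG_Bd hSG hw' hH' hτ
  have e1 := mop_ae hC' (hh α β w τ)
  have e2 := mop_ae hC (hh α β w' τ)
  have e3 := Lp.coeFn_sub (Mop (GG α β w' τ 0 : Sq X → ℂ) (hh α β w τ))
    (Mop (GG α β w τ 0 : Sq X → ℂ) (hh α β w' τ))
  have hk : ∫ q, (om α β w w' τ : Sq X → ℂ) q * (fl (dy g) q - τ * fl (dx g) q) ∂(mu X) =
      ∫ q, (conj (((J3 u 2 - conj τ • J3 u 1 : KK X) : Sq X → ℂ) q) * (hh α β w τ : Sq X → ℂ) q -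
        conj (((J3 u' 2 - conj τ • J3 u' 1 : KK X) : Sq X → ℂ) q) * (hh α β w' τ : Sq X → ℂ) q) ∂(mu X) := by
    refine integral_congr_ae ?_
    filter_upwards [hae, hae', e1, e2, e3] with q q1 q2 q3 q4 q5
    rw [q1, q2]
    have q6 : (om α β w w' τ : Sq X → ℂ) q = (GG α β w' τ 0 : Sq X → ℂ) q * (hh α β w τ : Sq X → ℂ) q -
        (GG α β w τ 0 : Sq X → ℂ) q * (hh α β w' τ : Sq X → ℂ) q := by
      unfold om
      rw [q5]
      simp only [Pi.sub_apply]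
      rw [q3, q4]
    rw [q6]
    ring
  rw [hk, integral_sub (integrable_pair _ _) (integrable_pair _ _), k1, k2, sub_zero]

theorem om_weak (hSG : SG α β) {w w' : X → ℝ} (hw : InW α β w) (hw' : InW α β w')
    (hH : HolW α β w) (hH' : HolW α β w') {τ : ℂ} (hτ : τ ∈ HH) {χ : K3 X} (hχ : χ ∈ H1 α β) :
    inner ℂ (om α β w w' τ) (χ 2 - conj τ • χ 1) = 0 := by
  obtain ⟨f, c, hf, hlim⟩ := (mem_H1_iff χ).1 hχ
  have hz : ∀ n, inner ℂ (om α β w w' τ) ((trip (f n)) 2 - conj τ • (trip (f n)) 1) = 0 := by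
    intro n
    obtain ⟨hn, hs⟩ := hf n
    have hnc := nice_conj hn
    have hsc : FinS (fun s p => (starRingEnd ℂ) (f n s p)) := by
      obtain ⟨S, hS⟩ := hs
      exact ⟨S, fun s hs' p hp => by simp [hS s hs' p hp]⟩
    have hc := core hSG hw hw' hH hH' hτ hnc hsc
    rw [inner_KK]
    have hmx : MemLp (fl (dx (f n))) 2 (mu X) := nice_memLp (nice_dx hn) (finS_dx hs).1 2
    have hmy : MemLp (fl (dy (f n))) 2 (mu X) := nice_memLp (nice_dy hn) (finS_dx hs).2 2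
    have t1 : (trip (f n)) 1 = cls (fl (dx (f n))) := rfl
    have t2 : (trip (f n)) 2 = cls (fl (dy (f n))) := rfl
    have e1 := cls_ae hmx
    have e2 := cls_ae hmy
    have e3 := Lp.coeFn_sub (cls (fl (dy (f n)))) (conj τ • cls (fl (dx (f n))))
    have e4 := Lp.coeFn_smul (conj τ) (cls (fl (dx (f n))))
    have e5 : ∀ᵐ q ∂(mu X), fl (dx (fun s p => (starRingEnd ℂ) (f n s p))) q = conj (fl (dx (f n)) q) ∧
        fl (dy (fun s p => (starRingEnd ℂ) (f n s p))) q = conj (fl (dy (f n)) q) :=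
      ae_mu_of _ fun s p hp => dx_conj hn s p (unitSq_subset_Cross hp)
    have hint : ∫ q, conj ((om α β w w' τ : Sq X → ℂ) q) *
        (((trip (f n)) 2 - conj τ • (trip (f n)) 1 : KK X) : Sq X → ℂ) q ∂(mu X) =
        ∫ q, conj ((om α β w w' τ : Sq X → ℂ) q * (fl (dy (fun s p => (starRingEnd ℂ) (f n s p))) q -
          τ * fl (dx (fun s p => (starRingEnd ℂ) (f n s p))) q)) ∂(mu X) := by
      refine integral_congr_ae ?_
      rw [t1, t2]
      filter_upwards [e1, e2, e3, e4, e5] with q q1 q2 q3 q4 q5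
      rw [q3]
      simp only [Pi.sub_apply]
      rw [q4]
      simp only [Pi.smul_apply, smul_eq_mul]
      rw [q1, q2, q5.1, q5.2]
      simp only [map_mul, map_sub, Complex.conj_conj]
    rw [hint, integral_conj, hc, map_zero]
  have hcont : Continuous fun v : K3 X => inner ℂ (om α β w w' τ) (v 2 - conj τ • v 1) := by
    refine Continuous.inner continuous_const ?_
    exact (PiLp.proj (𝕜 := ℂ) 2 (fun _ : Fin 3 => KK X) 2 -
      conj τ • PiLp.proj (𝕜 := ℂ) 2 (fun _ : Fin 3 => KK X) 1).continuous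
  have h1 := (hcont.tendsto χ).comp hlim
  have h2 : Tendsto ((fun v : K3 X => inner ℂ (om α β w w' τ) (v 2 - conj τ • v 1)) ∘ fun n => trip (f n))
      atTop (𝓝 0) := by
    refine tendsto_const_nhds.congr fun n => ?_
    exact (hz n).symm
  exact tendsto_nhds_unique h1 h2

end Pool.Agent.Helper96.OF
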