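import Pool.Agent.Helper96.OF.WZ4

/-!
# OF-WZ5: ∂_τ̄ K = -2v⟪ω, N⟫, N = F h'

`N τ = Mop (FF w τ) (hh w' τ)`, `K = v‖N‖²` (`Kf`, mop_ae). Smoothness: mop_FF (WZ3), HolW.h_hol.
`∂_τ N = Mop(G0) h' + Mop(F) ∂_τh'`, `∂_τ̄ N = Mop(conj G0) h'`. `∂_τ̄ K = (i/2)‖N‖² + v(⟪∂_τN, N⟫ + ⟪N, ∂_τ̄N⟫) = (i/2)‖N‖² + v(2∫FḠ|h'|² + ∫F² h' conj(∂_τh'))`.
`∂_τh' = G'_1`, and `(G'_2 - τ̄G'_1)/(2iv) = ∂_τ h' + h'/(2iv)` (HolW.G_1, G_2). So `v∫F²h'conj(∂_τh') = v∫F²h' conj(delG') - (i/2)‖N‖²`, delG' := (G'_2 - τ̄G'_1)/(2iv).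
`prod` (FT9) twice: `u = F·(F·G') ∈ H1` (F = Φ+ψ real bounded by FF_bound, G'_0 bounded by WZ1, F G'_0 bounded), `(u_2-τ̄u_1)/(2iv) = F² delG' + 2F h G'_0` (as (R-τ̄P)/(2iv) = h). `hh_weq` for h': `⟪u_2 - τ̄u_1, h'⟫ = 0`, i.e.
`∫F² h' conj(delG') = -2∫ F h̄ Ḡ'_0 h'`. Result: `∂_τ̄K = 2v∫Fh'(Ḡ_0h̄' - h̄Ḡ'_0) = -2v∫ F h' conj(ω) = -2v⟪ω,N⟫`.
-/

set_option autoImplicit false

open MeasureTheory
open scoped ComplexConjugate

namespace Pool.Agent.Helper96.OF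

variable {X : Type} [Countable X] [MeasurableSpace X] [DiscreteMeasurableSpace X] {α β : Equiv.Perm X}

/-- `N = F h'` -/
noncomputable def NN (α β : Equiv.Perm X) (w w' : X → ℝ) (τ : ℂ) : KK X :=
  Mop (FF α β w τ) (hh α β w' τ)

private theorem isOpen_HH' : IsOpen HH := isOpen_lt continuous_const Complex.continuous_im

private theorem bd_FF (hSG : SG α β) {w : X → ℝ} (hw : InW α β w) {τ : ℂ} (hτ : τ ∈ HH) :
    ∃ C, Bd (FF α β w τ) C := by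
  obtain ⟨C, hC⟩ := hw.bdd
  refine ⟨max C 0, (FF_meas hSG hw hτ).1, le_max_right _ _, ?_⟩
  filter_upwards [FF_bound hSG hw hC hτ] with q hq using hq.trans (le_max_left _ _)

private theorem bd_GG (hSG : SG α β) {w : X → ℝ} (hw : InW α β w) (hH : HolW α β w) {τ : ℂ}
    (hτ : τ ∈ HH) : ∃ C, Bd (GG α β w τ 0 : Sq X → ℂ) C := by
  obtain ⟨C, hC⟩ := hw.bdd
  refine ⟨max (4 * C / τ.im) 0, Lp.aestronglyMeasurable _, le_max_right _ _, ?_⟩
  filter_upwards [GG_bound hSG hw hH hC hτ] with q hq using hq.trans (le_max_left _ _)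

omit [Countable X] [DiscreteMeasurableSpace X] in
private theorem bd_conj {b : Sq X → ℂ} {C : ℝ} (hb : Bd b C) : Bd (fun q => conj (b q)) C := by
  refine ⟨Complex.continuous_conj.comp_aestronglyMeasurable hb.1, hb.2.1, ?_⟩
  filter_upwards [hb.2.2] with q hq
  rwa [RCLike.norm_conj]

private theorem mop_comm {b b' : Sq X → ℂ} {C C' : ℝ} (hb : Bd b C) (hb' : Bd b' C') (x : KK X) :
    Mop b (Mop b' x) = Mop b' (Mop b x) := by
  apply Lp.ext
  filter_upwards [mop_ae hb (Mop b' x), mop_ae hb' x, mop_ae hb' (Mop b x), mop_ae hb x]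
    with q h1 h2 h3 h4
  rw [h1, h2, h3, h4]
  ring

private theorem mop_FF_sa (hSG : SG α β) {w : X → ℝ} (hw : InW α β w) {τ : ℂ} (hτ : τ ∈ HH)
    (x y : KK X) : inner ℂ (Mop (FF α β w τ) x) y = inner ℂ x (Mop (FF α β w τ) y) := by
  obtain ⟨C, hC⟩ := bd_FF hSG hw hτ
  rw [mop_inner hC]
  have : (fun q => conj (FF α β w τ q)) =ᵐ[mu X] FF α β w τ := by
    filter_upwards [(FF_meas hSG hw hτ).2] with q hq
    exact Complex.conj_eq_iff_im.mpr hq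
  rw [mop_congr this]

theorem Kf_eq (hSG : SG α β) {w w' : X → ℝ} (hw : InW α β w) (hw' : InW α β w') {τ : ℂ} (hτ : τ ∈ HH) :
    Kf α β w w' τ = τ.im * ‖NN α β w w' τ‖ ^ 2 := by
  obtain ⟨C, hC⟩ := bd_FF hSG hw hτ
  unfold Kf
  congr 1
  have h1 : ((‖NN α β w w' τ‖ ^ 2 : ℝ) : ℂ) =
      ((∫ q, ‖(NN α β w w' τ : Sq X → ℂ) q‖ ^ 2 ∂(mu X) : ℝ) : ℂ) := by
    rw [← integral_complex_ofReal]
    have h0 : inner ℂ (NN α β w w' τ) (NN α β w w' τ) = ((‖NN α β w w' τ‖ : ℝ) : ℂ) ^ 2 :=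
      inner_self_eq_norm_sq_to_K _
    push_cast
    rw [← h0, inner_KK]
    refine integral_congr_ae (Filter.Eventually.of_forall fun q => ?_)
    simp only
    rw [← Complex.normSq_eq_conj_mul_self, Complex.normSq_eq_norm_sq]
    push_cast
    rfl
  rw [Complex.ofReal_inj.mp h1]
  refine integral_congr_ae ?_
  filter_upwards [mop_ae hC (hh α β w' τ)] with q hq
  have : (NN α β w w' τ : Sq X → ℂ) q = FF α β w τ q * (hh α β w' τ : Sq X → ℂ) q := hq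
  rw [this, norm_mul, mul_pow]

private theorem NN_deriv (hSG : SG α β) {w w' : X → ℝ} (hw : InW α β w) (hw' : InW α β w')
    (hH : HolW α β w) (hH' : HolW α β w') {τ : ℂ} (hτ : τ ∈ HH) :
    ∃ L : ℂ →L[ℝ] KK X, HasFDerivAt (NN α β w w') L τ ∧ ∀ δ : ℂ, L δ =
      δ • (Mop (GG α β w τ 0 : Sq X → ℂ) (hh α β w' τ) +
        Mop (FF α β w τ) (deriv (hh α β w') τ)) +
      conj δ • Mop (fun q => conj ((GG α β w τ 0 : Sq X → ℂ) q)) (hh α β w' τ) := by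
  obtain ⟨hs, hd⟩ := mop_FF hSG hw hH
  have hHH : HH ∈ nhds τ := isOpen_HH'.mem_nhds hτ
  have h1 : HasFDerivAt (fun τ => Mop (FF α β w τ)) (fderiv ℝ (fun τ => Mop (FF α β w τ)) τ) τ :=
    ((hs.contDiffAt hHH).differentiableAt (by simp)).hasFDerivAt
  have h2 : HasDerivAt (hh α β w') (deriv (hh α β w') τ) τ :=
    ((hH'.h_hol τ hτ).differentiableAt hHH).hasDerivAt
  have h2' : HasFDerivAt (hh α β w')
      ((ContinuousLinearMap.toSpanSingleton ℂ (deriv (hh α β w') τ)).restrictScalars ℝ) τ :=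
    h2.hasFDerivAt.restrictScalars ℝ
  have h3 : HasFDerivAt (fun τ => (Mop (FF α β w τ)).restrictScalars ℝ)
      ((ContinuousLinearMap.restrictScalarsL ℂ (KK X) (KK X) ℝ ℝ).comp
        (fderiv ℝ (fun τ => Mop (FF α β w τ)) τ)) τ :=
    (ContinuousLinearMap.restrictScalarsL ℂ (KK X) (KK X) ℝ ℝ).hasFDerivAt.comp τ h1
  have h4 := h3.clm_apply h2'
  refine ⟨_, h4, fun δ => ?_⟩
  have h5 : ∀ T : KK X →L[ℂ] KK X, ∀ x : KK X,
      ((ContinuousLinearMap.restrictScalarsL ℂ (KK X) (KK X) ℝ ℝ) T) x = T x := fun T x => rfl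
  simp only [add_apply, ContinuousLinearMap.comp_apply,
    ContinuousLinearMap.coe_restrictScalars', ContinuousLinearMap.flip_apply,
    ContinuousLinearMap.toSpanSingleton_apply, h5]
  rw [hd τ hτ δ]
  simp only [add_apply, smul_apply, map_smul, smul_add]
  abel

omit [Countable X] [DiscreteMeasurableSpace X] in
private theorem dz_of {f : ℂ → KK X} {L : ℂ →L[ℝ] KK X} {τ : ℂ} (h : HasFDerivAt f L τ) :
    dz f τ = (1 / 2 : ℂ) • (L 1 - Complex.I • L Complex.I) ∧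
    dzb f τ = (1 / 2 : ℂ) • (L 1 + Complex.I • L Complex.I) := by
  unfold dz dzb
  have := h.fderiv
  constructor
  · erw [this]
    rfl
  · erw [this]
    rfl

theorem NN_smooth (hSG : SG α β) {w w' : X → ℝ} (hw : InW α β w) (hw' : InW α β w')
    (hH : HolW α β w) (hH' : HolW α β w') :
    ContDiffOn ℝ (⊤ : ℕ∞) (NN α β w w') HH ∧ ContDiffOn ℝ (⊤ : ℕ∞) (Kf α β w w') HH ∧
    ∀ τ ∈ HH, dz (NN α β w w') τ = Mop (GG α β w τ 0 : Sq X → ℂ) (hh α β w' τ) +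
        Mop (FF α β w τ) (deriv (hh α β w') τ) ∧
      dzb (NN α β w w') τ = Mop (fun q => conj ((GG α β w τ 0 : Sq X → ℂ) q)) (hh α β w' τ) := by
  obtain ⟨hs, hd⟩ := mop_FF hSG hw hH
  have hN : ContDiffOn ℝ (⊤ : ℕ∞) (NN α β w w') HH := by
    have h1 : ContDiffOn ℝ (⊤ : ℕ∞) (fun τ => (Mop (FF α β w τ)).restrictScalars ℝ) HH :=
      (ContinuousLinearMap.restrictScalarsL ℂ (KK X) (KK X) ℝ ℝ).contDiff.comp_contDiffOn hs
    exact h1.clm_apply (sol_smooth hSG hw').2.1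
  refine ⟨hN, ?_, ?_⟩
  · have h2 : ContDiffOn ℝ (⊤ : ℕ∞) (fun τ : ℂ => τ.im * ‖NN α β w w' τ‖ ^ 2) HH :=
      (Complex.imCLM.contDiff.contDiffOn).mul (hN.norm_sq ℂ)
    exact h2.congr fun τ hτ => Kf_eq hSG hw hw' hτ
  · intro τ hτ
    obtain ⟨L, hL, hLδ⟩ := NN_deriv hSG hw hw' hH hH' hτ
    have e1 : L 1 = (Mop (GG α β w τ 0 : Sq X → ℂ) (hh α β w' τ) +
        Mop (FF α β w τ) (deriv (hh α β w') τ)) +
        Mop (fun q => conj ((GG α β w τ 0 : Sq X → ℂ) q)) (hh α β w' τ) := by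
      rw [hLδ, map_one, one_smul, one_smul]
    have e2 : Complex.I • L Complex.I = -(Mop (GG α β w τ 0 : Sq X → ℂ) (hh α β w' τ) +
        Mop (FF α β w τ) (deriv (hh α β w') τ)) +
        Mop (fun q => conj ((GG α β w τ 0 : Sq X → ℂ) q)) (hh α β w' τ) := by
      rw [hLδ, smul_add, smul_smul, smul_smul, Complex.conj_I, mul_neg, Complex.I_mul_I, neg_neg,
        one_smul, neg_one_smul]
    rw [(dz_of hL).1, (dz_of hL).2, e1, e2]
    generalize Mop (GG α β w τ 0 : Sq X → ℂ) (hh α β w' τ) +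
        Mop (FF α β w τ) (deriv (hh α β w') τ) = a
    generalize Mop (fun q => conj ((GG α β w τ 0 : Sq X → ℂ) q)) (hh α β w' τ) = b
    constructor
    · rw [show a + b - (-a + b) = (2 : ℂ) • a by rw [two_smul]; abel, smul_smul]
      norm_num
    · rw [show a + b + (-a + b) = (2 : ℂ) • b by rw [two_smul]; abel, smul_smul]
      norm_num

private theorem tau_sub_ne {τ : ℂ} (hτ : τ ∈ HH) : τ - conj τ ≠ 0 := by
  intro h
  have h1 : (τ - conj τ).im = 0 := by rw [h]; rfl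
  have h2 : 0 < τ.im := hτ
  simp only [Complex.sub_im, Complex.conj_im, sub_neg_eq_add] at h1
  linarith

/-- the key identity: the weak equation tested with `F²G'` -/
private theorem key_id (hSG : SG α β) {w w' : X → ℝ} (hw : InW α β w) (hw' : InW α β w')
    (hH' : HolW α β w') {τ : ℂ} (hτ : τ ∈ HH) :
    inner ℂ (Mop (FF α β w τ) (deriv (hh α β w') τ + (1 / (τ - conj τ)) • hh α β w' τ))
      (NN α β w w' τ) =
    -2 * inner ℂ (Mop (GG α β w' τ 0 : Sq X → ℂ) (hh α β w τ)) (NN α β w w' τ) := by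
  obtain ⟨CF, hF⟩ := bd_FF hSG hw hτ
  obtain ⟨CG, hG⟩ := bd_GG hSG hw' hH' hτ
  obtain ⟨hsol, hreal, _⟩ := sol_spec hSG hw hτ
  obtain ⟨v, hv, v0, v1, v2⟩ := prod hw hsol.1 hreal CF hF.2.2 (hH'.G_mem τ hτ) CG hG.2.2
  have hv0b : ∀ᵐ q ∂(mu X), ‖(v 0 : Sq X → ℂ) q‖ ≤ CF * CG := by
    filter_upwards [v0, hF.2.2, hG.2.2] with q h1 h2 h3
    rw [h1, norm_mul]
    exact mul_le_mul h2 h3 (norm_nonneg _) hF.2.1
  obtain ⟨u, hu, -, u1, u2⟩ := prod hw hsol.1 hreal CF hF.2.2 hv (CF * CG) hv0b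
  have wk := hh_weq hSG hw' hτ hu
  have hc := tau_sub_ne hτ
  rw [hH'.G_1 τ hτ] at v1
  rw [hH'.G_2 τ hτ] at v2
  obtain ⟨mx, my⟩ := Phi_energy hw
  have hU : u 2 - conj τ • u 1 = (τ - conj τ) • (Mop (FF α β w τ) (Mop (FF α β w τ)
      (deriv (hh α β w') τ + (1 / (τ - conj τ)) • hh α β w' τ)) +
      (2 : ℂ) • Mop (FF α β w τ) (Mop (GG α β w' τ 0 : Sq X → ℂ) (hh α β w τ))) := by
    apply Lp.ext
    have hdef : hh α β w τ = (1 / (τ - conj τ)) • ((ph2 α β w + sol α β w τ 2) -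
      conj τ • (ph1 α β w + sol α β w τ 1)) := rfl
    filter_upwards [u1, u2, v0, v1, v2, cls_ae mx, cls_ae my,
      Lp.coeFn_sub (u 2) (conj τ • u 1), Lp.coeFn_smul (conj τ) (u 1),
      Lp.coeFn_smul (τ - conj τ) (Mop (FF α β w τ) (Mop (FF α β w τ)
      (deriv (hh α β w') τ + (1 / (τ - conj τ)) • hh α β w' τ)) +
      (2 : ℂ) • Mop (FF α β w τ) (Mop (GG α β w' τ 0 : Sq X → ℂ) (hh α β w τ))),
      Lp.coeFn_add (Mop (FF α β w τ) (Mop (FF α β w τ)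
      (deriv (hh α β w') τ + (1 / (τ - conj τ)) • hh α β w' τ)))
      ((2 : ℂ) • Mop (FF α β w τ) (Mop (GG α β w' τ 0 : Sq X → ℂ) (hh α β w τ))),
      Lp.coeFn_smul (2 : ℂ) (Mop (FF α β w τ) (Mop (GG α β w' τ 0 : Sq X → ℂ) (hh α β w τ))),
      mop_ae hF (Mop (FF α β w τ) (deriv (hh α β w') τ + (1 / (τ - conj τ)) • hh α β w' τ)),
      mop_ae hF (deriv (hh α β w') τ + (1 / (τ - conj τ)) • hh α β w' τ),
      mop_ae hF (Mop (GG α β w' τ 0 : Sq X → ℂ) (hh α β w τ)),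
      mop_ae hG (hh α β w τ),
      Lp.coeFn_add (deriv (hh α β w') τ) ((1 / (τ - conj τ)) • hh α β w' τ),
      Lp.coeFn_smul (1 / (τ - conj τ)) (hh α β w' τ),
      Lp.coeFn_add (hh α β w' τ) (τ • deriv (hh α β w') τ),
      Lp.coeFn_smul τ (deriv (hh α β w') τ),
      Lp.coeFn_smul (1 / (τ - conj τ)) ((ph2 α β w + sol α β w τ 2) -
        conj τ • (ph1 α β w + sol α β w τ 1)),
      Lp.coeFn_sub (ph2 α β w + sol α β w τ 2) (conj τ • (ph1 α β w + sol α β w τ 1)),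
      Lp.coeFn_smul (conj τ) (ph1 α β w + sol α β w τ 1),
      Lp.coeFn_add (ph2 α β w) (sol α β w τ 2), Lp.coeFn_add (ph1 α β w) (sol α β w τ 1)]
      with q a1 a2 b0 b1 b2 cx cy d1 d2 d3 d4 d5 d6 d7 d8 d9 d10 d11 d12 d13 d14 d15 d16 d17 d18
    have cx' : (ph1 α β w : Sq X → ℂ) q = fl (dx (Phi α β (toC w))) q := cx
    have cy' : (ph2 α β w : Sq X → ℂ) q = fl (dy (Phi α β (toC w))) q := cy
    have hhq : (hh α β w τ : Sq X → ℂ) q = (1 / (τ - conj τ)) *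
        ((fl (dy (Phi α β (toC w))) q + (sol α β w τ 2 : Sq X → ℂ) q) -
        conj τ * (fl (dx (Phi α β (toC w))) q + (sol α β w τ 1 : Sq X → ℂ) q)) := by
      rw [hdef, d14, Pi.smul_apply, d15, Pi.sub_apply, d16, Pi.smul_apply, d17, d18, Pi.add_apply,
        Pi.add_apply, cx', cy', smul_eq_mul, smul_eq_mul]
    rw [d1, Pi.sub_apply, d2, Pi.smul_apply, d3, Pi.smul_apply, d4, Pi.add_apply, d5, Pi.smul_apply, d6, d7,
      d8, d9, d10, Pi.add_apply, d11, Pi.smul_apply, hhq, a1, a2, b0, b1, b2, d12, Pi.add_apply, d13,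
      Pi.smul_apply]
    simp only [smul_eq_mul]
    change _ = (τ - conj τ) * ((fl (Phi α β (toC w)) q + (sol α β w τ 0 : Sq X → ℂ) q) *
      ((fl (Phi α β (toC w)) q + (sol α β w τ 0 : Sq X → ℂ) q) * _) +
      2 * ((fl (Phi α β (toC w)) q + (sol α β w τ 0 : Sq X → ℂ) q) * _))
    field_simp
    ring
  rw [hU, inner_smul_left, inner_add_left, inner_smul_left, mop_FF_sa hSG hw hτ (Mop (FF α β w τ)
      (deriv (hh α β w') τ + (1 / (τ - conj τ)) • hh α β w' τ)),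
    mop_FF_sa hSG hw hτ (Mop (GG α β w' τ 0 : Sq X → ℂ) (hh α β w τ))] at wk
  have hc' : conj (τ - conj τ) ≠ 0 := (map_ne_zero _).mpr hc
  have h2 : (starRingEnd ℂ) 2 = 2 := Complex.conj_ofNat 2
  rw [h2] at wk
  have := (mul_eq_zero.mp wk).resolve_left hc'
  unfold NN
  linear_combination this

theorem dzb_K (hSG : SG α β) {w w' : X → ℝ} (hw : InW α β w) (hw' : InW α β w')
    (hH : HolW α β w) (hH' : HolW α β w') {τ : ℂ} (hτ : τ ∈ HH) :
    dzb (fun σ => ((Kf α β w w' σ : ℝ) : ℂ)) τ =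
      -2 * (τ.im : ℂ) * inner ℂ (om α β w w' τ) (NN α β w w' τ) := by
  obtain ⟨CF, hF⟩ := bd_FF hSG hw hτ
  obtain ⟨CG, hG⟩ := bd_GG hSG hw hH hτ
  have hHH : HH ∈ nhds τ := isOpen_HH'.mem_nhds hτ
  obtain ⟨L, hL, hLδ⟩ := NN_deriv hSG hw hw' hH hH' hτ
  have key := key_id hSG hw hw' hH' hτ
  -- the function
  have hK : (fun σ => ((Kf α β w w' σ : ℝ) : ℂ)) =ᶠ[nhds τ]
      fun σ => (σ.im : ℂ) * inner ℂ (NN α β w w' σ) (NN α β w w' σ) := by
    filter_upwards [hHH] with σ hσ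
    have h0 : inner ℂ (NN α β w w' σ) (NN α β w w' σ) = ((‖NN α β w w' σ‖ : ℝ) : ℂ) ^ 2 :=
      inner_self_eq_norm_sq_to_K _
    rw [Kf_eq hSG hw hw' hσ, h0]
    push_cast
    rfl
  have hD1 := hL.inner ℂ hL
  have hD2 : HasFDerivAt (fun σ : ℂ => (σ.im : ℂ)) (Complex.ofRealCLM.comp Complex.imCLM) τ :=
    (Complex.ofRealCLM.comp Complex.imCLM).hasFDerivAt
  have hD3 := hD2.mul hD1
  have hD4 : fderiv ℝ (fun σ => ((Kf α β w w' σ : ℝ) : ℂ)) τ = _ := hK.fderiv_eq.trans hD3.fderiv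
  unfold dzb
  rw [hD4]
  simp only [add_apply, smul_apply, ContinuousLinearMap.comp_apply, fderivInnerCLM_apply,
    ContinuousLinearMap.prod_apply, hLδ]
  have hsymm : inner ℂ (NN α β w w' τ)
      (Mop (fun q => conj ((GG α β w τ 0 : Sq X → ℂ) q)) (hh α β w' τ)) =
      inner ℂ (Mop (GG α β w τ 0 : Sq X → ℂ) (hh α β w' τ)) (NN α β w w' τ) := by
    rw [← mop_inner hG]
    unfold NN
    rw [mop_comm hG hF, mop_FF_sa hSG hw hτ]
  have hom : inner ℂ (om α β w w' τ) (NN α β w w' τ) =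
      inner ℂ (Mop (GG α β w' τ 0 : Sq X → ℂ) (hh α β w τ)) (NN α β w w' τ) -
      inner ℂ (Mop (GG α β w τ 0 : Sq X → ℂ) (hh α β w' τ)) (NN α β w w' τ) := by
    unfold om
    rw [inner_sub_left]
  have key' : inner ℂ (Mop (FF α β w τ) (deriv (hh α β w') τ)) (NN α β w w' τ) +
      conj (1 / (τ - conj τ)) * inner ℂ (NN α β w w' τ) (NN α β w w' τ) =
      -2 * inner ℂ (Mop (GG α β w' τ 0 : Sq X → ℂ) (hh α β w τ)) (NN α β w w' τ) := by
    rw [← key, map_add, map_smul, inner_add_left, inner_smul_left]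
    rfl
  have hκ : (τ.im : ℂ) * conj (1 / (τ - conj τ)) = Complex.I / 2 := by
    have hv : (τ.im : ℂ) ≠ 0 := by
      have : 0 < τ.im := hτ
      exact_mod_cast this.ne'
    have h1 : τ - conj τ = 2 * (τ.im : ℂ) * Complex.I := by
      apply Complex.ext <;> simp
      ring
    rw [h1, map_div₀, map_one, map_mul, map_mul, Complex.conj_I, Complex.conj_ofReal,
      Complex.conj_ofNat]
    field_simp
    rw [Complex.I_sq]
  have hI2 : Complex.I ^ 2 = -1 := Complex.I_sq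
  rw [hom]
  have r1 : Complex.ofRealCLM (Complex.imCLM 1) = 0 := by simp
  have r2 : Complex.ofRealCLM (Complex.imCLM Complex.I) = 1 := by simp
  simp only [r1, r2, inner_add_left, inner_add_right, inner_smul_left, inner_smul_right, map_one,
    Complex.conj_I, map_neg, smul_eq_mul, neg_neg]
  linear_combination (τ.im : ℂ) * hsymm + (τ.im : ℂ) * key' -
    inner ℂ (NN α β w w' τ) (NN α β w w' τ) * hκ + (1 / 2) * (τ.im : ℂ) *
    (inner ℂ (NN α β w w' τ) (Mop (GG α β w τ 0 : Sq X → ℂ) (hh α β w' τ)) +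
     inner ℂ (NN α β w w' τ) (Mop (FF α β w τ) (deriv (hh α β w') τ)) -
     inner ℂ (NN α β w w' τ) (Mop (fun q => conj ((GG α β w τ 0 : Sq X → ℂ) q)) (hh α β w' τ)) -
     inner ℂ (Mop (GG α β w τ 0 : Sq X → ℂ) (hh α β w' τ)) (NN α β w w' τ) -
     inner ℂ (Mop (FF α β w τ) (deriv (hh α β w') τ)) (NN α β w w' τ) +
     inner ℂ (Mop (fun q => conj ((GG α β w τ 0 : Sq X → ℂ) q)) (hh α β w' τ)) (NN α β w w' τ)) * hI2

end Pool.Agent.Helper96.OF
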