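import Pool.Agent.Helper96.OF.Defs
import Mathlib.GroupTheory.FreeGroup.Orbit

/-!
# OF-X1: spectral gap of a free group with two different letters

Proof. For a letter `i` let `D i` be the set of `f` whose reduced word does not end with `i^{±1}`. The sets `D i`, `(D i)·i`, `(D i)·i²` are pairwise disjoint
and `D i ∪ D j = univ`. For `f` in `D i`, `η(f)² ≤ (5/4) η(f i^n)² + 5 (η(f i^n) - η(f))²`; adding for `n = 0, 1, 2` and summing over `D i` gives
`3 Σ_{D i} η² ≤ (5/4) Σ η² + 25 Σ (η(f i) - η(f))²`; adding for `i` and `j` gives `Σ η² ≤ 50 (ε_i² + ε_j²)`.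
-/

set_option autoImplicit false

namespace Pool.Agent.Helper96.OF

private lemma x1_gap {G : Type} [Group G] (a : G) (D : Set G) (hD1 : ∀ f ∈ D, f * a ∉ D)
    (hD2 : ∀ f ∈ D, f * a * a ∉ D) (η : G → ℝ) (hη : Summable (fun f => (η f) ^ 2)) :
    3 * ∑' f, D.indicator (fun f => (η f) ^ 2) f ≤
      (5 / 4) * ∑' f, (η f) ^ 2 + 25 * ∑' f, (η (f * a) - η f) ^ 2 := by
  classical
  have hs1 : Summable (fun f => (η (f * a)) ^ 2) :=
    (Equiv.mulRight a).summable_iff.2 hη
  have hs2 : Summable (fun f => (η (f * a * a)) ^ 2) :=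
    (Equiv.mulRight a).summable_iff.2 hs1
  have hd : Summable (fun f => (η (f * a) - η f) ^ 2) := by
    refine Summable.of_nonneg_of_le (fun f => sq_nonneg _) (fun f => ?_) ((hs1.add hη).mul_left 2)
    nlinarith [sq_nonneg (η (f * a) + η f)]
  have hd1 : Summable (fun f => (η (f * a * a) - η (f * a)) ^ 2) :=
    (Equiv.mulRight a).summable_iff.2 hd
  have hdt : ∑' f, (η (f * a * a) - η (f * a)) ^ 2 = ∑' f, (η (f * a) - η f) ^ 2 :=
    (Equiv.mulRight a).tsum_eq (fun f => (η (f * a) - η f) ^ 2)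
  have hi0 : Summable (D.indicator (fun f => (η f) ^ 2)) := hη.indicator D
  have hi1 : Summable (D.indicator (fun f => (η (f * a)) ^ 2)) := hs1.indicator D
  have hi2 : Summable (D.indicator (fun f => (η (f * a * a)) ^ 2)) := hs2.indicator D
  -- pointwise inequality
  have hpt : ∀ f, 3 * D.indicator (fun f => (η f) ^ 2) f ≤
      (5 / 4) * (D.indicator (fun f => (η f) ^ 2) f + D.indicator (fun f => (η (f * a)) ^ 2) f +
        D.indicator (fun f => (η (f * a * a)) ^ 2) f) +
      (15 * (η (f * a) - η f) ^ 2 + 10 * (η (f * a * a) - η (f * a)) ^ 2) := by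
    intro f
    by_cases hf : f ∈ D
    · simp only [Set.indicator_of_mem hf]
      set x := η f
      set y := η (f * a)
      set z := η (f * a * a)
      nlinarith [sq_nonneg (y / 2 - 2 * (y - x)), sq_nonneg (z / 2 - 2 * (z - x)),
        sq_nonneg ((z - y) - (y - x)), sq_nonneg x]
    · simp only [Set.indicator_of_notMem hf]
      nlinarith [sq_nonneg (η (f * a) - η f), sq_nonneg (η (f * a * a) - η (f * a))]
  have hsum : 3 * ∑' f, D.indicator (fun f => (η f) ^ 2) f ≤
      (5 / 4) * (∑' f, D.indicator (fun f => (η f) ^ 2) f +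
        ∑' f, D.indicator (fun f => (η (f * a)) ^ 2) f +
        ∑' f, D.indicator (fun f => (η (f * a * a)) ^ 2) f) +
      (15 * ∑' f, (η (f * a) - η f) ^ 2 + 10 * ∑' f, (η (f * a * a) - η (f * a)) ^ 2) := by
    have h := Summable.tsum_le_tsum hpt (hi0.mul_left 3)
      ((((hi0.add hi1).add hi2).mul_left (5 / 4)).add ((hd.mul_left 15).add (hd1.mul_left 10)))
    rw [tsum_mul_left, Summable.tsum_add (((hi0.add hi1).add hi2).mul_left (5 / 4))
      ((hd.mul_left 15).add (hd1.mul_left 10)), tsum_mul_left,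
      Summable.tsum_add (hi0.add hi1) hi2, Summable.tsum_add hi0 hi1,
      Summable.tsum_add (hd.mul_left 15) (hd1.mul_left 10), tsum_mul_left, tsum_mul_left] at h
    exact h
  -- disjoint translates
  have e1 : ∑' f, D.indicator (fun f => (η (f * a)) ^ 2) f =
      ∑' f, D.indicator (fun f => (η (f * a)) ^ 2) (f * a⁻¹) :=
    ((Equiv.mulRight a⁻¹).tsum_eq (D.indicator (fun f => (η (f * a)) ^ 2))).symm
  have e2 : ∑' f, D.indicator (fun f => (η (f * a * a)) ^ 2) f =
      ∑' f, D.indicator (fun f => (η (f * a * a)) ^ 2) (f * (a⁻¹ * a⁻¹)) :=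
    ((Equiv.mulRight (a⁻¹ * a⁻¹)).tsum_eq (D.indicator (fun f => (η (f * a * a)) ^ 2))).symm
  have hj1 : Summable (fun f => D.indicator (fun f => (η (f * a)) ^ 2) (f * a⁻¹)) :=
    (Equiv.mulRight a⁻¹).summable_iff.2 hi1
  have hj2 : Summable (fun f => D.indicator (fun f => (η (f * a * a)) ^ 2) (f * (a⁻¹ * a⁻¹))) :=
    (Equiv.mulRight (a⁻¹ * a⁻¹)).summable_iff.2 hi2
  have hle : ∑' f, D.indicator (fun f => (η f) ^ 2) f +
        ∑' f, D.indicator (fun f => (η (f * a)) ^ 2) f +
        ∑' f, D.indicator (fun f => (η (f * a * a)) ^ 2) f ≤ ∑' f, (η f) ^ 2 := by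
    rw [e1, e2, ← Summable.tsum_add hi0 hj1, ← Summable.tsum_add (hi0.add hj1) hj2]
    refine Summable.tsum_le_tsum (fun f => ?_) ((hi0.add hj1).add hj2) hη
    have hq := sq_nonneg (η f)
    by_cases h0 : f ∈ D
    · have h1 : f * a⁻¹ ∉ D := fun h => hD1 _ h (by simpa using h0)
      have h2 : f * (a⁻¹ * a⁻¹) ∉ D := fun h => hD2 _ h (by simpa [mul_assoc] using h0)
      rw [Set.indicator_of_mem h0, Set.indicator_of_notMem h1, Set.indicator_of_notMem h2]
      simp
    · by_cases h1 : f * a⁻¹ ∈ D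
      · have h2 : f * (a⁻¹ * a⁻¹) ∉ D := fun h => hD1 _ h (by simpa [mul_assoc] using h1)
        rw [Set.indicator_of_notMem h0, Set.indicator_of_mem h1, Set.indicator_of_notMem h2]
        simp
      · by_cases h2 : f * (a⁻¹ * a⁻¹) ∈ D
        · rw [Set.indicator_of_notMem h0, Set.indicator_of_notMem h1, Set.indicator_of_mem h2]
          simp [mul_assoc]
        · rw [Set.indicator_of_notMem h0, Set.indicator_of_notMem h1, Set.indicator_of_notMem h2]
          simpa using hq
  rw [hdt] at hsum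
  linarith

theorem sgFree {ι : Type} (i j : ι) (hij : i ≠ j) :
    ∃ C : ℝ, 0 < C ∧ ∀ η : FreeGroup ι → ℝ, Summable (fun f => (η f) ^ 2) →
      ∑' f, (η f) ^ 2 ≤ C * (∑' f, (η (f * FreeGroup.of i) - η f) ^ 2 +
        ∑' f, (η (f * FreeGroup.of j) - η f) ^ 2) := by
  classical
  let D : ι → Set (FreeGroup ι) := fun i =>
    {f | f⁻¹ ∉ FreeGroup.startsWith (i, true) ∧ f⁻¹ ∉ FreeGroup.startsWith (i, false)}
  have hinv : ∀ (i : ι) (f : FreeGroup ι), (f * FreeGroup.of i)⁻¹ =
      FreeGroup.mk [(i, false)] * f⁻¹ := by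
    intro i f
    rw [mul_inv_rev]
    rfl
  have hstep : ∀ (i : ι) (f : FreeGroup ι), f⁻¹ ∉ FreeGroup.startsWith (i, true) →
      (f * FreeGroup.of i)⁻¹ ∈ FreeGroup.startsWith (i, false) := by
    intro i f hf
    rw [hinv]
    exact FreeGroup.startsWith_mk_mul (w := (i, false)) _ (by simpa using hf)
  have hdis : ∀ (i : ι) (g : FreeGroup ι), g ∈ FreeGroup.startsWith (i, false) →
      g ∉ FreeGroup.startsWith (i, true) := by
    intro i g hg hg'
    have h1 : (FreeGroup.toWord g)[0]? = some (i, false) := hg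
    have h2 : (FreeGroup.toWord g)[0]? = some (i, true) := hg'
    rw [h1] at h2
    simp at h2
  have hD1 : ∀ i, ∀ f ∈ D i, f * FreeGroup.of i ∉ D i := by
    intro i f hf h
    exact h.2 (hstep i f hf.1)
  have hD2 : ∀ i, ∀ f ∈ D i, f * FreeGroup.of i * FreeGroup.of i ∉ D i := by
    intro i f hf h
    exact h.2 (hstep i _ (hdis i _ (hstep i f hf.1)))
  have hcov : ∀ f, f ∈ D i ∨ f ∈ D j := by
    intro f
    by_contra hcon
    rw [not_or] at hcon
    obtain ⟨h1, h2⟩ := hcon
    have h1' : ∃ b, (FreeGroup.toWord f⁻¹)[0]? = some (i, b) := by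
      by_contra hne
      push Not at hne
      exact h1 ⟨hne true, hne false⟩
    have h2' : ∃ b, (FreeGroup.toWord f⁻¹)[0]? = some (j, b) := by
      by_contra hne
      push Not at hne
      exact h2 ⟨hne true, hne false⟩
    obtain ⟨b, hb⟩ := h1'
    obtain ⟨c, hc⟩ := h2'
    rw [hb] at hc
    simp only [Option.some.injEq, Prod.mk.injEq] at hc
    exact hij hc.1
  refine ⟨50, by norm_num, fun η hη => ?_⟩
  have hi := x1_gap (FreeGroup.of i) (D i) (hD1 i) (hD2 i) η hη
  have hj := x1_gap (FreeGroup.of j) (D j) (hD1 j) (hD2 j) η hη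
  have hsi : Summable ((D i).indicator (fun f => (η f) ^ 2)) := hη.indicator _
  have hsj : Summable ((D j).indicator (fun f => (η f) ^ 2)) := hη.indicator _
  have hS : ∑' f, (η f) ^ 2 ≤ ∑' f, (D i).indicator (fun f => (η f) ^ 2) f +
      ∑' f, (D j).indicator (fun f => (η f) ^ 2) f := by
    rw [← Summable.tsum_add hsi hsj]
    refine Summable.tsum_le_tsum (fun f => ?_) hη (hsi.add hsj)
    have hq := sq_nonneg (η f)
    rcases hcov f with h | h
    · rw [Set.indicator_of_mem h]
      have : 0 ≤ (D j).indicator (fun f => (η f) ^ 2) f :=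
        Set.indicator_nonneg (fun _ _ => sq_nonneg _) f
      linarith
    · rw [Set.indicator_of_mem h (s := D j)]
      have : 0 ≤ (D i).indicator (fun f => (η f) ^ 2) f :=
        Set.indicator_nonneg (fun _ _ => sq_nonneg _) f
      linarith
  linarith

end Pool.Agent.Helper96.OF
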