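import Pool.Agent.Helper96.OF.X0
import Pool.Agent.Helper96.OF.X1

/-!
# OF-X2: spectral gap (discrete Poincaré inequality) on the set of squares

Proof. Choose representatives `x_l` of the finitely many `F`-orbits (`F = FreeGroup ι`). For the letter `i` and each `l` there is `a ∈ A` with `a • x_l = (of i) • x_l`
(transitivity); then `a • (f • x_l) = f • (a • x_l) = (f * of i) • x_l` for all `f` (commuting actions). Put `η_l f = w (f • x_l)`; `f ↦ f • x_l` is injective (free), so
`∑_f (η_l(f*of i) - η_l f)² ≤ ∑_x (w (a•x) - w x)² ≤ C_a (∑_x (w(g•x)-w x)² + ∑_x (w(h•x)-w x)²)` by `diff_closure` (toPerm a is in the closure of toPerm g, toPerm h).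
Apply `sgFree` to each `η_l` and sum over l.
-/

set_option autoImplicit false

namespace Pool.Agent.Helper96.OF

private theorem toPerm_mem {X : Type} [MulAction A X] (g h : A)
    (hgh : Subgroup.closure ({g, h} : Set A) = ⊤) (a : A) :
    (MulAction.toPerm a : Equiv.Perm X) ∈ Subgroup.closure
      ({(MulAction.toPerm g : Equiv.Perm X), MulAction.toPerm h} : Set (Equiv.Perm X)) := by
  have h1 : (MulAction.toPermHom A X) a ∈
      (Subgroup.closure ({g, h} : Set A)).map (MulAction.toPermHom A X) := by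
    refine ⟨a, ?_, rfl⟩
    rw [hgh]
    exact Subgroup.mem_top a
  rw [MonoidHom.map_closure, Set.image_pair] at h1
  exact h1

private theorem summable_diff {X : Type} (w : X → ℝ) (hw : L2s w) (σ : Equiv.Perm X) :
    Summable (fun x => (w (σ x) - w x) ^ 2) := by
  have h1 : Summable (fun x => (w (σ x)) ^ 2) := σ.summable_iff.mpr hw
  refine Summable.of_nonneg_of_le (fun x => sq_nonneg _) (fun x => ?_)
    ((h1.mul_left 2).add (hw.mul_left 2))
  show (w (σ x) - w x) ^ 2 ≤ 2 * (w (σ x)) ^ 2 + 2 * (w x) ^ 2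
  nlinarith [sq_nonneg (w (σ x) + w x)]

theorem sgX {X : Type} [MulAction A X] [MulAction.IsPretransitive A X] {ι : Type}
    [MulAction (FreeGroup ι) X] [SMulCommClass A (FreeGroup ι) X]
    (hfree : ∀ (f : FreeGroup ι) (x : X), f • x = x → f = 1)
    (hfin : Finite (MulAction.orbitRel.Quotient (FreeGroup ι) X))
    (i j : ι) (hij : i ≠ j) (g h : A) (hgh : Subgroup.closure ({g, h} : Set A) = ⊤) :
    SG (MulAction.toPerm g : Equiv.Perm X) (MulAction.toPerm h) := by
  classical
  have : Fintype (MulAction.orbitRel.Quotient (FreeGroup ι) X) := Fintype.ofFinite _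
  obtain ⟨C0, hC0, hsg⟩ := sgFree i j hij
  -- representatives
  let r : MulAction.orbitRel.Quotient (FreeGroup ι) X → X := Quotient.out
  have hinj : ∀ x : X, Function.Injective (fun f : FreeGroup ι => f • x) := by
    intro x f f' hff
    have hff' : f • x = f' • x := hff
    have h1 : (f'⁻¹ * f) • x = x := by
      rw [mul_smul, hff', inv_smul_smul]
    have h2 := hfree _ _ h1
    exact (inv_mul_eq_one.mp h2).symm
  let e0 : (MulAction.orbitRel.Quotient (FreeGroup ι) X) × FreeGroup ι → X :=
    fun p => p.2 • r p.1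
  have he0 : Function.Bijective e0 := by
    constructor
    · rintro ⟨q, f⟩ ⟨q', f'⟩ hqq
      have hqq' : f • r q = f' • r q' := hqq
      have h1 : q = q' := by
        have h2 : (Quotient.mk'' (r q) : MulAction.orbitRel.Quotient (FreeGroup ι) X)
            = Quotient.mk'' (r q') := by
          apply Quotient.sound
          show (MulAction.orbitRel (FreeGroup ι) X) (r q) (r q')
          rw [MulAction.orbitRel_apply]
          refine ⟨f⁻¹ * f', ?_⟩
          show (f⁻¹ * f') • r q' = r q
          rw [mul_smul, ← hqq', inv_smul_smul]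
        have h3 : (Quotient.mk'' (r q) : MulAction.orbitRel.Quotient (FreeGroup ι) X) = q :=
          Quotient.out_eq q
        have h4 : (Quotient.mk'' (r q') : MulAction.orbitRel.Quotient (FreeGroup ι) X) = q' :=
          Quotient.out_eq q'
        rw [h3, h4] at h2
        exact h2
      subst h1
      have h2 := hinj (r q) hqq'
      rw [h2]
    · intro x
      let q : MulAction.orbitRel.Quotient (FreeGroup ι) X := Quotient.mk'' x
      have h1 : (MulAction.orbitRel (FreeGroup ι) X) (r q) x := by
        apply Quotient.exact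
        exact Quotient.out_eq q
      rw [MulAction.orbitRel_apply] at h1
      obtain ⟨f, hf⟩ := h1
      have hf' : f • x = r q := hf
      refine ⟨(q, f⁻¹), ?_⟩
      show f⁻¹ • r q = x
      rw [← hf', inv_smul_smul]
  let e : (MulAction.orbitRel.Quotient (FreeGroup ι) X) × FreeGroup ι ≃ X :=
    Equiv.ofBijective e0 he0
  have hai : ∀ (k : ι) (q : MulAction.orbitRel.Quotient (FreeGroup ι) X),
      ∃ a : A, a • r q = (FreeGroup.of k) • r q := fun k q => MulAction.exists_smul_eq A _ _
  choose a ha using hai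
  have hC : ∀ (k : ι) (q : MulAction.orbitRel.Quotient (FreeGroup ι) X),
      ∃ C : ℝ, 0 ≤ C ∧ ∀ w : X → ℝ,
      Summable (fun x => (w ((MulAction.toPerm g : Equiv.Perm X) x) - w x) ^ 2) →
      Summable (fun x => (w ((MulAction.toPerm h : Equiv.Perm X) x) - w x) ^ 2) →
      Summable (fun x => (w ((MulAction.toPerm (a k q) : Equiv.Perm X) x) - w x) ^ 2) ∧
      ∑' x, (w ((MulAction.toPerm (a k q) : Equiv.Perm X) x) - w x) ^ 2 ≤
        C * (∑' x, (w ((MulAction.toPerm g : Equiv.Perm X) x) - w x) ^ 2 +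
          ∑' x, (w ((MulAction.toPerm h : Equiv.Perm X) x) - w x) ^ 2) := fun k q =>
    diff_closure _ _ _ (toPerm_mem g h hgh (a k q))
  choose C hC1 hC2 using hC
  refine ⟨∑ q, C0 * (C i q + C j q) + 1, ?_, ?_⟩
  · have : 0 ≤ ∑ q, C0 * (C i q + C j q) :=
      Finset.sum_nonneg (fun q _ => mul_nonneg hC0.le (add_nonneg (hC1 i q) (hC1 j q)))
    linarith
  intro w hw
  have hsg1 := summable_diff w hw (MulAction.toPerm g : Equiv.Perm X)
  have hsh1 := summable_diff w hw (MulAction.toPerm h : Equiv.Perm X)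
  set D : ℝ := ∑' x, (w ((MulAction.toPerm g : Equiv.Perm X) x) - w x) ^ 2 +
    ∑' x, (w ((MulAction.toPerm h : Equiv.Perm X) x) - w x) ^ 2 with hD
  have hD0 : 0 ≤ D := add_nonneg (tsum_nonneg fun x => sq_nonneg _)
    (tsum_nonneg fun x => sq_nonneg _)
  -- estimate for one orbit and one letter
  have hletter : ∀ (k : ι) (q : MulAction.orbitRel.Quotient (FreeGroup ι) X),
      ∑' f : FreeGroup ι, (w ((f * FreeGroup.of k) • r q) - w (f • r q)) ^ 2 ≤ C k q * D := by
    intro k q
    obtain ⟨h1, h2⟩ := hC2 k q w hsg1 hsh1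
    have h3 : (fun f : FreeGroup ι => (w ((f * FreeGroup.of k) • r q) - w (f • r q)) ^ 2) =
        (fun x => (w ((MulAction.toPerm (a k q) : Equiv.Perm X) x) - w x) ^ 2) ∘
          (fun f : FreeGroup ι => f • r q) := by
      funext f
      simp only [Function.comp_apply, MulAction.toPerm_apply]
      rw [mul_smul, ← ha k q, ← smul_comm (a k q) f (r q)]
    rw [h3]
    refine le_trans ?_ h2
    exact tsum_comp_le_tsum_of_inj h1 (fun x => sq_nonneg _) (hinj (r q))
  have horb : ∀ q : MulAction.orbitRel.Quotient (FreeGroup ι) X,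
      ∑' f : FreeGroup ι, (w (f • r q)) ^ 2 ≤ C0 * (C i q + C j q) * D := by
    intro q
    have h1 : Summable (fun f : FreeGroup ι => (w (f • r q)) ^ 2) :=
      hw.comp_injective (hinj (r q))
    have h2 := hsg (fun f => w (f • r q)) h1
    refine le_trans h2 ?_
    have h3 := hletter i q
    have h4 := hletter j q
    calc C0 * (∑' f : FreeGroup ι, (w ((f * FreeGroup.of i) • r q) - w (f • r q)) ^ 2 +
        ∑' f : FreeGroup ι, (w ((f * FreeGroup.of j) • r q) - w (f • r q)) ^ 2)
        ≤ C0 * (C i q * D + C j q * D) :=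
          mul_le_mul_of_nonneg_left (add_le_add h3 h4) hC0.le
      _ = C0 * (C i q + C j q) * D := by ring
  have htot : ∑' x, (w x) ^ 2 =
      ∑ q : MulAction.orbitRel.Quotient (FreeGroup ι) X,
        ∑' f : FreeGroup ι, (w (f • r q)) ^ 2 := by
    rw [← e.tsum_eq (fun x => (w x) ^ 2)]
    have h1 : Summable (fun p : (MulAction.orbitRel.Quotient (FreeGroup ι) X) × FreeGroup ι =>
        (w (e p)) ^ 2) := e.summable_iff.mpr hw
    rw [h1.tsum_prod, tsum_fintype]
    rfl
  rw [htot]
  calc ∑ q : MulAction.orbitRel.Quotient (FreeGroup ι) X,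
        ∑' f : FreeGroup ι, (w (f • r q)) ^ 2
      ≤ ∑ q, C0 * (C i q + C j q) * D := Finset.sum_le_sum fun q _ => horb q
    _ = (∑ q, C0 * (C i q + C j q)) * D := by rw [Finset.sum_mul]
    _ ≤ (∑ q, C0 * (C i q + C j q) + 1) * D := by
        apply mul_le_mul_of_nonneg_right _ hD0
        linarith

theorem connX {X : Type} [MulAction A X] [MulAction.IsPretransitive A X]
    (g h : A) (hgh : Subgroup.closure ({g, h} : Set A) = ⊤) :
    Conn (MulAction.toPerm g : Equiv.Perm X) (MulAction.toPerm h) := by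
  intro x y
  obtain ⟨a, ha⟩ := MulAction.exists_smul_eq A x y
  exact ⟨MulAction.toPerm a, toPerm_mem g h hgh a, ha⟩

end Pool.Agent.Helper96.OF
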