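import Pool.Agent.Helper96.OF.Defs

/-!
# OF-X3 (VN): a bounded equivariant operator ℓ²(G)^p → ℓ²(G)^n with n < p is not injective

Proof. `U_g` = shift on both sides (isometries); `T U_g = U_g T`, so also `T* U_g = U_g T*`. Suppose `T` injective. For ε>0 let `S_ε = T*T(T*T+ε)⁻¹` on ℓ²(Fin p × G) and
`R_ε = TT*(TT*+ε)⁻¹` on ℓ²(Fin n × G) (positive, `≤ 1`, commuting with `U_g`). `tr S := ∑_i ⟪S δ_(i,1), δ_(i,1)⟫`.
(1) `S_ε = T*(TT*+ε)⁻¹ T`, and `tr(B A) = tr(A B)` for equivariant `A : ℓ²^p → ℓ²^n`, `B : ℓ²^n → ℓ²^p`: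
 `⟪B A δ_(i,1), δ_(i,1)⟫ = ∑_{(k,g)} ⟪A δ_(i,1), δ_(k,g)⟫ ⟪B δ_(k,g), δ_(i,1)⟫ = ∑_{(k,g)} ⟪B δ_(k,1), δ_(i,g⁻¹)⟫⟪A δ_(i,g⁻¹), δ_(k,1)⟫`; sum over i.
 So `tr S_ε = tr R_ε ≤ n`.
(2) `‖x - S_ε x‖ = ‖ε(T*T+ε)⁻¹x‖ → 0` for x in the closure of range T*T = (ker T)^⊥ = everything (for `x = T*T y` it is `≤ ε‖y‖`, and `‖ε(T*T+ε)⁻¹‖ ≤ 1`).
 So `tr S_ε → p`. Hence `p ≤ n`, contradiction.
-/

set_option autoImplicit false

namespace Pool.Agent.Helper96.OF

namespace X3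

open scoped InnerProductSpace

/-- the space `ℓ²(G)^m` -/
abbrev Hs (G : Type) (m : ℕ) := lp (fun _ : Fin m × G => ℝ) 2

/-- the shift of the index set -/
def sh {G : Type} [Group G] (m : ℕ) (g : G) : (Fin m × G) ≃ (Fin m × G) where
  toFun q := (q.1, g⁻¹ * q.2)
  invFun q := (q.1, g * q.2)
  left_inv q := by simp
  right_inv q := by simp

theorem Ug_mem {G : Type} [Group G] {m : ℕ} (g : G) (x : Hs G m) :
    Memℓp (fun q : Fin m × G => (x (q.1, g⁻¹ * q.2) : ℝ)) 2 := by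
  have h1 := lp.memℓp x
  have h2 : (0:ℝ) < (2 : ENNReal).toReal := by norm_num
  rw [memℓp_gen_iff h2] at h1 ⊢
  exact (sh m g).summable_iff.mpr h1

/-- the shift of a vector -/
noncomputable def Ug {G : Type} [Group G] (m : ℕ) (g : G) (x : Hs G m) : Hs G m :=
  ⟨fun q => x (q.1, g⁻¹ * q.2), Ug_mem g x⟩

theorem Ug_apply {G : Type} [Group G] (m : ℕ) (g : G) (x : Hs G m) (q : Fin m × G) :
    Ug m g x q = x (q.1, g⁻¹ * q.2) := rfl

theorem inner_eq {G : Type} {m : ℕ} (x y : Hs G m) : ⟪x, y⟫_ℝ = ∑' q, x q * y q := by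
  rw [lp.inner_eq_tsum]
  refine tsum_congr fun q => ?_
  simp [mul_comm]

theorem summable_mul' {G : Type} {m : ℕ} (x y : Hs G m) : Summable (fun q => x q * y q) := by
  have h := lp.summable_inner (𝕜 := ℝ) x y
  refine h.congr fun q => ?_
  simp [mul_comm]

theorem Ug_inner {G : Type} [Group G] {m : ℕ} (g : G) (x y : Hs G m) :
    ⟪Ug m g x, Ug m g y⟫_ℝ = ⟪x, y⟫_ℝ := by
  rw [inner_eq, inner_eq]
  exact (sh m g).tsum_eq (fun q => x q * y q)

theorem Ug_inv {G : Type} [Group G] {m : ℕ} (g : G) (x : Hs G m) :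
    Ug m g (Ug m g⁻¹ x) = x := by
  ext q
  rw [Ug_apply, Ug_apply]
  simp

theorem Ug_move {G : Type} [Group G] {m : ℕ} (g : G) (x y : Hs G m) :
    ⟪Ug m g x, y⟫_ℝ = ⟪x, Ug m g⁻¹ y⟫_ℝ := by
  conv_lhs => rw [← Ug_inv g y]
  rw [Ug_inner]

/-- equivariance -/
def Eq' {G : Type} [Group G] {p n : ℕ} (A : Hs G p →L[ℝ] Hs G n) : Prop :=
  ∀ (g : G) (x : Hs G p), A (Ug p g x) = Ug n g (A x)

theorem Eq'.adj {G : Type} [Group G] {p n : ℕ} {A : Hs G p →L[ℝ] Hs G n} (h : Eq' A) :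
    Eq' (ContinuousLinearMap.adjoint A) := by
  intro g x
  refine ext_inner_right ℝ fun u => ?_
  rw [ContinuousLinearMap.adjoint_inner_left, Ug_move, Ug_move, ← h,
    ContinuousLinearMap.adjoint_inner_left]

theorem Eq'.comp {G : Type} [Group G] {p n r : ℕ} {A : Hs G p →L[ℝ] Hs G n}
    {B : Hs G n →L[ℝ] Hs G r} (hA : Eq' A) (hB : Eq' B) : Eq' (B.comp A) := by
  intro g x
  simp only [ContinuousLinearMap.comp_apply]
  rw [hA, hB]

open Classical in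
/-- the basis vectors -/
noncomputable def dl {G : Type} {m : ℕ} (q : Fin m × G) : Hs G m := lp.single 2 q (1:ℝ)

theorem dl_inner {G : Type} {m : ℕ} (q : Fin m × G) (x : Hs G m) : ⟪dl q, x⟫_ℝ = x q := by
  classical
  unfold dl
  rw [lp.inner_single_left]
  simp

theorem dl_inner' {G : Type} {m : ℕ} (q : Fin m × G) (x : Hs G m) : ⟪x, dl q⟫_ℝ = x q := by
  rw [real_inner_comm, dl_inner]

theorem dl_norm {G : Type} {m : ℕ} (q : Fin m × G) : ‖dl q‖ = 1 := by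
  classical
  unfold dl
  rw [lp.norm_single (by norm_num)]
  simp

theorem Ug_dl {G : Type} [Group G] {m : ℕ} (g : G) (i : Fin m) :
    Ug m g (dl (i, (1:G))) = dl (i, g) := by
  refine ext_inner_right ℝ fun u => ?_
  rw [Ug_move, dl_inner, dl_inner, Ug_apply]
  simp

/-- the trace -/
noncomputable def tr {G : Type} [Group G] {m : ℕ} (S : Hs G m →L[ℝ] Hs G m) : ℝ :=
  ∑ i, (S (dl (i, (1:G)))) (i, 1)

theorem coeff {G : Type} [Group G] {p n : ℕ} {A : Hs G p →L[ℝ] Hs G n}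
    {B : Hs G n →L[ℝ] Hs G p} (hB : Eq' B) (i : Fin p) :
    (B (A (dl (i, (1:G))))) (i, 1) =
      ∑ k : Fin n, ∑' g : G, (B (dl (k, (1:G)))) (i, g⁻¹) * (A (dl (i, (1:G)))) (k, g) := by
  have h1 : (B (A (dl (i, (1:G))))) (i, 1) =
      ⟪ContinuousLinearMap.adjoint B (dl (i, (1:G))), A (dl (i, (1:G)))⟫_ℝ := by
    rw [ContinuousLinearMap.adjoint_inner_left, dl_inner]
  have h2 : ∀ (k : Fin n) (g : G), (ContinuousLinearMap.adjoint B (dl (i, (1:G)))) (k, g) =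
      (B (dl (k, (1:G)))) (i, g⁻¹) := by
    intro k g
    rw [← dl_inner (k, g), ContinuousLinearMap.adjoint_inner_right, dl_inner', ← Ug_dl g k, hB,
      Ug_apply]
    simp
  rw [h1, inner_eq, (summable_mul' _ _).tsum_prod, tsum_fintype]
  refine Finset.sum_congr rfl fun k _ => tsum_congr fun g => ?_
  rw [h2]

theorem tr_comm {G : Type} [Group G] {p n : ℕ} {A : Hs G p →L[ℝ] Hs G n}
    {B : Hs G n →L[ℝ] Hs G p} (hA : Eq' A) (hB : Eq' B) : tr (B.comp A) = tr (A.comp B) := by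
  unfold tr
  simp only [ContinuousLinearMap.comp_apply]
  rw [Finset.sum_congr rfl (fun i _ => coeff (A := A) hB i),
    Finset.sum_congr rfl (fun k _ => coeff (A := B) hA k), Finset.sum_comm]
  refine Finset.sum_congr rfl fun k _ => Finset.sum_congr rfl fun i _ => ?_
  rw [← (Equiv.inv G).tsum_eq]
  refine tsum_congr fun g => ?_
  simp [mul_comm]

theorem exists_inv {V : Type*} [NormedAddCommGroup V] [InnerProductSpace ℝ V] [CompleteSpace V]
    (M : V →L[ℝ] V) (ε : ℝ) (hε : 0 < ε) (hM : ∀ x, ε * ‖x‖ ^ 2 ≤ ⟪M x, x⟫_ℝ) :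
    ∃ N : V →L[ℝ] V, (∀ y, M (N y) = y) ∧ (∀ x, N (M x) = x) := by
  let B : V →L[ℝ] V →L[ℝ] ℝ := (innerSL ℝ).comp M
  have hB : IsCoercive B := ⟨ε, hε, fun u => by
    have := hM u
    have h2 : B u u = ⟪M u, u⟫_ℝ := rfl
    rw [h2]; nlinarith [this]⟩
  have h1 : ∀ v, hB.continuousLinearEquivOfBilin v = M v := by
    intro v
    refine ext_inner_right ℝ fun w => ?_
    rw [IsCoercive.continuousLinearEquivOfBilin_apply]
    rfl
  refine ⟨(hB.continuousLinearEquivOfBilin.symm : V →L[ℝ] V), fun y => ?_, fun x => ?_⟩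
  · rw [← h1]
    exact hB.continuousLinearEquivOfBilin.apply_symm_apply y
  · rw [← h1]
    exact hB.continuousLinearEquivOfBilin.symm_apply_apply x

/-- the basic estimate -/
theorem small {V W : Type*} [NormedAddCommGroup V] [InnerProductSpace ℝ V] [CompleteSpace V]
    [NormedAddCommGroup W] [InnerProductSpace ℝ W] [CompleteSpace W]
    (T : V →L[ℝ] W) (ε : ℝ) (hε : 0 < ε) (x z : V)
    (hz : ContinuousLinearMap.adjoint T (T z) + ε • z = ε • x) :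
    ‖z‖ ≤ ‖x‖ ∧ ∀ (w : W) (η : ℝ), ‖x - ContinuousLinearMap.adjoint T w‖ ≤ η →
      ‖z‖ ^ 2 ≤ ε * ‖w‖ ^ 2 / 4 + η * ‖z‖ := by
  have h1 : ‖T z‖ ^ 2 + ε * ‖z‖ ^ 2 = ε * ⟪x, z⟫_ℝ := by
    have h2 : ⟪ContinuousLinearMap.adjoint T (T z) + ε • z, z⟫_ℝ = ⟪ε • x, z⟫_ℝ := by rw [hz]
    rw [inner_add_left, ContinuousLinearMap.adjoint_inner_left, real_inner_self_eq_norm_sq,
      real_inner_smul_left, real_inner_self_eq_norm_sq, real_inner_smul_left] at h2
    exact h2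
  constructor
  · have h3 : ⟪x, z⟫_ℝ ≤ ‖x‖ * ‖z‖ := real_inner_le_norm x z
    have h4 : ε * ‖z‖ ^ 2 ≤ ε * (‖x‖ * ‖z‖) := by
      nlinarith [sq_nonneg (‖T z‖), mul_le_mul_of_nonneg_left h3 hε.le]
    have h5 : ‖z‖ ^ 2 ≤ ‖x‖ * ‖z‖ := le_of_mul_le_mul_left h4 hε
    by_contra hcon
    push Not at hcon
    have h6 : 0 < ‖z‖ := lt_of_le_of_lt (norm_nonneg x) hcon
    nlinarith
  · intro w η hη
    have h3 : ⟪x, z⟫_ℝ = ⟪w, T z⟫_ℝ + ⟪x - ContinuousLinearMap.adjoint T w, z⟫_ℝ := by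
      rw [inner_sub_left, ContinuousLinearMap.adjoint_inner_left]; ring
    have h4 : ⟪w, T z⟫_ℝ ≤ ‖w‖ * ‖T z‖ := real_inner_le_norm _ _
    have h5 : ⟪x - ContinuousLinearMap.adjoint T w, z⟫_ℝ ≤ η * ‖z‖ :=
      (real_inner_le_norm _ _).trans (mul_le_mul_of_nonneg_right hη (norm_nonneg _))
    have h6 : ‖T z‖ ^ 2 + ε * ‖z‖ ^ 2 ≤ ε * (‖w‖ * ‖T z‖ + η * ‖z‖) := by
      rw [h1, h3]
      exact mul_le_mul_of_nonneg_left (add_le_add h4 h5) hε.le
    have h7 : ε * (‖w‖ * ‖T z‖) ≤ ‖T z‖ ^ 2 + ε ^ 2 * ‖w‖ ^ 2 / 4 := by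
      nlinarith [sq_nonneg (‖T z‖ - ε * ‖w‖ / 2)]
    have h8 : ε * ‖z‖ ^ 2 ≤ ε * (ε * ‖w‖ ^ 2 / 4 + η * ‖z‖) := by nlinarith
    exact le_of_mul_le_mul_left h8 hε

end X3

open X3 in
open scoped InnerProductSpace in
theorem vn {G : Type} [Group G] [Countable G] {p n : ℕ} (hpn : n < p)
    (T : lp (fun _ : Fin p × G => ℝ) 2 →L[ℝ] lp (fun _ : Fin n × G => ℝ) 2)
    (heq : ∀ (g : G) (x y : lp (fun _ : Fin p × G => ℝ) 2),
      (∀ i f, y (i, f) = x (i, g⁻¹ * f)) → ∀ i f, T y (i, f) = T x (i, g⁻¹ * f)) :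
    ∃ x, x ≠ 0 ∧ T x = 0 := by
  by_contra hcon
  push Not at hcon
  have hinj : ∀ x, T x = 0 → x = 0 := fun x hx => by
    by_contra h
    exact hcon x h hx
  have hT : Eq' T := by
    intro g x
    ext q
    exact heq g x (Ug p g x) (fun i f => rfl) q.1 q.2
  have hTa : Eq' (ContinuousLinearMap.adjoint T) := hT.adj
  have hp : 0 < p := lt_of_le_of_lt (Nat.zero_le _) hpn
  -- the range of the adjoint is dense
  have hdense : ∀ (x : Hs G p) (η : ℝ), 0 < η →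
      ∃ w, ‖x - ContinuousLinearMap.adjoint T w‖ ≤ η := by
    intro x η hη
    have h1 : (LinearMap.range (ContinuousLinearMap.adjoint T).toLinearMap).topologicalClosure = ⊤ := by
      rw [Submodule.topologicalClosure_eq_top_iff, Submodule.eq_bot_iff]
      intro v hv
      apply hinj
      rw [← inner_self_eq_zero (𝕜 := ℝ), ← ContinuousLinearMap.adjoint_inner_left]
      exact (Submodule.mem_orthogonal _ _).mp hv _ ⟨T v, rfl⟩
    have h2 : x ∈ closure (Set.range (ContinuousLinearMap.adjoint T)) := by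
      have h3 : x ∈ (LinearMap.range (ContinuousLinearMap.adjoint T).toLinearMap).topologicalClosure := by
        rw [h1]; trivial
      exact h3
    obtain ⟨y, ⟨w, rfl⟩, hy⟩ := Metric.mem_closure_iff.mp h2 η hη
    exact ⟨w, by rw [← dist_eq_norm]; exact hy.le⟩
  set η : ℝ := 1 / (4 * (p:ℝ) ^ 2) with hηdef
  have hpR : (0:ℝ) < p := Nat.cast_pos.mpr hp
  have hη : 0 < η := by positivity
  choose w hw using fun i : Fin p => hdense (dl (i, (1:G))) η hη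
  -- choice of ε
  obtain ⟨ε, hε, hεw⟩ : ∃ ε : ℝ, 0 < ε ∧ ∀ i, ε * ‖w i‖ ^ 2 / 4 ≤ η := by
    refine ⟨4 * η / (1 + ∑ i, ‖w i‖ ^ 2), ?_, fun i => ?_⟩
    · have : 0 ≤ ∑ i, ‖w i‖ ^ 2 := Finset.sum_nonneg fun i _ => sq_nonneg _
      positivity
    · have h0 : 0 ≤ ∑ i, ‖w i‖ ^ 2 := Finset.sum_nonneg fun i _ => sq_nonneg _
      have h1 : ‖w i‖ ^ 2 ≤ ∑ i, ‖w i‖ ^ 2 :=
        Finset.single_le_sum (f := fun i => ‖w i‖ ^ 2) (fun i _ => sq_nonneg _) (Finset.mem_univ i)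
      rw [show 4 * η / (1 + ∑ i, ‖w i‖ ^ 2) * ‖w i‖ ^ 2 / 4 =
        η * (‖w i‖ ^ 2 / (1 + ∑ i, ‖w i‖ ^ 2)) by ring]
      have h2 : ‖w i‖ ^ 2 / (1 + ∑ i, ‖w i‖ ^ 2) ≤ 1 := by
        rw [div_le_one (by linarith)]; linarith
      calc η * (‖w i‖ ^ 2 / (1 + ∑ i, ‖w i‖ ^ 2)) ≤ η * 1 := mul_le_mul_of_nonneg_left h2 hη.le
        _ = η := mul_one _
  -- the resolvent
  set M : Hs G n →L[ℝ] Hs G n :=
    T.comp (ContinuousLinearMap.adjoint T) + ε • ContinuousLinearMap.id ℝ (Hs G n) with hMdef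
  have hMapp : ∀ x, M x = T (ContinuousLinearMap.adjoint T x) + ε • x := fun x => by
    simp [hMdef]
  have hMcoer : ∀ x, ε * ‖x‖ ^ 2 ≤ ⟪M x, x⟫_ℝ := by
    intro x
    rw [hMapp, inner_add_left, ← ContinuousLinearMap.adjoint_inner_right,
      real_inner_smul_left, real_inner_self_eq_norm_sq, real_inner_self_eq_norm_sq]
    nlinarith [sq_nonneg ‖ContinuousLinearMap.adjoint T x‖]
  obtain ⟨N, hMN, hNM⟩ := exists_inv M ε hε hMcoer
  have hMe : Eq' M := by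
    intro g x
    rw [hMapp, hMapp, hTa, hT]
    ext q
    simp [Ug_apply]
  have hNe : Eq' N := by
    intro g y
    conv_lhs => rw [← hMN y]
    rw [← hMe, hNM]
  set B : Hs G n →L[ℝ] Hs G p := (ContinuousLinearMap.adjoint T).comp N with hBdef
  have hBe : Eq' B := hNe.comp hTa
  -- trace of `T B` is at most `n`
  have htr1 : tr (T.comp B) ≤ n := by
    unfold tr
    have h1 : ∀ k : Fin n, ((T.comp B) (dl (k, (1:G)))) (k, 1) ≤ 1 := by
      intro k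
      have h2 : (T.comp B) (dl (k, (1:G))) = dl (k, (1:G)) - ε • N (dl (k, (1:G))) := by
        have h3 := hMN (dl (k, (1:G)))
        rw [hMapp] at h3
        simp only [hBdef, ContinuousLinearMap.comp_apply]
        exact eq_sub_of_add_eq h3
      rw [← dl_inner (k, (1:G)), h2, inner_sub_right, real_inner_self_eq_norm_sq, dl_norm,
        real_inner_smul_right]
      have h4 : 0 ≤ ⟪dl (k, (1:G)), N (dl (k, (1:G)))⟫_ℝ := by
        have h5 := hMcoer (N (dl (k, (1:G))))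
        rw [hMN] at h5
        exact le_trans (by positivity) h5
      nlinarith
    calc ∑ k : Fin n, ((T.comp B) (dl (k, (1:G)))) (k, 1) ≤ ∑ _k : Fin n, (1:ℝ) :=
          Finset.sum_le_sum fun k _ => h1 k
      _ = n := by simp
  -- trace of `B T` is bigger than `p - 1`
  have htr2 : (p:ℝ) - 1 < tr (B.comp T) := by
    unfold tr
    have h1 : ∀ i : Fin p, 1 - 3 / (4 * (p:ℝ)) ≤ ((B.comp T) (dl (i, (1:G)))) (i, 1) := by
      intro i
      set z : Hs G p := dl (i, (1:G)) - B (T (dl (i, (1:G)))) with hzdef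
      have hz : ContinuousLinearMap.adjoint T (T z) + ε • z = ε • dl (i, (1:G)) := by
        have h3 := hMN (T (dl (i, (1:G))))
        rw [hMapp] at h3
        have h4 := congrArg (ContinuousLinearMap.adjoint T) h3
        rw [map_add, map_smul] at h4
        rw [hzdef, map_sub, map_sub, smul_sub]
        simp only [hBdef, ContinuousLinearMap.comp_apply]
        rw [← h4]
        abel
      obtain ⟨hz1, hz2⟩ := small T ε hε _ z hz
      have hz3 := hz2 (w i) η (hw i)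
      rw [dl_norm] at hz1
      have hz4 : ‖z‖ ^ 2 ≤ 2 * η := by
        have := hεw i
        have h6 : η * ‖z‖ ≤ η * 1 := mul_le_mul_of_nonneg_left hz1 hη.le
        linarith
      have hz5 : ‖z‖ ≤ 3 / (4 * (p:ℝ)) := by
        refine abs_le_of_sq_le_sq' ?_ (by positivity) |>.2
        calc ‖z‖ ^ 2 ≤ 2 * η := hz4
          _ ≤ (3 / (4 * (p:ℝ))) ^ 2 := by
            rw [hηdef, div_pow, mul_one_div, div_le_div_iff₀ (by positivity) (by positivity)]
            nlinarith [sq_nonneg (p:ℝ)]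
      have h7 : ((B.comp T) (dl (i, (1:G)))) (i, 1) = 1 - ⟪dl (i, (1:G)), z⟫_ℝ := by
        rw [hzdef, inner_sub_right, real_inner_self_eq_norm_sq, dl_norm, dl_inner]
        simp only [ContinuousLinearMap.comp_apply]
        ring
      rw [h7]
      have h8 : ⟪dl (i, (1:G)), z⟫_ℝ ≤ ‖dl (i, (1:G))‖ * ‖z‖ := real_inner_le_norm _ _
      rw [dl_norm, one_mul] at h8
      linarith
    have h2 : ∑ _i : Fin p, (1 - 3 / (4 * (p:ℝ))) ≤
        ∑ i : Fin p, ((B.comp T) (dl (i, (1:G)))) (i, 1) := Finset.sum_le_sum fun i _ => h1 i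
    refine lt_of_lt_of_le ?_ h2
    rw [Finset.sum_const, Finset.card_univ, Fintype.card_fin, nsmul_eq_mul, mul_sub, mul_one]
    have h3 : (p:ℝ) * (3 / (4 * (p:ℝ))) = 3 / 4 := by field_simp
    rw [h3]; linarith
  rw [tr_comm hT hBe] at htr2
  have h9 : (p:ℝ) < n + 1 := by linarith
  have h10 : p < n + 1 := by exact_mod_cast h9
  omega

end Pool.Agent.Helper96.OF
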