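import Pool.Agent.Helper96.OF.X2
import Pool.Agent.Helper96.OF.X3

/-!
# OF-X4 (EX, unbounded): a nontrivial corner function of finite energy
Helper constructions: namespace `X4h` (primitive `uu` of a function on letters, bounded operators `Bd`,
coordinates `exists_coord`, the operator `TT`).
-/

set_option autoImplicit false
namespace Pool.Agent.Helper96.OF
namespace X4h

section X4U
variable {ι : Type}

/-- translation by a letter -/
def stepPerm (b : ι → FreeGroup ι → ℝ) (s : ι) : Equiv.Perm (FreeGroup ι × ℝ) where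
  toFun q := (q.1 * FreeGroup.of s, q.2 + b s q.1)
  invFun q := (q.1 * (FreeGroup.of s)⁻¹, q.2 - b s (q.1 * (FreeGroup.of s)⁻¹))
  left_inv q := by ext <;> simp
  right_inv q := by ext <;> simp

/-- the homomorphism defining the primitive -/
def uhom (b : ι → FreeGroup ι → ℝ) : FreeGroup ι →* Equiv.Perm (FreeGroup ι × ℝ) :=
  FreeGroup.lift (fun s => (stepPerm b s)⁻¹)

/-- the primitive of `b` -/
def uu (b : ι → FreeGroup ι → ℝ) (f : FreeGroup ι) : ℝ := (uhom b f⁻¹ (1, 0)).2

theorem uhom_fst (b : ι → FreeGroup ι → ℝ) (g : FreeGroup ι) (q : FreeGroup ι × ℝ) :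
    (uhom b g q).1 = q.1 * g⁻¹ := by
  induction g using FreeGroup.induction_on generalizing q with
  | C1 => simp
  | of s =>
    simp only [uhom, FreeGroup.lift_apply_of]
    rfl
  | inv_of s _ =>
    simp only [uhom, map_inv, FreeGroup.lift_apply_of, inv_inv]
    rfl
  | mul x y hx hy =>
    rw [map_mul, Equiv.Perm.mul_apply, hx, hy, mul_inv_rev, mul_assoc]

theorem uu_of (b : ι → FreeGroup ι → ℝ) (s : ι) (f : FreeGroup ι) :
    uu b (f * FreeGroup.of s) = uu b f + b s f := by
  have h1 : uhom b (f * FreeGroup.of s)⁻¹ (1, 0) = stepPerm b s (uhom b f⁻¹ (1, 0)) := by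
    rw [mul_inv_rev, map_mul, Equiv.Perm.mul_apply]
    simp [uhom]
  have h2 := uhom_fst b f⁻¹ (1, 0)
  simp only [inv_inv, one_mul] at h2
  unfold uu
  rw [h1]
  change (uhom b f⁻¹ (1, 0)).2 + b s (uhom b f⁻¹ (1, 0)).1 = _
  rw [h2]

theorem uu_one (b : ι → FreeGroup ι → ℝ) : uu b 1 = 0 := by simp [uu]

/-- increments -/
def DD (b : ι → FreeGroup ι → ℝ) (h f : FreeGroup ι) : ℝ := uu b (f * h) - uu b f

theorem DD_one (b : ι → FreeGroup ι → ℝ) (f : FreeGroup ι) : DD b 1 f = 0 := by simp [DD]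

theorem DD_of (b : ι → FreeGroup ι → ℝ) (s : ι) (f : FreeGroup ι) : DD b (FreeGroup.of s) f = b s f := by
  unfold DD; rw [uu_of]; ring

theorem DD_mul (b : ι → FreeGroup ι → ℝ) (h h' f : FreeGroup ι) :
    DD b (h * h') f = DD b h f + DD b h' (f * h) := by
  unfold DD; rw [← mul_assoc]; ring

theorem DD_inv (b : ι → FreeGroup ι → ℝ) (h f : FreeGroup ι) :
    DD b h⁻¹ f = - DD b h (f * h⁻¹) := by
  unfold DD; simp

theorem DD_add (b b' : ι → FreeGroup ι → ℝ) (h : FreeGroup ι) :
    ∀ f, DD (fun s f => b s f + b' s f) h f = DD b h f + DD b' h f := by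
  induction h using FreeGroup.induction_on with
  | C1 => intro f; simp [DD_one]
  | of s => intro f; simp [DD_of]
  | inv_of s hs => intro f; rw [DD_inv, DD_inv, DD_inv, hs]; ring
  | mul x y hx hy => intro f; rw [DD_mul, DD_mul, DD_mul, hx, hy]; ring

theorem DD_smul (r : ℝ) (b : ι → FreeGroup ι → ℝ) (h : FreeGroup ι) :
    ∀ f, DD (fun s f => r * b s f) h f = r * DD b h f := by
  induction h using FreeGroup.induction_on with
  | C1 => intro f; simp [DD_one]
  | of s => intro f; simp [DD_of]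
  | inv_of s hs => intro f; rw [DD_inv, DD_inv, hs]; ring
  | mul x y hx hy => intro f; rw [DD_mul, DD_mul, hx, hy]; ring

theorem DD_left (g : FreeGroup ι) (b : ι → FreeGroup ι → ℝ) (h : FreeGroup ι) :
    ∀ f, DD (fun s f => b s (g * f)) h f = DD b h (g * f) := by
  induction h using FreeGroup.induction_on with
  | C1 => intro f; simp [DD_one]
  | of s => intro f; simp [DD_of]
  | inv_of s hs => intro f; rw [DD_inv, DD_inv, hs, mul_assoc]
  | mul x y hx hy => intro f; rw [DD_mul, DD_mul, hx, hy, mul_assoc]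

end X4U

/-! ### bounded operators on functions -/

/-- `T` maps square summable functions to such functions, boundedly -/
def Bd {α β : Type} (T : (α → ℝ) → β → ℝ) : Prop :=
  ∃ C : ℝ, 0 ≤ C ∧ ∀ x : α → ℝ, (Summable fun a => x a ^ 2) →
    (Summable fun b => T x b ^ 2) ∧ ∑' b, T x b ^ 2 ≤ C * ∑' a, x a ^ 2

theorem Bd.zero {α β : Type} : Bd (fun (_ : α → ℝ) (_ : β) => (0:ℝ)) := by
  refine ⟨0, le_rfl, fun x hx => ⟨?_, ?_⟩⟩
  · simp
  · simp

theorem Bd.comp_inj {α β γ : Type} {T : (α → ℝ) → β → ℝ} (hT : Bd T) (φ : γ → β)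
    (hφ : Function.Injective φ) : Bd (fun x c => T x (φ c)) := by
  obtain ⟨C, hC, h⟩ := hT
  refine ⟨C, hC, fun x hx => ?_⟩
  obtain ⟨h1, h2⟩ := h x hx
  refine ⟨h1.comp_injective hφ, le_trans ?_ h2⟩
  exact tsum_comp_le_tsum_of_inj h1 (fun _ => sq_nonneg _) hφ

theorem Bd.add {α β : Type} {T T' : (α → ℝ) → β → ℝ} (hT : Bd T) (hT' : Bd T') :
    Bd (fun x b => T x b + T' x b) := by
  obtain ⟨C, hC, h⟩ := hT
  obtain ⟨C', hC', h'⟩ := hT'
  refine ⟨2 * C + 2 * C', by positivity, fun x hx => ?_⟩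
  obtain ⟨h1, h2⟩ := h x hx
  obtain ⟨h1', h2'⟩ := h' x hx
  have hs : Summable fun b => 2 * T x b ^ 2 + 2 * T' x b ^ 2 := (h1.mul_left 2).add (h1'.mul_left 2)
  have hle : ∀ b, (T x b + T' x b) ^ 2 ≤ 2 * T x b ^ 2 + 2 * T' x b ^ 2 := by
    intro b; nlinarith [sq_nonneg (T x b - T' x b)]
  have hs2 : Summable fun b => (T x b + T' x b) ^ 2 := Summable.of_nonneg_of_le (fun _ => sq_nonneg _) hle hs
  refine ⟨hs2, le_trans (hs2.tsum_le_tsum hle hs) ?_⟩
  rw [(h1.mul_left 2).tsum_add (h1'.mul_left 2), tsum_mul_left, tsum_mul_left]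
  nlinarith

theorem Bd.neg {α β : Type} {T : (α → ℝ) → β → ℝ} (hT : Bd T) : Bd (fun x b => - T x b) := by
  obtain ⟨C, hC, h⟩ := hT
  refine ⟨C, hC, fun x hx => ?_⟩
  simpa using h x hx

theorem Bd.sub {α β : Type} {T T' : (α → ℝ) → β → ℝ} (hT : Bd T) (hT' : Bd T') :
    Bd (fun x b => T x b - T' x b) := by
  simpa [sub_eq_add_neg] using hT.add hT'.neg

theorem Bd.sum {α β κ : Type} (s : Finset κ) {T : κ → (α → ℝ) → β → ℝ} (hT : ∀ k, Bd (T k)) :
    Bd (fun x b => ∑ k ∈ s, T k x b) := by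
  classical
  induction s using Finset.induction_on with
  | empty => simpa using (Bd.zero : Bd (fun (_ : α → ℝ) (_ : β) => (0:ℝ)))
  | insert k s hk ih =>
    have := (hT k).add ih
    simpa [Finset.sum_insert hk] using this

theorem Bd.proj {α β : Type} (φ : β → α) (hφ : Function.Injective φ) :
    Bd (fun (x : α → ℝ) b => x (φ b)) := by
  refine ⟨1, zero_le_one, fun x hx => ⟨hx.comp_injective hφ, ?_⟩⟩
  rw [one_mul]
  exact tsum_comp_le_tsum_of_inj hx (fun _ => sq_nonneg _) hφ

theorem Bd.prod {α G : Type} {n : ℕ} {T : (α → ℝ) → Fin n × G → ℝ} (h : ∀ j, Bd (fun x f => T x (j, f))) :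
    Bd T := by
  choose C hC hh using h
  refine ⟨∑ j, C j, Finset.sum_nonneg fun j _ => hC j, fun x hx => ?_⟩
  have hs : Summable fun b => T x b ^ 2 := by
    rw [summable_prod_of_nonneg (fun _ => sq_nonneg _)]
    exact ⟨fun j => (hh j x hx).1, Summable.of_finite⟩
  refine ⟨hs, ?_⟩
  rw [hs.tsum_prod, tsum_fintype, Finset.sum_mul]
  exact Finset.sum_le_sum fun j _ => (hh j x hx).2

theorem Bd.toCLM {α β : Type} {T : (α → ℝ) → β → ℝ} (hT : Bd T)
    (hadd : ∀ x y, T (fun a => x a + y a) = fun b => T x b + T y b)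
    (hsmul : ∀ (r : ℝ) x, T (fun a => r * x a) = fun b => r * T x b) :
    ∃ L : lp (fun _ : α => ℝ) 2 →L[ℝ] lp (fun _ : β => ℝ) 2, ∀ x b, L x b = T x b := by
  obtain ⟨C, hC, h⟩ := hT
  have h2 : (0:ℝ) < (2 : ENNReal).toReal := by simp
  have key : ∀ (γ : Type) (x : lp (fun _ : γ => ℝ) 2), Summable fun a => x a ^ 2 := by
    intro γ x
    have := (memℓp_gen_iff h2).1 (lp.memℓp x)
    simpa using this
  have hn : ∀ (γ : Type) (x : lp (fun _ : γ => ℝ) 2), ‖x‖ ^ 2 = ∑' a, x a ^ 2 := by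
    intro γ x
    have := lp.norm_rpow_eq_tsum h2 x
    simpa using this
  have hm : ∀ x : lp (fun _ : α => ℝ) 2, Memℓp (T x) (2 : ENNReal) := by
    intro x
    rw [memℓp_gen_iff h2]
    simpa using (h x (key α x)).1
  let L0 : lp (fun _ : α => ℝ) 2 →ₗ[ℝ] lp (fun _ : β => ℝ) 2 :=
    { toFun := fun x => ⟨T x, hm x⟩
      map_add' := by
        intro x y
        apply lp.ext
        exact hadd x y
      map_smul' := by
        intro r x
        apply lp.ext
        exact hsmul r x }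
  refine ⟨L0.mkContinuous (Real.sqrt C) ?_, fun x b => rfl⟩
  intro x
  have h3 := (h x (key α x)).2
  have h4 : ‖L0 x‖ ^ 2 ≤ C * ‖x‖ ^ 2 := by
    rw [hn, hn]; exact h3
  have h5 : ‖L0 x‖ ^ 2 ≤ (Real.sqrt C * ‖x‖) ^ 2 := by
    rw [mul_pow, Real.sq_sqrt hC]; exact h4
  exact (sq_le_sq₀ (norm_nonneg _) (by positivity)).1 h5


open Pointwise

section X4C
variable {X F : Type} [MulAction A X] [Group F] [MulAction F X] [SMulCommClass A F X]

/-- points in finite corners -/
def Xf (X : Type) [MulAction A X] : Set X := {x | ∃ n : ℕ, 0 < n ∧ gz ^ n • x = x}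

/-- the corner of a point if finite, otherwise the point -/
def cor (x : X) : Set X := {y | y = x ∨ (x ∈ Xf X ∧ ∃ j : ℤ, y = gz ^ j • x)}

theorem Xf_smul (f : F) (x : X) : f • x ∈ Xf X ↔ x ∈ Xf X := by
  constructor
  · rintro ⟨n, hn, h⟩
    refine ⟨n, hn, ?_⟩
    rw [smul_comm] at h
    exact MulAction.injective f h
  · rintro ⟨n, hn, h⟩
    exact ⟨n, hn, by rw [smul_comm, h]⟩

theorem Xf_gz (x : X) : gz • x ∈ Xf X ↔ x ∈ Xf X := by
  constructor
  · rintro ⟨n, hn, h⟩
    refine ⟨n, hn, ?_⟩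
    rw [← mul_smul, (Commute.pow_self gz n).eq, mul_smul] at h
    exact MulAction.injective gz h
  · rintro ⟨n, hn, h⟩
    refine ⟨n, hn, ?_⟩
    rw [← mul_smul, (Commute.pow_self gz n).eq, mul_smul, h]

theorem cor_smul (f : F) (x : X) : cor (f • x) = f • cor x := by
  ext y
  rw [Set.mem_smul_set_iff_inv_smul_mem]
  change (y = f • x ∨ (f • x ∈ Xf X ∧ ∃ j : ℤ, y = gz ^ j • f • x)) ↔
    (f⁻¹ • y = x ∨ (x ∈ Xf X ∧ ∃ j : ℤ, f⁻¹ • y = gz ^ j • x))
  rw [Xf_smul]
  simp only [inv_smul_eq_iff]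
  have : ∀ j : ℤ, gz ^ j • f • x = f • gz ^ j • x := fun j => smul_comm _ _ _
  simp only [this]

theorem cor_gz {x : X} (hx : x ∈ Xf X) : cor (gz • x) = cor x := by
  ext y
  change (y = gz • x ∨ (gz • x ∈ Xf X ∧ ∃ j : ℤ, y = gz ^ j • gz • x)) ↔
    (y = x ∨ (x ∈ Xf X ∧ ∃ j : ℤ, y = gz ^ j • x))
  rw [Xf_gz]
  simp only [hx, true_and]
  constructor
  · rintro (h | ⟨j, h⟩)
    · exact Or.inr ⟨1, by simpa using h⟩
    · exact Or.inr ⟨j + 1, by rw [h, ← mul_smul, ← zpow_add_one]⟩
  · rintro (h | ⟨j, h⟩)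
    · exact Or.inr ⟨-1, by rw [h]; simp⟩
    · refine Or.inr ⟨j - 1, ?_⟩
      rw [h, ← mul_smul, ← zpow_add_one]
      simp

theorem cor_free [IsMulTorsionFree F] (hfree : ∀ (f : F) (x : X), f • x = x → f = 1)
    (f : F) (x : X) (h : f • cor x = cor x) : f = 1 := by
  have h1 : f • x ∈ cor x := by
    rw [← h, ← cor_smul]
    exact Or.inl rfl
  rcases h1 with h1 | ⟨⟨n, hn, hx⟩, j, h1⟩
  · exact hfree f x h1
  · have h2 : ∀ m : ℕ, f ^ m • x = gz ^ (j * m) • x := by
      intro m
      induction m with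
      | zero => simp
      | succ m ih =>
        rw [pow_succ, mul_smul, h1, ← smul_comm, ih, ← mul_smul, ← zpow_add]
        congr 2
        push_cast; ring
    have h3 : gz ^ (j * (n : ℤ)) • x = x := by
      have : ∀ k : ℤ, gz ^ ((n : ℤ) * k) • x = x := by
        intro k
        have hst : gz ^ (n : ℤ) ∈ MulAction.stabilizer A x := by
          rw [MulAction.mem_stabilizer_iff, zpow_natCast]; exact hx
        have := Subgroup.zpow_mem _ hst k
        rw [← zpow_mul] at this
        exact this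
      rw [mul_comm]; exact this j
    have h4 : f ^ n = 1 := hfree _ x (by rw [h2, h3])
    exact (pow_eq_one_iff_left hn.ne').1 h4

theorem exists_coord [IsMulTorsionFree F] (hfree : ∀ (f : F) (x : X), f • x = x → f = 1) :
    ∃ φ : X → F, (∀ (f : F) (x : X), φ (f • x) = f * φ x) ∧ ∀ x ∈ Xf X, φ (gz • x) = φ x := by
  classical
  let S0 : X → Set X := fun x => (Quotient.mk (MulAction.orbitRel F (Set X)) (cor x)).out
  have hS : ∀ x, ∃ f : F, cor x = f • S0 x := by
    intro x
    have h := Quotient.mk_out (s := MulAction.orbitRel F (Set X)) (cor x)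
    change (MulAction.orbitRel F (Set X)) (S0 x) (cor x) at h
    rw [MulAction.orbitRel_apply] at h
    obtain ⟨g, hg⟩ := h
    refine ⟨g⁻¹, ?_⟩
    rw [← hg]
    change cor x = g⁻¹ • g • cor x
    rw [inv_smul_smul]
  choose φ hφ using hS
  have huniq : ∀ x (f f' : F), f • S0 x = f' • S0 x → f = f' := by
    intro x f f' h
    have h1 : S0 x = (φ x)⁻¹ • cor x := by rw [hφ x, inv_smul_smul]
    rw [h1, ← cor_smul] at h
    have h2 : (f'⁻¹ * f) • cor ((φ x)⁻¹ • x) = cor ((φ x)⁻¹ • x) := by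
      rw [mul_smul, h, inv_smul_smul]
    have h3 := cor_free hfree _ _ h2
    exact (inv_mul_eq_one.1 h3).symm
  have hS1 : ∀ (f : F) x, S0 (f • x) = S0 x := by
    intro f x
    have : Quotient.mk (MulAction.orbitRel F (Set X)) (cor (f • x)) =
        Quotient.mk (MulAction.orbitRel F (Set X)) (cor x) := by
      apply Quotient.sound
      change (MulAction.orbitRel F (Set X)) _ _
      rw [MulAction.orbitRel_apply, cor_smul]
      exact ⟨f, rfl⟩
    simp only [S0, this]
  refine ⟨φ, ?_, ?_⟩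
  · intro f x
    apply huniq x
    have h1 := hφ (f • x)
    rw [hS1] at h1
    rw [← h1, cor_smul, mul_smul, ← hφ]
  · intro x hx
    apply huniq x
    have h1 := hφ (gz • x)
    have h2 : S0 (gz • x) = S0 x := by simp only [S0, cor_gz hx]
    rw [h2, cor_gz hx] at h1
    rw [← h1, hφ]

end X4C

section X4M
open MulAction
variable {X : Type} [MulAction A X] {ι : Type} [MulAction (FreeGroup ι) X] [SMulCommClass A (FreeGroup ι) X]

/-- the quotient by the free group -/
abbrev YY (X ι : Type) [MulAction (FreeGroup ι) X] : Type := MulAction.orbitRel.Quotient (FreeGroup ι) X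

/-- class of a point -/
def cl (ι : Type) [MulAction (FreeGroup ι) X] (x : X) : YY X ι := Quotient.mk (MulAction.orbitRel (FreeGroup ι) X) x

/-- action on classes -/
noncomputable def ay (g : A) (y : YY X ι) : YY X ι := cl ι (g • y.out)

/-- the cocycle -/
noncomputable def Hc (φ : X → FreeGroup ι) (g : A) (y : YY X ι) : FreeGroup ι := (φ y.out)⁻¹ * φ (g • y.out)

omit [MulAction A X] [SMulCommClass A (FreeGroup ι) X] in
theorem cl_smul (f : FreeGroup ι) (x : X) : cl ι (f • x) = cl ι x := by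
  apply Quotient.sound
  change (MulAction.orbitRel _ _) _ _
  rw [MulAction.orbitRel_apply]
  exact ⟨f, rfl⟩

omit [MulAction A X] [SMulCommClass A (FreeGroup ι) X] in
theorem exists_out (x : X) : ∃ f : FreeGroup ι, x = f • (cl ι x).out := by
  have h := Quotient.mk_out (s := MulAction.orbitRel (FreeGroup ι) X) x
  change (MulAction.orbitRel (FreeGroup ι) X) ((cl ι x).out) x at h
  rw [MulAction.orbitRel_apply] at h
  obtain ⟨g, hg⟩ := h
  refine ⟨g⁻¹, ?_⟩
  rw [← hg]
  change x = g⁻¹ • g • x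
  rw [inv_smul_smul]

omit [MulAction A X] [SMulCommClass A (FreeGroup ι) X] in
theorem cl_out (y : YY X ι) : cl ι y.out = y := Quotient.out_eq _

theorem cl_smulA (g : A) (x : X) : cl ι (g • x) = ay g (cl ι x) := by
  obtain ⟨f, hf⟩ := exists_out (ι := ι) x
  unfold ay
  conv_lhs => rw [hf, smul_comm]
  rw [cl_smul]

theorem phi_smulA (φ : X → FreeGroup ι) (hφ : ∀ (f : FreeGroup ι) (x : X), φ (f • x) = f * φ x)
    (g : A) (x : X) : φ (g • x) = φ x * Hc φ g (cl ι x) := by
  obtain ⟨f, hf⟩ := exists_out (ι := ι) x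
  unfold Hc
  have h1 : φ (g • x) = f * φ (g • (cl ι x).out) := by
    conv_lhs => rw [hf, smul_comm]
    rw [hφ]
  have h2 : φ x = f * φ (cl ι x).out := by
    conv_lhs => rw [hf]
    rw [hφ]
  rw [h1, h2]
  group

/-- classes in infinite corners -/
abbrev II (X ι : Type) [MulAction A X] [MulAction (FreeGroup ι) X] : Type := {y : YY X ι // y.out ∉ Xf X}

/-- the `ξ` part -/
noncomputable def xio (x : (ι ⊕ II X ι) × FreeGroup ι → ℝ) (y : YY X ι) (f : FreeGroup ι) : ℝ :=
  open Classical in if h : y.out ∉ Xf X then x (Sum.inr ⟨y, h⟩, f) else 0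

/-- the `b` part -/
def bo (x : (ι ⊕ II X ι) × FreeGroup ι → ℝ) (s : ι) (f : FreeGroup ι) : ℝ := x (Sum.inl s, f)

/-- the operator -/
noncomputable def TT [Fintype ι] [Fintype (II X ι)] (φ : X → FreeGroup ι)
    (x : (ι ⊕ II X ι) × FreeGroup ι → ℝ) : Option (II X ι) → FreeGroup ι → ℝ
  | some y, f => DD (bo x) (Hc φ gz y.1) f - xio x (ay gz y.1) (f * Hc φ gz y.1) + xio x y.1 f
  | none, f => ∑ s, (x (Sum.inl s, f * (FreeGroup.of s)⁻¹) - x (Sum.inl s, f)) + ∑ y, x (Sum.inr y, f)

omit [SMulCommClass A (FreeGroup ι) X] [MulAction A X] [MulAction (FreeGroup ι) X] in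
theorem Bd_DD {α : Type} (ψ : ι → FreeGroup ι → α) (hψ : ∀ s, Function.Injective (ψ s)) (h : FreeGroup ι) :
    Bd (fun (x : α → ℝ) f => DD (fun s f => x (ψ s f)) h f) := by
  induction h using FreeGroup.induction_on with
  | C1 => simpa [DD_one] using (Bd.zero : Bd (fun (_ : α → ℝ) (_ : FreeGroup ι) => (0:ℝ)))
  | of s => simpa [DD_of] using Bd.proj (ψ s) (hψ s)
  | inv_of s hs =>
    have := (hs.comp_inj (fun f => f * (FreeGroup.of s)⁻¹) (mul_left_injective _)).neg
    simpa only [DD_inv] using this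
  | mul x y hx hy =>
    have := hx.add (hy.comp_inj (fun f => f * x) (mul_left_injective _))
    simpa only [DD_mul] using this

/-- the transported operator -/
noncomputable def T0 [Fintype ι] [Fintype (II X ι)] (φ : X → FreeGroup ι) {p n : ℕ}
    (e : ι ⊕ II X ι ≃ Fin p) (e' : Option (II X ι) ≃ Fin n)
    (x : Fin p × FreeGroup ι → ℝ) (q : Fin n × FreeGroup ι) : ℝ :=
  TT φ (fun r => x (e r.1, r.2)) (e'.symm q.1) q.2

omit [SMulCommClass A (FreeGroup ι) X] in
theorem Bd_xio {p : ℕ} (e : ι ⊕ II X ι ≃ Fin p) (y : YY X ι) :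
    Bd (fun (x : Fin p × FreeGroup ι → ℝ) f => xio (fun r => x (e r.1, r.2)) y f) := by
  unfold xio
  by_cases h : y.out ∉ Xf X
  · simp only [dif_pos h]
    exact Bd.proj (fun f => (e (Sum.inr ⟨y, h⟩), f)) (fun a b hab => (Prod.ext_iff.1 hab).2)
  · simp only [dif_neg h]
    exact Bd.zero

omit [SMulCommClass A (FreeGroup ι) X] in
theorem Bd_T0 [Fintype ι] [Fintype (II X ι)] (φ : X → FreeGroup ι) {p n : ℕ}
    (e : ι ⊕ II X ι ≃ Fin p) (e' : Option (II X ι) ≃ Fin n) : Bd (T0 φ e e') := by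
  apply Bd.prod
  intro j
  unfold T0
  rcases hj : e'.symm j with _ | y
  · simp only [hj, TT]
    refine Bd.add (Bd.sum _ fun s => Bd.sub ?_ ?_) (Bd.sum _ fun y => ?_)
    · exact Bd.proj (fun f => (e (Sum.inl s), f * (FreeGroup.of s)⁻¹))
        (fun a b hab => mul_left_injective _ (Prod.ext_iff.1 hab).2)
    · exact Bd.proj (fun f => (e (Sum.inl s), f)) (fun a b hab => (Prod.ext_iff.1 hab).2)
    · exact Bd.proj (fun f => (e (Sum.inr y), f)) (fun a b hab => (Prod.ext_iff.1 hab).2)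
  · simp only [hj, TT]
    refine Bd.add (Bd.sub ?_ ?_) (Bd_xio e y.1)
    · exact Bd_DD (fun s f => (e (Sum.inl s), f)) (fun s a b hab => (Prod.ext_iff.1 hab).2) _
    · exact (Bd_xio e (ay gz y.1)).comp_inj _ (mul_left_injective _)

omit [SMulCommClass A (FreeGroup ι) X] in
theorem T0_add [Fintype ι] [Fintype (II X ι)] (φ : X → FreeGroup ι) {p n : ℕ}
    (e : ι ⊕ II X ι ≃ Fin p) (e' : Option (II X ι) ≃ Fin n) (x y : Fin p × FreeGroup ι → ℝ) :
    T0 φ e e' (fun a => x a + y a) = fun b => T0 φ e e' x b + T0 φ e e' y b := by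
  funext q
  unfold T0
  rcases hj : e'.symm q.1 with _ | z
  · simp only [TT]
    simp only [Finset.sum_add_distrib, Finset.sum_sub_distrib]
    ring
  · simp only [TT]
    have h1 : ∀ z f, xio (X := X) (ι := ι) (fun r => x (e r.1, r.2) + y (e r.1, r.2)) z f =
        xio (X := X) (ι := ι) (fun r => x (e r.1, r.2)) z f + xio (X := X) (ι := ι) (fun r => y (e r.1, r.2)) z f := by
      intro z f
      unfold xio
      by_cases h : z.out ∉ Xf X <;> simp [h]
    have h2 := DD_add (bo (X := X) (ι := ι) (fun r => x (e r.1, r.2))) (bo (X := X) (ι := ι) (fun r => y (e r.1, r.2)))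
      (Hc φ gz z.1) q.2
    rw [h1, h1]
    have h3 : bo (X := X) (ι := ι) (fun r => x (e r.1, r.2) + y (e r.1, r.2)) =
      (fun s f => bo (X := X) (ι := ι) (fun r => x (e r.1, r.2)) s f + bo (X := X) (ι := ι) (fun r => y (e r.1, r.2)) s f) := rfl
    rw [h3, h2]
    ring

omit [SMulCommClass A (FreeGroup ι) X] in
theorem T0_smul [Fintype ι] [Fintype (II X ι)] (φ : X → FreeGroup ι) {p n : ℕ}
    (e : ι ⊕ II X ι ≃ Fin p) (e' : Option (II X ι) ≃ Fin n) (c : ℝ) (x : Fin p × FreeGroup ι → ℝ) :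
    T0 φ e e' (fun a => c * x a) = fun b => c * T0 φ e e' x b := by
  funext q
  unfold T0
  rcases hj : e'.symm q.1 with _ | z
  · simp only [TT]
    rw [mul_add, Finset.mul_sum, Finset.mul_sum]
    congr 1
    apply Finset.sum_congr rfl
    intro s _
    ring
  · simp only [TT]
    have h1 : ∀ z f, xio (X := X) (ι := ι) (fun r => c * x (e r.1, r.2)) z f =
        c * xio (X := X) (ι := ι) (fun r => x (e r.1, r.2)) z f := by
      intro z f
      unfold xio
      by_cases h : z.out ∉ Xf X <;> simp [h]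
    have h2 := DD_smul c (bo (X := X) (ι := ι) (fun r => x (e r.1, r.2))) (Hc φ gz z.1) q.2
    rw [h1, h1]
    have h3 : bo (X := X) (ι := ι) (fun r => c * x (e r.1, r.2)) =
      (fun s f => c * bo (X := X) (ι := ι) (fun r => x (e r.1, r.2)) s f) := rfl
    rw [h3, h2]
    ring

omit [SMulCommClass A (FreeGroup ι) X] in
theorem T0_equiv [Fintype ι] [Fintype (II X ι)] (φ : X → FreeGroup ι) {p n : ℕ}
    (e : ι ⊕ II X ι ≃ Fin p) (e' : Option (II X ι) ≃ Fin n) (g : FreeGroup ι) (x y : Fin p × FreeGroup ι → ℝ)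
    (hxy : ∀ i f, y (i, f) = x (i, g⁻¹ * f)) (i : Fin n) (f : FreeGroup ι) :
    T0 φ e e' y (i, f) = T0 φ e e' x (i, g⁻¹ * f) := by
  unfold T0
  rcases hj : e'.symm i with _ | z
  · simp only [TT, hxy, mul_assoc]
  · simp only [TT]
    have h1 : ∀ z f, xio (X := X) (ι := ι) (fun r => y (e r.1, r.2)) z f =
        xio (X := X) (ι := ι) (fun r => x (e r.1, r.2)) z (g⁻¹ * f) := by
      intro z f
      unfold xio
      by_cases h : z.out ∉ Xf X <;> simp [h, hxy]
    have h2 := DD_left g⁻¹ (bo (X := X) (ι := ι) (fun r => x (e r.1, r.2))) (Hc φ gz z.1) f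
    have h3 : bo (X := X) (ι := ι) (fun r => y (e r.1, r.2)) =
      (fun s f => bo (X := X) (ι := ι) (fun r => x (e r.1, r.2)) s (g⁻¹ * f)) := by
      funext s f
      simp only [bo, hxy]
    rw [h1, h1, h3, h2, mul_assoc]

omit [SMulCommClass A (FreeGroup ι) X] in
theorem T0_ker [Fintype ι] [Finite (YY X ι)] [Fintype (II X ι)] (φ : X → FreeGroup ι) (i j : ι) (hij : i ≠ j) :
    ∃ x : (ι ⊕ II X ι) × FreeGroup ι → ℝ, (∀ r, Summable fun f => x (r, f) ^ 2) ∧ x ≠ 0 ∧
      ∀ r f, TT φ x r f = 0 := by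
  classical
  let e := Fintype.equivFin (ι ⊕ II X ι)
  let e' := Fintype.equivFin (Option (II X ι))
  have hlt : Fintype.card (Option (II X ι)) < Fintype.card (ι ⊕ II X ι) := by
    rw [Fintype.card_option, Fintype.card_sum]
    have : 1 < Fintype.card ι := Fintype.one_lt_card_iff.2 ⟨i, j, hij⟩
    omega
  obtain ⟨L, hL⟩ := (Bd_T0 φ e e').toCLM (T0_add φ e e') (T0_smul φ e e')
  obtain ⟨x, hx0, hx⟩ := vn hlt L (by
    intro g x y hxy i f
    rw [hL, hL]
    exact T0_equiv φ e e' g x y hxy i f)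
  have h2 : (0:ℝ) < (2 : ENNReal).toReal := by simp
  have hs : Summable fun a => x a ^ 2 := by
    have := (memℓp_gen_iff h2).1 (lp.memℓp x)
    simpa using this
  refine ⟨fun r => x (e r.1, r.2), ?_, ?_, ?_⟩
  · intro r
    exact hs.comp_injective (i := fun f => (e r, f)) (fun a b hab => (Prod.ext_iff.1 hab).2)
  · intro h
    apply hx0
    apply lp.ext
    funext q
    have := congrFun h (e.symm q.1, q.2)
    simpa using this
  · intro r f
    have h3 := hL x (e' r, f)
    rw [hx] at h3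
    have h4 : T0 φ e e' x (e' r, f) = TT φ (fun r => x (e r.1, r.2)) r f := by
      unfold T0
      simp
    rw [← h4, ← h3]
    rfl

end X4M



theorem summable_mul_of_sq {α : Type} {u v : α → ℝ} (hu : Summable fun a => u a ^ 2)
    (hv : Summable fun a => v a ^ 2) : Summable fun a => u a * v a := by
  have h : Summable fun a => u a ^ 2 + v a ^ 2 := hu.add hv
  refine Summable.of_norm_bounded h ?_
  intro a
  rw [Real.norm_eq_abs, abs_le]
  constructor <;> nlinarith [sq_nonneg (u a + v a), sq_nonneg (u a - v a), sq_nonneg (u a), sq_nonneg (v a)]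

theorem summable_add_sq {α : Type} {u v : α → ℝ} (hu : Summable fun a => u a ^ 2)
    (hv : Summable fun a => v a ^ 2) : Summable fun a => (u a + v a) ^ 2 := by
  have h : Summable fun a => 2 * u a ^ 2 + 2 * v a ^ 2 := (hu.mul_left 2).add (hv.mul_left 2)
  refine Summable.of_nonneg_of_le (fun _ => sq_nonneg _) ?_ h
  intro a
  nlinarith [sq_nonneg (u a - v a)]

theorem summable_sub_sq {α : Type} {u v : α → ℝ} (hu : Summable fun a => u a ^ 2)
    (hv : Summable fun a => v a ^ 2) : Summable fun a => (u a - v a) ^ 2 := by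
  have h : Summable fun a => 2 * u a ^ 2 + 2 * v a ^ 2 := (hu.mul_left 2).add (hv.mul_left 2)
  refine Summable.of_nonneg_of_le (fun _ => sq_nonneg _) ?_ h
  intro a
  nlinarith [sq_nonneg (u a + v a)]


theorem summable_comp_pair {α β γ : Type} (g : α → β → ℝ) (h : Summable fun q : α × β => g q.1 q.2)
    (u : γ → α) (v : γ → β) (hinj : Function.Injective fun t => (u t, v t)) :
    Summable fun t => g (u t) (v t) := h.comp_injective hinj

theorem summable_fin_prod {α β : Type} [Finite α] (g : α → β → ℝ) (h : ∀ a, Summable fun b => g a b ^ 2) :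
    Summable fun q : α × β => g q.1 q.2 ^ 2 := by
  rw [summable_prod_of_nonneg (fun _ => sq_nonneg _)]
  exact ⟨fun y => h y, Summable.of_finite⟩

theorem energy_sum {X ι : Type} [MulAction (FreeGroup ι) X] (hfin : Finite (YY X ι))
    (G : YY X ι → FreeGroup ι → ℝ) (hG : ∀ y, Summable fun f => G y f ^ 2) (φ : X → FreeGroup ι)
    (hinj : ∀ t t' : X, cl ι t = cl ι t' → φ t = φ t' → t = t') :
    Summable fun t : X => G (cl ι t) (φ t) ^ 2 := by
  have h1 := summable_fin_prod G hG
  have h3 : Function.Injective fun t : X => (cl ι t, φ t) := by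
    intro t t' h
    have := Prod.ext_iff.1 h
    exact hinj t t' this.1 this.2
  exact summable_comp_pair (fun y f => G y f ^ 2) h1 (cl ι) φ h3

/-- the energy identity -/
theorem energy_zero {ι : Type} [Fintype ι] (η : FreeGroup ι → ℝ) (b : ι → FreeGroup ι → ℝ) (m : ℕ)
    (hη : Summable fun f => η f ^ 2) (hb : ∀ s, Summable fun f => b s f ^ 2)
    (hd : ∀ s f, b s f = η (f * FreeGroup.of s) - η f)
    (h0 : ∀ f, ∑ s, (b s (f * (FreeGroup.of s)⁻¹) - b s f) + m * η f = 0) :
    (∀ s f, b s f = 0) ∧ (0 < m → ∀ f, η f = 0) := by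
  have hηs : ∀ s, Summable fun f => η (f * FreeGroup.of s) ^ 2 := by
    intro s
    exact hη.comp_injective (mul_left_injective (FreeGroup.of s))
  have hP : ∀ s, Summable fun f => η (f * FreeGroup.of s) * b s f := fun s => summable_mul_of_sq (hηs s) (hb s)
  have hQ : ∀ s, Summable fun f => η f * b s f := fun s => summable_mul_of_sq hη (hb s)
  have hB : ∀ s, ∑' f, η (f * FreeGroup.of s) * b s f - ∑' f, η f * b s f = ∑' f, b s f ^ 2 := by
    intro s
    rw [← (hP s).tsum_sub (hQ s)]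
    apply tsum_congr
    intro f
    rw [hd]; ring
  have hR : ∀ s, HasSum (fun f => η f * b s (f * (FreeGroup.of s)⁻¹)) (∑' f, η (f * FreeGroup.of s) * b s f) := by
    intro s
    rw [← (Equiv.mulRight (FreeGroup.of s)).hasSum_iff]
    have h := (hP s).hasSum
    convert h using 2
    simp [Function.comp]
  have hT : HasSum (fun f => ∑ s, (η f * b s (f * (FreeGroup.of s)⁻¹) - η f * b s f) + m * η f ^ 2)
      (∑ s, (∑' f, η (f * FreeGroup.of s) * b s f - ∑' f, η f * b s f) + m * ∑' f, η f ^ 2) := by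
    apply HasSum.add
    · apply hasSum_sum
      intro s _
      exact (hR s).sub (hQ s).hasSum
    · exact hη.hasSum.mul_left _
  have hz : (fun f => ∑ s, (η f * b s (f * (FreeGroup.of s)⁻¹) - η f * b s f) + m * η f ^ 2) = fun _ => (0:ℝ) := by
    funext f
    have h1 := h0 f
    have h2 : ∑ s, (η f * b s (f * (FreeGroup.of s)⁻¹) - η f * b s f) =
        η f * ∑ s, (b s (f * (FreeGroup.of s)⁻¹) - b s f) := by
      rw [Finset.mul_sum]
      exact Finset.sum_congr rfl fun s _ => by ring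
    rw [h2]
    have : η f * ∑ s, (b s (f * (FreeGroup.of s)⁻¹) - b s f) + m * η f ^ 2 =
      η f * (∑ s, (b s (f * (FreeGroup.of s)⁻¹) - b s f) + m * η f) := by ring
    rw [this, h1, mul_zero]
  rw [hz] at hT
  have h3 := hT.unique hasSum_zero
  simp only [hB] at h3
  have h4 : 0 ≤ ∑ s, ∑' f, b s f ^ 2 := Finset.sum_nonneg fun s _ => tsum_nonneg fun f => sq_nonneg _
  have h5 : 0 ≤ (m:ℝ) * ∑' f, η f ^ 2 := mul_nonneg (Nat.cast_nonneg _) (tsum_nonneg fun f => sq_nonneg _)
  constructor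
  · have h6 : ∑ s, ∑' f, b s f ^ 2 = 0 := by linarith
    intro s f
    have h7 := (Finset.sum_eq_zero_iff_of_nonneg (fun s _ => tsum_nonneg fun f => sq_nonneg (b s f))).1 h6 s (Finset.mem_univ s)
    have h8 : HasSum (fun f => b s f ^ 2) 0 := by rw [← h7]; exact (hb s).hasSum
    have h9 := congrFun ((hasSum_zero_iff_of_nonneg (fun f => sq_nonneg (b s f))).1 h8) f
    exact pow_eq_zero_iff (two_ne_zero) |>.1 h9
  · intro hm f
    have h6 : (m:ℝ) * ∑' f, η f ^ 2 = 0 := by linarith
    have hm' : (m:ℝ) ≠ 0 := Nat.cast_ne_zero.2 hm.ne'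
    have h7 : ∑' f, η f ^ 2 = 0 := (mul_eq_zero.1 h6).resolve_left hm'
    have h8 : HasSum (fun f => η f ^ 2) 0 := by rw [← h7]; exact hη.hasSum
    have h9 := congrFun ((hasSum_zero_iff_of_nonneg (fun f => sq_nonneg (η f))).1 h8) f
    exact pow_eq_zero_iff (two_ne_zero) |>.1 h9

end X4h

open X4h in
theorem exists_unbounded {X : Type} [MulAction A X] [MulAction.IsPretransitive A X] [Nonempty X]
    {ι : Type} [Finite ι]
    [MulAction (FreeGroup ι) X] [SMulCommClass A (FreeGroup ι) X]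
    (hfree : ∀ (f : FreeGroup ι) (x : X), f • x = x → f = 1)
    (hfin : Finite (MulAction.orbitRel.Quotient (FreeGroup ι) X))
    (i j : ι) (hij : i ≠ j) :
    ∃ c : X → ℝ, (∀ x, c (gz • x) = c x) ∧ (Summable fun x => (c (ga • x) - c x) ^ 2) ∧
      (Summable fun x => (c (gb • x) - c x) ^ 2) ∧ ∀ k : ℝ, ¬ L2s (fun x => c x - k) := by
  classical
  have hι : Fintype ι := Fintype.ofFinite ι
  have hY : Finite (YY X ι) := hfin
  have hI : Fintype (II X ι) := Fintype.ofFinite _
  obtain ⟨φ, hφ, hφz⟩ := exists_coord (X := X) (F := FreeGroup ι) hfree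
  obtain ⟨x, hxs, hx0, hx⟩ := T0_ker φ i j hij
  have hinj : ∀ t t' : X, cl ι t = cl ι t' → φ t = φ t' → t = t' := by
    intro t t' h1 h2
    obtain ⟨f, hf⟩ := exists_out (ι := ι) t
    obtain ⟨f', hf'⟩ := exists_out (ι := ι) t'
    rw [← h1] at hf'
    rw [hf, hf', hφ, hφ] at h2
    rw [hf, hf', mul_right_cancel h2]
  have hcl : ∀ t : X, t ∈ Xf X ↔ (cl ι t).out ∈ Xf X := by
    intro t
    obtain ⟨f, hf⟩ := exists_out (ι := ι) t
    conv_lhs => rw [hf]
    rw [Xf_smul]
  have hsum : Summable fun a => x a ^ 2 := by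
    rw [summable_prod_of_nonneg (fun _ => sq_nonneg _)]
    exact ⟨hxs, Summable.of_finite⟩
  have hDD : ∀ h, Summable fun f => DD (bo x) h f ^ 2 := by
    intro h
    obtain ⟨C, hC, hh⟩ := Bd_DD (ι := ι) (α := (ι ⊕ II X ι) × FreeGroup ι) (fun s f => (Sum.inl s, f))
      (fun s a b hab => (Prod.ext_iff.1 hab).2) h
    exact (hh x hsum).1
  have hXi : ∀ y, Summable fun f => xio x y f ^ 2 := by
    intro y
    unfold xio
    by_cases h : y.out ∉ Xf X
    · simp only [dif_pos h]; exact hxs _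
    · simp only [dif_neg h]; simp
  have hinv : ∀ t, uu (bo x) (φ (gz • t)) - xio x (cl ι (gz • t)) (φ (gz • t)) =
      uu (bo x) (φ t) - xio x (cl ι t) (φ t) := by
    intro t
    by_cases ht : t ∈ Xf X
    · have h1 : xio x (cl ι (gz • t)) (φ (gz • t)) = 0 := by
        unfold xio
        rw [dif_neg]
        rw [not_not, ← hcl, Xf_gz]; exact ht
      have h2 : xio x (cl ι t) (φ t) = 0 := by
        unfold xio
        rw [dif_neg]
        rw [not_not, ← hcl]; exact ht
      rw [h1, h2, hφz t ht]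
    · have h1 : (cl ι t).out ∉ Xf X := by rw [← hcl]; exact ht
      have h2 := hx (some ⟨cl ι t, h1⟩) (φ t)
      simp only [TT] at h2
      rw [cl_smulA, phi_smulA φ hφ]
      unfold DD at h2
      linarith
  have henergy : ∀ g : A, Summable fun t => ((uu (bo x) (φ (g • t)) - xio x (cl ι (g • t)) (φ (g • t))) -
      (uu (bo x) (φ t) - xio x (cl ι t) (φ t))) ^ 2 := by
    intro g
    have h1 := energy_sum (X := X) (ι := ι) hY (fun y f => (DD (bo x) (Hc φ g y) f -
        xio x (ay g y) (f * Hc φ g y)) + xio x y f) (fun y => by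
      refine summable_add_sq (summable_sub_sq (hDD _) ?_) (hXi y)
      exact (hXi (ay g y)).comp_injective (mul_left_injective (Hc φ g y))) φ hinj
    refine h1.congr ?_
    intro t
    rw [cl_smulA, phi_smulA φ hφ]
    unfold DD
    ring
  refine ⟨fun t => uu (bo x) (φ t) - xio x (cl ι t) (φ t), hinv, henergy ga, henergy gb, ?_⟩
  intro k hk
  unfold L2s at hk
  -- points
  have hpt1 : ∀ (y : YY X ι) f, φ ((f * (φ y.out)⁻¹) • y.out) = f := by
    intro y f; rw [hφ]; group
  have hpt2 : ∀ (y : YY X ι) (f : FreeGroup ι), cl ι ((f * (φ y.out)⁻¹) • y.out) = y := by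
    intro y f; rw [cl_smul, cl_out]
  have hslice : ∀ y : YY X ι, Summable fun f => (uu (bo x) f - xio x y f - k) ^ 2 := by
    intro y
    have := hk.comp_injective (i := fun f : FreeGroup ι => (f * (φ y.out)⁻¹) • y.out) (fun f f' h => by
      have h1 := congrArg φ h
      simpa only [hpt1] using h1)
    refine this.congr ?_
    intro f
    change (uu (bo x) (φ ((f * (φ y.out)⁻¹) • y.out)) - xio x (cl ι ((f * (φ y.out)⁻¹) • y.out))
      (φ ((f * (φ y.out)⁻¹) • y.out)) - k) ^ 2 = _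
    rw [hpt1, hpt2]
  have hη : Summable fun f => (uu (bo x) f - k) ^ 2 := by
    obtain ⟨t0⟩ := ‹Nonempty X›
    have := summable_add_sq (hslice (cl ι t0)) (hXi (cl ι t0))
    refine this.congr ?_
    intro f
    ring
  have hconst : ∀ t : X, t ∉ Xf X → uu (bo x) (φ t) - xio x (cl ι t) (φ t) = k := by
    intro t ht
    have hin : Function.Injective fun n : ℕ => gz ^ n • t := by
      have : ∀ a b : ℕ, a < b → gz ^ a • t ≠ gz ^ b • t := by
        intro a b hab h
        apply ht
        refine ⟨b - a, by omega, ?_⟩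
        have h2 : b = a + (b - a) := by omega
        rw [h2, pow_add, mul_smul] at h
        exact (MulAction.injective (gz ^ a) h).symm
      intro a b hab
      rcases lt_trichotomy a b with h | h | h
      · exact absurd hab (this a b h)
      · exact h
      · exact absurd hab.symm (this b a h)
    have hc : ∀ n : ℕ, uu (bo x) (φ (gz ^ n • t)) - xio x (cl ι (gz ^ n • t)) (φ (gz ^ n • t)) =
        uu (bo x) (φ t) - xio x (cl ι t) (φ t) := by
      intro n
      induction n with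
      | zero => simp
      | succ n ih => rw [pow_succ', mul_smul, hinv, ih]
    have h1 := hk.comp_injective hin
    have h2 : (fun n : ℕ => (uu (bo x) (φ t) - xio x (cl ι t) (φ t) - k) ^ 2) =
        (fun t => (uu (bo x) (φ t) - xio x (cl ι t) (φ t) - k) ^ 2) ∘ (fun n : ℕ => gz ^ n • t) := by
      funext n
      simp only [Function.comp]
      rw [hc]
    rw [← h2] at h1
    have h3 := (summable_const_iff _).1 h1
    have h4 := pow_eq_zero_iff (two_ne_zero) |>.1 h3
    linarith
  have hξ : ∀ (y : II X ι) f, x (Sum.inr y, f) = uu (bo x) f - k := by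
    intro y f
    have h1 := hconst ((f * (φ y.1.out)⁻¹) • y.1.out) (by rw [Xf_smul]; exact y.2)
    rw [hpt1, hpt2] at h1
    have h2 : xio x y.1 f = x (Sum.inr y, f) := by
      unfold xio
      rw [dif_pos y.2]
    linarith
  obtain ⟨hb0, hη0⟩ := energy_zero (fun f => uu (bo x) f - k) (bo x) (Fintype.card (II X ι)) hη
    (fun s => hxs (Sum.inl s)) (fun s f => by rw [uu_of]; ring) (by
      intro f
      have h1 := hx none f
      simp only [TT] at h1
      have h2 : ∑ y : II X ι, x (Sum.inr y, f) = Fintype.card (II X ι) * (uu (bo x) f - k) := by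
        simp only [hξ, Finset.sum_const, Finset.card_univ, nsmul_eq_mul]
      rw [h2] at h1
      exact h1)
  apply hx0
  funext q
  obtain ⟨r | y, f⟩ := q
  · exact hb0 r f
  · change x (Sum.inr y, f) = 0
    rw [hξ]
    exact hη0 (Fintype.card_pos_iff.2 ⟨y⟩) f

end Pool.Agent.Helper96.OF
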